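import Pool.Agent.ZH17.RD.Stm6

/-!
# Piece GR1
-/

set_option autoImplicit false
set_option linter.unusedSectionVars false
set_option linter.style.haveILetI false

open scoped BigOperators Classical

noncomputable section

namespace Pool.Agent.ZH17.RD

open Pool.Agent.Helper884 Pool.Agent.K3h3.KB Pool.Agent.K3h3.MK Pool.Agent.K3h83.IN
open Pool.Agent.K3h33.CY
open Pool.Agent.H254R3.IN (IsIrr mem_Irr)
open IC (Irr)

namespace GR1

section gr1

variable {G N I : Type} [Group G] [Group N]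

theorem ast_trans {a : MulAut N} {R : Subgroup N} (h : ∀ x, a x ∈ R ↔ x ∈ R) (x : N) :
    a x ∈ Subgroup.normalizer (R : Set N) ↔ x ∈ Subgroup.normalizer (R : Set N) := by
  have h1 : ∀ (b : MulAut N), (∀ x, b x ∈ R ↔ x ∈ R) → ∀ x ∈ Subgroup.normalizer (R : Set N),
      b x ∈ Subgroup.normalizer (R : Set N) := by
    intro b hb x hx
    rw [Subgroup.mem_normalizer_iff] at hx ⊢
    intro y
    obtain ⟨z, rfl⟩ := b.surjective y
    rw [hb, hx z, ← map_inv, ← map_mul, ← map_mul, hb]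
  refine ⟨fun hx => ?_, h1 a h x⟩
  have h2 := h1 a⁻¹ (fun y => by rw [← h (a⁻¹ y), MulAut.apply_inv_self]) _ hx
  rwa [MulAut.inv_apply_self] at h2

theorem conj_Ast {R : Subgroup N} {x : N} (hx : x ∈ Subgroup.normalizer (R : Set N)) : MulAut.conj x ∈ Ast R := by
  rw [mem_Ast]
  refine ⟨fun y => ?_, fun z hz => ?_⟩
  · rw [Subgroup.mem_normalizer_iff] at hx
    rw [MulAut.conj_apply, ← hx]
  · rw [MulAut.conj_apply, Subgroup.mem_center_iff.1 hz x, mul_inv_cancel_right]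

end gr1

end GR1

open GR1 in
theorem gr1 : GR1 := by
  intro p _ G _ _ P N _ _ I _ _ F H σ c Q R hR hRn hFn hFH hP hc hconj hcQ hFQ hFs
  -- `Q`-normalizing elements normalize `R`
  have hQR : ∀ x ∈ NN Q, x ∈ Subgroup.normalizer (R : Set N) := by
    intro x hx
    have h1 := hR _ (conj_Ast (R := (Q : Subgroup N)) hx)
    rw [Subgroup.mem_normalizer_iff]
    intro y
    rw [← h1 y, MulAut.conj_apply]
  have hcR : ∀ h i x, c h i x ∈ Subgroup.normalizer (R : Set N) ↔ x ∈ Subgroup.normalizer (R : Set N) :=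
    fun h i x => ast_trans (hR _ (hcQ h i)) x
  have hc1 : ∀ i, c 1 i = 1 := by
    intro i
    have h1 := hc 1 1 i
    rw [map_one, Equiv.Perm.one_apply, mul_one] at h1
    exact (mul_eq_left.1 h1.symm)
  -- well-definedness
  have hwd : ∀ (n n' : I → N) (h h' : H), F n * h = F n' * h' →
      σ h = σ h' ∧ ∀ i, MulAut.conj (n (σ h i)) * c h i = MulAut.conj (n' (σ h' i)) * c h' i := by
    intro n n' h h' heq
    have h1 : F (n'⁻¹ * n) = ((h' * h⁻¹ : H) : G) := by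
      rw [map_mul, map_inv, Subgroup.coe_mul, Subgroup.coe_inv, inv_mul_eq_iff_eq_mul, ← mul_assoc, ← heq,
        mul_inv_cancel_right]
    have h2 : F (n'⁻¹ * n) ∈ H := by
      rw [h1]
      exact SetLike.coe_mem _
    have h3 : (⟨F (n'⁻¹ * n), h2⟩ : H) * h = h' := by
      apply Subtype.ext
      rw [Subgroup.coe_mul]
      show F (n'⁻¹ * n) * (h : G) = h'
      rw [h1, Subgroup.coe_mul, Subgroup.coe_inv, inv_mul_cancel_right]
    obtain ⟨h4, h5⟩ := hFs _ h2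
    have h6 : σ h' = σ h := by
      rw [← h3, map_mul, h4, one_mul]
    refine ⟨h6.symm, fun i => ?_⟩
    rw [h6]
    have h7 := hc ⟨F (n'⁻¹ * n), h2⟩ h i
    rw [h3, h5] at h7
    rw [h7, ← mul_assoc, ← map_mul]
    congr 2
    rw [Pi.mul_apply, Pi.inv_apply, mul_inv_cancel_left]
  -- conjugation
  have hcj : ∀ (h : H) (n : I → N), (h : G) * F n = F (fun i => c h ((σ h)⁻¹ i) (n ((σ h)⁻¹ i))) * h := by
    intro h n
    rw [← hconj, inv_mul_cancel_right]
  -- the subgroup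
  let H₁ : Subgroup G :=
    { carrier := {g | ∃ (n : I → N) (h : H), (∀ i, n i ∈ Subgroup.normalizer (R : Set N)) ∧ g = F n * h}
      one_mem' := ⟨1, 1, fun _ => Subgroup.one_mem _, by simp⟩
      mul_mem' := by
        rintro _ _ ⟨n, h, hn, rfl⟩ ⟨n', h', hn', rfl⟩
        refine ⟨n * (fun i => c h ((σ h)⁻¹ i) (n' ((σ h)⁻¹ i))), h * h', fun i => ?_, ?_⟩
        · exact Subgroup.mul_mem _ (hn i) ((hcR _ _ _).2 (hn' _))
        · rw [map_mul, Subgroup.coe_mul, mul_assoc (F n), ← mul_assoc (h : G), hcj]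
          simp only [mul_assoc]
      inv_mem' := by
        rintro _ ⟨n, h, hn, rfl⟩
        refine ⟨fun i => c h⁻¹ ((σ h⁻¹)⁻¹ i) (n⁻¹ ((σ h⁻¹)⁻¹ i)), h⁻¹, fun i => ?_, ?_⟩
        · exact (hcR _ _ _).2 (Subgroup.inv_mem _ (hn _))
        · rw [mul_inv_rev, ← map_inv, ← hcj, Subgroup.coe_inv] }
  have hH1 : ∀ g, g ∈ H₁ ↔ ∃ (n : I → N) (h : H), (∀ i, n i ∈ Subgroup.normalizer (R : Set N)) ∧ g = F n * h :=
    fun _ => Iff.rfl
  choose n h hn hg using fun g : H₁ => (hH1 g).1 g.2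
  have hHH : H ≤ H₁ := fun g hg => ⟨1, ⟨g, hg⟩, fun _ => Subgroup.one_mem _, by simp⟩
  have hFR : ∀ m : I → N, F m ∈ H₁ ↔ ∀ i, m i ∈ Subgroup.normalizer (R : Set N) := by
    intro m
    constructor
    · rintro ⟨n, h, hn, hnh⟩ i
      have h1 : F (n⁻¹ * m) ∈ H := by
        rw [map_mul, map_inv, hnh, inv_mul_cancel_left]
        exact h.2
      have h2 := (hFQ _).1 h1 i
      have h3 := Subgroup.mul_mem _ (hn i) (hQR _ h2)
      rwa [Pi.mul_apply, Pi.inv_apply, mul_inv_cancel_left] at h3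
    · intro hm
      exact ⟨m, 1, hm, by simp⟩
  let s : H₁ → Equiv.Perm I := fun g => σ (h g)
  let c₁ : H₁ → I → MulAut N := fun g i => MulAut.conj (n g (σ (h g) i)) * c (h g) i
  have key : ∀ (g : H₁) (m : I → N) (k : H), (g : G) = F m * k →
      s g = σ k ∧ ∀ i, c₁ g i = MulAut.conj (m (σ k i)) * c k i := by
    intro g m k hk
    exact hwd _ _ _ _ ((hg g).symm.trans hk)
  have hmul : ∀ g g' : H₁, ((g * g' : H₁) : G) =
      F (n g * (fun i => c (h g) ((σ (h g))⁻¹ i) (n g' ((σ (h g))⁻¹ i)))) * ((h g * h g' : H) : G) := by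
    intro g g'
    rw [Subgroup.coe_mul, hg g, hg g', map_mul, Subgroup.coe_mul, mul_assoc (F (n g)), ← mul_assoc ((h g : H) : G), hcj]
    simp only [mul_assoc]
  have hσ : ∀ g g' : H₁, s (g * g') = s g * s g' := by
    intro g g'
    rw [(key _ _ _ (hmul g g')).1, map_mul]
  have hone : s 1 = 1 := by
    have h1 := hσ 1 1
    rw [mul_one] at h1
    exact (mul_eq_left.1 h1.symm)
  refine ⟨H₁, ⟨⟨s, hone⟩, hσ⟩, c₁, ?_, hP.trans hHH, ?_, ?_, ?_, ?_, hFR, ?_⟩
  · exact top_le_iff.1 (hFH ▸ sup_le_sup_left hHH _)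
  · intro htop
    apply hRn
    rw [eq_top_iff]
    intro x _
    obtain ⟨i⟩ := ‹Nonempty I›
    have h1 : F (fun _ => x) ∈ H₁ := by
      rw [htop]
      exact Subgroup.mem_top _
    exact (hFR _).1 h1 i
  · intro g g' i
    show c₁ (g * g') i = c₁ g (s g' i) * c₁ g' i
    rw [(key _ _ _ (hmul g g')).2]
    show MulAut.conj ((n g * (fun i => c (h g) ((σ (h g))⁻¹ i) (n g' ((σ (h g))⁻¹ i)))) (σ (h g * h g') i)) *
      c (h g * h g') i = MulAut.conj (n g (σ (h g) (σ (h g') i))) * c (h g) (σ (h g') i) *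
        (MulAut.conj (n g' (σ (h g') i)) * c (h g') i)
    have h0 : (σ (h g))⁻¹ (σ (h g) (σ (h g') i)) = σ (h g') i := by simp
    rw [Pi.mul_apply, map_mul σ, Equiv.Perm.mul_apply, h0, hc, map_mul MulAut.conj]
    ext x
    simp only [MulAut.mul_apply, MulAut.conj_apply, map_mul, map_inv, mul_assoc, mul_inv_rev]
  · intro g m
    show (g : G) * F m * (g : G)⁻¹ = F fun i => c₁ g ((s g)⁻¹ i) (m ((s g)⁻¹ i))
    rw [hg g, mul_inv_rev]
    have h1 : F (n g) * (h g : G) * F m * ((h g : G)⁻¹ * (F (n g))⁻¹) =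
        F (n g) * ((h g : G) * F m * (h g : G)⁻¹) * (F (n g))⁻¹ := by
      simp only [mul_assoc]
    rw [h1, hconj, ← map_mul F, ← map_inv F, ← map_mul F]
    congr 1
    funext i
    show n g i * c (h g) ((σ (h g))⁻¹ i) (m ((σ (h g))⁻¹ i)) * (n g i)⁻¹ =
      (MulAut.conj (n g (σ (h g) ((σ (h g))⁻¹ i))) * c (h g) ((σ (h g))⁻¹ i)) (m ((σ (h g))⁻¹ i))
    have h0 : σ (h g) ((σ (h g))⁻¹ i) = i := by simp
    rw [h0, MulAut.mul_apply, MulAut.conj_apply]
  · intro g i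
    refine (Ast R).mul_mem (conj_Ast (hn g _)) ?_
    have h1 := hcQ (h g) i
    exact ⟨hR _ h1, h1.2⟩
  · intro m hm
    have hmR := (hFR m).1 hm
    obtain ⟨h1, h2⟩ := key ⟨F m, hm⟩ m 1 (by simp)
    refine ⟨?_, fun i => ?_⟩
    · show s ⟨F m, hm⟩ = 1
      rw [h1, map_one]
    · rw [h2, map_one, Equiv.Perm.one_apply, hc1, mul_one]


end Pool.Agent.ZH17.RD
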