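import Pool.Agent.ZH17.RD.Stm6

/-!
# Piece CLX of project RD (helper52 for helper17): matching of two finite `V`-sets
-/

set_option autoImplicit false

namespace Pool.Agent.ZH17.RD

namespace Clx

/-- exchange of two conditions -/
def swap {A : Type} (p q : A → Prop) : {x : {a // p a} // q x.1} ≃ {x : {a // q a} // p x.1} where
  toFun x := ⟨⟨x.1.1, x.2⟩, x.1.2⟩
  invFun x := ⟨⟨x.1.1, x.2⟩, x.1.2⟩
  left_inv _ := rfl
  right_inv _ := rfl

theorem card_split {A : Type} [Finite A] (p q : A → Prop) :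
    Nat.card {a // q a} = Nat.card {x : {a // p a} // q x.1} + Nat.card {x : {a // ¬ p a} // q x.1} := by
  classical
  rw [← Nat.card_sum]
  exact Nat.card_congr ((Equiv.sumCompl fun x : {a // q a} => p x.1).symm.trans
    (Equiv.sumCongr (swap q p) (swap q fun a => ¬ p a)))

theorem removal {A B : Type} [Finite A] [Finite B] (R : A → B → Prop)
    (hd : ∀ a a' b b', R a b → R a' b → R a' b' → R a b') (e : A ≃ B) (he : ∀ a, R a (e a))
    (p : A → Prop) (q : B → Prop) (e' : {a // p a} ≃ {b // q b}) (he' : ∀ a, R a.1 (e' a).1) :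
    ∃ e'' : {a // ¬ p a} ≃ {b // ¬ q b}, ∀ a, R a.1 (e'' a).1 := by
  classical
  let s : Setoid A := {
    r := fun a a' => R a (e a')
    iseqv := {
      refl := fun a => he a
      symm := fun {a a'} h => hd a' a (e a') (e a) (he a') h (he a)
      trans := fun {a a' a''} h h' => hd a a' (e a') (e a'') h (he a') h' } }
  let f : A → Quotient s := Quotient.mk s
  let g : B → Quotient s := fun b => Quotient.mk s (e.symm b)
  have hfg : ∀ a b, R a b ↔ f a = g b := by
    intro a b
    show R a b ↔ Quotient.mk s a = Quotient.mk s (e.symm b)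
    rw [Quotient.eq]
    show R a b ↔ R a (e (e.symm b))
    rw [e.apply_symm_apply]
  have hcard : ∀ c : Quotient s, Nat.card {x : {a // ¬ p a} // f x.1 = c} =
      Nat.card {x : {b // ¬ q b} // g x.1 = c} := by
    intro c
    have h1 := card_split p (fun a => f a = c)
    have h2 := card_split q (fun b => g b = c)
    have h3 : Nat.card {a // f a = c} = Nat.card {b // g b = c} := by
      refine Nat.card_congr (e.subtypeEquiv fun a => ?_)
      rw [(hfg a (e a)).1 (he a)]
    have h4 : Nat.card {x : {a // p a} // f x.1 = c} = Nat.card {x : {b // q b} // g x.1 = c} := by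
      refine Nat.card_congr (e'.subtypeEquiv fun a => ?_)
      rw [(hfg a.1 (e' a).1).1 (he' a)]
    omega
  have heq : ∀ c : Quotient s, Nonempty ({x : {a // ¬ p a} // f x.1 = c} ≃
      {x : {b // ¬ q b} // g x.1 = c}) := fun c => Finite.card_eq.1 (hcard c)
  let E := fun c => (heq c).some
  let F : {a // ¬ p a} ≃ {b // ¬ q b} := Equiv.ofFiberEquiv (f := fun x : {a // ¬ p a} => f x.1)
    (g := fun x : {b // ¬ q b} => g x.1) E
  refine ⟨F, fun a => ?_⟩
  rw [hfg]
  exact (Equiv.ofFiberEquiv_map E a).symm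

/-- the complement of an orbit -/
def comp (V : Type) {X : Type} [Group V] [MulAction V X] (x : X) : SubMulAction V X where
  carrier := {y | y ∉ MulAction.orbit V x}
  smul_mem' := by
    intro g y hy h
    apply hy
    have : g⁻¹ • g • y ∈ MulAction.orbit V x := MulAction.mem_orbit_of_mem_orbit g⁻¹ h
    rwa [inv_smul_smul] at this

theorem mem_comp {V X : Type} [Group V] [MulAction V X] (x y : X) :
    y ∈ comp V x ↔ y ∉ MulAction.orbit V x := Iff.rfl

theorem exists_theta {V X Y : Type} [Group V] [MulAction V X] [MulAction V Y] (x : X) (y : Y)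
    (h : MulAction.stabilizer V x = MulAction.stabilizer V y) :
    ∃ θ : MulAction.orbit V x ≃ MulAction.orbit V y,
      ∀ g : V, θ ⟨g • x, MulAction.mem_orbit x g⟩ = ⟨g • y, MulAction.mem_orbit y g⟩ := by
  refine ⟨((MulAction.orbitEquivQuotientStabilizer V x).trans
    (Subgroup.quotientEquivOfEq h)).trans (MulAction.orbitEquivQuotientStabilizer V y).symm, ?_⟩
  intro g
  have h1 : MulAction.orbitEquivQuotientStabilizer V x ⟨g • x, MulAction.mem_orbit x g⟩ =
      (g : V ⧸ MulAction.stabilizer V x) := by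
    rw [← Equiv.eq_symm_apply]
    apply Subtype.ext
    rw [MulAction.orbitEquivQuotientStabilizer_symm_apply]
  show (MulAction.orbitEquivQuotientStabilizer V y).symm (Subgroup.quotientEquivOfEq h
    (MulAction.orbitEquivQuotientStabilizer V x ⟨g • x, MulAction.mem_orbit x g⟩)) = _
  rw [h1]
  apply Subtype.ext
  have h2 : Subgroup.quotientEquivOfEq h (g : V ⧸ MulAction.stabilizer V x) =
      (g : V ⧸ MulAction.stabilizer V y) := rfl
  rw [h2, MulAction.orbitEquivQuotientStabilizer_symm_apply]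

theorem main (n : ℕ) : ∀ (V X Y : Type) [Group V] [Finite V] [Finite X] [Finite Y] [MulAction V X]
  [MulAction V Y] (M : Subgroup V → X → Y → Prop)
  (_ : ∀ W W' x y, W' ≤ W → M W x y → M W' x y)
  (_ : ∀ (g : V) W x y, M W x y → M (W.map (MulAut.conj g).toMonoidHom) (g • x) (g • y))
  (_ : ∀ W x x' y y', M W x y → M W x' y → M W x' y' → M W x y')
  (_ : ∀ W : Subgroup V, ∃ e : {x : X // ∀ g ∈ W, g • x = x} ≃ {y : Y // ∀ g ∈ W, g • y = y},
    ∀ x, M W x.1 (e x).1), Nat.card X = n →
  ∃ β : X ≃ Y, (∀ (g : V) x, β (g • x) = g • β x) ∧ ∀ x, M (MulAction.stabilizer V x) x (β x) := by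
  induction n using Nat.strong_induction_on with
  | _ n ih =>
  intro V X Y _ _ _ _ _ _ M h1 h2 h3 h4 hn
  classical
  rcases isEmpty_or_nonempty X with hX | hX
  · obtain ⟨e, -⟩ := h4 ⊥
    have hY : IsEmpty Y := ⟨fun y => hX.elim (e.symm ⟨y, fun g hg => by
      rw [Subgroup.mem_bot.1 hg, one_smul]⟩).1⟩
    exact ⟨Equiv.equivOfIsEmpty X Y, fun g x => hX.elim x, fun x => hX.elim x⟩
  · -- an element with maximal stabilizer
    obtain ⟨x, hx⟩ := Finite.exists_max fun x : X => Nat.card (MulAction.stabilizer V x)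
    obtain ⟨y, hxy, hst⟩ : ∃ y : Y, M (MulAction.stabilizer V x) x y ∧
        MulAction.stabilizer V x = MulAction.stabilizer V y := by
      obtain ⟨e, he⟩ := h4 (MulAction.stabilizer V x)
      have hx' : ∀ g ∈ MulAction.stabilizer V x, g • x = x := fun g hg => hg
      refine ⟨(e ⟨x, hx'⟩).1, he ⟨x, hx'⟩, ?_⟩
      set y := (e ⟨x, hx'⟩).1 with hy
      have hle : MulAction.stabilizer V x ≤ MulAction.stabilizer V y := fun g hg => (e ⟨x, hx'⟩).2 g hg
      obtain ⟨e₂, -⟩ := h4 (MulAction.stabilizer V y)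
      set x₂ := e₂.symm ⟨y, fun g hg => hg⟩ with hx₂
      have hle2 : MulAction.stabilizer V y ≤ MulAction.stabilizer V x₂.1 := fun g hg => x₂.2 g hg
      have hc := hx x₂.1
      apply Subgroup.eq_of_le_of_card_ge hle
      exact (Subgroup.card_le_of_le hle2).trans hc
    obtain ⟨θ, hθ⟩ := exists_theta x y hst
    have hθM : ∀ (W : Subgroup V) (x₁ : MulAction.orbit V x), (∀ g ∈ W, g • x₁.1 = x₁.1) →
        M W x₁.1 (θ x₁).1 := by
      rintro W ⟨_, g, rfl⟩ hW
      show M W (g • x) (θ ⟨g • x, _⟩).1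
      rw [hθ g]
      refine h1 _ _ _ _ ?_ (h2 g _ x y hxy)
      rw [← MulAction.stabilizer_smul_eq_stabilizer_map_conj]
      exact fun k hk => hW k hk
    have hθe : ∀ (g : V) (x₁ : MulAction.orbit V x), (θ ⟨g • x₁.1, MulAction.mem_orbit_of_mem_orbit g x₁.2⟩).1 =
        g • (θ x₁).1 := by
      rintro g ⟨_, k, rfl⟩
      have e1 : (⟨g • k • x, MulAction.mem_orbit_of_mem_orbit g (MulAction.mem_orbit x k)⟩ :
          MulAction.orbit V x) = ⟨(g * k) • x, MulAction.mem_orbit x (g * k)⟩ := by
        apply Subtype.ext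
        exact (mul_smul g k x).symm
      show (θ ⟨g • k • x, _⟩).1 = g • (θ ⟨k • x, _⟩).1
      rw [e1, hθ, hθ]
      exact mul_smul g k y
    have hθfix : ∀ (W : Subgroup V) (x₁ : MulAction.orbit V x), (∀ g ∈ W, g • x₁.1 = x₁.1) ↔
        ∀ g ∈ W, g • (θ x₁).1 = (θ x₁).1 := by
      intro W x₁
      constructor
      · intro h g hg
        rw [← hθe]
        congr 2
        apply Subtype.ext
        exact h g hg
      · intro h g hg
        have h5 := h g hg
        rw [← hθe] at h5
        have h6 := θ.injective (Subtype.ext h5)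
        exact congrArg Subtype.val h6
    -- the rest
    let X' := comp V x
    let Y' := comp V y
    have hXX : Nat.card X' < n := by
      rw [← hn]
      have : Nat.card X' = Nat.card {a : X // a ∉ MulAction.orbit V x} := rfl
      rw [this]
      exact Finite.card_subtype_lt (x := x) (by simp)
    obtain ⟨β, hβ1, hβ2⟩ := ih (Nat.card X') hXX V X' Y' (fun W a b => M W a.1 b.1)
      (fun W W' a b h h' => h1 W W' a.1 b.1 h h') (fun g W a b h => h2 g W a.1 b.1 h)
      (fun W a a' b b' h h' h'' => h3 W a.1 a'.1 b.1 b'.1 h h' h'') (by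
        intro W
        obtain ⟨e, he⟩ := h4 W
        obtain ⟨e'', he''⟩ := removal (A := {x : X // ∀ g ∈ W, g • x = x})
          (B := {y : Y // ∀ g ∈ W, g • y = y}) (fun a b => M W a.1 b.1)
          (fun a a' b b' => h3 W a.1 a'.1 b.1 b'.1) e he (fun a => a.1 ∈ MulAction.orbit V x)
          (fun b => b.1 ∈ MulAction.orbit V y)
          (((swap (fun a : X => ∀ g ∈ W, g • a = a) fun a => a ∈ MulAction.orbit V x).trans
            (θ.subtypeEquiv (hθfix W))).trans
            (swap (fun b : Y => b ∈ MulAction.orbit V y) fun b => ∀ g ∈ W, g • b = b))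
          (fun a => hθM W ⟨a.1.1, a.2⟩ a.1.2)
        have hsX : ∀ a : X', (∀ g ∈ W, g • a = a) ↔ ∀ g ∈ W, g • a.1 = a.1 := by
          intro a
          refine forall₂_congr fun g _ => ?_
          rw [Subtype.ext_iff]
          rfl
        have hsY : ∀ a : Y', (∀ g ∈ W, g • a = a) ↔ ∀ g ∈ W, g • a.1 = a.1 := by
          intro a
          refine forall₂_congr fun g _ => ?_
          rw [Subtype.ext_iff]
          rfl
        refine ⟨(((Equiv.subtypeEquivRight hsX).trans
          (swap (fun a : X => a ∉ MulAction.orbit V x) fun a => ∀ g ∈ W, g • a = a)).trans e'').trans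
          ((swap (fun b : Y => ∀ g ∈ W, g • b = b) fun b => b ∉ MulAction.orbit V y).trans
          (Equiv.subtypeEquivRight hsY).symm), ?_⟩
        intro a
        exact he'' ⟨⟨a.1.1, (hsX a.1).1 a.2⟩, a.1.2⟩) rfl
    -- assembly
    let Φ : X ≃ Y := ((Equiv.Set.sumCompl (MulAction.orbit V x)).symm.trans
      (Equiv.sumCongr θ β)).trans (Equiv.Set.sumCompl (MulAction.orbit V y))
    have hΦ1 : ∀ (a : X) (ha : a ∈ MulAction.orbit V x), Φ a = (θ ⟨a, ha⟩).1 := by
      intro a ha
      show Equiv.Set.sumCompl (MulAction.orbit V y) (Sum.map θ β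
        ((Equiv.Set.sumCompl (MulAction.orbit V x)).symm a)) = _
      rw [Equiv.Set.sumCompl_symm_apply_of_mem ha]
      rfl
    have hΦ2 : ∀ (a : X) (ha : a ∉ MulAction.orbit V x), Φ a = (β ⟨a, ha⟩).1 := by
      intro a ha
      show Equiv.Set.sumCompl (MulAction.orbit V y) (Sum.map θ β
        ((Equiv.Set.sumCompl (MulAction.orbit V x)).symm a)) = _
      rw [Equiv.Set.sumCompl_symm_apply_of_notMem ha]
      rfl
    refine ⟨Φ, ?_, ?_⟩
    · intro g a
      by_cases ha : a ∈ MulAction.orbit V x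
      · rw [hΦ1 a ha, hΦ1 (g • a) (MulAction.mem_orbit_of_mem_orbit g ha)]
        exact hθe g ⟨a, ha⟩
      · have ha' : g • a ∉ MulAction.orbit V x := (comp V x).smul_mem g ha
        rw [hΦ2 a ha, hΦ2 (g • a) ha']
        have := hβ1 g ⟨a, ha⟩
        exact congrArg Subtype.val this
    · intro a
      by_cases ha : a ∈ MulAction.orbit V x
      · rw [hΦ1 a ha]
        exact hθM _ ⟨a, ha⟩ fun g hg => hg
      · rw [hΦ2 a ha]
        have h7 := hβ2 ⟨a, ha⟩
        have h8 : MulAction.stabilizer V (⟨a, ha⟩ : X') = MulAction.stabilizer V a := by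
          ext g
          rw [MulAction.mem_stabilizer_iff, MulAction.mem_stabilizer_iff, Subtype.ext_iff]
          rfl
        rw [h8] at h7
        exact h7

end Clx

theorem clx : CLX := by
  intro V X Y _ _ _ _ _ _ M h1 h2 h3 h4
  exact Clx.main _ V X Y M h1 h2 h3 h4 rfl

end Pool.Agent.ZH17.RD
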