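import Pool.Agent.ZH17.RD.Stm6

/-!
# Piece HAL
-/

set_option autoImplicit false
set_option linter.unusedSectionVars false
set_option linter.style.haveILetI false

open scoped BigOperators Classical

noncomputable section

namespace Pool.Agent.ZH17.RD

open Pool.Agent.Helper884 Pool.Agent.K3h3.KB Pool.Agent.K3h3.MK Pool.Agent.K3h83.IN
open Pool.Agent.K3h33.CY
open Pool.Agent.H254R3.IN (IsIrr mem_Irr)
open IC (Irr)

namespace HAL

section hal

variable {N : Type} [Group N]

theorem conj_Ast' {R : Subgroup N} {x : N} (hx : x ∈ Subgroup.normalizer (R : Set N)) : MulAut.conj x ∈ Ast R := by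
  rw [mem_Ast]
  refine ⟨fun y => ?_, fun z hz => ?_⟩
  · rw [Subgroup.mem_normalizer_iff] at hx
    rw [MulAut.conj_apply, ← hx]
  · rw [MulAut.conj_apply, Subgroup.mem_center_iff.1 hz x, mul_inv_cancel_right]

/-- the conjugations by the normalizer of `R` -/
def cj (R : Subgroup N) : Subgroup.normalizer (R : Set N) →* Ast R where
  toFun b := ⟨MulAut.conj (b : N), conj_Ast' b.2⟩
  map_one' := Subtype.ext (by simp)
  map_mul' a b := Subtype.ext (by simp)

/-- the restriction of the automorphisms to the normalizer of `R` -/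
def rs (R : Subgroup N) : Ast R →* MulAut (Subgroup.normalizer (R : Set N)) where
  toFun a :=
    { toFun := fun b => ⟨(a : MulAut N) b, ast_norm a.2 _ b.2⟩
      invFun := fun b => ⟨((a⁻¹ : Ast R) : MulAut N) b, ast_norm (a⁻¹).2 _ b.2⟩
      left_inv := fun b => Subtype.ext (by
        show ((a⁻¹ : Ast R) : MulAut N) ((a : MulAut N) b) = b
        rw [Subgroup.coe_inv]
        exact MulAut.inv_apply_self N (a : MulAut N) b)
      right_inv := fun b => Subtype.ext (by
        show (a : MulAut N) (((a⁻¹ : Ast R) : MulAut N) b) = b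
        rw [Subgroup.coe_inv]
        exact MulAut.apply_inv_self N (a : MulAut N) b)
      map_mul' := fun b b' => Subtype.ext (map_mul (a : MulAut N) _ _) }
  map_one' := rfl
  map_mul' a b := rfl

theorem rs_coe (R : Subgroup N) (a : Ast R) (b : Subgroup.normalizer (R : Set N)) :
    ((rs R a b : Subgroup.normalizer (R : Set N)) : N) = (a : MulAut N) b := rfl

theorem cj_rs (R : Subgroup N) (a : Ast R) (b : Subgroup.normalizer (R : Set N)) :
    cj R (rs R a b) = a * cj R b * a⁻¹ := by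
  apply Subtype.ext
  apply MulEquiv.ext
  intro x
  show (a : MulAut N) b * x * ((a : MulAut N) b)⁻¹ =
    (a : MulAut N) ((b : N) * (((a⁻¹ : Ast R) : MulAut N) x) * (b : N)⁻¹)
  rw [map_mul, map_mul, map_inv, Subgroup.coe_inv, MulAut.apply_inv_self]

theorem map_normal (R : Subgroup N) {L : Subgroup (Subgroup.normalizer (R : Set N))}
    (hL : ∀ a, ∀ b ∈ L, rs R a b ∈ L) : (L.map (cj R)).Normal := by
  constructor
  rintro _ ⟨b, hb, rfl⟩ a
  exact ⟨rs R a b, hL a b hb, cj_rs R a b⟩

end hal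

theorem rs_Q {N : Type} [Group N] (R : Subgroup N) (a : Ast R) (b : Subgroup.normalizer (R : Set N))
    (hb : b ∈ R.subgroupOf (Subgroup.normalizer (R : Set N))) :
    rs R a b ∈ R.subgroupOf (Subgroup.normalizer (R : Set N)) := by
  rw [Subgroup.mem_subgroupOf] at hb ⊢
  rw [rs_coe]
  exact (a.2.1 _).2 hb

theorem rs_cen {N : Type} [Group N] (R : Subgroup N) (a : Ast R) (b : Subgroup.normalizer (R : Set N))
    (hb : b ∈ Subgroup.centralizer (R.subgroupOf (Subgroup.normalizer (R : Set N)) : Set _)) :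
    rs R a b ∈ Subgroup.centralizer (R.subgroupOf (Subgroup.normalizer (R : Set N)) : Set _) := by
  rw [Subgroup.mem_centralizer_iff] at hb ⊢
  intro q hq
  have h1 := hb _ (rs_Q R a⁻¹ q hq)
  have h2 : rs R a (rs R a⁻¹ q) = q := by
    rw [← MulAut.mul_apply, ← map_mul, mul_inv_cancel, map_one, MulAut.one_apply]
  rw [← h2, ← map_mul, ← map_mul, h1]

/-- characterization of `H` -/
theorem mem_H {p : ℕ} [Fact p.Prime] {B : Type} [Group B] [Finite B] {Q P H : Subgroup B} (h : LC p Q P H) (x : B) :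
    x ∈ H ↔ x ∈ Subgroup.centralizer (Q : Set B) ∧ ¬ p ∣ orderOf x := by
  have := h.nH
  constructor
  · intro hx
    refine ⟨?_, fun h1 => ?_⟩
    · rw [h.cen]
      exact Subgroup.mem_sup_left hx
    · refine h.cH (h1.trans ?_)
      have h2 := orderOf_dvd_natCard (⟨x, hx⟩ : H)
      rwa [Subgroup.orderOf_mk] at h2
  · rintro ⟨h1, h2⟩
    rw [h.cen] at h1
    have h3 : (QuotientGroup.mk' H x) ∈ P.map (QuotientGroup.mk' H) := by
      have h4 := Subgroup.mem_map_of_mem (QuotientGroup.mk' H) h1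
      rw [Subgroup.map_sup, (Subgroup.map_eq_bot_iff H).2 (by rw [QuotientGroup.ker_mk']), bot_sup_eq] at h4
      exact h4
    have h4 : IsPGroup p (P.map (QuotientGroup.mk' H)) := h.pP.map _
    obtain ⟨k, hk⟩ := (IsPGroup.iff_orderOf.1 h4) ⟨_, h3⟩
    rw [Subgroup.orderOf_mk] at hk
    have h5 : orderOf (QuotientGroup.mk' H x) ∣ orderOf x := orderOf_map_dvd _ _
    have h6 : k = 0 := by
      by_contra hk0
      refine h2 (dvd_trans ?_ h5)
      rw [hk]
      exact dvd_pow_self p hk0
    rw [h6, pow_zero, orderOf_eq_one_iff] at hk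
    exact (QuotientGroup.eq_one_iff x).1 hk

theorem cop {p : ℕ} [Fact p.Prime] {N : Type} [Group N] [Finite N] (R : Subgroup N)
    (P H : Subgroup (Subgroup.normalizer (R : Set N)))
    (h : LC p (R.subgroupOf (Subgroup.normalizer (R : Set N))) P H)
    (hA : ∀ a : MulAut N, (∀ z ∈ Subgroup.center N, a z = z) → (∃ n : N, a ^ p = MulAut.conj n) →
      ∃ n : N, a = MulAut.conj n) :
    ∃ V : Subgroup (Ast R), ¬ p ∣ Nat.card V ∧
        ∀ a : Ast R, ∃ (m : Subgroup.normalizer (R : Set N)), ∃ v ∈ V, (a : MulAut N) = MulAut.conj (m : N) * v := by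
  have hp := (Fact.out : p.Prime)
  have hfin : Finite (MulAut N) := inferInstance
  have hH : (H.map (cj R)).Normal := map_normal R fun a b hb => by
    rw [mem_H h] at hb ⊢
    refine ⟨rs_cen R a b hb.1, ?_⟩
    rw [MulEquiv.orderOf_eq (rs R a) b]
    exact hb.2
  have hK : ((H ⊔ P).map (cj R)).Normal := by
    rw [← h.cen]
    exact map_normal R fun a b hb => rs_cen R a b hb
  have hR : (cj R).range.Normal := by
    rw [MonoidHom.range_eq_map]
    exact map_normal R fun _ _ _ => Subgroup.mem_top _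
  -- the index of the range
  have h1 : ¬ p ∣ (cj R).range.index := by
    intro hd
    rw [Subgroup.index_eq_card] at hd
    obtain ⟨x, hx⟩ := exists_prime_orderOf_dvd_card' p hd
    obtain ⟨a, rfl⟩ := QuotientGroup.mk_surjective x
    have h2 : (a ^ p : Ast R) ∈ (cj R).range := by
      rw [← QuotientGroup.eq_one_iff, QuotientGroup.mk_pow, ← hx, pow_orderOf_eq_one]
    obtain ⟨b, hb⟩ := h2
    obtain ⟨n, hn⟩ := hA a a.2.2 ⟨b, by
      have := congrArg (fun x : Ast R => (x : MulAut N)) hb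
      simp only [Subgroup.coe_pow] at this
      exact this.symm⟩
    have h3 : n ∈ Subgroup.normalizer (R : Set N) := by
      rw [Subgroup.mem_normalizer_iff]
      intro y
      rw [← a.2.1 y, hn, MulAut.conj_apply]
    have h4 : a ∈ (cj R).range := ⟨⟨n, h3⟩, Subtype.ext hn.symm⟩
    rw [← QuotientGroup.eq_one_iff] at h4
    rw [h4, orderOf_one] at hx
    exact hp.one_lt.ne hx
  have h2 : ¬ p ∣ ((H ⊔ P).map (cj R)).index := by
    rw [← Subgroup.relIndex_mul_index (Subgroup.map_le_range (cj R) (H ⊔ P)), hp.dvd_mul, not_or]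
    refine ⟨?_, h1⟩
    rw [← Subgroup.index_comap]
    exact fun h3 => h.idx (h3.trans (Subgroup.index_dvd_of_le (Subgroup.le_comap_map _ _)))
  set q := QuotientGroup.mk' (H.map (cj R)) with hq
  have hqs : Function.Surjective q := QuotientGroup.mk'_surjective _
  have hKn : (((H ⊔ P).map (cj R)).map q).Normal := hK.map q hqs
  have h3 : ¬ p ∣ (((H ⊔ P).map (cj R)).map q).index :=
    fun h4 => h2 (h4.trans (Subgroup.index_map_dvd _ hqs))
  have h4 : IsPGroup p (((H ⊔ P).map (cj R)).map q) := by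
    have h5 : (H.map (cj R)).map q = ⊥ := by
      rw [Subgroup.map_eq_bot_iff, hq, QuotientGroup.ker_mk']
    rw [Subgroup.map_sup, Subgroup.map_sup, h5, bot_sup_eq]
    exact (h.pP.map _).map _
  obtain ⟨n, hn⟩ := IsPGroup.iff_card.1 h4
  have h5 : Nat.Coprime (Nat.card (((H ⊔ P).map (cj R)).map q)) (((H ⊔ P).map (cj R)).map q).index := by
    rw [hn]
    exact Nat.Coprime.pow_left n ((Nat.Prime.coprime_iff_not_dvd hp).2 h3)
  obtain ⟨K, hKc⟩ := Subgroup.exists_right_complement'_of_coprime h5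
  refine ⟨K.comap q, ?_, fun a => ?_⟩
  · have h6 : Nat.card K = (((H ⊔ P).map (cj R)).map q).index := hKc.symm.index_eq_card.symm
    have h7 : Nat.card (K.comap q) = Nat.card (H.map (cj R)) * Nat.card K := by
      have e1 := (K.comap q).card_mul_index
      have e2 := K.card_mul_index
      have e3 := (H.map (cj R)).card_mul_index
      rw [Subgroup.index_comap_of_surjective _ hqs] at e1
      have e4 : Nat.card (Ast R ⧸ H.map (cj R)) = (H.map (cj R)).index := (Subgroup.index_eq_card _).symm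
      rw [e4] at e2
      have e5 : 0 < K.index := Nat.pos_of_ne_zero Subgroup.FiniteIndex.index_ne_zero
      apply Nat.eq_of_mul_eq_mul_right e5
      rw [e1, mul_assoc, e2, e3]
    rw [h7, hp.dvd_mul, not_or, h6]
    refine ⟨fun h8 => h.cH (h8.trans (Subgroup.card_map_dvd H (cj R))), h3⟩
  · have h6 : q a ∈ ((H ⊔ P).map (cj R)).map q ⊔ K := by
      rw [hKc.sup_eq_top]
      exact Subgroup.mem_top _
    rw [Subgroup.mem_sup_of_normal_left] at h6
    obtain ⟨_, ⟨_, ⟨m, hm, rfl⟩, rfl⟩, k, hk, hmk⟩ := h6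
    refine ⟨m, (cj R m)⁻¹ * a, ?_, ?_⟩
    · rw [Subgroup.mem_comap, map_mul, map_inv, ← hmk, inv_mul_cancel_left]
      exact hk
    · rw [Subgroup.coe_mul, Subgroup.coe_inv]
      show (a : MulAut N) = MulAut.conj (m : N) * ((MulAut.conj (m : N))⁻¹ * a)
      rw [mul_inv_cancel_left]

end HAL

theorem hal : HAL := by
  intro p _ N _ _ P hP hdvd hA
  obtain ⟨R, B, H, hPB, hRP, hB, hLC, hE1, hE2⟩ := a_C0 p N P hP hdvd
  subst hB
  refine ⟨R, hRP, ?_, ?_⟩
  · rw [← hLC.cQ]
    exact Nat.card_congr (Subgroup.subgroupOfEquivOfLe Subgroup.le_normalizer).toEquiv.symm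
  · refine ⟨⟨Subgroup.subtype _, (Ast R).subtype, HAL.rs R, fun a b => rfl, _, _, H, hLC, hE1,
      fun a b hb => HAL.rs_Q R a b hb⟩, rfl, rfl, fun a b => rfl, ?_⟩
    exact HAL.cop R _ H hLC hA

end Pool.Agent.ZH17.RD
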