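import Pool.Agent.ZH17.RD.Stm

/-!
# Piece OUT of project RD: the automorphisms of a perfect group and of its central quotient
-/

set_option autoImplicit false
set_option linter.unusedSectionVars false

open scoped BigOperators Classical

noncomputable section

namespace Pool.Agent.ZH17.RD

open Pool.Agent.Helper884 Pool.Agent.K3h3.KB Pool.Agent.K3h3.MK Pool.Agent.K3h83.IN
open Pool.Agent.H254R3.IN (IsIrr mem_Irr)

namespace OutP

variable {N S : Type} [Group N] [Group S]

theorem map_center (a : MulAut N) :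
    (Subgroup.center N).map (a : N ≃* N).toMonoidHom = Subgroup.center N :=
  Subgroup.characteristic_iff_map_eq.1 inferInstance a

/-- the projection -/
def pr (e : (N ⧸ Subgroup.center N) ≃* S) : N →* S :=
  e.toMonoidHom.comp (QuotientGroup.mk' (Subgroup.center N))

theorem pr_surj (e : (N ⧸ Subgroup.center N) ≃* S) : Function.Surjective (pr e) :=
  e.surjective.comp (QuotientGroup.mk'_surjective _)

theorem pr_eq_iff (e : (N ⧸ Subgroup.center N) ≃* S) (x y : N) :
    pr e x = pr e y ↔ x⁻¹ * y ∈ Subgroup.center N := by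
  show e (QuotientGroup.mk' _ x) = e (QuotientGroup.mk' _ y) ↔ _
  rw [e.apply_eq_iff_eq]
  exact QuotientGroup.eq

/-- the induced automorphism -/
def ind (e : (N ⧸ Subgroup.center N) ≃* S) (a : MulAut N) : MulAut S :=
  (e.symm.trans (QuotientGroup.congr (Subgroup.center N) (Subgroup.center N) a
    (map_center a))).trans e

theorem ind_pr (e : (N ⧸ Subgroup.center N) ≃* S) (a : MulAut N) (x : N) :
    ind e a (pr e x) = pr e (a x) := by
  show e (QuotientGroup.congr _ _ a (map_center a) (e.symm (e (QuotientGroup.mk' _ x)))) = _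
  rw [e.symm_apply_apply]
  rfl

/-- the homomorphism to the automorphisms of the quotient -/
def rho (e : (N ⧸ Subgroup.center N) ≃* S) : MulAut N →* MulAut S where
  toFun := ind e
  map_one' := by
    ext s
    obtain ⟨x, rfl⟩ := pr_surj e s
    rw [ind_pr]
    rfl
  map_mul' a b := by
    ext s
    obtain ⟨x, rfl⟩ := pr_surj e s
    rw [ind_pr, MulAut.mul_apply, MulAut.mul_apply, ind_pr, ind_pr]

theorem rho_pr (e : (N ⧸ Subgroup.center N) ≃* S) (a : MulAut N) (x : N) :
    rho e a (pr e x) = pr e (a x) := ind_pr e a x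

theorem rho_conj (e : (N ⧸ Subgroup.center N) ≃* S) (x : N) :
    rho e (MulAut.conj x) = MulAut.conj (pr e x) := by
  ext s
  obtain ⟨y, rfl⟩ := pr_surj e s
  rw [rho_pr, MulAut.conj_apply, MulAut.conj_apply, map_mul, map_mul, map_inv]

/-- an automorphism of a perfect group which is trivial modulo the center is trivial -/
theorem rho_inj (e : (N ⧸ Subgroup.center N) ≃* S) (hN : commutator N = ⊤) :
    Function.Injective (rho e) := by
  rw [injective_iff_map_eq_one]
  intro a ha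
  have hz : ∀ x, a x * x⁻¹ ∈ Subgroup.center N := by
    intro x
    have h1 : pr e (a x) = pr e x := by
      rw [← rho_pr, ha]
      rfl
    have h2 := (pr_eq_iff e _ _).1 h1.symm
    have h3 : a x * x⁻¹ = x * (x⁻¹ * a x) * x⁻¹ := by group
    rw [h3]
    exact (inferInstance : (Subgroup.center N).Normal).conj_mem _ h2 x
  let f : N →* Subgroup.center N :=
    { toFun := fun x => ⟨a x * x⁻¹, hz x⟩
      map_one' := by
        apply Subtype.ext
        show a 1 * 1⁻¹ = 1
        rw [map_one, inv_one, mul_one]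
      map_mul' := by
        intro x y
        apply Subtype.ext
        show a (x * y) * (x * y)⁻¹ = (a x * x⁻¹) * (a y * y⁻¹)
        have h1 := (Subgroup.mem_center_iff.1 (hz y)) (x⁻¹)
        rw [map_mul, mul_inv_rev]
        calc a x * a y * (y⁻¹ * x⁻¹) = a x * ((a y * y⁻¹) * x⁻¹) := by group
          _ = a x * (x⁻¹ * (a y * y⁻¹)) := by rw [h1]
          _ = (a x * x⁻¹) * (a y * y⁻¹) := by group }
  have hf : (⊤ : Subgroup N) ≤ f.ker := by
    rw [← hN, commutator_def, Subgroup.commutator_le]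
    intro x _ y _
    rw [MonoidHom.mem_ker, map_commutatorElement, commutatorElement_eq_one_iff_mul_comm]
    apply Subtype.ext
    exact (Subgroup.mem_center_iff.1 (f y).2) (f x : N)
  ext x
  have h1 : f x = 1 := hf (Subgroup.mem_top x)
  have h2 : a x * x⁻¹ = 1 := congrArg Subtype.val h1
  show a x = x
  exact mul_inv_eq_one.1 h2

instance inn_normal : (MulAut.conj : S →* MulAut S).range.Normal := by
  refine ⟨?_⟩
  rintro _ ⟨s, rfl⟩ c
  refine ⟨c s, ?_⟩
  ext t
  simp [MulAut.conj_apply, MulAut.mul_apply]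

end OutP

open OutP

theorem out : OUT := by
  intro p _ N _ _ S _ _ hN he b d hd hbd hgen Q
  obtain ⟨e⟩ := he
  set Inn : Subgroup (MulAut S) := (MulAut.conj : S →* MulAut S).range with hInn
  have : Inn.Normal := inn_normal
  -- the outer group is cyclic
  let q : MulAut S →* MulAut S ⧸ Inn := QuotientGroup.mk' Inn
  have hq1 : ∀ c : MulAut S, q c = 1 ↔ ∃ s : S, c = MulAut.conj s := by
    intro c
    constructor
    · intro h
      obtain ⟨s, hs⟩ : c ∈ Inn := (QuotientGroup.eq_one_iff c).1 h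
      exact ⟨s, hs.symm⟩
    · rintro ⟨s, rfl⟩
      exact (QuotientGroup.eq_one_iff _).2 ⟨s, rfl⟩
  have hcyc : ∀ x : MulAut S ⧸ Inn, ∃ k : ℕ, x = q b ^ k := by
    intro x
    obtain ⟨c, rfl⟩ := QuotientGroup.mk'_surjective Inn x
    obtain ⟨s, k, rfl⟩ := hgen c
    refine ⟨k, ?_⟩
    show q _ = _
    rw [map_mul, map_pow, (hq1 _).2 ⟨s, rfl⟩, one_mul]
  have hbd' : q b ^ d = 1 := by
    rw [← map_pow]
    exact (hq1 _).2 hbd
  have : IsCyclic (MulAut S ⧸ Inn) := by
    refine ⟨q b, fun x => ?_⟩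
    obtain ⟨k, hk⟩ := hcyc x
    exact ⟨k, by rw [hk]; exact zpow_natCast _ _⟩
  let A : Subgroup (MulAut N) := Ast (Q : Subgroup N)
  let φ : A →* MulAut S ⧸ Inn := q.comp ((rho e).comp A.subtype)
  obtain ⟨⟨g, hg⟩, hgen'⟩ := (inferInstance : IsCyclic φ.range).exists_generator
  obtain ⟨a₀, ha₀⟩ := hg
  have hgd : g ^ d = 1 := by
    obtain ⟨k, hk⟩ := hcyc g
    rw [hk, ← pow_mul, mul_comm, pow_mul, hbd', one_pow]
  have hcop : ∀ r : ℕ, (p ^ r).Coprime (orderOf g) := by
    intro r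
    refine Nat.Coprime.pow_left _ ?_
    rw [Nat.Prime.coprime_iff_not_dvd (Fact.out : p.Prime)]
    intro h
    exact hd (h.trans (orderOf_dvd_of_pow_eq_one hgd))
  obtain ⟨r, m, hm, hrm⟩ := Nat.exists_eq_pow_mul_and_not_dvd (orderOf_pos a₀).ne' p
    (Fact.out : p.Prime).one_lt.ne'
  refine ⟨((a₀ ^ (p ^ r) : A) : MulAut N), (a₀ ^ (p ^ r)).2, ?_, ?_⟩
  · rw [Subgroup.orderOf_coe]
    intro h
    apply hm
    refine h.trans (orderOf_dvd_of_pow_eq_one ?_)
    rw [← pow_mul, ← hrm, pow_orderOf_eq_one]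
  · intro c hc
    obtain ⟨t, ht⟩ := exists_pow_eq_self_of_coprime (hcop r)
    have h1 : (⟨φ ⟨c, hc⟩, ⟨⟨c, hc⟩, rfl⟩⟩ : φ.range) ∈ Subgroup.zpowers
        (⟨g, ⟨a₀, ha₀⟩⟩ : φ.range) := hgen' _
    rw [← mem_powers_iff_mem_zpowers] at h1
    obtain ⟨j, hj⟩ := h1
    have hj' : g ^ j = φ ⟨c, hc⟩ := congrArg Subtype.val hj
    -- the difference
    have h2 : φ (⟨c, hc⟩ * ((a₀ ^ (p ^ r)) ^ (t * j))⁻¹) = 1 := by
      rw [map_mul, map_inv, map_pow, map_pow, ha₀, pow_mul, ht, hj', mul_inv_cancel]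
    obtain ⟨s, hs⟩ := (hq1 _).1 h2
    obtain ⟨n, rfl⟩ := pr_surj e s
    rw [← rho_conj] at hs
    have h3 := rho_inj e hN hs
    have h4 : c = MulAut.conj n * ((a₀ ^ (p ^ r) : A) : MulAut N) ^ (t * j) := by
      have h5 : (A.subtype (⟨c, hc⟩ * ((a₀ ^ (p ^ r)) ^ (t * j))⁻¹) : MulAut N) =
        c * (((a₀ ^ (p ^ r) : A) : MulAut N) ^ (t * j))⁻¹ := by
        simp
      rw [h5] at h3
      rw [← h3, inv_mul_cancel_right]
    have h6 : MulAut.conj n ∈ A := by
      have h7 : MulAut.conj n = c * (((a₀ ^ (p ^ r) : A) : MulAut N) ^ (t * j))⁻¹ := by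
        rw [h4, mul_inv_cancel_right]
      rw [h7]
      exact A.mul_mem hc (A.inv_mem (A.pow_mem (a₀ ^ (p ^ r)).2 _))
    refine ⟨⟨n, ?_⟩, t * j, h4⟩
    show n ∈ Subgroup.normalizer _
    rw [Subgroup.mem_normalizer_iff]
    intro x
    exact ((mem_Ast.1 h6).1 x).symm

end Pool.Agent.ZH17.RD
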