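import Pool.Agent.ZH17.RD.LkcA
import Pool.Agent.ZH17.RD.Hal
import Pool.Agent.ZH17.RD.Clx
import Pool.Agent.ZH17.RD.Out

/-!
# Phase B: simple groups with cyclic Sylow `p`-subgroups and outer automorphism group of order prime to `p` are linked
-/

set_option autoImplicit false
set_option linter.unusedSectionVars false
set_option linter.style.haveILetI false

open scoped BigOperators Classical

noncomputable section

namespace Pool.Agent.ZH17.RD

open Pool.Agent.Helper884 Pool.Agent.K3h3.KB Pool.Agent.K3h3.MK Pool.Agent.K3h83.IN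
open Pool.Agent.K3h33.CY
open Pool.Agent.H254R3.IN (IsIrr mem_Irr)
open IC (Irr)
open SemidirectProduct

namespace Lkc

section

variable {p : ℕ} {B N A : Type} [Group B] [Group N] [Group A] (D : Dat p B N A)

/-- the action on the characters of `N` -/
def actX (a : A) (χ : Xs D) : Xs D :=
  ⟨fun n => χ.1 (D.α a⁻¹ n), irr_comp' (D.α a⁻¹).toMonoidHom (D.α a⁻¹).surjective χ.2.1, by
    obtain ⟨b, h1, h2⟩ := χ.2.2
    refine ⟨D.β a b, ?_, ?_⟩
    · rwa [MulEquiv.orderOf_eq (D.β a) b]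
    · show χ.1 (D.α a⁻¹ (D.k (D.β a b))) ≠ 0
      rw [D.comp, ← MulAut.mul_apply, ← map_mul, inv_mul_cancel, map_one, MulAut.one_apply]
      exact h2⟩

/-- the action on the characters of `B` -/
def actY (a : A) (θ : Ys D) : Ys D :=
  ⟨fun n => θ.1 (D.β a⁻¹ n), irr_comp' (D.β a⁻¹).toMonoidHom (D.β a⁻¹).surjective θ.2⟩

instance instX : MulAction A (Xs D) where
  smul := actX D
  one_smul χ := Subtype.ext (funext fun n => by
    show χ.1 (D.α 1⁻¹ n) = χ.1 n
    rw [inv_one, map_one, MulAut.one_apply])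
  mul_smul a b χ := Subtype.ext (funext fun n => by
    show χ.1 (D.α (a * b)⁻¹ n) = χ.1 (D.α b⁻¹ (D.α a⁻¹ n))
    rw [mul_inv_rev, map_mul, MulAut.mul_apply])

instance instY : MulAction A (Ys D) where
  smul := actY D
  one_smul χ := Subtype.ext (funext fun n => by
    show χ.1 (D.β 1⁻¹ n) = χ.1 n
    rw [inv_one, map_one, MulAut.one_apply])
  mul_smul a b χ := Subtype.ext (funext fun n => by
    show χ.1 (D.β (a * b)⁻¹ n) = χ.1 (D.β b⁻¹ (D.β a⁻¹ n))
    rw [mul_inv_rev, map_mul, MulAut.mul_apply])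

theorem smul_X (a : A) (χ : Xs D) (n : N) : (a • χ).1 n = χ.1 (D.α a⁻¹ n) := rfl

theorem smul_Y (a : A) (θ : Ys D) (n : B) : (a • θ).1 n = θ.1 (D.β a⁻¹ n) := rfl

theorem fix_X {V : Subgroup A} (W : Subgroup V) (χ : Xs D) :
    (∀ g ∈ W, g • χ = χ) ↔ ∀ w ∈ W.map V.subtype, ∀ n, χ.1 (D.α w n) = χ.1 n := by
  constructor
  · rintro h w ⟨v, hv, rfl⟩ n
    have h1 := congrArg (fun t : Xs D => t.1 n) (h v⁻¹ (inv_mem hv))
    change χ.1 (D.α ((v⁻¹ : V) : A)⁻¹ n) = χ.1 n at h1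
    rw [Subgroup.coe_inv, inv_inv] at h1
    exact h1
  · intro h g hg
    refine Subtype.ext (funext fun n => ?_)
    exact h _ ⟨g⁻¹, inv_mem hg, rfl⟩ n

theorem fix_Y {V : Subgroup A} (W : Subgroup V) (χ : Ys D) :
    (∀ g ∈ W, g • χ = χ) ↔ ∀ w ∈ W.map V.subtype, ∀ n, χ.1 (D.β w n) = χ.1 n := by
  constructor
  · rintro h w ⟨v, hv, rfl⟩ n
    have h1 := congrArg (fun t : Ys D => t.1 n) (h v⁻¹ (inv_mem hv))
    change χ.1 (D.β ((v⁻¹ : V) : A)⁻¹ n) = χ.1 n at h1
    rw [Subgroup.coe_inv, inv_inv] at h1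
    exact h1
  · intro h g hg
    refine Subtype.ext (funext fun n => ?_)
    exact h _ ⟨g⁻¹, inv_mem hg, rfl⟩ n

theorem fin_irr (G : Type) [Group G] [Finite G] : Finite {χ : G → ℂ // IsIrr χ} := by
  haveI := Fintype.ofFinite G
  refine Finite.of_injective (fun χ : {χ : G → ℂ // IsIrr χ} => (⟨χ.1, mem_Irr.mpr χ.2⟩ : Irr G))
    fun χ χ' h => Subtype.ext (congrArg (fun t : Irr G => t.1) h)

theorem finX [Finite N] : Finite (Xs D) := by
  haveI := fin_irr N
  refine Finite.of_injective (fun χ : Xs D => (⟨χ.1, χ.2.1⟩ : {χ : N → ℂ // IsIrr χ}))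
    fun χ χ' h => Subtype.ext (congrArg (fun t : {χ : N → ℂ // IsIrr χ} => t.1) h)

theorem finY [Finite B] : Finite (Ys D) := fin_irr B

/-- the equivariant bijection -/
theorem exists_beta (hM : MEQ) [Fact p.Prime] [Finite B] [Finite N] [Finite A] (V : Subgroup A)
    (hV : ¬ p ∣ Nat.card V) : ∃ β : Xs D ≃ Ys D,
      (∀ v ∈ V, ∀ χ χ₁ : Xs D, (∀ n, χ₁.1 n = χ.1 (D.α v n)) →
        ∀ b, (β χ₁).1 b = (β χ).1 (D.β v b)) ∧
      ∀ χ : Xs D, ∃ W : Subgroup A, (∀ v, v ∈ W ↔ v ∈ V ∧ ∀ n, χ.1 (D.α v n) = χ.1 n) ∧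
        MM D W χ.1 (β χ).1 := by
  haveI := finX D
  haveI := finY D
  have hW : ∀ W : Subgroup V, ¬ p ∣ Nat.card (W.map V.subtype) := fun W hd => hV (hd.trans (by
    refine Subgroup.card_dvd_of_le ?_
    rintro _ ⟨x, _, rfl⟩
    exact x.2))
  obtain ⟨β, h1, h2⟩ := clx V (Xs D) (Ys D) (fun W χ θ => MM D (W.map V.subtype) χ.1 θ.1)
    (fun W W' χ θ hle h => mm_mono D (Subgroup.map_mono hle) χ.2.1 θ.2 h)
    (fun g W χ θ h => by
      have h3 := mm_conj D h (g : A)
      have h4 : (W.map (MulAut.conj g).toMonoidHom).map V.subtype =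
          (W.map V.subtype).map (MulAut.conj (g : A)).toMonoidHom := by
        rw [Subgroup.map_map, Subgroup.map_map]
        rfl
      change MM D ((W.map (MulAut.conj g).toMonoidHom).map V.subtype) _ _
      rw [h4]
      exact h3)
    (fun W χ χ₁ θ θ₁ h h' h'' => (hM p B N A D (W.map V.subtype) (hW W)).2 χ χ₁ θ θ₁ h h' h'')
    (fun W => by
      obtain ⟨e, he⟩ := (hM p B N A D (W.map V.subtype) (hW W)).1
      exact ⟨(Equiv.subtypeEquivRight (fix_X D W)).trans (e.trans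
        (Equiv.subtypeEquivRight (fix_Y D W)).symm),
        fun χ => he (Equiv.subtypeEquivRight (fix_X D W) χ)⟩)
  refine ⟨β, fun v hv χ χ₁ h b => ?_, fun χ => ?_⟩
  · have h3 : χ₁ = (⟨v, hv⟩ : V)⁻¹ • χ := by
      refine Subtype.ext (funext fun n => ?_)
      change _ = χ.1 (D.α (((⟨v, hv⟩ : V)⁻¹ : V) : A)⁻¹ n)
      rw [Subgroup.coe_inv, inv_inv]
      exact h n
    rw [h3, h1]
    change (β χ).1 (D.β (((⟨v, hv⟩ : V)⁻¹ : V) : A)⁻¹ b) = _
    rw [Subgroup.coe_inv, inv_inv]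
  · refine ⟨(MulAction.stabilizer V χ).map V.subtype, fun v => ?_, h2 χ⟩
    constructor
    · rintro ⟨w, hw, rfl⟩
      exact ⟨w.2, (fix_X D (MulAction.stabilizer V χ) χ).mp (fun g hg => hg) w ⟨w, hw, rfl⟩⟩
    · rintro ⟨hv, h⟩
      refine ⟨⟨v, hv⟩, ?_, rfl⟩
      show (⟨v, hv⟩ : V) • χ = χ
      have h3 : (⟨v, hv⟩ : V)⁻¹ • χ = χ := by
        refine Subtype.ext (funext fun n => ?_)
        change χ.1 (D.α (((⟨v, hv⟩ : V)⁻¹ : V) : A)⁻¹ n) = _
        rw [Subgroup.coe_inv, inv_inv]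
        exact h n
      exact (inv_smul_eq_iff.mp h3).symm

end

end Lkc

/-- linked with respect to a subgroup which is stable under the automorphisms -/
def LnkC (p : ℕ) [Fact p.Prime] (S : Type) [Group S] : Prop :=
  ∀ (N : Type) [Group N] [Finite N], commutator N = ⊤ →
    Nonempty ((N ⧸ Subgroup.center N) ≃* S) → ¬ p ∣ Nat.card (Subgroup.center N) →
    ∀ Q : Sylow p N, ∃ R : Subgroup N, (∀ a ∈ Ast (Q : Subgroup N), ∀ x, a x ∈ R ↔ x ∈ R) ∧
      Subgroup.normalizer (R : Set N) ≠ ⊤ ∧ LnkR p R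

/-- the outer automorphism group has no elements of order `p` -/
def OutPr (p : ℕ) (S : Type) [Group S] : Prop :=
  ∀ b : MulAut S, (∃ s : S, b ^ p = MulAut.conj s) → ∃ s : S, b = MulAut.conj s

open OutP in
theorem lnkC_of_cyc (hMEQ : MEQ) (hLKB : LKB) {p : ℕ} [hp : Fact p.Prime] {S : Type} [Group S] [Finite S]
    [IsSimpleGroup S] (hab : ∃ a b : S, a * b ≠ b * a) (hdvd : p ∣ Nat.card S)
    (hc : ∀ Q : Sylow p S, IsCyclic Q) (hO : OutPr p S) : LnkC p S := by
  intro N _ _ hN ⟨e⟩ hZ Q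
  have hcyc : IsCyclic Q := cyc_cover e hZ hc Q
  have hpN : p ∣ Nat.card N := by
    rw [← Nat.card_congr e.toEquiv] at hdvd
    exact hdvd.trans (Subgroup.card_quotient_dvd_card _)
  have hlift : ∀ a : MulAut N, (∀ z ∈ Subgroup.center N, a z = z) →
      (∃ n : N, a ^ p = MulAut.conj n) → ∃ n : N, a = MulAut.conj n := by
    rintro a _ ⟨n, hn⟩
    obtain ⟨s, hs⟩ := hO (rho e a) ⟨OutP.pr e n, by rw [← map_pow, hn, rho_conj]⟩
    obtain ⟨m, rfl⟩ := pr_surj e s
    rw [← rho_conj] at hs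
    exact ⟨m, rho_inj e hN hs⟩
  obtain ⟨R, hRQ, hRc, D, hk, hα, hβ, V, hV, hgen⟩ := hal p N Q hcyc hpN hlift
  obtain ⟨β, hβ1, hβ2⟩ := Lkc.exists_beta D hMEQ V hV
  have hRm : ∀ x, x ∈ R ↔ x ∈ Q ∧ x ^ p = 1 := by
    have h1 : ∀ x : N, x ∈ R → x ∈ Q ∧ x ^ p = 1 := fun x hx => ⟨hRQ hx, by
      have := pow_card_eq_one' (x := (⟨x, hx⟩ : R))
      rw [hRc] at this
      exact congrArg Subtype.val this⟩
    let T : Set (Q : Subgroup N) := {x | x ^ p = 1}
    have h2 : Nat.card T ≤ p := by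
      haveI := Fintype.ofFinite (Q : Subgroup N)
      have h3 := IsCyclic.card_pow_eq_one_le (α := (Q : Subgroup N)) hp.out.pos
      rw [Nat.card_eq_card_toFinset]
      refine le_trans (Finset.card_le_card ?_) h3
      intro x hx
      rw [Set.mem_toFinset] at hx
      exact Finset.mem_filter.mpr ⟨Finset.mem_univ _, hx⟩
    intro x
    refine ⟨h1 x, fun hx => ?_⟩
    let i : R → T := fun y => ⟨⟨y.1, hRQ y.2⟩, Subtype.ext (h1 y.1 y.2).2⟩
    have hi : Function.Injective i := fun y y' h => Subtype.ext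
      (congrArg (fun t : T => (t.1 : N)) h)
    have hs : Function.Surjective i := by
      refine (Nat.bijective_iff_injective_and_card i).mpr ⟨hi, ?_⟩ |>.2
      exact le_antisymm (Nat.card_le_card_of_injective i hi) (h2.trans hRc.ge)
    obtain ⟨y, hy⟩ := hs ⟨⟨x, hx.1⟩, Subtype.ext hx.2⟩
    have h4 : (y : N) = x := congrArg (fun t : T => (t.1 : N)) hy
    rw [← h4]
    exact y.2
  refine ⟨R, fun a ha x => ?_, fun htop => ?_, hLKB p N R hRc hZ D hk hα V hV hgen β hβ1 hβ2⟩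
  · rw [hRm, hRm, ← map_pow, MulEquiv.map_eq_one_iff]
    exact and_congr_left fun _ => ha.1 x
  · have hn : R.Normal := Subgroup.normalizer_eq_top_iff.mp htop
    have hn' : (R.map (OutP.pr e)).Normal := hn.map (OutP.pr e) (pr_surj e)
    rcases hn'.eq_bot_or_eq_top with h1 | h1
    · have h2 : R ≤ Subgroup.center N := by
        intro x hx
        have h3 : OutP.pr e x = 1 := by
          rw [← Subgroup.mem_bot, ← h1]
          exact Subgroup.mem_map_of_mem _ hx
        have h4 := (pr_eq_iff e x 1).mp (by rw [h3, map_one])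
        rw [mul_one] at h4
        exact inv_mem_iff.mp h4
      exact hZ (hRc ▸ Subgroup.card_dvd_of_le h2)
    · have h2 : Nat.card (⊤ : Subgroup S) ∣ p := by
        rw [← h1, ← hRc]
        exact Subgroup.card_map_dvd R (OutP.pr e)
      rw [Subgroup.card_top] at h2
      have h3 : Nat.card S = p := by
        rcases (Nat.dvd_prime hp.out).mp h2 with h3 | h3
        · rw [h3] at hdvd
          exact absurd (Nat.dvd_one.mp hdvd) hp.out.one_lt.ne'
        · exact h3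
      haveI : IsCyclic S := isCyclic_of_prime_card h3
      obtain ⟨a, b, h4⟩ := hab
      letI := IsCyclic.commGroup (α := S)
      exact h4 (mul_comm a b)

end Pool.Agent.ZH17.RD
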