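import Pool.Agent.ZH17.RD.Main3
import Pool.Agent.ZH17.RD.LkcB
import Pool.Agent.ZH17.RD.Gr1
import Pool.Agent.ZH17.RD.WreR

/-!
# The main theorems of phase B
-/

set_option autoImplicit false
set_option linter.unusedSectionVars false
set_option linter.style.haveILetI false

open scoped BigOperators Classical

noncomputable section

namespace Pool.Agent.ZH17.RD

open Pool.Agent.Helper884 Pool.Agent.K3h3.KB Pool.Agent.K3h3.MK Pool.Agent.K3h83.IN
open Pool.Agent.K3h83.PI
open Pool.Agent.H254R3.IN (IsIrr mem_Irr)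
open IC (Irr)

section

variable {p : ℕ} [hp : Fact p.Prime]

/-- a subgroup of order divisible by `p` whose order is a power of `p` is not normal in a cover of `S` -/
theorem not_normal {N S : Type} [Group N] [Finite N] [Group S] [Finite S] [IsSimpleGroup S]
    (hab : ∃ a b : S, a * b ≠ b * a) (e : (N ⧸ Subgroup.center N) ≃* S)
    (hZ : ¬ p ∣ Nat.card (Subgroup.center N)) (R : Subgroup N) (hR : IsPGroup p R) (hR1 : R ≠ ⊥) :
    Subgroup.normalizer (R : Set N) ≠ ⊤ := by
  intro htop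
  have hn : R.Normal := Subgroup.normalizer_eq_top_iff.mp htop
  have hn' : (R.map (OutP.pr e)).Normal := hn.map (OutP.pr e) (OutP.pr_surj e)
  rcases hn'.eq_bot_or_eq_top with h1 | h1
  · have h2 : R ≤ Subgroup.center N := by
      intro x hx
      have h3 : OutP.pr e x = 1 := by
        rw [← Subgroup.mem_bot, ← h1]
        exact Subgroup.mem_map_of_mem _ hx
      have h4 := (OutP.pr_eq_iff e x 1).mp (by rw [h3, map_one])
      rw [mul_one] at h4
      exact inv_mem_iff.mp h4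
    obtain ⟨n, hn⟩ := IsPGroup.iff_card.mp hR
    have h3 : n ≠ 0 := by
      rintro rfl
      rw [pow_zero] at hn
      exact hR1 (Subgroup.card_eq_one.mp hn)
    exact hZ (((dvd_pow_self p h3).trans hn.symm.dvd).trans (Subgroup.card_dvd_of_le h2))
  · have h2 : IsPGroup p S := by
      have h3 : IsPGroup p (R.map (OutP.pr e)) := hR.map _
      rw [h1] at h3
      exact h3.of_equiv Subgroup.topEquiv
    haveI := hp
    haveI : Nontrivial S := inferInstance
    have h3 := h2.center_nontrivial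
    have h4 : Subgroup.center S = ⊤ := by
      rcases (inferInstance : (Subgroup.center S).Normal).eq_bot_or_eq_top with h5 | h5
      · rw [h5] at h3
        exact absurd h3 (not_nontrivial _)
      · exact h5
    obtain ⟨a, b, h5⟩ := hab
    have h6 : a ∈ Subgroup.center S := h4 ▸ Subgroup.mem_top a
    exact h5 (Subgroup.mem_center_iff.mp h6 b).symm

/-- linked groups are linked in the weaker sense -/
theorem lnkC_of_S {S : Type} [Group S] [Finite S] [IsSimpleGroup S]
    (hab : ∃ a b : S, a * b ≠ b * a) (hdvd : p ∣ Nat.card S) (h : LnkS p S) : LnkC p S := by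
  intro N _ _ hN he hZ Q
  obtain ⟨e⟩ := he
  refine ⟨Q, fun a ha => ha.1, not_normal hab e hZ Q Q.2 ?_, h N hN ⟨e⟩ hZ Q⟩
  intro hQ
  have h1 : p ∣ Nat.card N := by
    rw [← Nat.card_congr e.toEquiv] at hdvd
    exact hdvd.trans (Subgroup.card_quotient_dvd_card _)
  have h2 := Q.dvd_card_of_dvd_card h1
  rw [hQ, Subgroup.card_bot] at h2
  exact hp.out.one_lt.ne' (Nat.dvd_one.mp h2)

/-- the condition on the simple groups -/
def GdT (p : ℕ) [Fact p.Prime] (S : Type) [Group S] : Prop :=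
  (p ∣ Nat.card S → LnkC p S) ∧ (¬ p ∣ Nat.card S → OutC p S)

/-- `M ≅ S ^ k` with a simple group `S` which satisfies `GdT` -/
def GdB (p : ℕ) [Fact p.Prime] (M : Type) [Group M] : Prop :=
  ∃ (S : Type) (_ : Group S) (_ : Finite S) (_ : IsSimpleGroup S) (k : ℕ), 0 < k ∧
    (∃ a b : S, a * b ≠ b * a) ∧ Nonempty (M ≃* (Fin k → S)) ∧ GdT p S

/-- the step -/
theorem step_GdB (hAB : GRPAB) (G : Type) [Group G] [Finite G] (P : Sylow p G)
    (hP : Red2 P) (M : Subgroup (G ⧸ Subgroup.center G)) (hM : BadM p (G ⧸ Subgroup.center G) M)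
    (hD : GdB p M) :
    ∃ H : Subgroup G, NN P ≤ H ∧ H ≠ ⊤ ∧ wt (cl p) G = wt (cl p) H := by
  obtain ⟨S, _, _, _, k, hk, hS, hMS, h1, h2⟩ := hD
  by_cases hpS : p ∣ Nat.card S
  · obtain ⟨N, _, _, I, _, F, H, σ, c, Q, g1, g2, g3, g4, g5, g6, g7, g8, g9, g10, g11, g12⟩ :=
      grp p G P hP S hS hpS k hk M hM.1 hM.2.1 hMS
    obtain ⟨R, r1, r2, r3⟩ := h1 hpS N g1 g2 g3 Q
    haveI : Nonempty I := by
      by_contra hI
      rw [not_nonempty_iff] at hI
      apply g7
      have h3 : F.range = ⊥ := by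
        rw [eq_bot_iff]
        rintro _ ⟨n, rfl⟩
        rw [Subgroup.mem_bot, Subsingleton.elim n 1, map_one]
      rw [h3, bot_sup_eq] at g5
      exact g5
    obtain ⟨H₁, σ₁, c₁, e1, e2, e3, e4, e5, e6, e7, e8⟩ :=
      gr1 p G P N I F H σ c Q R r1 r2 g4 g5 g6 g8 g9 g10 g11 g12
    exact ⟨H₁, e2, e3, wreR P F H₁ σ₁ c₁ R g4 e1 e2 e4 e5 e6 e7 e8 r3⟩
  · exact step_GdA hAB gla G P hP M hM
      ⟨S, _, ‹_›, ‹_›, k, hk, hS, hMS, fun h => absurd h hpS, h2⟩

/-- **Q1 for all groups whose obstructions have good socles** -/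
theorem main_R3 (hAB : GRPAB) :
    ∀ (G : Type) [Group G] [Finite G], SeD p (GdB p) G → Q1 p G := by
  refine red_step (cls_SeD p (GdB p)) fun G _ _ hG P hP hc => ?_
  obtain ⟨M, hM⟩ := bad_of_red P hP hc
  refine step_GdB hAB G P hP M hM ?_
  refine hG (G ⧸ Subgroup.center G) ⊤ ((QuotientGroup.mk' (Subgroup.center G)).comp
    Subgroup.topEquiv.toMonoidHom) ?_ ?_ M hM
  · rw [Subgroup.index_top]
    exact hp.out.one_lt.ne' ∘ Nat.dvd_one.mp
  · exact (QuotientGroup.mk'_surjective _).comp Subgroup.topEquiv.surjective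

/-- from sections to obstructions -/
theorem seD_of_sec' (D : ∀ (S : Type) [Group S], Prop) (G : Type) [Group G] [Finite G]
    (h : ∀ (S : Type) [Group S] [Finite S] [IsSimpleGroup S], (∃ a b : S, a * b ≠ b * a) → IsSec S G →
      D S) : SeD p (fun M _ => ∃ (S : Type) (_ : Group S) (_ : Finite S) (_ : IsSimpleGroup S) (k : ℕ),
        0 < k ∧ (∃ a b : S, a * b ≠ b * a) ∧ Nonempty (M ≃* (Fin k → S)) ∧ D S) G := by
  intro Y _ H f hi hf M hM
  haveI : Finite Y := Finite.of_surjective f hf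
  obtain ⟨S, _, _, _, k, hk, hS, ⟨e⟩⟩ := chr Y M hM.1 hM.2.1 hM.2.2.1
  refine ⟨S, _, ‹_›, ‹_›, k, hk, hS, ⟨e⟩, h S hS ?_⟩
  let A : Subgroup H := M.comap f
  let A' : Subgroup G := A.map H.subtype
  have e1 : A ≃* A' := A.equivMapOfInjective H.subtype H.subtype_injective
  let g : A →* M := f.subgroupComap M
  have hg : Function.Surjective g := by
    rintro ⟨y, hy⟩
    obtain ⟨x, rfl⟩ := hf y
    exact ⟨⟨x, hy⟩, rfl⟩
  let ev : (Fin k → S) →* S := Pi.evalMonoidHom (fun _ => S) ⟨0, hk⟩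
  have hev : Function.Surjective ev := fun s => ⟨fun _ => s, rfl⟩
  exact ⟨A', ((ev.comp e.toMonoidHom).comp g).comp e1.symm.toMonoidHom,
    ((hev.comp e.surjective).comp hg).comp e1.symm.surjective⟩

end

end Pool.Agent.ZH17.RD
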