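import Pool.Agent.ZH17.RD.CliB

/-!
# Piece CLI
-/

set_option autoImplicit false
set_option linter.unusedSectionVars false
set_option linter.style.haveILetI false

open scoped BigOperators Classical

noncomputable section

namespace Pool.Agent.ZH17.RD

open Pool.Agent.Helper884 Pool.Agent.K3h3.KB Pool.Agent.K3h3.MK Pool.Agent.K3h83.IN
open Pool.Agent.K3h33.CY
open Pool.Agent.H254R3.IN (IsIrr mem_Irr)
open Pool.Agent.K3h18.IN (irr_infl)
open IC (Irr)
open SemidirectProduct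

namespace CLI

open CLA

/-- splitting into irreducible and reducible restrictions -/
theorem split {G : Type} [Group G] [Finite G] (Q S : (G → ℂ) → Prop) :
    Nat.card {χ : G → ℂ // IsIrr χ ∧ S χ} =
      Nat.card {χ : G → ℂ // IsIrr χ ∧ Q χ ∧ S χ} + Nat.card {χ : G → ℂ // IsIrr χ ∧ ¬ Q χ ∧ S χ} := by
  haveI := Fintype.ofFinite G
  have hfin : {χ : G → ℂ | IsIrr χ ∧ S χ}.Finite := by
    refine (Irr G).finite_toSet.subset fun χ hχ => ?_
    exact mem_Irr.mpr hχ.1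
  have h1 := Set.ncard_inter_add_ncard_sdiff_eq_ncard {χ : G → ℂ | IsIrr χ ∧ S χ} {χ | Q χ} hfin
  have h2 : {χ : G → ℂ | IsIrr χ ∧ S χ} ∩ {χ | Q χ} = {χ : G → ℂ | IsIrr χ ∧ Q χ ∧ S χ} := by
    ext χ
    constructor
    · rintro ⟨⟨h1, h2⟩, h3⟩
      exact ⟨h1, h3, h2⟩
    · rintro ⟨h1, h3, h2⟩
      exact ⟨⟨h1, h2⟩, h3⟩
  have h3 : {χ : G → ℂ | IsIrr χ ∧ S χ} \ {χ | Q χ} = {χ : G → ℂ | IsIrr χ ∧ ¬ Q χ ∧ S χ} := by
    ext χ
    constructor
    · rintro ⟨⟨h1, h2⟩, h3⟩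
      exact ⟨h1, h3, h2⟩
    · rintro ⟨h1, h3, h2⟩
      exact ⟨⟨h1, h2⟩, h3⟩
  rw [h2, h3] at h1
  exact h1.symm

section

variable {p : ℕ} [hp : Fact p.Prime] {B N A U Ω : Type} [Group B] [Fintype B] [Group N] [Fintype N]
  [Group A] [Group U] [Fintype U] [Fintype Ω] (D : Dat p B N A) (π : U →* A) {e f : Ω → ℕ}
  {T : Tab p B Ω e f} (c : Cor p D.k T) {ω : Ω} {m m₁ : Fin (e ω) ⊕ Fin (f ω)}

/-- the restrictions to the singular elements of `B` -/
theorem res_se {χ' : NU D π → ℂ} {F : BU D π → ℂ} (hs : SE p (kU D π) χ' F) :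
    SE p D.k (fun n => χ' (inl n)) (fun b => F (inl b)) := by
  rcases hs with hs | hs
  · refine Or.inl fun g hg => ?_
    have := hs (inl g) (by rw [ord_inl]; exact hg)
    rw [kU_inl] at this
    exact this
  · refine Or.inr fun g hg => ?_
    have := hs (inl g) (by rw [ord_inl]; exact hg)
    rw [kU_inl] at this
    exact this

theorem step1 (hLL : LL) (hU : ¬ p ∣ Nat.card U) (h : Iso T ω m)
    (hm₁ : ¬ SE p id (T.t ⟨ω, m₁⟩) (T.t ⟨ω, m⟩))
    (hinv : ∀ (u : U) (g : B), p ∣ orderOf g → T.t ⟨ω, m⟩ (D.β (π u) g) = T.t ⟨ω, m⟩ g)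
    {ψ : NU D π → ℂ} {θ : BU D π → ℂ} (hψ : IsIrr ψ) (hθ : IsIrr θ) (hs : SE p (kU D π) ψ θ) :
    (∀ n, ψ (inl n) = c.b ω m₁ n) ↔ ∀ b, θ (inl b) = T.t ⟨ω, m₁⟩ b := by
  have hr := res_se D π hs
  constructor
  · intro h1
    refine lemA (datId D) π (corId T) hLL hU h hm₁ hinv hθ ?_
    have h2 : SE p D.k (fun n => ψ (inl n)) (T.t ⟨ω, m₁⟩) := by
      have h3 : (fun n => ψ (inl n)) = c.b ω m₁ := funext fun b => h1 _
      rw [h3]
      exact se_b c ω m₁
    exact se_mid hr h2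
  · intro h1
    refine lemA D π c hLL hU h hm₁ hinv hψ ?_
    have h3 : (fun b => θ (inl b)) = T.t ⟨ω, m₁⟩ := funext fun b => h1 b
    rw [h3] at hr
    exact hr

theorem step2 (U₁ : Subgroup U) {ψ : TT (D.α.comp π) U₁ → ℂ} {θ : TT (D.β.comp π) U₁ → ℂ}
    (hs : SE p (kU D (π.comp U₁.subtype)) ψ θ) : SE p (kU D π) (IU U₁ ψ) (IU U₁ θ) := by
  rcases hs with hs | hs
  · refine Or.inl fun y hy => ?_
    have := IU_kU D π U₁ (ψ := ψ) (θ := θ) (ε := 1) (fun z hz => by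
      rw [one_mul]
      exact hs z hz) y hy
    rw [one_mul] at this
    exact this
  · refine Or.inr fun y hy => ?_
    have := IU_kU D π U₁ (ψ := ψ) (θ := θ) (ε := -1) (fun z hz => by
      rw [neg_one_mul]
      exact hs z hz) y hy
    rw [neg_one_mul] at this
    exact this

theorem step3 (U₁ : Subgroup U) (F : BU D π → ℂ) [Fintype (BU D (π.comp U₁.subtype))]
    [Fintype (NU D (π.comp U₁.subtype))] {Ω₁ : Type} [Fintype Ω₁] {e₁ f₁ : Ω₁ → ℕ}
    {T₁ : Tab p (BU D (π.comp U₁.subtype)) Ω₁ e₁ f₁} (c₁ : Cor p (kU D (π.comp U₁.subtype)) T₁)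
    (h1 : ∀ i : (Σ ω, Fin (e₁ ω) ⊕ Fin (f₁ ω)),
      (∀ n, c₁.b i.1 i.2 (inl n) = c.b ω m₁ n) ↔ ∀ b, T₁.t i (inl b) = T.t ⟨ω, m₁⟩ b) :
    Nat.card {ψ : NU D (π.comp U₁.subtype) → ℂ // IsIrr ψ ∧ (∀ n, ψ (inl n) = c.b ω m₁ n) ∧
        SE p (kU D π) (IU (φ := D.α.comp π) U₁ ψ) F} =
      Nat.card {θ : BU D (π.comp U₁.subtype) → ℂ // IsIrr θ ∧ (∀ b, θ (inl b) = T.t ⟨ω, m₁⟩ b) ∧
        SE p id (IU (φ := D.β.comp π) U₁ θ) F} := by
  refine card_cor c₁ _ _ (fun i => ?_) ?_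
  · have hs : SE p (kU D (π.comp U₁.subtype)) (c₁.b i.1 i.2) (T₁.t i) := se_b c₁ i.1 i.2
    have h2 := step2 D π U₁ hs
    exact and_congr (h1 i) ⟨fun h3 => se_mid h2 h3, fun h3 => se_trans h2 h3⟩
  · rintro ψ - ⟨h1, -⟩
    obtain ⟨g, hg, hg'⟩ := ne_sing T ⟨ω, m₁⟩
    refine ⟨inl g, by rw [ord_inl]; exact hg, ?_⟩
    rw [kU_inl]
    have h2 : ψ (inl (D.k g)) = c.b ω m₁ (D.k g) := h1 _
    rw [h2, c.sin ω m₁ g hg]
    exact mul_ne_zero (eps_ne c ω m₁) hg'

theorem step4 (hLL : LL) (U₁ : Subgroup U) (hU₁ : ¬ p ∣ Nat.card U₁) (h : Iso T ω m)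
    (hm₁ : ¬ SE p id (T.t ⟨ω, m₁⟩) (T.t ⟨ω, m⟩))
    (hinv : ∀ (u : U) (g : B), p ∣ orderOf g → T.t ⟨ω, m⟩ (D.β (π u) g) = T.t ⟨ω, m⟩ g)
    (F : BU D π → ℂ) :
    Nat.card {ψ : NU D (π.comp U₁.subtype) → ℂ // IsIrr ψ ∧ (∀ n, ψ (inl n) = c.b ω m₁ n) ∧
        SE p (kU D π) (IU (φ := D.α.comp π) U₁ ψ) F} =
      Nat.card {θ : BU D (π.comp U₁.subtype) → ℂ // IsIrr θ ∧ (∀ b, θ (inl b) = T.t ⟨ω, m₁⟩ b) ∧
        SE p id (IU (φ := D.β.comp π) U₁ θ) F} := by
  haveI : Fintype (BU D (π.comp U₁.subtype)) := Fintype.ofFinite _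
  haveI : Fintype (NU D (π.comp U₁.subtype)) := Fintype.ofFinite _
  obtain ⟨Q', P', H', hLC, hEC, -⟩ := lcu p B N A U₁ D (π.comp U₁.subtype) hU₁
  obtain ⟨Ω₁, _, e₁, f₁, ⟨T₁⟩⟩ := ex_tab hLC
  obtain ⟨c₁⟩ := cor Q' P' H' (kU D (π.comp U₁.subtype)) hLC hEC T₁
  have hinv₁ : ∀ (u : U₁) (g : B), p ∣ orderOf g →
      T.t ⟨ω, m⟩ (D.β ((π.comp U₁.subtype) u) g) = T.t ⟨ω, m⟩ g := fun u g hg => hinv u g hg
  refine step3 D π c U₁ F c₁ fun i => ?_
  exact step1 D (π.comp U₁.subtype) c hLL hU₁ h hm₁ hinv₁ (c₁.irr _ _) (T₁.t_irr i) (se_b c₁ i.1 i.2)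

theorem transfer (hLL : LL) (U₁ : Subgroup U) (hU₁ : ¬ p ∣ Nat.card U₁) (h : Iso T ω m)
    (hm₁ : ¬ SE p id (T.t ⟨ω, m₁⟩) (T.t ⟨ω, m⟩))
    (hinv : ∀ (u : U) (g : B), p ∣ orderOf g → T.t ⟨ω, m⟩ (D.β (π u) g) = T.t ⟨ω, m⟩ g)
    (F : BU D π → ℂ) :
    Nat.card {ψ : TT (D.α.comp π) U₁ → ℂ // IsIrr ψ ∧ (∀ n, ψ (inl n) = c.b ω m₁ n) ∧
        SE p (kU D π) (IU U₁ ψ) F} =
      Nat.card {θ : TT (D.β.comp π) U₁ → ℂ // IsIrr θ ∧ (∀ b, θ (inl b) = T.t ⟨ω, m₁⟩ b) ∧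
        SE p id (IU U₁ θ) F} := step4 D π c hLL U₁ hU₁ h hm₁ hinv F

/-- the numbers of reducible restrictions agree -/
theorem card_red (c : Cor p D.k T) (hLL : LL) (hU : ¬ p ∣ Nat.card U) (h : Iso T ω m)
    (hinv : ∀ (u : U) (g : B), p ∣ orderOf g → T.t ⟨ω, m⟩ (D.β (π u) g) = T.t ⟨ω, m⟩ g)
    (F : BU D π → ℂ) (hF : SE p id (fun b => F (inl b)) (T.t ⟨ω, m⟩)) :
    Nat.card {χ' : NU D π → ℂ // IsIrr χ' ∧ ¬ IsIrr (fun n : N => χ' (inl n)) ∧ SE p (kU D π) χ' F} =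
      Nat.card {θ' : BU D π → ℂ // IsIrr θ' ∧ ¬ IsIrr (fun b : B => θ' (inl b)) ∧ SE p id θ' F} := by
  obtain ⟨m₁, hm₁⟩ : (Finset.univ.filter fun m' => ¬ SE p id (T.t ⟨ω, m'⟩) (T.t ⟨ω, m⟩)).Nonempty := by
    rw [← Finset.card_pos]
    have := h.two
    omega
  rw [Finset.mem_filter] at hm₁
  have h1 := card_R D π c hLL hU h hm₁.2 F hF
  have h2 := card_R (datId D) π (corId T) hLL hU h hm₁.2 F hF
  have hU₁ : ¬ p ∣ Nat.card (stU D π ⟨ω, m₁⟩ T) := fun hd =>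
    hU (hd.trans (Subgroup.card_subgroup_dvd_card _))
  have h3 := transfer D π c hLL (stU D π ⟨ω, m₁⟩ T) hU₁ h hm₁.2 hinv F
  exact h1.trans (h3.trans h2.symm)

end

end CLI

open CLI in
theorem cli (hLL : LL) : CLI := by
  intro p hp B N A U _ _ _ _ _ _ _ D π hU F hF
  haveI := Fintype.ofFinite B
  haveI := Fintype.ofFinite N
  haveI := Fintype.ofFinite U
  haveI : Fintype (BU D π) := Fintype.ofFinite _
  haveI : Fintype (NU D π) := Fintype.ofFinite _
  obtain ⟨Ω, _, e, f, ⟨T⟩⟩ := ex_tab D.lc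
  obtain ⟨c⟩ := cor D.Q D.P D.H D.k D.lc D.ec T
  obtain ⟨Q', P', H', hLC, hEC, hQ'⟩ := lcu p B N A U D π hU
  obtain ⟨Ω', _, e', f', ⟨T'⟩⟩ := ex_tab hLC
  obtain ⟨c'⟩ := cor Q' P' H' (kU D π) hLC hEC T'
  obtain ⟨g₀, hg₀, hFg₀⟩ := hF
  -- the total numbers
  have htot : Nat.card {χ' : NU D π → ℂ // IsIrr χ' ∧ SE p (kU D π) χ' F} =
      Nat.card {θ' : BU D π → ℂ // IsIrr θ' ∧ SE p id θ' F} := by
    refine card_cor c' (fun χ => SE p (kU D π) χ F) (fun θ => SE p id θ F) (fun i => ?_) ?_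
    · exact ⟨fun h => se_mid (se_b c' i.1 i.2) h, fun h => se_trans (se_b c' i.1 i.2) h⟩
    · rintro χ - h
      refine ⟨g₀, hg₀, ?_⟩
      rcases h with h | h
      · rw [h g₀ hg₀]
        exact hFg₀
      · rw [h g₀ hg₀]
        exact neg_ne_zero.2 hFg₀
  have hres : ∀ {χ' : NU D π → ℂ}, SE p (kU D π) χ' F → SE p D.k (fun n => χ' (inl n)) (fun b => F (inl b)) := by
    intro χ' hs
    rcases hs with hs | hs
    · refine Or.inl fun g hg => ?_
      have := hs (inl g) (by rw [ord_inl]; exact hg)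
      rw [kU_inl] at this
      exact this
    · refine Or.inr fun g hg => ?_
      have := hs (inl g) (by rw [ord_inl]; exact hg)
      rw [kU_inl] at this
      exact this
  have hres' : ∀ {θ' : BU D π → ℂ}, SE p id θ' F → SE p id (fun n => θ' (inl n)) (fun b => F (inl b)) := by
    intro χ' hs
    rcases hs with hs | hs
    · exact Or.inl fun g hg => hs (inl g) (by rw [ord_inl]; exact hg)
    · exact Or.inr fun g hg => hs (inl g) (by rw [ord_inl]; exact hg)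
  by_cases hθ : ∃ i, SE p id (fun b => F (inl b)) (T.t i)
  · obtain ⟨⟨ω, m⟩, hθ⟩ := hθ
    have s1 := split (fun χ' : NU D π → ℂ => IsIrr (fun n : N => χ' (inl n))) (fun χ' => SE p (kU D π) χ' F)
    have s2 := split (fun θ' : BU D π → ℂ => IsIrr (fun b : B => θ' (inl b))) (fun θ' => SE p id θ' F)
    suffices hred : Nat.card {χ' : NU D π → ℂ // IsIrr χ' ∧ ¬ IsIrr (fun n : N => χ' (inl n)) ∧
        SE p (kU D π) χ' F} =
        Nat.card {θ' : BU D π → ℂ // IsIrr θ' ∧ ¬ IsIrr (fun b : B => θ' (inl b)) ∧ SE p id θ' F} by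
      omega
    by_cases hne : Nonempty {χ' : NU D π → ℂ // IsIrr χ' ∧ ¬ IsIrr (fun n : N => χ' (inl n)) ∧
        SE p (kU D π) χ' F}
    · obtain ⟨χ', h1, h2, h3⟩ := hne
      have hs := se_trans (hres h3) hθ
      rcases hLL p B N A U Ω D π hU e f T c χ' h1 _ (T.t_irr _) hs with h4 | ⟨ω', m', h4, h5, -, h6⟩
      · exact absurd h4 h2
      · cases T.t_inj h4
        refine card_red D π c hLL hU ⟨h5, fun m' hm' => (h6 m' hm').2⟩ (fun u g hg => ?_) F hθ
        -- invariance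
        have e1 : χ' (inl (D.k (D.β (π u) g))) = χ' (inl (D.k g)) := by
          have h7 : (inl (D.k (D.β (π u) g)) : NU D π) = inr u * inl (D.k g) * (inr u)⁻¹ := by
            rw [← map_inv, ← inl_aut, D.comp]
            rfl
          rw [h7, h1.conj]
        rcases hs with hs | hs
        · exact ((hs _ (by rw [ord_aut]; exact hg)).symm.trans e1).trans (hs g hg)
        · have := ((hs _ (by rw [ord_aut]; exact hg)).symm.trans e1).trans (hs g hg)
          exact neg_inj.1 this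
    · by_cases hne' : Nonempty {θ' : BU D π → ℂ // IsIrr θ' ∧ ¬ IsIrr (fun b : B => θ' (inl b)) ∧
          SE p id θ' F}
      · obtain ⟨χ', h1, h2, h3⟩ := hne'
        have hs := se_trans (hres' h3) hθ
        rcases hLL p B B A U Ω (datId D) π hU e f T (corId T) χ' h1 _ (T.t_irr _) hs with h4 | ⟨ω', m', h4, h5, -, h6⟩
        · exact absurd h4 h2
        · cases T.t_inj h4
          refine card_red D π c hLL hU ⟨h5, fun m' hm' => (h6 m' hm').2⟩ (fun u g hg => ?_) F hθ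
          have e1 : χ' (inl (D.β (π u) g)) = χ' (inl g) := by
            have h7 : (inl (D.β (π u) g) : BU D π) = inr u * inl g * (inr u)⁻¹ := by
              rw [← map_inv, ← inl_aut]
              rfl
            rw [h7, h1.conj]
          rcases hs with hs | hs
          · exact ((hs _ (by rw [ord_aut]; exact hg)).symm.trans e1).trans (hs g hg)
          · have := ((hs _ (by rw [ord_aut]; exact hg)).symm.trans e1).trans (hs g hg)
            exact neg_inj.1 this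
      · rw [not_nonempty_iff] at hne hne'
        rw [Nat.card_eq_zero.2 (Or.inl hne), Nat.card_eq_zero.2 (Or.inl hne')]
  · -- both numbers are zero
    have z1 : IsEmpty {θ' : BU D π → ℂ // IsIrr θ' ∧ IsIrr (fun b : B => θ' (inl b)) ∧ SE p id θ' F} := by
      constructor
      rintro ⟨θ', h1, h2, h3⟩
      obtain ⟨i, hi⟩ := T.sur _ h2
      refine hθ ⟨i, ?_⟩
      have h4 : T.t i = fun b => θ' (inl b) := hi
      rw [h4]
      exact se_symm (hres' h3)
    have z2 : IsEmpty {χ' : NU D π → ℂ // IsIrr χ' ∧ IsIrr (fun n : N => χ' (inl n)) ∧ SE p (kU D π) χ' F} := by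
      constructor
      rintro ⟨χ', h1, h2, h3⟩
      rcases c.oth _ h2 with ⟨ω, m, hm⟩ | ⟨h4, -⟩
      · refine hθ ⟨⟨ω, m⟩, ?_⟩
        have h5 := se_b c ω m
        rw [hm] at h5
        exact se_mid (hres h3) h5
      · -- all values at the singular elements of `B` vanish
        have hne : χ' (kU D π g₀) ≠ 0 := by
          rcases h3 with h3 | h3
          · rw [h3 g₀ hg₀]
            exact hFg₀
          · rw [h3 g₀ hg₀]
            exact neg_ne_zero.2 hFg₀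
        rcases c'.oth χ' h1 with ⟨ω', m', rfl⟩ | ⟨h5, -⟩
        · have h5 : ∀ g : B, p ∣ orderOf g → T'.t ⟨ω', m'⟩ (inl g) = 0 := by
            intro g hg
            have h6 := c'.sin ω' m' (inl g) (by rw [ord_inl]; exact hg)
            rw [kU_inl] at h6
            have h7 := h4 g hg
            change c'.b ω' m' (inl (D.k g)) = 0 at h7
            rw [h7] at h6
            exact (mul_eq_zero.1 h6.symm).resolve_left (eps_ne c' ω' m')
          haveI := Fintype.ofFinite Q'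
          have h6 : ∑ x : Q', T'.t ⟨ω', m'⟩ x = T'.t ⟨ω', m'⟩ 1 := by
            rw [Finset.sum_eq_single 1]
            · rfl
            · rintro ⟨x, hx⟩ _ hx1
              have hx' := hx
              rw [hQ'] at hx'
              obtain ⟨q, hq, rfl⟩ := hx'
              refine h5 q ?_
              have h7 : orderOf (⟨q, hq⟩ : D.Q) ∣ p := by
                have := orderOf_dvd_natCard (⟨q, hq⟩ : D.Q)
                exact this.trans (dvd_of_eq D.lc.cQ)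
              rw [Subgroup.orderOf_mk] at h7
              rcases (Nat.dvd_prime hp.out).1 h7 with h8 | h8
              · exfalso
                apply hx1
                apply Subtype.ext
                rw [orderOf_eq_one_iff] at h8
                change inl q = (1 : BU D π)
                rw [h8, map_one]
              · rw [h8]
            · intro h
              exact absurd (Finset.mem_univ _) h
          have hd : T'.t ⟨ω', m'⟩ 1 ≠ 0 := by
            rw [← ndeg_cast (T'.t_irr ⟨ω', m'⟩)]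
            exact_mod_cast (ndeg_pos (T'.t_irr ⟨ω', m'⟩)).ne'
          rcases sum_Q Q' hLC.nQ (T'.t_irr ⟨ω', m'⟩) with h7 | h7
          · rw [h6] at h7
            exact hd h7
          · rw [h6, hLC.cQ] at h7
            have h8 : ((p : ℂ) - 1) * T'.t ⟨ω', m'⟩ 1 = 0 := by
              rw [sub_mul, one_mul, ← h7, sub_self]
            rcases mul_eq_zero.1 h8 with h9 | h9
            · have h10 : (p : ℂ) = 1 := sub_eq_zero.1 h9
              have h11 : p = 1 := by exact_mod_cast h10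
              exact hp.out.one_lt.ne' h11
            · exact hd h9
        · exact hne (h5 g₀ hg₀)
    rw [Nat.card_eq_zero.2 (Or.inl z1), Nat.card_eq_zero.2 (Or.inl z2)]

end Pool.Agent.ZH17.RD
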