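import Pool.Agent.ZH17.RD.Stm7
import Pool.Agent.ZH17.RD.Clx

/-!
# Piece CLZ of project RD phase C (helper61 for helper17): matching over a set of classes
-/

set_option autoImplicit false

namespace Pool.Agent.ZH17.RD

namespace Clz

/-- the decomposition of an element of a finite group into its `p`-part and its `p'`-part -/
theorem decomp (p : ℕ) [Fact p.Prime] {A : Type} [Group A] [Finite A] (a : A) :
    ∃ (n m : ℕ) (s t : ℤ), ¬ p ∣ m ∧ a = a ^ s * a ^ t ∧ (a ^ s) ^ p ^ n = 1 ∧ (a ^ t) ^ m = 1 := by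
  have hp : p.Prime := Fact.out
  have h0 : orderOf a ≠ 0 := (orderOf_pos a).ne'
  obtain ⟨n, m, hm, hnm⟩ := Nat.exists_eq_pow_mul_and_not_dvd h0 p hp.ne_one
  have hcop : IsCoprime ((p ^ n : ℕ) : ℤ) (m : ℤ) := by
    rw [Nat.isCoprime_iff_coprime]
    exact Nat.Coprime.pow_left n ((Nat.Prime.coprime_iff_not_dvd hp).2 hm)
  obtain ⟨u, v, huv⟩ := hcop
  have ha : a ^ (orderOf a) = 1 := pow_orderOf_eq_one a
  rw [hnm] at ha
  refine ⟨n, m, v * m, u * (p ^ n : ℕ), hm, ?_, ?_, ?_⟩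
  · rw [← zpow_add, add_comm, huv, zpow_one]
  · rw [← zpow_natCast, ← zpow_mul, mul_assoc, mul_comm v, zpow_mul, ← Nat.cast_mul, mul_comm m,
      zpow_natCast, ha, one_zpow]
  · rw [← zpow_natCast, ← zpow_mul, mul_assoc, mul_comm u, zpow_mul, ← Nat.cast_mul,
      zpow_natCast, ha, one_zpow]

section

variable {p : ℕ} [hp : Fact p.Prime] {A X Y C : Type} [Group A] [Finite A]
  [MulAction A X] [MulAction A Y] [MulAction A C] {f : X → C} {g : Y → C}

/-- an element of `V` acts in the same way on the fibres -/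
theorem repl (hf : ∀ (a : A) x, f (a • x) = a • f x) (hg : ∀ (a : A) y, g (a • y) = a • g y)
    (hE : ∀ (a : A) (k : ℕ), a ^ p ^ k = 1 → (∀ x : X, a • f x = f x → a • x = x) ∧
      ∀ y : Y, a • g y = g y → a • y = y)
    (k : ℕ) (φ : A →* Multiplicative (ZMod (p ^ k))) (I V : Subgroup A)
    (hIV : ∀ a, φ a = 1 → ∃ i ∈ I, ∃ v ∈ V, a = i * v)
    (hI : ∀ i ∈ I, (∀ x : X, i • x = x) ∧ ∀ y : Y, i • y = y)
    (c : C) (x₀ : X) (hx₀ : f x₀ = c) (a : A) (hac : a • c = c) :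
    ∃ v ∈ V, v • c = c ∧ (∀ x, f x = c → a • x = v • x) ∧ ∀ y, g y = c → a • y = v • y := by
  obtain ⟨n, m, s, t, hm, hst, hs, ht⟩ := decomp p a
  have hsc : a ^ s • c = c :=
    (MulAction.stabilizer A c).zpow_mem (show a ∈ MulAction.stabilizer A c from hac) s
  have htc : a ^ t • c = c :=
    (MulAction.stabilizer A c).zpow_mem (show a ∈ MulAction.stabilizer A c from hac) t
  have hφ : φ (a ^ t) = 1 := by
    haveI : NeZero (p ^ k) := ⟨pow_ne_zero _ hp.out.ne_zero⟩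
    have h1 : φ (a ^ t) ^ m = 1 := by rw [← map_pow, ht, map_one]
    have h2 : φ (a ^ t) ^ p ^ k = 1 := by
      have h3 : Nat.card (Multiplicative (ZMod (p ^ k))) = p ^ k := by
        rw [Nat.card_congr Multiplicative.toAdd, Nat.card_zmod]
      have h5 : φ (a ^ t) ^ Nat.card (Multiplicative (ZMod (p ^ k))) = 1 := pow_card_eq_one'
      rw [h3] at h5
      exact h5
    have h4 := Nat.dvd_gcd (orderOf_dvd_of_pow_eq_one h1) (orderOf_dvd_of_pow_eq_one h2)
    have h5 : Nat.gcd m (p ^ k) = 1 :=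
      (Nat.Coprime.pow_left k ((Nat.Prime.coprime_iff_not_dvd hp.out).2 hm)).symm
    rw [h5, Nat.dvd_one, orderOf_eq_one_iff] at h4
    exact h4
  obtain ⟨i, hi, v, hv, hiv⟩ := hIV _ hφ
  have hX : ∀ x : X, a ^ t • x = v • x := by
    intro x
    rw [hiv, mul_smul, (hI i hi).1]
  have hY : ∀ y : Y, a ^ t • y = v • y := by
    intro y
    rw [hiv, mul_smul, (hI i hi).2]
  refine ⟨v, hv, ?_, ?_, ?_⟩
  · have : f (v • x₀) = c := by rw [← hX, hf, hx₀, htc]
    rw [hf, hx₀] at this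
    exact this
  · intro x hx
    have h6 : f (a ^ t • x) = c := by rw [hf, hx, htc]
    have h7 : a ^ s • a ^ t • x = a ^ t • x := (hE _ n hs).1 _ (by rw [h6, hsc])
    conv_lhs => rw [hst]
    rw [mul_smul, h7, hX]
  · intro y hy
    have h6 : g (a ^ t • y) = c := by rw [hg, hy, htc]
    have h7 : a ^ s • a ^ t • y = a ^ t • y := (hE _ n hs).2 _ (by rw [h6, hsc])
    conv_lhs => rw [hst]
    rw [mul_smul, h7, hY]

/-- the action on the fibre -/
def fibAct (f : X → C) (hf : ∀ (a : A) x, f (a • x) = a • f x) (c : C) (H : Subgroup A)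
    (hH : ∀ h ∈ H, h • c = c) : MulAction H {x : X // f x = c} where
  smul h x := ⟨(h : A) • x.1, by rw [hf, x.2]; exact hH h h.2⟩
  one_smul x := Subtype.ext (one_smul A x.1)
  mul_smul h h' x := Subtype.ext (mul_smul (h : A) (h' : A) x.1)

end

/-- the bijection over one class -/
theorem fib (p : ℕ) [Fact p.Prime] (A X Y C : Type) [Group A] [Finite A] [Finite X] [Finite Y]
  [MulAction A X] [MulAction A Y] [MulAction A C] (f : X → C) (g : Y → C)
  (hf : ∀ (a : A) x, f (a • x) = a • f x) (hg : ∀ (a : A) y, g (a • y) = a • g y)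
  (hE : ∀ (a : A) (k : ℕ), a ^ p ^ k = 1 → (∀ x : X, a • f x = f x → a • x = x) ∧
    ∀ y : Y, a • g y = g y → a • y = y)
  (k : ℕ) (φ : A →* Multiplicative (ZMod (p ^ k))) (I V : Subgroup A)
  (hφV : ∀ v ∈ V, φ v = 1) (hV : ¬ p ∣ Nat.card V)
  (hIV : ∀ a, φ a = 1 → ∃ i ∈ I, ∃ v ∈ V, a = i * v)
  (hI : ∀ i ∈ I, (∀ x : X, i • x = x) ∧ ∀ y : Y, i • y = y)
  (M : Subgroup A → X → Y → Prop)
  (h1 : ∀ W W' x y, W' ≤ W → M W x y → M W' x y)
  (h2 : ∀ (g : A) W x y, M W x y → M (W.map (MulAut.conj g).toMonoidHom) (g • x) (g • y))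
  (h3 : ∀ W : Subgroup A, ¬ p ∣ Nat.card W → ∀ x x' y y', M W x y → M W x' y → M W x' y' → M W x y')
  (hM : ∀ W x y, M W x y → f x = g y)
  (h4 : ∀ W : Subgroup A, ¬ p ∣ Nat.card W →
    ∃ e : {x : X // ∀ g ∈ W, g • x = x} ≃ {y : Y // ∀ g ∈ W, g • y = y}, ∀ x, M W x.1 (e x).1)
  (c : C) :
  ∃ (b : X → Y) (b' : Y → X), (∀ x, f x = c → g (b x) = c ∧ b' (b x) = x) ∧
    (∀ y, g y = c → f (b' y) = c ∧ b (b' y) = y) ∧
    (∀ (a : A) x, a • c = c → f x = c → b (a • x) = a • b x) ∧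
    ∀ x, f x = c → ∃ W : Subgroup A, ¬ p ∣ Nat.card W ∧ (∀ w ∈ W, φ w = 1 ∧ w • x = x) ∧
      (∀ a, φ a = 1 → a • x = x → ∃ i ∈ I, ∃ w ∈ W, a = i * w) ∧ M W x (b x) := by
  classical
  set Vc : Subgroup A := V ⊓ MulAction.stabilizer A c with hVc
  have hVcV : Vc ≤ V := inf_le_left
  have hVcc : ∀ h ∈ Vc, h • c = c := fun h hh => (Subgroup.mem_inf.1 hh).2
  letI iX : MulAction Vc {x : X // f x = c} := fibAct f hf c Vc hVcc
  letI iY : MulAction Vc {y : Y // g y = c} := fibAct g hg c Vc hVcc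
  have hsX : ∀ (h : Vc) (x : {x : X // f x = c}), (h • x).1 = (h : A) • x.1 := fun _ _ => rfl
  have hsY : ∀ (h : Vc) (y : {y : Y // g y = c}), (h • y).1 = (h : A) • y.1 := fun _ _ => rfl
  have hcard : ∀ W : Subgroup Vc, ¬ p ∣ Nat.card (W.map Vc.subtype) := by
    intro W hd
    apply hV
    refine hd.trans (Subgroup.card_dvd_of_le ?_)
    rintro _ ⟨w, -, rfl⟩
    exact hVcV w.2
  obtain ⟨β, hβ1, hβ2⟩ := clx Vc {x : X // f x = c} {y : Y // g y = c}
    (fun W x y => M (W.map Vc.subtype) x.1 y.1)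
    (fun W W' x y hW h => h1 _ _ _ _ (Subgroup.map_mono hW) h)
    (by
      intro h W x y hW
      have h5 := h2 (h : A) _ _ _ hW
      have h6 : (W.map (MulAut.conj h).toMonoidHom).map Vc.subtype =
          (W.map Vc.subtype).map (MulAut.conj (h : A)).toMonoidHom := by
        rw [Subgroup.map_map, Subgroup.map_map]
        congr 1
      rw [h6]
      exact h5)
    (fun W x x' y y' e1 e2 e3 => h3 _ (hcard W) _ _ _ _ e1 e2 e3)
    (by
      intro W
      obtain ⟨e, he⟩ := h4 (W.map Vc.subtype) (hcard W)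
      have hx : ∀ (x : {x : X // f x = c}), (∀ g ∈ W, g • x = x) ↔
          ∀ g ∈ W.map Vc.subtype, g • x.1 = x.1 := by
        intro x
        constructor
        · rintro h _ ⟨w, hw, rfl⟩
          exact congrArg Subtype.val (h w hw)
        · intro h w hw
          exact Subtype.ext (h w ⟨w, hw, rfl⟩)
      have hy : ∀ (y : {y : Y // g y = c}), (∀ g ∈ W, g • y = y) ↔
          ∀ g ∈ W.map Vc.subtype, g • y.1 = y.1 := by
        intro y
        constructor
        · rintro h _ ⟨w, hw, rfl⟩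
          exact congrArg Subtype.val (h w hw)
        · intro h w hw
          exact Subtype.ext (h w ⟨w, hw, rfl⟩)
      have he' : ∀ y, f (e.symm y).1 = g y.1 := by
        intro y
        have := hM _ _ _ (he (e.symm y))
        rwa [e.apply_symm_apply] at this
      refine ⟨{
        toFun := fun x => ⟨⟨(e ⟨x.1.1, (hx x.1).1 x.2⟩).1, by
          rw [← hM _ _ _ (he _)]; exact x.1.2⟩, (hy _).2 (e ⟨x.1.1, (hx x.1).1 x.2⟩).2⟩
        invFun := fun y => ⟨⟨(e.symm ⟨y.1.1, (hy y.1).1 y.2⟩).1, by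
          rw [he']; exact y.1.2⟩, (hx _).2 (e.symm ⟨y.1.1, (hy y.1).1 y.2⟩).2⟩
        left_inv := fun x => by
          apply Subtype.ext
          apply Subtype.ext
          simp
        right_inv := fun y => by
          apply Subtype.ext
          apply Subtype.ext
          simp }, fun x => he ⟨x.1.1, (hx x.1).1 x.2⟩⟩)
  obtain ⟨e₀, he₀⟩ := h4 ⊥ (by
    rw [Subgroup.card_bot, Nat.dvd_one]
    exact (Fact.out : p.Prime).ne_one)
  refine ⟨fun x => if h : f x = c then (β ⟨x, h⟩).1 else (e₀ ⟨x, by simp⟩).1,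
    fun y => if h : g y = c then (β.symm ⟨y, h⟩).1 else (e₀.symm ⟨y, by simp⟩).1, ?_, ?_, ?_, ?_⟩
  · intro x hx
    simp only [hx, dif_pos]
    have h5 : g (β ⟨x, hx⟩).1 = c := (β ⟨x, hx⟩).2
    refine ⟨h5, ?_⟩
    rw [dif_pos h5]
    simp
  · intro y hy
    simp only [hy, dif_pos]
    have h5 : f (β.symm ⟨y, hy⟩).1 = c := (β.symm ⟨y, hy⟩).2
    refine ⟨h5, ?_⟩
    rw [dif_pos h5]
    simp
  · intro a x hac hx
    have hax : f (a • x) = c := by rw [hf, hx, hac]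
    simp only [dif_pos hx, dif_pos hax]
    obtain ⟨v, hv, hvc, hvX, hvY⟩ := repl (p := p) hf hg hE k φ I V hIV hI c x hx a hac
    have hvm : v ∈ Vc := Subgroup.mem_inf.2 ⟨hv, hvc⟩
    have h5 : (⟨a • x, hax⟩ : {x : X // f x = c}) = (⟨v, hvm⟩ : Vc) • ⟨x, hx⟩ :=
      Subtype.ext (hvX x hx)
    rw [h5, hβ1, hsY, hvY _ (β ⟨x, hx⟩).2]
  · intro x hx
    refine ⟨(MulAction.stabilizer Vc (⟨x, hx⟩ : {x : X // f x = c})).map Vc.subtype, hcard _,
      ?_, ?_, ?_⟩
    · rintro _ ⟨w, hw, rfl⟩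
      refine ⟨hφV _ (hVcV w.2), ?_⟩
      exact congrArg Subtype.val (show w • (⟨x, hx⟩ : {x : X // f x = c}) = ⟨x, hx⟩ from hw)
    · intro a ha hax
      obtain ⟨i, hi, v, hv, hiv⟩ := hIV a ha
      have hvx : v • x = x := by
        rw [hiv, mul_smul, (hI i hi).1] at hax
        exact hax
      have hvc : v • c = c := by rw [← hx, ← hf, hvx]
      have hvm : v ∈ Vc := Subgroup.mem_inf.2 ⟨hv, hvc⟩
      exact ⟨i, hi, v, ⟨⟨v, hvm⟩, Subtype.ext hvx, rfl⟩, hiv⟩
    · simp only [dif_pos hx]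
      exact hβ2 ⟨x, hx⟩

end Clz

theorem clz : CLZ := by
  intro p _ A X Y C _ _ _ _ _ _ _ f g hf hg hE k φ I V hIn hφI hφV hV hIV hI M h1 h2 h3 hM h4
  classical
  choose b b' hb hb' hbe hbM using fun c => Clz.fib p A X Y C f g hf hg hE k φ I V hφV hV hIV hI M
    h1 h2 h3 hM h4 c
  -- representatives
  let r : C → C := fun c => (Quotient.mk (MulAction.orbitRel A C) c).out
  have hr : ∀ c, ∃ γ : A, γ • r c = c := by
    intro c
    have h5 : (Quotient.mk (MulAction.orbitRel A C) (r c)) = Quotient.mk (MulAction.orbitRel A C) c :=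
      Quotient.out_eq _
    have h6 := Quotient.exact h5.symm
    obtain ⟨γ, hγ⟩ := MulAction.orbitRel_apply.1 h6
    exact ⟨γ, hγ⟩
  choose γ hγ using hr
  have hra : ∀ (a : A) c, r (a • c) = r c := by
    intro a c
    have : Quotient.mk (MulAction.orbitRel A C) (a • c) = Quotient.mk (MulAction.orbitRel A C) c :=
      Quotient.sound (MulAction.orbitRel_apply.2 ⟨a, rfl⟩)
    show (Quotient.mk (MulAction.orbitRel A C) (a • c)).out = _
    rw [this]
  have hγ' : ∀ c, (γ c)⁻¹ • c = r c := by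
    intro c
    conv_lhs => rw [← hγ c]
    rw [hγ, ← hγ c, hγ]
    rw [inv_smul_eq_iff, hγ]
  have hfx : ∀ x, f ((γ (f x))⁻¹ • x) = r (f x) := by
    intro x
    rw [hf, hγ']
  have hgy : ∀ y, g ((γ (g y))⁻¹ • y) = r (g y) := by
    intro y
    rw [hg, hγ']
  let B : X → Y := fun x => γ (f x) • b (r (f x)) ((γ (f x))⁻¹ • x)
  let B' : Y → X := fun y => γ (g y) • b' (r (g y)) ((γ (g y))⁻¹ • y)
  have hgB : ∀ x, g (B x) = f x := by
    intro x
    show g (γ (f x) • b (r (f x)) ((γ (f x))⁻¹ • x)) = f x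
    rw [hg, (hb _ _ (hfx x)).1, hγ]
  have hfB : ∀ y, f (B' y) = g y := by
    intro y
    show f (γ (g y) • b' (r (g y)) ((γ (g y))⁻¹ • y)) = g y
    rw [hf, (hb' _ _ (hgy y)).1, hγ]
  let β : X ≃ Y :=
    { toFun := B
      invFun := B'
      left_inv := fun x => by
        show γ (g (B x)) • b' (r (g (B x))) ((γ (g (B x)))⁻¹ • B x) = x
        rw [hgB]
        show γ (f x) • b' (r (f x)) ((γ (f x))⁻¹ • γ (f x) • b (r (f x)) ((γ (f x))⁻¹ • x)) = x
        rw [inv_smul_smul, (hb _ _ (hfx x)).2, smul_inv_smul]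
      right_inv := fun y => by
        show γ (f (B' y)) • b (r (f (B' y))) ((γ (f (B' y)))⁻¹ • B' y) = y
        rw [hfB]
        show γ (g y) • b (r (g y)) ((γ (g y))⁻¹ • γ (g y) • b' (r (g y)) ((γ (g y))⁻¹ • y)) = y
        rw [inv_smul_smul, (hb' _ _ (hgy y)).2, smul_inv_smul] }
  refine ⟨β, ?_, ?_⟩
  · intro a x
    show γ (f (a • x)) • b (r (f (a • x))) ((γ (f (a • x)))⁻¹ • a • x) =
      a • γ (f x) • b (r (f x)) ((γ (f x))⁻¹ • x)
    rw [hf, hra]
    set c := f x with hc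
    set x₁ := (γ c)⁻¹ • x with hx₁
    have h5 : (γ (a • c))⁻¹ • a • x = ((γ (a • c))⁻¹ * a * γ c) • x₁ := by
      rw [hx₁, mul_smul, mul_smul, smul_inv_smul]
    have h6 : ((γ (a • c))⁻¹ * a * γ c) • r c = r c := by
      rw [mul_smul, mul_smul, hγ, hγ', hra]
    rw [h5, hbe (r c) _ x₁ h6 (hfx x), smul_smul, smul_smul]
    congr 1
    group
  · intro x
    set c := f x with hc
    set x₁ := (γ c)⁻¹ • x with hx₁
    have hx : γ c • x₁ = x := smul_inv_smul _ _
    obtain ⟨W, hW1, hW2, hW3, hW4⟩ := hbM (r c) x₁ (hfx x)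
    refine ⟨W.map (MulAut.conj (γ c)).toMonoidHom, ?_, ?_, ?_, ?_⟩
    · rw [Subgroup.card_map_of_injective (MulAut.conj (γ c)).injective]
      exact hW1
    · rintro _ ⟨w, hw, rfl⟩
      have h7 : (MulAut.conj (γ c)).toMonoidHom w = γ c * w * (γ c)⁻¹ := rfl
      rw [h7]
      refine ⟨?_, ?_⟩
      · rw [map_mul, map_mul, (hW2 w hw).1, mul_one, ← map_mul, mul_inv_cancel, map_one]
      · rw [mul_smul, mul_smul, ← hx₁, (hW2 w hw).2, hx]
    · intro a ha hax
      have h8 : φ ((γ c)⁻¹ * a * γ c) = 1 := by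
        rw [map_mul, map_mul, ha, mul_one, ← map_mul, inv_mul_cancel, map_one]
      have h9 : ((γ c)⁻¹ * a * γ c) • x₁ = x₁ := by
        rw [mul_smul, mul_smul, hx, hax]
      obtain ⟨i, hi, w, hw, hiw⟩ := hW3 _ h8 h9
      refine ⟨γ c * i * (γ c)⁻¹, hIn.conj_mem i hi _, γ c * w * (γ c)⁻¹, ⟨w, hw, rfl⟩, ?_⟩
      have h10 : a = γ c * ((γ c)⁻¹ * a * γ c) * (γ c)⁻¹ := by group
      rw [h10, hiw]
      group
    · have h11 := h2 (γ c) W x₁ (b (r c) x₁) hW4
      rw [hx] at h11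
      exact h11

end Pool.Agent.ZH17.RD
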