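import Pool.Agent.ZH17.RD.ExtA

/-!
# Piece EXT of project RD: an equivariant bijection gives a link
-/

set_option autoImplicit false
set_option linter.unusedSectionVars false
set_option linter.style.haveILetI false

open scoped BigOperators Classical

noncomputable section

namespace Pool.Agent.ZH17.RD

open Pool.Agent.Helper884 Pool.Agent.K3h3.KB Pool.Agent.K3h3.MK Pool.Agent.K3h83.IN
open Pool.Agent.H254R3.IN (IsIrr mem_Irr)
open Pool.Agent.Q99.AS (ten ten_irr)
open Pool.Agent.K3h85.IN (irr_comp_surj)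
open Representation SemidirectProduct

namespace ExtP

/-- irreducible representations with equal characters are equivalent -/
theorem equiv_of_char {K V W : Type} [Group K] [Finite K] [AddCommGroup V] [Module ℂ V]
    [FiniteDimensional ℂ V] [AddCommGroup W] [Module ℂ W] [FiniteDimensional ℂ W]
    (ρ : Representation ℂ K V) (ρ' : Representation ℂ K W) (h1 : ρ.IsIrreducible)
    (h2 : ρ'.IsIrreducible) (h : ρ.character = ρ'.character) : Nonempty (ρ.Equiv ρ') := by
  haveI := Fintype.ofFinite K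
  have h3 := char_orthonormal (k := ℂ) (ρ := ρ) (σ := ρ)
  have h4 := char_orthonormal (k := ℂ) (ρ := ρ') (σ := ρ)
  rw [if_pos ⟨Representation.Equiv.refl ρ⟩] at h3
  rw [← h, h3] at h4
  by_contra hcon
  rw [if_neg hcon] at h4
  exact one_ne_zero h4

/-- Schur -/
theorem scal {K V : Type} [Group K] [AddCommGroup V] [Module ℂ V]
    [FiniteDimensional ℂ V] (ρ : Representation ℂ K V) (h1 : ρ.IsIrreducible) (z : K)
    (hz : z ∈ Subgroup.center K) : ∃ c : ℂ, ∀ v, ρ z v = c • v := by
  let f : IntertwiningMap ρ ρ :=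
    { toLinearMap := ρ z
      isIntertwining' := by
        intro k
        refine LinearMap.ext fun u => ?_
        show (ρ z * ρ k) u = (ρ k * ρ z) u
        rw [← map_mul, ← map_mul, Subgroup.mem_center_iff.1 hz k] }
  obtain ⟨c, hc⟩ := (IsIrreducible.algebraMap_intertwiningMap_bijective_of_isAlgClosed
    (k := ℂ) (ρ := ρ)).2 f
  refine ⟨c, fun u => ?_⟩
  have h1 := congrArg (fun g : IntertwiningMap ρ ρ => g u) hc
  exact h1.symm

theorem char_scal {K V : Type} [Group K] [AddCommGroup V] [Module ℂ V]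
    [FiniteDimensional ℂ V] (ρ : Representation ℂ K V) (z : K) {c : ℂ}
    (hc : ∀ v, ρ z v = c • v) : ρ.character z = c * ρ.character 1 := by
  have h : ρ z = c • ρ 1 := by
    refine LinearMap.ext fun v => ?_
    rw [map_one]
    exact hc v
  show LinearMap.trace ℂ V (ρ z) = c * LinearMap.trace ℂ V (ρ 1)
  rw [h, map_smul, smul_eq_mul]

theorem central_mul_inv {K : Type} [Group K] {χ : K → ℂ} (h : IsIrr χ) (z : K)
    (hz : z ∈ Subgroup.center K) : χ z * χ z⁻¹ = χ 1 * χ 1 := by
  obtain ⟨V, _, _, _, ρ, h1, rfl⟩ := h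
  obtain ⟨c, hc⟩ := scal ρ h1 z hz
  obtain ⟨d, hd⟩ := scal ρ h1 z⁻¹ (inv_mem hz)
  have e1 := char_scal ρ z hc
  have e2 := char_scal ρ z⁻¹ hd
  have e3 : ρ.character 1 = (c * d) * ρ.character 1 := by
    refine char_scal ρ 1 fun v => ?_
    rw [← mul_inv_cancel z, map_mul]
    show ρ z (ρ z⁻¹ v) = _
    rw [hd, map_smul, hc, smul_smul, mul_comm]
  rw [e1, e2]
  calc c * ρ.character 1 * (d * ρ.character 1) = (c * d * ρ.character 1) * ρ.character 1 := by ring
    _ = _ := by rw [← e3]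

theorem deg_ne {K : Type} [Group K] {χ : K → ℂ} [Finite K] (h : IsIrr χ) : χ 1 ≠ 0 := by
  rw [← ndeg_cast h]
  exact_mod_cast (ndeg_pos h).ne'

section

variable {p : ℕ} [Fact p.Prime] {N : Type} [Group N] [Finite N] (Q : Sylow p N)

theorem conj_mem (m : NN Q) : MulAut.conj (m : N) ∈ Ast (Q : Subgroup N) := by
  refine ⟨fun x => ?_, fun z hz => ?_⟩
  · rw [MulAut.conj_apply]
    exact (Subgroup.mem_normalizer_iff.1 m.2 x).symm
  · rw [MulAut.conj_apply, Subgroup.mem_center_iff.1 hz (m : N), mul_inv_cancel_right]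

theorem map_mem {a : MulAut N} (ha : a ∈ Ast (Q : Subgroup N)) (m : NN Q) : a (m : N) ∈ NN Q := by
  rw [Subgroup.mem_normalizer_iff]
  intro h
  have h1 := Subgroup.mem_normalizer_iff.1 m.2 (a⁻¹ h)
  have h2 := ha.1 (a⁻¹ h)
  rw [MulAut.apply_inv_self] at h2
  have h3 := ha.1 ((m : N) * a⁻¹ h * (m : N)⁻¹)
  rw [map_mul, map_mul, map_inv, MulAut.apply_inv_self] at h3
  exact h2.trans (h1.trans h3.symm)

end

end ExtP

open ExtP in
theorem ext : EXT := by
  intro p _ N _ _ Q a ha hgen β hdeg hcen heq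
  -- the groups and the homomorphisms
  let A : Subgroup (MulAut N) := Ast (Q : Subgroup N)
  haveI : Finite (N ⋊[A.subtype] A) := Finite.of_equiv _ SemidirectProduct.equivProd.symm
  let s : N × NN Q →* N ⋊[A.subtype] A :=
    { toFun := fun x => ⟨x.1 * (x.2 : N)⁻¹, ⟨MulAut.conj (x.2 : N), conj_mem Q x.2⟩⟩
      map_one' := by
        ext1
        · simp
        · exact Subtype.ext (by simp)
      map_mul' := fun x y => by
        ext1
        · show x.1 * y.1 * ((x.2 * y.2 : NN Q) : N)⁻¹ =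
            x.1 * (x.2 : N)⁻¹ * ((x.2 : N) * (y.1 * (y.2 : N)⁻¹) * (x.2 : N)⁻¹)
          rw [Subgroup.coe_mul]
          group
        · refine Subtype.ext ?_
          show MulAut.conj ((x.2 * y.2 : NN Q) : N) = MulAut.conj (x.2 : N) * MulAut.conj (y.2 : N)
          rw [Subgroup.coe_mul, map_mul] }
  let t : N ⋊[A.subtype] A := ⟨1, ⟨a, ha⟩⟩
  let α : N × NN Q →* N × NN Q :=
    { toFun := fun x => (a x.1, ⟨a (x.2 : N), map_mem Q ha x.2⟩)
      map_one' := by
        ext1
        · exact map_one a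
        · exact Subtype.ext (map_one a)
      map_mul' := fun x y => by
        ext1
        · exact map_mul a _ _
        · exact Subtype.ext (map_mul a _ _) }
  have hαi : Function.Injective α := by
    intro x y h
    have h1 : a x.1 = a y.1 := congrArg Prod.fst h
    have h2 : a (x.2 : N) = a (y.2 : N) := congrArg (fun z : N × NN Q => (z.2 : N)) h
    exact Prod.ext (a.injective h1) (Subtype.ext (a.injective h2))
  have hαs : Function.Surjective α := Finite.surjective_of_injective hαi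
  have hs : ∀ k, s (α k) = t * s k * t⁻¹ := by
    intro k
    rw [eq_mul_inv_iff_mul_eq]
    ext1
    · show a k.1 * (a (k.2 : N))⁻¹ * MulAut.conj (a (k.2 : N)) 1 = 1 * a (k.1 * (k.2 : N)⁻¹)
      rw [map_one, mul_one, one_mul, map_mul, map_inv]
    · refine Subtype.ext ?_
      show MulAut.conj (a (k.2 : N)) * a = a * MulAut.conj (k.2 : N)
      ext x
      simp only [MulAut.mul_apply, MulAut.conj_apply, map_mul, map_inv]
  have htk : ∀ k : ℕ, (t ^ k).left = 1 ∧ ((t ^ k).right : MulAut N) = a ^ k := by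
    intro k
    induction k with
    | zero => exact ⟨rfl, rfl⟩
    | succ k ih =>
      refine ⟨?_, ?_⟩
      · rw [pow_succ', mul_left, ih.1, map_one, mul_one]
      · rw [pow_succ', mul_right, Subgroup.coe_mul, ih.2, pow_succ']
  have hgen' : ∀ g : N ⋊[A.subtype] A, ∃ (k : N × NN Q) (j : ℕ), g = s k * t ^ j := by
    intro g
    obtain ⟨m, k, h⟩ := hgen g.right.1 g.right.2
    refine ⟨(g.left * m, m), k, ?_⟩
    ext1
    · rw [mul_left, (htk k).1, map_one, mul_one]
      show g.left = g.left * (m : N) * (m : N)⁻¹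
      rw [mul_inv_cancel_right]
    · refine Subtype.ext ?_
      rw [mul_right, Subgroup.coe_mul, (htk k).2]
      exact h
  -- the characters
  have hκ : ∀ χ : X p N, IsIrr fun x : N × NN Q => χ.1 x.1 * (β χ).1 x.2⁻¹ := by
    intro χ
    haveI := Fintype.ofFinite N
    haveI := Fintype.ofFinite (NN Q)
    exact ten_irr χ.2.1 (irr_inv (β χ).2.1)
  choose U i1 i2 i3 ρ hirr hch using hκ
  have hni : ∀ χ χ' : X p N, χ ≠ χ' → IsEmpty ((ρ χ).Equiv (ρ χ')) := by
    intro χ χ' hne
    refine ⟨fun φ => hne ?_⟩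
    have h1 := char_iso φ
    rw [← hch, ← hch] at h1
    have h2 : ∀ n, χ.1 n * (β χ).1 1 = χ'.1 n * (β χ').1 1 := by
      intro n
      have h3 := congrFun h1 (n, 1)
      simpa using h3
    haveI := Fintype.ofFinite N
    by_contra hcon
    have h4 : IC.B χ.1 χ'.1 = 0 := by
      rw [IC.B_irr χ.2.1 χ'.2.1, if_neg fun h => hcon (Subtype.ext h)]
    have h5 : IC.B χ.1 χ.1 = 1 := by
      rw [IC.B_irr χ.2.1 χ.2.1, if_pos rfl]
    have d1 := deg_ne (β χ).2.1
    have d2 := deg_ne (β χ').2.1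
    have h6 : χ'.1 = ((β χ).1 1 / (β χ').1 1) • χ.1 := by
      funext n
      rw [Pi.smul_apply, smul_eq_mul, div_mul_eq_mul_div, eq_div_iff d2, ← h2 n, mul_comm]
    rw [h6, IC.B_comm, IC.B_smul_left, h5, mul_one] at h4
    exact (div_ne_zero d1 d2) h4
  -- the kernel
  have hker : ∀ k, s k = 1 → ∀ χ, ρ χ k = 1 := by
    intro k hk χ
    have h1 : k.1 * (k.2 : N)⁻¹ = 1 := congrArg SemidirectProduct.left hk
    have h2 : MulAut.conj (k.2 : N) = 1 := congrArg (fun x : N ⋊[A.subtype] A => (x.right : MulAut N)) hk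
    have h3 : (k.2 : N) ∈ Subgroup.center N := by
      rw [Subgroup.mem_center_iff]
      intro g
      have h4 := DFunLike.congr_fun h2 g
      rw [MulAut.conj_apply, MulAut.one_apply, mul_inv_eq_iff_eq_mul] at h4
      exact h4.symm
    have h5 : k.1 = (k.2 : N) := mul_inv_eq_one.1 h1
    have h6 : k ∈ Subgroup.center (N × NN Q) := by
      rw [Subgroup.mem_center_iff]
      intro g
      ext1
      · show g.1 * k.1 = k.1 * g.1
        rw [h5]
        exact Subgroup.mem_center_iff.1 h3 g.1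
      · refine Subtype.ext ?_
        exact Subgroup.mem_center_iff.1 h3 (g.2 : N)
    obtain ⟨c, hc⟩ := scal (ρ χ) (hirr χ) k h6
    have h7 := char_scal (ρ χ) k hc
    rw [← hch] at h7
    have h8 := hcen χ k.2 h3
    have h9 := hcen χ k.2⁻¹ (inv_mem h3)
    have h10 := central_mul_inv χ.2.1 (k.2 : N) h3
    have d1 := deg_ne χ.2.1
    have d2 := deg_ne (β χ).2.1
    have h11 : χ.1 (k.2 : N) * (β χ).1 (k.2)⁻¹ = χ.1 1 * (β χ).1 1 := by
      apply mul_right_cancel₀ d1
      rw [mul_assoc, h9, ← mul_assoc, Subgroup.coe_inv, h10]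
      ring
    have h12 : c = 1 := by
      have h13 : χ.1 1 * (β χ).1 1 = c * (χ.1 1 * (β χ).1 1) := by
        rw [← h11]
        change χ.1 k.1 * (β χ).1 k.2⁻¹ = c * (χ.1 1 * (β χ).1 (1 : NN Q)⁻¹) at h7
        rw [h5, h11, inv_one] at h7
        rw [h11]
        exact h7
      have h14 := mul_ne_zero d1 d2
      exact (mul_right_cancel₀ h14 (h13.symm.trans (one_mul _).symm))
    refine LinearMap.ext fun v => ?_
    rw [hc, h12, one_smul]
    rfl
  -- the permutation of the characters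
  have hσm : ∀ χ : X p N, IsIrr (fun n => χ.1 (a n)) ∧ (ndeg (fun n => χ.1 (a n)) : ZMod p) ≠ 0 := by
    intro χ
    refine ⟨?_, ?_⟩
    · obtain ⟨V, j1, j2, j3, τ, h1, h2⟩ := χ.2.1
      refine ⟨V, j1, j2, j3, τ.comp (a : N ≃* N).toMonoidHom,
        irr_comp_surj τ h1 (a : N ≃* N).toMonoidHom a.surjective, ?_⟩
      rw [h2]
      rfl
    · have h1 : ndeg (fun n => χ.1 (a n)) = ndeg χ.1 := by
        unfold ndeg
        show ⌊(χ.1 (a 1)).re⌋₊ = _
        rw [map_one]
      rw [h1]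
      exact χ.2.2
  let σ : X p N → X p N := fun χ => ⟨fun n => χ.1 (a n), hσm χ⟩
  have hσi : Function.Injective σ := by
    intro χ χ' h
    refine Subtype.ext (funext fun n => ?_)
    have h1 := congrFun (congrArg Subtype.val h) (a⁻¹ n)
    change χ.1 (a (a⁻¹ n)) = χ'.1 (a (a⁻¹ n)) at h1
    rwa [MulAut.apply_inv_self] at h1
  have hσs : Function.Surjective σ := Finite.surjective_of_injective hσi
  have hT : ∀ χ, ∃ T : U (σ χ) ≃ₗ[ℂ] U χ, ∀ k u, T (ρ (σ χ) k u) = ρ χ (α k) (T u) := by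
    intro χ
    let ρ' : Representation ℂ (N × NN Q) (U χ) := MonoidHom.comp (ρ χ) α
    have h1 : (ρ (σ χ)).character = ρ'.character := by
      rw [← hch]
      funext k
      have h2 := congrFun (hch χ) (α k)
      change _ = (ρ χ).character (α k)
      rw [← h2]
      show χ.1 (a k.1) * (β (σ χ)).1 k.2⁻¹ = χ.1 (a k.1) * (β χ).1 (α k).2⁻¹
      rw [heq χ (σ χ) (fun _ => rfl) k.2⁻¹ (α k).2⁻¹]
      rw [Subgroup.coe_inv, Subgroup.coe_inv, map_inv]
      rfl
    obtain ⟨φ⟩ := equiv_of_char (ρ (σ χ)) ρ' (hirr (σ χ)) (irr_comp_surj (ρ χ) (hirr χ) α hαs) h1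
    exact ⟨φ.toLinearEquiv, fun k u => LinearMap.congr_fun (φ.toIntertwiningMap.isIntertwining' k) u⟩
  choose T hT using hT
  haveI := hirr
  obtain ⟨R, hR⟩ := extend_blocks U ρ hni s t α hs hgen' hker σ hσs T hT
  refine ⟨β, R.character, ⟨_, _, _, inferInstance, R, rfl⟩, hdeg, hcen, ?_⟩
  intro n m b hb
  have h1 : (⟨n * (m : N)⁻¹, b⟩ : N ⋊[A.subtype] A) = s (n, m) := by
    ext1
    · rfl
    · exact Subtype.ext hb
  rw [finsum_eq_sum_of_fintype]
  show R.character (⟨n * (m : N)⁻¹, b⟩ : N ⋊[A.subtype] A) = _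
  rw [h1]
  show LinearMap.trace ℂ _ (R (s (n, m))) = _
  rw [hR]
  refine (char_pi U ρ (n, m)).trans (Finset.sum_congr rfl fun χ _ => ?_)
  rw [← hch]

end Pool.Agent.ZH17.RD
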