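import Pool.Agent.ZH17.RD.Wre
import Pool.Agent.K3h83.PI.Sub

/-!
# The reduction to a condition on quasi-simple groups
-/

set_option autoImplicit false
set_option linter.unusedSectionVars false
set_option linter.style.haveILetI false

open scoped BigOperators Classical

noncomputable section

namespace Pool.Agent.ZH17.RD

open Pool.Agent.Helper884 Pool.Agent.K3h3.KB Pool.Agent.K3h3.MK Pool.Agent.K3h83.IN
open Pool.Agent.K3h83.PI
open Pool.Agent.H254R3.IN (IsIrr mem_Irr)
open IC (Irr)

/-- `Y` is an obstruction with the minimal normal subgroup `M` -/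
def BadM (p : ℕ) (Y : Type) [Group Y] (M : Subgroup Y) : Prop :=
  M.Normal ∧ (∀ L : Subgroup Y, L.Normal → L ≠ ⊥ → M ≤ L) ∧
    (∃ a ∈ M, ∃ b ∈ M, a * b ≠ b * a) ∧ ∃ Q : Sylow p Y, ¬ IsCyclic Q ∧ M ⊔ NN Q = ⊤

theorem bad_iff {p : ℕ} {Y : Type} [Group Y] : Bad p Y ↔ ∃ M, BadM p Y M := Iff.rfl

theorem BadM.bad {p : ℕ} {Y : Type} [Group Y] {M : Subgroup Y} (h : BadM p Y M) : Bad p Y := ⟨M, h⟩

/-- the minimal normal subgroups of all obstructions which are homomorphic images of subgroups of index prime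
to `p` have the property `D` -/
def SeD (p : ℕ) (D : ∀ (M : Type) [Group M], Prop) (G : Type) [Group G] : Prop :=
  ∀ (Y : Type) [Group Y] (H : Subgroup G) (f : H →* Y), ¬ p ∣ H.index → Function.Surjective f →
    ∀ M : Subgroup Y, BadM p Y M → D M

theorem cls_SeD (p : ℕ) [hp : Fact p.Prime] (D : ∀ (M : Type) [Group M], Prop) :
    ClsP p (SeD p D) where
  iso := by
    rintro G G' _ _ _ ⟨e⟩ h Y _ H f hi hf
    refine h Y (H.comap e.toMonoidHom) (f.comp (e.toMonoidHom.subgroupComap H)) ?_ ?_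
    · rwa [Subgroup.index_comap_of_surjective _ e.surjective]
    · refine hf.comp ?_
      rintro ⟨y, hy⟩
      exact ⟨⟨e.symm y, by simpa using hy⟩, Subtype.ext (e.apply_symm_apply y)⟩
  sub := by
    intro G _ _ X hX h Y _ H f hi hf
    have e : H ≃* H.map X.subtype := H.equivMapOfInjective X.subtype X.subtype_injective
    refine h Y (H.map X.subtype) (f.comp e.symm.toMonoidHom) ?_ (hf.comp e.symm.surjective)
    rw [Subgroup.index_map_subtype, hp.out.dvd_mul]
    exact fun h' => h'.elim hi hX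
  quo := by
    intro G _ _ K _ h Y _ H f hi hf
    refine h Y (H.comap (QuotientGroup.mk' K)) (f.comp ((QuotientGroup.mk' K).subgroupComap H)) ?_ ?_
    · rwa [Subgroup.index_comap_of_surjective _ (QuotientGroup.mk'_surjective K)]
    · refine hf.comp ?_
      rintro ⟨y, hy⟩
      obtain ⟨g, rfl⟩ := QuotientGroup.mk'_surjective K y
      exact ⟨⟨g, hy⟩, rfl⟩
  ext := by
    intro G _ _ K _ hK _ h Y _ H f hi hf M hb
    have hs : Function.Surjective ((QuotientGroup.mk' K).subgroupMap H) :=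
      MonoidHom.subgroupMap_surjective _ _
    have hker : ((QuotientGroup.mk' K).subgroupMap H).ker ≤ f.ker := by
      intro x hx
      have h1 : QuotientGroup.mk' K (x : G) = 1 := congrArg Subtype.val hx
      have h2 : (x : G) ∈ Subgroup.center G := hK ((QuotientGroup.eq_one_iff _).mp h1)
      have h3 : f x ∈ Subgroup.center Y := by
        rw [Subgroup.mem_center_iff]
        intro y
        obtain ⟨z, rfl⟩ := hf y
        rw [← map_mul, ← map_mul]
        congr 1
        exact Subtype.ext (Subgroup.mem_center_iff.mp h2 z)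
      rw [hb.bad.center, Subgroup.mem_bot] at h3
      exact h3
    refine h Y (H.map (QuotientGroup.mk' K)) (((QuotientGroup.mk' K).subgroupMap H).liftOfSurjective hs
      ⟨f, hker⟩) ?_ ?_ M hb
    · exact fun h' => hi (h'.trans (Subgroup.index_map_dvd H (QuotientGroup.mk'_surjective K)))
    · intro y
      obtain ⟨z, rfl⟩ := hf y
      exact ⟨_, MonoidHom.liftOfRightInverse_comp_apply _ _ _ ⟨f, hker⟩ z⟩

section

variable {p : ℕ} [hp : Fact p.Prime]




/-- **The reduction**: it is enough to find, for the reduced groups with noncyclic Sylow `p`-subgroups, a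
subgroup `H ≥ N_G(P)` with the same weighted number, `H = N_G(P)` or `H ≠ G`. -/
theorem red_step {C : ∀ (G : Type) [Group G], Prop} (hC : ClsP p C)
    (hstep : ∀ (G : Type) [Group G] [Finite G], C G → ∀ P : Sylow p G, Red2 P → ¬ IsCyclic P →
      ∃ H : Subgroup G, NN P ≤ H ∧ H ≠ ⊤ ∧ wt (cl p) G = wt (cl p) H) :
    ∀ (G : Type) [Group G] [Finite G], C G → Q1 p G := by
  refine main3 a_S1 a_S2 a_S3 a_S4 a_S4a a_S5 a_S6 a_S7 a_S8 a_S9 a_S12 a_S14 a_S15 a_S16 a_S17
    a_G1 a_G2 a_G3 a_G4 a_G5 hC fun G _ _ hG P hP hI => ?_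
  have key : ∀ B : Subgroup G, NN P ≤ B → B ≠ ⊤ → wt (cl p) G = wt (cl p) B →
      wt (cl p) G = wt (cl p) (NN P) := by
    intro B hPB hBt hw
    have hZB : Subgroup.center G ≤ B := (le_NN_of_center P le_rfl).trans hPB
    rw [hw, ← wt_NN_sub P hPB]
    exact hI B (hC.sub G B (idx P (Subgroup.le_normalizer.trans hPB)) hG) (index_center_lt hZB hBt) _
  by_cases hc : IsCyclic P
  swap
  · obtain ⟨H, h1, h2, h3⟩ := hstep G hG P hP hc
    exact key H h1 h2 h3
  have hdvd : p ∣ Nat.card G := by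
    by_contra h
    exact hP.ne (NN_top_of_not_dvd P h)
  obtain ⟨Q, B, H, hPB, hQP, hB, hLC, hE1, hE2⟩ := a_C0 p G P hc hdvd
  have hBt : B ≠ ⊤ := by
    intro h
    have hQn : Q.Normal := by
      rw [← Subgroup.normalizer_eq_top_iff, ← hB, h]
    have hQc : Nat.card Q = p := by
      have h1 := hLC.cQ
      rw [← h1]
      refine Nat.card_congr (Subgroup.subgroupOfEquivOfLe ?_).toEquiv.symm
      exact hQP.trans (Subgroup.le_normalizer.trans hPB)
    have hQs : IsSolvable Q := by
      have h1 : IsCyclic Q := isCyclic_of_prime_card hQc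
      exact Group.isSolvable_of_comm fun x y => by
        letI := h1.commGroup
        exact mul_comm x y
    exact hP.cop (by
      have := Subgroup.card_dvd_of_le (hP.rad Q hQn hQs)
      rwa [hQc] at this)
  exact key B hPB hBt (a_CN p B G _ _ H B.subtype hLC hE1)

/-- all perfect central extensions of `S` by groups of order prime to `p` are linked -/
def LnkS (p : ℕ) [Fact p.Prime] (S : Type) [Group S] : Prop :=
  ∀ (N : Type) [Group N] [Finite N], commutator N = ⊤ →
    Nonempty ((N ⧸ Subgroup.center N) ≃* S) → ¬ p ∣ Nat.card (Subgroup.center N) →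
    ∀ Q : Sylow p N, Lnk p Q

/-- `M ≅ S ^ k` with a linked simple group `S` of order divisible by `p` -/
def GdM (p : ℕ) [Fact p.Prime] (M : Type) [Group M] : Prop :=
  ∃ (S : Type) (_ : Group S) (_ : Finite S) (_ : IsSimpleGroup S) (k : ℕ), 0 < k ∧
    (∃ a b : S, a * b ≠ b * a) ∧ Nonempty (M ≃* (Fin k → S)) ∧ p ∣ Nat.card S ∧ LnkS p S

/-- the step for the minimal normal subgroups `S ^ k` of order divisible by `p` -/
theorem step_GdM (hGRP : GRP) (G : Type) [Group G] [Finite G] (P : Sylow p G) (hP : Red2 P)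
    (M : Subgroup (G ⧸ Subgroup.center G)) (hM : BadM p (G ⧸ Subgroup.center G) M) (hD : GdM p M) :
    ∃ H : Subgroup G, NN P ≤ H ∧ H ≠ ⊤ ∧ wt (cl p) G = wt (cl p) H := by
  obtain ⟨S, _, _, _, k, hk, hS, hMS, hpS, hlnk⟩ := hD
  obtain ⟨N, _, _, I, _, F, H, σ, c, Q, h1, h2, h3, h4, h5, h6, h7, h8, h9, h10, h11, h12⟩ :=
    hGRP p G P hP S hS hpS k hk M hM.1 hM.2.1 hMS
  exact ⟨H, h6, h7, wre P F H σ c Q h4 h5 h6 h8 h9 h10 h11 h12 (hlnk N h1 h2 h3 Q)⟩

/-- **Q1 for all groups whose obstructions have linked socles** -/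
theorem main_R1 (hGRP : GRP) : ∀ (G : Type) [Group G] [Finite G], SeD p (GdM p) G → Q1 p G := by
  refine red_step (cls_SeD p (GdM p)) fun G _ _ hG P hP hc => ?_
  obtain ⟨M, hM⟩ := bad_of_red P hP hc
  refine step_GdM hGRP G P hP M hM ?_
  refine hG (G ⧸ Subgroup.center G) ⊤ ((QuotientGroup.mk' (Subgroup.center G)).comp
    Subgroup.topEquiv.toMonoidHom) ?_ ?_ M hM
  · rw [Subgroup.index_top]
    exact hp.out.one_lt.ne' ∘ Nat.dvd_one.mp
  · exact (QuotientGroup.mk'_surjective _).comp Subgroup.topEquiv.surjective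

/-- the Sylow subgroups of a central extension by a group of order prime to `p` -/
theorem cyc_cover {N S : Type} [Group N] [Finite N] [Group S] [Finite S]
    (e : (N ⧸ Subgroup.center N) ≃* S) (hc : ¬ p ∣ Nat.card (Subgroup.center N))
    (hS : ∀ Q : Sylow p S, IsCyclic Q) (Q : Sylow p N) : IsCyclic Q := by
  let f : N →* S := e.toMonoidHom.comp (QuotientGroup.mk' (Subgroup.center N))
  have hf : Function.Surjective f := e.surjective.comp (QuotientGroup.mk'_surjective _)
  have hcyc : IsCyclic ((Q : Subgroup N).map f) := hS (Q.mapSurjective hf)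
  have hinj : Function.Injective (f.subgroupMap (Q : Subgroup N)) := by
    rw [injective_iff_map_eq_one]
    intro x hx
    have h1 : f (x : N) = 1 := congrArg Subtype.val hx
    have h2 : (x : N) ∈ Subgroup.center N := by
      have h3 : QuotientGroup.mk' (Subgroup.center N) (x : N) = 1 := by
        apply e.injective
        rw [map_one]
        exact h1
      exact (QuotientGroup.eq_one_iff _).mp h3
    obtain ⟨m, hm⟩ := Q.isPGroup' x
    have hm' : (x : N) ^ p ^ m = 1 := congrArg Subtype.val hm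
    have h8 : orderOf (x : N) ∣ p ^ m := orderOf_dvd_of_pow_eq_one hm'
    have h9 : orderOf (x : N) ∣ Nat.card (Subgroup.center N) := by
      have := orderOf_dvd_natCard (⟨x, h2⟩ : Subgroup.center N)
      rwa [Subgroup.orderOf_mk] at this
    have h10 : Nat.Coprime (p ^ m) (Nat.card (Subgroup.center N)) :=
      Nat.Coprime.pow_left m ((Nat.Prime.coprime_iff_not_dvd hp.out).mpr hc)
    exact Subtype.ext (orderOf_eq_one_iff.mp (Nat.eq_one_of_dvd_coprimes h10 h8 h9))
  exact isCyclic_of_injective _ hinj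

/-- **simple groups with cyclic Sylow `p`-subgroups and cyclic outer automorphism group of order prime to
`p` are linked** -/
theorem lnkS_of_cyc (hEQ : EQ) (hEXT : EXT) (hOUT : OUT) {S : Type} [Group S] [Finite S]
    (hS : ∀ Q : Sylow p S, IsCyclic Q) (b : MulAut S) (d : ℕ) (hd : ¬ p ∣ d)
    (hb : ∃ s : S, b ^ d = MulAut.conj s)
    (hgen : ∀ c : MulAut S, ∃ (s : S) (k : ℕ), c = MulAut.conj s * b ^ k) : LnkS p S := by
  intro N _ _ hN ⟨e⟩ hc Q
  obtain ⟨a, ha, hap, hgena⟩ := hOUT p N S hN ⟨e⟩ b d hd hb hgen Q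
  obtain ⟨β, h1, h2, h3⟩ := hEQ p N Q (cyc_cover e hc hS Q) a ha hap
  exact hEXT p N Q a ha hgena β h1 h2 h3

end

end Pool.Agent.ZH17.RD
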