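import Pool.Agent.ZH17.RD.Stm6
import Pool.Agent.ZH17.RD.Main1

/-!
# Phase B: preparations for the assembly
-/

set_option autoImplicit false
set_option linter.unusedSectionVars false
set_option linter.style.haveILetI false

open scoped BigOperators Classical

noncomputable section

namespace Pool.Agent.ZH17.RD

open Pool.Agent.Helper884 Pool.Agent.K3h3.KB Pool.Agent.K3h3.MK Pool.Agent.K3h83.IN
open Pool.Agent.K3h33.CY
open Pool.Agent.H254R3.IN (IsIrr mem_Irr)
open IC (Irr)
open SemidirectProduct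

namespace Lkc

theorem rc_split {G : Type} [Group G] [Fintype G] {Φ : G → ℂ} (hΦ : RC Φ) {ξ : G → ℂ}
    (hξ : IsIrr ξ) (h : IC.B Φ ξ ≠ 0) : ∃ r : ℕ, Φ 1 = ξ 1 + r ∧ (r = 0 → Φ = ξ) := by
  have hn : ∀ χ ∈ Irr G, ∃ n : ℕ, IC.B Φ χ = n := fun χ hχ => rc_B hΦ (rc_irr (mem_Irr.mp hχ))
  choose! n hn using hn
  have hξ' : ξ ∈ Irr G := mem_Irr.mpr hξ
  have h1 := IC.expand Φ (rc_class hΦ)
  have h2 : ∀ g, Φ g = ∑ χ ∈ Irr G, (n χ : ℂ) * χ g := by
    intro g
    have := congrFun h1 g
    rw [this, Finset.sum_apply]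
    refine Finset.sum_congr rfl fun χ hχ => ?_
    rw [hn χ hχ]
    rfl
  have h3 : n ξ ≠ 0 := by
    intro h0
    apply h
    rw [hn ξ hξ', h0, Nat.cast_zero]
  refine ⟨(n ξ - 1) * ndeg ξ + ∑ χ ∈ (Irr G).erase ξ, n χ * ndeg χ, ?_, fun h0 => ?_⟩
  · rw [h2 1, ← Finset.add_sum_erase _ _ hξ', ← ndeg_cast hξ]
    obtain ⟨m, hm⟩ := Nat.exists_eq_succ_of_ne_zero h3
    rw [hm]
    push_cast
    have h4 : ∑ χ ∈ (Irr G).erase ξ, (n χ : ℂ) * χ 1 = ∑ χ ∈ (Irr G).erase ξ, (n χ : ℂ) * ndeg χ :=
      Finset.sum_congr rfl fun χ hχ => by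
        rw [ndeg_cast (mem_Irr.mp (Finset.mem_of_mem_erase hχ))]
    rw [h4]
    ring
  · have h5 := Nat.add_eq_zero_iff.mp h0
    have h6 : n ξ = 1 := by
      rcases Nat.mul_eq_zero.mp h5.1 with h7 | h7
      · omega
      · exact absurd h7 (ndeg_pos hξ).ne'
    have h7 : ∀ χ ∈ (Irr G).erase ξ, n χ = 0 := by
      intro χ hχ
      have h8 := Finset.sum_eq_zero_iff.mp h5.2 χ hχ
      rcases Nat.mul_eq_zero.mp h8 with h9 | h9
      · exact h9
      · exact absurd h9 (ndeg_pos (mem_Irr.mp (Finset.mem_of_mem_erase hχ))).ne'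
    funext g
    rw [h2 g, ← Finset.add_sum_erase _ _ hξ', h6, Finset.sum_eq_zero, add_zero, Nat.cast_one, one_mul]
    intro χ hχ
    rw [h7 χ hχ, Nat.cast_zero, zero_mul]

/-- a character with irreducible restriction is irreducible -/
theorem irr_pull {G H N : Type} [Group G] [Group H] [Group N] [Finite H] [Finite N] {χ : G → ℂ}
    (hχ : RC χ) (f : H →* G) (g : N →* H) (h : IsIrr fun n => χ (f (g n))) :
    IsIrr fun x => χ (f x) := by
  haveI := Fintype.ofFinite H
  haveI := Fintype.ofFinite N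
  have h1 : RC fun x => χ (f x) := rc_comp hχ f
  have h2 := IC.B_irr h h
  rw [if_pos rfl] at h2
  obtain ⟨ξ, hξ, h3, h4⟩ := exists_const g h1 h h2
  obtain ⟨r, hr, hr0⟩ := rc_split h1 hξ (by rw [h3]; exact one_ne_zero)
  obtain ⟨r', hr', _⟩ := rc_split (rc_comp (rc_irr hξ) g) h (by rw [h4]; exact one_ne_zero)
  have e1 : χ (f 1) = ξ 1 + r := hr
  have e2 : ξ (g 1) = χ (f (g 1)) + r' := hr'
  rw [map_one g] at e2
  have e3 : (r : ℂ) + r' = 0 := by
    rw [e2] at e1
    have : χ (f 1) = χ (f 1) + (r + r' : ℂ) := by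
      nth_rewrite 1 [e1]
      ring
    exact left_eq_add.mp this
  have e4 : r + r' = 0 := by exact_mod_cast e3
  have e5 : r = 0 := by omega
  rw [hr0 e5]
  exact hξ

theorem irr_comp' {G H : Type} [Group G] [Group H] {χ : H → ℂ} (f : G →* H)
    (hf : Function.Surjective f) (h : IsIrr χ) : IsIrr fun x => χ (f x) := by
  obtain ⟨V, i1, i2, i3, ρ, h1, rfl⟩ := h
  exact ⟨V, i1, i2, i3, ρ.comp f, Pool.Agent.K3h85.IN.irr_comp_surj ρ h1 f hf, rfl⟩

section

variable {p : ℕ} {B N A : Type} [Group B] [Group N] [Group A] (D : Dat p B N A)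

/-- the matching is inherited by subgroups -/
theorem mm_mono [Finite B] [Finite N] {W W' : Subgroup A} (h : W' ≤ W) {χ : N → ℂ} {θ : B → ℂ} (hχ : IsIrr χ)
    (hθ : IsIrr θ) (hM : MM D W χ θ) : MM D W' χ θ := by
  obtain ⟨U, _, _, π, hU, hπ, χ', θ', h1, h2, h3, h4, h5⟩ := hM
  let U' : Subgroup U := W'.comap π
  let jN : NU D (π.comp U'.subtype) →* NU D π :=
    SemidirectProduct.map (MonoidHom.id N) U'.subtype fun u => by ext n; rfl
  let jB : BU D (π.comp U'.subtype) →* BU D π :=
    SemidirectProduct.map (MonoidHom.id B) U'.subtype fun u => by ext n; rfl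
  have jN_inl : ∀ n : N, jN (inl n) = inl n := fun n => by
    rw [SemidirectProduct.map_inl]; rfl
  have jB_inl : ∀ n : B, jB (inl n) = inl n := fun n => by
    rw [SemidirectProduct.map_inl]; rfl
  have jB_inj : Function.Injective jB := by
    intro x y hxy
    have e1 : x.left = y.left := congrArg (fun t : BU D π => t.left) hxy
    have e2 : (x.right : U) = y.right := congrArg (fun t : BU D π => t.right) hxy
    exact SemidirectProduct.ext e1 (Subtype.ext e2)
  have hcomm : ∀ x, jN (kU D (π.comp U'.subtype) x) = kU D π (jB x) := fun x => rfl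
  refine ⟨U', inferInstance, inferInstance, π.comp U'.subtype,
    fun hd => hU (hd.trans (Subgroup.card_subgroup_dvd_card U')), ?_, fun x => χ' (jN x),
    fun x => θ' (jB x), ?_, ?_, ?_, ?_, ?_⟩
  · rw [MonoidHom.range_comp, Subgroup.range_subtype, Subgroup.map_comap_eq, hπ]
    exact inf_eq_right.mpr h
  · haveI : Finite (NU D (π.comp U'.subtype)) := Finite.of_equiv _ SemidirectProduct.equivProd.symm
    refine irr_pull (rc_irr h1) jN inl ?_
    have : (fun n : N => χ' (jN (inl n))) = χ := by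
      funext n
      rw [jN_inl, h3]
    rw [this]
    exact hχ
  · haveI : Finite (BU D (π.comp U'.subtype)) := Finite.of_equiv _ SemidirectProduct.equivProd.symm
    refine irr_pull (rc_irr h2) jB inl ?_
    have : (fun n : B => θ' (jB (inl n))) = θ := by
      funext n
      rw [jB_inl, h4]
    rw [this]
    exact hθ
  · intro n
    change χ' (jN (inl n)) = _
    rw [jN_inl, h3]
  · intro n
    change θ' (jB (inl n)) = _
    rw [jB_inl, h4]
  · rcases h5 with h5 | h5
    · left
      intro g hg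
      change χ' (jN (kU D _ g)) = θ' (jB g)
      rw [hcomm]
      exact h5 _ (by rwa [orderOf_injective jB jB_inj])
    · right
      intro g hg
      change χ' (jN (kU D _ g)) = - θ' (jB g)
      rw [hcomm]
      exact h5 _ (by rwa [orderOf_injective jB jB_inj])

/-- the matching is equivariant -/
theorem mm_conj {W : Subgroup A} {χ : N → ℂ} {θ : B → ℂ} (hM : MM D W χ θ) (g : A) :
    MM D (W.map (MulAut.conj g).toMonoidHom) (fun n => χ (D.α g⁻¹ n)) (fun b => θ (D.β g⁻¹ b)) := by
  obtain ⟨U, _, _, π, hU, hπ, χ', θ', h1, h2, h3, h4, h5⟩ := hM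
  let π' : U →* A := (MulAut.conj g).toMonoidHom.comp π
  let jN : NU D π' →* NU D π :=
    SemidirectProduct.map (D.α g⁻¹).toMonoidHom (MonoidHom.id U) fun u => by
      ext n
      show D.α g⁻¹ (D.α (g * π u * g⁻¹) n) = D.α (π u) (D.α g⁻¹ n)
      rw [← MulAut.mul_apply, ← map_mul, ← MulAut.mul_apply, ← map_mul]
      congr 2
      group
  let jB : BU D π' →* BU D π :=
    SemidirectProduct.map (D.β g⁻¹).toMonoidHom (MonoidHom.id U) fun u => by
      ext n
      show D.β g⁻¹ (D.β (g * π u * g⁻¹) n) = D.β (π u) (D.β g⁻¹ n)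
      rw [← MulAut.mul_apply, ← map_mul, ← MulAut.mul_apply, ← map_mul]
      congr 2
      group
  have jN_inl : ∀ n : N, jN (inl n) = inl (D.α g⁻¹ n) := fun n => by
    rw [SemidirectProduct.map_inl]; rfl
  have jB_inl : ∀ n : B, jB (inl n) = inl (D.β g⁻¹ n) := fun n => by
    rw [SemidirectProduct.map_inl]; rfl
  have jB_inj : Function.Injective jB := by
    intro x y hxy
    have e1 : D.β g⁻¹ x.left = D.β g⁻¹ y.left := congrArg (fun t : BU D π => t.left) hxy
    have e2 : x.right = y.right := congrArg (fun t : BU D π => t.right) hxy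
    exact SemidirectProduct.ext ((D.β g⁻¹).injective e1) e2
  have jN_surj : Function.Surjective jN := by
    intro x
    refine ⟨⟨D.α g x.left, x.right⟩, SemidirectProduct.ext ?_ rfl⟩
    show D.α g⁻¹ (D.α g x.left) = x.left
    rw [← MulAut.mul_apply, ← map_mul, inv_mul_cancel, map_one, MulAut.one_apply]
  have jB_surj : Function.Surjective jB := by
    intro x
    refine ⟨⟨D.β g x.left, x.right⟩, SemidirectProduct.ext ?_ rfl⟩
    show D.β g⁻¹ (D.β g x.left) = x.left
    rw [← MulAut.mul_apply, ← map_mul, inv_mul_cancel, map_one, MulAut.one_apply]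
  have hcomm : ∀ x, jN (kU D π' x) = kU D π (jB x) := by
    intro x
    refine SemidirectProduct.ext ?_ rfl
    show D.α g⁻¹ (D.k x.left) = D.k (D.β g⁻¹ x.left)
    rw [D.comp]
  refine ⟨U, inferInstance, inferInstance, π', hU, ?_, fun x => χ' (jN x),
    fun x => θ' (jB x), irr_comp' jN jN_surj h1,
    irr_comp' jB jB_surj h2, ?_, ?_, ?_⟩
  · rw [MonoidHom.range_comp, hπ]
  · intro n
    change χ' (jN (inl n)) = _
    rw [jN_inl, h3]
  · intro n
    change θ' (jB (inl n)) = _
    rw [jB_inl, h4]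
  · rcases h5 with h5 | h5
    · left
      intro x hx
      change χ' (jN (kU D _ x)) = θ' (jB x)
      rw [hcomm]
      exact h5 _ (by rwa [orderOf_injective jB jB_inj])
    · right
      intro x hx
      change χ' (jN (kU D _ x)) = - θ' (jB x)
      rw [hcomm]
      exact h5 _ (by rwa [orderOf_injective jB jB_inj])

end

end Lkc

end Pool.Agent.ZH17.RD
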