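import Pool.Agent.ZH17.RD.Stm7
import Pool.Agent.ZH17.RD.LkcA
import Pool.Agent.ZH17.RD.Ext
import Pool.Agent.K3h18.IN.Gal
import Pool.Agent.K3h18.IN.Infl

/-!
# Piece EXP of project RD, phase C (helper24)
-/

set_option autoImplicit false
set_option linter.unusedSectionVars false
set_option linter.style.haveILetI false

open scoped BigOperators Classical

noncomputable section

namespace Pool.Agent.ZH17.RD

open Pool.Agent.Helper884 Pool.Agent.K3h3.KB Pool.Agent.K3h3.MK Pool.Agent.K3h83.IN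
open Pool.Agent.K3h33.CY
open Pool.Agent.H254R3.IN (IsIrr mem_Irr)
open IC (Irr)

namespace ExpP

/-- a character of degree one is a homomorphism -/
theorem lin_of_one {Q : Type} [Group Q] {β : Q → ℂ} (h : RC β) (h1 : β 1 = 1) :
    ∃ l : Q →* ℂˣ, β = fun q => ((l q : ℂˣ) : ℂ) := by
  obtain ⟨V, _, _, _, ρ, rfl⟩ := h
  have hf : Module.finrank ℂ V = 1 := by
    have h2 := Representation.char_one ρ
    rw [h1] at h2
    exact_mod_cast h2.symm
  obtain ⟨v, hv, hsp⟩ := finrank_eq_one_iff'.1 hf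
  have key : ∀ f : Module.End ℂ V, f = LinearMap.trace ℂ V f • (1 : Module.End ℂ V) := by
    intro f
    obtain ⟨c, hc⟩ := hsp (f v)
    have h3 : f = c • (1 : Module.End ℂ V) := by
      refine LinearMap.ext fun w => ?_
      obtain ⟨d, rfl⟩ := hsp w
      rw [map_smul, ← hc, LinearMap.smul_apply, Module.End.one_apply, smul_comm]
    have h4 : LinearMap.trace ℂ V f = c := by
      rw [h3, map_smul, LinearMap.trace_one, hf, Nat.cast_one, smul_eq_mul, mul_one]
    rw [h4]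
    exact h3
  let l : Q →* ℂ :=
    { toFun := ρ.character
      map_one' := h1
      map_mul' := fun a b => by
        show LinearMap.trace ℂ V (ρ (a * b)) = LinearMap.trace ℂ V (ρ a) * LinearMap.trace ℂ V (ρ b)
        conv_lhs => rw [map_mul, key (ρ a)]
        rw [smul_mul_assoc, one_mul, map_smul, smul_eq_mul] }
  exact ⟨l.toHomUnits, funext fun q => rfl⟩

theorem card_lin {Q : Type} [Group Q] [Finite Q] {p : ℕ} [Fact p.Prime] (h : ¬ p ∣ Nat.card Q)
    [Finite (Q →* ℂˣ)] : ¬ p ∣ Nat.card (Q →* ℂˣ) := by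
  intro hd
  obtain ⟨l, hl⟩ := exists_prime_orderOf_dvd_card' p hd
  apply h
  rw [← hl]
  apply orderOf_dvd_of_pow_eq_one
  ext q
  rw [MonoidHom.pow_apply, ← map_pow, pow_card_eq_one', map_one, MonoidHom.one_apply]

theorem fin_irr {G : Type} [Group G] [Finite G] (P : (G → ℂ) → Prop) :
    Finite {ξ : G → ℂ // IsIrr ξ ∧ P ξ} := by
  haveI := Fintype.ofFinite G
  have h : {ξ : G → ℂ | IsIrr ξ ∧ P ξ} ⊆ ((Irr G : Finset (G → ℂ)) : Set (G → ℂ)) := by
    intro ξ hξ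
    exact Finset.mem_coe.2 (mem_Irr.2 hξ.1)
  exact ((Irr G).finite_toSet.subset h).to_subtype

/-- the number of extensions -/
theorem card_exts {K G Q : Type} [Group K] [Finite K] [Group G] [Finite G] [Group Q] [Finite Q]
    (s : K →* G) (hs : Function.Injective s) (t : G →* Q) (ht : Function.Surjective t)
    (hk : t.ker = s.range) {ξ₀ : G → ℂ} (h0 : IsIrr ξ₀) (h1 : IsIrr fun m => ξ₀ (s m)) {p : ℕ}
    [Fact p.Prime] (hp : ¬ p ∣ Nat.card Q) :
    ¬ p ∣ Nat.card {ξ : G → ℂ // IsIrr ξ ∧ ∀ m, ξ (s m) = ξ₀ (s m)} := by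
  haveI := Fintype.ofFinite K
  haveI := Fintype.ofFinite G
  haveI := Fintype.ofFinite Q
  have hts : ∀ l, t (s l) = 1 := by
    intro l
    have : s l ∈ t.ker := by
      rw [hk]
      exact ⟨l, rfl⟩
    exact this
  obtain ⟨V, _, _, _, ρ, hρ, rfl⟩ := h0
  have hd : ρ.character 1 ≠ 0 := ExtP.deg_ne ⟨V, inferInstance, inferInstance, inferInstance, ρ, hρ, rfl⟩
  let f : (Q →* ℂˣ) → {ξ : G → ℂ // IsIrr ξ ∧ ∀ m, ξ (s m) = ρ.character (s m)} := fun l =>
    ⟨fun x => ρ.character x * ((l (t x) : ℂˣ) : ℂ),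
      Pool.Agent.K3h18.IN.prod_irr s t ht hts ρ h1 (lin_irr l), fun m => by
        show ρ.character (s m) * ((l (t (s m)) : ℂˣ) : ℂ) = _
        rw [hts, map_one, Units.val_one, mul_one]⟩
  have hf : Function.Bijective f := by
    constructor
    · intro l l' h
      have h2 := Pool.Agent.K3h18.IN.prod_inj s t ht hts ρ h1 (lin_irr l) (lin_irr l')
        (congrArg Subtype.val h)
      ext q
      exact congrFun h2 q
    · rintro ⟨ξ, hξ, hξ'⟩
      obtain ⟨β, hβ, hβ1⟩ := Pool.Agent.K3h18.IN.exists_prod s hs t ht hk ρ h1 hξ (by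
        rw [funext hξ', IC.B_irr h1 h1, if_pos rfl]
        exact one_ne_zero)
      have hβ2 : β 1 = 1 := by
        have h2 := hξ' 1
        rw [hβ1] at h2
        simp only [map_one] at h2
        exact mul_left_cancel₀ hd (h2.trans (mul_one _).symm)
      obtain ⟨l, hl⟩ := lin_of_one (rc_irr hβ) hβ2
      refine ⟨l, Subtype.ext ?_⟩
      show (fun x => ρ.character x * ((l (t x) : ℂˣ) : ℂ)) = ξ
      rw [hβ1, hl]
  haveI := fin_irr (G := G) fun ξ => ∀ m, ξ (s m) = ρ.character (s m)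
  haveI : Finite (Q →* ℂˣ) := Finite.of_injective f hf.1
  rw [← Nat.card_eq_of_bijective f hf]
  exact card_lin hp

end ExpP

open ExpP in
theorem exp : EXP := by
  intro p _ K E _ _ _ _ j hj hn κ hκ hfix k φ hφ hidx ξ₀ hξ₀ hres
  haveI := Fintype.ofFinite K
  haveI := Fintype.ofFinite E
  haveI := Fintype.ofFinite φ.ker
  let j₀ : K →* φ.ker := j.codRestrict φ.ker fun m => MonoidHom.mem_ker.2 (hφ m)
  have hj₀ : ∀ m, ((j₀ m : φ.ker) : E) = j m := fun m => rfl
  have hj₀i : Function.Injective j₀ := fun a b h => hj (congrArg Subtype.val h)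
  have hres' : ∀ m, ξ₀ (j₀ m) = κ m := fun m => hres m _
  have hirr₀ : IsIrr fun m => ξ₀ (j₀ m) := by
    rw [funext hres']
    exact hκ
  have hξirr : IsIrr ξ₀ := Lkc.irr_pull hξ₀ (MonoidHom.id φ.ker) j₀ hirr₀
  -- the quotient
  haveI : j.range.Normal := hn
  let N₀ : Subgroup φ.ker := j.range.subgroupOf φ.ker
  haveI : N₀.Normal := Subgroup.normal_subgroupOf
  have hN₀ : (QuotientGroup.mk' N₀).ker = j₀.range := by
    rw [QuotientGroup.ker_mk']
    ext e
    rw [Subgroup.mem_subgroupOf]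
    constructor
    · rintro ⟨m, hm⟩
      exact ⟨m, Subtype.ext hm⟩
    · rintro ⟨m, hm⟩
      exact ⟨m, congrArg Subtype.val hm⟩
  have hcard := card_exts (p := p) j₀ hj₀i (QuotientGroup.mk' N₀) (QuotientGroup.mk'_surjective N₀)
    hN₀ hξirr hirr₀ (by
      have h1 : Nat.card (φ.ker ⧸ N₀) = j.range.relIndex φ.ker := rfl
      rw [h1]
      exact hidx)
  -- the action
  have hac : ∀ (x : E) (ξ : {ξ : φ.ker → ℂ // IsIrr ξ ∧ ∀ m, ξ (j₀ m) = ξ₀ (j₀ m)}),
      IsIrr (fun e => ξ.1 (MulAut.conjNormal x e)) ∧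
      ∀ m, ξ.1 (MulAut.conjNormal x (j₀ m)) = ξ₀ (j₀ m) := by
    intro x ξ
    refine ⟨Lkc.irr_comp' (MulAut.conjNormal x : MulAut φ.ker).toMonoidHom
      (MulAut.conjNormal x : MulAut φ.ker).surjective ξ.2.1, fun m => ?_⟩
    obtain ⟨m', hm'⟩ : x * j m * x⁻¹ ∈ j.range := hn.conj_mem _ ⟨m, rfl⟩ x
    have h1 : MulAut.conjNormal x (j₀ m) = j₀ m' := by
      apply Subtype.ext
      rw [MulAut.conjNormal_apply, hj₀, hj₀, hm']
    rw [h1, ξ.2.2, hres', hres']
    exact hfix x m m' hm'.symm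
  let ac : E → {ξ : φ.ker → ℂ // IsIrr ξ ∧ ∀ m, ξ (j₀ m) = ξ₀ (j₀ m)} →
      {ξ : φ.ker → ℂ // IsIrr ξ ∧ ∀ m, ξ (j₀ m) = ξ₀ (j₀ m)} := fun x ξ =>
    ⟨fun e => ξ.1 (MulAut.conjNormal x e), hac x ξ⟩
  have hac_mul : ∀ x y ξ, ac (x * y) ξ = ac y (ac x ξ) := by
    intro x y ξ
    apply Subtype.ext
    funext e
    show ξ.1 (MulAut.conjNormal (x * y) e) = ξ.1 (MulAut.conjNormal x (MulAut.conjNormal y e))
    rw [map_mul, MulAut.mul_apply]
  have hac_one : ∀ x ∈ φ.ker, ∀ ξ, ac x ξ = ξ := by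
    intro x hx ξ
    apply Subtype.ext
    funext e
    have h1 := rc_class (rc_irr ξ.2.1) e ⟨x, hx⟩
    have h2 : MulAut.conjNormal x e = (⟨x, hx⟩ : φ.ker) * e * (⟨x, hx⟩ : φ.ker)⁻¹ := by
      apply Subtype.ext
      rw [MulAut.conjNormal_apply]
      rfl
    show ξ.1 (MulAut.conjNormal x e) = ξ.1 e
    rw [h2]
    exact h1
  -- the generator
  obtain ⟨⟨z, y, hy⟩, hz⟩ := IsCyclic.exists_generator (α := φ.range)
  subst hy
  have hgen : ∀ g : E, ∃ n : ℕ, φ g = φ y ^ n := by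
    intro g
    have h1 := hz ⟨φ g, g, rfl⟩
    rw [← mem_powers_iff_mem_zpowers] at h1
    obtain ⟨n, hn'⟩ := h1
    exact ⟨n, (congrArg Subtype.val hn').symm⟩
  let σ : Equiv.Perm {ξ : φ.ker → ℂ // IsIrr ξ ∧ ∀ m, ξ (j₀ m) = ξ₀ (j₀ m)} :=
    ⟨ac y, ac y⁻¹, fun ξ => by rw [← hac_mul, mul_inv_cancel]; exact hac_one 1 (one_mem _) ξ,
      fun ξ => by rw [← hac_mul, inv_mul_cancel]; exact hac_one 1 (one_mem _) ξ⟩
  have hσ : ∀ (n : ℕ) ξ, (σ ^ n) ξ = ac (y ^ n) ξ := by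
    intro n
    induction n with
    | zero =>
      intro ξ
      rw [pow_zero, pow_zero]
      exact (hac_one 1 (one_mem _) ξ).symm
    | succ n ih =>
      intro ξ
      rw [pow_succ', Equiv.Perm.mul_apply, ih, pow_succ, hac_mul]
      rfl
  have hσp : σ ^ p ^ k = 1 := by
    ext1 ξ
    rw [hσ, Equiv.Perm.one_apply]
    apply hac_one
    rw [MonoidHom.mem_ker, map_pow]
    have h1 : Nat.card (Multiplicative (ZMod (p ^ k))) = p ^ k := by
      rw [Nat.card_congr Multiplicative.toAdd, Nat.card_zmod]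
    exact (congrArg (fun n => φ y ^ n) h1).symm.trans pow_card_eq_one'
  haveI := fin_irr (G := φ.ker) fun ξ => ∀ m, ξ (j₀ m) = ξ₀ (j₀ m)
  haveI := Fintype.ofFinite {ξ : φ.ker → ℂ // IsIrr ξ ∧ ∀ m, ξ (j₀ m) = ξ₀ (j₀ m)}
  rw [Nat.card_eq_fintype_card] at hcard
  obtain ⟨ξ, hξ⟩ := Equiv.Perm.exists_fixed_point_of_prime hcard hσp
  have hξ' : ∀ e, ξ.1 (MulAut.conjNormal y e) = ξ.1 e := by
    intro e
    exact congrFun (congrArg Subtype.val hξ) e
  -- the extension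
  obtain ⟨V, _, _, _, ρ, hρ, hρ'⟩ := ξ.2.1
  haveI := hρ
  let α : φ.ker →* φ.ker := (MulAut.conjNormal y : MulAut φ.ker).toMonoidHom
  let ρ' : Representation ℂ φ.ker V := MonoidHom.comp ρ α
  obtain ⟨ψ⟩ := ExtP.equiv_of_char ρ ρ' hρ (Pool.Agent.K3h85.IN.irr_comp_surj ρ hρ α
    (MulAut.conjNormal y : MulAut φ.ker).surjective) (by
      rw [← hρ']
      funext e
      have h1 := congrFun hρ' (α e)
      change _ = ρ.character (α e)
      rw [← h1]
      exact (hξ' e).symm)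
  obtain ⟨R, hR⟩ := ExtP.extend_blocks (X := Unit) (fun _ => V) (fun _ => ρ)
    (fun x y hxy => absurd (Subsingleton.elim x y) hxy) φ.ker.subtype y α
    (fun e => MulAut.conjNormal_apply y e) (fun g => by
      obtain ⟨n, hn'⟩ := hgen g
      refine ⟨⟨g * (y ^ n)⁻¹, ?_⟩, n, ?_⟩
      · rw [MonoidHom.mem_ker, map_mul, map_inv, map_pow, hn', mul_inv_cancel]
      · exact (inv_mul_cancel_right g (y ^ n)).symm)
    (fun e he _ => by
      have h1 : e = 1 := Subtype.ext he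
      rw [h1, map_one]) id Function.surjective_id (fun _ => ψ.toLinearEquiv)
    (fun _ e u => LinearMap.congr_fun (ψ.toIntertwiningMap.isIntertwining' e) u)
  refine ⟨R.character, ⟨_, _, _, inferInstance, R, rfl⟩, fun m => ?_⟩
  have h1 : R.character (j m) = (ExtP.piRep (fun _ : Unit => V) (fun _ => ρ)).character (j₀ m) := by
    show LinearMap.trace ℂ _ (R (j m)) = LinearMap.trace ℂ _ _
    rw [← hR]
    rfl
  rw [h1, ExtP.char_pi]
  have h2 := congrFun hρ' (j₀ m)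
  simp only [Finset.univ_unique, Finset.sum_singleton]
  rw [← h2, ξ.2.2, hres']

end Pool.Agent.ZH17.RD
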