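import Pool.Agent.ZH17.RD.Stm7
import Pool.Agent.ZH17.RD.Hal

/-!
# Piece HAM
-/

set_option autoImplicit false
set_option linter.unusedSectionVars false
set_option linter.style.haveILetI false

open scoped BigOperators Classical

noncomputable section

namespace Pool.Agent.ZH17.RD

open Pool.Agent.Helper884 Pool.Agent.K3h3.KB Pool.Agent.K3h3.MK Pool.Agent.K3h83.IN
open Pool.Agent.K3h33.CY
open Pool.Agent.H254R3.IN (IsIrr mem_Irr)
open IC (Irr)

namespace HAM

open HAL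

section ham

variable {N : Type} [Group N] (R : Subgroup N) (A₀ : Subgroup (Ast R))
  (hA₀ : ∀ b : Subgroup.normalizer (R : Set N), cj R b ∈ A₀)

/-- the conjugations by the normalizer of `R`, as a map to a subgroup containing them -/
def cj0 : Subgroup.normalizer (R : Set N) →* A₀ where
  toFun b := ⟨cj R b, hA₀ b⟩
  map_one' := Subtype.ext (map_one _)
  map_mul' a b := Subtype.ext (map_mul _ _ _)

theorem map_normal0 {L : Subgroup (Subgroup.normalizer (R : Set N))}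
    (hL : ∀ a, ∀ b ∈ L, rs R a b ∈ L) : (L.map (cj0 R A₀ hA₀)).Normal := by
  constructor
  rintro _ ⟨b, hb, rfl⟩ a
  exact ⟨rs R a b, hL a b hb, Subtype.ext (cj_rs R a b)⟩

end ham

theorem cop0 {p : ℕ} [Fact p.Prime] {N : Type} [Group N] [Finite N] (R : Subgroup N)
    (P H : Subgroup (Subgroup.normalizer (R : Set N)))
    (h : LC p (R.subgroupOf (Subgroup.normalizer (R : Set N))) P H)
    (A₀ : Subgroup (Ast R)) (hA₀ : ∀ b : Subgroup.normalizer (R : Set N), cj R b ∈ A₀)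
    (hA : ∀ a : Ast R, a ∈ A₀ → (∃ n : N, (a : MulAut N) ^ p = MulAut.conj n) →
      ∃ n : N, (a : MulAut N) = MulAut.conj n) :
    ∃ V : Subgroup A₀, ¬ p ∣ Nat.card V ∧
        ∀ a : A₀, ∃ (m : Subgroup.normalizer (R : Set N)), ∃ v ∈ V, a = cj0 R A₀ hA₀ m * v := by
  have hp := (Fact.out : p.Prime)
  have hfin : Finite (MulAut N) := inferInstance
  have hH : (H.map (cj0 R A₀ hA₀)).Normal := map_normal0 R A₀ hA₀ fun a b hb => by
    rw [mem_H h] at hb ⊢
    refine ⟨rs_cen R a b hb.1, ?_⟩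
    rw [MulEquiv.orderOf_eq (rs R a) b]
    exact hb.2
  have hK : ((H ⊔ P).map (cj0 R A₀ hA₀)).Normal := by
    rw [← h.cen]
    exact map_normal0 R A₀ hA₀ fun a b hb => rs_cen R a b hb
  have hR : (cj0 R A₀ hA₀).range.Normal := by
    rw [MonoidHom.range_eq_map]
    exact map_normal0 R A₀ hA₀ fun _ _ _ => Subgroup.mem_top _
  -- the index of the range
  have h1 : ¬ p ∣ (cj0 R A₀ hA₀).range.index := by
    intro hd
    rw [Subgroup.index_eq_card] at hd
    obtain ⟨x, hx⟩ := exists_prime_orderOf_dvd_card' p hd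
    obtain ⟨a, rfl⟩ := QuotientGroup.mk_surjective x
    have h2 : (a ^ p : A₀) ∈ (cj0 R A₀ hA₀).range := by
      rw [← QuotientGroup.eq_one_iff, QuotientGroup.mk_pow, ← hx, pow_orderOf_eq_one]
    obtain ⟨b, hb⟩ := h2
    obtain ⟨n, hn⟩ := hA a.1 a.2 ⟨b, by
      have := congrArg (fun x : A₀ => ((x : Ast R) : MulAut N)) hb
      simp only [Subgroup.coe_pow] at this
      exact this.symm⟩
    have h3 : n ∈ Subgroup.normalizer (R : Set N) := by
      rw [Subgroup.mem_normalizer_iff]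
      intro y
      rw [← a.1.2.1 y, hn, MulAut.conj_apply]
    have h4 : a ∈ (cj0 R A₀ hA₀).range := ⟨⟨n, h3⟩, Subtype.ext (Subtype.ext hn.symm)⟩
    rw [← QuotientGroup.eq_one_iff] at h4
    rw [h4, orderOf_one] at hx
    exact hp.one_lt.ne hx
  have h2 : ¬ p ∣ ((H ⊔ P).map (cj0 R A₀ hA₀)).index := by
    rw [← Subgroup.relIndex_mul_index (Subgroup.map_le_range (cj0 R A₀ hA₀) (H ⊔ P)), hp.dvd_mul, not_or]
    refine ⟨?_, h1⟩
    rw [← Subgroup.index_comap]
    exact fun h3 => h.idx (h3.trans (Subgroup.index_dvd_of_le (Subgroup.le_comap_map _ _)))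
  set q := QuotientGroup.mk' (H.map (cj0 R A₀ hA₀)) with hq
  have hqs : Function.Surjective q := QuotientGroup.mk'_surjective _
  have hKn : (((H ⊔ P).map (cj0 R A₀ hA₀)).map q).Normal := hK.map q hqs
  have h3 : ¬ p ∣ (((H ⊔ P).map (cj0 R A₀ hA₀)).map q).index :=
    fun h4 => h2 (h4.trans (Subgroup.index_map_dvd _ hqs))
  have h4 : IsPGroup p (((H ⊔ P).map (cj0 R A₀ hA₀)).map q) := by
    have h5 : (H.map (cj0 R A₀ hA₀)).map q = ⊥ := by
      rw [Subgroup.map_eq_bot_iff, hq, QuotientGroup.ker_mk']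
    rw [Subgroup.map_sup, Subgroup.map_sup, h5, bot_sup_eq]
    exact (h.pP.map _).map _
  obtain ⟨n, hn⟩ := IsPGroup.iff_card.1 h4
  have h5 : Nat.Coprime (Nat.card (((H ⊔ P).map (cj0 R A₀ hA₀)).map q))
      (((H ⊔ P).map (cj0 R A₀ hA₀)).map q).index := by
    rw [hn]
    exact Nat.Coprime.pow_left n ((Nat.Prime.coprime_iff_not_dvd hp).2 h3)
  obtain ⟨K, hKc⟩ := Subgroup.exists_right_complement'_of_coprime h5
  refine ⟨K.comap q, ?_, fun a => ?_⟩
  · have h6 : Nat.card K = (((H ⊔ P).map (cj0 R A₀ hA₀)).map q).index := hKc.symm.index_eq_card.symm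
    have h7 : Nat.card (K.comap q) = Nat.card (H.map (cj0 R A₀ hA₀)) * Nat.card K := by
      have e1 := (K.comap q).card_mul_index
      have e2 := K.card_mul_index
      have e3 := (H.map (cj0 R A₀ hA₀)).card_mul_index
      rw [Subgroup.index_comap_of_surjective _ hqs] at e1
      have e4 : Nat.card (A₀ ⧸ H.map (cj0 R A₀ hA₀)) = (H.map (cj0 R A₀ hA₀)).index :=
        (Subgroup.index_eq_card _).symm
      rw [e4] at e2
      have e5 : 0 < K.index := Nat.pos_of_ne_zero Subgroup.FiniteIndex.index_ne_zero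
      apply Nat.eq_of_mul_eq_mul_right e5
      rw [e1, mul_assoc, e2, e3]
    rw [h7, hp.dvd_mul, not_or, h6]
    refine ⟨fun h8 => h.cH (h8.trans (Subgroup.card_map_dvd H (cj0 R A₀ hA₀))), h3⟩
  · have h6 : q a ∈ ((H ⊔ P).map (cj0 R A₀ hA₀)).map q ⊔ K := by
      rw [hKc.sup_eq_top]
      exact Subgroup.mem_top _
    rw [Subgroup.mem_sup_of_normal_left] at h6
    obtain ⟨_, ⟨_, ⟨m, hm, rfl⟩, rfl⟩, k, hk, hmk⟩ := h6
    refine ⟨m, (cj0 R A₀ hA₀ m)⁻¹ * a, ?_, ?_⟩
    · rw [Subgroup.mem_comap, map_mul, map_inv, ← hmk, inv_mul_cancel_left]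
      exact hk
    · rw [mul_inv_cancel_left]

end HAM

theorem ham : HAM := by
  intro p _ N _ _ P hP hdvd k f hf1 hf2
  obtain ⟨R, B, H, hPB, hRP, hB, hLC, hE1, hE2⟩ := a_C0 p N P hP hdvd
  subst hB
  refine ⟨R, hRP, ?_, ?_⟩
  · rw [← hLC.cQ]
    exact Nat.card_congr (Subgroup.subgroupOfEquivOfLe Subgroup.le_normalizer).toEquiv.symm
  · refine ⟨⟨Subgroup.subtype _, (Ast R).subtype, HAL.rs R, fun a b => rfl, _, _, H, hLC, hE1,
      fun a b hb => HAL.rs_Q R a b hb⟩, rfl, rfl, fun a b => rfl, ?_⟩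
    set A₀ : Subgroup (Ast R) := (f.comp (Ast R).subtype).ker with hA₀
    have hc : ∀ b : Subgroup.normalizer (R : Set N), HAL.cj R b ∈ A₀ := fun b => hf1 (b : N)
    obtain ⟨V, hV, hV2⟩ := HAM.cop0 R _ H hLC A₀ hc (fun a ha h => hf2 a ha h)
    refine ⟨V.map A₀.subtype, ?_, ?_, ?_⟩
    · rw [Nat.card_congr (V.equivMapOfInjective A₀.subtype A₀.subtype_injective).toEquiv.symm]
      exact hV
    · rintro _ ⟨v, hv, rfl⟩
      exact v.2
    · intro a ha
      obtain ⟨m, v, hv, h⟩ := hV2 ⟨a, ha⟩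
      refine ⟨m, (v : Ast R), ⟨v, hv, rfl⟩, ?_⟩
      have := congrArg (fun x : A₀ => ((x : Ast R) : MulAut N)) h
      exact this

end Pool.Agent.ZH17.RD
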