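import Pool.Agent.ZH17.RD.Stm
import Pool.Agent.K3h85.IN.CExt
import Pool.Agent.Q99.AS.Char
import Pool.Agent.K3h18.IN.Infl

/-!
# Piece EXT of project RD: extension of a multiplicity free representation to a cyclic extension
-/

set_option autoImplicit false
set_option linter.unusedSectionVars false

open scoped BigOperators Classical

noncomputable section

namespace Pool.Agent.ZH17.RD.ExtP

open Representation

section gen

variable {K E V : Type} [Group K] [Group E] [AddCommGroup V] [Module ℂ V] (s : K →* E) (t : E)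
  (α : K →* K) (hs : ∀ k, s (α k) = t * s k * t⁻¹)
  (hgen : ∀ g : E, ∃ (k : K) (j : ℕ), g = s k * t ^ j)
  (ρ : Representation ℂ K V) (S : Module.End ℂ V) (hS : ∀ k, S * ρ k = ρ (α k) * S)

include hs in
theorem t_pow (j : ℕ) (k : K) : t ^ j * s k = s (α^[j] k) * t ^ j := by
  induction j generalizing k with
  | zero => simp
  | succ j ih =>
    rw [pow_succ, mul_assoc, Function.iterate_succ_apply]
    have h1 : t * s k = s (α k) * t := by
      rw [hs, inv_mul_cancel_right]
    rw [h1, ← mul_assoc, ih, mul_assoc]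

include hS in
theorem S_pow (j : ℕ) (k : K) : S ^ j * ρ k = ρ (α^[j] k) * S ^ j := by
  induction j generalizing k with
  | zero => simp
  | succ j ih =>
    rw [pow_succ, mul_assoc, Function.iterate_succ_apply, hS, ← mul_assoc, ih, mul_assoc]

theorem wd_aux (hyp : ∀ (i : ℕ) (k : K), t ^ i = s k → S ^ i = ρ k) {k k' : K} {j j' : ℕ}
    (hj : j ≤ j') (h : s k * t ^ j = s k' * t ^ j') : ρ k * S ^ j = ρ k' * S ^ j' := by
  obtain ⟨i, rfl⟩ := Nat.exists_eq_add_of_le' hj
  have h1 : t ^ i = s (k'⁻¹ * k) := by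
    rw [pow_add, ← mul_assoc] at h
    have h2 := mul_right_cancel h
    rw [map_mul, map_inv, h2, inv_mul_cancel_left]
  have h3 := hyp i _ h1
  rw [pow_add, h3, ← mul_assoc, ← map_mul, mul_inv_cancel_left]

theorem wd (hyp : ∀ (i : ℕ) (k : K), t ^ i = s k → S ^ i = ρ k) {k k' : K} {j j' : ℕ}
    (h : s k * t ^ j = s k' * t ^ j') : ρ k * S ^ j = ρ k' * S ^ j' := by
  rcases le_total j j' with hj | hj
  · exact wd_aux s t ρ S hyp hj h
  · exact (wd_aux s t ρ S hyp hj h.symm).symm

include hs hgen hS in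
theorem extend (hyp : ∀ (i : ℕ) (k : K), t ^ i = s k → S ^ i = ρ k) :
    ∃ R : Representation ℂ E V, ∀ k, R (s k) = ρ k := by
  choose kk jj hkj using hgen
  refine ⟨⟨⟨fun g => ρ (kk g) * S ^ jj g, ?_⟩, ?_⟩, ?_⟩
  · have h := wd s t ρ S hyp (k := kk 1) (k' := 1) (j := jj 1) (j' := 0) (by
      rw [← hkj, map_one, pow_zero, mul_one])
    show ρ (kk 1) * S ^ jj 1 = 1
    rw [h, map_one, pow_zero, mul_one]
  · intro g h
    show ρ (kk (g * h)) * S ^ jj (g * h) = (ρ (kk g) * S ^ jj g) * (ρ (kk h) * S ^ jj h)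
    have h1 := wd s t ρ S hyp (k := kk (g * h)) (k' := kk g * α^[jj g] (kk h)) (j := jj (g * h))
      (j' := jj g + jj h) (by
        rw [← hkj, map_mul, pow_add]
        have e : s (kk g) * s (α^[jj g] (kk h)) * (t ^ jj g * t ^ jj h) =
          s (kk g) * (s (α^[jj g] (kk h)) * t ^ jj g) * t ^ jj h := by group
        rw [e, ← t_pow s t α hs]
        have e2 : s (kk g) * (t ^ jj g * s (kk h)) * t ^ jj h =
          (s (kk g) * t ^ jj g) * (s (kk h) * t ^ jj h) := by group
        rw [e2, ← hkj, ← hkj])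
    rw [h1, map_mul, pow_add]
    have e : ρ (kk g) * ρ (α^[jj g] (kk h)) * (S ^ jj g * S ^ jj h) =
      ρ (kk g) * (ρ (α^[jj g] (kk h)) * S ^ jj g) * S ^ jj h := by
      simp only [mul_assoc]
    rw [e, ← S_pow α ρ S hS]
    simp only [mul_assoc]
  · intro k
    have h := wd s t ρ S hyp (k := kk (s k)) (k' := k) (j := jj (s k)) (j' := 0) (by
      rw [← hkj, pow_zero, mul_one])
    show ρ (kk (s k)) * S ^ jj (s k) = ρ k
    rw [h, pow_zero, mul_one]

include hs hgen hS in
/-- correction by a root -/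
theorem extend' [Finite E] (hker : ∀ k, s k = 1 → ρ k = 1) (hSu : IsUnit S)
    (hroot : ∀ (e : ℕ), 0 < e → ∀ C : Module.End ℂ V, (∀ k, C * ρ k = ρ k * C) →
      C * S = S * C → IsUnit C → ∃ D : Module.End ℂ V, (∀ k, D * ρ k = ρ k * D) ∧
        D * S = S * D ∧ D ^ e * C = 1) :
    ∃ R : Representation ℂ E V, ∀ k, R (s k) = ρ k := by
  have hker' : ∀ k k', s k = s k' → ρ k = ρ k' := by
    intro k k' h
    have h1 := hker (k * k'⁻¹) (by rw [map_mul, map_inv, h, mul_inv_cancel])
    have h2 : ρ (k * k'⁻¹) * ρ k' = ρ k' := by rw [h1, one_mul]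
    rw [← map_mul, inv_mul_cancel_right] at h2
    exact h2
  have hex : ∃ e : ℕ, 0 < e ∧ ∃ k, t ^ e = s k :=
    ⟨orderOf t, orderOf_pos t, 1, by rw [map_one, pow_orderOf_eq_one]⟩
  set e := Nat.find hex with he
  obtain ⟨he0, ke, hke⟩ := Nat.find_spec hex
  have hmin : ∀ r < e, 0 < r → ∀ k, t ^ r ≠ s k := by
    intro r hr hr0 k hk
    exact Nat.find_min hex hr ⟨hr0, k, hk⟩
  rw [← he] at he0 hke
  have hkei : ρ ke⁻¹ * ρ ke = 1 := by rw [← map_mul, inv_mul_cancel, map_one]
  have hkei' : ρ ke * ρ ke⁻¹ = 1 := by rw [← map_mul, mul_inv_cancel, map_one]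
  set C : Module.End ℂ V := ρ ke⁻¹ * S ^ e with hC
  have hC1 : ∀ k, C * ρ k = ρ k * C := by
    intro k
    have h1 : ρ (α^[e] k) = ρ (ke * k * ke⁻¹) := by
      apply hker'
      have h2 := t_pow s t α hs e k
      rw [hke] at h2
      rw [map_mul, map_mul, map_inv, h2, mul_inv_cancel_right]
    have h2 : C * ρ k = ρ (ke⁻¹ * (ke * k * ke⁻¹)) * S ^ e := by
      rw [hC, mul_assoc, S_pow α ρ S hS, h1, ← mul_assoc, ← map_mul]
    have h3 : ρ k * C = ρ (k * ke⁻¹) * S ^ e := by
      rw [hC, ← mul_assoc, ← map_mul]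
    rw [h2, h3]
    congr 2
    group
  have hC2 : C * S = S * C := by
    have h1 : ρ (α ke⁻¹) = ρ ke⁻¹ := by
      apply hker'
      rw [hs, map_inv, ← hke]
      group
    rw [hC, ← mul_assoc, hS, h1, mul_assoc, mul_assoc, ← pow_succ, ← pow_succ']
  have hC3 : IsUnit C := by
    refine IsUnit.mul ?_ (hSu.pow e)
    exact ⟨⟨ρ ke⁻¹, ρ ke, hkei, hkei'⟩, rfl⟩
  obtain ⟨D, hD1, hD2, hD3⟩ := hroot e he0 C hC1 hC2 hC3
  have hSD : Commute S D := hD2.symm
  have hpe : (S * D) ^ e = ρ ke := by
    rw [hSD.mul_pow]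
    have h1 : S ^ e = ρ ke * C := by
      rw [hC, ← mul_assoc, hkei', one_mul]
    have h2 : C * D ^ e = D ^ e * C := by
      have h3 : Commute D C := by
        rw [hC]
        exact Commute.mul_right (hD1 _) (hSD.symm.pow_right e)
      exact (h3.pow_left e).symm
    rw [h1, mul_assoc, h2, hD3, mul_one]
  refine extend s t α hs hgen ρ (S * D) ?_ ?_
  · intro k
    rw [mul_assoc, hD1, ← mul_assoc, hS, mul_assoc]
  · intro i k hik
    have h1 := Nat.div_add_mod i e
    set q := i / e with hq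
    set r := i % e with hr
    have hr1 : r < e := Nat.mod_lt _ he0
    have h2 : t ^ r = s ((ke ^ q)⁻¹ * k) := by
      rw [map_mul, map_inv, map_pow, ← hke, ← hik, ← h1, pow_add, pow_mul, inv_mul_cancel_left]
    have hr0 : r = 0 := by
      by_contra hcon
      exact hmin r hr1 (Nat.pos_of_ne_zero hcon) _ h2
    rw [hr0, add_zero] at h1
    have h3 : ρ k = ρ (ke ^ q) := by
      apply hker'
      rw [← hik, ← h1, map_pow, ← hke, pow_mul]
    rw [h3, ← h1, pow_mul, hpe, map_pow]

end gen

section blocks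

variable {K X : Type} [Group K] [Fintype X] (U : X → Type) [∀ x, AddCommGroup (U x)]
  [∀ x, Module ℂ (U x)] [∀ x, FiniteDimensional ℂ (U x)]
  (ρ : ∀ x, Representation ℂ K (U x))

/-- the direct sum -/
def piRep : Representation ℂ K (∀ x, U x) where
  toFun k := LinearMap.pi fun x => ρ x k ∘ₗ LinearMap.proj x
  map_one' := by
    refine LinearMap.ext fun v => funext fun x => ?_
    show ρ x 1 (v x) = v x
    rw [map_one]
    rfl
  map_mul' k k' := by
    refine LinearMap.ext fun v => funext fun x => ?_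
    show ρ x (k * k') (v x) = ρ x k (ρ x k' (v x))
    rw [map_mul]
    rfl

theorem piRep_apply (k : K) (v : ∀ x, U x) (x : X) : piRep U ρ k v x = ρ x k (v x) := rfl

theorem trace_pi (f : ∀ x, U x →ₗ[ℂ] U x) :
    LinearMap.trace ℂ (∀ x, U x) (LinearMap.pi fun x => f x ∘ₗ LinearMap.proj x) =
      ∑ x, LinearMap.trace ℂ (U x) (f x) := by
  have e : (LinearMap.pi fun x => f x ∘ₗ LinearMap.proj x : (∀ x, U x) →ₗ[ℂ] ∀ x, U x) =
      ∑ x, (LinearMap.single ℂ U x) ∘ₗ (f x ∘ₗ LinearMap.proj x) := by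
    refine LinearMap.ext fun v => funext fun y => ?_
    rw [LinearMap.sum_apply, Finset.sum_apply, Finset.sum_eq_single y]
    · simp
    · intro x _ hx
      simp [Pi.single_eq_of_ne hx.symm]
    · intro h
      exact absurd (Finset.mem_univ y) h
  rw [e, map_sum]
  refine Finset.sum_congr rfl fun x _ => ?_
  rw [LinearMap.trace_comp_comm']
  congr 1
  refine LinearMap.ext fun u => ?_
  simp

theorem char_pi (k : K) : (piRep U ρ).character k = ∑ x, (ρ x).character k := trace_pi U _

variable [∀ x, (ρ x).IsIrreducible] (hni : ∀ x y, x ≠ y → IsEmpty ((ρ x).Equiv (ρ y)))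

include hni in
/-- Schur -/
theorem blocks (C : Module.End ℂ (∀ x, U x)) (hC : ∀ k, C * piRep U ρ k = piRep U ρ k * C) :
    ∃ c : X → ℂ, ∀ v x, C v x = c x • v x := by
  have hC' : ∀ k v, C (piRep U ρ k v) = piRep U ρ k (C v) := fun k v =>
    LinearMap.congr_fun (hC k) v
  let f : ∀ x y, IntertwiningMap (ρ y) (ρ x) := fun x y =>
    { toLinearMap := LinearMap.proj x ∘ₗ C ∘ₗ LinearMap.single ℂ U y
      isIntertwining' := by
        intro k
        refine LinearMap.ext fun u => ?_
        show C (Pi.single y (ρ y k u)) x = ρ x k (C (Pi.single y u) x)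
        have h1 : (Pi.single y (ρ y k u) : ∀ x, U x) = piRep U ρ k (Pi.single y u) := by
          funext z
          rw [piRep_apply]
          by_cases hz : z = y
          · subst hz
            simp
          · simp [Pi.single_eq_of_ne hz]
        rw [h1, hC']
        rfl }
  have hf0 : ∀ x y, x ≠ y → ∀ u, C (Pi.single y u) x = 0 := by
    intro x y hxy u
    haveI := hni y x (Ne.symm hxy)
    have h1 : f x y = 0 := Subsingleton.elim _ _
    exact congrArg (fun g : IntertwiningMap (ρ y) (ρ x) => g u) h1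
  have hf1 : ∀ x, ∃ c : ℂ, ∀ u, C (Pi.single x u) x = c • u := by
    intro x
    obtain ⟨c, hc⟩ := (IsIrreducible.algebraMap_intertwiningMap_bijective_of_isAlgClosed
      (k := ℂ) (ρ := ρ x)).2 (f x x)
    refine ⟨c, fun u => ?_⟩
    have h1 := congrArg (fun g : IntertwiningMap (ρ x) (ρ x) => g u) hc
    exact h1.symm
  choose c hc using hf1
  refine ⟨c, fun v x => ?_⟩
  have h1 : v = ∑ y, Pi.single y (v y) := (Finset.univ_sum_single v).symm
  conv_lhs => rw [h1]
  rw [map_sum, Finset.sum_apply, Finset.sum_eq_single x]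
  · exact hc x _
  · intro y _ hy
    exact hf0 x y (Ne.symm hy) _
  · intro h
    exact absurd (Finset.mem_univ x) h

include hni in
/-- a multiplicity free representation of a normal subgroup with cyclic quotient -/
theorem extend_blocks {E : Type} [Group E] [Finite E] (s : K →* E) (t : E) (α : K →* K)
    (hs : ∀ k, s (α k) = t * s k * t⁻¹) (hgen : ∀ g : E, ∃ (k : K) (j : ℕ), g = s k * t ^ j)
    (hker : ∀ k, s k = 1 → ∀ x, ρ x k = 1) (σ : X → X) (hσ : Function.Surjective σ)
    (T : ∀ x, U (σ x) ≃ₗ[ℂ] U x) (hT : ∀ x k u, T x (ρ (σ x) k u) = ρ x (α k) (T x u)) :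
    ∃ R : Representation ℂ E (∀ x, U x), ∀ k, R (s k) = piRep U ρ k := by
  let S : Module.End ℂ (∀ x, U x) := LinearMap.pi fun x => (T x).toLinearMap ∘ₗ LinearMap.proj (σ x)
  have hSa : ∀ v x, S v x = T x (v (σ x)) := fun v x => rfl
  have hSu : IsUnit S := by
    rw [LinearMap.isUnit_iff_ker_eq_bot, LinearMap.ker_eq_bot']
    intro v hv
    funext y
    obtain ⟨x, rfl⟩ := hσ y
    have h1 : T x (v (σ x)) = 0 := congrFun hv x
    exact (T x).map_eq_zero_iff.1 h1
  refine extend' s t α hs hgen (piRep U ρ) S ?_ ?_ hSu ?_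
  · intro k
    refine LinearMap.ext fun v => funext fun x => ?_
    exact hT x k _
  · intro k hk
    refine LinearMap.ext fun v => funext fun x => ?_
    show ρ x k (v x) = v x
    rw [hker k hk x]
    rfl
  · intro e he C hC1 hC2 hC3
    obtain ⟨c, hc⟩ := blocks U ρ hni C hC1
    have hCinj : Function.Injective C := ((Module.End.isUnit_iff C).1 hC3).1
    have hnt : ∀ x, Nontrivial (U x) := by
      intro x
      by_contra hcon
      rw [not_nontrivial_iff_subsingleton] at hcon
      have h1 : (⊥ : Subrepresentation (ρ x)) ≠ ⊤ := bot_ne_top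
      apply h1
      apply Subrepresentation.toSubmodule_injective
      exact Subsingleton.elim _ _
    have hc0 : ∀ x, c x ≠ 0 := by
      intro x h0
      obtain ⟨u, hu⟩ := exists_ne (0 : U x)
      have h1 : C (Pi.single x u) = 0 := by
        funext y
        rw [hc]
        by_cases hy : y = x
        · subst hy
          rw [h0, zero_smul]
          rfl
        · rw [Pi.single_eq_of_ne hy, smul_zero]
          rfl
      have h2 : (Pi.single x u : ∀ x, U x) = 0 := hCinj (h1.trans (map_zero C).symm)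
      have h3 := congrFun h2 x
      rw [Pi.single_eq_same] at h3
      exact hu h3
    have hcσ : ∀ x, c (σ x) = c x := by
      intro x
      obtain ⟨u, hu⟩ := exists_ne (0 : U (σ x))
      have h1 := congrFun (LinearMap.congr_fun hC2 (Pi.single (σ x) u)) x
      change C (S (Pi.single (σ x) u)) x = S (C (Pi.single (σ x) u)) x at h1
      rw [hc, hSa, hSa, hc, Pi.single_eq_same, map_smul] at h1
      have h2 : T x u ≠ 0 := fun h => hu ((T x).map_eq_zero_iff.1 h)
      exact (smul_left_injective ℂ h2 h1).symm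
    have hr : ∀ z : ℂ, ∃ w : ℂ, z ≠ 0 → w ^ e * z = 1 := by
      intro z
      by_cases hz : z = 0
      · exact ⟨0, fun h => absurd hz h⟩
      · obtain ⟨w, hw⟩ := IsAlgClosed.exists_pow_nat_eq (z⁻¹) he
        exact ⟨w, fun _ => by rw [hw, inv_mul_cancel₀ hz]⟩
    choose r hr using hr
    let D : Module.End ℂ (∀ x, U x) := LinearMap.pi fun x => r (c x) • LinearMap.proj x
    have hDa : ∀ v x, D v x = r (c x) • v x := fun v x => rfl
    refine ⟨D, fun k => ?_, ?_, ?_⟩
    · refine LinearMap.ext fun v => funext fun x => ?_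
      show r (c x) • ρ x k (v x) = ρ x k (r (c x) • v x)
      rw [map_smul]
    · refine LinearMap.ext fun v => funext fun x => ?_
      show r (c x) • T x (v (σ x)) = T x (r (c (σ x)) • v (σ x))
      rw [map_smul, hcσ]
    · refine LinearMap.ext fun v => funext fun x => ?_
      have h1 : ∀ (m : ℕ) (v : ∀ x, U x), (D ^ m) v x = r (c x) ^ m • v x := by
        intro m
        induction m with
        | zero => intro v; simp
        | succ m ih =>
          intro v
          rw [pow_succ]
          show (D ^ m) (D v) x = _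
          rw [ih, hDa, smul_smul, ← pow_succ]
      show (D ^ e) (C v) x = v x
      rw [h1, hc, smul_smul, hr _ (hc0 x), one_smul]

end blocks

end Pool.Agent.ZH17.RD.ExtP
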