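import Pool.Agent.ZH17.RD.Stm2
import Pool.Agent.ZH17.RD.ExtA

/-!
# Piece GLU of project RD: gluing extensions over orbits
-/

set_option autoImplicit false
set_option linter.unusedSectionVars false
set_option linter.style.haveILetI false

open scoped BigOperators Classical

noncomputable section

namespace Pool.Agent.ZH17.RD

open Pool.Agent.Helper884 Pool.Agent.K3h3.KB Pool.Agent.K3h3.MK Pool.Agent.K3h83.IN
open Pool.Agent.H254R3.IN (IsIrr mem_Irr)
open IC (Irr)
open Representation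

/-- finite sums of characters are characters -/
theorem rc_sum {G ι : Type} [Group G] [Fintype ι] (f : ι → G → ℂ) (h : ∀ i, RC (f i)) :
    RC fun g => ∑ i, f i g := by
  choose U i1 i2 i3 ρ hρ using h
  refine ⟨∀ i, U i, inferInstance, inferInstance, inferInstance, ExtP.piRep U ρ, ?_⟩
  funext g
  rw [ExtP.char_pi]
  exact Finset.sum_congr rfl fun i _ => congrFun (hρ i) g

namespace GluP

section

variable {Γ Z : Type} [Group Γ] [MulAction Γ Z] [Fintype Z] (T : Subgroup Γ) (z₀ : Z)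
  (hT : ∀ x, x ∈ T ↔ x • z₀ = z₀) (g : Z → Γ) (hg : ∀ z, g z • z₀ = z)
  {U : Type} [AddCommGroup U] [Module ℂ U] (ρ : Representation ℂ T U)

/-- extension by zero -/
def r (x : Γ) : Module.End ℂ U := if h : x ∈ T then ρ ⟨x, h⟩ else 0

theorem r_mem {x : Γ} (h : x ∈ T) : r T ρ x = ρ ⟨x, h⟩ := dif_pos h

theorem r_one : r T ρ 1 = 1 := by
  rw [r_mem T ρ (one_mem T)]
  exact map_one ρ

theorem r_mul {x y : Γ} (hx : x ∈ T) (hy : y ∈ T) : r T ρ (x * y) = r T ρ x * r T ρ y := by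
  rw [r_mem T ρ hx, r_mem T ρ hy, r_mem T ρ (mul_mem hx hy), ← map_mul]
  rfl

include hT hg in
theorem mem_T (x : Γ) (z : Z) : (g z)⁻¹ * x * g (x⁻¹ • z) ∈ T := by
  rw [hT, mul_smul, mul_smul, hg, smul_inv_smul, inv_smul_eq_iff, hg]

/-- the induced representation -/
def indR : Representation ℂ Γ (Z → U) where
  toFun x := LinearMap.pi fun z => r T ρ ((g z)⁻¹ * x * g (x⁻¹ • z)) ∘ₗ LinearMap.proj (x⁻¹ • z)
  map_one' := by
    refine LinearMap.ext fun f => funext fun z => ?_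
    show r T ρ ((g z)⁻¹ * 1 * g ((1 : Γ)⁻¹ • z)) (f ((1 : Γ)⁻¹ • z)) = f z
    rw [inv_one, one_smul, mul_one, inv_mul_cancel, r_one]
    rfl
  map_mul' x y := by
    refine LinearMap.ext fun f => funext fun z => ?_
    show r T ρ ((g z)⁻¹ * (x * y) * g ((x * y)⁻¹ • z)) (f ((x * y)⁻¹ • z)) =
      r T ρ ((g z)⁻¹ * x * g (x⁻¹ • z)) (r T ρ ((g (x⁻¹ • z))⁻¹ * y * g (y⁻¹ • x⁻¹ • z))
        (f (y⁻¹ • x⁻¹ • z)))
    rw [← Module.End.mul_apply, ← r_mul T ρ (mem_T T z₀ hT g hg x z)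
      (mem_T T z₀ hT g hg y (x⁻¹ • z)), mul_inv_rev, mul_smul]
    congr 2
    group

theorem indR_char [FiniteDimensional ℂ U] (x : Γ) (hx : ∀ z : Z, x • z = z) :
    (indR T z₀ hT g hg ρ).character x =
      ∑ z, LinearMap.trace ℂ U (r T ρ ((g z)⁻¹ * x * g z)) := by
  have hx' : ∀ z : Z, x⁻¹ • z = z := fun z => by rw [inv_smul_eq_iff, hx]
  have h1 : indR T z₀ hT g hg ρ x =
      LinearMap.pi fun z => r T ρ ((g z)⁻¹ * x * g z) ∘ₗ LinearMap.proj z := by
    refine LinearMap.ext fun f => funext fun z => ?_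
    show r T ρ ((g z)⁻¹ * x * g (x⁻¹ • z)) (f (x⁻¹ • z)) = r T ρ ((g z)⁻¹ * x * g z) (f z)
    rw [hx']
  show LinearMap.trace ℂ _ (indR T z₀ hT g hg ρ x) = _
  rw [h1]
  exact ExtP.trace_pi (fun _ => U) _

end

end GluP

open GluP in
theorem glu : GLU := by
  intro K Γ Y _ _ _ _ _ j hj hn κ hκ hκi hst hex
  have hnk : ∀ (x : Γ) (k' : K), ∃ k, x * j k * x⁻¹ = j k' := by
    intro x k'
    obtain ⟨k, hk⟩ := hn.conj_mem (j k') ⟨k', rfl⟩ x⁻¹
    refine ⟨k, ?_⟩
    rw [hk]
    group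
  choose a ha using hst
  have huniq : ∀ (x : Γ) (y y' : Y), (∀ k k', x * j k * x⁻¹ = j k' → κ y' k' = κ y k) →
      a x y = y' := by
    intro x y y' h
    apply hκi
    funext k'
    obtain ⟨k, hk⟩ := hnk x k'
    rw [ha x y k k' hk, h k k' hk]
  letI : MulAction Γ Y :=
    { smul := a
      one_smul := fun y => huniq 1 y y fun k k' h => by
        rw [one_mul, inv_one, mul_one] at h
        rw [hj h]
      mul_smul := fun x x' y => huniq (x * x') y _ fun k k' h => by
        obtain ⟨k₁, hk₁⟩ := hn.conj_mem (j k) ⟨k, rfl⟩ x'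
        have h1 : x * j k₁ * x⁻¹ = j k' := by
          rw [hk₁, ← h]
          group
        show κ (a x (a x' y)) k' = κ y k
        rw [ha x (a x' y) k₁ k' h1, ha x' y k k₁ hk₁.symm] }
  have hsm : ∀ (x : Γ) (y : Y) (k k' : K), x * j k * x⁻¹ = j k' → κ (x • y) k' = κ y k := ha
  have hfix : ∀ (x : Γ) (y : Y), fixes j (κ y) x ↔ x • y = y := by
    intro x y
    constructor
    · intro h
      exact huniq x y y h
    · intro h k k' hk
      have h1 := hsm x y k k' hk
      rwa [h] at h1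
  have hKt : ∀ (k : K) (y : Y), j k • y = y := by
    intro k y
    rw [← hfix]
    intro l l' hl
    have h1 : l' = k * l * k⁻¹ := by
      apply hj
      rw [← hl, map_mul, map_mul, map_inv]
    rw [h1]
    exact rc_class (rc_irr (hκ y)) l k
  -- one orbit
  have horb : ∀ y₀ : Y, ∃ ω : Γ → ℂ, RC ω ∧ ∀ k, ω (j k) = ∑ z : MulAction.orbit Γ y₀, κ z k := by
    intro y₀
    obtain ⟨T, jT, ξ, hT, hjT, ⟨U, i1, i2, i3, ρ, hρ⟩, hξ⟩ := hex y₀
    have hg : ∀ z : MulAction.orbit Γ y₀, ∃ g : Γ,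
        g • (⟨y₀, MulAction.mem_orbit_self y₀⟩ : MulAction.orbit Γ y₀) = z := by
      rintro ⟨z, g, hg⟩
      exact ⟨g, Subtype.ext hg⟩
    choose g hg using hg
    have hT' : ∀ x, x ∈ T ↔
        x • (⟨y₀, MulAction.mem_orbit_self y₀⟩ : MulAction.orbit Γ y₀) =
          ⟨y₀, MulAction.mem_orbit_self y₀⟩ := by
      intro x
      rw [hT, hfix]
      constructor
      · intro h
        exact Subtype.ext h
      · intro h
        exact congrArg Subtype.val h
    refine ⟨(indR T _ hT' g hg ρ).character, ⟨_, inferInstance, inferInstance, inferInstance, _, rfl⟩,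
      fun k => ?_⟩
    rw [indR_char]
    · refine Finset.sum_congr rfl fun z _ => ?_
      obtain ⟨k', hk'⟩ := hn.conj_mem (j k) ⟨k, rfl⟩ (g z)⁻¹
      rw [inv_inv] at hk'
      have h1 : (g z)⁻¹ * j k * g z ∈ T := by
        rw [← hk', ← hjT]
        exact (jT k').2
      rw [r_mem T ρ h1]
      have h2 : (⟨(g z)⁻¹ * j k * g z, h1⟩ : T) = jT k' := by
        apply Subtype.ext
        rw [hjT, hk']
      rw [h2]
      have h3 : LinearMap.trace ℂ U (ρ (jT k')) = ξ (jT k') := by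
        rw [hρ]
        rfl
      rw [h3, hξ]
      have h4 : g z * j k' * (g z)⁻¹ = j k := by
        rw [hk']
        group
      have h5 := hsm (g z) y₀ k' k h4
      have h6 : g z • y₀ = (z : Y) := congrArg Subtype.val (hg z)
      rw [h6] at h5
      exact h5.symm
    · intro z
      exact Subtype.ext (hKt k z)
  choose ω hω hωk using horb
  haveI : Fintype (MulAction.orbitRel.Quotient Γ Y) := Fintype.ofFinite _
  refine ⟨fun x => ∑ o : MulAction.orbitRel.Quotient Γ Y, ω o.out x, rc_sum _ fun o => hω _,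
    fun k => ?_⟩
  simp only [hωk]
  rw [← Fintype.sum_sigma']
  refine (Fintype.sum_equiv (MulAction.selfEquivSigmaOrbits Γ Y).symm _ _ ?_)
  rintro ⟨o, z⟩
  rfl

end Pool.Agent.ZH17.RD
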