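import Pool.Agent.ZH17.RD.Stm6
import Pool.Agent.ZH17.RD.Ext
import Pool.Agent.ZH17.RD.Glu

/-!
# Piece LKB of project RD: the link from the equivariant bijection and the matched extensions
-/

set_option autoImplicit false
set_option linter.unusedSectionVars false
set_option linter.style.haveILetI false

open scoped BigOperators Classical

noncomputable section

namespace Pool.Agent.ZH17.RD

open Pool.Agent.Helper884 Pool.Agent.K3h3.KB Pool.Agent.K3h3.MK Pool.Agent.K3h83.IN
open Pool.Agent.K3h33.CY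
open Pool.Agent.H254R3.IN (IsIrr mem_Irr)
open Pool.Agent.Q99.AS (ten ten_irr)
open IC (Irr)
open Representation SemidirectProduct

namespace LkbP

theorem sing_mul {G : Type} [Group G] {p : ℕ} (hp : p.Prime) {g y : G} (hc : Commute g y)
    (hg : p ∣ orderOf g) (hy : ¬ p ∣ orderOf y) : p ∣ orderOf (g * y) := by
  have h2 : g ^ (orderOf (g * y) * orderOf y) = 1 := by
    have h3 := hc.mul_pow (orderOf (g * y) * orderOf y)
    have h4 : (g * y) ^ (orderOf (g * y) * orderOf y) = 1 := by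
      rw [pow_mul, pow_orderOf_eq_one, one_pow]
    have h5 : y ^ (orderOf (g * y) * orderOf y) = 1 := by
      rw [mul_comm, pow_mul, pow_orderOf_eq_one, one_pow]
    rw [h4, h5, mul_one] at h3
    exact h3.symm
  exact (hp.dvd_mul.1 (hg.trans (orderOf_dvd_of_pow_eq_one h2))).resolve_right hy

theorem ord_x {N U : Type} [Group N] [Finite N] [Group U] [Finite U] (φ : U →* MulAut N) {p : ℕ}
    (hp : p.Prime) (hU : ¬ p ∣ Nat.card U) (hZ : ¬ p ∣ Nat.card (Subgroup.center N)) (x : N ⋊[φ] U)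
    (hx : ∀ n : N, Commute x (inl n)) : ¬ p ∣ orderOf x := by
  have h1 : (x ^ Nat.card U).right = 1 := by
    have h : (x ^ Nat.card U).right = x.right ^ Nat.card U := map_pow (rightHom (φ := φ)) x _
    rw [h, pow_card_eq_one']
  obtain ⟨n₁, hn₁⟩ : ∃ n₁ : N, x ^ Nat.card U = inl n₁ :=
    ⟨(x ^ Nat.card U).left, by
      ext1
      · rfl
      · exact h1⟩
  have h2 : n₁ ∈ Subgroup.center N := by
    rw [Subgroup.mem_center_iff]
    intro g
    have h3 : Commute (x ^ Nat.card U) (inl g) := (hx g).pow_left _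
    rw [hn₁] at h3
    have h4 : (inl (n₁ * g) : N ⋊[φ] U) = inl (g * n₁) := by
      rw [map_mul, map_mul]
      exact h3.eq
    exact (inl_injective h4).symm
  have h5 : n₁ ^ Nat.card (Subgroup.center N) = 1 := by
    have h := pow_card_eq_one' (x := (⟨n₁, h2⟩ : Subgroup.center N))
    exact congrArg Subtype.val h
  have h6 : x ^ (Nat.card U * Nat.card (Subgroup.center N)) = 1 := by
    rw [pow_mul, hn₁, ← map_pow, h5, map_one]
  intro h
  rcases hp.dvd_mul.1 (h.trans (orderOf_dvd_of_pow_eq_one h6)) with h7 | h7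
  · exact hU h7
  · exact hZ h7

theorem kU_inj {p : ℕ} {B N A U : Type} [Group B] [Group N] [Group A] [Group U] (D : Dat p B N A)
    (π : U →* A) : Function.Injective (kU D π) := by
  intro x y h
  ext1
  · have h2 := congrArg SemidirectProduct.left h
    exact D.ec.inj h2
  · have h2 := congrArg SemidirectProduct.right h
    exact h2

/-- the scalars agree -/
theorem scal_eq {p : ℕ} [Fact p.Prime] {B N A U : Type} [Group B] [Finite B] [Group N] [Finite N]
    [Group A] [Group U] [Finite U] (D : Dat p B N A) (π : U →* A) (hU : ¬ p ∣ Nat.card U)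
    (hZ : ¬ p ∣ Nat.card (Subgroup.center N)) {V₁ V₂ : Type} [AddCommGroup V₁] [Module ℂ V₁]
    [FiniteDimensional ℂ V₁] [AddCommGroup V₂] [Module ℂ V₂] [FiniteDimensional ℂ V₂]
    (ρ₁ : Representation ℂ (NU D π) V₁) (ρ₂ : Representation ℂ (BU D π) V₂)
    (h1 : IsIrr fun n : N => ρ₁.character (inl n)) (h2 : IsIrr fun b : B => ρ₂.character (inl b))
    (hSE : SE p (kU D π) ρ₁.character ρ₂.character)
    (hs : ∃ b : B, p ∣ orderOf b ∧ ρ₁.character (inl (D.k b)) ≠ 0) (y : BU D π)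
    (hy : ∀ n : N, Commute (kU D π y) (inl n)) :
    ∃ c : ℂ, c ≠ 0 ∧ ρ₁ (kU D π y) = c • LinearMap.id ∧ ρ₂ y = c • LinearMap.id := by
  have hp : p.Prime := Fact.out
  haveI := Fintype.ofFinite N
  haveI := Fintype.ofFinite B
  obtain ⟨a, ha⟩ := Pool.Agent.K3h3.KT.schur' inl ρ₁ h1 (ρ₁ (kU D π y)) (fun n => by
    rw [← Module.End.mul_eq_comp, ← Module.End.mul_eq_comp, ← map_mul, ← map_mul, (hy n).eq])
  have hyB : ∀ b : B, Commute y (inl b) := by
    intro b
    apply kU_inj D π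
    rw [map_mul, map_mul, kU_inl]
    exact (hy _).eq
  obtain ⟨b, hb⟩ := Pool.Agent.K3h3.KT.schur' inl ρ₂ h2 (ρ₂ y) (fun n => by
    rw [← Module.End.mul_eq_comp, ← Module.End.mul_eq_comp, ← map_mul, ← map_mul, (hyB n).eq])
  have hord : ¬ p ∣ orderOf y := by
    rw [← orderOf_injective (kU D π) (kU_inj D π) y]
    exact ord_x _ hp hU hZ _ hy
  obtain ⟨g, hg, hne⟩ := hs
  have hg' : p ∣ orderOf (inl g : BU D π) := by
    rwa [orderOf_injective (inl : B →* BU D π) inl_injective]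
  have hgy : p ∣ orderOf ((inl g : BU D π) * y) := sing_mul hp (hyB g).symm hg' hord
  have e1 : ρ₁.character (kU D π (inl g * y)) = a * ρ₁.character (inl (D.k g)) := by
    unfold Representation.character
    rw [map_mul, kU_inl, map_mul, ha, mul_smul_comm, map_smul, smul_eq_mul]
    rfl
  have e2 : ρ₂.character (inl g * y) = b * ρ₂.character (inl g) := by
    unfold Representation.character
    rw [map_mul, hb, mul_smul_comm, map_smul, smul_eq_mul]
    rfl
  have hab : a = b := by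
    rcases hSE with h | h
    · have f1 := h _ hg'
      have f2 := h _ hgy
      rw [e1, e2, ← f1, kU_inl] at f2
      exact mul_right_cancel₀ hne f2
    · have f1 := h _ hg'
      have f2 := h _ hgy
      rw [e1, e2] at f2
      rw [kU_inl] at f1
      have f3 : ρ₂.character (inl g) = - ρ₁.character (inl (D.k g)) := by rw [f1, neg_neg]
      rw [f3, mul_neg, neg_neg] at f2
      exact mul_right_cancel₀ hne f2
  have ha0 : a ≠ 0 := by
    intro h0
    rw [h0, zero_smul] at ha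
    apply hne
    unfold Representation.character
    have h3 : ρ₁ (inl (D.k g)) = ρ₁ (inl (D.k g)) * (ρ₁ (kU D π y) * ρ₁ (kU D π y)⁻¹) := by
      rw [← map_mul, mul_inv_cancel, map_one, mul_one]
    rw [h3, ha, zero_mul, mul_zero, map_zero]
  exact ⟨a, ha0, ha, by rw [hab]; exact hb⟩

theorem desc_rep {E G V : Type} [Group E] [Group G] [AddCommGroup V] [Module ℂ V] (π : E →* G)
    (hπ : Function.Surjective π) (ρ : Representation ℂ E V) (h : ∀ e, π e = 1 → ρ e = 1) :
    ∃ R : Representation ℂ G V, ∀ e, R (π e) = ρ e := by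
  have h' : ∀ e e', π e = π e' → ρ e = ρ e' := by
    intro e e' he
    have h1 := h (e * e'⁻¹) (by rw [map_mul, map_inv, he, mul_inv_cancel])
    have h2 : ρ (e * e'⁻¹) * ρ e' = ρ e' := by rw [h1, one_mul]
    rw [← map_mul, inv_mul_cancel_right] at h2
    exact h2
  choose s hs using hπ
  refine ⟨⟨⟨fun g => ρ (s g), ?_⟩, ?_⟩, fun e => ?_⟩
  · show ρ (s 1) = 1
    rw [h' (s 1) 1 (by rw [hs, map_one]), map_one]
  · intro g g'
    show ρ (s (g * g')) = ρ (s g) * ρ (s g')
    rw [← map_mul]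
    exact h' _ _ (by rw [hs, map_mul, hs, hs])
  · exact h' _ _ (hs _)

section

variable {N : Type} [Group N] (R : Subgroup N)

theorem cmem (m : Subgroup.normalizer (R : Set N)) : MulAut.conj (m : N) ∈ Ast R := by
  refine ⟨fun x => ?_, fun z hz => ?_⟩
  · rw [MulAut.conj_apply]
    exact (Subgroup.mem_normalizer_iff.1 m.2 x).symm
  · rw [MulAut.conj_apply, Subgroup.mem_center_iff.1 hz (m : N), mul_inv_cancel_right]

/-- `N ⋊ Ast R` -/
abbrev Gm : Type := N ⋊[(Ast R).subtype] (Ast R)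

/-- `(n, m) ↦ (n m⁻¹, conj m)` -/
def sm : N × Subgroup.normalizer (R : Set N) →* Gm R where
  toFun x := ⟨x.1 * (x.2 : N)⁻¹, ⟨MulAut.conj (x.2 : N), cmem R x.2⟩⟩
  map_one' := by
    ext1
    · simp
    · exact Subtype.ext (by simp)
  map_mul' x y := by
    ext1
    · show x.1 * y.1 * ((x.2 * y.2 : Subgroup.normalizer (R : Set N)) : N)⁻¹ =
        x.1 * (x.2 : N)⁻¹ * ((x.2 : N) * (y.1 * (y.2 : N)⁻¹) * (x.2 : N)⁻¹)
      rw [Subgroup.coe_mul]
      group
    · refine Subtype.ext ?_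
      show MulAut.conj ((x.2 * y.2 : Subgroup.normalizer (R : Set N)) : N) =
        MulAut.conj (x.2 : N) * MulAut.conj (y.2 : N)
      rw [Subgroup.coe_mul, map_mul]

theorem sm_left (n : N) (m : Subgroup.normalizer (R : Set N)) : (sm R (n, m)).left = n * (m : N)⁻¹ := rfl

theorem sm_right (n : N) (m : Subgroup.normalizer (R : Set N)) :
    ((sm R (n, m)).right : MulAut N) = MulAut.conj (m : N) := rfl

end

theorem key {p : ℕ} [Fact p.Prime] {N : Type} [Group N] [Finite N] (R : Subgroup N)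
    (hZ : ¬ p ∣ Nat.card (Subgroup.center N))
    (D : Dat p (Subgroup.normalizer (R : Set N)) N (Ast R)) (hk : D.k = Subgroup.subtype _)
    (hα : D.α = (Ast R).subtype) {χ : N → ℂ} {θ : Subgroup.normalizer (R : Set N) → ℂ}
    (hχ : IsIrr χ) (hθ : IsIrr θ) (hs : ∃ b, p ∣ orderOf b ∧ χ (D.k b) ≠ 0)
    (W : Subgroup (Ast R)) (hW : ∀ a : Ast R, (∀ n, χ ((a : MulAut N) n) = χ n) →
      ∃ m : Subgroup.normalizer (R : Set N), ∃ w ∈ W, (a : MulAut N) = MulAut.conj (m : N) * w)
    (hW' : ∀ w ∈ W, ∀ n, χ ((w : MulAut N) n) = χ n) (hM : MM D W χ θ) :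
    ∃ (T : Subgroup (Gm R)) (ξ : T → ℂ), RC ξ ∧
      (∀ x, x ∈ T ↔ ∀ n, χ ((x.right : MulAut N) n) = χ n) ∧
      ∀ n m (h : sm R (n, m) ∈ T), ξ ⟨sm R (n, m), h⟩ = χ n * θ m⁻¹ := by
  obtain ⟨U, iU, iU', π, hU, hπ, χ', θ', hχ', hθ', e1, e2, hSE⟩ := hM
  obtain ⟨V₁, a1, a2, a3, ρ₁, hr1, rfl⟩ := hχ'
  obtain ⟨V₂, b1, b2, b3, ρ₂, hr2, rfl⟩ := hθ'
  have hβ : ∀ (u : U) (b : Subgroup.normalizer (R : Set N)),
      ((D.β (π u) b : Subgroup.normalizer (R : Set N)) : N) = (π u : MulAut N) b := by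
    intro u b
    have h := D.comp (π u) b
    rw [hk, hα] at h
    exact h
  have hk' : ∀ b, D.k b = (b : N) := fun b => by rw [hk]; rfl
  have hα' : ∀ (a : Ast R) (n : N), D.α a n = (a : MulAut N) n := fun a n => by rw [hα]; rfl
  let T : Subgroup (Gm R) :=
    { carrier := {x | ∀ n, χ ((x.right : MulAut N) n) = χ n}
      one_mem' := fun n => rfl
      mul_mem' := fun {x y} hx hy n => (hx _).trans (hy n)
      inv_mem' := fun {x} hx n => by
        have h := hx ((x.right : MulAut N)⁻¹ n)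
        rw [MulAut.apply_inv_self] at h
        exact h.symm }
  let F : Subgroup (NU D π × BU D π) :=
    { carrier := {f | f.1.right = f.2.right}
      one_mem' := rfl
      mul_mem' := fun {x y} hx hy => by
        show x.1.right * y.1.right = x.2.right * y.2.right
        rw [hx, hy]
      inv_mem' := fun {x} hx => by
        show x.1.right⁻¹ = x.2.right⁻¹
        rw [hx] }
  let q₀ : F →* Gm R :=
    { toFun := fun f => ⟨f.1.1.left * (f.1.2.left : N)⁻¹,
        ⟨MulAut.conj (f.1.2.left : N), cmem R _⟩ * π f.1.2.right⟩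
      map_one' := by
        ext1
        · simp
        · refine Subtype.ext ?_
          show MulAut.conj ((1 : Subgroup.normalizer (R : Set N)) : N) *
            ((π 1 : Ast R) : MulAut N) = 1
          rw [map_one, Subgroup.coe_one, Subgroup.coe_one, map_one, mul_one]
      map_mul' := fun f g => by
        have hf : f.1.1.right = f.1.2.right := f.2
        ext1
        · show f.1.1.left * (D.α (π f.1.1.right) g.1.1.left) *
            ((f.1.2.left * D.β (π f.1.2.right) g.1.2.left :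
              Subgroup.normalizer (R : Set N)) : N)⁻¹ =
            f.1.1.left * (f.1.2.left : N)⁻¹ *
              ((f.1.2.left : N) * ((π f.1.2.right : MulAut N) (g.1.1.left * (g.1.2.left : N)⁻¹)) *
                (f.1.2.left : N)⁻¹)
          rw [Subgroup.coe_mul, hβ, hf, hα', map_mul, map_inv]
          group
        · refine Subtype.ext ?_
          show MulAut.conj ((f.1.2.left * D.β (π f.1.2.right) g.1.2.left :
              Subgroup.normalizer (R : Set N)) : N) *
              ((π (f.1.2.right * g.1.2.right) : Ast R) : MulAut N) =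
            (MulAut.conj (f.1.2.left : N) * (π f.1.2.right : MulAut N)) *
              (MulAut.conj (g.1.2.left : N) * (π g.1.2.right : MulAut N))
          rw [Subgroup.coe_mul, hβ, map_mul, map_mul, Subgroup.coe_mul]
          ext x
          simp only [MulAut.mul_apply, MulAut.conj_apply, map_mul, map_inv] }
  have hq₀ : ∀ f, q₀ f ∈ T := by
    intro f n
    show χ ((f.1.2.left : N) * ((π f.1.2.right : MulAut N) n) * (f.1.2.left : N)⁻¹) = χ n
    rw [hχ.conj]
    exact hW' _ (by rw [← hπ]; exact ⟨_, rfl⟩) n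
  let q : F →* T := q₀.codRestrict T hq₀
  have hq : Function.Surjective q := by
    rintro ⟨x, hx⟩
    obtain ⟨m, w, hw, hxw⟩ := hW x.right hx
    rw [← hπ] at hw
    obtain ⟨u, rfl⟩ := hw
    refine ⟨⟨(⟨x.left * m, u⟩, ⟨m, u⟩), rfl⟩, ?_⟩
    refine Subtype.ext ?_
    ext1
    · show x.left * (m : N) * (m : N)⁻¹ = x.left
      rw [mul_inv_cancel_right]
    · exact Subtype.ext hxw.symm
  let p₁ : F →* NU D π := (MonoidHom.fst _ _).comp F.subtype
  let p₂ : F →* BU D π := (MonoidHom.snd _ _).comp F.subtype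
  let r₁ : Representation ℂ F V₁ := MonoidHom.comp ρ₁ p₁
  let r₂ : Representation ℂ F V₂ := MonoidHom.comp ρ₂ p₂
  have hχe : (fun n : N => ρ₁.character (inl n)) = χ := funext e1
  have hθe : (fun n => ρ₂.character (inl n)) = θ := funext e2
  have hker : ∀ f, q f = 1 → (r₁.tprod r₂.dual) f = 1 := by
    intro f hf
    have hf' : f.1.1.right = f.1.2.right := f.2
    have h0 : q₀ f = 1 := congrArg Subtype.val hf
    have h1 : f.1.1.left * (f.1.2.left : N)⁻¹ = 1 := congrArg SemidirectProduct.left h0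
    have h2 : MulAut.conj (f.1.2.left : N) * (π f.1.2.right : MulAut N) = 1 :=
      congrArg (fun x : Gm R => (x.right : MulAut N)) h0
    have h3 : f.1.1 = kU D π f.1.2 := by
      ext1
      · show f.1.1.left = D.k f.1.2.left
        rw [hk']
        exact mul_inv_eq_one.1 h1
      · exact hf'
    have h4 : ∀ n : N, Commute (kU D π f.1.2) (inl n) := by
      intro n
      show _ * _ = _ * _
      rw [← h3]
      ext1
      · show f.1.1.left * (D.α (π f.1.1.right) n) = n * ((D.α.comp π) 1 f.1.1.left)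
        have h5 := DFunLike.congr_fun h2 n
        rw [MulAut.mul_apply, MulAut.conj_apply, ← mul_inv_eq_one.1 h1, MulAut.one_apply,
          mul_inv_eq_iff_eq_mul] at h5
        rw [hf', hα', map_one, MulAut.one_apply]
        exact h5
      · show f.1.1.right * 1 = 1 * f.1.1.right
        rw [mul_one, one_mul]
    obtain ⟨c, hc0, hc1, hc2⟩ := scal_eq D π hU hZ ρ₁ ρ₂ (by rw [hχe]; exact hχ)
      (by rw [hθe]; exact hθ) hSE (by
        obtain ⟨b, hb, hb'⟩ := hs
        exact ⟨b, hb, by rw [e1]; exact hb'⟩) f.1.2 h4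
    have h6 : r₁ f = c • LinearMap.id := by
      show ρ₁ f.1.1 = _
      rw [h3, hc1]
    have h7 : r₂ f⁻¹ = c⁻¹ • LinearMap.id := by
      have h8 : r₂ f⁻¹ * r₂ f = 1 := by rw [← map_mul, inv_mul_cancel, map_one]
      have h9 : r₂ f = c • LinearMap.id := hc2
      rw [h9, mul_smul_comm] at h8
      have h10 : c • r₂ f⁻¹ = 1 := h8
      calc r₂ f⁻¹ = c⁻¹ • (c • r₂ f⁻¹) := by rw [smul_smul, inv_mul_cancel₀ hc0, one_smul]
        _ = _ := by rw [h10]; rfl
    rw [Representation.tprod_apply, Representation.dual_apply, h6, h7, map_smul,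
      TensorProduct.map_smul_left, TensorProduct.map_smul_right, smul_smul, mul_inv_cancel₀ hc0,
      one_smul]
    have h11 : (Module.Dual.transpose (R := ℂ) (LinearMap.id : V₂ →ₗ[ℂ] V₂)) = LinearMap.id := rfl
    rw [h11, TensorProduct.map_id]
    rfl
  obtain ⟨R', hR'⟩ := desc_rep q hq (r₁.tprod r₂.dual) hker
  refine ⟨T, R'.character, ⟨_, _, _, inferInstance, R', rfl⟩, fun x => Iff.rfl, fun n m h => ?_⟩
  let f : F := ⟨(inl n, inl m), rfl⟩
  have h1 : (⟨sm R (n, m), h⟩ : T) = q f := by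
    refine Subtype.ext ?_
    ext1
    · rfl
    · refine Subtype.ext ?_
      show MulAut.conj (m : N) = MulAut.conj (m : N) * ((π 1 : Ast R) : MulAut N)
      rw [map_one, Subgroup.coe_one, mul_one]
  rw [h1]
  show LinearMap.trace ℂ _ (R' (q f)) = _
  rw [hR']
  show (r₁.tprod r₂.dual).character f = _
  rw [char_tensor, Pi.mul_apply, char_dual]
  show ρ₁.character (inl n) * ρ₂.character (inl m)⁻¹ = _
  rw [← map_inv, e1, e2]

/-- the degrees -/
theorem deg_sq {p : ℕ} [Fact p.Prime] {B N : Type} [Group B] [Finite B] [Group N] [Finite N]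
    (k : B →* N) (Q : Subgroup B) (hQ : Nat.card Q = p) {χ : N → ℂ} {θ : B → ℂ} (hχ : IsIrr χ)
    (hθ : IsIrr θ) (hSE : SE p k χ θ) : (ndeg χ : ZMod p) ^ 2 = (ndeg θ : ZMod p) ^ 2 := by
  have hp : p.Prime := Fact.out
  haveI := Fintype.ofFinite Q
  haveI := Fintype.ofFinite B
  haveI := Fintype.ofFinite N
  obtain ⟨ε, hε, hεe⟩ : ∃ ε : ℤ, (ε = 1 ∨ ε = -1) ∧ ∀ g : B, p ∣ orderOf g → χ (k g) = ε * θ g := by
    rcases hSE with h | h
    · exact ⟨1, Or.inl rfl, fun g hg => by rw [h g hg]; push_cast; ring⟩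
    · exact ⟨-1, Or.inr rfl, fun g hg => by rw [h g hg]; push_cast; ring⟩
  obtain ⟨n₁, hn₁⟩ := sum_eq (k.comp Q.subtype) hχ
  obtain ⟨n₂, hn₂⟩ := sum_eq Q.subtype hθ
  have h1 : ∑ a : Q, χ ((k.comp Q.subtype) a) - (ε : ℂ) * ∑ a : Q, θ (Q.subtype a) =
      χ 1 - (ε : ℂ) * θ 1 := by
    rw [Finset.mul_sum, ← Finset.sum_sub_distrib, Finset.sum_eq_single 1]
    · rw [map_one, map_one]
    · intro a _ ha
      have h2 : p ∣ orderOf (a : B) := by
        rw [Subgroup.orderOf_coe]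
        have h3 : orderOf a ∣ p := hQ ▸ orderOf_dvd_natCard a
        rcases (Nat.dvd_prime hp).1 h3 with h4 | h4
        · exact absurd (orderOf_eq_one_iff.1 h4) ha
        · rw [h4]
      have h5 := hεe (a : B) h2
      show χ (k (a : B)) - (ε : ℂ) * θ (a : B) = 0
      rw [h5, sub_self]
    · intro h
      exact absurd (Finset.mem_univ _) h
  rw [hn₁, hn₂, hQ, ← ndeg_cast hχ, ← ndeg_cast hθ] at h1
  have h2 : ((p : ℤ) * n₁ - ε * (p * n₂)) = ndeg χ - ε * ndeg θ := by
    exact_mod_cast h1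
  have h3 : ((ndeg χ : ℤ) : ZMod p) = ((ε * ndeg θ : ℤ) : ZMod p) := by
    rw [ZMod.intCast_eq_intCast_iff_dvd_sub]
    exact ⟨ε * n₂ - n₁, by linear_combination h2⟩
  push_cast at h3
  rw [h3]
  rcases hε with h | h
  · rw [h]; push_cast; ring
  · rw [h]; push_cast; ring

theorem nonvan {p : ℕ} [Fact p.Prime] {B N : Type} [Group B] [Finite B] [Group N] [Finite N]
    (k : B →* N) (Q : Subgroup B) (hQ : Nat.card Q = p) {χ : N → ℂ} (hχ : IsIrr χ)
    (hd : (ndeg χ : ZMod p) ≠ 0) : ∃ b : B, p ∣ orderOf b ∧ χ (k b) ≠ 0 := by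
  have hp : p.Prime := Fact.out
  haveI := Fintype.ofFinite Q
  haveI := Fintype.ofFinite B
  haveI := Fintype.ofFinite N
  by_contra hcon
  push Not at hcon
  obtain ⟨n₁, hn₁⟩ := sum_eq (k.comp Q.subtype) hχ
  have h1 : ∑ a : Q, χ ((k.comp Q.subtype) a) = χ 1 := by
    rw [Finset.sum_eq_single 1]
    · rw [map_one]
    · intro a _ ha
      have h2 : p ∣ orderOf (a : B) := by
        rw [Subgroup.orderOf_coe]
        have h3 : orderOf a ∣ p := hQ ▸ orderOf_dvd_natCard a
        rcases (Nat.dvd_prime hp).1 h3 with h4 | h4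
        · exact absurd (orderOf_eq_one_iff.1 h4) ha
        · rw [h4]
      exact hcon (a : B) h2
    · intro h
      exact absurd (Finset.mem_univ _) h
  rw [h1, hQ, ← ndeg_cast hχ] at hn₁
  have h2 : ndeg χ = p * n₁ := by exact_mod_cast hn₁
  apply hd
  rw [h2]
  push_cast
  rw [CharP.cast_eq_zero, zero_mul]

end LkbP

open LkbP in
theorem lkb : LKB := by
  intro p _ N _ _ R hR hZ D hk hα V hV hgen β hβ hM
  have hp : p.Prime := Fact.out
  haveI := Fintype.ofFinite N
  haveI : Fintype (Subgroup.normalizer (R : Set N)) := Fintype.ofFinite _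
  have hk' : ∀ b, D.k b = (b : N) := fun b => by rw [hk]; rfl
  have hα' : ∀ (a : Ast R) (n : N), D.α a n = (a : MulAut N) n := fun a n => by rw [hα]; rfl
  have hβc : ∀ (a : Ast R) (b : Subgroup.normalizer (R : Set N)),
      ((D.β a b : Subgroup.normalizer (R : Set N)) : N) = (a : MulAut N) b := by
    intro u b
    have h := D.comp u b
    rw [hk', hk', hα'] at h
    exact h
  have hcQ : Nat.card D.Q = p := D.lc.cQ
  -- equivariance
  have heq : ∀ (a : Ast R) (χ χ₁ : Xs D), (∀ n, χ₁.1 n = χ.1 ((a : MulAut N) n)) →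
      ∀ b, (β χ₁).1 b = (β χ).1 (D.β a b) := by
    intro a χ χ₁ h b
    obtain ⟨m, v, hv, hav⟩ := hgen a
    have h1 : ∀ n, χ₁.1 n = χ.1 (D.α v n) := by
      intro n
      rw [h, hav, MulAut.mul_apply, MulAut.conj_apply, hα']
      exact χ.2.1.conj _ _
    rw [hβ v hv χ χ₁ h1 b]
    have h2 : D.β a b = m * D.β v b * m⁻¹ := by
      apply Subtype.ext
      rw [hβc, hav, Subgroup.coe_mul, Subgroup.coe_mul, hβc]
      rfl
    rw [h2]
    exact ((β χ).2.conj _ _).symm
  -- signs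
  have hSE : ∀ χ : Xs D, SE p D.k χ.1 (β χ).1 := by
    intro χ
    obtain ⟨W, hW, U, iU, iU', π, hU, hπ, χ', θ', hχ', hθ', e1, e2, h⟩ := hM χ
    have hinl : ∀ g : Subgroup.normalizer (R : Set N), p ∣ orderOf g →
        p ∣ orderOf (inl g : BU D π) := by
      intro g hg
      rwa [orderOf_injective (inl : _ →* BU D π) inl_injective]
    rcases h with h | h
    · left
      intro g hg
      have h1 := h _ (hinl g hg)
      rwa [kU_inl, e1, e2] at h1
    · right
      intro g hg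
      have h1 := h _ (hinl g hg)
      rwa [kU_inl, e1, e2] at h1
  -- the extensions
  have hkey : ∀ χ : Xs D, ∃ (T : Subgroup (Gm R)) (ξ : T → ℂ), RC ξ ∧
      (∀ x, x ∈ T ↔ ∀ n, χ.1 ((x.right : MulAut N) n) = χ.1 n) ∧
      ∀ n m (h : sm R (n, m) ∈ T), ξ ⟨sm R (n, m), h⟩ = χ.1 n * (β χ).1 m⁻¹ := by
    intro χ
    obtain ⟨W, hW, hMM⟩ := hM χ
    refine key R hZ D hk hα χ.2.1 (β χ).2 χ.2.2 W ?_ ?_ hMM
    · intro a ha
      obtain ⟨m, v, hv, hav⟩ := hgen a
      refine ⟨m, v, (hW v).2 ⟨hv, fun n => ?_⟩, hav⟩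
      have h1 := ha n
      rw [hav, MulAut.mul_apply, MulAut.conj_apply, χ.2.1.conj] at h1
      rw [hα']
      exact h1
    · intro w hw n
      have h1 := ((hW w).1 hw).2 n
      rwa [hα'] at h1
  choose T ξ hξ hT hξs using hkey
  have hsT : ∀ (χ : Xs D) (x : N × Subgroup.normalizer (R : Set N)), sm R x ∈ T χ := by
    intro χ x
    rw [hT]
    intro n
    show χ.1 ((x.2 : N) * n * (x.2 : N)⁻¹) = χ.1 n
    exact χ.2.1.conj _ _
  -- the bijection
  let x : X p N → Xs D := fun χ => ⟨χ.1, χ.2.1, nonvan D.k D.Q hcQ χ.2.1 χ.2.2⟩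
  have hsq : ∀ χ : Xs D, (ndeg χ.1 : ZMod p) ^ 2 = (ndeg (β χ).1 : ZMod p) ^ 2 := fun χ =>
    deg_sq D.k D.Q hcQ χ.2.1 (β χ).2 (hSE χ)
  have hne1 : ∀ χ : X p N, (ndeg (β (x χ)).1 : ZMod p) ≠ 0 := by
    intro χ h0
    have h1 := hsq (x χ)
    rw [h0, zero_pow two_ne_zero] at h1
    exact χ.2.2 (pow_eq_zero_iff two_ne_zero |>.1 h1)
  let y : X p (Subgroup.normalizer (R : Set N)) → Ys D := fun θ => ⟨θ.1, θ.2.1⟩
  have hne2 : ∀ θ : X p (Subgroup.normalizer (R : Set N)), (ndeg (β.symm (y θ)).1 : ZMod p) ≠ 0 := by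
    intro θ h0
    have h1 := hsq (β.symm (y θ))
    rw [h0, zero_pow two_ne_zero, Equiv.apply_symm_apply] at h1
    exact θ.2.2 (pow_eq_zero_iff two_ne_zero |>.1 h1.symm)
  let β' : X p N ≃ X p (Subgroup.normalizer (R : Set N)) :=
    { toFun := fun χ => ⟨(β (x χ)).1, (β (x χ)).2, hne1 χ⟩
      invFun := fun θ => ⟨(β.symm (y θ)).1, (β.symm (y θ)).2.1, hne2 θ⟩
      left_inv := fun χ => by
        apply Subtype.ext
        show (β.symm (β (x χ))).1 = χ.1
        rw [Equiv.symm_apply_apply]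
      right_inv := fun θ => by
        apply Subtype.ext
        show (β (β.symm (y θ))).1 = θ.1
        rw [Equiv.apply_symm_apply] }
  -- the subgroup
  have hconj : ∀ (g : Gm R) (n : N) (m : Subgroup.normalizer (R : Set N)),
      g * sm R (n, m) * g⁻¹ =
        sm R (g.left * ((g.right : MulAut N) n) * g.left⁻¹, D.β g.right m) := by
    intro g n m
    rw [mul_inv_eq_iff_eq_mul]
    ext1
    · show g.left * ((g.right : MulAut N) (n * (m : N)⁻¹)) =
        g.left * ((g.right : MulAut N) n) * g.left⁻¹ *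
          ((D.β g.right m : Subgroup.normalizer (R : Set N)) : N)⁻¹ *
          (((D.β g.right m : Subgroup.normalizer (R : Set N)) : N) * g.left *
            ((D.β g.right m : Subgroup.normalizer (R : Set N)) : N)⁻¹)
      rw [hβc, map_mul, map_inv]
      group
    · refine Subtype.ext ?_
      show (g.right : MulAut N) * MulAut.conj (m : N) =
        MulAut.conj ((D.β g.right m : Subgroup.normalizer (R : Set N)) : N) * (g.right : MulAut N)
      rw [hβc]
      ext z
      simp only [MulAut.mul_apply, MulAut.conj_apply, map_mul, map_inv]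
  let K : Subgroup (Gm R) := (sm R).range
  have hKn : K.subtype.range.Normal := by
    rw [Subgroup.range_subtype]
    refine ⟨?_⟩
    rintro _ ⟨⟨n, m⟩, rfl⟩ g
    rw [hconj]
    exact ⟨_, rfl⟩
  haveI : Finite (Gm R) := Finite.of_equiv _ SemidirectProduct.equivProd.symm
  haveI : Fintype K := Fintype.ofFinite _
  haveI : Fintype (X p N) := Fintype.ofFinite _
  have hKT : ∀ (χ : Xs D) (k : K), (k : Gm R) ∈ T χ := by
    rintro χ ⟨_, z, rfl⟩
    exact hsT χ z
  let κ : X p N → K → ℂ := fun χ k => ξ (x χ) ⟨k, hKT (x χ) k⟩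
  have hκ : ∀ (χ : X p N) (n : N) (m : Subgroup.normalizer (R : Set N)) (h : sm R (n, m) ∈ K),
      κ χ ⟨sm R (n, m), h⟩ = χ.1 n * (β' χ).1 m⁻¹ := fun χ n m h => hξs (x χ) n m _
  have hκirr : ∀ χ, IsIrr (κ χ) := by
    intro χ
    refine Pool.Agent.K3h18.IN.irr_of_infl (sm R).rangeRestrict (sm R).rangeRestrict_surjective ?_
    have h1 : IsIrr fun z : N × Subgroup.normalizer (R : Set N) => χ.1 z.1 * (β' χ).1 z.2⁻¹ :=
      ten_irr χ.2.1 (irr_inv (β' χ).2.1)
    have h2 : (fun z => κ χ ((sm R).rangeRestrict z)) =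
        fun z : N × Subgroup.normalizer (R : Set N) => χ.1 z.1 * (β' χ).1 z.2⁻¹ :=
      funext fun z => hκ χ z.1 z.2 _
    rw [h2]
    exact h1
  have hκinj : Function.Injective κ := by
    intro χ χ' h
    have h2 : ∀ n, χ.1 n * (β' χ).1 1 = χ'.1 n * (β' χ').1 1 := by
      intro n
      have h3 := congrFun h ⟨sm R (n, 1), ⟨_, rfl⟩⟩
      rw [hκ, hκ, inv_one] at h3
      exact h3
    by_contra hcon
    have h4 : IC.B χ.1 χ'.1 = 0 := by
      rw [IC.B_irr χ.2.1 χ'.2.1, if_neg fun h => hcon (Subtype.ext h)]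
    have h5 : IC.B χ.1 χ.1 = 1 := by
      rw [IC.B_irr χ.2.1 χ.2.1, if_pos rfl]
    have d1 := ExtP.deg_ne (β' χ).2.1
    have d2 := ExtP.deg_ne (β' χ').2.1
    have h6 : χ'.1 = ((β' χ).1 1 / (β' χ').1 1) • χ.1 := by
      funext n
      rw [Pi.smul_apply, smul_eq_mul, div_mul_eq_mul_div, eq_div_iff d2, ← h2 n, mul_comm]
    rw [h6, IC.B_comm, IC.B_smul_left, h5, mul_one] at h4
    exact (div_ne_zero d1 d2) h4
  -- the action on the characters
  have hact : ∀ (a : Ast R) (χ : X p N), ∃ χ' : X p N, ∀ n, χ'.1 n = χ.1 ((a : MulAut N) n) := by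
    intro a χ
    refine ⟨⟨fun n => χ.1 ((a : MulAut N) n), ?_, ?_⟩, fun n => rfl⟩
    · exact Pool.Agent.K3h18.IN.irr_infl ((a : MulAut N) : N ≃* N).toMonoidHom
        (a : MulAut N).surjective χ.2.1
    · have h1 : ndeg (fun n => χ.1 ((a : MulAut N) n)) = ndeg χ.1 := by
        unfold ndeg
        show ⌊(χ.1 ((a : MulAut N) 1)).re⌋₊ = _
        rw [map_one]
      rw [h1]
      exact χ.2.2
  have hst0 : ∀ (g : Gm R) (χ χ' : X p N), (∀ n, χ'.1 ((g.right : MulAut N) n) = χ.1 n) →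
      ∀ k k' : K, g * K.subtype k * g⁻¹ = K.subtype k' → κ χ' k' = κ χ k := by
    rintro g χ χ' h ⟨_, ⟨n, m⟩, rfl⟩ ⟨k', hk''⟩ hkk
    have h1 : k' = sm R (g.left * ((g.right : MulAut N) n) * g.left⁻¹, D.β g.right m) := by
      rw [← hconj]
      exact hkk.symm
    subst h1
    rw [hκ, hκ, χ'.2.1.conj, h]
    congr 1
    have h2 := heq g.right (x χ') (x χ) (fun n => (h n).symm) m⁻¹
    rw [map_inv] at h2
    exact h2.symm
  have hst : ∀ (g : Gm R) (χ : X p N), ∃ χ', ∀ k k' : K, g * K.subtype k * g⁻¹ = K.subtype k' →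
      κ χ' k' = κ χ k := by
    intro g χ
    obtain ⟨χ', hχ'⟩ := hact g.right⁻¹ χ
    refine ⟨χ', hst0 g χ χ' fun n => ?_⟩
    rw [hχ', Subgroup.coe_inv, MulAut.inv_apply_self]
  have hfix : ∀ (χ : X p N) (g : Gm R), g ∈ T (x χ) ↔ fixes K.subtype (κ χ) g := by
    intro χ g
    rw [hT]
    constructor
    · intro h k k' hkk
      exact hst0 g χ χ h k k' hkk
    · intro h
      obtain ⟨χ', hχ'⟩ := hact g.right⁻¹ χ
      have h1 : ∀ n, χ'.1 ((g.right : MulAut N) n) = χ.1 n := fun n => by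
        rw [hχ', Subgroup.coe_inv, MulAut.inv_apply_self]
      have h2 : χ' = χ := by
        apply hκinj
        funext k'
        obtain ⟨k, hk1⟩ := hKn.conj_mem (K.subtype k') ⟨k', rfl⟩ g⁻¹
        have h3 : g * K.subtype k * g⁻¹ = K.subtype k' := by
          rw [hk1]
          group
        rw [hst0 g χ χ' h1 k k' h3]
        exact (h k k' h3).symm
      intro n
      rw [← h1 n, h2]
  obtain ⟨ω, hω, hωk⟩ := glu K (Gm R) (X p N) K.subtype K.subtype_injective hKn κ hκirr hκinj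
    hst (fun χ => ⟨T (x χ), K.subtype.codRestrict (T (x χ)) (fun k => hKT (x χ) k), ξ (x χ),
      hfix χ, fun k => rfl, hξ (x χ), fun k => rfl⟩)
  have hcl : ∀ χ : X p N, cl p (ndeg χ.1) = cl p (ndeg (β' χ).1) := fun χ =>
    Pool.Agent.K3h51.OP.cl_sq p χ.2.2 (β' χ).2.2 (hsq (x χ))
  refine ⟨β', ω, hω, hcl, fun χ z hz => ?_, fun n m b hb => ?_⟩
  · have h1 : sm R ((z : N), z) = sm R (1, 1) := by
      ext1
      · show (z : N) * (z : N)⁻¹ = 1 * ((1 : Subgroup.normalizer (R : Set N)) : N)⁻¹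
        rw [mul_inv_cancel, Subgroup.coe_one, inv_one, mul_one]
      · refine Subtype.ext ?_
        show MulAut.conj (z : N) = MulAut.conj ((1 : Subgroup.normalizer (R : Set N)) : N)
        ext w
        rw [MulAut.conj_apply, ← Subgroup.mem_center_iff.1 hz w, mul_inv_cancel_right,
          Subgroup.coe_one, map_one, MulAut.one_apply]
    have h2 : χ.1 z * (β' χ).1 z⁻¹ = χ.1 1 * (β' χ).1 1 := by
      have h3 := hκ χ z z ⟨_, rfl⟩
      have h4 := hκ χ 1 1 ⟨_, rfl⟩
      have h5 : (⟨sm R ((z : N), z), ⟨_, rfl⟩⟩ : K) = ⟨sm R (1, 1), ⟨_, rfl⟩⟩ := Subtype.ext h1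
      rw [inv_one] at h4
      rw [← h3, ← h4, h5]
    have hzc : z ∈ Subgroup.center (Subgroup.normalizer (R : Set N)) := by
      rw [Subgroup.mem_center_iff]
      intro g
      exact Subtype.ext (Subgroup.mem_center_iff.1 hz (g : N))
    have h3 := ExtP.central_mul_inv (β' χ).2.1 z hzc
    have d2 := ExtP.deg_ne (β' χ).2.1
    apply mul_right_cancel₀ d2
    calc (β' χ).1 z * χ.1 1 * (β' χ).1 1 = (β' χ).1 z * (χ.1 1 * (β' χ).1 1) := by ring
      _ = (β' χ).1 z * (χ.1 z * (β' χ).1 z⁻¹) := by rw [h2]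
      _ = χ.1 z * ((β' χ).1 z * (β' χ).1 z⁻¹) := by ring
      _ = _ := by rw [h3]; ring
  · have h1 : (⟨n * (m : N)⁻¹, b⟩ : Gm R) = sm R (n, m) := by
      ext1
      · rfl
      · exact Subtype.ext hb
    rw [finsum_eq_sum_of_fintype]
    show ω (⟨n * (m : N)⁻¹, b⟩ : Gm R) = _
    rw [h1]
    have h2 := hωk ⟨sm R (n, m), ⟨_, rfl⟩⟩
    change ω (sm R (n, m)) = _ at h2
    rw [h2]
    exact Finset.sum_congr rfl fun χ _ => hκ χ n m _

end Pool.Agent.ZH17.RD
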