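import Pool.Agent.ZH17.RD.Stm7
import Pool.Agent.ZH17.RD.Lkb

/-!
# Piece LKC of project RD: the link from the equivariant bijection and the matched extensions, general case
-/

set_option autoImplicit false
set_option linter.unusedSectionVars false
set_option linter.style.haveILetI false

open scoped BigOperators Classical

noncomputable section

namespace Pool.Agent.ZH17.RD

open Pool.Agent.Helper884 Pool.Agent.K3h3.KB Pool.Agent.K3h3.MK Pool.Agent.K3h83.IN
open Pool.Agent.K3h33.CY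
open Pool.Agent.H254R3.IN (IsIrr mem_Irr)
open Pool.Agent.Q99.AS (ten ten_irr)
open IC (Irr)
open Representation SemidirectProduct

namespace LkcQ

open LkbP

theorem key₀ {p : ℕ} [Fact p.Prime] {N : Type} [Group N] [Finite N] (R : Subgroup N)
    (hZ : ¬ p ∣ Nat.card (Subgroup.center N))
    (D : Dat p (Subgroup.normalizer (R : Set N)) N (Ast R)) (hk : D.k = Subgroup.subtype _)
    (hα : D.α = (Ast R).subtype) {χ : N → ℂ} {θ : Subgroup.normalizer (R : Set N) → ℂ}
    (hχ : IsIrr χ) (hθ : IsIrr θ) (hs : ∃ b, p ∣ orderOf b ∧ χ (D.k b) ≠ 0)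
    {Z : Type} [Group Z] (φ : Ast R →* Z)
    (hφ : ∀ (m : Subgroup.normalizer (R : Set N)) (a : Ast R),
      (a : MulAut N) = MulAut.conj (m : N) → φ a = 1)
    (W : Subgroup (Ast R)) (hW : ∀ a : Ast R, φ a = 1 → (∀ n, χ ((a : MulAut N) n) = χ n) →
      ∃ m : Subgroup.normalizer (R : Set N), ∃ w ∈ W, (a : MulAut N) = MulAut.conj (m : N) * w)
    (hW' : ∀ w ∈ W, φ w = 1 ∧ ∀ n, χ ((w : MulAut N) n) = χ n) (hM : MM D W χ θ) :
    ∃ (T : Subgroup (Gm R)) (ξ : T → ℂ), RC ξ ∧
      (∀ x, x ∈ T ↔ φ x.right = 1 ∧ ∀ n, χ ((x.right : MulAut N) n) = χ n) ∧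
      ∀ n m (h : sm R (n, m) ∈ T), ξ ⟨sm R (n, m), h⟩ = χ n * θ m⁻¹ := by
  obtain ⟨U, iU, iU', π, hU, hπ, χ', θ', hχ', hθ', e1, e2, hSE⟩ := hM
  obtain ⟨V₁, a1, a2, a3, ρ₁, hr1, rfl⟩ := hχ'
  obtain ⟨V₂, b1, b2, b3, ρ₂, hr2, rfl⟩ := hθ'
  have hβ : ∀ (u : U) (b : Subgroup.normalizer (R : Set N)),
      ((D.β (π u) b : Subgroup.normalizer (R : Set N)) : N) = (π u : MulAut N) b := by
    intro u b
    have h := D.comp (π u) b
    rw [hk, hα] at h
    exact h
  have hk' : ∀ b, D.k b = (b : N) := fun b => by rw [hk]; rfl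
  have hα' : ∀ (a : Ast R) (n : N), D.α a n = (a : MulAut N) n := fun a n => by rw [hα]; rfl
  let T : Subgroup (Gm R) :=
    { carrier := {x | φ x.right = 1 ∧ ∀ n, χ ((x.right : MulAut N) n) = χ n}
      one_mem' := ⟨map_one φ, fun n => rfl⟩
      mul_mem' := fun {x y} hx hy => ⟨by
        show φ (x.right * y.right) = 1
        rw [map_mul, hx.1, hy.1, mul_one], fun n => (hx.2 _).trans (hy.2 n)⟩
      inv_mem' := fun {x} hx => ⟨by
        show φ (x.right⁻¹) = 1
        rw [map_inv, hx.1, inv_one], fun n => by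
        have h := hx.2 ((x.right : MulAut N)⁻¹ n)
        rw [MulAut.apply_inv_self] at h
        exact h.symm⟩ }
  let F : Subgroup (NU D π × BU D π) :=
    { carrier := {f | f.1.right = f.2.right}
      one_mem' := rfl
      mul_mem' := fun {x y} hx hy => by
        show x.1.right * y.1.right = x.2.right * y.2.right
        rw [hx, hy]
      inv_mem' := fun {x} hx => by
        show x.1.right⁻¹ = x.2.right⁻¹
        rw [hx] }
  let q₀ : F →* Gm R :=
    { toFun := fun f => ⟨f.1.1.left * (f.1.2.left : N)⁻¹,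
        ⟨MulAut.conj (f.1.2.left : N), cmem R _⟩ * π f.1.2.right⟩
      map_one' := by
        ext1
        · simp
        · refine Subtype.ext ?_
          show MulAut.conj ((1 : Subgroup.normalizer (R : Set N)) : N) *
            ((π 1 : Ast R) : MulAut N) = 1
          rw [map_one, Subgroup.coe_one, Subgroup.coe_one, map_one, mul_one]
      map_mul' := fun f g => by
        have hf : f.1.1.right = f.1.2.right := f.2
        ext1
        · show f.1.1.left * (D.α (π f.1.1.right) g.1.1.left) *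
            ((f.1.2.left * D.β (π f.1.2.right) g.1.2.left :
              Subgroup.normalizer (R : Set N)) : N)⁻¹ =
            f.1.1.left * (f.1.2.left : N)⁻¹ *
              ((f.1.2.left : N) * ((π f.1.2.right : MulAut N) (g.1.1.left * (g.1.2.left : N)⁻¹)) *
                (f.1.2.left : N)⁻¹)
          rw [Subgroup.coe_mul, hβ, hf, hα', map_mul, map_inv]
          group
        · refine Subtype.ext ?_
          show MulAut.conj ((f.1.2.left * D.β (π f.1.2.right) g.1.2.left :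
              Subgroup.normalizer (R : Set N)) : N) *
              ((π (f.1.2.right * g.1.2.right) : Ast R) : MulAut N) =
            (MulAut.conj (f.1.2.left : N) * (π f.1.2.right : MulAut N)) *
              (MulAut.conj (g.1.2.left : N) * (π g.1.2.right : MulAut N))
          rw [Subgroup.coe_mul, hβ, map_mul, map_mul, Subgroup.coe_mul]
          ext x
          simp only [MulAut.mul_apply, MulAut.conj_apply, map_mul, map_inv] }
  have hq₀ : ∀ f, q₀ f ∈ T := by
    intro f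
    have hw := hW' (π f.1.2.right) (by rw [← hπ]; exact ⟨_, rfl⟩)
    refine ⟨?_, fun n => ?_⟩
    · show φ (⟨MulAut.conj (f.1.2.left : N), cmem R _⟩ * π f.1.2.right) = 1
      rw [map_mul, hw.1, hφ f.1.2.left _ rfl, mul_one]
    · show χ ((f.1.2.left : N) * ((π f.1.2.right : MulAut N) n) * (f.1.2.left : N)⁻¹) = χ n
      rw [hχ.conj]
      exact hw.2 n
  let q : F →* T := q₀.codRestrict T hq₀
  have hq : Function.Surjective q := by
    rintro ⟨x, hx⟩
    obtain ⟨m, w, hw, hxw⟩ := hW x.right hx.1 hx.2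
    rw [← hπ] at hw
    obtain ⟨u, rfl⟩ := hw
    refine ⟨⟨(⟨x.left * m, u⟩, ⟨m, u⟩), rfl⟩, ?_⟩
    refine Subtype.ext ?_
    ext1
    · show x.left * (m : N) * (m : N)⁻¹ = x.left
      rw [mul_inv_cancel_right]
    · exact Subtype.ext hxw.symm
  let p₁ : F →* NU D π := (MonoidHom.fst _ _).comp F.subtype
  let p₂ : F →* BU D π := (MonoidHom.snd _ _).comp F.subtype
  let r₁ : Representation ℂ F V₁ := MonoidHom.comp ρ₁ p₁
  let r₂ : Representation ℂ F V₂ := MonoidHom.comp ρ₂ p₂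
  have hχe : (fun n : N => ρ₁.character (inl n)) = χ := funext e1
  have hθe : (fun n => ρ₂.character (inl n)) = θ := funext e2
  have hker : ∀ f, q f = 1 → (r₁.tprod r₂.dual) f = 1 := by
    intro f hf
    have hf' : f.1.1.right = f.1.2.right := f.2
    have h0 : q₀ f = 1 := congrArg Subtype.val hf
    have h1 : f.1.1.left * (f.1.2.left : N)⁻¹ = 1 := congrArg SemidirectProduct.left h0
    have h2 : MulAut.conj (f.1.2.left : N) * (π f.1.2.right : MulAut N) = 1 :=
      congrArg (fun x : Gm R => (x.right : MulAut N)) h0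
    have h3 : f.1.1 = kU D π f.1.2 := by
      ext1
      · show f.1.1.left = D.k f.1.2.left
        rw [hk']
        exact mul_inv_eq_one.1 h1
      · exact hf'
    have h4 : ∀ n : N, Commute (kU D π f.1.2) (inl n) := by
      intro n
      show _ * _ = _ * _
      rw [← h3]
      ext1
      · show f.1.1.left * (D.α (π f.1.1.right) n) = n * ((D.α.comp π) 1 f.1.1.left)
        have h5 := DFunLike.congr_fun h2 n
        rw [MulAut.mul_apply, MulAut.conj_apply, ← mul_inv_eq_one.1 h1, MulAut.one_apply,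
          mul_inv_eq_iff_eq_mul] at h5
        rw [hf', hα', map_one, MulAut.one_apply]
        exact h5
      · show f.1.1.right * 1 = 1 * f.1.1.right
        rw [mul_one, one_mul]
    obtain ⟨c, hc0, hc1, hc2⟩ := scal_eq D π hU hZ ρ₁ ρ₂ (by rw [hχe]; exact hχ)
      (by rw [hθe]; exact hθ) hSE (by
        obtain ⟨b, hb, hb'⟩ := hs
        exact ⟨b, hb, by rw [e1]; exact hb'⟩) f.1.2 h4
    have h6 : r₁ f = c • LinearMap.id := by
      show ρ₁ f.1.1 = _
      rw [h3, hc1]
    have h7 : r₂ f⁻¹ = c⁻¹ • LinearMap.id := by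
      have h8 : r₂ f⁻¹ * r₂ f = 1 := by rw [← map_mul, inv_mul_cancel, map_one]
      have h9 : r₂ f = c • LinearMap.id := hc2
      rw [h9, mul_smul_comm] at h8
      have h10 : c • r₂ f⁻¹ = 1 := h8
      calc r₂ f⁻¹ = c⁻¹ • (c • r₂ f⁻¹) := by rw [smul_smul, inv_mul_cancel₀ hc0, one_smul]
        _ = _ := by rw [h10]; rfl
    rw [Representation.tprod_apply, Representation.dual_apply, h6, h7, map_smul,
      TensorProduct.map_smul_left, TensorProduct.map_smul_right, smul_smul, mul_inv_cancel₀ hc0,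
      one_smul]
    have h11 : (Module.Dual.transpose (R := ℂ) (LinearMap.id : V₂ →ₗ[ℂ] V₂)) = LinearMap.id := rfl
    rw [h11, TensorProduct.map_id]
    rfl
  obtain ⟨R', hR'⟩ := desc_rep q hq (r₁.tprod r₂.dual) hker
  refine ⟨T, R'.character, ⟨_, _, _, inferInstance, R', rfl⟩, fun x => Iff.rfl, fun n m h => ?_⟩
  let f : F := ⟨(inl n, inl m), rfl⟩
  have h1 : (⟨sm R (n, m), h⟩ : T) = q f := by
    refine Subtype.ext ?_
    ext1
    · rfl
    · refine Subtype.ext ?_
      show MulAut.conj (m : N) = MulAut.conj (m : N) * ((π 1 : Ast R) : MulAut N)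
      rw [map_one, Subgroup.coe_one, mul_one]
  rw [h1]
  show LinearMap.trace ℂ _ (R' (q f)) = _
  rw [hR']
  show (r₁.tprod r₂.dual).character f = _
  rw [char_tensor, Pi.mul_apply, char_dual]
  show ρ₁.character (inl n) * ρ₂.character (inl m)⁻¹ = _
  rw [← map_inv, e1, e2]

end LkcQ

open LkbP LkcQ in
theorem lkc (hE : EXP) : LKC := by
  intro p _ N _ _ R hR hZ D hk hα kk φ hφ β heq0 hWW
  have hp : p.Prime := Fact.out
  haveI := Fintype.ofFinite N
  haveI : Fintype (Subgroup.normalizer (R : Set N)) := Fintype.ofFinite _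
  have hk' : ∀ b, D.k b = (b : N) := fun b => by rw [hk]; rfl
  have hα' : ∀ (a : Ast R) (n : N), D.α a n = (a : MulAut N) n := fun a n => by rw [hα]; rfl
  have hβc : ∀ (a : Ast R) (b : Subgroup.normalizer (R : Set N)),
      ((D.β a b : Subgroup.normalizer (R : Set N)) : N) = (a : MulAut N) b := by
    intro u b
    have h := D.comp u b
    rw [hk', hk', hα'] at h
    exact h
  have hcQ : Nat.card D.Q = p := D.lc.cQ
  -- equivariance
  have heq : ∀ (a : Ast R) (χ χ₁ : Xs D), (∀ n, χ₁.1 n = χ.1 ((a : MulAut N) n)) →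
      ∀ b, (β χ₁).1 b = (β χ).1 (D.β a b) := fun a χ χ₁ h =>
    heq0 a χ χ₁ (fun n => by rw [hα']; exact h n)
  -- signs
  have hSE : ∀ χ : Xs D, SE p D.k χ.1 (β χ).1 := by
    intro χ
    obtain ⟨W, hW, hW1, hW2, U, iU, iU', π, hU, hπ, χ', θ', hχ', hθ', e1, e2, h⟩ := hWW χ
    have hinl : ∀ g : Subgroup.normalizer (R : Set N), p ∣ orderOf g →
        p ∣ orderOf (inl g : BU D π) := by
      intro g hg
      rwa [orderOf_injective (inl : _ →* BU D π) inl_injective]
    rcases h with h | h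
    · left
      intro g hg
      have h1 := h _ (hinl g hg)
      rwa [kU_inl, e1, e2] at h1
    · right
      intro g hg
      have h1 := h _ (hinl g hg)
      rwa [kU_inl, e1, e2] at h1
  -- the extensions
  have hkey : ∀ χ : Xs D, ∃ (T : Subgroup (Gm R)) (ξ : T → ℂ), RC ξ ∧
      (∀ x, x ∈ T ↔ φ x.right = 1 ∧ ∀ n, χ.1 ((x.right : MulAut N) n) = χ.1 n) ∧
      ∀ n m (h : sm R (n, m) ∈ T), ξ ⟨sm R (n, m), h⟩ = χ.1 n * (β χ).1 m⁻¹ := by
    intro χ
    obtain ⟨W, hW, hW1, hW2, hMM⟩ := hWW χ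
    refine key₀ R hZ D hk hα χ.2.1 (β χ).2 χ.2.2 φ hφ W ?_ ?_ hMM
    · intro a ha0 ha
      exact hW2 a ha0 (fun n => by rw [hα']; exact ha n)
    · intro w hw
      refine ⟨(hW1 w hw).1, fun n => ?_⟩
      have h1 := (hW1 w hw).2 n
      rwa [hα'] at h1
  choose T₀ ξ₀ hξ₀ hT₀ hξs using hkey
  have hsφ : ∀ x : N × Subgroup.normalizer (R : Set N), φ (sm R x).right = 1 := fun x =>
    hφ x.2 _ rfl
  have hsχ : ∀ (χ : Xs D) (x : N × Subgroup.normalizer (R : Set N)) (n : N),
      χ.1 (((sm R x).right : MulAut N) n) = χ.1 n := by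
    intro χ x n
    show χ.1 ((x.2 : N) * n * (x.2 : N)⁻¹) = χ.1 n
    exact χ.2.1.conj _ _
  have hsT : ∀ (χ : Xs D) (x : N × Subgroup.normalizer (R : Set N)), sm R x ∈ T₀ χ := by
    intro χ x
    rw [hT₀]
    exact ⟨hsφ x, hsχ χ x⟩
  let T : Xs D → Subgroup (Gm R) := fun χ =>
    { carrier := {x | ∀ n, χ.1 ((x.right : MulAut N) n) = χ.1 n}
      one_mem' := fun n => rfl
      mul_mem' := fun {x y} hx hy n => (hx _).trans (hy n)
      inv_mem' := fun {x} hx n => by
        have h := hx ((x.right : MulAut N)⁻¹ n)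
        rw [MulAut.apply_inv_self] at h
        exact h.symm }
  have hT : ∀ (χ : Xs D) (x : Gm R), x ∈ T χ ↔ ∀ n, χ.1 ((x.right : MulAut N) n) = χ.1 n :=
    fun χ x => Iff.rfl
  -- the bijection
  let x : X p N → Xs D := fun χ => ⟨χ.1, χ.2.1, nonvan D.k D.Q hcQ χ.2.1 χ.2.2⟩
  have hsq : ∀ χ : Xs D, (ndeg χ.1 : ZMod p) ^ 2 = (ndeg (β χ).1 : ZMod p) ^ 2 := fun χ =>
    deg_sq D.k D.Q hcQ χ.2.1 (β χ).2 (hSE χ)
  have hne1 : ∀ χ : X p N, (ndeg (β (x χ)).1 : ZMod p) ≠ 0 := by
    intro χ h0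
    have h1 := hsq (x χ)
    rw [h0, zero_pow two_ne_zero] at h1
    exact χ.2.2 (pow_eq_zero_iff two_ne_zero |>.1 h1)
  let y : X p (Subgroup.normalizer (R : Set N)) → Ys D := fun θ => ⟨θ.1, θ.2.1⟩
  have hne2 : ∀ θ : X p (Subgroup.normalizer (R : Set N)), (ndeg (β.symm (y θ)).1 : ZMod p) ≠ 0 := by
    intro θ h0
    have h1 := hsq (β.symm (y θ))
    rw [h0, zero_pow two_ne_zero, Equiv.apply_symm_apply] at h1
    exact θ.2.2 (pow_eq_zero_iff two_ne_zero |>.1 h1.symm)
  let β' : X p N ≃ X p (Subgroup.normalizer (R : Set N)) :=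
    { toFun := fun χ => ⟨(β (x χ)).1, (β (x χ)).2, hne1 χ⟩
      invFun := fun θ => ⟨(β.symm (y θ)).1, (β.symm (y θ)).2.1, hne2 θ⟩
      left_inv := fun χ => by
        apply Subtype.ext
        show (β.symm (β (x χ))).1 = χ.1
        rw [Equiv.symm_apply_apply]
      right_inv := fun θ => by
        apply Subtype.ext
        show (β (β.symm (y θ))).1 = θ.1
        rw [Equiv.apply_symm_apply] }
  -- the subgroup
  have hconj : ∀ (g : Gm R) (n : N) (m : Subgroup.normalizer (R : Set N)),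
      g * sm R (n, m) * g⁻¹ =
        sm R (g.left * ((g.right : MulAut N) n) * g.left⁻¹, D.β g.right m) := by
    intro g n m
    rw [mul_inv_eq_iff_eq_mul]
    ext1
    · show g.left * ((g.right : MulAut N) (n * (m : N)⁻¹)) =
        g.left * ((g.right : MulAut N) n) * g.left⁻¹ *
          ((D.β g.right m : Subgroup.normalizer (R : Set N)) : N)⁻¹ *
          (((D.β g.right m : Subgroup.normalizer (R : Set N)) : N) * g.left *
            ((D.β g.right m : Subgroup.normalizer (R : Set N)) : N)⁻¹)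
      rw [hβc, map_mul, map_inv]
      group
    · refine Subtype.ext ?_
      show (g.right : MulAut N) * MulAut.conj (m : N) =
        MulAut.conj ((D.β g.right m : Subgroup.normalizer (R : Set N)) : N) * (g.right : MulAut N)
      rw [hβc]
      ext z
      simp only [MulAut.mul_apply, MulAut.conj_apply, map_mul, map_inv]
  let K : Subgroup (Gm R) := (sm R).range
  have hKn : K.subtype.range.Normal := by
    rw [Subgroup.range_subtype]
    refine ⟨?_⟩
    rintro _ ⟨⟨n, m⟩, rfl⟩ g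
    rw [hconj]
    exact ⟨_, rfl⟩
  haveI : Finite (Gm R) := Finite.of_equiv _ SemidirectProduct.equivProd.symm
  haveI : Fintype K := Fintype.ofFinite _
  haveI : Fintype (X p N) := Fintype.ofFinite _
  have hKT₀ : ∀ (χ : Xs D) (k : K), (k : Gm R) ∈ T₀ χ := by
    rintro χ ⟨_, z, rfl⟩
    exact hsT χ z
  have hKT : ∀ (χ : Xs D) (k : K), (k : Gm R) ∈ T χ := by
    rintro χ ⟨_, z, rfl⟩
    exact hsχ χ z
  let κ : X p N → K → ℂ := fun χ k => ξ₀ (x χ) ⟨k, hKT₀ (x χ) k⟩
  have hκ : ∀ (χ : X p N) (n : N) (m : Subgroup.normalizer (R : Set N)) (h : sm R (n, m) ∈ K),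
      κ χ ⟨sm R (n, m), h⟩ = χ.1 n * (β' χ).1 m⁻¹ := fun χ n m h => hξs (x χ) n m _
  have hκirr : ∀ χ, IsIrr (κ χ) := by
    intro χ
    refine Pool.Agent.K3h18.IN.irr_of_infl (sm R).rangeRestrict (sm R).rangeRestrict_surjective ?_
    have h1 : IsIrr fun z : N × Subgroup.normalizer (R : Set N) => χ.1 z.1 * (β' χ).1 z.2⁻¹ :=
      ten_irr χ.2.1 (irr_inv (β' χ).2.1)
    have h2 : (fun z => κ χ ((sm R).rangeRestrict z)) =
        fun z : N × Subgroup.normalizer (R : Set N) => χ.1 z.1 * (β' χ).1 z.2⁻¹ :=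
      funext fun z => hκ χ z.1 z.2 _
    rw [h2]
    exact h1
  have hκinj : Function.Injective κ := by
    intro χ χ' h
    have h2 : ∀ n, χ.1 n * (β' χ).1 1 = χ'.1 n * (β' χ').1 1 := by
      intro n
      have h3 := congrFun h ⟨sm R (n, 1), ⟨_, rfl⟩⟩
      rw [hκ, hκ, inv_one] at h3
      exact h3
    by_contra hcon
    have h4 : IC.B χ.1 χ'.1 = 0 := by
      rw [IC.B_irr χ.2.1 χ'.2.1, if_neg fun h => hcon (Subtype.ext h)]
    have h5 : IC.B χ.1 χ.1 = 1 := by
      rw [IC.B_irr χ.2.1 χ.2.1, if_pos rfl]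
    have d1 := ExtP.deg_ne (β' χ).2.1
    have d2 := ExtP.deg_ne (β' χ').2.1
    have h6 : χ'.1 = ((β' χ).1 1 / (β' χ').1 1) • χ.1 := by
      funext n
      rw [Pi.smul_apply, smul_eq_mul, div_mul_eq_mul_div, eq_div_iff d2, ← h2 n, mul_comm]
    rw [h6, IC.B_comm, IC.B_smul_left, h5, mul_one] at h4
    exact (div_ne_zero d1 d2) h4
  -- the action on the characters
  have hact : ∀ (a : Ast R) (χ : X p N), ∃ χ' : X p N, ∀ n, χ'.1 n = χ.1 ((a : MulAut N) n) := by
    intro a χ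
    refine ⟨⟨fun n => χ.1 ((a : MulAut N) n), ?_, ?_⟩, fun n => rfl⟩
    · exact Pool.Agent.K3h18.IN.irr_infl ((a : MulAut N) : N ≃* N).toMonoidHom
        (a : MulAut N).surjective χ.2.1
    · have h1 : ndeg (fun n => χ.1 ((a : MulAut N) n)) = ndeg χ.1 := by
        unfold ndeg
        show ⌊(χ.1 ((a : MulAut N) 1)).re⌋₊ = _
        rw [map_one]
      rw [h1]
      exact χ.2.2
  have hst0 : ∀ (g : Gm R) (χ χ' : X p N), (∀ n, χ'.1 ((g.right : MulAut N) n) = χ.1 n) →
      ∀ k k' : K, g * K.subtype k * g⁻¹ = K.subtype k' → κ χ' k' = κ χ k := by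
    rintro g χ χ' h ⟨_, ⟨n, m⟩, rfl⟩ ⟨k', hk''⟩ hkk
    have h1 : k' = sm R (g.left * ((g.right : MulAut N) n) * g.left⁻¹, D.β g.right m) := by
      rw [← hconj]
      exact hkk.symm
    subst h1
    rw [hκ, hκ, χ'.2.1.conj, h]
    congr 1
    have h2 := heq g.right (x χ') (x χ) (fun n => (h n).symm) m⁻¹
    rw [map_inv] at h2
    exact h2.symm
  have hst : ∀ (g : Gm R) (χ : X p N), ∃ χ', ∀ k k' : K, g * K.subtype k * g⁻¹ = K.subtype k' →
      κ χ' k' = κ χ k := by
    intro g χ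
    obtain ⟨χ', hχ'⟩ := hact g.right⁻¹ χ
    refine ⟨χ', hst0 g χ χ' fun n => ?_⟩
    rw [hχ', Subgroup.coe_inv, MulAut.inv_apply_self]
  have hfix : ∀ (χ : X p N) (g : Gm R), g ∈ T (x χ) ↔ fixes K.subtype (κ χ) g := by
    intro χ g
    rw [hT]
    constructor
    · intro h k k' hkk
      exact hst0 g χ χ h k k' hkk
    · intro h
      obtain ⟨χ', hχ'⟩ := hact g.right⁻¹ χ
      have h1 : ∀ n, χ'.1 ((g.right : MulAut N) n) = χ.1 n := fun n => by
        rw [hχ', Subgroup.coe_inv, MulAut.inv_apply_self]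
      have h2 : χ' = χ := by
        apply hκinj
        funext k'
        obtain ⟨k, hk1⟩ := hKn.conj_mem (K.subtype k') ⟨k', rfl⟩ g⁻¹
        have h3 : g * K.subtype k * g⁻¹ = K.subtype k' := by
          rw [hk1]
          group
        rw [hst0 g χ χ' h1 k k' h3]
        exact (h k k' h3).symm
      intro n
      rw [← h1 n, h2]
  -- the extensions to the full stabilizers
  have hext : ∀ χ : X p N, ∃ ξ : T (x χ) → ℂ, RC ξ ∧
      ∀ k : K, ξ (K.subtype.codRestrict (T (x χ)) (fun k => hKT (x χ) k) k) = κ χ k := by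
    intro χ
    let j : K →* T (x χ) := K.subtype.codRestrict (T (x χ)) (fun k => hKT (x χ) k)
    let ψ : T (x χ) →* Multiplicative (ZMod (p ^ kk)) :=
      φ.comp ((rightHom (φ := (Ast R).subtype)).comp (T (x χ)).subtype)
    have hjr : ∀ y : T (x χ), y ∈ j.range ↔ (y : Gm R) ∈ K := by
      intro y
      constructor
      · rintro ⟨k, rfl⟩
        exact k.2
      · intro h
        exact ⟨⟨y, h⟩, Subtype.ext rfl⟩
    obtain ⟨W, hWp, hW1, hW2, -⟩ := hWW (x χ)
    have hi : ∀ y : ψ.ker, ((y : T (x χ)) : Gm R) ∈ T₀ (x χ) := by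
      intro y
      rw [hT₀]
      exact ⟨y.2, y.1.2⟩
    let i : ψ.ker →* T₀ (x χ) := ((T (x χ)).subtype.comp ψ.ker.subtype).codRestrict (T₀ (x χ)) hi
    have hnor : j.range.Normal := by
      refine ⟨fun y hy g => ?_⟩
      rw [hjr] at hy ⊢
      obtain ⟨⟨n, m⟩, hz⟩ := hy
      show (g : Gm R) * (y : Gm R) * (g : Gm R)⁻¹ ∈ K
      rw [← hz, hconj]
      exact ⟨_, rfl⟩
    refine hE p K (T (x χ)) j ?_ hnor (κ χ) (hκirr χ) ?_ kk ψ ?_ ?_ (fun y => ξ₀ (x χ) (i y))
      (rc_comp (hξ₀ (x χ)) i) ?_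
    · intro a b hab
      exact Subtype.ext (congrArg (fun y : T (x χ) => (y : Gm R)) hab)
    · intro y k k' hkk
      exact (hfix χ y).1 y.2 k k' (congrArg (fun y : T (x χ) => (y : Gm R)) hkk)
    · rintro ⟨_, z, rfl⟩
      exact hsφ z
    · -- the index
      have hwT : ∀ w : W, (inr (w : Ast R) : Gm R) ∈ T (x χ) := by
        intro w n
        have h1 := (hW1 w w.2).2 n
        rwa [hα'] at h1
      let f₀ : W →* T (x χ) := ((inr : Ast R →* Gm R).comp W.subtype).codRestrict (T (x χ)) hwT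
      have hwk : ∀ w : W, f₀ w ∈ ψ.ker := fun w => (hW1 w w.2).1
      let f₁ : W →* ψ.ker := f₀.codRestrict ψ.ker hwk
      haveI : (j.range.subgroupOf ψ.ker).Normal := Subgroup.normal_subgroupOf
      let f₂ : W →* ψ.ker ⧸ (j.range.subgroupOf ψ.ker) :=
        (QuotientGroup.mk' (j.range.subgroupOf ψ.ker)).comp f₁
      have hsurj : Function.Surjective f₂ := by
        intro q
        obtain ⟨y, rfl⟩ := QuotientGroup.mk'_surjective _ q
        obtain ⟨m, w, hw, haw⟩ := hW2 (y.1.1.right) y.2 (fun n => by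
          rw [hα']
          exact y.1.2 n)
        refine ⟨⟨w, hw⟩, ?_⟩
        show QuotientGroup.mk' _ (f₁ ⟨w, hw⟩) = _
        rw [QuotientGroup.mk'_apply, QuotientGroup.mk'_apply, eq_comm, QuotientGroup.eq]
        have hmem : (y : ψ.ker) * (f₁ ⟨w, hw⟩)⁻¹ ∈ j.range.subgroupOf ψ.ker := by
          rw [Subgroup.mem_subgroupOf, hjr]
          refine ⟨((y.1.1.left * (m : N)), m), ?_⟩
          show sm R (y.1.1.left * (m : N), m) = y.1.1 * (inr w)⁻¹
          rw [eq_mul_inv_iff_mul_eq]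
          ext1
          · show y.1.1.left * (m : N) * (m : N)⁻¹ *
              ((m : N) * 1 * (m : N)⁻¹) = y.1.1.left
            group
          · refine Subtype.ext ?_
            exact haw.symm
        have h2 := (inferInstance : (j.range.subgroupOf ψ.ker).Normal).conj_mem _ hmem
          (f₁ ⟨w, hw⟩)⁻¹
        have h3 := (j.range.subgroupOf ψ.ker).inv_mem h2
        have h4 : ((f₁ ⟨w, hw⟩)⁻¹ * (y * (f₁ ⟨w, hw⟩)⁻¹) * ((f₁ ⟨w, hw⟩)⁻¹)⁻¹)⁻¹ =
            y⁻¹ * f₁ ⟨w, hw⟩ := by group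
        rw [h4] at h3
        exact h3
      have h5 := Subgroup.card_dvd_of_surjective f₂ hsurj
      intro hdvd
      apply hWp
      refine dvd_trans ?_ h5
      exact hdvd
    · intro m h
      rfl
  choose ξ hξ hξκ using hext
  obtain ⟨ω, hω, hωk⟩ := glu K (Gm R) (X p N) K.subtype K.subtype_injective hKn κ hκirr hκinj
    hst (fun χ => ⟨T (x χ), K.subtype.codRestrict (T (x χ)) (fun k => hKT (x χ) k), ξ χ,
      hfix χ, fun k => rfl, hξ χ, hξκ χ⟩)
  have hcl : ∀ χ : X p N, cl p (ndeg χ.1) = cl p (ndeg (β' χ).1) := fun χ =>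
    Pool.Agent.K3h51.OP.cl_sq p χ.2.2 (β' χ).2.2 (hsq (x χ))
  refine ⟨β', ω, hω, hcl, fun χ z hz => ?_, fun n m b hb => ?_⟩
  · have h1 : sm R ((z : N), z) = sm R (1, 1) := by
      ext1
      · show (z : N) * (z : N)⁻¹ = 1 * ((1 : Subgroup.normalizer (R : Set N)) : N)⁻¹
        rw [mul_inv_cancel, Subgroup.coe_one, inv_one, mul_one]
      · refine Subtype.ext ?_
        show MulAut.conj (z : N) = MulAut.conj ((1 : Subgroup.normalizer (R : Set N)) : N)
        ext w
        rw [MulAut.conj_apply, ← Subgroup.mem_center_iff.1 hz w, mul_inv_cancel_right,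
          Subgroup.coe_one, map_one, MulAut.one_apply]
    have h2 : χ.1 z * (β' χ).1 z⁻¹ = χ.1 1 * (β' χ).1 1 := by
      have h3 := hκ χ z z ⟨_, rfl⟩
      have h4 := hκ χ 1 1 ⟨_, rfl⟩
      have h5 : (⟨sm R ((z : N), z), ⟨_, rfl⟩⟩ : K) = ⟨sm R (1, 1), ⟨_, rfl⟩⟩ := Subtype.ext h1
      rw [inv_one] at h4
      rw [← h3, ← h4, h5]
    have hzc : z ∈ Subgroup.center (Subgroup.normalizer (R : Set N)) := by
      rw [Subgroup.mem_center_iff]
      intro g
      exact Subtype.ext (Subgroup.mem_center_iff.1 hz (g : N))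
    have h3 := ExtP.central_mul_inv (β' χ).2.1 z hzc
    have d2 := ExtP.deg_ne (β' χ).2.1
    apply mul_right_cancel₀ d2
    calc (β' χ).1 z * χ.1 1 * (β' χ).1 1 = (β' χ).1 z * (χ.1 1 * (β' χ).1 1) := by ring
      _ = (β' χ).1 z * (χ.1 z * (β' χ).1 z⁻¹) := by rw [h2]
      _ = χ.1 z * ((β' χ).1 z * (β' χ).1 z⁻¹) := by ring
      _ = _ := by rw [h3]; ring
  · have h1 : (⟨n * (m : N)⁻¹, b⟩ : Gm R) = sm R (n, m) := by
      ext1
      · rfl
      · exact Subtype.ext hb
    rw [finsum_eq_sum_of_fintype]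
    show ω (⟨n * (m : N)⁻¹, b⟩ : Gm R) = _
    rw [h1]
    have h2 := hωk ⟨sm R (n, m), ⟨_, rfl⟩⟩
    change ω (sm R (n, m)) = _ at h2
    rw [h2]
    exact Finset.sum_congr rfl fun χ _ => hκ χ n m _

end Pool.Agent.ZH17.RD
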