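import Pool.Agent.ZH17.RD.LlC

/-!
# Piece LL: restrictions of irreducible characters of `N ⋊ U`
-/

set_option autoImplicit false
set_option linter.unusedSectionVars false
set_option linter.style.haveILetI false

open scoped BigOperators Classical

noncomputable section

namespace Pool.Agent.ZH17.RD

open Pool.Agent.Helper884 Pool.Agent.K3h3.KB Pool.Agent.K3h3.MK Pool.Agent.K3h83.IN
open Pool.Agent.K3h33.CY
open Pool.Agent.H254R3.IN (IsIrr mem_Irr)
open Pool.Agent.K3h18.IN (irr_infl)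
open IC (Irr)
open SemidirectProduct

/-- `SE` with a sign -/
theorem SE_sgn {p : ℕ} {B X : Type} [Group B] {ι : B → X} {χ : X → ℂ} {F : B → ℂ}
    (h : SE p ι χ F) : ∃ δ : ℤ, (δ = 1 ∨ δ = -1) ∧ ∀ g : B, p ∣ orderOf g → χ (ι g) = δ * F g := by
  rcases h with h | h
  · exact ⟨1, Or.inl rfl, fun g hg => by rw [h g hg, Int.cast_one, one_mul]⟩
  · exact ⟨-1, Or.inr rfl, fun g hg => by rw [h g hg]; push_cast; ring⟩

theorem ll : LL := by
  intro p hp B N A U Ω _ _ _ _ _ _ _ _ D π hU e f T c χ' hχ' θ hθ hSE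
  obtain ⟨a, ha0, ha, hdec, hinv, hne⟩ := cliff_dec (D.α.comp π) hχ'
  set O := (Irr N).filter (fun χ => IC.B (fun n => χ' (inl n)) χ ≠ 0) with hOdef
  have hOirr : ∀ χ ∈ O, IsIrr χ := fun χ h => mem_Irr.mp (Finset.mem_filter.1 h).1
  have hOne : ∀ χ ∈ O, IC.B (fun n => χ' (inl n)) χ ≠ 0 := fun χ h => (Finset.mem_filter.1 h).2
  obtain ⟨⟨ω₀, m₀⟩, ht⟩ := T.sur θ hθ
  have ht' : T.t ⟨ω₀, m₀⟩ = θ := ht
  obtain ⟨η, hη, hs⟩ := SE_sgn hSE
  have hlink : ∀ χ₁ ∈ O, ∀ χ₂ ∈ O, ∃ u : U, ∀ n, χ₁ n = χ₂ (D.α (π u) n) := by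
    intro χ₁ h₁ χ₂ h₂
    obtain ⟨u, hu⟩ := cliff (D.α.comp π) hχ' (hOirr χ₁ h₁) (hOirr χ₂ h₂) (hOne χ₁ h₁) (hOne χ₂ h₂)
    exact ⟨u, hu⟩
  have hyz : ∀ (u : U) b, D.k (D.β (π u) b) = D.α (π u) (D.k b) := fun u b => D.comp (π u) b
  -- the value of the restriction
  have hval : ∀ g : B, p ∣ orderOf g → (a : ℂ) * ∑ χ ∈ O, χ (D.k g) = η * T.t ⟨ω₀, m₀⟩ g := by
    intro g hg
    rw [ht', ← hs g hg, hdec]
  -- all elements of `O` are in the correspondence
  have hO : ∀ χ ∈ O, ∃ ω m, c.b ω m = χ := by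
    obtain ⟨g, hg, hgne⟩ := nes T ⟨ω₀, m₀⟩
    have h1 : ∃ χ₁ ∈ O, χ₁ (D.k g) ≠ 0 := by
      by_contra hcon
      push Not at hcon
      have h2 := hval g hg
      rw [Finset.sum_eq_zero hcon, mul_zero] at h2
      rcases mul_eq_zero.mp h2.symm with h3 | h3
      · rcases hη with h4 | h4 <;> rw [h4] at h3 <;> norm_num at h3
      · exact hgne h3
    obtain ⟨χ₁, hχ₁, hne₁⟩ := h1
    intro χ hχ
    rcases c.oth χ (hOirr χ hχ) with h | ⟨h, -⟩
    · exact h
    · exfalso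
      obtain ⟨u, hu⟩ := hlink χ₁ hχ₁ χ hχ
      apply hne₁
      rw [hu, ← hyz]
      exact h _ (sing_aut _ hg)
  -- the parts of `O`
  let Oω : ∀ ω, Finset (Fin (e ω) ⊕ Fin (f ω)) := fun ω => Finset.univ.filter fun m => c.b ω m ∈ O
  have hmem : ∀ ω m, m ∈ Oω ω ↔ c.b ω m ∈ O := fun ω m => by
    change m ∈ Finset.univ.filter _ ↔ _
    rw [Finset.mem_filter]
    exact ⟨fun h => h.2, fun h => ⟨Finset.mem_univ _, h⟩⟩
  have hstar : ∀ ω (i : Fin (f ω)), (a : ℂ) * ∑ m ∈ Oω ω, (c.ε ω m : ℂ) * us i m =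
      η * IC.B (T.t ⟨ω₀, m₀⟩) (T.β ω i) := by
    intro ω i
    have h1 : IC.B ((a : ℂ) • ∑ χ ∈ O, fun g => χ (D.k g)) (T.β ω i) =
        η * IC.B (T.t ⟨ω₀, m₀⟩) (T.β ω i) := by
      rw [B_sing T (F' := (η : ℂ) • T.t ⟨ω₀, m₀⟩) (fun g hg => ?_) ω i, IC.B_smul_left]
      rw [Pi.smul_apply, Pi.smul_apply, Finset.sum_apply, smul_eq_mul, smul_eq_mul]
      exact hval g hg
    rw [← h1, IC.B_smul_left, IC.B_sum_left]
    congr 1
    have h2 : (Oω ω).image (c.b ω) ⊆ O := by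
      intro χ hχ
      obtain ⟨m, hm, rfl⟩ := Finset.mem_image.1 hχ
      exact (hmem ω m).1 hm
    rw [← Finset.sum_subset h2, Finset.sum_image fun a _ b _ h => c.inj ω h]
    · refine Finset.sum_congr rfl fun m _ => ?_
      rw [cor_B, B_us]
    · intro χ hχ hn
      obtain ⟨ω', m', rfl⟩ := hO χ hχ
      rw [cor_B]
      by_cases hω : ω' = ω
      · subst hω
        exact absurd (Finset.mem_image.2 ⟨m', (hmem ω' m').2 hχ, rfl⟩) hn
      · rw [T.B_ne (m := ⟨ω', m'⟩) hω i, mul_zero]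
  -- elements of a part are conjugate
  have hll : ∀ ω, ∀ m₁ ∈ Oω ω, ∀ m₂ ∈ Oω ω, ∃ u : U, ∀ n, c.b ω m₁ n = c.b ω m₂ (D.α (π u) n) :=
    fun ω m₁ h₁ m₂ h₂ => hlink _ ((hmem ω m₁).1 h₁) _ ((hmem ω m₂).1 h₂)
  have hcomb : ∀ ω, (Oω ω).Nonempty → _ := fun ω hn =>
    comb (T.e0 ω) (T.f0 ω) (c.ε ω) (c.sgn ω) (Oω ω) hn
      (by
        intro he huniv
        have hall : ∀ m, m ∈ Oω ω := fun m => by rw [huniv]; exact Finset.mem_univ _
        haveI : Nonempty (Fin (e ω) ⊕ Fin (f ω)) := ⟨Sum.inl ⟨0, T.e0 ω⟩⟩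
        have h1 := card_dvd (D.α.comp π) (c.b ω) (c.inj ω)
          (fun m₁ m₂ => hll ω m₁ (hall m₁) m₂ (hall m₂))
          (fun u hu => block c (D.α (π u)) (D.β (π u)) (hyz u) ω he hu)
        rw [Fintype.card_sum, Fintype.card_fin, Fintype.card_fin, he] at h1
        apply hU
        refine dvd_trans ?_ h1
        rw [add_comm]
        exact dvd_f T D.Q D.lc.nQ D.lc.cQ ω he)
      (by
        intro hf m₁ h₁ m₂ h₂
        obtain ⟨u, hu⟩ := hll ω m₁ h₁ m₂ h₂
        obtain ⟨m₃, -, h3⟩ := lemA c (D.α (π u)) (D.β (π u)) (hyz u) ω m₁ m₂ hu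
        have h4 := sgn_us hf (pm_mul (c.sgn ω m₂) (c.sgn ω m₁)) h3
        have h5 := pm_sq (c.sgn ω m₂)
        linear_combination c.ε ω m₂ * h4 - c.ε ω m₁ * h5)
      (by
        intro hf he j k hj hk
        obtain ⟨u, hu⟩ := hll ω _ hk _ hj
        obtain ⟨m₃, h2, h3⟩ := lemA c (D.α (π u)) (D.β (π u)) (hyz u) ω _ _ hu
        have h4 := sgn_us hf (pm_mul (c.sgn ω (Sum.inl j)) (c.sgn ω (Sum.inr k))) h3
        have h5 : m₃ = Sum.inr k := us_eq_inr fun i => by rw [h3 i, h4, one_mul]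
        rw [h5] at h2
        have := e_one T (D.β (π u)) ω j k h2
        omega)
      (by
        intro hf he m₁ h₁ m₂ h₂ i
        obtain ⟨u, hu⟩ := hll ω m₁ h₁ m₂ h₂
        obtain ⟨m₃, h2, h3⟩ := lemA c (D.α (π u)) (D.β (π u)) (hyz u) ω m₁ m₂ hu
        have h4 : us i m₃ = us i m₂ := by
          rcases m₂ with j | k <;> rcases m₃ with j' | k'
          · rfl
          · exfalso
            have := e_one T (D.β (π u)) ω j k' h2
            omega
          · exfalso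
            have := e_one T (D.β (π u))⁻¹ ω j' k (fun g => by
              rw [← h2, ← MulAut.mul_apply, mul_inv_cancel]
              rfl)
            omega
          · have : k' = k := by
              apply Fin.ext
              have := k'.2
              have := k.2
              omega
            rw [this]
        rw [← h4, h3 i]
        have h5 := pm_sq (c.sgn ω m₂)
        linear_combination (-(c.ε ω m₁ * us i m₁)) * h5)
  -- the other parts are empty
  have hempty : ∀ ω, ω ≠ ω₀ → ∀ m, c.b ω m ∉ O := by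
    intro ω hω m hm
    obtain ⟨⟨i, hi⟩, -⟩ := hcomb ω ⟨m, (hmem ω m).2 hm⟩
    have h1 := hstar ω i
    rw [T.B_ne (m := ⟨ω₀, m₀⟩) (fun h => hω h.symm) i, mul_zero] at h1
    rcases mul_eq_zero.mp h1 with h2 | h2
    · exact ha0 (by exact_mod_cast h2)
    · exact hi (by exact_mod_cast h2)
  have hOim : O = (Oω ω₀).image (c.b ω₀) := by
    ext χ
    constructor
    · intro hχ
      obtain ⟨ω, m, rfl⟩ := hO χ hχ
      by_cases hω : ω = ω₀
      · subst hω
        exact Finset.mem_image.2 ⟨m, (hmem ω m).2 hχ, rfl⟩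
      · exact absurd hχ (hempty ω hω m)
    · intro hχ
      obtain ⟨m, hm, rfl⟩ := Finset.mem_image.1 hχ
      exact (hmem ω₀ m).1 hm
  have hne₀ : (Oω ω₀).Nonempty := by
    rw [hOim] at hne
    exact Finset.image_nonempty.mp hne
  obtain ⟨-, hc⟩ := hcomb ω₀ hne₀
  obtain ⟨ha1, hc2⟩ := hc a η hη m₀ (fun i => by
    have h1 := hstar ω₀ i
    rw [B_us] at h1
    exact_mod_cast h1)
  have hsum : ∀ n : N, χ' (inl n) = ∑ m ∈ Oω ω₀, c.b ω₀ m n := by
    intro n
    rw [hdec n, ha1, Nat.cast_one, one_mul, hOim, Finset.sum_image fun a _ b _ h => c.inj ω₀ h]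
  rcases hc2 with h1 | ⟨hf, hcard, hiff, huni⟩
  · left
    obtain ⟨m₁, hm₁⟩ := Finset.card_eq_one.mp h1
    have h2 : (fun n : N => χ' (inl n)) = c.b ω₀ m₁ := by
      funext n
      rw [hsum n, hm₁, Finset.sum_singleton]
    rw [h2]
    exact c.irr ω₀ m₁
  · right
    -- `SE` and the vectors
    have hSEiff : ∀ m', SE p id (T.t ⟨ω₀, m'⟩) θ ↔ ∀ i, us i m' = us i m₀ := by
      intro m'
      rw [← ht']
      constructor
      · intro h
        obtain ⟨δ, hδ, h1⟩ := SE_sgn h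
        obtain ⟨m'', h2, h3⟩ := tab_of T (T.t_irr ⟨ω₀, m'⟩) ω₀ m₀ hδ h1
        have h4 := T.t_inj h2
        have h5 : m'' = m' := by simpa using h4
        rw [h5] at h3
        have h6 := sgn_us hf hδ h3
        intro i
        rw [h3 i, h6, one_mul]
      · intro h
        rcases us_eq h (T.f0 ω₀) with h1 | ⟨j, j', h1, h2⟩
        · rw [h1]
          exact Or.inl fun g _ => rfl
        · rw [h1, h2]
          refine Or.inl fun g hg => ?_
          have h3 := T.sing ω₀ j g hg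
          have h4 := T.sing ω₀ j' g hg
          change T.ξ ω₀ j g = T.ξ ω₀ j' g
          linear_combination h3 - h4
    have hfil : (Finset.univ.filter fun m' => ¬ SE p id (T.t ⟨ω₀, m'⟩) θ) = Oω ω₀ := by
      ext m'
      rw [Finset.mem_filter, hSEiff, hiff]
      exact ⟨fun h => h.2, fun h => ⟨Finset.mem_univ _, h⟩⟩
    refine ⟨ω₀, m₀, ht', ?_, ?_, ?_⟩
    · rw [hfil]
      exact hcard
    · intro n
      rw [hfil]
      exact hsum n
    · intro m' hm'
      have hm : m' ∈ Oω ω₀ := (hiff m').2 fun h => hm' ((hSEiff m').2 h)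
      constructor
      · intro χ hχ hse
        obtain ⟨δ, hδ, h1⟩ := SE_sgn hse
        obtain ⟨m'', h2, h3⟩ := cor_of c hχ ω₀ m' hδ h1
        have h4 : ∀ i, us i m'' = (c.ε ω₀ m'' * δ) * us i m' := by
          intro i
          have h5 := pm_sq (c.sgn ω₀ m'')
          linear_combination c.ε ω₀ m'' * h3 i - us i m'' * h5
        have h6 := sgn_us hf (pm_mul (c.sgn ω₀ m'') hδ) h4
        have h7 := huni m' hm m'' fun i => by rw [h4 i, h6, one_mul]
        rw [← h2, h7]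
      · intro θ' hθ' hse
        obtain ⟨δ, hδ, h1⟩ := SE_sgn hse
        obtain ⟨m'', h2, h3⟩ := tab_of T hθ' ω₀ m' hδ h1
        have h6 := sgn_us hf hδ h3
        have h7 := huni m' hm m'' fun i => by rw [h3 i, h6, one_mul]
        rw [← h2, h7]

end Pool.Agent.ZH17.RD
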