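import Pool.Agent.ZH17.RD.Stm6
import Pool.Agent.ZH17.RD.Ext
import Pool.Agent.K3h18.IN.Gal
import Pool.Agent.K3h18.IN.Infl

/-!
# Piece MEQ of project RD, phase B
-/

set_option autoImplicit false
set_option linter.unusedSectionVars false
set_option linter.style.haveILetI false

open scoped BigOperators Classical

noncomputable section

namespace Pool.Agent.ZH17.RD

open Pool.Agent.Helper884 Pool.Agent.K3h3.KB Pool.Agent.K3h3.MK Pool.Agent.K3h83.IN
open Pool.Agent.K3h33.CY
open Pool.Agent.H254R3.IN (IsIrr mem_Irr)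
open Pool.Agent.K3h18.IN (irr_infl)
open IC (Irr)
open SemidirectProduct

namespace MeqP

/-! ### combinatorics -/

/-- a regular bipartite multigraph has a perfect matching -/
theorem hall {A B X Y : Type} [Finite A] [Finite B] [Finite X] [Finite Y] (f : A → X) (g : B → Y)
    (L : ℕ) (hL : 0 < L) (hf : ∀ x, Nat.card {a // f a = x} = L)
    (hg : ∀ y, Nat.card {b // g b = y} = L) (Φ : A ≃ B) :
    ∃ e : X ≃ Y, ∀ x, ∃ a, f a = x ∧ g (Φ a) = e x := by
  haveI := Fintype.ofFinite A
  haveI := Fintype.ofFinite B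
  haveI := Fintype.ofFinite X
  haveI := Fintype.ofFinite Y
  have hf' : ∀ x, (Finset.univ.filter fun a => f a = x).card = L := by
    intro x
    rw [← hf x, Nat.card_eq_fintype_card, Fintype.card_subtype]
  have hg' : ∀ y, (Finset.univ.filter fun b => g b = y).card = L := by
    intro y
    rw [← hg y, Nat.card_eq_fintype_card, Fintype.card_subtype]
  have hcA : ∀ s : Finset X, (Finset.univ.filter fun a => f a ∈ s).card = L * s.card := by
    intro s
    rw [Finset.card_eq_sum_card_fiberwise (s := Finset.univ.filter fun a => f a ∈ s) (t := s)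
      (f := f) fun a ha => by simpa using ha]
    rw [Finset.sum_congr rfl (g := fun _ => L), Finset.sum_const, smul_eq_mul, mul_comm]
    intro x hx
    rw [← hf' x, Finset.filter_filter]
    congr 1
    ext a
    simp only [Finset.mem_filter, Finset.mem_univ, true_and, and_iff_right_iff_imp]
    rintro rfl
    exact hx
  have hcB : ∀ s : Finset Y, (Finset.univ.filter fun b => g b ∈ s).card = L * s.card := by
    intro s
    rw [Finset.card_eq_sum_card_fiberwise (s := Finset.univ.filter fun a => g a ∈ s) (t := s)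
      (f := g) fun a ha => by simpa using ha]
    rw [Finset.sum_congr rfl (g := fun _ => L), Finset.sum_const, smul_eq_mul, mul_comm]
    intro x hx
    rw [← hg' x, Finset.filter_filter]
    congr 1
    ext a
    simp only [Finset.mem_filter, Finset.mem_univ, true_and, and_iff_right_iff_imp]
    rintro rfl
    exact hx
  set t : X → Finset Y := fun x => (Finset.univ.filter fun a => f a = x).image fun a => g (Φ a)
    with ht
  have hall : ∀ s : Finset X, s.card ≤ (s.biUnion t).card := by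
    intro s
    refine Nat.le_of_mul_le_mul_left ?_ hL
    rw [← hcA s, ← hcB]
    refine Finset.card_le_card_of_injOn Φ (fun a ha => ?_) Φ.injective.injOn
    have ha' := (Finset.mem_filter.1 (Finset.mem_coe.1 ha)).2
    refine Finset.mem_coe.2 (Finset.mem_filter.2 ⟨Finset.mem_univ _, ?_⟩)
    exact Finset.mem_biUnion.2 ⟨f a, ha', Finset.mem_image.2
      ⟨a, Finset.mem_filter.2 ⟨Finset.mem_univ _, rfl⟩, rfl⟩⟩
  obtain ⟨h, hinj, hh⟩ := (Finset.all_card_le_biUnion_card_iff_exists_injective t).1 hall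
  have hcard : Fintype.card X = Fintype.card Y := by
    have h1 := hcA Finset.univ
    have h2 := hcB Finset.univ
    simp only [Finset.mem_univ, Finset.filter_true, Finset.card_univ] at h1 h2
    have h3 := Fintype.card_congr Φ
    rw [h1, h2] at h3
    exact Nat.eq_of_mul_eq_mul_left hL h3
  have hbij : Function.Bijective h := (Fintype.bijective_iff_injective_and_card h).2 ⟨hinj, hcard⟩
  refine ⟨Equiv.ofBijective h hbij, fun x => ?_⟩
  obtain ⟨a, ha, ha2⟩ := Finset.mem_image.1 (hh x)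
  exact ⟨a, (Finset.mem_filter.1 ha).2, ha2⟩

/-- a bijection from the equality of the numbers of elements of the fibres -/
theorem equiv_fib {A B F : Type} [Finite A] [Finite B] (r : F → F → Prop) (hr : Equivalence r)
    (f : A → F) (g : B → F) (h : ∀ c : F, Nat.card {a // r (f a) c} = Nat.card {b // r (g b) c}) :
    ∃ Φ : A ≃ B, ∀ a, r (f a) (g (Φ a)) := by
  let s : Setoid F := ⟨r, hr⟩
  let f' : A → Quotient s := fun a => Quotient.mk s (f a)
  let g' : B → Quotient s := fun b => Quotient.mk s (g b)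
  have h1 : ∀ q : Quotient s, Nonempty ({a // f' a = q} ≃ {b // g' b = q}) := by
    intro q
    induction q using Quotient.inductionOn with
    | h c =>
      have e1 : {a // f' a = Quotient.mk s c} ≃ {a // r (f a) c} :=
        Equiv.subtypeEquivRight fun a => Quotient.eq
      have e2 : {b // g' b = Quotient.mk s c} ≃ {b // r (g b) c} :=
        Equiv.subtypeEquivRight fun b => Quotient.eq
      obtain ⟨e3⟩ := Finite.card_eq.1 (h c)
      exact ⟨e1.trans (e3.trans e2.symm)⟩
  let e : ∀ q : Quotient s, {a // f' a = q} ≃ {b // g' b = q} := fun q => Classical.choice (h1 q)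
  refine ⟨(Equiv.sigmaFiberEquiv f').symm.trans
    ((Equiv.sigmaCongrRight e).trans (Equiv.sigmaFiberEquiv g')), fun a => ?_⟩
  have h2 : g' (((e (f' a)) ⟨a, rfl⟩ : {b // g' b = f' a}) : B) = f' a := ((e (f' a)) ⟨a, rfl⟩).2
  have h3 := Quotient.exact h2
  exact hr.symm h3

/-! ### Gallagher -/

theorem triv_irr (U : Type) [Group U] [Finite U] : IsIrr fun _ : U => (1 : ℂ) := by
  haveI := Fintype.ofFinite U
  refine rc_norm ⟨ℂ, inferInstance, inferInstance, inferInstance, Representation.trivial ℂ U ℂ, ?_⟩ ?_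
  · funext u
    simp [Representation.character]
  · unfold IC.B
    rw [Finset.sum_congr rfl (g := fun _ => (1 : ℂ)) fun _ _ => mul_one 1, Finset.sum_const,
      Finset.card_univ, nsmul_eq_mul, mul_one, ← Nat.card_eq_fintype_card]
    exact inv_mul_cancel₀ IC.cardG_ne

section

variable {N U : Type} [Group N] [Finite N] [Group U] [Finite U] {φ : U →* MulAut N}

theorem fin_semi : Finite (N ⋊[φ] U) := Finite.of_equiv _ SemidirectProduct.equivProd.symm

theorem gal_mul {χ : N ⋊[φ] U → ℂ} (h : IsIrr χ) (hN : IsIrr fun n => χ (inl n)) {β : U → ℂ}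
    (hβ : IsIrr β) : IsIrr fun x => χ x * β x.right := by
  haveI : Finite (N ⋊[φ] U) := fin_semi
  haveI := Fintype.ofFinite N
  haveI := Fintype.ofFinite U
  haveI := Fintype.ofFinite (N ⋊[φ] U)
  obtain ⟨V, _, _, _, ρ, _, rfl⟩ := h
  exact Pool.Agent.K3h18.IN.prod_irr (inl : N →* N ⋊[φ] U) rightHom rightHom_surjective
    (fun l => by simp) ρ hN hβ

theorem gal_inj {χ : N ⋊[φ] U → ℂ} (h : IsIrr χ) (hN : IsIrr fun n => χ (inl n)) {β β' : U → ℂ}
    (hβ : IsIrr β) (hβ' : IsIrr β')
    (he : (fun x => χ x * β x.right) = fun x => χ x * β' x.right) : β = β' := by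
  haveI : Finite (N ⋊[φ] U) := fin_semi
  haveI := Fintype.ofFinite N
  haveI := Fintype.ofFinite U
  haveI := Fintype.ofFinite (N ⋊[φ] U)
  obtain ⟨V, _, _, _, ρ, _, rfl⟩ := h
  exact Pool.Agent.K3h18.IN.prod_inj (inl : N →* N ⋊[φ] U) rightHom rightHom_surjective
    (fun l => by simp) ρ hN hβ hβ' he

theorem gal_ex {χ χ₁ : N ⋊[φ] U → ℂ} (h : IsIrr χ) (hN : IsIrr fun n => χ (inl n))
    (h₁ : IsIrr χ₁) (he : ∀ n, χ₁ (inl n) = χ (inl n)) :
    ∃ β : U → ℂ, IsIrr β ∧ β 1 = 1 ∧ χ₁ = fun x => χ x * β x.right := by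
  haveI : Finite (N ⋊[φ] U) := fin_semi
  haveI := Fintype.ofFinite N
  haveI := Fintype.ofFinite U
  haveI := Fintype.ofFinite (N ⋊[φ] U)
  obtain ⟨V, _, _, _, ρ, _, rfl⟩ := h
  obtain ⟨β, hβ, hβ1⟩ := Pool.Agent.K3h18.IN.exists_prod (inl : N →* N ⋊[φ] U) inl_injective
    rightHom rightHom_surjective (range_inl_eq_ker_rightHom).symm ρ hN h₁ (by
      rw [funext he, IC.B_irr hN hN, if_pos rfl]
      exact one_ne_zero)
  refine ⟨β, hβ, ?_, hβ1⟩
  have h1 := he 1
  rw [hβ1] at h1
  simp only [map_one] at h1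
  have h2 : ρ.character (1 : N ⋊[φ] U) ≠ 0 := by
    have h3 := ExtP.deg_ne hN
    simpa using h3
  exact mul_left_cancel₀ h2 (h1.trans (mul_one _).symm)

/-- the number of extensions -/
theorem card_ext {χ₀ : N ⋊[φ] U → ℂ} (h : IsIrr χ₀) (hN : IsIrr fun n => χ₀ (inl n)) :
    Nat.card {χ : N ⋊[φ] U → ℂ // IsIrr χ ∧ ∀ n, χ (inl n) = χ₀ (inl n)} =
      Nat.card {β : U → ℂ // IsIrr β ∧ β 1 = 1} := by
  symm
  refine Nat.card_eq_of_bijective (fun β => ⟨fun x => χ₀ x * β.1 x.right,
    gal_mul h hN β.2.1, fun n => ?_⟩) ⟨fun β β' hb => ?_, fun χ => ?_⟩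
  · show χ₀ (inl n) * β.1 (inl n : N ⋊[φ] U).right = _
    rw [right_inl, β.2.2, mul_one]
  · exact Subtype.ext (gal_inj h hN β.2.1 β'.2.1 (congrArg Subtype.val hb))
  · obtain ⟨β, h1, h2, h3⟩ := gal_ex h hN χ.2.1 χ.2.2
    exact ⟨⟨β, h1, h2⟩, Subtype.ext h3.symm⟩

end

/-! ### irreducible characters do not vanish at the singular elements -/

theorem exists_sing {p : ℕ} [hp : Fact p.Prime] {B : Type} [Group B] [Finite B]
    {Q P H : Subgroup B} (hL : LC p Q P H) {θ : B → ℂ} (h : IsIrr θ) :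
    ∃ b, p ∣ orderOf b ∧ θ b ≠ 0 := by
  haveI := Fintype.ofFinite B
  haveI := Fintype.ofFinite Q
  by_contra hcon
  push Not at hcon
  have hd := ExtP.deg_ne h
  have h1 : ∑ c : Q, θ c = θ 1 := by
    rw [Finset.sum_eq_single 1]
    · rfl
    · intro c _ hc
      apply hcon
      have h3 : orderOf c ∣ p := by
        rw [← hL.cQ]
        exact orderOf_dvd_natCard c
      have h4 : orderOf c ≠ 1 := by rwa [Ne, orderOf_eq_one_iff]
      rw [Subgroup.orderOf_coe, ((Nat.dvd_prime hp.out).1 h3).resolve_left h4]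
    · intro h
      exact absurd (Finset.mem_univ _) h
  rcases sum_Q Q hL.nQ h with h2 | h2
  · rw [h1] at h2
    exact hd h2
  · rw [h1, hL.cQ] at h2
    have h3 : ((p : ℂ) - 1) * θ 1 = 0 := by linear_combination -h2
    rcases mul_eq_zero.1 h3 with h4 | h4
    · have h5 : (p : ℂ) = 1 := by linear_combination h4
      exact hp.out.one_lt.ne' (by exact_mod_cast h5)
    · exact hd h4

/-! ### the relation of equality up to sign -/

theorem se_refl {p : ℕ} {B : Type} [Group B] (F : B → ℂ) : SE p id F F := Or.inl fun _ _ => rfl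

theorem se_symm {p : ℕ} {B : Type} [Group B] {F F' : B → ℂ} (h : SE p id F F') : SE p id F' F := by
  rcases h with h | h
  · exact Or.inl fun g hg => (h g hg).symm
  · refine Or.inr fun g hg => ?_
    have := h g hg
    simp only [id] at this ⊢
    rw [this, neg_neg]

theorem se_trans {p : ℕ} {B X : Type} [Group B] {ι : B → X} {χ : X → ℂ} {F F' : B → ℂ}
    (h : SE p ι χ F) (h' : SE p id F F') : SE p ι χ F' := by
  rcases h with h | h <;> rcases h' with h' | h'
  · exact Or.inl fun g hg => (h g hg).trans (h' g hg)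
  · exact Or.inr fun g hg => (h g hg).trans (h' g hg)
  · refine Or.inr fun g hg => (h g hg).trans ?_
    rw [← h' g hg]
    rfl
  · refine Or.inl fun g hg => (h g hg).trans ?_
    have := h' g hg
    simp only [id] at this
    rw [this, neg_neg]

theorem se_id {p : ℕ} {B X : Type} [Group B] {ι : B → X} {χ : X → ℂ} {F : B → ℂ} :
    SE p ι χ F ↔ SE p id (fun b => χ (ι b)) F := Iff.rfl

theorem se_mul {p : ℕ} {B X : Type} [Group B] {ι : B → X} {χ β : X → ℂ} {F β' : B → ℂ}
    (h : SE p ι χ F) (hβ : ∀ g, β (ι g) = β' g) :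
    SE p ι (fun x => χ x * β x) fun b => F b * β' b := by
  rcases h with h | h
  · exact Or.inl fun g hg => by
      show χ (ι g) * β (ι g) = F g * β' g
      rw [h g hg, hβ]
  · exact Or.inr fun g hg => by
      show χ (ι g) * β (ι g) = -(F g * β' g)
      rw [h g hg, hβ]
      ring

theorem se_ne {p : ℕ} {B X : Type} [Group B] {ι : B → X} {χ : X → ℂ} {F : B → ℂ}
    (h : SE p ι χ F) {g : B} (hg : p ∣ orderOf g) : χ (ι g) ≠ 0 ↔ F g ≠ 0 := by
  rcases h with h | h
  · rw [h g hg]
  · rw [h g hg, neg_ne_zero]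

/-! ### the fibre product -/

section

variable {p : ℕ} {B N A U U' : Type} [Group B] [Group N] [Group A] [Group U] [Group U']
  (D : Dat p B N A) (π : U →* A) (φ : U' →* U)

/-- the map on `N ⋊ U'` -/
def nMap : NU D (π.comp φ) →* NU D π :=
  SemidirectProduct.map (MonoidHom.id N) φ fun _ => rfl

/-- the map on `B ⋊ U'` -/
def bMap : BU D (π.comp φ) →* BU D π :=
  SemidirectProduct.map (MonoidHom.id B) φ fun _ => rfl

theorem nMap_surj (h : Function.Surjective φ) : Function.Surjective (nMap D π φ) := by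
  intro x
  obtain ⟨u, hu⟩ := h x.right
  refine ⟨⟨x.left, u⟩, ?_⟩
  apply SemidirectProduct.ext
  · rfl
  · exact hu

theorem bMap_surj (h : Function.Surjective φ) : Function.Surjective (bMap D π φ) := by
  intro x
  obtain ⟨u, hu⟩ := h x.right
  refine ⟨⟨x.left, u⟩, ?_⟩
  apply SemidirectProduct.ext
  · rfl
  · exact hu

theorem nMap_kU (g : BU D (π.comp φ)) : nMap D π φ (kU D (π.comp φ) g) = kU D π (bMap D π φ g) :=
  SemidirectProduct.ext rfl rfl

theorem bMap_sing [hp : Fact p.Prime] [Finite U'] (hU : ¬ p ∣ Nat.card U')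
    (g : BU D (π.comp φ)) (hg : p ∣ orderOf g) : p ∣ orderOf (bMap D π φ g) := by
  by_contra hcon
  have h1 : bMap D π φ (g ^ orderOf (bMap D π φ g)) = 1 := by
    rw [map_pow, pow_orderOf_eq_one]
  have h2 : g ^ orderOf (bMap D π φ g) = inr (g ^ orderOf (bMap D π φ g)).right := by
    apply SemidirectProduct.ext
    · have h1' := congrArg SemidirectProduct.left h1
      exact h1'
    · rfl
  have h3 : (g ^ orderOf (bMap D π φ g)) ^ Nat.card U' = 1 := by
    rw [h2, ← map_pow, pow_card_eq_one', map_one]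
  rw [← pow_mul] at h3
  have h4 := hg.trans (orderOf_dvd_of_pow_eq_one h3)
  rcases hp.out.dvd_mul.1 h4 with h5 | h5
  · exact hcon h5
  · exact hU h5

/-- lifting of matched extensions -/
theorem lift [hp : Fact p.Prime] [Finite U'] (hU : ¬ p ∣ Nat.card U') {χ : NU D π → ℂ} {θ : BU D π → ℂ} (hs : SE p (kU D π) χ θ) :
    SE p (kU D (π.comp φ)) (fun x => χ (nMap D π φ x)) fun x => θ (bMap D π φ x) := by
  rcases hs with hs | hs
  · refine Or.inl fun g hg => ?_
    simp only
    rw [nMap_kU]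
    exact hs _ (bMap_sing D π φ hU g hg)
  · refine Or.inr fun g hg => ?_
    simp only
    rw [nMap_kU]
    exact hs _ (bMap_sing D π φ hU g hg)

/-- lifting, with the map to `A` given -/
theorem lift' [hp : Fact p.Prime] [Finite U'] (hU : ¬ p ∣ Nat.card U')
    (hφ : Function.Surjective φ) {π' : U' →* A} (h : π.comp φ = π') {χ : NU D π → ℂ}
    {θ : BU D π → ℂ} (hχ : IsIrr χ) (hθ : IsIrr θ) (hs : SE p (kU D π) χ θ) :
    ∃ (χ' : NU D π' → ℂ) (θ' : BU D π' → ℂ), IsIrr χ' ∧ IsIrr θ' ∧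
      (∀ n : N, χ' (inl n) = χ (inl n)) ∧ (∀ b : B, θ' (inl b) = θ (inl b)) ∧
      SE p (kU D π') χ' θ' := by
  subst h
  refine ⟨fun x => χ (nMap D π φ x), fun x => θ (bMap D π φ x),
    irr_infl _ (nMap_surj D π φ hφ) hχ, irr_infl _ (bMap_surj D π φ hφ) hθ, fun n => ?_, fun b => ?_,
    lift D π φ hU hs⟩
  · simp only
    congr 1
    exact SemidirectProduct.ext rfl (map_one φ)
  · simp only
    congr 1
    exact SemidirectProduct.ext rfl (map_one φ)

end

/-- fibre products -/
theorem fibre {p : ℕ} (hp : p.Prime) {A U V : Type} [Group A] [Group U] [Finite U] [Group V]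
    [Finite V] (π : U →* A) (π' : V →* A) (hr : π.range = π'.range) (hU : ¬ p ∣ Nat.card U)
    (hV : ¬ p ∣ Nat.card V) :
    ∃ (S : Type) (_ : Group S) (_ : Finite S) (φ : S →* U) (φ' : S →* V), ¬ p ∣ Nat.card S ∧
      Function.Surjective φ ∧ Function.Surjective φ' ∧ π.comp φ = π'.comp φ' := by
  let S : Subgroup (U × V) :=
    (π.comp (MonoidHom.fst U V)).eqLocus (π'.comp (MonoidHom.snd U V))
  have hS : ∀ x : U × V, x ∈ S ↔ π x.1 = π' x.2 := fun x => Iff.rfl
  refine ⟨S, inferInstance, inferInstance, (MonoidHom.fst U V).comp S.subtype,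
    (MonoidHom.snd U V).comp S.subtype, ?_, ?_, ?_, ?_⟩
  · intro h
    have h1 := h.trans (Subgroup.card_subgroup_dvd_card S)
    rw [Nat.card_prod] at h1
    rcases hp.dvd_mul.1 h1 with h2 | h2
    · exact hU h2
    · exact hV h2
  · intro u
    obtain ⟨v, hv⟩ : π u ∈ π'.range := by
      rw [← hr]
      exact ⟨u, rfl⟩
    exact ⟨⟨(u, v), (hS _).2 hv.symm⟩, rfl⟩
  · intro v
    obtain ⟨u, hu⟩ : π' v ∈ π.range := by
      rw [hr]
      exact ⟨v, rfl⟩
    exact ⟨⟨(u, v), (hS _).2 hu⟩, rfl⟩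
  · ext x
    exact (hS _).1 x.2

theorem fin_irr {G : Type} [Group G] [Finite G] {P : (G → ℂ) → Prop} (h : ∀ χ, P χ → IsIrr χ) :
    Finite {χ : G → ℂ // P χ} := by
  haveI := Fintype.ofFinite G
  have h1 : ({χ : G → ℂ | P χ} : Set (G → ℂ)).Finite :=
    (Irr G).finite_toSet.subset fun χ hχ => Finset.mem_coe.2 (mem_Irr.2 (h χ hχ))
  exact h1.to_subtype

/-- restrictions are invariant -/
theorem res_inv {M A U : Type} [Group M] [Group A] [Group U] (α : A →* MulAut M) (π : U →* A)
    {W : Subgroup A} (hr : π.range = W) {χ : M ⋊[α.comp π] U → ℂ} (h : IsIrr χ) (w : A)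
    (hw : w ∈ W) (n : M) : χ (inl (α w n)) = χ (inl n) := by
  rw [← hr] at hw
  obtain ⟨u, rfl⟩ := hw
  have h1 : (inl (α (π u) n) : M ⋊[α.comp π] U) = inr u * inl n * (inr u)⁻¹ := by
    rw [← map_inv]
    exact SemidirectProduct.inl_aut u n
  rw [h1]
  exact rc_class (rc_irr h) _ _

theorem ord_inl {M U : Type} [Group M] [Group U] {φ : U →* MulAut M} (b : M) :
    orderOf (inl b : M ⋊[φ] U) = orderOf b :=
  orderOf_injective (inl : M →* M ⋊[φ] U) inl_injective b

end MeqP

open MeqP in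
/-- **MEQ** -/
theorem meq (hCLI : CLI) (hUNI : UNI) : MEQ := by
  intro p hp B N A _ _ _ _ _ _ D W hW
  refine ⟨?_, ?_⟩
  · obtain ⟨U, _, _, π, hU, hr, hXe, hYe⟩ := hUNI p B N A D W hW
    haveI : Finite (NU D π) := fin_semi
    haveI : Finite (BU D π) := fin_semi
    let CX : Type := {χ' : NU D π → ℂ // IsIrr χ' ∧ IsIrr (fun n : N => χ' (inl n)) ∧
      ∃ b : B, p ∣ orderOf b ∧ χ' (inl (D.k b)) ≠ 0}
    let CY : Type := {θ' : BU D π → ℂ // IsIrr θ' ∧ IsIrr (fun b : B => θ' (inl b))}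
    haveI : Finite CX := fin_irr fun χ h => h.1
    haveI : Finite CY := fin_irr fun χ h => h.1
    haveI : Finite (Xs D) := fin_irr fun χ h => h.1
    haveI : Finite (Ys D) := fin_irr fun χ h => h
    let f : CX → {χ : Xs D // ∀ w ∈ W, ∀ n, χ.1 (D.α w n) = χ.1 n} := fun a =>
      ⟨⟨fun n => a.1 (inl n), a.2.2.1, a.2.2.2⟩, fun w hw n => res_inv D.α π hr a.2.1 w hw n⟩
    let g : CY → {θ : Ys D // ∀ w ∈ W, ∀ b, θ.1 (D.β w b) = θ.1 b} := fun a =>
      ⟨⟨fun n => a.1 (inl n), a.2.2⟩, fun w hw n => res_inv D.β π hr a.2.1 w hw n⟩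
    have hf : ∀ x, Nat.card {a // f a = x} = Nat.card {β : U → ℂ // IsIrr β ∧ β 1 = 1} := by
      intro x
      obtain ⟨χ₀, h0, h0'⟩ := hXe x.1.1 x.1.2.1 x.2
      have hN : IsIrr fun n : N => χ₀ (inl n) := by
        rw [funext h0']
        exact x.1.2.1
      rw [← card_ext h0 hN]
      refine Nat.card_eq_of_bijective (fun a => ⟨a.1.1, a.1.2.1, fun n => ?_⟩)
        ⟨fun a a' haa => ?_, fun χ => ?_⟩
      · rw [h0']
        exact congrFun (congrArg (fun y => y.1.1) a.2) n
      · exact Subtype.ext (Subtype.ext (by have h9 := congrArg Subtype.val haa; exact h9))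
      · have h1 : (fun n : N => χ.1 (inl n)) = x.1.1 := by
          funext n
          rw [χ.2.2, h0']
        refine ⟨⟨⟨χ.1, χ.2.1, ?_, ?_⟩, ?_⟩, rfl⟩
        · rw [h1]
          exact x.1.2.1
        · obtain ⟨b, hb, hb'⟩ := x.1.2.2
          refine ⟨b, hb, ?_⟩
          rw [← h1] at hb'
          exact hb'
        · exact Subtype.ext (Subtype.ext h1)
    have hg : ∀ x, Nat.card {a // g a = x} = Nat.card {β : U → ℂ // IsIrr β ∧ β 1 = 1} := by
      intro x
      obtain ⟨χ₀, h0, h0'⟩ := hYe x.1.1 x.1.2 x.2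
      have hN : IsIrr fun n : B => χ₀ (inl n) := by
        rw [funext h0']
        exact x.1.2
      rw [← card_ext h0 hN]
      refine Nat.card_eq_of_bijective (fun a => ⟨a.1.1, a.1.2.1, fun n => ?_⟩)
        ⟨fun a a' haa => ?_, fun χ => ?_⟩
      · rw [h0']
        exact congrFun (congrArg (fun y => y.1.1) a.2) n
      · exact Subtype.ext (Subtype.ext (by have h9 := congrArg Subtype.val haa; exact h9))
      · have h1 : (fun n : B => χ.1 (inl n)) = x.1.1 := by
          funext n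
          rw [χ.2.2, h0']
        refine ⟨⟨⟨χ.1, χ.2.1, ?_⟩, ?_⟩, rfl⟩
        · rw [h1]
          exact x.1.2
        · exact Subtype.ext (Subtype.ext h1)
    have hL : 0 < Nat.card {β : U → ℂ // IsIrr β ∧ β 1 = 1} := by
      haveI : Finite {β : U → ℂ // IsIrr β ∧ β 1 = 1} := fin_irr fun χ h => h.1
      haveI : Nonempty {β : U → ℂ // IsIrr β ∧ β 1 = 1} := ⟨⟨fun _ => 1, triv_irr U, rfl⟩⟩
      exact Nat.card_pos
    obtain ⟨Φ, hΦ⟩ := equiv_fib (A := CX) (B := CY) (fun F F' : BU D π → ℂ => SE p id F F')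
      ⟨fun F => se_refl F, fun h => se_symm h, fun h h' => se_trans h h'⟩
      (fun a => fun g => a.1 (kU D π g)) (fun b => b.1) (by
        intro c
        by_cases hc : ∃ g, p ∣ orderOf g ∧ c g ≠ 0
        · have h1 := hCLI p B N A U D π hU c hc
          have hYc : Nat.card {b : CY // SE p id b.1 c} =
              Nat.card {θ' : BU D π → ℂ // IsIrr θ' ∧ IsIrr (fun b : B => θ' (inl b)) ∧
                SE p id θ' c} := by
            refine Nat.card_eq_of_bijective (fun b => ⟨b.1.1, b.1.2.1, b.1.2.2, b.2⟩)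
              ⟨fun a a' haa => ?_, fun θ' => ?_⟩
            · exact Subtype.ext (Subtype.ext (by have h9 := congrArg Subtype.val haa; exact h9))
            · exact ⟨⟨⟨θ'.1, θ'.2.1, θ'.2.2.1⟩, θ'.2.2.2⟩, rfl⟩
          have hXc : Nat.card {a : CX // SE p id (fun g => a.1 (kU D π g)) c} =
              Nat.card {χ' : NU D π → ℂ // IsIrr χ' ∧ IsIrr (fun n : N => χ' (inl n)) ∧
                SE p (kU D π) χ' c} := by
            refine Nat.card_eq_of_bijective (fun b => ⟨b.1.1, b.1.2.1, b.1.2.2.1, b.2⟩)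
              ⟨fun a a' haa => ?_, fun χ' => ?_⟩
            · exact Subtype.ext (Subtype.ext (by have h9 := congrArg Subtype.val haa; exact h9))
            · refine ⟨⟨⟨χ'.1, χ'.2.1, χ'.2.2.1, ?_⟩, χ'.2.2.2⟩, rfl⟩
              haveI : Finite {χ' : NU D π → ℂ // IsIrr χ' ∧ IsIrr (fun n : N => χ' (inl n)) ∧
                SE p (kU D π) χ' c} := fin_irr fun χ h => h.1
              haveI : Nonempty {χ' : NU D π → ℂ // IsIrr χ' ∧ IsIrr (fun n : N => χ' (inl n)) ∧
                SE p (kU D π) χ' c} := ⟨χ'⟩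
              have h2 : 0 < Nat.card {θ' : BU D π → ℂ // IsIrr θ' ∧
                  IsIrr (fun b : B => θ' (inl b)) ∧ SE p id θ' c} := by
                rw [← h1]
                exact Nat.card_pos
              obtain ⟨θ', ht1, ht2, ht3⟩ := (Nat.card_pos_iff.1 h2).1
              obtain ⟨b, hb, hb'⟩ := exists_sing D.lc ht2
              have hb2 : p ∣ orderOf (inl b : BU D π) := by rwa [ord_inl]
              refine ⟨b, hb, ?_⟩
              have h3 : χ'.1 (kU D π (inl b)) ≠ 0 :=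
                (se_ne χ'.2.2.2 hb2).2 ((se_ne ht3 hb2).1 hb')
              rwa [kU_inl] at h3
          exact hXc.trans (h1.trans hYc.symm)
        · push Not at hc
          haveI : IsEmpty {b : CY // SE p id b.1 c} := by
            refine ⟨fun θ' => ?_⟩
            obtain ⟨b, hb, hb'⟩ := exists_sing D.lc θ'.1.2.2
            have hb2 : p ∣ orderOf (inl b : BU D π) := by rwa [ord_inl]
            exact (se_ne θ'.2 hb2).1 hb' (hc _ hb2)
          haveI : IsEmpty {a : CX // SE p id (fun g => a.1 (kU D π g)) c} := by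
            refine ⟨fun χ' => ?_⟩
            obtain ⟨b, hb, hb'⟩ := χ'.1.2.2.2
            have hb2 : p ∣ orderOf (inl b : BU D π) := by rwa [ord_inl]
            rw [← kU_inl D π b] at hb'
            exact (se_ne χ'.2 hb2).1 hb' (hc _ hb2)
          exact Nat.card_of_isEmpty.trans Nat.card_of_isEmpty.symm)
    obtain ⟨e, he⟩ := hall f g _ hL hf hg Φ
    refine ⟨e, fun χ => ?_⟩
    obtain ⟨a, h1, h2⟩ := he χ
    refine ⟨U, inferInstance, inferInstance, π, hU, hr, a.1, (Φ a).1, a.2.1, (Φ a).2.1,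
      fun n => ?_, fun b => ?_, hΦ a⟩
    · exact congrFun (congrArg (fun y => y.1.1) h1) n
    · exact congrFun (congrArg (fun y => y.1.1) h2) b
  · intro χ χ₁ θ θ₁ hA hB hC
    obtain ⟨U₁, _, _, π₁, hU₁, hr₁, X₁, T₁, a1, a2, a3, a4, a5⟩ := hA
    obtain ⟨U₂, _, _, π₂, hU₂, hr₂, X₂, T₂, b1, b2, b3, b4, b5⟩ := hB
    obtain ⟨U₃, _, _, π₃, hU₃, hr₃, X₃, T₃, c1, c2, c3, c4, c5⟩ := hC
    obtain ⟨S, _, _, φ, φ', hS, hφ, hφ', hSS⟩ := fibre hp.out π₁ π₂ (by rw [hr₁, hr₂]) hU₁ hU₂
    have hrS : (π₁.comp φ).range = W := by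
      rw [MonoidHom.range_comp, MonoidHom.range_eq_top.2 hφ, ← MonoidHom.range_eq_map, hr₁]
    obtain ⟨S', _, _, ψ, ψ', hS', hψ, hψ', hSS'⟩ := fibre hp.out (π₁.comp φ) π₃
      (by rw [hrS, hr₃]) hS hU₃
    have hrS' : ((π₁.comp φ).comp ψ).range = W := by
      rw [MonoidHom.range_comp, MonoidHom.range_eq_top.2 hψ, ← MonoidHom.range_eq_map, hrS]
    obtain ⟨X₁', T₁', a1', a2', a3', a4', a5'⟩ := lift' D π₁ (φ.comp ψ) hS' (hφ.comp hψ)
      (π' := (π₁.comp φ).comp ψ) rfl a1 a2 a5
    obtain ⟨X₂', T₂', b1', b2', b3', b4', b5'⟩ := lift' D π₂ (φ'.comp ψ) hS' (hφ'.comp hψ)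
      (π' := (π₁.comp φ).comp ψ) (by rw [hSS]; rfl) b1 b2 b5
    obtain ⟨X₃', T₃', c1', c2', c3', c4', c5'⟩ := lift' D π₃ ψ' hS' hψ'
      (π' := (π₁.comp φ).comp ψ) hSS'.symm c1 c2 c5
    have hTB : IsIrr fun b : B => T₁' (inl b) := by
      rw [funext fun b => (a4' b).trans (a4 b)]
      exact θ.2
    have hXN : IsIrr fun n : N => X₂' (inl n) := by
      rw [funext fun b => (b3' b).trans (b3 b)]
      exact χ₁.2.1
    have hX1 : IsIrr fun n : N => X₁' (inl n) := by
      rw [funext fun b => (a3' b).trans (a3 b)]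
      exact χ.2.1
    obtain ⟨β, hβ, hβ1, hβ2⟩ := gal_ex a2' hTB b2' fun b => by rw [b4', b4, a4', a4]
    obtain ⟨γ, hγ, hγ1, hγ2⟩ := gal_ex b1' hXN c1' fun n => by rw [c3', c3, b3', b3]
    have hXβ : IsIrr fun x => X₁' x * β x.right := gal_mul a1' hX1 hβ
    have hXβN : IsIrr fun n : N => (fun x : NU D ((π₁.comp φ).comp ψ) => X₁' x * β x.right) (inl n) := by
      have : (fun n : N => (fun x : NU D ((π₁.comp φ).comp ψ) => X₁' x * β x.right) (inl n)) =
          fun n : N => X₁' (inl n) := by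
        funext n
        simp only [right_inl, hβ1, mul_one]
      rw [this]
      exact hX1
    refine ⟨S', inferInstance, inferInstance, (π₁.comp φ).comp ψ, hS', hrS',
      fun x => (fun x => X₁' x * β x.right) x * γ x.right, T₃', gal_mul hXβ hXβN hγ, c2',
      fun n => ?_, fun b => (c4' b).trans (c4 b), ?_⟩
    · simp only [right_inl, hβ1, hγ1, mul_one]
      rw [a3', a3]
    · have s1 : SE p (kU D ((π₁.comp φ).comp ψ)) (fun x => X₁' x * β x.right) T₂' := by
        rw [hβ2]
        exact se_mul (β := fun x => β x.right) a5' fun g => rfl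
      have s2 : SE p (kU D ((π₁.comp φ).comp ψ))
          (fun x => (fun x => X₁' x * β x.right) x * γ x.right) fun b => T₂' b * γ b.right :=
        se_mul (β := fun x => γ x.right) s1 fun g => rfl
      have s3 : SE p (kU D ((π₁.comp φ).comp ψ)) X₃' fun b => T₂' b * γ b.right := by
        rw [hγ2]
        exact se_mul (β := fun x => γ x.right) b5' fun g => rfl
      exact se_trans s2 (se_trans (se_symm (se_id.1 s3)) (se_id.1 c5'))

end Pool.Agent.ZH17.RD
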