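import Pool.Agent.ZH17.RD.CnyB

/-!
# Piece CNY: characters fixed by a `p`-automorphism in the cyclic case
-/

set_option autoImplicit false
set_option linter.unusedSectionVars false
set_option linter.style.haveILetI false

open scoped BigOperators Classical

noncomputable section

namespace Pool.Agent.ZH17.RD

open Pool.Agent.Helper884 Pool.Agent.K3h3.KB Pool.Agent.K3h3.MK Pool.Agent.K3h83.IN
open Pool.Agent.K3h33.CY
open Pool.Agent.H254R3.IN (IsIrr mem_Irr)
open Pool.Agent.K3h18.IN (irr_infl)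
open IC (Irr)

section

variable {p : ℕ} [hp : Fact p.Prime] {B X Ω : Type} [Group B] [Fintype B] [Group X] [Fintype X]
  [Fintype Ω] {e f : Ω → ℕ} {ι : B →* X} {T : Tab p B Ω e f}

/-- the scalar products depend only on the singular elements -/
theorem B_sing (T : Tab p B Ω e f) {F F' : B → ℂ} (h : ∀ g, p ∣ orderOf g → F g = F' g) (ω : Ω)
    (i : Fin (f ω)) : IC.B F (T.β ω i) = IC.B F' (T.β ω i) := by
  unfold IC.B
  congr 1
  refine Finset.sum_congr rfl fun g _ => ?_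
  by_cases hg : p ∣ orderOf g
  · rw [h g hg]
  · rw [T.β_reg ω i g⁻¹ (by rwa [orderOf_inv]), mul_zero, mul_zero]

/-- the scalar products -/
def us {e f : ℕ} (i : Fin f) : Fin e ⊕ Fin f → ℤ
  | Sum.inl _ => -1
  | Sum.inr k => if i = k then 1 else 0

theorem B_us (T : Tab p B Ω e f) (ω : Ω) (m : Fin (e ω) ⊕ Fin (f ω)) (i : Fin (f ω)) :
    IC.B (T.t ⟨ω, m⟩) (T.β ω i) = (us i m : ℂ) := by
  rcases m with j | k
  · rw [show T.t ⟨ω, Sum.inl j⟩ = T.ξ ω j from rfl, T.B_inl]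
    change _ = ((-1 : ℤ) : ℂ)
    push_cast
    rfl
  · rw [show T.t ⟨ω, Sum.inr k⟩ = T.ψ ω k from rfl, T.B_inr]
    change _ = (((if i = k then 1 else 0 : ℤ)) : ℂ)
    push_cast
    rfl

theorem us_ne {e f : ℕ} (hf : 0 < f) (m : Fin e ⊕ Fin f) : ∃ i, us i m ≠ 0 := by
  rcases m with j | k
  · exact ⟨⟨0, hf⟩, by change (-1 : ℤ) ≠ 0; norm_num⟩
  · refine ⟨k, ?_⟩
    change (if k = k then (1 : ℤ) else 0) ≠ 0
    rw [if_pos rfl]
    norm_num

theorem eps_ne (c : Cor p ι T) (ω : Ω) (m : Fin (e ω) ⊕ Fin (f ω)) : (c.ε ω m : ℂ) ≠ 0 := by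
  rcases c.sgn ω m with h | h <;> rw [h] <;> norm_num

/-- the characters which agree with a given one on the singular elements -/
theorem same_sing (c : Cor p ι T) (ω : Ω) (m : Fin (e ω) ⊕ Fin (f ω)) {χ : X → ℂ} (hχ : IsIrr χ)
    (h : ∀ g : B, p ∣ orderOf g → χ (ι g) = c.b ω m (ι g)) :
    ∃ m', c.b ω m' = χ ∧ ∀ i, c.ε ω m' * us i m' = c.ε ω m * us i m := by
  have h1 : ∀ i, IC.B (fun g => χ (ι g)) (T.β ω i) = (c.ε ω m : ℂ) * us i m := by
    intro i
    rw [B_sing T (F' := (c.ε ω m : ℂ) • T.t ⟨ω, m⟩) (fun g hg => ?_) ω i, IC.B_smul_left, B_us]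
    rw [h g hg, c.sin ω m g hg]
    rfl
  rcases c.oth χ hχ with ⟨ω', m', rfl⟩ | ⟨h2, -⟩
  · have h3 : ∀ i, IC.B (fun g => c.b ω' m' (ι g)) (T.β ω i) =
        (c.ε ω' m' : ℂ) * IC.B (T.t ⟨ω', m'⟩) (T.β ω i) := by
      intro i
      rw [B_sing T (F' := (c.ε ω' m' : ℂ) • T.t ⟨ω', m'⟩) (fun g hg => ?_) ω i, IC.B_smul_left]
      rw [c.sin ω' m' g hg]
      rfl
    by_cases hω : ω' = ω
    · subst hω
      refine ⟨m', rfl, fun i => ?_⟩
      have h4 := h1 i
      rw [h3 i, B_us] at h4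
      exact_mod_cast h4
    · exfalso
      obtain ⟨i, hi⟩ := us_ne (T.f0 ω) m
      have h4 := h1 i
      rw [h3 i, T.B_ne (m := ⟨ω', m'⟩) hω i, mul_zero] at h4
      have h5 : (us i m : ℂ) ≠ 0 := by exact_mod_cast hi
      exact mul_ne_zero (eps_ne c ω m) h5 h4.symm
  · exfalso
    obtain ⟨i, hi⟩ := us_ne (T.f0 ω) m
    have h4 := h1 i
    rw [B_sing T (F' := 0) (fun g hg => h2 g hg) ω i] at h4
    have h6 : IC.B (0 : B → ℂ) (T.β ω i) = 0 := by
      unfold IC.B
      simp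
    rw [h6] at h4
    have h5 : (us i m : ℂ) ≠ 0 := by exact_mod_cast hi
    exact mul_ne_zero (eps_ne c ω m) h5 h4.symm

/-- there are less than `p` such characters -/
theorem card_same (c : Cor p ι T) (Q : Subgroup B) (hQ : Q.Normal) (hcQ : Nat.card Q = p) (ω : Ω)
    (m : Fin (e ω) ⊕ Fin (f ω)) :
    ((Irr X).filter fun χ => ∀ g : B, p ∣ orderOf g → χ (ι g) = c.b ω m (ι g)).card < p := by
  have hep := e_lt T Q hQ hcQ ω
  let W : Finset (Fin (e ω) ⊕ Fin (f ω)) := Finset.univ.filter fun m' =>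
    ∀ i, c.ε ω m' * us i m' = c.ε ω m * us i m
  have h1 : ((Irr X).filter fun χ => ∀ g : B, p ∣ orderOf g → χ (ι g) = c.b ω m (ι g)) ⊆
      W.image (c.b ω) := by
    intro χ hχ
    rw [Finset.mem_filter] at hχ
    obtain ⟨m', h2, h3⟩ := same_sing c ω m (mem_Irr.mp hχ.1) hχ.2
    exact Finset.mem_image.2 ⟨m', Finset.mem_filter.2 ⟨Finset.mem_univ _, h3⟩, h2⟩
  refine lt_of_le_of_lt (Finset.card_le_card h1) (lt_of_le_of_lt Finset.card_image_le ?_)
  refine lt_of_le_of_lt ?_ hep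
  by_cases hr : ∃ k, Sum.inr k ∈ W
  · obtain ⟨k, hk⟩ := hr
    have hk' := (Finset.mem_filter.1 hk).2
    have hpos : ∀ m, 0 < ndeg (c.b ω m) := fun m => ndeg_pos (c.irr ω m)
    have hcast : ∀ m, c.b ω m 1 = (ndeg (c.b ω m) : ℂ) := fun m => (ndeg_cast (c.irr ω m)).symm
    -- some `inl j₀` has the other sign
    obtain ⟨j₀, hj₀⟩ : ∃ j₀, c.ε ω (Sum.inl j₀) = c.ε ω (Sum.inr k) := by
      by_contra hcon
      push Not at hcon
      have h2 : ∀ j, c.ε ω (Sum.inl j) = - c.ε ω (Sum.inr k) := by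
        intro j
        have := hcon j
        rcases c.sgn ω (Sum.inl j) with h3 | h3 <;> rcases c.sgn ω (Sum.inr k) with h4 | h4 <;>
          rw [h3, h4] at this ⊢ <;> first | rfl | (exact absurd rfl this) | norm_num
      have h3 := c.rel ω k
      have h4 : ∑ j, (c.ε ω (Sum.inl j) : ℂ) * c.b ω (Sum.inl j) 1 =
          - ((c.ε ω (Sum.inr k) : ℂ) * ∑ j, c.b ω (Sum.inl j) 1) := by
        rw [Finset.mul_sum, ← Finset.sum_neg_distrib]
        refine Finset.sum_congr rfl fun j _ => ?_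
        rw [h2 j]
        push_cast
        ring
      rw [h4, ← mul_neg] at h3
      have h5 := mul_left_cancel₀ (eps_ne c ω (Sum.inr k)) h3
      rw [Finset.sum_congr rfl fun j _ => hcast (Sum.inl j), hcast] at h5
      have h6 : ((∑ j, ndeg (c.b ω (Sum.inl j)) + ndeg (c.b ω (Sum.inr k)) : ℕ) : ℂ) = 0 := by
        push_cast
        rw [← h5]
        ring
      have h7 : ∑ j, ndeg (c.b ω (Sum.inl j)) + ndeg (c.b ω (Sum.inr k)) = 0 := by
        exact_mod_cast h6
      have := hpos (Sum.inr k)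
      omega
    have h2 : W ⊆ insert (Sum.inr k) ((Finset.univ.erase j₀).image Sum.inl) := by
      intro m' hm'
      have hm := (Finset.mem_filter.1 hm').2
      have h3 : c.ε ω m' * us k m' = c.ε ω (Sum.inr k) * us k (Sum.inr k) :=
        (hm k).trans (hk' k).symm
      have h4 : us k (Sum.inr k : Fin (e ω) ⊕ Fin (f ω)) = 1 := if_pos rfl
      rw [h4, mul_one] at h3
      rcases m' with j | k'
      · refine Finset.mem_insert_of_mem (Finset.mem_image.2 ⟨j, Finset.mem_erase.2 ⟨?_,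
          Finset.mem_univ _⟩, rfl⟩)
        rintro rfl
        have h5 : us k (Sum.inl j : Fin (e ω) ⊕ Fin (f ω)) = -1 := rfl
        rw [h5, hj₀] at h3
        rcases c.sgn ω (Sum.inr k) with h6 | h6 <;> rw [h6] at h3 <;> norm_num at h3
      · by_cases h5 : k = k'
        · rw [h5]
          exact Finset.mem_insert_self _ _
        · exfalso
          have h6 : us k (Sum.inr k' : Fin (e ω) ⊕ Fin (f ω)) = 0 := if_neg h5
          rw [h6, mul_zero] at h3
          rcases c.sgn ω (Sum.inr k) with h6 | h6 <;> rw [h6] at h3 <;> norm_num at h3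
    refine (Finset.card_le_card h2).trans ((Finset.card_insert_le _ _).trans ?_)
    refine (Nat.add_le_add_right Finset.card_image_le 1).trans ?_
    rw [Finset.card_erase_add_one (Finset.mem_univ _), Finset.card_univ, Fintype.card_fin]
  · have h2 : W ⊆ Finset.univ.image Sum.inl := by
      intro m' hm'
      rcases m' with j | k
      · exact Finset.mem_image.2 ⟨j, Finset.mem_univ _, rfl⟩
      · exact absurd ⟨k, hm'⟩ hr
    refine (Finset.card_le_card h2).trans (Finset.card_image_le.trans ?_)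
    rw [Finset.card_univ, Fintype.card_fin]

/-- a `p`-automorphism fixes the characters whose values at the singular elements it fixes -/
theorem fix_of_sing (c : Cor p ι T) (Q : Subgroup B) (hQ : Q.Normal) (hcQ : Nat.card Q = p)
    (y : MulAut X) (z : MulAut B) (hyz : ∀ b, ι (z b) = y (ι b)) (k : ℕ) (hy : y ^ p ^ k = 1)
    {χ : X → ℂ} (hχ : IsIrr χ) (hne : ∃ g : B, p ∣ orderOf g ∧ χ (ι g) ≠ 0)
    (hs : ∀ g : B, p ∣ orderOf g → χ (y (ι g)) = χ (ι g)) (x : X) : χ (y x) = χ x := by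
  obtain ⟨ω, m, rfl⟩ : ∃ ω m, c.b ω m = χ := by
    rcases c.oth χ hχ with h | ⟨h, -⟩
    · exact h
    · obtain ⟨g, hg, hg'⟩ := hne
      exact absurd (h g hg) hg'
  let V := (Irr X).filter fun χ => ∀ g : B, p ∣ orderOf g → χ (ι g) = c.b ω m (ι g)
  have hV : V.card < p := card_same c Q hQ hcQ ω m
  have hFV : ∀ χ ∈ V, (fun x => χ (y x)) ∈ V := by
    intro χ' hχ'
    obtain ⟨h1, h2⟩ := Finset.mem_filter.1 hχ'
    refine Finset.mem_filter.2 ⟨mem_Irr.mpr (irr_infl y.toMonoidHom y.surjective (mem_Irr.mp h1)),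
      fun g hg => ?_⟩
    have h3 : p ∣ orderOf (z g) := by
      rw [MulEquiv.orderOf_eq]
      exact hg
    change χ' (y (ι g)) = _
    rw [← hyz, h2 (z g) h3, hyz]
    exact hs g hg
  let F : V → V := fun χ => ⟨fun x => χ.1 (y x), hFV χ.1 χ.2⟩
  have hF : ∀ (n : ℕ) (χ : V) (x : X), (F^[n] χ).1 x = χ.1 ((y ^ n) x) := by
    intro n
    induction n with
    | zero =>
      intro χ x
      rw [pow_zero]
      rfl
    | succ n ih =>
      intro χ x
      rw [Function.iterate_succ_apply, ih]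
      change χ.1 (y ((y ^ n) x)) = _
      rw [pow_succ', MulAut.mul_apply]
  let v₀ : V := ⟨c.b ω m, Finset.mem_filter.2 ⟨mem_Irr.mpr hχ, fun g _ => rfl⟩⟩
  have h1 : Function.IsPeriodicPt F (p ^ k) v₀ := by
    apply Subtype.ext
    funext x
    rw [hF, hy]
    rfl
  have h2 : Function.minimalPeriod F v₀ ∣ p ^ k := h1.minimalPeriod_dvd
  have hpos : 0 < Function.minimalPeriod F v₀ :=
    Nat.pos_of_dvd_of_pos h2 (pow_pos hp.out.pos k)
  have h3 : Function.minimalPeriod F v₀ ≤ V.card := by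
    have h4 : Function.Injective fun i : Fin (Function.minimalPeriod F v₀) => F^[i] v₀ := by
      intro i j hij
      apply Fin.ext
      exact (Function.iterate_eq_iterate_iff_of_lt_minimalPeriod i.2 j.2).mp hij
    have h5 := Fintype.card_le_of_injective _ h4
    rwa [Fintype.card_fin, Fintype.card_coe] at h5
  have h4 : Function.minimalPeriod F v₀ = 1 := by
    obtain ⟨j, -, hj⟩ := (Nat.dvd_prime_pow hp.out).mp h2
    rcases Nat.eq_zero_or_pos j with h | h
    · rw [hj, h, pow_zero]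
    · exfalso
      have h5 : p ≤ p ^ j := Nat.le_self_pow h.ne' p
      omega
  have h5 : F v₀ = v₀ := Function.minimalPeriod_eq_one_iff_isFixedPt.mp h4
  exact congrFun (congrArg Subtype.val h5) x

end

theorem cny : CNY := by
  intro p hp B X _ _ _ _ Q P H ι hL hE y z hyz k hy
  obtain ⟨Ω, _, e, f, ξ, ψ, he, hf, hξ, hψ, hinj, hsur, hreg, hsing⟩ :=
    K3h73.CY.t_C3 K3h90.CY.t_C3a K3h99.CY.t_C3b p B Q P H hL
  obtain ⟨T⟩ : Nonempty (Tab p B Ω e f) := ⟨⟨ξ, ψ, he, hf, hξ, hψ, hinj, hsur, hreg, hsing⟩⟩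
  obtain ⟨c⟩ := cor Q P H ι hL hE T
  have hE' : EC p Q (MonoidHom.id B) := by
    refine ⟨fun _ _ h => h, fun x _ => ⟨x, rfl⟩, ?_⟩
    have h1 : (MonoidHom.id B).range = ⊤ := MonoidHom.range_eq_top.mpr fun x => ⟨x, rfl⟩
    rw [h1, Subgroup.index_top]
    exact hp.out.one_lt.ne' ∘ Nat.dvd_one.mp
  obtain ⟨c'⟩ := cor Q P H (MonoidHom.id B) hL hE' T
  have hz : z ^ p ^ k = 1 := by
    have h1 : ∀ (n : ℕ) (b : B), ι ((z ^ n) b) = (y ^ n) (ι b) := by
      intro n
      induction n with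
      | zero => intro b; rfl
      | succ n ih =>
        intro b
        rw [pow_succ, MulAut.mul_apply, ih, hyz, pow_succ, MulAut.mul_apply]
    ext b
    apply hE.inj
    rw [h1, hy]
    rfl
  have hnes : ∀ m, ∃ g : B, p ∣ orderOf g ∧ T.t m g ≠ 0 := by
    rintro ⟨ω, m⟩
    by_contra hcon
    push Not at hcon
    obtain ⟨i, hi⟩ := us_ne (T.f0 ω) m
    have h1 := B_us T ω m i
    rw [B_sing T (F' := 0) (fun g hg => hcon g hg) ω i] at h1
    have h6 : IC.B (0 : B → ℂ) (T.β ω i) = 0 := by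
      unfold IC.B
      simp
    rw [h6] at h1
    exact hi (by exact_mod_cast h1.symm)
  have hzs : ∀ g : B, p ∣ orderOf g → p ∣ orderOf (z g) := by
    intro g hg
    rw [MulEquiv.orderOf_eq]
    exact hg
  have key : ∀ m : (Σ ω, Fin (e ω) ⊕ Fin (f ω)), (∀ x, c.b m.1 m.2 (y x) = c.b m.1 m.2 x) ↔
      ∀ b, T.t m (z b) = T.t m b := by
    intro m
    constructor
    · intro h
      refine fix_of_sing c' Q hL.nQ hL.cQ z z (fun _ => rfl) k hz (T.t_irr m) (hnes m)
        fun g hg => ?_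
      have h1 := h (ι g)
      rw [← hyz, c.sin m.1 m.2 g hg, c.sin m.1 m.2 (z g) (hzs g hg)] at h1
      exact mul_left_cancel₀ (eps_ne c m.1 m.2) h1
    · intro h
      refine fix_of_sing c Q hL.nQ hL.cQ y z hyz k hy (c.irr m.1 m.2) ?_ fun g hg => ?_
      · obtain ⟨g, hg, hg'⟩ := hnes m
        refine ⟨g, hg, ?_⟩
        rw [c.sin m.1 m.2 g hg]
        exact mul_ne_zero (eps_ne c m.1 m.2) hg'
      · rw [← hyz, c.sin m.1 m.2 g hg, c.sin m.1 m.2 (z g) (hzs g hg)]
        congr 1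
        exact h g
  have hbi : Function.Injective fun m : (Σ ω, Fin (e ω) ⊕ Fin (f ω)) => c.b m.1 m.2 := by
    rintro ⟨ω, m⟩ ⟨ω', m'⟩ h
    have h1 : c.b ω m = c.b ω' m' := h
    have h2 := c.dis ω ω' m m' h1
    subst h2
    rw [c.inj ω h1]
  have hsub : Finset.univ.image (fun m : (Σ ω, Fin (e ω) ⊕ Fin (f ω)) => c.b m.1 m.2) ⊆ Irr X := by
    intro χ hχ
    obtain ⟨m, -, rfl⟩ := Finset.mem_image.1 hχ
    exact mem_Irr.mpr (c.irr _ _)
  rw [Finset.sum_filter, Finset.sum_filter, ← Finset.sum_subset hsub, Finset.sum_image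
    (fun a _ b _ h => hbi h), T.Irr_eq, Finset.sum_image fun a _ b _ h => T.t_inj h]
  · refine Finset.sum_congr rfl fun m _ => ?_
    rw [c.deg m.1 m.2]
    exact if_congr (key m) rfl rfl
  · intro χ hχ hn
    rcases c.oth χ (mem_Irr.mp hχ) with ⟨ω, m, h⟩ | ⟨-, h⟩
    · exact absurd (Finset.mem_image.2 ⟨⟨ω, m⟩, Finset.mem_univ _, h⟩) hn
    · rw [h, ite_self]

end Pool.Agent.ZH17.RD
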