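import Pool.Agent.ZH17.RD.Stm6

/-!
# Piece LCU
-/

set_option autoImplicit false
set_option linter.unusedSectionVars false
set_option linter.style.haveILetI false

open scoped BigOperators Classical

noncomputable section

namespace Pool.Agent.ZH17.RD

open Pool.Agent.Helper884 Pool.Agent.K3h3.KB Pool.Agent.K3h3.MK Pool.Agent.K3h83.IN
open Pool.Agent.K3h33.CY
open Pool.Agent.H254R3.IN (IsIrr mem_Irr)
open IC (Irr)
open SemidirectProduct

theorem ec_id {p : ℕ} [hp : Fact p.Prime] {B : Type} [Group B] (Q : Subgroup B) :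
    EC p Q (MonoidHom.id B) := by
  refine ⟨fun _ _ h => h, fun x _ => ⟨x, rfl⟩, ?_⟩
  have h1 : (MonoidHom.id B).range = ⊤ := MonoidHom.range_eq_top.mpr fun x => ⟨x, rfl⟩
  rw [h1, Subgroup.index_top]
  exact hp.out.one_lt.ne' ∘ Nat.dvd_one.mp

theorem idx_P {p : ℕ} [hp : Fact p.Prime] {B : Type} [Group B] [Finite B] {Q P H : Subgroup B}
    (hL : LC p Q P H) : ¬ p ∣ P.index := by
  obtain ⟨s, hs, hps⟩ := card_X hL (ec_id Q)
  have h1 := P.card_mul_index
  rw [hs] at h1
  rw [Nat.eq_of_mul_eq_mul_left Nat.card_pos h1]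
  exact hps

theorem card_sdU {N U : Type} [Group N] [Group U] (φ : U →* MulAut N) :
    Nat.card (N ⋊[φ] U) = Nat.card N * Nat.card U := SemidirectProduct.card

theorem kU_inj {p : ℕ} {B N A U : Type} [Group B] [Group N] [Group A] [Group U] (D : Dat p B N A)
    (π : U →* A) : Function.Injective (kU D π) := by
  intro x y h
  have h1 : D.k x.left = D.k y.left := congrArg (fun t : NU D π => t.left) h
  have h2 : x.right = y.right := congrArg (fun t : NU D π => t.right) h
  exact SemidirectProduct.ext (D.ec.inj h1) h2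

theorem lcu : LCU := by
  intro p hp B N A U _ _ _ _ _ _ _ D π hU
  haveI := D.lc.nQ
  have hQn : (D.Q.map (inl : B →* BU D π)).Normal := by
    constructor
    rintro _ ⟨q, hq, rfl⟩ x
    have h1 : x = inl x.left * inr x.right := (inl_left_mul_inr_right x).symm
    have h2 : x * inl q * x⁻¹ = inl (x.left * (D.β (π x.right) q) * x.left⁻¹) := by
      nth_rewrite 1 2 [h1]
      rw [mul_inv_rev, map_mul, map_mul, map_inv]
      have h3 : (inr x.right : BU D π) * inl q * (inr x.right)⁻¹ = inl (D.β (π x.right) q) := by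
        rw [← map_inv, ← inl_aut]
        rfl
      rw [← h3]
      group
    rw [h2]
    exact ⟨_, D.lc.nQ.conj_mem _ (D.st _ _ hq) _, rfl⟩
  have hidx : ¬ p ∣ (D.P.map (inl : B →* BU D π)).index := by
    rw [Subgroup.index_map_of_injective _ inl_injective, hp.out.dvd_mul]
    rintro (h | h)
    · exact idx_P D.lc h
    · apply hU
      have h1 : (inl : B →* BU D π).range.index = Nat.card U := by
        rw [range_inl_eq_ker_rightHom, Subgroup.index_ker,
          MonoidHom.range_eq_top.mpr rightHom_surjective, Subgroup.card_top]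
      rwa [h1] at h
  have hcyc : IsCyclic (D.P.map (inl : B →* BU D π)) := by
    haveI := D.lc.cyc
    exact (D.P.equivMapOfInjective _ inl_injective).isCyclic.mp D.lc.cyc
  obtain ⟨H', hH'⟩ := Pool.Agent.K3h93.CY.exLC p (D.Q.map (inl : B →* BU D π))
    (D.P.map (inl : B →* BU D π)) hQn
    (by rw [Subgroup.card_map_of_injective inl_injective]; exact D.lc.cQ)
    (Subgroup.map_mono D.lc.QP) hcyc (D.lc.pP.map _) hidx
  refine ⟨D.Q.map inl, D.P.map inl, H', hH', ⟨kU_inj D π, ?_, ?_⟩, rfl⟩
  · intro x hx
    have h0 : x = inl x.left * inr x.right := (inl_left_mul_inr_right x).symm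
    -- the left part normalises `Q`
    obtain ⟨b, hb⟩ : x.left ∈ D.k.range := by
      refine D.ec.nor x.left fun y hy => ?_
      -- `y = β (π u) y'`
      obtain ⟨y', hy', hyy⟩ : ∃ y' ∈ D.Q, D.β (π x.right) y' = y := by
        refine ⟨D.β (π x.right)⁻¹ y, D.st _ _ hy, ?_⟩
        rw [map_inv]
        exact MulAut.apply_inv_self B (D.β (π x.right)) y
      obtain ⟨_, ⟨z, hz, rfl⟩, h1⟩ := hx (inl y') ⟨y', hy', rfl⟩
      refine ⟨z, hz, ?_⟩
      rw [kU_inl, kU_inl] at h1
      have h2 : x * inl (D.k y') * x⁻¹ = (inl (x.left * D.k y * x.left⁻¹) : NU D π) := by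
        nth_rewrite 1 2 [h0]
        rw [mul_inv_rev, map_mul, map_mul, map_inv]
        have h3 : (inr x.right : NU D π) * inl (D.k y') * (inr x.right)⁻¹ = inl (D.k y) := by
          rw [← map_inv, ← inl_aut, ← hyy, D.comp]
          rfl
        rw [← h3]
        group
      rw [h2] at h1
      exact inl_injective h1
    refine ⟨⟨b, x.right⟩, ?_⟩
    exact SemidirectProduct.ext hb rfl
  · -- the index
    have h1 : Nat.card (kU D π).range = Nat.card B * Nat.card U := by
      rw [← Nat.card_congr (MonoidHom.ofInjective (kU_inj D π)).toEquiv]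
      exact card_sdU _
    have h2 : Nat.card D.k.range = Nat.card B :=
      (Nat.card_congr (MonoidHom.ofInjective D.ec.inj).toEquiv).symm
    have h3 := (kU D π).range.card_mul_index
    have h4 := D.k.range.card_mul_index
    rw [h1, card_sdU] at h3
    rw [h2] at h4
    have h5 : (kU D π).range.index = D.k.range.index := by
      have h6 : (Nat.card B * Nat.card U) * (kU D π).range.index =
          (Nat.card B * Nat.card U) * D.k.range.index := by
        rw [h3, ← h4]
        ring
      exact Nat.eq_of_mul_eq_mul_left (Nat.mul_pos Nat.card_pos Nat.card_pos) h6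
    rw [h5]
    exact D.ec.syl

end Pool.Agent.ZH17.RD
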