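import Pool.Agent.ZH17.RD.Stm7
import Pool.Agent.ZH17.RD.Cny
import Pool.Agent.ZH17.RD.Meq
import Pool.Agent.ZH17.RD.Lcu

/-!
# Piece TRV (helper70)
-/

set_option autoImplicit false
set_option linter.unusedSectionVars false
set_option linter.style.haveILetI false

open scoped BigOperators Classical

noncomputable section

namespace Pool.Agent.ZH17.RD

open Pool.Agent.Helper884 Pool.Agent.K3h3.KB Pool.Agent.K3h3.MK Pool.Agent.K3h83.IN
open Pool.Agent.K3h33.CY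
open Pool.Agent.H254R3.IN (IsIrr mem_Irr)
open IC (Irr)
open SemidirectProduct

namespace TrvP

theorem aux {p : ℕ} [hp : Fact p.Prime] (hp2 : p ≠ 2) {B X : Type} [Group B] [Fintype B]
    [Group X] [Fintype X] (Q P H : Subgroup B) (ι : B →* X) (hL : LC p Q P H) (hE : EC p Q ι)
    (y : MulAut X) (z : MulAut B) (hyz : ∀ b, ι (z b) = y (ι b)) (k : ℕ) (hy : y ^ p ^ k = 1)
    (hz : z ^ p ^ k = 1) {χ : X → ℂ} (hχ : IsIrr χ) (hne : ∃ g : B, p ∣ orderOf g ∧ χ (ι g) ≠ 0)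
    (hs : SE p id (fun b => χ (ι (z b))) (fun b => χ (ι b))) (x : X) : χ (y x) = χ x := by
  obtain ⟨Ω, _, e, f, ξ, ψ, he, hf, hξ, hψ, hinj, hsur, hreg, hsing⟩ :=
    K3h73.CY.t_C3 K3h90.CY.t_C3a K3h99.CY.t_C3b p B Q P H hL
  obtain ⟨T⟩ : Nonempty (Tab p B Ω e f) := ⟨⟨ξ, ψ, he, hf, hξ, hψ, hinj, hsur, hreg, hsing⟩⟩
  obtain ⟨c⟩ := cor Q P H ι hL hE T
  have hzs : ∀ g : B, p ∣ orderOf g → p ∣ orderOf (z g) := by
    intro g hg
    rw [MulEquiv.orderOf_eq]
    exact hg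
  refine fix_of_sing c Q hL.nQ hL.cQ y z hyz k hy hχ hne ?_ x
  rcases hs with h | h
  · intro g hg
    rw [← hyz]
    exact h g hg
  · exfalso
    obtain ⟨g, hg, hg'⟩ := hne
    have h1 : ∀ (n : ℕ) (g : B), p ∣ orderOf g → χ (ι ((z ^ n) g)) = (-1) ^ n * χ (ι g) := by
      intro n
      induction n with
      | zero =>
        intro g _
        rw [pow_zero, pow_zero, one_mul]
        rfl
      | succ n ih =>
        intro g hg
        have h2 : χ (ι (z g)) = - χ (ι g) := h g hg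
        rw [pow_succ, MulAut.mul_apply, ih (z g) (hzs g hg), h2, pow_succ]
        ring
    have h2 := h1 (p ^ k) g hg
    have h3 : Odd (p ^ k) := (hp.out.odd_of_ne_two hp2).pow
    rw [hz, h3.neg_one_pow, MulAut.one_apply] at h2
    apply hg'
    linear_combination (1 / 2 : ℂ) * h2

end TrvP

theorem trv : TRV := by
  intro p hp hp2 B N A _ _ _ _ _ D a k ha
  haveI := Fintype.ofFinite B
  haveI := Fintype.ofFinite N
  have hα : D.α a ^ p ^ k = 1 := by rw [← map_pow, ha, map_one]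
  have hβ : D.β a ^ p ^ k = 1 := by rw [← map_pow, ha, map_one]
  refine ⟨fun χ h => ?_, fun θ h => ?_⟩
  · exact TrvP.aux hp2 D.Q D.P D.H D.k D.lc D.ec (D.α a) (D.β a) (D.comp a) k hα hβ χ.2.1 χ.2.2 h
  · refine TrvP.aux hp2 D.Q D.P D.H (MonoidHom.id B) D.lc (ec_id D.Q) (D.β a) (D.β a)
      (fun _ => rfl) k hβ hβ θ.2 (MeqP.exists_sing D.lc θ.2) h

end Pool.Agent.ZH17.RD
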