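import Pool.Agent.ZH17.RD.Stm6
import Pool.Agent.K3h85.IN.CExt

/-!
# Piece UNI (project RD phase B): a group of order prime to `p` to which all invariant characters extend
-/

set_option autoImplicit false
set_option linter.unusedSectionVars false
set_option linter.style.haveILetI false

open scoped BigOperators Classical
open Representation

noncomputable section

namespace Pool.Agent.ZH17.RD.UniP

open Pool.Agent.H254R3.IN Pool.Agent.K3h85.IN
open SemidirectProduct

/-- a representation whose restriction is irreducible is irreducible -/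
theorem irr_of_comp {L E : Type} [Group L] [Group E] {V : Type} [AddCommGroup V] [Module ℂ V]
    (ρ : Representation ℂ E V) (f : L →* E)
    (h : IsIrreducible (MonoidHom.comp ρ f : Representation ℂ L V)) : ρ.IsIrreducible := by
  have hs : IsSimpleOrder (Subrepresentation (MonoidHom.comp ρ f : Representation ℂ L V)) := h
  let g : Subrepresentation ρ → Subrepresentation (MonoidHom.comp ρ f : Representation ℂ L V) :=
    fun W => ⟨W.toSubmodule, fun x v hv => W.apply_mem_toSubmodule (f x) hv⟩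
  have hg : ∀ W W', g W = g W' → W = W' := by
    intro W W' hW
    have h1 : W.toSubmodule = W'.toSubmodule :=
      congrArg (fun S : Subrepresentation (MonoidHom.comp ρ f : Representation ℂ L V) =>
        S.toSubmodule) hW
    exact Subrepresentation.toSubmodule_injective h1
  have hbot : g ⊥ = ⊥ := rfl
  have htop : g ⊤ = ⊤ := rfl
  have hne : (⊥ : Subrepresentation ρ) ≠ ⊤ := by
    intro e
    have h1 := congrArg g e
    rw [hbot, htop] at h1
    exact bot_ne_top h1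
  exact
  { exists_pair_ne := ⟨⊥, ⊤, hne⟩
    eq_bot_or_eq_top := fun W => by
      rcases hs.eq_bot_or_eq_top (g W) with h1 | h1
      · left
        exact hg _ _ (h1.trans hbot.symm)
      · right
        exact hg _ _ (h1.trans htop.symm) }

section Fam

variable {A L : Type} [Group A] [Group L] (α : A →* MulAut L) (W : Subgroup A) {ι : Type}
  (V : ι → Type) [∀ i, AddCommGroup (V i)] [∀ i, Module ℂ (V i)]
  (σ : ∀ i, Representation ℂ L (V i))

/-- tuples of compatible operators of determinant one -/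
def fam : Subgroup (W × ((i : ι) → (V i →ₗ[ℂ] V i)ˣ)) where
  carrier := {x | ∀ i, (∀ l, (x.2 i : V i →ₗ[ℂ] V i) * σ i l =
    σ i (α (x.1 : A) l) * (x.2 i : V i →ₗ[ℂ] V i)) ∧ LinearMap.det (x.2 i : V i →ₗ[ℂ] V i) = 1}
  one_mem' := by
    intro i
    refine ⟨fun l => ?_, ?_⟩
    · simp
    · simp
  mul_mem' := by
    intro x y hx hy i
    refine ⟨fun l => ?_, ?_⟩
    · rw [Prod.snd_mul, Pi.mul_apply, Units.val_mul, mul_assoc, (hy i).1 l, ← mul_assoc,
        (hx i).1, mul_assoc, Prod.fst_mul, Subgroup.coe_mul, map_mul, MulAut.mul_apply]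
    · rw [Prod.snd_mul, Pi.mul_apply, Units.val_mul, map_mul, (hx i).2, (hy i).2, one_mul]
  inv_mem' := by
    intro x hx i
    refine ⟨fun l => ?_, ?_⟩
    · have h1 := (hx i).1 (α (x.1 : A)⁻¹ l)
      have h0 : α (x.1 : A) (α (x.1 : A)⁻¹ l) = l := by
        rw [← MulAut.mul_apply, ← map_mul, mul_inv_cancel, map_one, MulAut.one_apply]
      rw [h0] at h1
      rw [Prod.snd_inv, Pi.inv_apply, Prod.fst_inv, Subgroup.coe_inv]
      have h2 : (((x.2 i)⁻¹ : (V i →ₗ[ℂ] V i)ˣ) : V i →ₗ[ℂ] V i) *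
          ((x.2 i : V i →ₗ[ℂ] V i) * σ i (α (x.1 : A)⁻¹ l)) *
          (((x.2 i)⁻¹ : (V i →ₗ[ℂ] V i)ˣ) : V i →ₗ[ℂ] V i) =
          (((x.2 i)⁻¹ : (V i →ₗ[ℂ] V i)ˣ) : V i →ₗ[ℂ] V i) *
          (σ i l * (x.2 i : V i →ₗ[ℂ] V i)) *
          (((x.2 i)⁻¹ : (V i →ₗ[ℂ] V i)ˣ) : V i →ₗ[ℂ] V i) := by rw [h1]
      rw [← mul_assoc, Units.inv_mul, one_mul, mul_assoc, mul_assoc, Units.mul_inv, mul_one] at h2
      exact h2.symm
    · rw [Prod.snd_inv, Pi.inv_apply]
      have h2 : LinearMap.det (((x.2 i)⁻¹ : (V i →ₗ[ℂ] V i)ˣ) : V i →ₗ[ℂ] V i) *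
          LinearMap.det (x.2 i : V i →ₗ[ℂ] V i) = 1 := by
        rw [← map_mul, Units.inv_mul, map_one]
      rw [(hx i).2, mul_one] at h2
      exact h2

theorem fin_roots (n : ℕ) (hn : 0 < n) : Finite {c : ℂ // c ^ n = 1} := by
  have h : Set.Finite {c : ℂ | c ^ n = 1} := by
    refine Set.Finite.subset ((Polynomial.nthRoots n (1 : ℂ)).toFinset.finite_toSet) fun c hc => ?_
    rw [Finset.mem_coe, Multiset.mem_toFinset, Polynomial.mem_nthRoots hn]
    exact hc
  exact h.to_subtype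

theorem fam_main (p : ℕ) [Fact p.Prime] [Finite W] (hp : ¬ p ∣ Nat.card W) [Finite ι] [Finite L]
    [∀ i, FiniteDimensional ℂ (V i)] (hσ : ∀ i, (σ i).IsIrreducible)
    (hinv : ∀ i, ∀ w ∈ W, ∀ l, (σ i).character (α w l) = (σ i).character l) :
    ∃ (U : Type) (_ : Group U) (_ : Finite U) (π : U →* A), ¬ p ∣ Nat.card U ∧ π.range = W ∧
      ∀ i, ∃ χ' : L ⋊[α.comp π] U → ℂ, IsIrr χ' ∧ ∀ l : L, χ' (inl l) = (σ i).character l := by
  haveI hnt : ∀ i, Nontrivial (V i) := fun i => irr_nontrivial (σ i) (hσ i)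
  have hdim : ∀ i, 0 < Module.finrank ℂ (V i) := fun i => Module.finrank_pos
  set E := fam α W V σ with hE
  have memE : ∀ x, x ∈ E ↔ ∀ i, (∀ l, (x.2 i : V i →ₗ[ℂ] V i) * σ i l =
    σ i (α (x.1 : A) l) * (x.2 i : V i →ₗ[ℂ] V i)) ∧
      LinearMap.det (x.2 i : V i →ₗ[ℂ] V i) = 1 := fun x => Iff.rfl
  let π : E →* W := (MonoidHom.fst W _).comp E.subtype
  -- the projection is surjective
  have hsurj : Function.Surjective π := by
    intro w
    have h1 : ∀ i, ∃ S : (V i →ₗ[ℂ] V i)ˣ, (∀ l, (S : V i →ₗ[ℂ] V i) * σ i l =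
        σ i (α (w : A) l) * (S : V i →ₗ[ℂ] V i)) ∧ LinearMap.det (S : V i →ₗ[ℂ] V i) = 1 := by
      intro i
      obtain ⟨S, hS⟩ := exists_unit (σ i)
        (MonoidHom.comp (σ i) (α (w : A)).toMonoidHom : Representation ℂ L (V i)) (hσ i)
        (irr_comp_surj (σ i) (hσ i) _ (α (w : A)).surjective) (by
          funext l
          exact (hinv i w w.2 l).symm)
      have hd : LinearMap.det (S : V i →ₗ[ℂ] V i) ≠ 0 := by
        have := (LinearMap.isUnit_det _ S.isUnit).ne_zero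
        exact this
      obtain ⟨c, hc⟩ := IsAlgClosed.exists_pow_nat_eq (LinearMap.det (S : V i →ₗ[ℂ] V i))⁻¹
        (hdim i)
      have hc0 : c ≠ 0 := by
        rintro rfl
        rw [zero_pow (hdim i).ne'] at hc
        exact inv_ne_zero hd hc.symm
      have e1 : ((Units.mk0 c hc0 • S : (V i →ₗ[ℂ] V i)ˣ) : V i →ₗ[ℂ] V i) =
        c • (S : V i →ₗ[ℂ] V i) := rfl
      refine ⟨Units.mk0 c hc0 • S, fun l => ?_, ?_⟩
      · rw [e1, smul_mul_assoc, hS, mul_smul_comm]
        rfl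
      · rw [e1, LinearMap.det_smul, hc, inv_mul_cancel₀ hd]
    choose S hS using h1
    exact ⟨⟨(w, S), (memE _).2 hS⟩, rfl⟩
  -- the kernel consists of scalars
  have hscal : ∀ x : E, π x = 1 → ∀ i, ∃ c : ℂ, (x.1.2 i : V i →ₗ[ℂ] V i) = c • LinearMap.id := by
    intro x hx i
    refine schur (σ i) (hσ i) _ fun l v => ?_
    have h1 : (x.1.1 : W) = 1 := hx
    have h2 := (((memE _).mp x.2) i).1 l
    rw [h1, Subgroup.coe_one, map_one, MulAut.one_apply] at h2
    exact congrArg (fun f => f v) h2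
  have hcent : ∀ x : E, π x = 1 → ∀ y : E, y * x = x * y := by
    intro x hx y
    apply Subtype.ext
    refine Prod.ext ?_ ?_
    · change y.1.1 * x.1.1 = x.1.1 * y.1.1
      have h1 : (x.1.1 : W) = 1 := hx
      rw [h1, mul_one, one_mul]
    · funext i
      obtain ⟨c, hc⟩ := hscal x hx i
      apply Units.ext
      change (y.1.2 i : V i →ₗ[ℂ] V i) * (x.1.2 i : V i →ₗ[ℂ] V i) =
        (x.1.2 i : V i →ₗ[ℂ] V i) * (y.1.2 i : V i →ₗ[ℂ] V i)
      rw [hc]
      ext v
      simp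
  haveI hfk : Finite π.ker := by
    have h1 : ∀ x : π.ker, ∀ i, ∃ c : ℂ, (x.1.1.2 i : V i →ₗ[ℂ] V i) = c • LinearMap.id :=
      fun x => hscal x.1 x.2
    choose c hc using h1
    have hroot : ∀ x i, (c x i) ^ (Module.finrank ℂ (V i)) = 1 := by
      intro x i
      have h1 := (((memE _).mp x.1.2) i).2
      rw [hc x i, LinearMap.det_smul, LinearMap.det_id, mul_one] at h1
      exact h1
    haveI : ∀ i, Finite {c : ℂ // c ^ (Module.finrank ℂ (V i)) = 1} := fun i =>
      fin_roots _ (hdim i)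
    refine Finite.of_injective (fun x => fun i =>
      (⟨c x i, hroot x i⟩ : {c : ℂ // c ^ (Module.finrank ℂ (V i)) = 1})) fun x y hxy => ?_
    apply Subtype.ext
    apply Subtype.ext
    refine Prod.ext ?_ ?_
    · have h1 : (x.1.1.1 : W) = 1 := x.2
      have h2 : (y.1.1.1 : W) = 1 := y.2
      rw [h1, h2]
    · funext i
      apply Units.ext
      have h3 : c x i = c y i := congrArg Subtype.val (congrFun hxy i)
      rw [hc x i, hc y i, h3]
  haveI hfE : Finite E := by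
    haveI : Finite (E ⧸ π.ker) := Finite.of_injective _
      (QuotientGroup.quotientKerEquivRange π).injective
    exact Finite.of_subgroup_quotient π.ker
  -- the Sylow subgroup is central
  obtain ⟨S⟩ : Nonempty (Sylow p E) := inferInstance
  have hSker : ∀ x ∈ S, π x = 1 := by
    intro x hx
    obtain ⟨k, hk⟩ := S.isPGroup' ⟨x, hx⟩
    have hk' : x ^ p ^ k = 1 := congrArg Subtype.val hk
    have h1 : (π x) ^ p ^ k = 1 := by rw [← map_pow, hk', map_one]
    have h2 : (π x) ^ Nat.card W = 1 := pow_card_eq_one'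
    have h3 : Nat.Coprime (p ^ k) (Nat.card W) :=
      Nat.Coprime.pow_left k ((Nat.Prime.coprime_iff_not_dvd Fact.out).2 hp)
    have h4 := orderOf_dvd_of_pow_eq_one h1
    have h5 := orderOf_dvd_of_pow_eq_one h2
    have h6 : orderOf (π x) = 1 := Nat.dvd_one.1 (h3 ▸ Nat.dvd_gcd h4 h5)
    exact orderOf_eq_one_iff.1 h6
  haveI hSn : (S : Subgroup E).Normal := by
    refine ⟨fun x hx g => ?_⟩
    rw [hcent x (hSker x hx) g, mul_assoc, mul_inv_cancel, mul_one]
    exact hx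
  obtain ⟨H, hH⟩ := Subgroup.exists_right_complement'_of_coprime
    (N := (S : Subgroup E)) (S.card_coprime_index)
  have hHp : ¬ p ∣ Nat.card H := by
    rw [← hH.symm.index_eq_card]
    exact S.not_dvd_index
  let πU : H →* A := W.subtype.comp (π.comp H.subtype)
  refine ⟨H, inferInstance, inferInstance, πU, hHp, ?_, ?_⟩
  · ext a
    constructor
    · rintro ⟨h, rfl⟩
      exact (π (h : E)).2
    · intro ha
      obtain ⟨e, he⟩ := hsurj ⟨a, ha⟩
      obtain ⟨⟨s, h⟩, hsh⟩ := hH.2 e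
      refine ⟨h, ?_⟩
      have h1 : π e = π (h : E) := by
        rw [← hsh]
        change π ((s : E) * (h : E)) = _
        rw [map_mul, hSker s s.2, one_mul]
      change ((π (h : E) : W) : A) = a
      rw [← h1, he]
  · intro i
    let f₁ : L →* (V i →ₗ[ℂ] V i)ˣ := MonoidHom.toHomUnits (σ i)
    let f₂ : H →* (V i →ₗ[ℂ] V i)ˣ := (Pi.evalMonoidHom (fun i => (V i →ₗ[ℂ] V i)ˣ) i).comp
      ((MonoidHom.snd W _).comp (E.subtype.comp H.subtype))
    have hf₁ : ∀ l, ((f₁ l : (V i →ₗ[ℂ] V i)ˣ) : V i →ₗ[ℂ] V i) = σ i l := fun l => rfl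
    have hf₂ : ∀ h : H, ((f₂ h : (V i →ₗ[ℂ] V i)ˣ) : V i →ₗ[ℂ] V i) = ((h : E).1.2 i) :=
      fun h => rfl
    have hcomp : ∀ g : H, f₁.comp (MulEquiv.toMonoidHom ((α.comp πU) g)) =
        (MulAut.conj (f₂ g)).toMonoidHom.comp f₁ := by
      intro g
      ext1 l
      change f₁ (α ((π (g : E) : W) : A) l) = f₂ g * f₁ l * (f₂ g)⁻¹
      rw [eq_mul_inv_iff_mul_eq]
      apply Units.ext
      rw [Units.val_mul, Units.val_mul, hf₁, hf₁, hf₂]
      exact ((((memE _).mp (g : E).2) i).1 l).symm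
    let ρ : Representation ℂ (L ⋊[α.comp πU] H) (V i) :=
      (Units.coeHom (V i →ₗ[ℂ] V i)).comp (SemidirectProduct.lift f₁ f₂ hcomp)
    have hρ : ∀ l : L, ρ (inl l) = σ i l := by
      intro l
      change ((SemidirectProduct.lift f₁ f₂ hcomp (inl l) : (V i →ₗ[ℂ] V i)ˣ) :
        V i →ₗ[ℂ] V i) = _
      rw [SemidirectProduct.lift_inl]
      rfl
    have hρc : (MonoidHom.comp ρ inl : Representation ℂ L (V i)) = σ i := by
      apply MonoidHom.ext
      exact hρ
    refine ⟨ρ.character, ⟨V i, inferInstance, inferInstance, inferInstance, ρ, ?_, rfl⟩, ?_⟩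
    · apply irr_of_comp ρ inl
      rw [hρc]
      exact hσ i
    · intro l
      unfold Representation.character
      rw [hρ]

end Fam

/-- all invariant characters of one group -/
theorem one_group (p : ℕ) [Fact p.Prime] {A L : Type} [Group A] [Group L] [Finite L]
    (α : A →* MulAut L) (W : Subgroup A) [Finite W] (hp : ¬ p ∣ Nat.card W) :
    ∃ (U : Type) (_ : Group U) (_ : Finite U) (π : U →* A), ¬ p ∣ Nat.card U ∧ π.range = W ∧
      ∀ χ : L → ℂ, IsIrr χ → (∀ w ∈ W, ∀ l, χ (α w l) = χ l) →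
        ∃ χ' : L ⋊[α.comp π] U → ℂ, IsIrr χ' ∧ ∀ l : L, χ' (inl l) = χ l := by
  haveI := Fintype.ofFinite L
  let ι : Type := {χ : L → ℂ // IsIrr χ ∧ ∀ w ∈ W, ∀ l, χ (α w l) = χ l}
  haveI : Finite ι := by
    have h : Set.Finite {χ : L → ℂ | IsIrr χ ∧ ∀ w ∈ W, ∀ l, χ (α w l) = χ l} := by
      refine Set.Finite.subset (Pool.Agent.Helper884.IC.Irr L).finite_toSet fun χ hχ => ?_
      rw [Finset.mem_coe, mem_Irr]
      exact hχ.1
    exact h.to_subtype
  have h0 : ∀ χ : ι, ∃ (V : Type) (_ : AddCommGroup V) (_ : Module ℂ V)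
      (_ : FiniteDimensional ℂ V) (ρ : Representation ℂ L V), ρ.IsIrreducible ∧
      χ.1 = ρ.character := fun χ => χ.2.1
  choose V i1 i2 i3 σ hσ hχ using h0
  obtain ⟨U, j1, j2, π, h1, h2, h3⟩ := fam_main α W V σ p hp hσ (by
    intro χ w hw l
    rw [← hχ χ]
    exact χ.2.2 w hw l)
  refine ⟨U, j1, j2, π, h1, h2, fun χ hirr hinv => ?_⟩
  obtain ⟨χ', h4, h5⟩ := h3 ⟨χ, hirr, hinv⟩
  refine ⟨χ', h4, fun l => ?_⟩
  rw [h5, ← hχ ⟨χ, hirr, hinv⟩]

end Pool.Agent.ZH17.RD.UniP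

namespace Pool.Agent.ZH17.RD

open Pool.Agent.H254R3.IN Pool.Agent.K3h85.IN
open SemidirectProduct

theorem uni : UNI := by
  intro p _ B N A _ _ _ _ _ _ D W hp
  obtain ⟨U₁, i1, i2, π₁, h1, h2, h3⟩ := UniP.one_group p D.α W hp
  have hp₁ : ¬ p ∣ Nat.card (⊤ : Subgroup U₁) := by
    rwa [Subgroup.card_top]
  obtain ⟨U₂, j1, j2, π₂, h4, h5, h6⟩ := UniP.one_group p (D.β.comp π₁) (⊤ : Subgroup U₁) hp₁
  have hs : Function.Surjective π₂ := MonoidHom.range_eq_top.1 h5
  refine ⟨U₂, j1, j2, π₁.comp π₂, h4, ?_, ?_, ?_⟩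
  · rw [MonoidHom.range_comp, h5, ← h2, MonoidHom.range_eq_map]
  · intro χ hirr hinv
    obtain ⟨χ', ⟨V, k1, k2, k3, ρ, hρ, hχ'⟩, h8⟩ := h3 χ hirr hinv
    let f : NU D (π₁.comp π₂) →* N ⋊[D.α.comp π₁] U₁ :=
      SemidirectProduct.map (MonoidHom.id N) π₂ fun u => by
        ext n
        rfl
    have hf : Function.Surjective f := by
      intro x
      obtain ⟨u, hu⟩ := hs x.right
      refine ⟨⟨x.left, u⟩, ?_⟩
      apply SemidirectProduct.ext
      · rfl
      · exact hu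
    refine ⟨fun x => χ' (f x), ⟨V, k1, k2, k3, MonoidHom.comp ρ f, irr_comp_surj ρ hρ f hf, ?_⟩, ?_⟩
    · funext x
      rw [hχ']
      rfl
    · intro n
      have : f (inl n) = inl n := SemidirectProduct.map_inl ..
      beta_reduce
      rw [this, h8]
  · intro θ hirr hinv
    obtain ⟨θ', h7, h8⟩ := h6 θ hirr (by
      intro u _ b
      apply hinv
      rw [← h2]
      exact ⟨u, rfl⟩)
    exact ⟨θ', h7, h8⟩

end Pool.Agent.ZH17.RD
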