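import Pool.Agent.K3h83.IN.Asm

/-!
# Characters of representations: constituents
-/

set_option autoImplicit false
set_option linter.unusedSectionVars false
set_option linter.style.haveILetI false

open scoped BigOperators Classical

noncomputable section

namespace Pool.Agent.ZH17.RD

open Pool.Agent.Helper884 Pool.Agent.K3h3.KB Pool.Agent.K3h3.MK Pool.Agent.K3h83.IN
open Pool.Agent.H254R3.IN (IsIrr mem_Irr)
open Pool.Agent.Y63.AWC (cj mult res res_eq mult_spec)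
open Pool.Agent.R678.MC (inert mem_inert orbit_of_mult)
open Pool.Agent.K3h96.IN (tr tr_apply tr_irr B_tr fixes_iff)
open IC (Irr)
open Representation

/-- `f` is the character of a representation -/
def RC {G : Type} [Group G] (f : G → ℂ) : Prop :=
  ∃ (V : Type) (_ : AddCommGroup V) (_ : Module ℂ V) (_ : FiniteDimensional ℂ V)
    (ρ : Representation ℂ G V), f = ρ.character

theorem rc_irr {G : Type} [Group G] {f : G → ℂ} (h : IsIrr f) : RC f := by
  obtain ⟨V, i1, i2, i3, ρ, _, h2⟩ := h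
  exact ⟨V, i1, i2, i3, ρ, h2⟩

theorem rc_comp {G H : Type} [Group G] [Group H] {f : H → ℂ} (h : RC f) (p : G →* H) :
    RC fun g => f (p g) := by
  obtain ⟨V, i1, i2, i3, ρ, rfl⟩ := h
  exact ⟨V, i1, i2, i3, ρ.comp p, rfl⟩

theorem rc_mul {G : Type} [Group G] {f f' : G → ℂ} (h : RC f) (h' : RC f') :
    RC fun g => f g * f' g := by
  obtain ⟨V, i1, i2, i3, ρ, rfl⟩ := h
  obtain ⟨V', j1, j2, j3, ρ', rfl⟩ := h'
  refine ⟨TensorProduct ℂ V V', inferInstance, inferInstance, inferInstance, ρ.tprod ρ', ?_⟩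
  rw [char_tensor]
  rfl

theorem rc_inv {G : Type} [Group G] {f : G → ℂ} (h : RC f) : RC fun g => f g⁻¹ := by
  obtain ⟨V, i1, i2, i3, ρ, rfl⟩ := h
  refine ⟨Module.Dual ℂ V, inferInstance, inferInstance, inferInstance, ρ.dual, ?_⟩
  funext g
  rw [char_dual]

theorem rc_class {G : Type} [Group G] {f : G → ℂ} (h : RC f) : IC.IsClass f := by
  obtain ⟨V, i1, i2, i3, ρ, rfl⟩ := h
  exact fun g y => char_conj ρ g y

theorem rc_deg {G : Type} [Group G] {f : G → ℂ} (h : RC f) : ∃ d : ℕ, f 1 = d := by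
  obtain ⟨V, i1, i2, i3, ρ, rfl⟩ := h
  exact ⟨_, char_one ρ⟩

theorem rc_B {G : Type} [Group G] [Fintype G] {f f' : G → ℂ} (h : RC f) (h' : RC f') :
    ∃ n : ℕ, IC.B f f' = n := by
  obtain ⟨V, i1, i2, i3, ρ, rfl⟩ := h
  obtain ⟨V', j1, j2, j3, ρ', rfl⟩ := h'
  exact Pool.Agent.Q90.WR.B_nat ρ ρ'

theorem rc_norm {G : Type} [Group G] [Fintype G] {f : G → ℂ} (h : RC f) (h1 : IC.B f f = 1) :
    IsIrr f := by
  refine Pool.Agent.Q90.WR.irr_of_norm (rc_class h) (fun χ hχ => ?_) h1 (rc_deg h)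
  obtain ⟨n, hn⟩ := rc_B h (rc_irr hχ)
  exact ⟨n, by rw [hn]; push_cast; rfl⟩

theorem irr_inv {G : Type} [Group G] [Finite G] {f : G → ℂ} (h : IsIrr f) :
    IsIrr fun g => f g⁻¹ := by
  haveI := Fintype.ofFinite G
  refine rc_norm (rc_inv (rc_irr h)) ?_
  have h1 := IC.B_irr h h
  rw [if_pos rfl] at h1
  rw [← h1]
  unfold IC.B
  congr 1
  refine Fintype.sum_equiv (Equiv.inv G) _ _ fun g => ?_
  rfl

/-- a character over an irreducible character with total multiplicity one -/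
theorem exists_const {E K : Type} [Group E] [Group K] [Fintype E] [Fintype K] (s : K →* E)
    {Φ : E → ℂ} (hΦ : RC Φ) {μ : K → ℂ} (hμ : IsIrr μ) (h : IC.B (fun k => Φ (s k)) μ = 1) :
    ∃ ξ : E → ℂ, IsIrr ξ ∧ IC.B Φ ξ = 1 ∧ IC.B (fun k => ξ (s k)) μ = 1 := by
  have hn : ∀ χ ∈ Irr E, ∃ n : ℕ, IC.B Φ χ = n := fun χ hχ => rc_B hΦ (rc_irr (mem_Irr.mp hχ))
  have hm : ∀ χ ∈ Irr E, ∃ n : ℕ, IC.B (fun k => χ (s k)) μ = n := fun χ hχ =>
    rc_B (rc_comp (rc_irr (mem_Irr.mp hχ)) s) (rc_irr hμ)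
  choose! n hn using hn
  choose! m hm using hm
  have h1 := IC.expand Φ (rc_class hΦ)
  have h2 : (fun k => Φ (s k)) = ∑ χ ∈ Irr E, IC.B Φ χ • fun k => χ (s k) := by
    funext k
    have := congrFun h1 (s k)
    rw [this]
    simp [Finset.sum_apply]
  rw [h2, IC.B_sum_left] at h
  have h3 : ∑ χ ∈ Irr E, n χ * m χ = 1 := by
    have h4 : ((∑ χ ∈ Irr E, n χ * m χ : ℕ) : ℂ) = 1 := by
      rw [← h]
      push_cast
      refine Finset.sum_congr rfl fun χ hχ => ?_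
      rw [IC.B_smul_left, hn χ hχ, hm χ hχ]
    exact_mod_cast h4
  obtain ⟨ξ, hξ, hne⟩ : ∃ ξ ∈ Irr E, n ξ * m ξ ≠ 0 := by
    by_contra hcon
    push Not at hcon
    rw [Finset.sum_eq_zero hcon] at h3
    exact zero_ne_one h3
  have hle : n ξ * m ξ ≤ 1 := by
    rw [← h3]
    exact Finset.single_le_sum (f := fun χ => n χ * m χ) (fun _ _ => Nat.zero_le _) hξ
  have hone : n ξ * m ξ = 1 := by omega
  have hb := mul_eq_one.mp hone
  refine ⟨ξ, mem_Irr.mp hξ, ?_, ?_⟩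
  · rw [hn ξ hξ, hb.1, Nat.cast_one]
  · rw [hm ξ hξ, hb.2, Nat.cast_one]

theorem mem_Irr' {G : Type} [Group G] {χ : G → ℂ} (i : Fintype G) :
    χ ∈ @IC.Irr G _ i ↔ IC.IsIrrChar χ := IC.mem_Irr

/-- restriction to a normal subgroup -/
theorem restrict_eq {L X : Type} [Group L] [Fintype L] [Group X] [Fintype X] (i : L →* X)
    (hi : Function.Injective i) (hn : i.range.Normal) {θ : L → ℂ} (h : IsIrr θ)
    (hfix : ∀ x, fixes i θ x) {χ : X → ℂ} (hχ : IsIrr χ) (h1 : IC.B (fun l => χ (i l)) θ = 1)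
    (l : L) : χ (i l) = θ l := by
  have hm : mult i.range χ (tr i hi θ) = 1 := by
    have h2 : (mult i.range χ (tr i hi θ) : ℂ) = 1 :=
      (mult_spec i.range hχ (tr_irr i hi h)).symm.trans ((B_tr i hi θ χ).symm.trans h1)
    exact_mod_cast h2
  have h3 := congrFun (res_eq i.range hχ) ⟨i l, ⟨l, rfl⟩⟩
  rw [Finset.sum_apply, Finset.sum_eq_single (tr i hi θ)] at h3
  · rw [hm] at h3
    change χ (i l) = _ at h3
    rw [h3]
    simp only [Nat.cast_one, one_smul]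
    exact tr_apply i hi θ l
  · intro μ hμ hne
    by_cases hmu : mult i.range χ μ = 0
    · rw [hmu]
      simp
    · exfalso
      obtain ⟨x, hx⟩ := orbit_of_mult hχ ((@IC.mem_Irr _ _ _ μ).mp hμ) (tr_irr i hi h) hmu (by rw [hm]; exact one_ne_zero)
      rw [(fixes_iff i hi θ x).mp (hfix x)] at hx
      exact hne hx.symm
  · intro hno
    refine (hno ?_).elim
    exact (mem_Irr' _).mpr (tr_irr i hi h)

end Pool.Agent.ZH17.RD
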