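import Pool.Agent.ZH17.RD.Stm2

/-!
# CHR (helper24): a unique minimal normal subgroup which is not abelian is a power of a simple group
-/

set_option autoImplicit false
set_option linter.all false

namespace Pool.Agent.ZH17.RD

namespace Chr

variable {Y : Type} [Group Y]

/-- nontrivial subgroups of `M` normalised by `M` -/
def PN (M T : Subgroup Y) : Prop := T ≠ ⊥ ∧ T ≤ M ∧ ∀ m ∈ M, ∀ t ∈ T, m * t * m⁻¹ ∈ T

/-- conjugates -/
def cj (y : Y) (T : Subgroup Y) : Subgroup Y := T.map (MulAut.conj y).toMonoidHom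

theorem mem_cj {y x : Y} {T : Subgroup Y} : x ∈ cj y T ↔ y⁻¹ * x * y ∈ T := by
  unfold cj
  rw [Subgroup.mem_map]
  constructor
  · rintro ⟨t, ht, rfl⟩
    have : y⁻¹ * (MulAut.conj y).toMonoidHom t * y = t := by
      simp [mul_assoc]
    rwa [this]
  · intro h
    exact ⟨_, h, by simp [mul_assoc]⟩

theorem cj_cj {y : Y} {T : Subgroup Y} : cj y (cj y⁻¹ T) = T := by
  ext x
  rw [mem_cj, mem_cj, inv_inv]
  simp [mul_assoc]

theorem cj_mul {y z : Y} {T : Subgroup Y} : cj y (cj z T) = cj (y * z) T := by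
  ext x
  rw [mem_cj, mem_cj, mem_cj]
  simp [mul_assoc]

theorem cj_one {T : Subgroup Y} : cj 1 T = T := by
  ext x
  rw [mem_cj]
  simp

theorem cj_mono {y : Y} {T T' : Subgroup Y} (h : T ≤ T') : cj y T ≤ cj y T' :=
  Subgroup.map_mono h

theorem cj_PN {M : Subgroup Y} (hM : M.Normal) {T : Subgroup Y} (h : PN M T) (y : Y) : PN M (cj y T) := by
  obtain ⟨h1, h2, h3⟩ := h
  refine ⟨?_, ?_, ?_⟩
  · intro h4
    apply h1
    have h5 : cj y⁻¹ (cj y T) = T := by
      rw [cj_mul, inv_mul_cancel, cj_one]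
    rw [← h5, h4]
    unfold cj
    exact Subgroup.map_bot _
  · intro x hx
    rw [mem_cj] at hx
    have h4 := hM.conj_mem _ (h2 hx) y
    have : y * (y⁻¹ * x * y) * y⁻¹ = x := by group
    rwa [this] at h4
  · intro m hm t ht
    rw [mem_cj] at ht ⊢
    have h4 : y⁻¹ * m * y ∈ M := by
      have := hM.conj_mem m hm y⁻¹
      rwa [inv_inv] at this
    have h5 := h3 _ h4 _ ht
    have : y⁻¹ * (m * t * m⁻¹) * y = y⁻¹ * m * y * (y⁻¹ * t * y) * (y⁻¹ * m * y)⁻¹ := by group
    rwa [this]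

theorem cj_min {M : Subgroup Y} (hM : M.Normal) {S : Subgroup Y} (h : Minimal (PN M) S) (y : Y) :
    Minimal (PN M) (cj y S) := by
  refine ⟨cj_PN hM h.1 y, fun T hT hTS => ?_⟩
  have h1 : cj y⁻¹ T ≤ S := by
    have := cj_mono (y := y⁻¹) hTS
    rwa [cj_mul, inv_mul_cancel, cj_one] at this
  have h2 := h.2 (cj_PN hM hT y⁻¹) h1
  have h3 := cj_mono (y := y) h2
  rwa [cj_cj] at h3

theorem disj {M S₁ S₂ : Subgroup Y} (h₁ : Minimal (PN M) S₁) (h₂ : Minimal (PN M) S₂) (hne : S₁ ≠ S₂)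
    {a b : Y} (ha : a ∈ S₁) (hb : b ∈ S₂) : a * b = b * a := by
  by_cases hbot : S₁ ⊓ S₂ = ⊥
  · have h1 : a * b * a⁻¹ * b⁻¹ ∈ S₁ ⊓ S₂ := by
      refine ⟨?_, ?_⟩
      · have := S₁.mul_mem ha (h₁.1.2.2 b (h₂.1.2.1 hb) _ (S₁.inv_mem ha))
        have e : a * (b * a⁻¹ * b⁻¹) = a * b * a⁻¹ * b⁻¹ := by group
        rwa [e] at this
      · exact S₂.mul_mem (h₂.1.2.2 a (h₁.1.2.1 ha) _ hb) (S₂.inv_mem hb)
    rw [hbot, Subgroup.mem_bot] at h1
    have h2 : a * b = (a * b * a⁻¹ * b⁻¹) * (b * a) := by group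
    rw [h2, h1, one_mul]
  · exfalso
    apply hne
    have hP : PN M (S₁ ⊓ S₂) :=
      ⟨hbot, inf_le_left.trans h₁.1.2.1, fun m hm t ht => ⟨h₁.1.2.2 m hm t ht.1, h₂.1.2.2 m hm t ht.2⟩⟩
    exact le_antisymm ((h₁.2 hP inf_le_left).trans inf_le_right) ((h₂.2 hP inf_le_right).trans inf_le_left)

end Chr

open Chr in
theorem chr_main (Y : Type) [Group Y] [Finite Y] (M : Subgroup Y) (hM : M.Normal)
    (huniq : ∀ L : Subgroup Y, L.Normal → L ≠ ⊥ → M ≤ L) (hab : ∃ a ∈ M, ∃ b ∈ M, a * b ≠ b * a) :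
    ∃ (S : Type) (_ : Group S) (_ : Finite S) (_ : IsSimpleGroup S) (k : ℕ), 0 < k ∧
      (∃ a b : S, a * b ≠ b * a) ∧ Nonempty (M ≃* (Fin k → S)) := by
  classical
  -- the centre of `M` is trivial
  have hZ : ∀ z ∈ M, (∀ m ∈ M, z * m = m * z) → z = 1 := by
    intro z hz hzc
    by_contra hz1
    have hN : (M ⊓ Subgroup.centralizer (M : Set Y)).Normal := by
      refine ⟨fun n hn g => ⟨hM.conj_mem n hn.1 g, ?_⟩⟩
      show g * n * g⁻¹ ∈ Subgroup.centralizer (M : Set Y)
      rw [Subgroup.mem_centralizer_iff]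
      intro h hh
      have h1 := (Subgroup.mem_centralizer_iff.1 hn.2) (g⁻¹ * h * g) (by
        have := hM.conj_mem h hh g⁻¹
        rwa [inv_inv] at this)
      calc h * (g * n * g⁻¹) = g * ((g⁻¹ * h * g) * n) * g⁻¹ := by group
        _ = g * (n * (g⁻¹ * h * g)) * g⁻¹ := by rw [h1]
        _ = g * n * g⁻¹ * h := by group
    have h1 := huniq _ hN (by
      intro h2
      have h3 : z ∈ M ⊓ Subgroup.centralizer (M : Set Y) :=
        ⟨hz, Subgroup.mem_centralizer_iff.2 fun h hh => (hzc h hh).symm⟩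
      rw [h2, Subgroup.mem_bot] at h3
      exact hz1 h3)
    obtain ⟨a, ha, b, hb, hab⟩ := hab
    exact hab (((Subgroup.mem_centralizer_iff.1 (h1 hb).2) a ha))
  have hMne : M ≠ ⊥ := by
    rintro rfl
    obtain ⟨a, ha, b, hb, hab⟩ := hab
    rw [Subgroup.mem_bot] at ha hb
    rw [ha, hb] at hab
    exact hab rfl
  -- a minimal normal subgroup of `M`
  obtain ⟨S, hS⟩ := exists_minimal_of_wellFoundedLT (PN M)
    ⟨M, hMne, le_rfl, fun m hm t ht => M.mul_mem (M.mul_mem hm ht) (M.inv_mem hm)⟩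
  let I := Set.range fun y : Y => cj y S
  haveI : Finite I := Set.finite_range _
  haveI : Fintype I := Fintype.ofFinite I
  have hImin : ∀ i : I, Minimal (PN M) i.1 := by
    rintro ⟨_, y, rfl⟩
    exact cj_min hM hS y
  have hcomm : Pairwise fun i j : I => ∀ x y : Y, x ∈ i.1 → y ∈ j.1 → Commute x y := by
    intro i j hij x y hx hy
    exact disj (hImin i) (hImin j) (fun h => hij (Subtype.ext h)) hx hy
  -- the join
  let J : Subgroup Y := ⨆ i : I, i.1
  have hSJ : S ≤ J := le_iSup_of_le (⟨S, 1, cj_one⟩ : I) le_rfl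
  have hJM : J ≤ M := iSup_le fun i => (hImin i).1.2.1
  have hJn : J.Normal := by
    refine ⟨fun n hn g => ?_⟩
    refine Subgroup.iSup_induction (fun i : I => i.1) (C := fun n => g * n * g⁻¹ ∈ J) hn ?_ ?_ ?_
    · intro i x hx
      obtain ⟨y, hy⟩ := i.2
      have h1 : cj g i.1 = cj (g * y) S := by
        rw [← cj_mul]
        congr 1
        exact hy.symm
      have h2 : g * x * g⁻¹ ∈ cj (g * y) S := by
        rw [← h1, mem_cj]
        have : g⁻¹ * (g * x * g⁻¹) * g = x := by group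
        rwa [this]
      exact (le_iSup (fun i : I => i.1) ⟨cj (g * y) S, g * y, rfl⟩) h2
    · simp
    · intro x y hx hy
      have := J.mul_mem hx hy
      have e : g * x * g⁻¹ * (g * y * g⁻¹) = g * (x * y) * g⁻¹ := by group
      rwa [e] at this
  have hJ : J = M := by
    refine le_antisymm hJM (huniq J hJn ?_)
    intro h
    exact hS.1.1 (le_bot_iff.1 (h ▸ hSJ))
  -- elements which commute with all conjugates are trivial
  have hcen : ∀ x ∈ M, (∀ i : I, ∀ t ∈ i.1, x * t = t * x) → x = 1 := by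
    intro x hx h
    refine hZ x hx fun m hm => ?_
    have h1 : J ≤ Subgroup.centralizer ({x} : Set Y) := by
      refine iSup_le fun i t ht => ?_
      rw [Subgroup.mem_centralizer_iff]
      intro y hy
      rw [Set.mem_singleton_iff] at hy
      rw [hy]
      exact h i t ht
    rw [hJ] at h1
    exact (Subgroup.mem_centralizer_iff.1 (h1 hm)) x rfl
  have hind : iSupIndep fun i : I => i.1 := by
    intro i
    rw [disjoint_iff, eq_bot_iff]
    intro x hx
    rw [Subgroup.mem_bot]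
    refine hcen x ((hImin i).1.2.1 hx.1) fun j t ht => ?_
    by_cases hij : i = j
    · subst hij
      have h1 : (⨆ (j : I) (_ : j ≠ i), j.1) ≤ Subgroup.centralizer (i.1 : Set Y) := by
        refine iSup_le fun j => iSup_le fun hji y hy => ?_
        rw [Subgroup.mem_centralizer_iff]
        intro z hz
        exact (hcomm (Ne.symm hji) z y hz hy)
      exact ((Subgroup.mem_centralizer_iff.1 (h1 hx.2)) t ht).symm
    · exact hcomm hij x t hx.1 ht
  -- simplicity
  have hnt : Nontrivial S := (Subgroup.nontrivial_iff_ne_bot S).2 hS.1.1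
  have hSI : ∃ i₀ : I, i₀.1 = S := ⟨⟨S, 1, cj_one⟩, rfl⟩
  obtain ⟨i₀, hi₀⟩ := hSI
  have hsimple : IsSimpleGroup S := by
    refine { toNontrivial := hnt, eq_bot_or_eq_top_of_normal := fun N hN => ?_ }
    by_cases hbot : N = ⊥
    · exact Or.inl hbot
    right
    let T := N.map S.subtype
    have hTS : T ≤ S := Subgroup.map_subtype_le N
    have hTne : T ≠ ⊥ := by
      intro h
      apply hbot
      exact (Subgroup.map_eq_bot_iff_of_injective N S.subtype_injective).1 h
    have hT : PN M T := by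
      refine ⟨hTne, hTS.trans hS.1.2.1, fun m hm => ?_⟩
      have hm' : m ∈ J := by rw [hJ]; exact hm
      refine Subgroup.iSup_induction (fun i : I => i.1) (C := fun m => ∀ t ∈ T, m * t * m⁻¹ ∈ T) hm' ?_ ?_ ?_
      · intro i x hx t ht
        by_cases hi : i = i₀
        · rw [hi, hi₀] at hx
          obtain ⟨n, hn, rfl⟩ := ht
          exact ⟨⟨x, hx⟩ * n * ⟨x, hx⟩⁻¹, hN.conj_mem n hn _, rfl⟩
        · have h1 := hcomm hi x t hx (by rw [hi₀]; exact hTS ht)
          rw [h1.eq, mul_inv_cancel_right]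
          exact ht
      · intro t ht
        simpa using ht
      · intro x y hx hy t ht
        have := hx _ (hy t ht)
        have e : x * (y * t * y⁻¹) * x⁻¹ = x * y * t * (x * y)⁻¹ := by group
        rwa [e] at this
    have h1 : S ≤ T := hS.2 hT hTS
    rw [eq_top_iff]
    intro s _
    obtain ⟨n, hn, hns⟩ := h1 s.2
    have : n = s := Subtype.ext hns
    rwa [← this]
  refine ⟨S, inferInstance, inferInstance, hsimple, Fintype.card I, Fintype.card_pos_iff.2 ⟨i₀⟩, ?_, ?_⟩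
  · by_contra hcon
    push Not at hcon
    obtain ⟨⟨s, hs⟩, hs1⟩ := exists_ne (1 : S)
    apply hs1
    rw [Subtype.ext_iff]
    refine hcen s (hS.1.2.1 hs) fun i t ht => ?_
    by_cases hi : i = i₀
    · rw [hi, hi₀] at ht
      exact congrArg Subtype.val (hcon ⟨s, hs⟩ ⟨t, ht⟩)
    · exact (hcomm (Ne.symm hi) s t (by rw [hi₀]; exact hs) ht).eq
  · -- the isomorphism
    let f := Subgroup.noncommPiCoprod hcomm
    have hf : Function.Injective f := Subgroup.injective_noncommPiCoprod_of_iSupIndep hind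
    have hrange : f.range = M := by
      rw [← hJ]
      exact Subgroup.noncommPiCoprod_range
    have e₁ : (∀ i : I, i.1) ≃* M := (MonoidHom.ofInjective hf).trans (MulEquiv.subgroupCongr hrange)
    have e₂ : ∀ i : I, Nonempty (i.1 ≃* S) := by
      rintro ⟨_, y, rfl⟩
      exact ⟨(S.equivMapOfInjective (MulAut.conj y).toMonoidHom (MulAut.conj y).injective).symm⟩
    have e₃ : (∀ i : I, i.1) ≃* (I → S) := MulEquiv.piCongrRight fun i => (e₂ i).some
    have e₄ : (I → S) ≃* (Fin (Fintype.card I) → S) :=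
      { Equiv.arrowCongr (Fintype.equivFin I) (Equiv.refl S) with
        map_mul' := fun x y => rfl }
    exact ⟨e₁.symm.trans (e₃.trans e₄)⟩

/-- **Piece CHR** -/
theorem chr : CHR := fun Y _ _ M hM h1 h2 => chr_main Y M hM h1 h2

end Pool.Agent.ZH17.RD
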