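import Pool.Agent.ZH17.RD.Base

/-!
# The Clifford correspondence for `N ⋊ U` (for piece CLI)
-/

set_option autoImplicit false
set_option linter.unusedSectionVars false
set_option linter.style.haveILetI false

open scoped BigOperators Classical

noncomputable section

namespace Pool.Agent.ZH17.RD.CLA

open Pool.Agent.Helper884 Pool.Agent.K3h3.KB Pool.Agent.K3h3.MK Pool.Agent.K3h83.IN Pool.Agent.ZH17.RD
open Pool.Agent.H254R3.IN (IsIrr mem_Irr)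
open Pool.Agent.Y63.AWC (cj mult res res_eq mult_spec)
open Pool.Agent.R678.MC (inert mem_inert orbit_of_mult)
open Pool.Agent.K3h96.IN (tr tr_apply tr_irr B_tr fixes_iff)
open IC (Irr)
open SemidirectProduct

section

variable {N U : Type} [Group N] [Fintype N] [Group U] [Fintype U] {φ : U →* MulAut N} (U₁ : Subgroup U)

/-- the semidirect product with the subgroup -/
abbrev TT (φ : U →* MulAut N) (U₁ : Subgroup U) : Type := N ⋊[φ.comp U₁.subtype] U₁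

/-- the inclusion -/
def J (φ : U →* MulAut N) (U₁ : Subgroup U) : TT φ U₁ →* N ⋊[φ] U :=
  SemidirectProduct.map (MonoidHom.id N) U₁.subtype fun _ => rfl

theorem J_left (x : TT φ U₁) : (J φ U₁ x).left = x.left := rfl

theorem J_right (x : TT φ U₁) : (J φ U₁ x).right = x.right := rfl

theorem J_inl (n : N) : J φ U₁ (inl n) = inl n := by
  unfold J
  rw [SemidirectProduct.map_inl]
  rfl

/-- extension by zero -/
def z0 (ψ : TT φ U₁ → ℂ) (x : N ⋊[φ] U) : ℂ :=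
  if h : x.right ∈ U₁ then ψ ⟨x.left, ⟨x.right, h⟩⟩ else 0

theorem z0_J (ψ : TT φ U₁ → ℂ) (y : TT φ U₁) : z0 U₁ ψ (J φ U₁ y) = ψ y := by
  unfold z0
  rw [dif_pos (by rw [J_right]; exact y.right.2)]
  rfl

theorem z0_conj {ψ : TT φ U₁ → ℂ} (hψ : IC.IsClass ψ) (n : N) (x : N ⋊[φ] U) :
    z0 U₁ ψ (inl n * x * (inl n)⁻¹) = z0 U₁ ψ x := by
  have hr : ((inl n : N ⋊[φ] U) * x * (inl n)⁻¹).right = x.right := by simp
  unfold z0
  by_cases h : x.right ∈ U₁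
  · rw [dif_pos h, dif_pos (by rw [hr]; exact h), ← hψ ⟨x.left, ⟨x.right, h⟩⟩ (inl n)]
    congr 1
  · rw [dif_neg h, dif_neg (by rw [hr]; exact h)]

/-- the induced class function -/
def IU (ψ : TT φ U₁ → ℂ) (x : N ⋊[φ] U) : ℂ :=
  (Nat.card U₁ : ℂ)⁻¹ * ∑ u : U, z0 U₁ ψ (inr u * x * (inr u)⁻¹)

theorem IU_class {ψ : TT φ U₁ → ℂ} (hψ : IC.IsClass ψ) : IC.IsClass (IU U₁ ψ) := by
  intro x y
  unfold IU
  congr 1
  refine Fintype.sum_equiv (Equiv.mulRight y.right) _ _ fun u => ?_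
  rw [Equiv.coe_mulRight]
  have h1 : (inr u : N ⋊[φ] U) * (y * x * y⁻¹) * (inr u)⁻¹ =
      inl (φ u y.left) * (inr (u * y.right) * x * (inr (u * y.right))⁻¹) * (inl (φ u y.left))⁻¹ := by
    have h2 : (inr u : N ⋊[φ] U) * y = inl (φ u y.left) * inr (u * y.right) := by
      ext
      · simp
      · simp
    calc (inr u : N ⋊[φ] U) * (y * x * y⁻¹) * (inr u)⁻¹ = (inr u * y) * x * (inr u * y)⁻¹ := by
          group
      _ = _ := by
          rw [h2]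
          group
  rw [h1, z0_conj U₁ hψ]

theorem IU_one (ψ : TT φ U₁ → ℂ) : IU U₁ ψ 1 = U₁.index * ψ 1 := by
  unfold IU
  have h1 : ∀ u : U, z0 U₁ ψ (inr u * 1 * (inr u)⁻¹) = ψ 1 := by
    intro u
    rw [mul_one, mul_inv_cancel]
    exact (congrArg (z0 U₁ ψ) (map_one (J φ U₁)).symm).trans (z0_J U₁ ψ 1)
  rw [Finset.sum_congr rfl fun u _ => h1 u, Finset.sum_const, Finset.card_univ, nsmul_eq_mul]
  have h2 := U₁.card_mul_index
  have h3 : (Nat.card U₁ : ℂ) ≠ 0 := by exact_mod_cast Nat.card_pos.ne'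
  rw [← Nat.card_eq_fintype_card, ← h2]
  push_cast
  field_simp

instance : Fintype (TT φ U₁) := Fintype.ofFinite _

variable [Fintype (N ⋊[φ] U)]

/-- Frobenius reciprocity -/
theorem frob (ψ : TT φ U₁ → ℂ) {f : N ⋊[φ] U → ℂ} (hf : IC.IsClass f) :
    IC.B (IU U₁ ψ) f = IC.B ψ (fun y => f (J φ U₁ y)) := by
  unfold IC.B
  have h1 : ∑ x : N ⋊[φ] U, IU U₁ ψ x * f x⁻¹ = (Nat.card U₁ : ℂ)⁻¹ *
      ∑ u : U, ∑ x : N ⋊[φ] U, z0 U₁ ψ (inr u * x * (inr u)⁻¹) * f x⁻¹ := by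
    rw [Finset.sum_comm, Finset.mul_sum]
    refine Finset.sum_congr rfl fun x _ => ?_
    unfold IU
    rw [mul_assoc, Finset.sum_mul]
  have h2 : ∀ u : U, ∑ x : N ⋊[φ] U, z0 U₁ ψ (inr u * x * (inr u)⁻¹) * f x⁻¹ =
      ∑ x : N ⋊[φ] U, z0 U₁ ψ x * f x⁻¹ := by
    intro u
    refine Fintype.sum_equiv (MulAut.conj (inr u : N ⋊[φ] U)).toEquiv _ _ fun x => ?_
    change z0 U₁ ψ (inr u * x * (inr u)⁻¹) * f x⁻¹ = z0 U₁ ψ (inr u * x * (inr u)⁻¹) * f (inr u * x * (inr u)⁻¹)⁻¹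
    congr 1
    rw [← hf x⁻¹ (inr u)]
    congr 1
    group
  have hinj : Function.Injective (J φ U₁) := by
    intro x y hxy
    have e1 := congrArg SemidirectProduct.left hxy
    have e2 := congrArg SemidirectProduct.right hxy
    ext
    · exact e1
    · exact e2
  have h3 : ∑ x : N ⋊[φ] U, z0 U₁ ψ x * f x⁻¹ = ∑ y : TT φ U₁, ψ y * f (J φ U₁ y)⁻¹ := by
    have h4 : ∑ y : TT φ U₁, ψ y * f (J φ U₁ y)⁻¹ =
        ∑ x ∈ Finset.univ.image (J φ U₁), z0 U₁ ψ x * f x⁻¹ := by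
      rw [Finset.sum_image fun a _ b _ h => hinj h]
      refine Finset.sum_congr rfl fun y _ => ?_
      rw [z0_J]
    rw [h4]
    symm
    refine Finset.sum_subset (Finset.subset_univ _) fun x _ hx => ?_
    have h5 : x.right ∉ U₁ := by
      intro h5
      refine hx (Finset.mem_image.2 ⟨⟨x.left, ⟨x.right, h5⟩⟩, Finset.mem_univ _, ?_⟩)
      ext
      · rfl
      · rfl
    unfold z0
    rw [dif_neg h5, zero_mul]
  rw [h1, Finset.sum_congr rfl fun u _ => h2 u, Finset.sum_const, Finset.card_univ, nsmul_eq_mul, h3]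
  have c1 : Nat.card (N ⋊[φ] U) = Nat.card N * Nat.card U := SemidirectProduct.card
  have c2 : Nat.card (TT φ U₁) = Nat.card N * Nat.card U₁ := SemidirectProduct.card
  have n1 : (Nat.card N : ℂ) ≠ 0 := by exact_mod_cast Nat.card_pos.ne'
  have n2 : (Nat.card U : ℂ) ≠ 0 := by exact_mod_cast Nat.card_pos.ne'
  have n3 : (Nat.card U₁ : ℂ) ≠ 0 := by exact_mod_cast Nat.card_pos.ne'
  rw [c1, c2, ← Nat.card_eq_fintype_card]
  push_cast
  simp only [← map_inv]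
  field_simp

theorem B_inl_nat {χ : N ⋊[φ] U → ℂ} (hχ : IsIrr χ) {θ : N → ℂ} (hθ : IsIrr θ) :
    ∃ n : ℕ, IC.B (fun n => χ (inl n)) θ = n := rc_B (rc_comp (rc_irr hχ) inl) (rc_irr hθ)

/-- the degree of a character over `θ` -/
theorem deg_over {χ : N ⋊[φ] U → ℂ} (hχ : IsIrr χ) {θ : N → ℂ} (hθ : IsIrr θ)
    (hU : ∀ u, u ∈ U₁ ↔ ∀ n, θ (φ u n) = θ n) {m : ℕ} (hm : IC.B (fun n => χ (inl n)) θ = m) (hm0 : m ≠ 0) :
    ndeg χ = m * (U₁.index * ndeg θ) := by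
  have hinj : Function.Injective (inl : N →* N ⋊[φ] U) := inl_injective
  have hT : ∀ x, x ∈ U₁.comap (rightHom : N ⋊[φ] U →* U) ↔ fixes inl θ x := by
    intro x
    rw [Subgroup.mem_comap]
    change x.right ∈ U₁ ↔ _
    rw [hU]
    have hx : ∀ n : N, x * inl n * x⁻¹ = inl (x.left * φ x.right n * x.left⁻¹) := by
      intro n
      ext
      · simp [mul_assoc]
      · simp
    constructor
    · intro h l l' hl
      rw [hx] at hl
      rw [← hinj hl, hθ.conj, h]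
    · intro h n
      have := h n _ (hx n)
      rw [hθ.conj] at this
      exact this
  have hn : (inl : N →* N ⋊[φ] U).range.Normal := by
    rw [range_inl_eq_ker_rightHom]
    infer_instance
  have h1 : mult (inl : N →* N ⋊[φ] U).range χ (tr inl hinj θ) = m := by
    have h2 : (mult (inl : N →* N ⋊[φ] U).range χ (tr inl hinj θ) : ℂ) = m :=
      (mult_spec _ hχ (tr_irr inl hinj hθ)).symm.trans ((B_tr inl hinj θ χ).symm.trans hm)
    exact_mod_cast h2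
  have h2 := Pool.Agent.K3h96.IN.degree inl hinj hθ _ hT hχ (by rw [h1]; exact hm0)
  rw [h1, Subgroup.index_comap_of_surjective _ rightHom_surjective] at h2
  exact h2

/-- the characters of `N ⋊ U` under the restriction to `N ⋊ U₁` -/
theorem B_le {χ : N ⋊[φ] U → ℂ} (hχ : IsIrr χ) {θ : N → ℂ} (hθ : IsIrr θ) (s : Finset (TT φ U₁ → ℂ))
    (hs : ∀ ψ ∈ s, IsIrr ψ ∧ IC.B (fun n => ψ (inl n)) θ = 1) (g : (TT φ U₁ → ℂ) → ℕ)
    (hg : ∀ ψ ∈ s, IC.B (fun y => χ (J φ U₁ y)) ψ = g ψ) {m : ℕ}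
    (hm : IC.B (fun n => χ (inl n)) θ = m) : ∑ ψ ∈ s, g ψ ≤ m := by
  have hΦ : RC (fun y => χ (J φ U₁ y)) := rc_comp (rc_irr hχ) _
  have hn : ∀ ψ ∈ Irr (TT φ U₁), ∃ n : ℕ, IC.B (fun y => χ (J φ U₁ y)) ψ = n := fun ψ hψ =>
    rc_B hΦ (rc_irr (mem_Irr.mp hψ))
  have hk : ∀ ψ ∈ Irr (TT φ U₁), ∃ n : ℕ, IC.B (fun n => ψ (inl n)) θ = n := fun ψ hψ =>
    rc_B (rc_comp (rc_irr (mem_Irr.mp hψ)) inl) (rc_irr hθ)
  choose! n hn using hn
  choose! k hk using hk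
  have h1 := IC.expand _ (rc_class hΦ)
  have h2 : (fun n => χ (inl n)) = ∑ ψ ∈ Irr (TT φ U₁), IC.B (fun y => χ (J φ U₁ y)) ψ • fun n => ψ (inl n) := by
    funext n
    have := congrFun h1 (inl n)
    beta_reduce at this
    rw [J_inl] at this
    rw [this]
    simp [Finset.sum_apply]
  rw [h2, IC.B_sum_left] at hm
  have h3 : ∑ ψ ∈ Irr (TT φ U₁), n ψ * k ψ = m := by
    have h4 : ((∑ ψ ∈ Irr (TT φ U₁), n ψ * k ψ : ℕ) : ℂ) = m := by
      rw [← hm]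
      push_cast
      refine Finset.sum_congr rfl fun ψ hψ => ?_
      rw [IC.B_smul_left, hn ψ hψ, hk ψ hψ]
    exact_mod_cast h4
  have hsub : s ⊆ Irr (TT φ U₁) := fun ψ hψ => mem_Irr.mpr (hs ψ hψ).1
  rw [← h3]
  refine le_trans (le_of_eq (Finset.sum_congr rfl fun ψ hψ => ?_)) (Finset.sum_le_sum_of_subset hsub)
  have e1 : k ψ = 1 := by
    have := (hk ψ (hsub hψ)).symm.trans (hs ψ hψ).2
    exact_mod_cast this
  have e2 : n ψ = g ψ := by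
    have := (hn ψ (hsub hψ)).symm.trans (hg ψ hψ)
    exact_mod_cast this
  rw [e1, e2, mul_one]

/-- the induced character is irreducible -/
theorem IU_irr {θ : N → ℂ} (hθ : IsIrr θ) (hU : ∀ u, u ∈ U₁ ↔ ∀ n, θ (φ u n) = θ n)
    {ψ : TT φ U₁ → ℂ} (hψ : IsIrr ψ) (hr : ∀ n, ψ (inl n) = θ n) :
    IsIrr (IU U₁ ψ) ∧ IC.B (fun n => IU U₁ ψ (inl n)) θ = 1 ∧
      IC.B (fun y => IU U₁ ψ (J φ U₁ y)) ψ = 1 := by
  have hrB : IC.B (fun n => ψ (inl n)) θ = 1 := by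
    rw [show (fun n => ψ (inl n)) = θ from funext hr, IC.B_irr hθ hθ, if_pos rfl]
  have hcl : IC.IsClass ψ := rc_class (rc_irr hψ)
  have hm : ∀ χ ∈ Irr (N ⋊[φ] U), ∃ m : ℕ, IC.B (fun y => χ (J φ U₁ y)) ψ = m := fun χ hχ =>
    rc_B (rc_comp (rc_irr (mem_Irr.mp hχ)) _) (rc_irr hψ)
  choose! m hm using hm
  have h1 : IU U₁ ψ = ∑ χ ∈ Irr (N ⋊[φ] U), (m χ : ℂ) • χ := by
    conv_lhs => rw [IC.expand _ (IU_class U₁ hcl)]
    refine Finset.sum_congr rfl fun χ hχ => ?_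
    rw [frob U₁ ψ (rc_class (rc_irr (mem_Irr.mp hχ))), IC.B_comm, hm χ hχ]
  have h2 : ∑ χ ∈ Irr (N ⋊[φ] U), m χ * ndeg χ = U₁.index * ndeg θ := by
    have h3 := congrFun h1 1
    rw [IU_one, Finset.sum_apply] at h3
    have h4 : ψ 1 = ndeg θ := by
      rw [ndeg_cast hθ, ← hr 1, map_one]
    rw [h4] at h3
    have h5 : ((∑ χ ∈ Irr (N ⋊[φ] U), m χ * ndeg χ : ℕ) : ℂ) = ((U₁.index * ndeg θ : ℕ) : ℂ) := by
      push_cast
      rw [h3]
      refine Finset.sum_congr rfl fun χ hχ => ?_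
      rw [Pi.smul_apply, smul_eq_mul, ndeg_cast (mem_Irr.mp hχ)]
    exact_mod_cast h5
  have hpos : 0 < U₁.index * ndeg θ := Nat.mul_pos
    (Nat.pos_of_ne_zero Subgroup.FiniteIndex.index_ne_zero) (ndeg_pos hθ)
  have hdeg : ∀ χ ∈ Irr (N ⋊[φ] U), m χ ≠ 0 → ∃ e : ℕ, IC.B (fun n => χ (inl n)) θ = e ∧ e ≠ 0 ∧
      ndeg χ = e * (U₁.index * ndeg θ) := by
    intro χ hχ h0
    obtain ⟨e, he⟩ := B_inl_nat (mem_Irr.mp hχ) hθ
    have h3 := B_le U₁ (mem_Irr.mp hχ) hθ {ψ} (by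
      intro ψ' hψ'
      rw [Finset.mem_singleton] at hψ'
      subst hψ'
      exact ⟨hψ, hrB⟩) (fun _ => m χ) (by
      intro ψ' hψ'
      rw [Finset.mem_singleton] at hψ'
      subst hψ'
      exact hm χ hχ) he
    rw [Finset.sum_singleton] at h3
    have h4 : e ≠ 0 := by omega
    exact ⟨e, he, h4, deg_over U₁ (mem_Irr.mp hχ) hθ hU he h4⟩
  obtain ⟨χ, hχ, hne⟩ : ∃ χ ∈ Irr (N ⋊[φ] U), m χ ≠ 0 := by
    by_contra hcon
    push Not at hcon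
    rw [Finset.sum_eq_zero fun χ hχ => by rw [hcon χ hχ, zero_mul]] at h2
    omega
  obtain ⟨e, he, he0, hde⟩ := hdeg χ hχ hne
  have h3 : m χ * ndeg χ ≤ U₁.index * ndeg θ := by
    rw [← h2]
    exact Finset.single_le_sum (f := fun χ => m χ * ndeg χ) (fun _ _ => Nat.zero_le _) hχ
  have h4 : m χ * e = 1 := by
    rw [hde, ← mul_assoc] at h3
    have h5 : m χ * e ≤ 1 := by
      by_contra h6
      have h7 : 2 * (U₁.index * ndeg θ) ≤ m χ * e * (U₁.index * ndeg θ) :=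
        Nat.mul_le_mul_right _ (by omega)
      omega
    have h6 : 0 < m χ * e := Nat.mul_pos (Nat.pos_of_ne_zero hne) (Nat.pos_of_ne_zero he0)
    omega
  obtain ⟨h5, h6⟩ := mul_eq_one.mp h4
  have h7 : ∀ χ' ∈ Irr (N ⋊[φ] U), χ' ≠ χ → m χ' = 0 := by
    intro χ' hχ' hne'
    by_contra h0
    have h8 : ∑ x ∈ {χ, χ'}, m x * ndeg x ≤ U₁.index * ndeg θ := by
      rw [← h2]
      refine Finset.sum_le_sum_of_subset ?_
      intro x hx
      rw [Finset.mem_insert, Finset.mem_singleton] at hx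
      rcases hx with rfl | rfl
      · exact hχ
      · exact hχ'
    rw [Finset.sum_pair (Ne.symm hne'), h5, one_mul, hde, h6, one_mul] at h8
    have h9 : 0 < m χ' * ndeg χ' := Nat.mul_pos (Nat.pos_of_ne_zero h0) (ndeg_pos (mem_Irr.mp hχ'))
    omega
  have h8 : IU U₁ ψ = χ := by
    rw [h1, Finset.sum_eq_single χ]
    · rw [h5, Nat.cast_one, one_smul]
    · intro χ' hχ' hne'
      rw [h7 χ' hχ' hne', Nat.cast_zero, zero_smul]
    · intro h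
      exact absurd hχ h
  rw [h8]
  refine ⟨mem_Irr.mp hχ, ?_, ?_⟩
  · rw [he, h6, Nat.cast_one]
  · rw [hm χ hχ, h5, Nat.cast_one]

/-- injectivity -/
theorem IU_inj {θ : N → ℂ} (hθ : IsIrr θ) (hU : ∀ u, u ∈ U₁ ↔ ∀ n, θ (φ u n) = θ n)
    {ψ ψ' : TT φ U₁ → ℂ} (hψ : IsIrr ψ) (hr : ∀ n, ψ (inl n) = θ n) (hψ' : IsIrr ψ')
    (hr' : ∀ n, ψ' (inl n) = θ n) (h : IU U₁ ψ = IU U₁ ψ') : ψ = ψ' := by
  obtain ⟨h1, h2, h3⟩ := IU_irr U₁ hθ hU hψ hr
  obtain ⟨h1', h2', h3'⟩ := IU_irr U₁ hθ hU hψ' hr'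
  by_contra hne
  have hB : IC.B θ θ = 1 := by rw [IC.B_irr hθ hθ, if_pos rfl]
  have h4 := B_le U₁ h1 hθ {ψ, ψ'} (by
    intro ξ hξ
    rw [Finset.mem_insert, Finset.mem_singleton] at hξ
    rcases hξ with rfl | rfl
    · exact ⟨hψ, by rw [show (fun n => ξ (inl n)) = θ from funext hr, hB]⟩
    · exact ⟨hψ', by rw [show (fun n => ξ (inl n)) = θ from funext hr', hB]⟩) (fun _ => 1) (by
    intro ξ hξ
    rw [Finset.mem_insert, Finset.mem_singleton] at hξ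
    rcases hξ with rfl | rfl
    · rw [h3, Nat.cast_one]
    · rw [h, h3', Nat.cast_one]) (m := 1) (by rw [h2, Nat.cast_one])
  rw [Finset.sum_pair hne] at h4
  omega

/-- surjectivity -/
theorem IU_surj {θ : N → ℂ} (hθ : IsIrr θ) (hU : ∀ u, u ∈ U₁ ↔ ∀ n, θ (φ u n) = θ n)
    {χ : N ⋊[φ] U → ℂ} (hχ : IsIrr χ) (h1 : IC.B (fun n => χ (inl n)) θ = 1) :
    ∃ ψ : TT φ U₁ → ℂ, IsIrr ψ ∧ (∀ n, ψ (inl n) = θ n) ∧ IU U₁ ψ = χ := by
  have hΦ : RC (fun y => χ (J φ U₁ y)) := rc_comp (rc_irr hχ) _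
  obtain ⟨ψ, h2, h3, h4⟩ := exists_const (inl : N →* TT φ U₁) hΦ hθ (by
    rw [← h1]
    congr 1)
  have hn : (inl : N →* TT φ U₁).range.Normal := by
    rw [range_inl_eq_ker_rightHom]
    infer_instance
  have hfix : ∀ x : TT φ U₁, fixes inl θ x := by
    intro x l l' hl
    have hx : x * inl l * x⁻¹ = inl (x.left * φ x.right l * x.left⁻¹) := by
      ext
      · simp [mul_assoc]
      · simp
    rw [hx] at hl
    rw [← inl_injective hl, hθ.conj, (hU _).1 x.right.2]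
  have h5 := restrict_eq (inl : N →* TT φ U₁) inl_injective hn hθ hfix h2 h4
  refine ⟨ψ, h2, h5, ?_⟩
  obtain ⟨h6, -, -⟩ := IU_irr U₁ hθ hU h2 h5
  have h7 := IC.B_irr h6 hχ
  rw [frob U₁ ψ (rc_class (rc_irr hχ)), IC.B_comm, h3] at h7
  by_contra hne
  rw [if_neg hne] at h7
  exact one_ne_zero h7

/-- the Clifford correspondence -/
theorem card_cliff {θ : N → ℂ} (hθ : IsIrr θ) (hU : ∀ u, u ∈ U₁ ↔ ∀ n, θ (φ u n) = θ n)
    (P : (N ⋊[φ] U → ℂ) → Prop) :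
    Nat.card {χ : N ⋊[φ] U → ℂ // IsIrr χ ∧ IC.B (fun n => χ (inl n)) θ = 1 ∧ P χ} =
      Nat.card {ψ : TT φ U₁ → ℂ // IsIrr ψ ∧ (∀ n, ψ (inl n) = θ n) ∧ P (IU U₁ ψ)} := by
  symm
  refine Nat.card_congr (Equiv.ofBijective (fun ψ => ⟨IU U₁ ψ.1, (IU_irr U₁ hθ hU ψ.2.1 ψ.2.2.1).1,
    (IU_irr U₁ hθ hU ψ.2.1 ψ.2.2.1).2.1, ψ.2.2.2⟩) ⟨?_, ?_⟩)
  · intro ψ ψ' h
    exact Subtype.ext (IU_inj U₁ hθ hU ψ.2.1 ψ.2.2.1 ψ'.2.1 ψ'.2.2.1 (congrArg Subtype.val h))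
  · rintro ⟨χ, h1, h2, h3⟩
    obtain ⟨ψ, h4, h5, rfl⟩ := IU_surj U₁ hθ hU h1 h2
    exact ⟨⟨ψ, h4, h5, h3⟩, rfl⟩

/-- constituents of the restriction are conjugate -/
theorem conj_const {χ : N ⋊[φ] U → ℂ} (hχ : IsIrr χ) {θ θ' : N → ℂ} (hθ : IsIrr θ) (hθ' : IsIrr θ')
    (h : IC.B (fun n => χ (inl n)) θ ≠ 0) (h' : IC.B (fun n => χ (inl n)) θ' ≠ 0) :
    ∃ u : U, ∀ n, θ' (φ u n) = θ n := by
  have hinj : Function.Injective (inl : N →* N ⋊[φ] U) := inl_injective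
  have hn : (inl : N →* N ⋊[φ] U).range.Normal := by
    rw [range_inl_eq_ker_rightHom]
    infer_instance
  have key : ∀ {θ : N → ℂ}, IsIrr θ → IC.B (fun n => χ (inl n)) θ ≠ 0 →
      mult (inl : N →* N ⋊[φ] U).range χ (tr inl hinj θ) ≠ 0 := by
    intro θ hθ h h0
    apply h
    have h1 : ((mult (inl : N →* N ⋊[φ] U).range χ (tr inl hinj θ) : ℕ) : ℂ) =
        IC.B (fun n => χ (inl n)) θ :=
      (mult_spec _ hχ (tr_irr inl hinj hθ)).symm.trans (B_tr inl hinj θ χ).symm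
    rw [h0, Nat.cast_zero] at h1
    exact h1.symm
  obtain ⟨x, hx⟩ := orbit_of_mult hχ (tr_irr inl hinj hθ) (tr_irr inl hinj hθ') (key hθ h) (key hθ' h')
  refine ⟨x.right, fun n => ?_⟩
  have h1 := congrFun hx ⟨inl n, ⟨n, rfl⟩⟩
  rw [tr_apply] at h1
  have h2 : x * inl n * x⁻¹ = inl (x.left * φ x.right n * x.left⁻¹) := by
    ext
    · simp [mul_assoc]
    · simp
  have h3 : MulAut.conjNormal x (⟨inl n, ⟨n, rfl⟩⟩ : (inl : N →* N ⋊[φ] U).range) =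
      ⟨inl (x.left * φ x.right n * x.left⁻¹), ⟨_, rfl⟩⟩ := by
    apply Subtype.ext
    rw [MulAut.conjNormal_apply]
    exact h2
  unfold cj at h1
  rw [h3, tr_apply, hθ'.conj] at h1
  exact h1

end

end Pool.Agent.ZH17.RD.CLA
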