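import Pool.Agent.ZH17.RD.CliA
import Pool.Agent.ZH17.RD.Lcu

/-!
# Piece CLI, lemmas
-/

set_option autoImplicit false
set_option linter.unusedSectionVars false
set_option linter.style.haveILetI false

open scoped BigOperators Classical

noncomputable section

namespace Pool.Agent.ZH17.RD

open Pool.Agent.Helper884 Pool.Agent.K3h3.KB Pool.Agent.K3h3.MK Pool.Agent.K3h83.IN
open Pool.Agent.K3h33.CY
open Pool.Agent.H254R3.IN (IsIrr mem_Irr)
open Pool.Agent.K3h18.IN (irr_infl)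
open IC (Irr)
open SemidirectProduct

namespace CLI

open CLA

theorem se_symm {p : ℕ} {B : Type} [Group B] {f g : B → ℂ} (h : SE p id f g) : SE p id g f := by
  rcases h with h | h
  · exact Or.inl fun x hx => (h x hx).symm
  · refine Or.inr fun x hx => ?_
    have := h x hx
    change g x = - f x
    rw [show f x = - g x from this, neg_neg]

theorem se_trans {p : ℕ} {B X : Type} [Group B] {ι : B → X} {χ : X → ℂ} {f g : B → ℂ} (h : SE p ι χ f)
    (h' : SE p id f g) : SE p ι χ g := by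
  rcases h with h | h <;> rcases h' with h' | h'
  · exact Or.inl fun x hx => (h x hx).trans (h' x hx)
  · exact Or.inr fun x hx => (h x hx).trans (h' x hx)
  · refine Or.inr fun x hx => ?_
    rw [h x hx]
    have := h' x hx
    rw [show f x = g x from this]
  · refine Or.inl fun x hx => ?_
    rw [h x hx]
    have := h' x hx
    rw [show f x = - g x from this, neg_neg]

/-- from two functions with the same values -/
theorem se_mid {p : ℕ} {B X : Type} [Group B] {ι : B → X} {χ : X → ℂ} {f g : B → ℂ} (h : SE p ι χ f)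
    (h' : SE p ι χ g) : SE p id f g :=
  se_trans (se_symm (show SE p id (fun b => χ (ι b)) f from h)) h'

section

variable {p : ℕ} [hp : Fact p.Prime] {B X Ω : Type} [Group B] [Fintype B] [Group X] [Fintype X]
  [Fintype Ω] {e f : Ω → ℕ} {ι : B →* X} {T : Tab p B Ω e f}

theorem ne_sing (T : Tab p B Ω e f) (i : Σ ω, Fin (e ω) ⊕ Fin (f ω)) :
    ∃ g, p ∣ orderOf g ∧ T.t i g ≠ 0 := by
  obtain ⟨ω, m⟩ := i
  by_contra hcon
  push Not at hcon
  obtain ⟨j, hj⟩ := us_ne (T.f0 ω) m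
  have h1 := B_us T ω m j
  rw [B_sing T (F' := 0) (fun g hg => hcon g hg) ω j] at h1
  have h6 : IC.B (0 : B → ℂ) (T.β ω j) = 0 := by
    unfold IC.B
    simp
  rw [h6] at h1
  have h5 : (us j m : ℂ) ≠ 0 := by exact_mod_cast hj
  exact h5 h1.symm

theorem se_b (c : Cor p ι T) (ω : Ω) (m : Fin (e ω) ⊕ Fin (f ω)) : SE p ι (c.b ω m) (T.t ⟨ω, m⟩) := by
  rcases c.sgn ω m with h | h
  · refine Or.inl fun g hg => ?_
    rw [c.sin ω m g hg, h]
    push_cast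
    rw [one_mul]
  · refine Or.inr fun g hg => ?_
    rw [c.sin ω m g hg, h]
    push_cast
    rw [neg_one_mul]

/-- the correspondence for the identity -/
def corId (T : Tab p B Ω e f) : Cor p (MonoidHom.id B) T where
  b ω m := T.t ⟨ω, m⟩
  ε _ _ := 1
  inj ω m m' h := by
    have := T.t_inj h
    simpa using this
  dis ω ω' m m' h := congrArg Sigma.fst (T.t_inj h)
  irr ω m := T.t_irr _
  sgn _ _ := Or.inl rfl
  sin ω m g _ := by
    push_cast
    rw [one_mul]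
    rfl
  deg _ _ := rfl
  rel ω i := by
    push_cast
    simp only [one_mul]
    refine (T.reg ω i 1 ?_).symm
    rw [orderOf_one]
    exact hp.out.one_lt.ne' ∘ Nat.dvd_one.mp
  oth χ hχ := by
    obtain ⟨⟨ω, m⟩, hm⟩ := T.sur χ hχ
    exact Or.inl ⟨ω, m, hm⟩

/-- the isolated characters -/
structure Iso (T : Tab p B Ω e f) (ω : Ω) (m : Fin (e ω) ⊕ Fin (f ω)) : Prop where
  two : 2 ≤ (Finset.univ.filter fun m' => ¬ SE p id (T.t ⟨ω, m'⟩) (T.t ⟨ω, m⟩)).card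
  iso : ∀ m', ¬ SE p id (T.t ⟨ω, m'⟩) (T.t ⟨ω, m⟩) → ∀ θ' : B → ℂ, IsIrr θ' →
    SE p id θ' (T.t ⟨ω, m'⟩) → θ' = T.t ⟨ω, m'⟩

theorem isoN (c : Cor p ι T) {ω : Ω} {m : Fin (e ω) ⊕ Fin (f ω)} (h : Iso T ω m)
    {m' : Fin (e ω) ⊕ Fin (f ω)} (hm' : ¬ SE p id (T.t ⟨ω, m'⟩) (T.t ⟨ω, m⟩)) {χ : X → ℂ} (hχ : IsIrr χ)
    (hs : SE p ι χ (T.t ⟨ω, m'⟩)) : χ = c.b ω m' := by
  rcases c.oth χ hχ with ⟨ω', m'', rfl⟩ | ⟨h1, -⟩
  · have h1 := h.iso m' hm' _ (T.t_irr ⟨ω', m''⟩) (se_mid (se_b c ω' m'') hs)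
    have h2 := T.t_inj h1
    cases h2
    rfl
  · exfalso
    obtain ⟨g, hg, hg'⟩ := ne_sing T ⟨ω, m'⟩
    rcases hs with hs | hs
    · exact hg' ((hs g hg).symm.trans (h1 g hg))
    · have := (hs g hg).symm.trans (h1 g hg)
      exact hg' (neg_eq_zero.mp this)

theorem card_cor (c : Cor p ι T) (P : (X → ℂ) → Prop) (P' : (B → ℂ) → Prop)
    (hPP : ∀ i, P (c.b i.1 i.2) ↔ P' (T.t i))
    (hP : ∀ χ, IsIrr χ → P χ → ∃ g : B, p ∣ orderOf g ∧ χ (ι g) ≠ 0) :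
    Nat.card {χ : X → ℂ // IsIrr χ ∧ P χ} = Nat.card {θ : B → ℂ // IsIrr θ ∧ P' θ} := by
  have h1 : Nat.card {i : Σ ω, Fin (e ω) ⊕ Fin (f ω) // P (c.b i.1 i.2)} =
      Nat.card {χ : X → ℂ // IsIrr χ ∧ P χ} := by
    refine Nat.card_congr (Equiv.ofBijective (fun i => ⟨c.b i.1.1 i.1.2, c.irr _ _, i.2⟩) ⟨?_, ?_⟩)
    · rintro ⟨⟨ω, m⟩, h⟩ ⟨⟨ω', m'⟩, h'⟩ heq
      have h1 : c.b ω m = c.b ω' m' := congrArg Subtype.val heq
      have h2 := c.dis ω ω' m m' h1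
      subst h2
      have h3 := c.inj ω h1
      subst h3
      rfl
    · rintro ⟨χ, hχ, hPχ⟩
      rcases c.oth χ hχ with ⟨ω, m, rfl⟩ | ⟨h1, -⟩
      · exact ⟨⟨⟨ω, m⟩, hPχ⟩, rfl⟩
      · exfalso
        obtain ⟨g, hg, hg'⟩ := hP χ hχ hPχ
        exact hg' (h1 g hg)
  have h2 : Nat.card {i : Σ ω, Fin (e ω) ⊕ Fin (f ω) // P (c.b i.1 i.2)} =
      Nat.card {θ : B → ℂ // IsIrr θ ∧ P' θ} := by
    refine Nat.card_congr (Equiv.ofBijective (fun i => ⟨T.t i.1, T.t_irr _, (hPP i.1).1 i.2⟩) ⟨?_, ?_⟩)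
    · rintro ⟨i, h⟩ ⟨i', h'⟩ heq
      have h1 : T.t i = T.t i' := congrArg Subtype.val heq
      exact Subtype.ext (T.t_inj h1)
    · rintro ⟨θ, hθ, hPθ⟩
      obtain ⟨i, rfl⟩ := T.sur θ hθ
      exact ⟨⟨i, (hPP i).2 hPθ⟩, rfl⟩
  exact h1.symm.trans h2

end

/-- the data for `B` instead of `N` -/
def datId {p : ℕ} [Fact p.Prime] {B N A : Type} [Group B] [Group N] [Group A] (D : Dat p B N A) : Dat p B B A where
  k := MonoidHom.id B
  α := D.β
  β := D.β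
  comp _ _ := rfl
  Q := D.Q
  P := D.P
  H := D.H
  lc := D.lc
  ec := ec_id D.Q
  st := D.st

theorem ord_inl {B U : Type} [Group B] [Group U] (φ : U →* MulAut B) (b : B) :
    orderOf (inl b : B ⋊[φ] U) = orderOf b := orderOf_injective _ inl_injective b

section

variable {p : ℕ} [hp : Fact p.Prime] {B N A U Ω : Type} [Group B] [Fintype B] [Group N] [Fintype N]
  [Group A] [Group U] [Fintype U] [Fintype Ω] (D : Dat p B N A) (π : U →* A) {e f : Ω → ℕ}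
  {T : Tab p B Ω e f} (c : Cor p D.k T) {ω : Ω} {m m₁ : Fin (e ω) ⊕ Fin (f ω)}

theorem ord_aut (β : MulAut B) (b : B) : orderOf (β b) = orderOf b := MulEquiv.orderOf_eq β b

theorem B_fam {O : Finset (Fin (e ω) ⊕ Fin (f ω))} {F : N → ℂ} (hF : ∀ n, F n = ∑ m' ∈ O, c.b ω m' n)
    {m' : Fin (e ω) ⊕ Fin (f ω)} (hm' : m' ∈ O) : IC.B F (c.b ω m') = 1 := by
  have h1 : F = ∑ m' ∈ O, c.b ω m' := by
    funext n
    rw [hF, Finset.sum_apply]
  rw [h1, IC.B_sum_left, Finset.sum_eq_single m']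
  · rw [IC.B_irr (c.irr _ _) (c.irr _ _), if_pos rfl]
  · intro m'' _ hne
    rw [IC.B_irr (c.irr _ _) (c.irr _ _), if_neg fun h => hne (c.inj ω h)]
  · intro h
    exact absurd hm' h

/-- **Lemma A** -/
theorem lemA (hLL : LL) (hU : ¬ p ∣ Nat.card U) (h : Iso T ω m)
    (hm₁ : ¬ SE p id (T.t ⟨ω, m₁⟩) (T.t ⟨ω, m⟩))
    (hinv : ∀ (u : U) (g : B), p ∣ orderOf g → T.t ⟨ω, m⟩ (D.β (π u) g) = T.t ⟨ω, m⟩ g)
    {ψ : NU D π → ℂ} (hψ : IsIrr ψ) (hs : SE p D.k (fun n => ψ (inl n)) (T.t ⟨ω, m₁⟩)) (n : N) :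
    ψ (inl n) = c.b ω m₁ n := by
  rcases hLL p B N A U Ω D π hU e f T c ψ hψ (T.t ⟨ω, m₁⟩) (T.t_irr _) hs with h1 | h1
  · exact congrFun (isoN c h hm₁ h1 hs) n
  · exfalso
    obtain ⟨ω', m', h2, -, h4, -⟩ := h1
    have h5 := T.t_inj h2
    cases h5
    have hmO : m ∈ Finset.univ.filter fun m' => ¬ SE p id (T.t ⟨ω, m'⟩) (T.t ⟨ω, m₁⟩) := by
      rw [Finset.mem_filter]
      exact ⟨Finset.mem_univ _, fun hse => hm₁ (se_symm hse)⟩
    obtain ⟨m₂, hm₂, hne⟩ : ∃ m₂ ∈ Finset.univ.filter (fun m' => ¬ SE p id (T.t ⟨ω, m'⟩) (T.t ⟨ω, m⟩)),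
        m₂ ≠ m₁ := Finset.exists_mem_ne (by have := h.two; omega) m₁
    rw [Finset.mem_filter] at hm₂
    have hm₂O : m₂ ∈ Finset.univ.filter fun m' => ¬ SE p id (T.t ⟨ω, m'⟩) (T.t ⟨ω, m₁⟩) := by
      rw [Finset.mem_filter]
      refine ⟨Finset.mem_univ _, fun hse => hne ?_⟩
      have h6 := T.t_inj (h.iso m₁ hm₁ _ (T.t_irr _) hse)
      cases h6
      rfl
    haveI : Fintype (NU D π) := Fintype.ofFinite _
    have e1 := B_fam D c h4 hmO
    have e2 := B_fam D c h4 hm₂O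
    obtain ⟨u, hu⟩ := conj_const hψ (c.irr ω m₂) (c.irr ω m) (by rw [e2]; exact one_ne_zero)
      (by rw [e1]; exact one_ne_zero)
    -- `T.t m₂ = ± T.t m`
    apply hm₂.2
    have h7 : SE p D.k (c.b ω m₂) (T.t ⟨ω, m⟩) := by
      have h8 := se_b c ω m
      rcases h8 with h8 | h8
      · refine Or.inl fun g hg => ?_
        rw [← hu (D.k g)]
        change c.b ω m (D.α (π u) (D.k g)) = _
        rw [← D.comp, h8 _ (by rw [ord_aut]; exact hg), hinv u g hg]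
      · refine Or.inr fun g hg => ?_
        rw [← hu (D.k g)]
        change c.b ω m (D.α (π u) (D.k g)) = _
        rw [← D.comp, h8 _ (by rw [ord_aut]; exact hg), hinv u g hg]
    exact se_mid (se_b c ω m₂) h7

/-- reducible restrictions -/
theorem red_iff (hLL : LL) (hU : ¬ p ∣ Nat.card U) 
    (hm₁ : ¬ SE p id (T.t ⟨ω, m₁⟩) (T.t ⟨ω, m⟩)) {χ' : NU D π → ℂ} (hχ : IsIrr χ')
    (hs : SE p D.k (fun n => χ' (inl n)) (T.t ⟨ω, m⟩)) :
    ¬ IsIrr (fun n : N => χ' (inl n)) ↔ IC.B (fun n : N => χ' (inl n)) (c.b ω m₁) = 1 := by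
  constructor
  · intro hn
    rcases hLL p B N A U Ω D π hU e f T c χ' hχ (T.t ⟨ω, m⟩) (T.t_irr _) hs with h1 | h1
    · exact absurd h1 hn
    · obtain ⟨ω', m', h2, -, h4, -⟩ := h1
      have h5 := T.t_inj h2
      cases h5
      exact B_fam D c h4 (by rw [Finset.mem_filter]; exact ⟨Finset.mem_univ _, hm₁⟩)
  · intro h1 hi
    rw [IC.B_irr hi (c.irr _ _)] at h1
    by_cases h2 : (fun n : N => χ' (inl n)) = c.b ω m₁
    · rw [h2] at hs
      exact hm₁ (se_mid (se_b c ω m₁) hs)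
    · rw [if_neg h2] at h1
      exact zero_ne_one h1

/-- the stabilizer -/
def stU (i : Σ ω, Fin (e ω) ⊕ Fin (f ω)) (T : Tab p B Ω e f) : Subgroup U where
  carrier := {u | ∀ b, T.t i (D.β (π u) b) = T.t i b}
  one_mem' := fun b => by rw [map_one, map_one]; rfl
  mul_mem' := by
    intro u v hu hv b
    rw [map_mul, map_mul, MulAut.mul_apply, hu, hv]
  inv_mem' := by
    intro u hu b
    have h1 := hu (D.β (π u⁻¹) b)
    rw [← MulAut.mul_apply, ← map_mul, ← map_mul, mul_inv_cancel, map_one, map_one, MulAut.one_apply] at h1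
    exact h1.symm

theorem mem_stU (i : Σ ω, Fin (e ω) ⊕ Fin (f ω)) (u : U) :
    u ∈ stU D π i T ↔ ∀ b, T.t i (D.β (π u) b) = T.t i b := Iff.rfl

theorem mem_stU' (h : Iso T ω m) (hm₁ : ¬ SE p id (T.t ⟨ω, m₁⟩) (T.t ⟨ω, m⟩)) (u : U) :
    u ∈ stU D π ⟨ω, m₁⟩ T ↔ ∀ n, c.b ω m₁ ((D.α.comp π) u n) = c.b ω m₁ n := by
  rw [mem_stU]
  constructor
  · intro hu
    have h1 : IsIrr fun n => c.b ω m₁ ((D.α.comp π) u n) :=
      irr_infl ((D.α.comp π) u).toMonoidHom ((D.α.comp π) u).surjective (c.irr ω m₁)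
    have h2 : SE p D.k (fun n => c.b ω m₁ ((D.α.comp π) u n)) (T.t ⟨ω, m₁⟩) := by
      rcases se_b c ω m₁ with h8 | h8
      · refine Or.inl fun g hg => ?_
        change c.b ω m₁ (D.α (π u) (D.k g)) = _
        rw [← D.comp, h8 _ (by rw [ord_aut]; exact hg), hu]
      · refine Or.inr fun g hg => ?_
        change c.b ω m₁ (D.α (π u) (D.k g)) = _
        rw [← D.comp, h8 _ (by rw [ord_aut]; exact hg), hu]
    exact fun n => congrFun (isoN c h hm₁ h1 h2) n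
  · intro hu
    have h1 : IsIrr fun b => T.t ⟨ω, m₁⟩ (D.β (π u) b) :=
      irr_infl (D.β (π u)).toMonoidHom (D.β (π u)).surjective (T.t_irr ⟨ω, m₁⟩)
    have h2 : SE p id (fun b => T.t ⟨ω, m₁⟩ (D.β (π u) b)) (T.t ⟨ω, m₁⟩) := by
      refine Or.inl fun g hg => ?_
      change T.t ⟨ω, m₁⟩ (D.β (π u) g) = T.t ⟨ω, m₁⟩ g
      have h3 := c.sin ω m₁ _ (show p ∣ orderOf (D.β (π u) g) by rw [ord_aut]; exact hg)
      have h4 := c.sin ω m₁ g hg
      rw [D.comp] at h3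
      have h5 := hu (D.k g)
      change c.b ω m₁ (D.α (π u) (D.k g)) = _ at h5
      rw [h3, h4] at h5
      exact mul_left_cancel₀ (eps_ne c ω m₁) h5
    exact fun b => congrFun (h.iso m₁ hm₁ _ h1 h2) b

/-- counting the reducible restrictions -/
theorem card_R (hLL : LL) (hU : ¬ p ∣ Nat.card U) (h : Iso T ω m)
    (hm₁ : ¬ SE p id (T.t ⟨ω, m₁⟩) (T.t ⟨ω, m⟩)) (F : BU D π → ℂ)
    (hF : SE p id (fun b => F (inl b)) (T.t ⟨ω, m⟩)) :
    Nat.card {χ' : NU D π → ℂ // IsIrr χ' ∧ ¬ IsIrr (fun n : N => χ' (inl n)) ∧ SE p (kU D π) χ' F} =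
      Nat.card {ψ : TT (D.α.comp π) (stU D π ⟨ω, m₁⟩ T) → ℂ // IsIrr ψ ∧ (∀ n, ψ (inl n) = c.b ω m₁ n) ∧
        SE p (kU D π) (IU (stU D π ⟨ω, m₁⟩ T) ψ) F} := by
  haveI : Fintype (N ⋊[D.α.comp π] U) := Fintype.ofFinite _
  rw [← card_cliff (φ := D.α.comp π) (stU D π ⟨ω, m₁⟩ T) (c.irr ω m₁) (mem_stU' D π c h hm₁)
    (fun χ => SE p (kU D π) χ F)]
  refine Nat.card_congr (Equiv.subtypeEquivRight fun χ' => ?_)
  refine and_congr_right fun hχ => and_congr_left fun hs => ?_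
  refine red_iff D π c hLL hU hm₁ hχ ?_
  refine se_trans (f := fun b => F (inl b)) ?_ hF
  rcases hs with hs | hs
  · refine Or.inl fun g hg => ?_
    have := hs (inl g) (by rw [ord_inl]; exact hg)
    rw [kU_inl] at this
    exact this
  · refine Or.inr fun g hg => ?_
    have := hs (inl g) (by rw [ord_inl]; exact hg)
    rw [kU_inl] at this
    exact this

/-- induction and the singular elements -/
theorem IU_kU (U₁ : Subgroup U) {ψ : TT (D.α.comp π) U₁ → ℂ} {θ : TT (D.β.comp π) U₁ → ℂ} {ε : ℂ}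
    (h : ∀ z : BU D (π.comp U₁.subtype), p ∣ orderOf z → ψ (kU D (π.comp U₁.subtype) z) = ε * θ z)
    (y : BU D π) (hy : p ∣ orderOf y) : IU U₁ ψ (kU D π y) = ε * IU U₁ θ y := by
  unfold IU
  suffices h0 : ∀ u : U, z0 U₁ ψ (inr u * kU D π y * (inr u)⁻¹) = ε * z0 U₁ θ (inr u * y * (inr u)⁻¹) by
    rw [Finset.sum_congr rfl fun u _ => h0 u, ← Finset.mul_sum]
    ring
  intro u
  have h1 : (inr u : NU D π) * kU D π y * (inr u)⁻¹ = kU D π (inr u * y * (inr u)⁻¹) := by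
    rw [map_mul, map_mul, map_inv, kU_inr]
  rw [h1]
  have h2 : p ∣ orderOf ((inr u : BU D π) * y * (inr u)⁻¹) := by
    have := orderOf_injective (MulAut.conj (inr u : BU D π)).toMonoidHom (MulAut.conj (inr u : BU D π)).injective y
    have h3 : orderOf ((inr u : BU D π) * y * (inr u)⁻¹) = orderOf y := by simpa using this
    rw [h3]
    exact hy
  generalize (inr u : BU D π) * y * (inr u)⁻¹ = x at h2
  unfold z0
  by_cases hx : x.right ∈ U₁
  · rw [dif_pos hx, dif_pos (show (kU D π x).right ∈ U₁ from hx)]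
    refine h ⟨x.left, ⟨x.right, hx⟩⟩ ?_
    have hinj : Function.Injective (J (D.β.comp π) U₁) := by
      intro x y hxy
      have e1 := congrArg SemidirectProduct.left hxy
      have e2 := congrArg SemidirectProduct.right hxy
      ext
      · exact e1
      · exact e2
    have h3 := orderOf_injective (J (D.β.comp π) U₁) hinj ⟨x.left, ⟨x.right, hx⟩⟩
    have h4 : J (D.β.comp π) U₁ ⟨x.left, ⟨x.right, hx⟩⟩ = x := rfl
    rw [h4] at h3
    change p ∣ orderOf (⟨x.left, ⟨x.right, hx⟩⟩ : TT (D.β.comp π) U₁)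
    rw [← h3]
    exact h2
  · rw [dif_neg hx, dif_neg (show ¬ (kU D π x).right ∈ U₁ from hx), mul_zero]

end

/-- the table -/
theorem ex_tab {p : ℕ} [Fact p.Prime] {B : Type} [Group B] [Finite B] {Q P H : Subgroup B} (hL : LC p Q P H) :
    ∃ (Ω : Type) (_ : Fintype Ω) (e f : Ω → ℕ), Nonempty (Tab p B Ω e f) := by
  have hC3 : C3 := K3h73.CY.t_C3 K3h90.CY.t_C3a K3h99.CY.t_C3b
  obtain ⟨Ω, i, e, f, ξ, ψ, he, hf, hξ, hψ, hinj, hsur, hreg, hsing⟩ := hC3 p B Q P H hL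
  exact ⟨Ω, i, e, f, ⟨⟨ξ, ψ, he, hf, hξ, hψ, hinj, hsur, hreg, hsing⟩⟩⟩

end CLI

end Pool.Agent.ZH17.RD
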