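import Pool.Agent.ZH17.RD.Stm5
import Pool.Agent.K3h33.CY.AS
import Pool.Agent.K3h83.OP.AsmC

/-!
# The number of non-exceptional characters is smaller than `p`
-/

set_option autoImplicit false
set_option linter.unusedSectionVars false
set_option linter.style.haveILetI false

open scoped BigOperators Classical

noncomputable section

namespace Pool.Agent.ZH17.RD

open Pool.Agent.Helper884 Pool.Agent.K3h3.KB Pool.Agent.K3h3.MK Pool.Agent.K3h83.IN
open Pool.Agent.K3h33.CY
open Pool.Agent.H254R3.IN (IsIrr mem_Irr)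
open IC (Irr)

/-- the fixed points of a normal subgroup in an irreducible representation -/
theorem sum_Q {B : Type} [Group B] [Fintype B] (Q : Subgroup B) [Fintype Q] (hQ : Q.Normal)
    {θ : B → ℂ} (h : IsIrr θ) :
    ∑ c : Q, θ c = 0 ∨ ∑ c : Q, θ c = (Nat.card Q : ℂ) * θ 1 := by
  have h0 := h
  obtain ⟨V, _, _, _, ρ, hr, rfl⟩ := h
  have hd : ρ.character 1 ≠ 0 := by
    rw [← ndeg_cast h0]
    exact_mod_cast (ndeg_pos h0).ne'
  let E : V →ₗ[ℂ] V := ∑ c : Q, ρ c
  have hE : ∀ b : B, E ∘ₗ ρ b = ρ b ∘ₗ E := by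
    intro b
    change (∑ c : Q, ρ c) * ρ b = ρ b * ∑ c : Q, ρ c
    rw [Finset.sum_mul, Finset.mul_sum]
    refine Fintype.sum_equiv (MulAut.conjNormal (b⁻¹)).toEquiv _ _ fun c => ?_
    have h1 : (((MulAut.conjNormal (b⁻¹)).toEquiv c : Q) : B) = b⁻¹ * c * b := by
      change ((MulAut.conjNormal (b⁻¹) c : Q) : B) = _
      rw [MulAut.conjNormal_apply, inv_inv]
    rw [h1, ← map_mul, ← map_mul]
    congr 1
    group
  obtain ⟨c, hc⟩ := Pool.Agent.K3h3.KT.schur' (MonoidHom.id B) ρ h0 E fun n => hE n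
  have hEE : E * E = (Nat.card Q : ℂ) • E := by
    have h1 : ∀ c : Q, (ρ (c : B)) * E = E := by
      intro c
      change ρ (c : B) * ∑ c : Q, ρ c = ∑ c : Q, ρ c
      rw [Finset.mul_sum]
      refine Fintype.sum_equiv (Equiv.mulLeft c) _ _ fun d => ?_
      rw [← map_mul]
      rfl
    have h2 : E * E = ∑ c : Q, (ρ (c : B)) * E := by
      rw [← Finset.sum_mul]
    rw [h2, Finset.sum_congr rfl fun c _ => h1 c, Finset.sum_const, Finset.card_univ,
      ← Nat.card_eq_fintype_card, Nat.cast_smul_eq_nsmul]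
  have htr : ∑ c : Q, ρ.character (c : B) = c * ρ.character 1 := by
    have h1 : ∑ c : Q, ρ.character (c : B) = LinearMap.trace ℂ V E := by
      change _ = LinearMap.trace ℂ V (∑ c : Q, ρ c)
      rw [map_sum]
      rfl
    rw [h1, hc, map_smul, smul_eq_mul]
    congr 1
    unfold Representation.character
    rw [map_one]
    rfl
  have hcc : c * c * ρ.character 1 = (Nat.card Q : ℂ) * c * ρ.character 1 := by
    have h1 := congrArg (LinearMap.trace ℂ V) hEE
    rw [map_smul, smul_eq_mul] at h1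
    have h2 : LinearMap.trace ℂ V E = c * ρ.character 1 := by
      rw [hc, map_smul, smul_eq_mul]
      congr 1
      unfold Representation.character
      rw [map_one]
      rfl
    have h3 : LinearMap.trace ℂ V (E * E) = c * (c * ρ.character 1) := by
      have h4 : E * E = c • E := by
        have h5 : (c • (LinearMap.id : V →ₗ[ℂ] V)) * E = c • E := by
          rw [smul_mul_assoc]
          rfl
        rw [← hc] at h5
        exact h5
      rw [h4, map_smul, h2, smul_eq_mul]
    rw [h3, h2] at h1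
    linear_combination h1
  have hc2 : c * c = Nat.card Q * c := mul_right_cancel₀ hd hcc
  rw [htr]
  by_cases hc0 : c = 0
  · left
    rw [hc0, zero_mul]
  · right
    rw [mul_right_cancel₀ hc0 hc2]

section

variable {p : ℕ} [hp : Fact p.Prime] {B Ω : Type} [Group B] [Fintype B] [Fintype Ω] {e f : Ω → ℕ}
  (T : Tab p B Ω e f)

include T in
/-- there are less than `p` non-exceptional characters in each family -/
theorem e_lt (Q : Subgroup B) (hQ : Q.Normal) (hcQ : Nat.card Q = p) (ω : Ω) : e ω < p := by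
  haveI := Fintype.ofFinite Q
  by_cases he : e ω = 1
  · rw [he]
    exact hp.out.one_lt
  have he2 : 2 ≤ e ω := by
    have := T.e0 ω
    omega
  -- the degrees
  let x : Fin (e ω) → ℕ := fun j => ndeg (T.ξ ω j)
  have hx : ∀ j, 0 < x j := fun j => ndeg_pos (T.irrξ ω j)
  have hxc : ∀ j, T.ξ ω j 1 = (x j : ℂ) := fun j => (ndeg_cast (T.irrξ ω j)).symm
  let E : ℕ := ∑ j, x j
  have hE : ∀ i, T.ψ ω i 1 = (E : ℂ) := by
    intro i
    rw [T.reg ω i 1 (by rw [orderOf_one]; exact hp.out.one_lt.ne' ∘ Nat.dvd_one.mp)]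
    change _ = ((∑ j, x j : ℕ) : ℂ)
    rw [Nat.cast_sum]
    exact Finset.sum_congr rfl fun j _ => hxc j
  have h1 : ∀ θ : B → ℂ, IsIrr θ → ∃ n : ℕ, (n = 0 ∨ n = 1) ∧ ∑ c : Q, θ c = p * n * θ 1 := by
    intro θ hθ
    rcases sum_Q Q hQ hθ with h | h
    · exact ⟨0, Or.inl rfl, by rw [h]; push_cast; ring⟩
    · refine ⟨1, Or.inr rfl, ?_⟩
      rw [h, hcQ]
      push_cast
      ring
  choose n hn1 hn2 using fun j => h1 _ (T.irrξ ω j)
  choose m hm1 hm2 using fun i => h1 _ (T.irrψ ω i)
  -- the key relation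
  have key : ∀ j, p * ((∑ i, m i) * E + n j * x j) = f ω * E + x j := by
    intro j
    have h2 : ∑ c : Q, ((∑ i, T.ψ ω i c) + T.ξ ω j c) = (∑ i, T.ψ ω i 1) + T.ξ ω j 1 := by
      rw [Finset.sum_eq_single 1]
      · rfl
      · intro c _ hc
        refine T.sing ω j c ?_
        have h3 : orderOf c ∣ p := hcQ ▸ orderOf_dvd_natCard c
        rw [Subgroup.orderOf_coe]
        rcases (Nat.dvd_prime hp.out).1 h3 with h4 | h4
        · exact absurd (orderOf_eq_one_iff.1 h4) hc
        · rw [h4]
      · intro h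
        exact absurd (Finset.mem_univ _) h
    rw [Finset.sum_add_distrib, Finset.sum_comm, Finset.sum_congr rfl fun i _ => hm2 i, hn2 j,
      Finset.sum_congr rfl fun i _ => by rw [hE i], Finset.sum_congr rfl fun i _ => hE i, hxc j,
      Finset.sum_const, Finset.card_univ, Fintype.card_fin, nsmul_eq_mul] at h2
    have h4 : ((p * ((∑ i, m i) * E + n j * x j) : ℕ) : ℂ) = ((f ω * E + x j : ℕ) : ℂ) := by
      push_cast
      rw [← h2, Finset.sum_mul, mul_add, Finset.mul_sum]
      congr 1
      · exact Finset.sum_congr rfl fun i _ => by ring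
      · ring
    exact_mod_cast h4
  -- the case of a nontrivial character
  have hxE : ∀ j, x j < E := by
    intro j
    obtain ⟨j', hj'⟩ : ∃ j', j' ≠ j := by
      haveI : Nontrivial (Fin (e ω)) := Fin.nontrivial_iff_two_le.mpr he2
      exact exists_ne j
    have h2 : x j + x j' ≤ E := by
      rw [← Finset.sum_pair hj'.symm]
      exact Finset.sum_le_sum_of_subset (Finset.subset_univ _)
    have := hx j'
    omega
  have hn : ∀ j, n j = 1 := by
    intro j
    rcases hn1 j with h | h
    · exfalso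
      have h2 := key j
      rw [h, zero_mul, add_zero, ← mul_assoc] at h2
      have h3 : E ∣ x j := (Nat.dvd_add_right (Dvd.intro_left _ rfl)).mp ⟨p * ∑ i, m i, by
        rw [← h2]; ring⟩
      have := Nat.le_of_dvd (hx j) h3
      exact absurd (hxE j) (by omega)
    · exact h
  have key2 : ∀ j, (p - 1) * x j + p * (∑ i, m i) * E = f ω * E := by
    intro j
    have h2 := key j
    rw [hn j, one_mul] at h2
    have h3 : p * x j = (p - 1) * x j + x j := by
      have := hp.out.pos
      nth_rewrite 1 [show p = (p - 1) + 1 by omega]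
      ring
    have h4 : p * ((∑ i, m i) * E + x j) = p * (∑ i, m i) * E + (p - 1) * x j + x j := by
      rw [mul_add, h3]; ring
    omega
  have hdv : ∀ j, E ∣ (p - 1) * x j := fun j =>
    (Nat.dvd_add_left (Dvd.intro_left _ rfl)).mp ⟨f ω, by rw [key2 j]; ring⟩
  have hp1 : 0 < p - 1 := Nat.sub_pos_of_lt hp.out.one_lt
  obtain ⟨j₀⟩ : Nonempty (Fin (e ω)) := ⟨⟨0, T.e0 ω⟩⟩
  have hall : ∀ j, x j = x j₀ := by
    intro j
    have h2 : (p - 1) * x j = (p - 1) * x j₀ := by
      have := key2 j
      have := key2 j₀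
      omega
    exact Nat.eq_of_mul_eq_mul_left hp1 h2
  have hEe : E = e ω * x j₀ := by
    change ∑ j, x j = _
    rw [Finset.sum_congr rfl fun j _ => hall j, Finset.sum_const, Finset.card_univ,
      Fintype.card_fin, smul_eq_mul]
  have h5 := hdv j₀
  rw [hEe] at h5
  have h6 := Nat.dvd_of_mul_dvd_mul_right (hx j₀) h5
  have := Nat.le_of_dvd hp1 h6
  omega

end

end Pool.Agent.ZH17.RD
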