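import Pool.Agent.ZH17.RD.CnyA

/-!
# The correspondence of characters in the cyclic case
-/

set_option autoImplicit false
set_option linter.unusedSectionVars false
set_option linter.style.haveILetI false

open scoped BigOperators Classical

noncomputable section

namespace Pool.Agent.ZH17.RD

open Pool.Agent.Helper884 Pool.Agent.K3h3.KB Pool.Agent.K3h3.MK Pool.Agent.K3h83.IN
open Pool.Agent.K3h33.CY
open Pool.Agent.H254R3.IN (IsIrr mem_Irr)
open IC (Irr)

/-- the second orthogonality relation -/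
theorem col_one {G : Type} [Group G] [Fintype G] (x : G) (hx : x ≠ 1) :
    ∑ χ ∈ Irr G, χ 1 * χ x = 0 := by
  have h1 : IC.IsClass (fun g : G => if g = 1 then (1 : ℂ) else 0) := by
    intro g y
    have h : y * g * y⁻¹ = 1 ↔ g = 1 := by
      rw [mul_inv_eq_one, mul_eq_left]
    beta_reduce
    by_cases h' : g = 1
    · rw [if_pos (h.mpr h'), if_pos h']
    · rw [if_neg (fun h2 => h' (h.mp h2)), if_neg h']
  have h2 := congrFun (IC.expand _ h1) x
  rw [if_neg hx, Finset.sum_apply] at h2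
  have h3 : ∀ χ : G → ℂ, IC.B (fun g : G => if g = 1 then (1 : ℂ) else 0) χ =
      (Nat.card G : ℂ)⁻¹ * χ 1 := by
    intro χ
    unfold IC.B
    congr 1
    rw [Finset.sum_eq_single 1]
    · beta_reduce
      rw [if_pos rfl, inv_one, one_mul]
    · intro g _ hg
      beta_reduce
      rw [if_neg hg, zero_mul]
    · intro h
      exact absurd (Finset.mem_univ _) h
  have h4 : (0 : ℂ) = (Nat.card G : ℂ)⁻¹ * ∑ χ ∈ Irr G, χ 1 * χ x := by
    rw [h2, Finset.mul_sum]
    refine Finset.sum_congr rfl fun χ _ => ?_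
    rw [Pi.smul_apply, smul_eq_mul, h3]
    ring
  have h5 : (Nat.card G : ℂ)⁻¹ ≠ 0 := inv_ne_zero IC.cardG_ne
  exact (mul_eq_zero.mp h4.symm).resolve_left h5

/-- the correspondence between the characters of `B` and the characters of `X` of positive defect -/
structure Cor (p : ℕ) [Fact p.Prime] {B X Ω : Type} [Group B] [Fintype B] [Group X] [Fintype X] [Fintype Ω]
    (ι : B →* X) {e f : Ω → ℕ} (T : Tab p B Ω e f) where
  /-- the characters of `X` -/
  b : ∀ ω, Fin (e ω) ⊕ Fin (f ω) → (X → ℂ)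
  /-- the signs -/
  ε : ∀ ω, Fin (e ω) ⊕ Fin (f ω) → ℤ
  inj : ∀ ω, Function.Injective (b ω)
  dis : ∀ ω ω' m m', b ω m = b ω' m' → ω = ω'
  irr : ∀ ω m, IsIrr (b ω m)
  sgn : ∀ ω m, ε ω m = 1 ∨ ε ω m = -1
  sin : ∀ ω m (g : B), p ∣ orderOf g → b ω m (ι g) = ε ω m * T.t ⟨ω, m⟩ g
  deg : ∀ ω m, cl p (ndeg (b ω m)) = cl p (ndeg (T.t ⟨ω, m⟩))
  rel : ∀ ω (i : Fin (f ω)), ∑ j, (ε ω (Sum.inl j) : ℂ) * b ω (Sum.inl j) 1 =
    ε ω (Sum.inr i) * b ω (Sum.inr i) 1
  oth : ∀ χ, IsIrr χ → (∃ ω m, b ω m = χ) ∨ ((∀ g : B, p ∣ orderOf g → χ (ι g) = 0) ∧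
    cl p (ndeg χ) = 0)

/-- **the correspondence** -/
theorem cor {p : ℕ} [Fact p.Prime] {B X Ω : Type} [Group B] [Fintype B] [Group X] [Fintype X]
    [Fintype Ω] (Q P H : Subgroup B) (ι : B →* X) (hL : LC p Q P H) (hE : EC p Q ι) {e f : Ω → ℕ}
    (T : Tab p B Ω e f) : Nonempty (Cor p ι T) := by
  have c1 : C1 := K3h95.CY.t_C1
  have c4 : C4 := K3h41.CY.t_C4
  have c5 : C5 := a_C5
  have c6 : C6 := K3h95.CY.t_C6
  have hp := (Fact.out : p.Prime)
  have hPp : p ∣ Nat.card P := by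
    have h1 := Subgroup.card_dvd_of_le hL.QP
    rwa [hL.cQ] at h1
  -- the integers
  have hz : ∀ (ω : Ω) (i : Fin (f ω)) (χ : X → ℂ), ∃ z : ℤ, IsIrr χ →
      IC.B (fun b => χ (ι b)) (T.β ω i) = z := by
    intro ω i χ
    by_cases hχ : IsIrr χ
    · choose n hn using fun θ : {θ : B → ℂ // IsIrr θ} => mult_nat ι hχ θ.2
      refine ⟨(n ⟨T.ψ ω i, T.irrψ ω i⟩ : ℤ) - ∑ j, (n ⟨T.ξ ω j, T.irrξ ω j⟩ : ℤ), fun _ => ?_⟩
      rw [T.B_β]
      push_cast
      rw [hn ⟨T.ψ ω i, T.irrψ ω i⟩,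
        Finset.sum_congr rfl fun j _ => hn ⟨T.ξ ω j, T.irrξ ω j⟩]
    · exact ⟨0, fun h => absurd h hχ⟩
  choose u hu using hz
  have hgram : ∀ ω (i i' : Fin (f ω)), ∑ χ ∈ Irr X, u ω i χ * u ω i' χ =
      e ω + if i = i' then 1 else 0 := by
    intro ω i i'
    have h1 := c1 p B X Q P H ι hL hE (T.β ω i) (T.β ω i') (T.β_class ω i) (T.β_class ω i')
      (T.β_reg ω i) (T.β_reg ω i')
    rw [T.gram ω i i'] at h1
    have h2 : ((∑ χ ∈ Irr X, u ω i χ * u ω i' χ : ℤ) : ℂ) =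
        ((e ω + if i = i' then 1 else 0 : ℤ) : ℂ) := by
      push_cast
      rw [← h1]
      refine Finset.sum_congr rfl fun χ hχ => ?_
      rw [hu ω i χ (mem_Irr.mp hχ), hu ω i' χ (mem_Irr.mp hχ)]
    exact_mod_cast h2
  set S : Ω → Finset (X → ℂ) := fun ω => (Irr X).filter fun χ => ∃ i, u ω i χ ≠ 0 with hS
  have hC4 := fun ω => c4 (X → ℂ) (Irr X) (e ω) (f ω) (T.e0 ω) (T.f0 ω) (u ω) (hgram ω)
  -- characters in no `S ω`
  have hvan : ∀ χ, IsIrr χ → (∀ ω i, u ω i χ = 0) → Nat.card P ∣ ndeg χ := by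
    intro χ hχ h0
    haveI := Fintype.ofFinite P
    refine vanish_dvd (ι.comp P.subtype) hχ fun a ha => ?_
    refine T.vanish (F := fun b => χ (ι b)) (res_class ι hχ)
      (fun ω i => by rw [hu ω i χ hχ, h0, Int.cast_zero]) ?_
    obtain ⟨k, hk⟩ := IsPGroup.iff_orderOf.1 hL.pP a
    have hk0 : k ≠ 0 := by
      rintro rfl
      rw [pow_zero, orderOf_eq_one_iff] at hk
      exact ha hk
    show p ∣ orderOf (a : B)
    rw [Subgroup.orderOf_coe, hk]
    exact dvd_pow_self p hk0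
  obtain ⟨s, hs, hps⟩ := card_X hL hE
  have hdz : ∀ χ, IsIrr χ → (∀ ω i, u ω i χ = 0) → ¬ p ∣ Nat.card X / ndeg χ := by
    intro χ hχ h0 hcon
    obtain ⟨n, hn⟩ := hvan χ hχ h0
    obtain ⟨q, hq⟩ : ndeg χ ∣ Nat.card X :=
      Pool.Agent.Y63.AWC.deg_dvd hχ (ndeg_cast hχ).symm
    rw [hq, Nat.mul_div_cancel_left _ (ndeg_pos hχ)] at hcon
    apply hps
    have h1 : Nat.card P * s = Nat.card P * (n * q) := by
      rw [← hs, hq, hn, mul_assoc]
    rw [Nat.eq_of_mul_eq_mul_left Nat.card_pos h1]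
    exact hcon.mul_left n
  have hcl0 : ∀ χ ∈ Irr X, χ ∉ Finset.univ.biUnion S → cl p (ndeg χ) = 0 := by
    intro χ hχ hU
    have h0 : ∀ ω i, u ω i χ = 0 := by
      intro ω i
      by_contra hne
      exact hU (Finset.mem_biUnion.2 ⟨ω, Finset.mem_univ _, Finset.mem_filter.2 ⟨hχ, i, hne⟩⟩)
    have h1 : p ∣ ndeg χ := hPp.trans (hvan χ (mem_Irr.mp hχ) h0)
    change cls p _ = 0
    unfold cls
    rw [dif_pos ((ZMod.natCast_eq_zero_iff _ _).2 h1)]
  -- counting
  set Z : Finset (X → ℂ) := (Irr X).filter fun χ => ¬ p ∣ Nat.card X / ndeg χ with hZ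
  have hZc : Nat.card (Dz p X) = Z.card := by
    rw [← Fintype.card_coe, ← Nat.card_eq_fintype_card]
    refine Nat.card_congr (Equiv.subtypeEquivRight fun χ => ?_)
    rw [hZ, Finset.mem_filter, mem_Irr]
  have hB : (Irr B).card = ∑ ω, (e ω + f ω) := by
    rw [T.Irr_eq, Finset.card_image_of_injective _ T.t_inj, Finset.card_univ,
      Fintype.card_sigma]
    refine Finset.sum_congr rfl fun ω _ => ?_
    rw [Fintype.card_sum, Fintype.card_fin, Fintype.card_fin]
  have hlow : ∑ ω, (e ω + f ω) + Z.card ≤ (Irr X).card := by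
    have a1 := card_irr X
    have a2 := card_irr B
    have a3 := card_split (p := p) X
    have a4 := card_split (p := p) B
    have a5 := c5 p B X Q P H ι hL hE
    have a6 := c6 p B X Q P H ι hL hE
    omega
  have hup : (Irr X).card ≤ (Finset.univ.biUnion S).card + Z.card := by
    refine le_trans (Finset.card_le_card ?_) (Finset.card_union_le _ _)
    intro χ hχ
    by_cases h : χ ∈ Finset.univ.biUnion S
    · exact Finset.mem_union_left _ h
    · refine Finset.mem_union_right _ (Finset.mem_filter.2 ⟨hχ, hdz χ (mem_Irr.mp hχ) ?_⟩)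
      intro ω i
      by_contra hne
      exact h (Finset.mem_biUnion.2 ⟨ω, Finset.mem_univ _, Finset.mem_filter.2 ⟨hχ, i, hne⟩⟩)
  have hle : ∀ ω, (S ω).card ≤ e ω + f ω := fun ω => (hC4 ω).1
  have hsig : Finset.univ.biUnion S =
      ((Finset.univ : Finset Ω).sigma S).image fun x : (Σ _ : Ω, (X → ℂ)) => x.2 := by
    ext χ
    simp only [Finset.mem_biUnion, Finset.mem_image, Finset.mem_sigma, Finset.mem_univ, true_and]
    constructor
    · rintro ⟨ω, h⟩
      exact ⟨⟨ω, χ⟩, h, rfl⟩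
    · rintro ⟨⟨ω, χ'⟩, h, rfl⟩
      exact ⟨ω, h⟩
  have hsc : ((Finset.univ : Finset Ω).sigma S).card = ∑ ω, (S ω).card := Finset.card_sigma _ _
  have hsum : ∑ ω, (S ω).card ≤ ∑ ω, (e ω + f ω) := Finset.sum_le_sum fun ω _ => hle ω
  have hic : (Finset.univ.biUnion S).card ≤ ((Finset.univ : Finset Ω).sigma S).card := by
    rw [hsig]
    exact Finset.card_image_le
  have hSe : ∀ ω, (S ω).card = e ω + f ω := by
    have h1 : ∑ ω, (S ω).card = ∑ ω, (e ω + f ω) := by omega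
    intro ω
    exact (Finset.sum_eq_sum_iff_of_le fun ω _ => hle ω).mp h1 ω (Finset.mem_univ ω)
  have hinj : Set.InjOn (fun x : (Σ _ : Ω, (X → ℂ)) => x.2)
      ((Finset.univ : Finset Ω).sigma S : Finset (Σ _ : Ω, (X → ℂ))) := by
    rw [← Finset.card_image_iff, ← hsig]
    omega
  have hdisj : ∀ ω ω' χ, χ ∈ S ω → χ ∈ S ω' → ω = ω' := by
    intro ω ω' χ h h'
    have m1 : (⟨ω, χ⟩ : Σ _ : Ω, (X → ℂ)) ∈ (Finset.univ : Finset Ω).sigma S :=
      Finset.mem_sigma.2 ⟨Finset.mem_univ _, h⟩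
    have m2 : (⟨ω', χ⟩ : Σ _ : Ω, (X → ℂ)) ∈ (Finset.univ : Finset Ω).sigma S :=
      Finset.mem_sigma.2 ⟨Finset.mem_univ _, h'⟩
    have h1 := hinj (Finset.mem_coe.2 m1) (Finset.mem_coe.2 m2) rfl
    exact congrArg Sigma.fst h1
  choose b ε hbinj hbS hε hl hr using fun ω => (hC4 ω).2 (hSe ω)
  have hSim : ∀ ω, S ω = Finset.univ.image (b ω) := by
    intro ω
    symm
    apply Finset.eq_of_subset_of_card_le
    · intro χ hχ
      obtain ⟨m, -, rfl⟩ := Finset.mem_image.1 hχ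
      exact hbS ω m
    · rw [hSe ω, Finset.card_image_of_injective _ (hbinj ω), Finset.card_univ, Fintype.card_sum,
        Fintype.card_fin, Fintype.card_fin]
  have hbI : ∀ ω m, IsIrr (b ω m) := fun ω m => mem_Irr.mp (Finset.mem_filter.1 (hbS ω m)).1
  -- degrees
  have hdeg : ∀ ω m, cl p (ndeg (b ω m)) = cl p (ndeg (T.t ⟨ω, m⟩)) := by
    intro ω m
    set χ := b ω m with hχdef
    set θ := T.t ⟨ω, m⟩ with hθdef
    have hχ : IsIrr χ := hbI ω m
    have hθ : IsIrr θ := T.t_irr _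
    have hcls : IC.IsClass ((fun a => χ (ι a)) - (ε ω m : ℂ) • θ) := by
      intro g y
      have e1 : χ (ι (y * g * y⁻¹)) = χ (ι g) := res_class ι hχ g y
      show χ (ι (y * g * y⁻¹)) - (ε ω m : ℂ) • θ (y * g * y⁻¹) = χ (ι g) - (ε ω m : ℂ) • θ g
      rw [e1, hθ.conj g y]
    have h0 : ∀ ω' i, IC.B ((fun a => χ (ι a)) - (ε ω m : ℂ) • θ) (T.β ω' i) = 0 := by
      intro ω' i
      rw [IC.B_sub_left, IC.B_smul_left, hu ω' i χ hχ]
      by_cases hω : ω = ω'
      · subst hω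
        rcases m with j | k
        · rw [hl ω j i]
          rw [show θ = T.ξ ω j from rfl, T.B_inl]
          push_cast
          ring
        · rw [hr ω k i]
          rw [show θ = T.ψ ω k from rfl, T.B_inr]
          by_cases h : i = k
          · rw [if_pos h, if_pos h]
            push_cast
            ring
          · rw [if_neg h, if_neg h]
            push_cast
            ring
      · have h1 : u ω' i χ = 0 := by
          by_contra hne
          exact hω (hdisj ω ω' χ (hbS ω m)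
            (Finset.mem_filter.2 ⟨mem_Irr.mpr hχ, i, hne⟩))
        rw [h1, T.B_ne (m := ⟨ω, m⟩) hω i]
        push_cast
        ring
    haveI := Fintype.ofFinite Q
    obtain ⟨n₁, hn₁⟩ := sum_eq (ι.comp Q.subtype) hχ
    obtain ⟨n₂, hn₂⟩ := sum_eq Q.subtype hθ
    have h1 : ∑ a : Q, χ ((ι.comp Q.subtype) a) - (ε ω m : ℂ) * ∑ a : Q, θ (Q.subtype a) =
        χ 1 - (ε ω m : ℂ) * θ 1 := by
      rw [Finset.mul_sum, ← Finset.sum_sub_distrib, Finset.sum_eq_single 1]
      · rw [map_one, map_one]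
      · intro a _ ha
        have h2 : p ∣ orderOf (a : B) := by
          rw [Subgroup.orderOf_coe]
          have h3 : orderOf a ∣ p := hL.cQ ▸ orderOf_dvd_natCard a
          rcases (Nat.dvd_prime hp).1 h3 with h4 | h4
          · exact absurd (orderOf_eq_one_iff.1 h4) ha
          · rw [h4]
        exact T.vanish hcls h0 h2
      · intro h
        exact absurd (Finset.mem_univ _) h
    rw [hn₁, hn₂, hL.cQ, ← ndeg_cast hχ, ← ndeg_cast hθ] at h1
    have h2 : ((p : ℤ) * n₁ - ε ω m * (p * n₂)) = ndeg χ - ε ω m * ndeg θ := by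
      exact_mod_cast h1
    have h3 : ((ndeg χ : ℤ) : ZMod p) = ((ε ω m * ndeg θ : ℤ) : ZMod p) := by
      rw [ZMod.intCast_eq_intCast_iff_dvd_sub]
      exact ⟨ε ω m * n₂ - n₁, by linear_combination h2⟩
    have h4 : (ndeg χ : ZMod p) ^ 2 = (ndeg θ : ZMod p) ^ 2 := by
      push_cast at h3
      rw [h3]
      rcases hε ω m with h | h
      · rw [h]; push_cast; ring
      · rw [h]; push_cast; ring
    by_cases h5 : (ndeg θ : ZMod p) = 0
    · have h6 : (ndeg χ : ZMod p) = 0 := by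
        rw [h5, zero_pow two_ne_zero] at h4
        exact pow_eq_zero_iff two_ne_zero |>.1 h4
      exact cl_congr p (h6.trans h5.symm)
    · have h6 : (ndeg χ : ZMod p) ≠ 0 := by
        intro h6
        rw [h6, zero_pow two_ne_zero] at h4
        exact h5 (pow_eq_zero_iff two_ne_zero |>.1 h4.symm)
      exact Pool.Agent.K3h51.OP.cl_sq p h6 h5 h4

  -- the singular elements
  have hsin : ∀ ω m (g : B), p ∣ orderOf g → b ω m (ι g) = ε ω m * T.t ⟨ω, m⟩ g := by
    intro ω m g hg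
    set χ := b ω m with hχdef
    set θ := T.t ⟨ω, m⟩ with hθdef
    have hχ : IsIrr χ := hbI ω m
    have hθ : IsIrr θ := T.t_irr _
    have hcls : IC.IsClass ((fun a => χ (ι a)) - (ε ω m : ℂ) • θ) := by
      intro g y
      have e1 : χ (ι (y * g * y⁻¹)) = χ (ι g) := res_class ι hχ g y
      show χ (ι (y * g * y⁻¹)) - (ε ω m : ℂ) • θ (y * g * y⁻¹) = χ (ι g) - (ε ω m : ℂ) • θ g
      rw [e1, hθ.conj g y]
    have h0 : ∀ ω' i, IC.B ((fun a => χ (ι a)) - (ε ω m : ℂ) • θ) (T.β ω' i) = 0 := by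
      intro ω' i
      rw [IC.B_sub_left, IC.B_smul_left, hu ω' i χ hχ]
      by_cases hω : ω = ω'
      · subst hω
        rcases m with j | k
        · rw [hl ω j i]
          rw [show θ = T.ξ ω j from rfl, T.B_inl]
          push_cast
          ring
        · rw [hr ω k i]
          rw [show θ = T.ψ ω k from rfl, T.B_inr]
          by_cases h : i = k
          · rw [if_pos h, if_pos h]
            push_cast
            ring
          · rw [if_neg h, if_neg h]
            push_cast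
            ring
      · have h1 : u ω' i χ = 0 := by
          by_contra hne
          exact hω (hdisj ω ω' χ (hbS ω m)
            (Finset.mem_filter.2 ⟨mem_Irr.mpr hχ, i, hne⟩))
        rw [h1, T.B_ne (m := ⟨ω, m⟩) hω i]
        push_cast
        ring
    have h2 := T.vanish hcls h0 hg
    have h3 : χ (ι g) - (ε ω m : ℂ) * θ g = 0 := h2
    exact sub_eq_zero.mp h3
  -- the relation
  have hrel : ∀ ω (i : Fin (f ω)), ∑ j, (ε ω (Sum.inl j) : ℂ) * b ω (Sum.inl j) 1 =
      ε ω (Sum.inr i) * b ω (Sum.inr i) 1 := by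
    intro ω i
    have h1 : ∑ χ ∈ Irr X, χ 1 * IC.B (fun g => χ (ι g)) (T.β ω i) = 0 := by
      have e1 : ∀ χ ∈ Irr X, χ 1 * IC.B (fun g => χ (ι g)) (T.β ω i) =
          ∑ g : B, (Nat.card B : ℂ)⁻¹ * (T.β ω i g⁻¹ * (χ 1 * χ (ι g))) := by
        intro χ _
        unfold IC.B
        rw [Finset.mul_sum, Finset.mul_sum]
        exact Finset.sum_congr rfl fun g _ => by ring
      rw [Finset.sum_congr rfl e1, Finset.sum_comm]
      refine Finset.sum_eq_zero fun g _ => ?_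
      rw [← Finset.mul_sum, ← Finset.mul_sum]
      by_cases hg : g = 1
      · have h2 : T.β ω i g⁻¹ = 0 := by
          rw [hg, inv_one]
          refine T.β_reg ω i 1 ?_
          rw [orderOf_one]
          exact hp.one_lt.ne' ∘ Nat.dvd_one.mp
        rw [h2, zero_mul, mul_zero]
      · rw [col_one (ι g) fun h => hg (hE.inj (h.trans (map_one ι).symm)), mul_zero, mul_zero]
    have h2 : ∑ χ ∈ Irr X, χ 1 * IC.B (fun g => χ (ι g)) (T.β ω i) =
        ∑ χ ∈ S ω, χ 1 * (u ω i χ : ℂ) := by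
      rw [← Finset.sum_subset (Finset.filter_subset _ _ : S ω ⊆ Irr X)]
      · refine Finset.sum_congr rfl fun χ hχ => ?_
        rw [hu ω i χ (mem_Irr.mp (Finset.mem_filter.1 hχ).1)]
      · intro χ hχ hn
        have h3 : u ω i χ = 0 := by
          by_contra hne
          exact hn (Finset.mem_filter.2 ⟨hχ, i, hne⟩)
        rw [hu ω i χ (mem_Irr.mp hχ), h3]
        push_cast
        ring
    rw [h2, hSim ω, Finset.sum_image fun a _ b _ h => hbinj ω h, Fintype.sum_sum_type] at h1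
    have h3 : ∑ k, b ω (Sum.inr k) 1 * (u ω i (b ω (Sum.inr k)) : ℂ) =
        ε ω (Sum.inr i) * b ω (Sum.inr i) 1 := by
      rw [Finset.sum_eq_single i]
      · rw [hr ω i i, if_pos rfl]
        ring
      · intro k _ hk
        rw [hr ω k i, if_neg (Ne.symm hk)]
        push_cast
        ring
      · intro h
        exact absurd (Finset.mem_univ _) h
    have h4 : ∑ j, b ω (Sum.inl j) 1 * (u ω i (b ω (Sum.inl j)) : ℂ) =
        - ∑ j, (ε ω (Sum.inl j) : ℂ) * b ω (Sum.inl j) 1 := by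
      rw [← Finset.sum_neg_distrib]
      refine Finset.sum_congr rfl fun j _ => ?_
      rw [hl ω j i]
      push_cast
      ring
    rw [h3, h4] at h1
    linear_combination -h1
  refine ⟨⟨b, ε, hbinj, fun ω ω' m m' h => hdisj ω ω' (b ω m) (hbS ω m) (h ▸ hbS ω' m'), hbI, hε,
    hsin, hdeg, hrel, fun χ hχ => ?_⟩⟩
  by_cases h : ∃ ω, χ ∈ S ω
  · obtain ⟨ω, h1⟩ := h
    rw [hSim ω, Finset.mem_image] at h1
    obtain ⟨m, -, hm⟩ := h1
    exact Or.inl ⟨ω, m, hm⟩
  · right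
    have h0 : ∀ ω i, u ω i χ = 0 := by
      intro ω i
      by_contra hne
      exact h ⟨ω, Finset.mem_filter.2 ⟨mem_Irr.mpr hχ, i, hne⟩⟩
    refine ⟨fun g hg => T.vanish (F := fun b => χ (ι b)) (res_class ι hχ)
      (fun ω i => by rw [hu ω i χ hχ, h0, Int.cast_zero]) hg, hcl0 χ (mem_Irr.mpr hχ) fun h1 => ?_⟩
    obtain ⟨ω, -, h2⟩ := Finset.mem_biUnion.1 h1
    exact h ⟨ω, h2⟩

end Pool.Agent.ZH17.RD
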