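import Pool.Agent.ZH17.RD.EqStm

/-!
# The combinatorial part of piece EQ of project RD
-/

set_option autoImplicit false
set_option linter.unusedSectionVars false
set_option linter.style.haveILetI false

open scoped BigOperators Classical

noncomputable section

namespace Pool.Agent.ZH17.RD

open Pool.Agent.Helper884 Pool.Agent.K3h3.KB Pool.Agent.K3h3.MK Pool.Agent.K3h83.IN

namespace EqcP

section norm

variable (p : ℕ) [hp : Fact p.Prime]

/-- the `ℓ¹`-norm -/
def nrm (r : RR p) : ℤ := ∑ g : (ZMod p)ˣ, |r.coeff g|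

theorem nrm_nonneg (r : RR p) : 0 ≤ nrm p r := Finset.sum_nonneg fun _ _ => abs_nonneg _

theorem nrm_eq_zero {r : RR p} (h : nrm p r = 0) : r = 0 := by
  ext g
  have h1 := (Finset.sum_eq_zero_iff_of_nonneg (fun g _ => abs_nonneg (r.coeff g))).1 h g
    (Finset.mem_univ g)
  rw [abs_eq_zero.1 h1]
  rfl

theorem nrm_zero : nrm p (0 : RR p) = 0 := by
  unfold nrm
  refine Finset.sum_eq_zero fun g _ => ?_
  rw [MonoidAlgebra.coeff_zero]
  simp

theorem nrm_add (r s : RR p) : nrm p (r + s) ≤ nrm p r + nrm p s := by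
  unfold nrm
  rw [← Finset.sum_add_distrib]
  refine Finset.sum_le_sum fun g _ => ?_
  rw [MonoidAlgebra.coeff_add, Finsupp.add_apply]
  exact abs_add_le _ _

theorem nrm_sum {ι : Type} (S : Finset ι) (f : ι → RR p) :
    nrm p (∑ i ∈ S, f i) ≤ ∑ i ∈ S, nrm p (f i) := by
  induction S using Finset.induction_on with
  | empty => simp [nrm_zero]
  | insert a S ha ih =>
    rw [Finset.sum_insert ha, Finset.sum_insert ha]
    exact (nrm_add p _ _).trans (by linarith)

theorem nrm_neg (r : RR p) : nrm p (-r) = nrm p r := by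
  unfold nrm
  refine Finset.sum_congr rfl fun g _ => ?_
  rw [MonoidAlgebra.coeff_neg, Finsupp.neg_apply, abs_neg]

theorem nrm_single_mul (g : (ZMod p)ˣ) (r : RR p) :
    nrm p (MonoidAlgebra.single g (1 : ℤ) * r) = nrm p r := by
  unfold nrm
  simp_rw [MonoidAlgebra.coeff_single_mul_apply, one_mul]
  exact Fintype.sum_equiv (Equiv.mulLeft g⁻¹) _ _ fun h => rfl

theorem nrm_int_mul (n : ℤ) (r : RR p) : nrm p ((n : RR p) * r) = |n| * nrm p r := by
  unfold nrm
  rw [Finset.mul_sum]
  refine Finset.sum_congr rfl fun g _ => ?_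
  rw [← zsmul_eq_mul, MonoidAlgebra.coeff_smul, Finsupp.smul_apply, smul_eq_mul, abs_mul]

theorem sum_inv (m : ℕ) (hm : 1 ≤ m) :
    ∑ t ∈ Finset.Icc 2 m, (1 : ℚ) / (t : ℚ) ^ 2 ≤ 1 - 1 / m := by
  induction m, hm using Nat.le_induction with
  | base => simp
  | succ m hm ih =>
    rw [Finset.sum_Icc_succ_top (by omega)]
    have hm0 : (0 : ℚ) < m := by exact_mod_cast hm
    have h1 : (1 : ℚ) / ((m + 1 : ℕ) : ℚ) ^ 2 ≤ 1 / m - 1 / ((m + 1 : ℕ) : ℚ) := by
      push_cast
      rw [div_sub_div _ _ hm0.ne' (by positivity), div_le_div_iff₀ (by positivity) (by positivity)]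
      nlinarith
    linarith

theorem sum_lt (m : ℕ) (hm : 0 < m) :
    ∑ t ∈ m.divisors.erase 1, ((m / t : ℕ) : ℤ) ^ 2 < (m : ℤ) ^ 2 := by
  have h : (∑ t ∈ m.divisors.erase 1, ((m / t : ℕ) : ℚ) ^ 2) < (m : ℚ) ^ 2 := by
    have hm0 : (0 : ℚ) < m := by exact_mod_cast hm
    have h1 : ∑ t ∈ m.divisors.erase 1, ((m / t : ℕ) : ℚ) ^ 2 =
        (m : ℚ) ^ 2 * ∑ t ∈ m.divisors.erase 1, (1 : ℚ) / (t : ℚ) ^ 2 := by
      rw [Finset.mul_sum]
      refine Finset.sum_congr rfl fun t ht => ?_
      have ht' := Nat.dvd_of_mem_divisors (Finset.mem_of_mem_erase ht)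
      rw [Nat.cast_div_charZero ht', div_pow, mul_one_div]
    have h2 : ∑ t ∈ m.divisors.erase 1, (1 : ℚ) / (t : ℚ) ^ 2 ≤
        ∑ t ∈ Finset.Icc 2 m, (1 : ℚ) / (t : ℚ) ^ 2 := by
      refine Finset.sum_le_sum_of_subset_of_nonneg ?_ fun _ _ _ => by positivity
      intro t ht
      have ht1 := Finset.ne_of_mem_erase ht
      have ht2 := Finset.mem_of_mem_erase ht
      have ht3 := Nat.pos_of_mem_divisors ht2
      have ht4 := Nat.divisor_le ht2
      rw [Finset.mem_Icc]
      omega
    have h3 := sum_inv m hm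
    have h4 : (0 : ℚ) < 1 / m := by positivity
    rw [h1]
    have h5 : ∑ t ∈ m.divisors.erase 1, (1 : ℚ) / (t : ℚ) ^ 2 < 1 := by linarith
    have h6 : (0 : ℚ) < (m : ℚ) ^ 2 := by positivity
    nlinarith
  exact_mod_cast h

/-- a non-zero-divisor -/
theorem nzd (m : ℕ) (hm : 0 < m) (hpm : ¬ p ∣ m) (r : RR p)
    (h : (∑ t ∈ m.divisors, ((m / t : ℕ) : RR p) ^ 2 * cl p t *
      (((ArithmeticFunction.moebius t : ℤ) : RR p) * r)) = 0) : r = 0 := by
  apply nrm_eq_zero
  by_contra hne
  have hpos : 0 < nrm p r := lt_of_le_of_ne (nrm_nonneg p r) (Ne.symm hne)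
  have h1 : (1 : ℕ) ∈ m.divisors := Nat.one_mem_divisors.2 hm.ne'
  rw [← Finset.add_sum_erase _ _ h1] at h
  have h2 : ((m / 1 : ℕ) : RR p) ^ 2 * cl p 1 *
      (((ArithmeticFunction.moebius 1 : ℤ) : RR p) * r) = (((m : ℤ) ^ 2 : ℤ) : RR p) * r := by
    rw [Nat.div_one, map_one, mul_one, ArithmeticFunction.moebius_apply_one]
    push_cast
    ring
  rw [h2] at h
  have h3 := eq_neg_of_add_eq_zero_left h
  have h4 := congrArg (nrm p) h3
  rw [nrm_int_mul, nrm_neg] at h4
  have h5 : nrm p (∑ t ∈ m.divisors.erase 1, ((m / t : ℕ) : RR p) ^ 2 * cl p t *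
      (((ArithmeticFunction.moebius t : ℤ) : RR p) * r)) ≤
      ∑ t ∈ m.divisors.erase 1, ((m / t : ℕ) : ℤ) ^ 2 * nrm p r := by
    refine (nrm_sum p _ _).trans (Finset.sum_le_sum fun t ht => ?_)
    have ht' := Nat.dvd_of_mem_divisors (Finset.mem_of_mem_erase ht)
    have hpt : (t : ZMod p) ≠ 0 := by
      intro h0
      rw [ZMod.natCast_eq_zero_iff] at h0
      exact hpm (h0.trans ht')
    have e : ((m / t : ℕ) : RR p) ^ 2 * cl p t *
        (((ArithmeticFunction.moebius t : ℤ) : RR p) * r) =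
        ((((m / t : ℕ) : ℤ) ^ 2 * ArithmeticFunction.moebius t : ℤ) : RR p) *
          (MonoidAlgebra.single ((Units.mk0 (t : ZMod p) hpt) ^ 2) 1 * r) := by
      rw [cl_apply p hpt, Int.cast_mul, Int.cast_pow, Int.cast_natCast]
      ring
    rw [e, nrm_int_mul, nrm_single_mul, abs_mul]
    have h6 : |ArithmeticFunction.moebius t| ≤ 1 := ArithmeticFunction.abs_moebius_le_one
    have h7 : |((m / t : ℕ) : ℤ) ^ 2| = ((m / t : ℕ) : ℤ) ^ 2 := abs_of_nonneg (by positivity)
    rw [h7]
    have h8 : (0 : ℤ) ≤ ((m / t : ℕ) : ℤ) ^ 2 := by positivity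
    have h9 : ((m / t : ℕ) : ℤ) ^ 2 * |ArithmeticFunction.moebius t| ≤ ((m / t : ℕ) : ℤ) ^ 2 * 1 :=
      mul_le_mul_of_nonneg_left h6 h8
    rw [mul_one] at h9
    exact mul_le_mul_of_nonneg_right h9 hpos.le
  rw [← h4, ← Finset.sum_mul] at h5
  have h6 := sum_lt m hm
  have h7 : |(m : ℤ) ^ 2| = (m : ℤ) ^ 2 := abs_of_nonneg (by positivity)
  rw [h7] at h5
  have h8 := le_of_mul_le_mul_right h5 hpos
  linarith

/-- inversion -/
theorem inv_of (m : ℕ) (D : ℕ → RR p) (hD : ∀ d, d ∣ m → 1 < d → ∑ t ∈ d.divisors, D t = 0)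
    (t : ℕ) (ht : t ∣ m) (ht0 : 0 < t) : D t = ((ArithmeticFunction.moebius t : ℤ) : RR p) * D 1 := by
  induction t using Nat.strong_induction_on with
  | _ t ih =>
    rcases Nat.lt_or_ge 1 t with h | h
    · have h1 := hD t ht h
      have h2 : ∑ s ∈ t.divisors, (ArithmeticFunction.moebius s : ℤ) = 0 := by
        rw [← ArithmeticFunction.coe_mul_zeta_apply, ArithmeticFunction.moebius_mul_coe_zeta,
          ArithmeticFunction.one_apply_ne h.ne']
      rw [← Nat.cons_self_properDivisors (by omega), Finset.sum_cons] at h1 h2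
      have h3 : ∑ s ∈ t.properDivisors, D s =
          ((∑ s ∈ t.properDivisors, (ArithmeticFunction.moebius s : ℤ) : ℤ) : RR p) * D 1 := by
        rw [Int.cast_sum, Finset.sum_mul]
        refine Finset.sum_congr rfl fun s hs => ?_
        have hs1 := Nat.mem_properDivisors.1 hs
        exact ih s hs1.2 (hs1.1.trans ht) (Nat.pos_of_dvd_of_pos hs1.1 ht0)
      have h4 : (∑ s ∈ t.properDivisors, (ArithmeticFunction.moebius s : ℤ)) =
          - ArithmeticFunction.moebius t := by linarith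
      rw [h3, h4] at h1
      push_cast at h1
      linear_combination h1
    · have h1 : t = 1 := by omega
      rw [h1, ArithmeticFunction.moebius_apply_one]
      simp

end norm

section perm

variable (p : ℕ) [hp : Fact p.Prime] {X : Type} [Fintype X] (α : Equiv.Perm X) (u : X → (ZMod p)ˣ)

/-- the sum over the points of period `L` -/
def FF (L : ℕ) : RR p :=
  ∑ x ∈ Finset.univ.filter (fun x : X => Function.minimalPeriod α x = L),
    MonoidAlgebra.single (u x) (1 : ℤ)

theorem coeff_FF (L : ℕ) (c : (ZMod p)ˣ) : (FF p α u L).coeff c =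
    Nat.card {x // Function.minimalPeriod α x = L ∧ u x = c} := by
  unfold FF
  rw [MonoidAlgebra.coeff_sum, Finsupp.finsetSum_apply]
  simp_rw [MonoidAlgebra.coeff_single, Finsupp.single_apply]
  rw [Finset.sum_ite, Finset.sum_const_zero, add_zero, Finset.sum_const, nsmul_eq_mul, mul_one,
    Nat.card_eq_fintype_card, Fintype.card_subtype, Finset.filter_filter]

theorem period_dvd {m : ℕ} (h : α ^ m = 1) (x : X) : Function.minimalPeriod α x ∣ m := by
  rw [← Function.isPeriodicPt_iff_minimalPeriod_dvd]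
  show α^[m] x = x
  rw [Equiv.Perm.iterate_eq_pow, h]
  rfl

theorem FF_pow (d : ℕ) (hd : 0 < d) : FF p (α ^ d) u 1 = ∑ t ∈ d.divisors, FF p α u t := by
  unfold FF
  have h1 : ∀ x : X, Function.minimalPeriod (α ^ d : Equiv.Perm X) x = 1 ↔
      Function.minimalPeriod α x ∣ d := by
    intro x
    rw [Function.minimalPeriod_eq_one_iff_isFixedPt, ← Function.isPeriodicPt_iff_minimalPeriod_dvd]
    show (α ^ d) x = x ↔ α^[d] x = x
    rw [Equiv.Perm.iterate_eq_pow]
  have h2 := Finset.sum_fiberwise_of_maps_to (s := Finset.univ.filter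
    (fun x : X => Function.minimalPeriod (α ^ d : Equiv.Perm X) x = 1)) (t := d.divisors)
    (g := fun x => Function.minimalPeriod α x) (fun x hx => by
      rw [Nat.mem_divisors]
      exact ⟨(h1 x).1 (Finset.mem_filter.1 hx).2, hd.ne'⟩)
    (fun x => MonoidAlgebra.single (u x) (1 : ℤ))
  rw [← h2]
  refine Finset.sum_congr rfl fun t ht => Finset.sum_congr ?_ fun _ _ => rfl
  ext x
  rw [Finset.mem_filter, Finset.mem_filter, Finset.mem_filter, h1]
  have ht' := Nat.dvd_of_mem_divisors ht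
  constructor
  · rintro ⟨⟨h3, h4⟩, h5⟩
    exact ⟨h3, h5⟩
  · rintro ⟨h3, h5⟩
    exact ⟨⟨h3, by rw [h5]; exact ht'⟩, h5⟩

theorem cnt_eq (m : ℕ) (hm : 0 < m) (h : α ^ m = 1) : cnt p m α u =
    ∑ t ∈ m.divisors, ((m / t : ℕ) : RR p) ^ 2 * cl p t * FF p α u t := by
  unfold cnt FF
  rw [← Finset.sum_fiberwise_of_maps_to (s := Finset.univ) (t := m.divisors)
    (g := fun x => Function.minimalPeriod α x) (fun x _ => by
      rw [Nat.mem_divisors]
      exact ⟨period_dvd α h x, hm.ne'⟩)]
  refine Finset.sum_congr rfl fun t ht => ?_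
  rw [Finset.mul_sum]
  refine Finset.sum_congr rfl fun x hx => ?_
  rw [(Finset.mem_filter.1 hx).2]

end perm

/-- the numbers of points of each period -/
theorem FF_eq (p : ℕ) [Fact p.Prime] (m : ℕ) : ∀ (_ : 0 < m) (_ : ¬ p ∣ m) (X Y : Type) [Fintype X]
    [Fintype Y] (α : Equiv.Perm X) (β : Equiv.Perm Y) (_ : α ^ m = 1) (_ : β ^ m = 1)
    (u : X → (ZMod p)ˣ) (v : Y → (ZMod p)ˣ)
    (_ : ∀ s, s ∣ m → cnt p (m / s) (α ^ s) u = cnt p (m / s) (β ^ s) v) (L : ℕ) (_ : L ∣ m),
    FF p α u L = FF p β v L := by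
  induction m using Nat.strong_induction_on with
  | _ m ih =>
    intro hm hpm X Y _ _ α β hα hβ u v hc L hL
    have hD : ∀ d, d ∣ m → 1 < d → ∑ t ∈ d.divisors, (FF p α u t - FF p β v t) = 0 := by
      intro d hd hd1
      have hd0 : 0 < d := by omega
      obtain ⟨e, rfl⟩ := hd
      have he0 : 0 < e := Nat.pos_of_mul_pos_left hm
      have h1 := ih e (by nlinarith) he0 (fun h => hpm (Dvd.dvd.mul_left h d)) X Y (α ^ d) (β ^ d)
        (by rw [← pow_mul]; exact hα) (by rw [← pow_mul]; exact hβ) u v (fun s hs => by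
          rw [← pow_mul, ← pow_mul]
          have h2 := hc (d * s) (Nat.mul_dvd_mul_left d hs)
          rwa [Nat.mul_div_mul_left _ _ hd0] at h2) 1 (one_dvd _)
      rw [FF_pow p α u d hd0, FF_pow p β v d hd0] at h1
      rw [Finset.sum_sub_distrib, h1, sub_self]
    have hinv := inv_of p m (fun t => FF p α u t - FF p β v t) hD
    have h1 := hc 1 (one_dvd m)
    rw [Nat.div_one, pow_one, pow_one, cnt_eq p α u m hm hα, cnt_eq p β v m hm hβ] at h1
    have h2 : FF p α u 1 - FF p β v 1 = 0 := by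
      apply nzd p m hm hpm
      rw [← sub_eq_zero, ← Finset.sum_sub_distrib] at h1
      rw [← h1]
      refine Finset.sum_congr rfl fun t ht => ?_
      have ht' := Nat.dvd_of_mem_divisors ht
      have h3 := hinv t ht' (Nat.pos_of_dvd_of_pos ht' hm)
      rw [← h3, mul_sub]
    have h3 := hinv L hL (Nat.pos_of_dvd_of_pos hL hm)
    rw [h2, mul_zero] at h3
    exact sub_eq_zero.1 h3

section bij

/-- splitting off the range of an injective map -/
theorem split_bij {ι X : Type} (φ : ι → X) (hφ : Function.Injective φ) :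
    Function.Bijective (Sum.elim φ (Subtype.val : {x // x ∉ Set.range φ} → X)) := by
  constructor
  · rintro (i | x) (j | y) h
    · exact congrArg Sum.inl (hφ h)
    · exact absurd ⟨i, h⟩ y.2
    · exact absurd ⟨j, h.symm⟩ x.2
    · exact congrArg Sum.inr (Subtype.ext h)
  · intro x
    by_cases hx : x ∈ Set.range φ
    · obtain ⟨i, rfl⟩ := hx
      exact ⟨Sum.inl i, rfl⟩
    · exact ⟨Sum.inr ⟨x, hx⟩, rfl⟩

theorem split_card {ι X : Type} [Finite ι] [Finite X] (φ : ι → X) (hφ : Function.Injective φ)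
    (P : X → Prop) : Nat.card {x // P x} =
      Nat.card {i // P (φ i)} + Nat.card {x : {x // x ∉ Set.range φ} // P x.1} := by
  rw [← Nat.card_sum]
  refine (Nat.card_congr (Equiv.ofBijective (fun s : {i // P (φ i)} ⊕
    {x : {x // x ∉ Set.range φ} // P x.1} => (Sum.elim (fun i => ⟨φ i.1, i.2⟩)
      (fun x => ⟨x.1.1, x.2⟩) s : {x // P x})) ?_)).symm
  constructor
  · rintro (i | x) (j | y) h
    · exact congrArg Sum.inl (Subtype.ext (hφ (congrArg Subtype.val h)))
    · exact absurd ⟨i.1, congrArg Subtype.val h⟩ y.1.2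
    · exact absurd ⟨j.1, (congrArg Subtype.val h).symm⟩ x.1.2
    · have h1 : x.1.1 = y.1.1 := congrArg (fun z : {x // P x} => z.1) h
      exact congrArg Sum.inr (Subtype.ext (Subtype.ext h1))
  · rintro ⟨x, hP⟩
    by_cases hx : x ∈ Set.range φ
    · obtain ⟨i, rfl⟩ := hx
      exact ⟨Sum.inl ⟨i, hP⟩, rfl⟩
    · exact ⟨Sum.inr ⟨⟨x, hx⟩, hP⟩, rfl⟩

variable {X : Type} [Finite X] (α : Equiv.Perm X) (x₀ : X)

theorem period_pos : 0 < Function.minimalPeriod α x₀ := by
  haveI := Fintype.ofFinite X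
  exact Nat.pos_of_dvd_of_pos (period_dvd α (pow_orderOf_eq_one α) x₀) (orderOf_pos α)

/-- the points of the orbit -/
def pt (L : ℕ) (i : Fin L) : X := α^[i] x₀

theorem pt_inj {L : ℕ} (hL : Function.minimalPeriod α x₀ = L) : Function.Injective (pt α x₀ L) := by
  intro i j h
  apply Fin.ext
  exact Function.iterate_injOn_Iio_minimalPeriod (by rw [hL]; exact i.2) (by rw [hL]; exact j.2) h

theorem iter_mem {L : ℕ} (hL : Function.minimalPeriod α x₀ = L) (hL0 : 0 < L) (i : ℕ) :
    α^[i] x₀ = pt α x₀ L ⟨i % L, Nat.mod_lt _ hL0⟩ := by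
  unfold pt
  subst hL
  exact (Function.iterate_mod_minimalPeriod_eq (f := α) (x := x₀) (n := i)).symm

theorem pt_succ {L : ℕ} (hL : Function.minimalPeriod α x₀ = L) (hL0 : 0 < L) (i : Fin L) :
    α (pt α x₀ L i) = pt α x₀ L ⟨(i + 1) % L, Nat.mod_lt _ hL0⟩ := by
  rw [← iter_mem α x₀ hL hL0]
  exact (Function.iterate_succ_apply' α i x₀).symm

theorem mem_iff {L : ℕ} (hL : Function.minimalPeriod α x₀ = L) (hL0 : 0 < L) (x : X) :
    α x ∈ Set.range (pt α x₀ L) ↔ x ∈ Set.range (pt α x₀ L) := by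
  constructor
  · rintro ⟨i, hi⟩
    have h1 : α^[i + L] x₀ = α x := by
      rw [← hi]
      show α^[i + L] x₀ = α^[i] x₀
      rw [Function.iterate_add_apply]
      subst hL
      rw [Function.iterate_minimalPeriod]
    have h2 : (i : ℕ) + L = (i + (L - 1)) + 1 := by omega
    rw [h2, Function.iterate_succ_apply'] at h1
    have h3 := α.injective h1
    rw [← h3, iter_mem α x₀ hL hL0]
    exact ⟨_, rfl⟩
  · rintro ⟨i, rfl⟩
    rw [pt_succ α x₀ hL hL0]
    exact ⟨_, rfl⟩

theorem pt_period {L : ℕ} (i : Fin L) :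
    Function.minimalPeriod α (pt α x₀ L i) = Function.minimalPeriod α x₀ := by
  apply Function.minimalPeriod_apply_iterate
  exact Function.minimalPeriod_pos_iff_mem_periodicPts.1 (period_pos α x₀)

theorem pt_key {K : Type} (u : X → K) (hu : ∀ x, u (α x) = u x) {L : ℕ} (i : Fin L) :
    u (pt α x₀ L i) = u x₀ := by
  unfold pt
  induction (i : ℕ) with
  | zero => rfl
  | succ k ih => rw [Function.iterate_succ_apply', hu, ih]

theorem sub_period {S : Set X} (h : ∀ x, α x ∉ S ↔ x ∉ S) (x : {x // x ∉ S}) :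
    Function.minimalPeriod (α.subtypePerm h) x = Function.minimalPeriod α x.1 := by
  rw [Function.minimalPeriod_eq_minimalPeriod_iff]
  intro n
  have h1 : ∀ n : ℕ, ((α.subtypePerm h)^[n] x).1 = α^[n] x.1 := by
    intro n
    induction n with
    | zero => rfl
    | succ n ih =>
      rw [Function.iterate_succ_apply', Function.iterate_succ_apply', ← ih]
      rfl
  constructor
  · intro h2
    show α^[n] x.1 = x.1
    rw [← h1]
    exact congrArg Subtype.val h2
  · intro h2
    apply Subtype.ext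
    exact (h1 n).trans h2

end bij

/-- the bijection -/
theorem bij (n : ℕ) : ∀ (K X Y : Type) [Fintype X] [Fintype Y] (α : Equiv.Perm X)
    (β : Equiv.Perm Y) (u : X → K) (v : Y → K) (_ : ∀ x, u (α x) = u x) (_ : ∀ y, v (β y) = v y)
    (_ : ∀ (L : ℕ) (c : K), Nat.card {x // Function.minimalPeriod α x = L ∧ u x = c} =
      Nat.card {y // Function.minimalPeriod β y = L ∧ v y = c}) (_ : Fintype.card X = n),
    ∃ e : X ≃ Y, (∀ x, v (e x) = u x) ∧ ∀ x, e (α x) = β (e x) := by
  induction n using Nat.strong_induction_on with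
  | _ n ih =>
    intro K X Y _ _ α β u v hu hv hc hn
    by_cases hX : Nonempty X
    · obtain ⟨x₀⟩ := hX
      obtain ⟨L, hL⟩ : ∃ L, Function.minimalPeriod α x₀ = L := ⟨_, rfl⟩
      have hL0 : 0 < L := by rw [← hL]; exact period_pos α x₀
      obtain ⟨⟨y₀, hy1, hy2⟩⟩ : Nonempty {y // Function.minimalPeriod β y = L ∧ v y = u x₀} := by
        rw [← Finite.card_pos_iff, ← hc]
        haveI : Nonempty {x // Function.minimalPeriod α x = L ∧ u x = u x₀} := ⟨⟨x₀, hL, rfl⟩⟩
        exact Finite.card_pos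
      let φ := pt α x₀ L
      let ψ := pt β y₀ L
      have hφ : Function.Injective φ := pt_inj α x₀ hL
      have hψ : Function.Injective ψ := pt_inj β y₀ hy1
      have hSα : ∀ x, α x ∉ Set.range φ ↔ x ∉ Set.range φ := fun x =>
        not_congr (mem_iff α x₀ hL hL0 x)
      have hSβ : ∀ y, β y ∉ Set.range ψ ↔ y ∉ Set.range ψ := fun y =>
        not_congr (mem_iff β y₀ hy1 hL0 y)
      let α' : Equiv.Perm {x // x ∉ Set.range φ} := α.subtypePerm hSα
      let β' : Equiv.Perm {y // y ∉ Set.range ψ} := β.subtypePerm hSβ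
      have hlt : Fintype.card {x // x ∉ Set.range φ} < n := by
        rw [← hn]
        refine Fintype.card_subtype_lt (x := x₀) ?_
        rw [not_not]
        exact ⟨⟨0, hL0⟩, rfl⟩
      obtain ⟨e', he1, he2⟩ := ih _ hlt K {x // x ∉ Set.range φ} {y // y ∉ Set.range ψ} α' β'
        (fun x => u x.1) (fun y => v y.1) (fun x => hu x.1) (fun y => hv y.1) (by
          intro L' c
          have h1 := split_card φ hφ (fun x => Function.minimalPeriod α x = L' ∧ u x = c)
          have h2 := split_card ψ hψ (fun y => Function.minimalPeriod β y = L' ∧ v y = c)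
          have h3 : Nat.card {i // Function.minimalPeriod α (φ i) = L' ∧ u (φ i) = c} =
              Nat.card {i // Function.minimalPeriod β (ψ i) = L' ∧ v (ψ i) = c} := by
            refine Nat.card_congr (Equiv.subtypeEquivRight fun i => ?_)
            rw [pt_period α x₀ i, pt_period β y₀ i, pt_key α x₀ u hu i, pt_key β y₀ v hv i, hL, hy1,
              hy2]
          have h4 := hc L' c
          have h5 : Nat.card {x : {x // x ∉ Set.range φ} //
              Function.minimalPeriod α' x = L' ∧ u x.1 = c} =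
              Nat.card {x : {x // x ∉ Set.range φ} //
                Function.minimalPeriod α x.1 = L' ∧ u x.1 = c} :=
            Nat.card_congr (Equiv.subtypeEquivRight fun x => by rw [sub_period α hSα x])
          have h6 : Nat.card {y : {y // y ∉ Set.range ψ} //
              Function.minimalPeriod β' y = L' ∧ v y.1 = c} =
              Nat.card {y : {y // y ∉ Set.range ψ} //
                Function.minimalPeriod β y.1 = L' ∧ v y.1 = c} :=
            Nat.card_congr (Equiv.subtypeEquivRight fun y => by rw [sub_period β hSβ y])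
          rw [h5, h6]
          omega) rfl
      let A := Equiv.ofBijective _ (split_bij φ hφ)
      let B := Equiv.ofBijective _ (split_bij ψ hψ)
      let C := Equiv.sumCongr (Equiv.refl (Fin L)) e'
      have hA1 : ∀ i, A (Sum.inl i) = φ i := fun _ => rfl
      have hA2 : ∀ x, A (Sum.inr x) = x.1 := fun _ => rfl
      have hB1 : ∀ i, B (Sum.inl i) = ψ i := fun _ => rfl
      have hB2 : ∀ x, B (Sum.inr x) = x.1 := fun _ => rfl
      refine ⟨A.symm.trans (C.trans B), fun x => ?_, fun x => ?_⟩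
      · obtain ⟨s, rfl⟩ := A.surjective x
        show v (B (C (A.symm (A s)))) = u (A s)
        rw [A.symm_apply_apply]
        rcases s with i | x
        · show v (ψ i) = u (φ i)
          rw [pt_key α x₀ u hu i, pt_key β y₀ v hv i, hy2]
        · exact he1 x
      · obtain ⟨s, rfl⟩ := A.surjective x
        show B (C (A.symm (α (A s)))) = β (B (C (A.symm (A s))))
        rw [A.symm_apply_apply]
        rcases s with i | x
        · have h1 : α (A (Sum.inl i)) = A (Sum.inl ⟨(i + 1) % L, Nat.mod_lt _ hL0⟩) :=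
            pt_succ α x₀ hL hL0 i
          rw [h1, A.symm_apply_apply]
          exact (pt_succ β y₀ hy1 hL0 i).symm
        · have h1 : α (A (Sum.inr x)) = A (Sum.inr (α' x)) := rfl
          rw [h1, A.symm_apply_apply]
          exact congrArg Subtype.val (he2 x)
    · have hY : IsEmpty Y := by
        refine ⟨fun y => ?_⟩
        have h1 := hc (Function.minimalPeriod β y) (v y)
        haveI : Nonempty {y' // Function.minimalPeriod β y' = Function.minimalPeriod β y ∧
          v y' = v y} := ⟨⟨y, rfl, rfl⟩⟩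
        have h2 := Finite.card_pos (α := {y' // Function.minimalPeriod β y' =
          Function.minimalPeriod β y ∧ v y' = v y})
        rw [← h1, Finite.card_pos_iff] at h2
        obtain ⟨x⟩ := h2
        exact hX ⟨x.1⟩
      haveI : IsEmpty X := not_nonempty_iff.1 hX
      exact ⟨Equiv.equivOfIsEmpty X Y, fun x => isEmptyElim x, fun x => isEmptyElim x⟩

end EqcP

open EqcP in
theorem eqc : EQC := by
  intro p _ m hm hpm X Y _ _ α β hα hβ u v hu hv hc
  refine bij _ _ X Y α β u v hu hv (fun L c => ?_) rfl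
  by_cases hL : L ∣ m
  · have h1 := FF_eq p m hm hpm X Y α β hα hβ u v hc L hL
    have h2 := coeff_FF p α u L c
    rw [h1, coeff_FF p β v L c] at h2
    exact_mod_cast h2.symm
  · have h1 : IsEmpty {x // Function.minimalPeriod α x = L ∧ u x = c} :=
      ⟨fun x => hL (by rw [← x.2.1]; exact period_dvd α hα x.1)⟩
    have h2 : IsEmpty {y // Function.minimalPeriod β y = L ∧ v y = c} :=
      ⟨fun y => hL (by rw [← y.2.1]; exact period_dvd β hβ y.1)⟩
    rw [Nat.card_of_isEmpty, Nat.card_of_isEmpty]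

end Pool.Agent.ZH17.RD
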