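import Pool.Agent.ZH17.RD.Eqr
import Pool.Agent.ZH17.RD.Eqc

/-!
# Piece EQ
-/

namespace Pool.Agent.ZH17.RD

theorem eq : EQ := eq_of_eqc eqc

end Pool.Agent.ZH17.RD
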