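import Pool.Agent.ZH17.RD.Stm

/-!
# Statements of the parts of piece EQ (helper8, helper61)
-/

set_option autoImplicit false
set_option linter.unusedSectionVars false

open scoped BigOperators Classical

noncomputable section

namespace Pool.Agent.ZH17.RD

open Pool.Agent.Helper884 Pool.Agent.K3h3.KB Pool.Agent.K3h3.MK Pool.Agent.K3h83.IN
open Pool.Agent.H254R3.IN (IsIrr mem_Irr)
open IC (Irr)

/-- the weighted count of the points of a permutation `α` with `α ^ n = 1`: a point `x` with period `l` counts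
`(n / l) ^ 2` times the class of `l` times the class `u x` -/
def cnt (p : ℕ) [Fact p.Prime] (n : ℕ) {X : Type} [Fintype X] (α : Equiv.Perm X)
    (u : X → (ZMod p)ˣ) : RR p :=
  ∑ x : X, ((n / Function.minimalPeriod α x : ℕ) : RR p) ^ 2 * cl p (Function.minimalPeriod α x) *
    MonoidAlgebra.single (u x) (1 : ℤ)

/-- **EQC** (combinatorics): two permutations `α`, `β` with `α ^ m = 1`, `β ^ m = 1`, `p ∤ m`, and the same weighted
counts for all powers `α ^ s`, `β ^ s` (`s ∣ m`) are conjugate by a bijection respecting the classes.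

Proof. For `L ∣ m` let `D L ∈ RR p` be the sum of `single (u x) 1` over the `x` with period `L`, minus the same
for `Y`. The claim is `D L = 0` for all `L ∣ m` (then compare coefficients: as many points of period `L` and
class `c` in `X` as in `Y`, and build the bijection orbit by orbit). Induction on `m`: for `1 < d ∣ m` the
induction hypothesis for `α ^ d`, `β ^ d`, `m / d` gives that the sums over the fixed points of `α ^ d` and
`β ^ d` agree: `∑_{t ∣ d} D t = 0`. So `D t = μ(t) D 1` for `t ∣ m`. The hypothesis for `s = 1` is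
`∑_{t ∣ m} (m / t) ^ 2 cl(t) D t = 0`, so `K * D 1 = 0` with `K = ∑_{t ∣ m} (m / t) ^ 2 μ(t) cl(t)`, and `K` is a
non-zero-divisor: with the `ℓ¹`-norm of the coefficients, `‖K r‖ ≥ m² ‖r‖ (1 - ∑_{t ≥ 2} 1 / t²) > 0`, as `cl(t)`
is a group element (`p ∤ t`) and `∑_{t ≥ 2} 1 / t² < 1`. -/
def EQC : Prop := ∀ (p : ℕ) [Fact p.Prime] (m : ℕ) (_ : 0 < m) (_ : ¬ p ∣ m) (X Y : Type) [Fintype X]
  [Fintype Y] (α : Equiv.Perm X) (β : Equiv.Perm Y) (_ : α ^ m = 1) (_ : β ^ m = 1)
  (u : X → (ZMod p)ˣ) (v : Y → (ZMod p)ˣ) (_ : ∀ x, u (α x) = u x) (_ : ∀ y, v (β y) = v y)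
  (_ : ∀ s, s ∣ m → cnt p (m / s) (α ^ s) u = cnt p (m / s) (β ^ s) v),
  ∃ e : X ≃ Y, (∀ x, v (e x) = u x) ∧ ∀ x, e (α x) = β (e x)

end Pool.Agent.ZH17.RD
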