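import Pool.Agent.ZH17.RD.Eqc

/-!
# The combinatorial part of piece EQ without the condition on `m`
-/

set_option autoImplicit false
set_option linter.unusedSectionVars false
set_option linter.style.haveILetI false

open scoped BigOperators Classical

noncomputable section

namespace Pool.Agent.ZH17.RD

open Pool.Agent.Helper884 Pool.Agent.K3h3.KB Pool.Agent.K3h3.MK Pool.Agent.K3h83.IN

namespace EqcP

theorem cl_zero (p : ℕ) [Fact p.Prime] {t : ℕ} (h : (t : ZMod p) = 0) : cl p t = 0 := by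
  change cls p _ = 0
  unfold cls
  rw [dif_pos h]

/-- a non-zero-divisor -/
theorem nzd2 (p : ℕ) [hp : Fact p.Prime] (m : ℕ) (hm : 0 < m) (r : RR p)
    (h : (∑ t ∈ m.divisors, ((m / t : ℕ) : RR p) ^ 2 * cl p t *
      (((ArithmeticFunction.moebius t : ℤ) : RR p) * r)) = 0) : r = 0 := by
  apply nrm_eq_zero
  by_contra hne
  have hpos : 0 < nrm p r := lt_of_le_of_ne (nrm_nonneg p r) (Ne.symm hne)
  have h1 : (1 : ℕ) ∈ m.divisors := Nat.one_mem_divisors.2 hm.ne'
  rw [← Finset.add_sum_erase _ _ h1] at h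
  have h2 : ((m / 1 : ℕ) : RR p) ^ 2 * cl p 1 *
      (((ArithmeticFunction.moebius 1 : ℤ) : RR p) * r) = (((m : ℤ) ^ 2 : ℤ) : RR p) * r := by
    rw [Nat.div_one, map_one, mul_one, ArithmeticFunction.moebius_apply_one]
    push_cast
    ring
  rw [h2] at h
  have h3 := eq_neg_of_add_eq_zero_left h
  have h4 := congrArg (nrm p) h3
  rw [nrm_int_mul, nrm_neg] at h4
  have h5 : nrm p (∑ t ∈ m.divisors.erase 1, ((m / t : ℕ) : RR p) ^ 2 * cl p t *
      (((ArithmeticFunction.moebius t : ℤ) : RR p) * r)) ≤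
      ∑ t ∈ m.divisors.erase 1, ((m / t : ℕ) : ℤ) ^ 2 * nrm p r := by
    refine (nrm_sum p _ _).trans (Finset.sum_le_sum fun t ht => ?_)
    by_cases hpt : (t : ZMod p) = 0
    · rw [cl_zero p hpt, mul_zero, zero_mul, nrm_zero]
      positivity
    have e : ((m / t : ℕ) : RR p) ^ 2 * cl p t *
        (((ArithmeticFunction.moebius t : ℤ) : RR p) * r) =
        ((((m / t : ℕ) : ℤ) ^ 2 * ArithmeticFunction.moebius t : ℤ) : RR p) *
          (MonoidAlgebra.single ((Units.mk0 (t : ZMod p) hpt) ^ 2) 1 * r) := by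
      rw [cl_apply p hpt, Int.cast_mul, Int.cast_pow, Int.cast_natCast]
      ring
    rw [e, nrm_int_mul, nrm_single_mul, abs_mul]
    have h6 : |ArithmeticFunction.moebius t| ≤ 1 := ArithmeticFunction.abs_moebius_le_one
    have h7 : |((m / t : ℕ) : ℤ) ^ 2| = ((m / t : ℕ) : ℤ) ^ 2 := abs_of_nonneg (by positivity)
    rw [h7]
    have h8 : (0 : ℤ) ≤ ((m / t : ℕ) : ℤ) ^ 2 := by positivity
    have h9 : ((m / t : ℕ) : ℤ) ^ 2 * |ArithmeticFunction.moebius t| ≤ ((m / t : ℕ) : ℤ) ^ 2 * 1 :=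
      mul_le_mul_of_nonneg_left h6 h8
    rw [mul_one] at h9
    exact mul_le_mul_of_nonneg_right h9 hpos.le
  rw [← h4, ← Finset.sum_mul] at h5
  have h6 := sum_lt m hm
  have h7 : |(m : ℤ) ^ 2| = (m : ℤ) ^ 2 := abs_of_nonneg (by positivity)
  rw [h7] at h5
  have h8 := le_of_mul_le_mul_right h5 hpos
  linarith

/-- the numbers of points of each period -/
theorem FF_eq2 (p : ℕ) [Fact p.Prime] (m : ℕ) : ∀ (_ : 0 < m) (X Y : Type) [Fintype X]
    [Fintype Y] (α : Equiv.Perm X) (β : Equiv.Perm Y) (_ : α ^ m = 1) (_ : β ^ m = 1)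
    (u : X → (ZMod p)ˣ) (v : Y → (ZMod p)ˣ)
    (_ : ∀ s, s ∣ m → cnt p (m / s) (α ^ s) u = cnt p (m / s) (β ^ s) v) (L : ℕ) (_ : L ∣ m),
    FF p α u L = FF p β v L := by
  induction m using Nat.strong_induction_on with
  | _ m ih =>
    intro hm X Y _ _ α β hα hβ u v hc L hL
    have hD : ∀ d, d ∣ m → 1 < d → ∑ t ∈ d.divisors, (FF p α u t - FF p β v t) = 0 := by
      intro d hd hd1
      have hd0 : 0 < d := by omega
      obtain ⟨e, rfl⟩ := hd
      have he0 : 0 < e := Nat.pos_of_mul_pos_left hm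
      have h1 := ih e (by nlinarith) he0 X Y (α ^ d) (β ^ d)
        (by rw [← pow_mul]; exact hα) (by rw [← pow_mul]; exact hβ) u v (fun s hs => by
          rw [← pow_mul, ← pow_mul]
          have h2 := hc (d * s) (Nat.mul_dvd_mul_left d hs)
          rwa [Nat.mul_div_mul_left _ _ hd0] at h2) 1 (one_dvd _)
      rw [FF_pow p α u d hd0, FF_pow p β v d hd0] at h1
      rw [Finset.sum_sub_distrib, h1, sub_self]
    have hinv := inv_of p m (fun t => FF p α u t - FF p β v t) hD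
    have h1 := hc 1 (one_dvd m)
    rw [Nat.div_one, pow_one, pow_one, cnt_eq p α u m hm hα, cnt_eq p β v m hm hβ] at h1
    have h2 : FF p α u 1 - FF p β v 1 = 0 := by
      apply nzd2 p m hm
      rw [← sub_eq_zero, ← Finset.sum_sub_distrib] at h1
      rw [← h1]
      refine Finset.sum_congr rfl fun t ht => ?_
      have ht' := Nat.dvd_of_mem_divisors ht
      have h3 := hinv t ht' (Nat.pos_of_dvd_of_pos ht' hm)
      rw [← h3, mul_sub]
    have h3 := hinv L hL (Nat.pos_of_dvd_of_pos hL hm)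
    rw [h2, mul_zero] at h3
    exact sub_eq_zero.1 h3

end EqcP

open EqcP in
/-- `EQC` without the condition `p ∤ m` -/
theorem eqc2 (p : ℕ) [Fact p.Prime] (m : ℕ) (hm : 0 < m) (X Y : Type) [Fintype X]
    [Fintype Y] (α : Equiv.Perm X) (β : Equiv.Perm Y) (hα : α ^ m = 1) (hβ : β ^ m = 1)
    (u : X → (ZMod p)ˣ) (v : Y → (ZMod p)ˣ) (hu : ∀ x, u (α x) = u x) (hv : ∀ y, v (β y) = v y)
    (hc : ∀ s, s ∣ m → cnt p (m / s) (α ^ s) u = cnt p (m / s) (β ^ s) v) :
    ∃ e : X ≃ Y, (∀ x, v (e x) = u x) ∧ ∀ x, e (α x) = β (e x) := by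
  refine bij _ _ X Y α β u v hu hv (fun L c => ?_) rfl
  by_cases hL : L ∣ m
  · have h1 := FF_eq2 p m hm X Y α β hα hβ u v hc L hL
    have h2 := coeff_FF p α u L c
    rw [h1, coeff_FF p β v L c] at h2
    exact_mod_cast h2.symm
  · have h1 : IsEmpty {x // Function.minimalPeriod α x = L ∧ u x = c} :=
      ⟨fun x => hL (by rw [← x.2.1]; exact period_dvd α hα x.1)⟩
    have h2 : IsEmpty {y // Function.minimalPeriod β y = L ∧ v y = c} :=
      ⟨fun y => hL (by rw [← y.2.1]; exact period_dvd β hβ y.1)⟩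
    rw [Nat.card_of_isEmpty, Nat.card_of_isEmpty]

end Pool.Agent.ZH17.RD
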