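import Pool.Agent.ZH17.RD.Base

/-!
# Statements of the pieces (project RD, helper17): Q1 of MP_5ecade_al for groups with socles `S ^ k`

`X p G` is the type of the irreducible characters of `G` of degree prime to `p` (K3h3/MK/Ring.lean), `NN P` the
normalizer of `P`, `wt (cl p) G` the sum of the classes `cl p χ(1)` over `Irr G`.
-/

set_option autoImplicit false
set_option linter.unusedSectionVars false
set_option linter.style.haveILetI false

open scoped BigOperators Classical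

noncomputable section

namespace Pool.Agent.ZH17.RD

open Pool.Agent.Helper884 Pool.Agent.K3h3.KB Pool.Agent.K3h3.MK Pool.Agent.K3h83.IN
open Pool.Agent.H254R3.IN (IsIrr mem_Irr)
open IC (Irr)

/-- the automorphisms of `N` which stabilise `Q` and are trivial on the center -/
def Ast {N : Type} [Group N] (Q : Subgroup N) : Subgroup (MulAut N) where
  carrier := {a | (∀ x, a x ∈ Q ↔ x ∈ Q) ∧ ∀ z ∈ Subgroup.center N, a z = z}
  one_mem' := ⟨fun _ => Iff.rfl, fun _ _ => rfl⟩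
  mul_mem' := by
    rintro a b ⟨h1, h2⟩ ⟨h3, h4⟩
    refine ⟨fun x => (h1 (b x)).trans (h3 x), fun z hz => ?_⟩
    rw [MulAut.mul_apply, h4 z hz, h2 z hz]
  inv_mem' := by
    rintro a ⟨h1, h2⟩
    refine ⟨fun x => ?_, fun z hz => ?_⟩
    · rw [← h1 (a⁻¹ x), MulAut.apply_inv_self]
    · nth_rewrite 1 [← h2 z hz]
      exact MulAut.inv_apply_self N a z

theorem mem_Ast {N : Type} [Group N] {Q : Subgroup N} {a : MulAut N} :
    a ∈ Ast Q ↔ (∀ x, a x ∈ Q ↔ x ∈ Q) ∧ ∀ z ∈ Subgroup.center N, a z = z := Iff.rfl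

/-- the bimodule `⨁ χ ⊗ β(χ)^*` of `N` and `N_N(Q)` extends to `N ⋊ Ast Q`, for a bijection `β` from
`Irr_{p'}(N)` onto `Irr_{p'}(N_N(Q))` with degrees congruent up to sign and equal central characters -/
def Lnk (p : ℕ) [Fact p.Prime] {N : Type} [Group N] [Finite N] (Q : Sylow p N) : Prop :=
  ∃ (β : X p N ≃ X p (NN Q))
    (ω : N ⋊[(Ast (Q : Subgroup N)).subtype] (Ast (Q : Subgroup N)) → ℂ), RC ω ∧
    (∀ χ : X p N, cl p (ndeg χ.1) = cl p (ndeg (β χ).1)) ∧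
    (∀ (χ : X p N) (z : NN Q), (z : N) ∈ Subgroup.center N →
      (β χ).1 z * χ.1 1 = χ.1 z * (β χ).1 1) ∧
    ∀ (n : N) (m : NN Q) (b : Ast (Q : Subgroup N)), (b : MulAut N) = MulAut.conj (m : N) →
      ω ⟨n * (m : N)⁻¹, b⟩ = ∑ᶠ χ : X p N, χ.1 n * (β χ).1 m⁻¹

/-- **Piece GRP** (pure group theory): the structure of a reduced group `G` such that `G / Z(G)` has the
unique minimal normal subgroup `M ≅ S ^ k`. -/
def GRP : Prop := ∀ (p : ℕ) [Fact p.Prime] (G : Type) [Group G] [Finite G] (P : Sylow p G)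
  (_ : Red2 P) (S : Type) [Group S] [Finite S] [IsSimpleGroup S] (_ : ∃ a b : S, a * b ≠ b * a)
  (_ : p ∣ Nat.card S) (k : ℕ) (_ : 0 < k) (M : Subgroup (G ⧸ Subgroup.center G)) (_ : M.Normal)
  (_ : ∀ L : Subgroup (G ⧸ Subgroup.center G), L.Normal → L ≠ ⊥ → M ≤ L)
  (_ : Nonempty (M ≃* (Fin k → S))),
  ∃ (N : Type) (_ : Group N) (_ : Finite N) (I : Type) (_ : Fintype I) (F : (I → N) →* G)
    (H : Subgroup G) (σ : H →* Equiv.Perm I) (c : H → I → MulAut N) (Q : Sylow p N),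
    commutator N = ⊤ ∧ Nonempty ((N ⧸ Subgroup.center N) ≃* S) ∧
    ¬ p ∣ Nat.card (Subgroup.center N) ∧
    F.range.Normal ∧ F.range ⊔ H = ⊤ ∧ NN P ≤ H ∧ H ≠ ⊤ ∧
    (∀ h h' i, c (h * h') i = c h (σ h' i) * c h' i) ∧
    (∀ (h : H) (n : I → N), (h : G) * F n * (h : G)⁻¹ =
      F fun i => c h ((σ h)⁻¹ i) (n ((σ h)⁻¹ i))) ∧
    (∀ h i, c h i ∈ Ast (Q : Subgroup N)) ∧
    (∀ n : I → N, F n ∈ H ↔ ∀ i, n i ∈ NN Q) ∧
    ∀ (n : I → N) (hn : F n ∈ H), σ ⟨F n, hn⟩ = 1 ∧ ∀ i, c ⟨F n, hn⟩ i = MulAut.conj (n i)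

/-- **Piece EQ**: an equivariant bijection for a group with cyclic Sylow `p`-subgroups and a
`p'`-automorphism -/
def EQ : Prop := ∀ (p : ℕ) [Fact p.Prime] (N : Type) [Group N] [Finite N] (Q : Sylow p N)
  (_ : IsCyclic Q) (a : MulAut N) (_ : a ∈ Ast (Q : Subgroup N)) (_ : ¬ p ∣ orderOf a),
  ∃ β : X p N ≃ X p (NN Q), (∀ χ : X p N, cl p (ndeg χ.1) = cl p (ndeg (β χ).1)) ∧
    (∀ (χ : X p N) (z : NN Q), (z : N) ∈ Subgroup.center N →
      (β χ).1 z * χ.1 1 = χ.1 z * (β χ).1 1) ∧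
    ∀ χ χ' : X p N, (∀ n, χ'.1 n = χ.1 (a n)) → ∀ m m' : NN Q, (m' : N) = a m →
      (β χ').1 m = (β χ).1 m'

/-- **Piece EXT**: an equivariant bijection gives a link if `Ast Q` is generated by `N_N(Q)` and one element -/
def EXT : Prop := ∀ (p : ℕ) [Fact p.Prime] (N : Type) [Group N] [Finite N] (Q : Sylow p N)
  (a : MulAut N) (_ : a ∈ Ast (Q : Subgroup N))
  (_ : ∀ b ∈ Ast (Q : Subgroup N), ∃ (m : NN Q) (k : ℕ), b = MulAut.conj (m : N) * a ^ k)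
  (β : X p N ≃ X p (NN Q)) (_ : ∀ χ : X p N, cl p (ndeg χ.1) = cl p (ndeg (β χ).1))
  (_ : ∀ (χ : X p N) (z : NN Q), (z : N) ∈ Subgroup.center N →
    (β χ).1 z * χ.1 1 = χ.1 z * (β χ).1 1)
  (_ : ∀ χ χ' : X p N, (∀ n, χ'.1 n = χ.1 (a n)) → ∀ m m' : NN Q, (m' : N) = a m →
    (β χ').1 m = (β χ).1 m'), Lnk p Q

/-- **Piece OUT**: the outer automorphisms of a perfect group and of its central quotient -/
def OUT : Prop := ∀ (p : ℕ) [Fact p.Prime] (N : Type) [Group N] [Finite N] (S : Type) [Group S]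
  [Finite S] (_ : commutator N = ⊤) (_ : Nonempty ((N ⧸ Subgroup.center N) ≃* S)) (b : MulAut S)
  (d : ℕ) (_ : ¬ p ∣ d) (_ : ∃ s : S, b ^ d = MulAut.conj s)
  (_ : ∀ c : MulAut S, ∃ (s : S) (k : ℕ), c = MulAut.conj s * b ^ k) (Q : Sylow p N),
  ∃ a ∈ Ast (Q : Subgroup N), ¬ p ∣ orderOf a ∧
    ∀ c ∈ Ast (Q : Subgroup N), ∃ (m : NN Q) (k : ℕ), c = MulAut.conj (m : N) * a ^ k

end Pool.Agent.ZH17.RD
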