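import Pool.Agent.ZH17.RD.Link
import Pool.Agent.ZH17.RD.Stm

/-!
# Statements of the pieces, third part (project RD, helper17): socles `S ^ k`, `p ∤ |S|`, with outer
automorphisms of order `p`; the reduction to almost quasi-simple groups
-/

set_option autoImplicit false
set_option linter.unusedSectionVars false
set_option linter.style.haveILetI false

open scoped BigOperators Classical

noncomputable section

namespace Pool.Agent.ZH17.RD

open Pool.Agent.Helper884 Pool.Agent.K3h3.KB Pool.Agent.K3h3.MK Pool.Agent.K3h83.IN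
open Pool.Agent.H254R3.IN (IsIrr mem_Irr)
open IC (Irr)

/-- the automorphisms which commute with `d` and are trivial on the center -/
def Cd {N : Type} [Group N] (d : MulAut N) : Subgroup (MulAut N) where
  carrier := {a | a * d = d * a ∧ ∀ z ∈ Subgroup.center N, a z = z}
  one_mem' := ⟨by rw [one_mul, mul_one], fun _ _ => rfl⟩
  mul_mem' := by
    rintro a b ⟨h1, h2⟩ ⟨h3, h4⟩
    refine ⟨by rw [mul_assoc, h3, ← mul_assoc, h1, mul_assoc], fun z hz => ?_⟩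
    rw [MulAut.mul_apply, h4 z hz, h2 z hz]
  inv_mem' := by
    rintro a ⟨h1, h2⟩
    refine ⟨?_, fun z hz => ?_⟩
    · rw [inv_mul_eq_iff_eq_mul, ← mul_assoc, eq_mul_inv_iff_mul_eq, h1]
    · nth_rewrite 1 [← h2 z hz]
      exact MulAut.inv_apply_self N a z

/-- the fixed points of `d` -/
def Md {N : Type} [Group N] (d : MulAut N) : Subgroup N where
  carrier := {n | d n = n}
  one_mem' := map_one d
  mul_mem' := by
    intro a b (h1 : d a = a) (h2 : d b = b)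
    change d (a * b) = a * b
    rw [map_mul, h1, h2]
  inv_mem' := by
    intro a (h1 : d a = a)
    change d a⁻¹ = a⁻¹
    rw [map_inv, h1]

theorem mem_Md {N : Type} [Group N] {d : MulAut N} {n : N} : n ∈ Md d ↔ d n = n := Iff.rfl

/-- **Piece GLA**: the Glauberman correspondence for an automorphism `d` of order `p` of a group `N` of order
prime to `p`, and the extension of the bimodule `⨁ χ ⊗ β(χ)^*` of `N` and `C_N(d)` to `N ⋊ C_{Aut(N)}(d)`.

Proof. `M = C_N(d)`, `θ` a `d`-invariant irreducible character with representation `W`, `d̂` on `W` with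
`d̂ n d̂⁻¹ = d(n)`, `d̂ ^ p = 1` (extension of `θ` to `N ⋊ C_p`), `f_j(m) = tr(m d̂ ^ j)`. (1) Every element of
the coset `N d ^ j` of `N ⋊ C_p` (`p ∤ j`) is conjugate under `N` to `m d ^ j` with `m ∈ M` (Sylow: its `p`-part is
conjugate to `d ^ j`), and `x (m d^j) x⁻¹ = y (m' d^j) y⁻¹` only if `x⁻¹ y ∈ M`. As the sum of `|tr|²` over each coset is
`|N|`, `(f_j, f_j)_M = 1`, and `(f, f')_M = 0` for different `θ, θ'`. (2) `f_1 = ∑ a_ψ ψ` with
`a_ψ = ∑_λ λ(d) b_λ ∈ ℤ[ζ_p]` and `f_j = ∑ τ_j(a_ψ) ψ`; so `∑_ψ |τ(a_ψ)|² = 1` for all `τ`, hence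
(norms of nonzero elements are ≥ 1, AM-GM) exactly one `a_ψ ≠ 0` and all its conjugates have absolute value 1:
`a_ψ = ± ζ ^ k`; replace `d̂` by `ζ ^ {-k} d̂`: `f_1 = ε ψ`, `β(θ) = ψ`. (3) `β` is injective by (1), surjective by
counting: the `N`-classes of the coset `N d` correspond to the classes of `M` by (1), and the functions
`n d ↦ tr(n d̂)`, `θ` `d`-invariant, are a basis of the `N`-class functions on the coset (or any count of the
invariant characters, e.g. Brauer's permutation lemma). (4) `θ(1) ≡ tr(d̂) = ε ψ(1)` modulo `1 - ζ`.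
(5) `κ(n m⁻¹, conj m) = θ(n) ψ(m⁻¹)` extends to `N ⋊ A_θ`, `A = Cd d`, by piece `GCD` (proved in RD/Gcd.lean) with
`C = C_p`, `c = d`, and the representation of `(N ⋊ A_θ) × C_p` on `W ⊗ W^*`: `(n, a)` acts as
`n â ⊗ (â⁻¹)^*`, `d` as `1 ⊗ d̂^*`, where `â` is any operator with `â n â⁻¹ = a(n)` (it commutes with `d̂`
up to a scalar, which is 1, as otherwise all eigenvalues of `d̂` would have the same multiplicity and `p` would
divide `θ(1)`); the trace at `((n m⁻¹, conj m), d)` is `θ(n) tr(m⁻¹ d̂) = ε θ(n) ψ(m⁻¹)`. (6) `GLU` (RD/Glu.lean). -/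
def GLA : Prop := ∀ (p : ℕ) [Fact p.Prime] (N : Type) [Group N] [Finite N] (_ : ¬ p ∣ Nat.card N)
  (d : MulAut N) (_ : d ^ p = 1),
  ∃ (β : {χ : X p N // ∀ n, χ.1 (d n) = χ.1 n} ≃ X p (Md d))
    (ω : N ⋊[(Cd d).subtype] (Cd d) → ℂ), RC ω ∧
    (∀ χ, cl p (ndeg χ.1.1) = cl p (ndeg (β χ).1)) ∧
    (∀ χ (z : Md d), (z : N) ∈ Subgroup.center N →
      (β χ).1 z * χ.1.1 1 = χ.1.1 z * (β χ).1 1) ∧
    ∀ (n : N) (m : Md d) (b : Cd d), (b : MulAut N) = MulAut.conj (m : N) →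
      ω ⟨n * (m : N)⁻¹, b⟩ = ∑ᶠ χ : {χ : X p N // ∀ n, χ.1 (d n) = χ.1 n}, χ.1.1 n * (β χ).1 m⁻¹

/-- the data of `GRPB` -/
def DataB (p : ℕ) [Fact p.Prime] {G : Type} [Group G] (P : Sylow p G) : Prop :=
  ∃ (N : Type) (_ : Group N) (_ : Finite N) (J O : Type) (_ : Fintype J) (_ : Fintype O) (a : ℕ)
    (F : (J → O → N) →* G) (σ : NN P →* Equiv.Perm J) (τ : NN P → J → MulAut N)
    (π : NN P → J → Equiv.Perm O),
    ¬ p ∣ Nat.card N ∧ Fintype.card O = p ^ a ∧ F.range.Normal ∧ F.range ⊔ NN P = ⊤ ∧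
    (∀ h h' o, τ (h * h') o = τ h (σ h' o) * τ h' o) ∧
    (∀ h h' o, π (h * h') o = π h (σ h' o) * π h' o) ∧
    (∀ (h : NN P) (n : J → O → N), (h : G) * F n * (h : G)⁻¹ =
      F fun o j => τ h ((σ h)⁻¹ o) (n ((σ h)⁻¹ o) ((π h ((σ h)⁻¹ o))⁻¹ j))) ∧
    (∀ x : NN P, (x : G) ∈ P → σ x = 1 ∧ ∀ o, τ x o = 1) ∧
    (∀ (o : J) (j j' : O), ∃ x : NN P, (x : G) ∈ P ∧ π x o j = j') ∧
    (∀ n, F n = 1 → ∀ o j, n o j ∈ Subgroup.center N) ∧
    ∀ (m : J → N) (hm : F (fun o _ => m o) ∈ NN P), σ ⟨_, hm⟩ = 1 ∧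
      (∀ o, τ ⟨_, hm⟩ o = MulAut.conj (m o)) ∧ ∀ o, π ⟨_, hm⟩ o = 1

/-- the data in the case where the stabiliser of a component in `P` acts nontrivially on it -/
def DataA (p : ℕ) [Fact p.Prime] {G : Type} [Group G] (P : Sylow p G) : Prop :=
  ∃ (N : Type) (_ : Group N) (_ : Finite N) (I : Type) (_ : Fintype I) (F : (I → N) →* G)
    (H : Subgroup G) (σ : H →* Equiv.Perm I) (c : H → I → MulAut N) (d : MulAut N),
    ¬ p ∣ Nat.card N ∧ d ^ p = 1 ∧ F.range.Normal ∧ F.range ⊔ H = ⊤ ∧ NN P ≤ H ∧ H ≠ ⊤ ∧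
    (∀ h h' i, c (h * h') i = c h (σ h' i) * c h' i) ∧
    (∀ (h : H) (n : I → N), (h : G) * F n * (h : G)⁻¹ =
      F fun i => c h ((σ h)⁻¹ i) (n ((σ h)⁻¹ i))) ∧
    (∀ h i, c h i ∈ Cd d) ∧ (∀ n : I → N, F n ∈ H ↔ ∀ i, d (n i) = n i) ∧
    (∀ (n : I → N) (hn : F n ∈ H), σ ⟨F n, hn⟩ = 1 ∧ ∀ i, c ⟨F n, hn⟩ i = MulAut.conj (n i)) ∧
    ∀ i, ∃ x : H, (x : G) ∈ P ∧ σ x i = i ∧ c x i = d

/-- for a group `S` of order prime to `p`: the `p`-subgroups of `Out(S)` are cyclic and are centralised by their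
normalisers -/
def OutC (p : ℕ) (S : Type) [Group S] : Prop :=
  ∀ B : Subgroup (MulAut S), IsPGroup p B → IsCyclic B ∧
    ∀ a : MulAut S, (∀ b ∈ B, ∃ b' ∈ B, ∃ s : S, a * b * a⁻¹ = MulAut.conj s * b') →
      ∀ b ∈ B, ∃ s : S, a * b * a⁻¹ = MulAut.conj s * b

/-- **Piece GRPAB** (pure group theory; files Grp3, GrpB are the model). Let `D_i` be the stabiliser of `i` in
`P` and `D̄_i` its image in `Aut(L_i)`; `D̄_i` meets `Inn` trivially, so it embeds in `Out(S)` and is cyclic.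
If `D̄ = 1`: `DataB` as in `GRPB`. If `D̄ ≠ 1`: let `⟨d⟩` be the subgroup of order `p` of `D̄_{i₀}`,
`N = L_{i₀}`, `t_i ∈ NN P` with `t_i L_{i₀} t_i⁻¹ = L_i`. The image `T` of the stabiliser of `i₀` in
`NN P` normalises `D̄`, hence `⟨d⟩`, so by `OutC` it centralises `d` modulo inner automorphisms, and exactly, as
`⟨d⟩ ∩ Inn = 1` (apply `OutC` to the images in `Aut(S)`; `Aut(N) → Aut(S)` is injective, see Out.lean). Put
`L₂ = F((C_N(d)) ^ I)`, `H = L₂ (NN P)`; `L ∩ NN P = C_L(P) ≤ L₂` (an element `F(n)` of `C_L(P)`: for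
`x ∈ D_i` acting as `d`, `d(n_i) = n_i z` with `z` in the kernel, so central, fixed by `d`, and then
`n_i = d^p(n_i) = n_i z ^ p`, `z = 1` as `p ∤ |N|`), so `L ∩ H = L₂`, and
`c(F(m) h, i) = conj(m_{h i}) c(h, i)`. `H ≠ G` as `L ∩ H = L₂ ≠ L`. -/
def GRPAB : Prop := ∀ (p : ℕ) [Fact p.Prime] (G : Type) [Group G] [Finite G] (P : Sylow p G)
  (_ : Red2 P) (S : Type) [Group S] [Finite S] [IsSimpleGroup S] (_ : ∃ a b : S, a * b ≠ b * a)
  (_ : ¬ p ∣ Nat.card S) (_ : OutC p S)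
  (k : ℕ) (_ : 0 < k) (M : Subgroup (G ⧸ Subgroup.center G)) (_ : M.Normal)
  (_ : ∀ L : Subgroup (G ⧸ Subgroup.center G), L.Normal → L ≠ ⊥ → M ≤ L)
  (_ : Nonempty (M ≃* (Fin k → S))), DataB p P ∨ DataA p P

/-- `X` is an extension of a perfect group `N` with `N / Z(N) ≅ S` by a cyclic group of order prime to `p` -/
def AQ (p : ℕ) (S : Type) [Group S] (X : Type) [Group X] : Prop :=
  ∃ N : Subgroup X, N.Normal ∧ commutator N = ⊤ ∧ Nonempty ((N ⧸ Subgroup.center N) ≃* S) ∧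
    ¬ p ∣ N.index ∧ ∃ x : X, Subgroup.zpowers x ⊔ N = ⊤

/-- **Piece EQG**: as `EQ`, but with Q1 for the groups `X` with `AQ p S X` instead of the condition on the Sylow
subgroups (same proof: Q1 is needed for the quotients of `N ⋊ ⟨a ^ s⟩` by subgroups of `Z(N)`, `s ≥ 0`). -/
def EQG : Prop := ∀ (p : ℕ) [Fact p.Prime] (N : Type) [Group N] [Finite N] (Q : Sylow p N)
  (S : Type) [Group S] [Finite S] (_ : Subgroup.center S = ⊥) (_ : commutator N = ⊤)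
  (_ : Nonempty ((N ⧸ Subgroup.center N) ≃* S))
  (_ : ∀ (X : Type) [Group X] [Finite X], AQ p S X → Q1 p X)
  (a : MulAut N) (_ : a ∈ Ast (Q : Subgroup N)) (_ : ¬ p ∣ orderOf a),
  ∃ β : X p N ≃ X p (NN Q), (∀ χ : X p N, cl p (ndeg χ.1) = cl p (ndeg (β χ).1)) ∧
    (∀ (χ : X p N) (z : NN Q), (z : N) ∈ Subgroup.center N →
      (β χ).1 z * χ.1 1 = χ.1 z * (β χ).1 1) ∧
    ∀ χ χ' : X p N, (∀ n, χ'.1 n = χ.1 (a n)) → ∀ m m' : NN Q, (m' : N) = a m →
      (β χ').1 m = (β χ).1 m'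

end Pool.Agent.ZH17.RD
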