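import Pool.Agent.ZH17.RD.EqF
import Pool.Agent.ZH17.RD.Stm3

/-!
# Piece EQG: the equivariant bijection from Q1 for the almost quasi-simple groups
-/

set_option autoImplicit false
set_option linter.unusedSectionVars false
set_option linter.style.haveILetI false

open scoped BigOperators Classical

noncomputable section

namespace Pool.Agent.ZH17.RD

open Pool.Agent.Helper884 Pool.Agent.K3h3.KB Pool.Agent.K3h3.MK Pool.Agent.K3h83.IN
open Pool.Agent.H254R3.IN (IsIrr mem_Irr)
open IC (Irr)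
open SemidirectProduct

/-- the center of a central quotient of a group with centerless central quotient -/
theorem comap_center {N N' S : Type} [Group N] [Group N'] [Group S]
    (hS : Subgroup.center S = ⊥) (e : (N ⧸ Subgroup.center N) ≃* S) (f : N →* N')
    (hf : Function.Surjective f) (hk : f.ker ≤ Subgroup.center N) :
    (Subgroup.center N').comap f = Subgroup.center N := by
  apply le_antisymm
  · intro x hx
    rw [Subgroup.mem_comap, Subgroup.mem_center_iff] at hx
    have h1 : e (QuotientGroup.mk' (Subgroup.center N) x) ∈ Subgroup.center S := by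
      rw [Subgroup.mem_center_iff]
      intro s
      obtain ⟨y', rfl⟩ := e.surjective s
      obtain ⟨y, rfl⟩ := QuotientGroup.mk'_surjective _ y'
      rw [← map_mul, ← map_mul, ← map_mul, ← map_mul]
      congr 1
      have h2 := hx (f y)
      rw [← map_mul, ← map_mul] at h2
      have h3 : (y * x)⁻¹ * (x * y) ∈ f.ker := by
        rw [MonoidHom.mem_ker, map_mul, map_inv, h2, inv_mul_cancel]
      exact QuotientGroup.eq.mpr (hk h3)
    rw [hS, Subgroup.mem_bot, map_eq_one_iff e e.injective] at h1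
    exact (QuotientGroup.eq_one_iff x).mp h1
  · intro x hx
    rw [Subgroup.mem_comap, Subgroup.mem_center_iff]
    intro y'
    obtain ⟨y, rfl⟩ := hf y'
    rw [← map_mul, ← map_mul, Subgroup.mem_center_iff.mp hx y]

theorem quot_center {N N' S : Type} [Group N] [Group N'] [Group S]
    (hS : Subgroup.center S = ⊥) (e : (N ⧸ Subgroup.center N) ≃* S) (f : N →* N')
    (hf : Function.Surjective f) (hk : f.ker ≤ Subgroup.center N) :
    Nonempty ((N' ⧸ Subgroup.center N') ≃* S) := by
  have h1 : Function.Surjective ((QuotientGroup.mk' (Subgroup.center N')).comp f) :=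
    (QuotientGroup.mk'_surjective _).comp hf
  have h2 : ((QuotientGroup.mk' (Subgroup.center N')).comp f).ker = Subgroup.center N := by
    rw [← MonoidHom.comap_ker, QuotientGroup.ker_mk', comap_center hS e f hf hk]
  exact ⟨((QuotientGroup.quotientKerEquivOfSurjective _ h1).symm.trans
    (QuotientGroup.quotientMulEquivOfEq h2)).trans e⟩

theorem perf_map {N N' : Type} [Group N] [Group N'] (hN : commutator N = ⊤) (f : N →* N')
    (hf : Function.Surjective f) : commutator N' = ⊤ := by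
  have h1 := Subgroup.map_commutator (⊤ : Subgroup N) ⊤ f
  rw [Subgroup.map_top_of_surjective f hf] at h1
  rw [commutator_def, ← h1, ← commutator_def, hN, Subgroup.map_top_of_surjective f hf]

section

variable {p : ℕ} [hp : Fact p.Prime] {N : Type} [Group N] [Finite N]

/-- the quotients of `N ⋊ ⟨b⟩` by central subgroups of `N` -/
theorem aq_quot {S : Type} [Group S] (hS : Subgroup.center S = ⊥) (hN : commutator N = ⊤)
    (e : Nonempty ((N ⧸ Subgroup.center N) ≃* S)) (b : MulAut N) (hpb : ¬ p ∣ orderOf b)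
    (K : Subgroup (Gb b)) [K.Normal]
    (hK : K ≤ ((inl : N →* Gb b).comp (Subgroup.center N).subtype).range) :
    AQ p S (Gb b ⧸ K) := by
  obtain ⟨e⟩ := e
  have hs : Function.Surjective (QuotientGroup.mk' K) := QuotientGroup.mk'_surjective K
  let g : N →* (Gb b ⧸ K) := (QuotientGroup.mk' K).comp inl
  have hg : g.range = (inl : N →* Gb b).range.map (QuotientGroup.mk' K) :=
    MonoidHom.range_comp _ _
  have hn : (inl : N →* Gb b).range.Normal := by
    rw [range_inl_eq_ker_rightHom]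
    infer_instance
  have hk : g.rangeRestrict.ker ≤ Subgroup.center N := by
    rw [MonoidHom.ker_rangeRestrict]
    intro x hx
    have h1 : (inl x : Gb b) ∈ K := by
      have h2 : QuotientGroup.mk' K (inl x : Gb b) = 1 := hx
      rwa [← MonoidHom.mem_ker, QuotientGroup.ker_mk'] at h2
    obtain ⟨c, hc⟩ := hK h1
    have h3 : (c : N) = x := inl_injective hc
    rw [← h3]
    exact c.2
  refine ⟨g.range, ?_, perf_map hN g.rangeRestrict g.rangeRestrict_surjective,
    quot_center hS e g.rangeRestrict g.rangeRestrict_surjective hk, ?_,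
    QuotientGroup.mk' K (gb b), ?_⟩
  · rw [hg]
    exact hn.map _ hs
  · intro h
    apply hpb
    rw [← idx_inl b]
    rw [hg] at h
    exact h.trans (Subgroup.index_map_dvd _ hs)
  · rw [eq_top_iff]
    intro y _
    obtain ⟨x, rfl⟩ := hs y
    obtain ⟨k, i, rfl⟩ := gb_gen b x
    rw [map_mul, map_pow]
    exact mul_mem ((le_sup_right : g.range ≤ _) ⟨k, rfl⟩)
      ((le_sup_left : Subgroup.zpowers (QuotientGroup.mk' K (gb b)) ≤ _)
        (pow_mem (Subgroup.mem_zpowers _) i))

variable (Q : Sylow p N) {b : MulAut N} (R : Sylow p (Gb b))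
  (hR : (R : Subgroup (Gb b)) = (Q : Subgroup N).map inl)

include hR in
theorem wo_eq_loc' (hb : b ∈ Ast (Q : Subgroup N))
    (hq : ∀ (K : Subgroup (Gb b)) [K.Normal],
      K ≤ ((inl : N →* Gb b).comp (Subgroup.center N).subtype).range → Q1 p (Gb b ⧸ K))
    (ν : Subgroup.center N →* ℂˣ) :
    wo (cl p) ((inl : N →* Gb b).comp (Subgroup.center N).subtype)
      (fun a => ((ν a : ℂˣ) : ℂ)) =
    wo (cl p) ((jq Q R hR).comp (zq Q)) (fun a => ((ν a : ℂˣ) : ℂ)) := by
  set jz := (inl : N →* Gb b).comp (Subgroup.center N).subtype with hjz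
  have hinj : Function.Injective jz := inl_injective.comp (Subgroup.subtype_injective _)
  have hcen : jz.range ≤ Subgroup.center (Gb b) := cen_inl b hb.2
  let f : Subgroup.center N ≃* jz.range := MonoidHom.ofInjective hinj
  have h1 := central (p := p) a_S5 a_S4 jz.range hcen R (ν.comp f.symm.toMonoidHom)
    fun K _ hK _ => hq K hK
  have h2 : ∀ c, ((f c : jz.range) : Gb b) = jz c := fun c => rfl
  have e1 : wo (cl p) jz (fun a => ((ν a : ℂˣ) : ℂ)) =
      wo (cl p) jz.range.subtype (fun a => (((ν.comp f.symm.toMonoidHom) a : ℂˣ) : ℂ)) := by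
    refine wo_congr (cl p) f (MulEquiv.refl _) _ _ (fun c => rfl) _ _ fun c => ?_
    change ((ν c : ℂˣ) : ℂ) = ((ν (f.symm (f c)) : ℂˣ) : ℂ)
    rw [f.symm_apply_apply]
  have e2 : wo (cl p) ((jq Q R hR).comp (zq Q)) (fun a => ((ν a : ℂˣ) : ℂ)) =
      wo (cl p) (Subgroup.inclusion (le_NN_of_center R hcen))
        (fun a => (((ν.comp f.symm.toMonoidHom) a : ℂˣ) : ℂ)) := by
    refine wo_congr (cl p) f (MulEquiv.refl _) _ _ (fun c => rfl) _ _ fun c => ?_
    change ((ν c : ℂˣ) : ℂ) = ((ν (f.symm (f c)) : ℂˣ) : ℂ)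
    rw [f.symm_apply_apply]
  rw [e1, e2, h1]

/-- the weighted counts for `N` and for the normalizer agree -/
theorem cnt_eq' {b : MulAut N} (hb : b ∈ Ast (Q : Subgroup N))
    (hq : ∀ (K : Subgroup (Gb b)) [K.Normal],
      K ≤ ((inl : N →* Gb b).comp (Subgroup.center N).subtype).range → Q1 p (Gb b ⧸ K))
    (hpb : ¬ p ∣ orderOf b) (ν : Subgroup.center N →* ℂˣ)
    (h1 : ∀ c, b ((Subgroup.center N).subtype c) = (Subgroup.center N).subtype c)
    (h2 : ∀ c, rs Q b hb (zq Q c) = zq Q c) :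
    cnt p (orderOf b) (al (p := p) (Subgroup.center N).subtype ν b h1) (fun χ => kap p χ.1) =
      cnt p (orderOf b) (al (p := p) (zq Q) ν (rs Q b hb) h2) fun χ => kap p χ.1 := by
  obtain ⟨R, hR⟩ := exists_Qb Q b hpb
  haveI := Fintype.ofFinite N
  haveI := Fintype.ofFinite (NN Q)
  have e1 := cc (p := p) (Subgroup.center N).subtype (inl : N →* Gb b) inl_injective
    (by rw [range_inl_eq_ker_rightHom]; infer_instance) (gb b) b (gb_conj b) (gb_gen b)
    (cen_inl b hb.2) ν h1
  have e2 := cc (p := p) (zq Q) (jq Q R hR) (jq_inj Q R hR) (jq_normal Q R hR)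
    ⟨gb b, gb_mem Q hb R hR⟩ (rs Q b hb) (jq_conj Q hb R hR) (jq_gen Q hb R hR)
    (cen_jq Q hb R hR) ν h2
  rw [idx_inl] at e1
  rw [idx_jq Q hb R hR] at e2
  rw [← e1, ← e2, wo_eq_loc' Q R hR hb hq ν]

end

/-- the bijection from Q1 for the quotients of the groups `N ⋊ ⟨a ^ s⟩` -/
theorem eq_of_q1 (p : ℕ) [Fact p.Prime] (N : Type) [Group N] [Finite N] (Q : Sylow p N)
    (a : MulAut N) (ha : a ∈ Ast (Q : Subgroup N)) (hpa : ¬ p ∣ orderOf a)
    (hq : ∀ (s : ℕ) (K : Subgroup (Gb (a ^ s))) [K.Normal],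
      K ≤ ((inl : N →* Gb (a ^ s)).comp (Subgroup.center N).subtype).range →
        Q1 p (Gb (a ^ s) ⧸ K)) :
    ∃ β : X p N ≃ X p (NN Q), (∀ χ : X p N, cl p (ndeg χ.1) = cl p (ndeg (β χ).1)) ∧
      (∀ (χ : X p N) (z : NN Q), (z : N) ∈ Subgroup.center N →
        (β χ).1 z * χ.1 1 = χ.1 z * (β χ).1 1) ∧
      ∀ χ χ' : X p N, (∀ n, χ'.1 n = χ.1 (a n)) → ∀ m m' : NN Q, (m' : N) = a m →
        (β χ').1 m = (β χ).1 m' := by
  have hz : (Subgroup.center N).subtype.range ≤ Subgroup.center N := by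
    rw [Subgroup.range_subtype]
  have hz' : (zq Q).range ≤ Subgroup.center (NN Q) := by
    rintro _ ⟨c, rfl⟩
    rw [Subgroup.mem_center_iff]
    intro x
    exact Subtype.ext (Subgroup.mem_center_iff.mp c.2 (x : N))
  have h1 : ∀ (b : MulAut N), b ∈ Ast (Q : Subgroup N) →
      ∀ c, b ((Subgroup.center N).subtype c) = (Subgroup.center N).subtype c :=
    fun b hb c => hb.2 c c.2
  have h2 : ∀ (b : MulAut N) (hb : b ∈ Ast (Q : Subgroup N)),
      ∀ c, rs Q b hb (zq Q c) = zq Q c := fun b hb c => Subtype.ext (hb.2 c c.2)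
  have key : ∀ ν : Subgroup.center N →* ℂˣ,
      ∃ e : Xn p (Subgroup.center N).subtype ν ≃ Xn p (zq Q) ν,
        (∀ x, kap p (e x).1 = kap p x.1) ∧
        ∀ x, e (al (Subgroup.center N).subtype ν a (h1 a ha) x) =
          al (zq Q) ν (rs Q a ha) (h2 a ha) (e x) := by
    intro ν
    have ho : 0 < orderOf a := orderOf_pos a
    refine eqc p (orderOf a) ho hpa (Xn p (Subgroup.center N).subtype ν) (Xn p (zq Q) ν)
      (al (Subgroup.center N).subtype ν a (h1 a ha)) (al (zq Q) ν (rs Q a ha) (h2 a ha))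
      ?_ ?_ (fun x => kap p x.1) (fun x => kap p x.1) (fun x => kap_alX _ _)
      (fun x => kap_alX _ _) ?_
    · rw [← al_pow _ ν a (h1 a ha) (orderOf a) (h1 _ (pow_mem ha _))]
      ext x
      apply Subtype.ext
      apply Subtype.ext
      funext k
      change x.1.1 ((a ^ orderOf a) k) = x.1.1 k
      rw [pow_orderOf_eq_one]
      rfl
    · rw [← al_pow _ ν (rs Q a ha) (h2 a ha) (orderOf a) (by
        rw [← rs_pow]
        exact h2 _ (pow_mem ha _))]
      ext x
      apply Subtype.ext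
      apply Subtype.ext
      funext k
      change x.1.1 ((rs Q a ha ^ orderOf a) k) = x.1.1 k
      rw [← rs_pow]
      have h7 : rs Q (a ^ orderOf a) (pow_mem ha _) k = k := by
        apply Subtype.ext
        rw [rs_coe, pow_orderOf_eq_one]
        rfl
      rw [h7]
    · intro s hs
      have h3 : orderOf (a ^ s) = orderOf a / s := by
        rw [orderOf_pow_of_dvd (Nat.pos_of_dvd_of_pos hs ho).ne' hs]
      have h4 : ¬ p ∣ orderOf (a ^ s) := fun h => hpa (h.trans (orderOf_pow_dvd s))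
      have h5 := cnt_eq' Q (pow_mem ha s) (hq s) h4 ν (h1 _ (pow_mem ha s))
        (h2 _ (pow_mem ha s))
      rw [h3, al_pow _ ν a (h1 a ha) s] at h5
      rw [h5]
      congr 1
      have h6 : ∀ (b c : MulAut (NN Q)) (hbc : b = c) (hb : ∀ c, b (zq Q c) = zq Q c)
          (hc : ∀ d, c (zq Q d) = zq Q d), al (p := p) (zq Q) ν b hb = al (zq Q) ν c hc := by
        rintro b c rfl _ _
        rfl
      rw [← al_pow _ ν (rs Q a ha) (h2 a ha) s (by
        rw [← rs_pow]
        exact h2 _ (pow_mem ha _))]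
      exact h6 _ _ (rs_pow Q a ha s) _ _
  choose e he1 he2 using key
  let β : X p N ≃ X p (NN Q) := (eX (Subgroup.center N).subtype hz).trans
    ((Equiv.sigmaCongrRight e).trans (eX (zq Q) hz').symm)
  have hβ : ∀ (ν : Subgroup.center N →* ℂˣ) (x : Xn p (Subgroup.center N).subtype ν),
      β x.1 = (e ν x).1 := by
    intro ν x
    change (eX (zq Q) hz').symm (Equiv.sigmaCongrRight e (eX (Subgroup.center N).subtype hz x.1)) = _
    rw [eX_symm]
    rfl
  have hβ' : ∀ χ, β χ = (e (om _ hz χ) ⟨χ, om_spec _ hz χ⟩).1 := fun χ =>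
    hβ _ (⟨χ, om_spec _ hz χ⟩ : Xn p (Subgroup.center N).subtype (om _ hz χ))
  refine ⟨β, fun χ => ?_, fun χ z hzz => ?_, fun χ χ' hχ m m' hm => ?_⟩
  · have h3 : kap p (β χ) = kap p χ := by
      rw [hβ' χ]
      exact he1 _ _
    rw [cl_apply p χ.2.2, cl_apply p (β χ).2.2]
    exact congrArg (fun u => MonoidAlgebra.single u (1 : ℤ)) h3.symm
  · have h3 : (β χ).1 (zq Q ⟨z, hzz⟩) = ((om _ hz χ ⟨z, hzz⟩ : ℂˣ) : ℂ) * (β χ).1 1 := by
      rw [hβ' χ]
      exact (e _ ⟨χ, om_spec _ hz χ⟩).2 ⟨z, hzz⟩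
    have h4 := om_spec _ hz χ ⟨z, hzz⟩
    have h5 : zq Q ⟨z, hzz⟩ = z := rfl
    have h6 : (Subgroup.center N).subtype ⟨z, hzz⟩ = (z : N) := rfl
    rw [h5] at h3
    rw [h6] at h4
    rw [h3, h4]
    ring
  · have h3 := he2 _ ⟨χ, om_spec _ hz χ⟩
    have h4 : χ' = (al (Subgroup.center N).subtype (om _ hz χ) a (h1 a ha)
        ⟨χ, om_spec _ hz χ⟩).1 := by
      apply Subtype.ext
      funext n
      exact hχ n
    rw [h4, hβ, h3, hβ' χ]
    change (e _ ⟨χ, om_spec _ hz χ⟩).1.1 (rs Q a ha m) = _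
    have h5 : rs Q a ha m = m' := Subtype.ext hm.symm
    rw [h5]

/-- **Piece EQG** -/
theorem eqg : EQG := by
  intro p _ N _ _ Q S _ _ hS hN e hX a ha hpa
  refine eq_of_q1 p N Q a ha hpa fun s K _ hK => ?_
  exact hX _ (aq_quot hS hN e (a ^ s) (fun h => hpa (h.trans (orderOf_pow_dvd s))) K hK)

end Pool.Agent.ZH17.RD
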