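import Pool.Agent.ZH17.RD.Eqr3

/-!
# Piece EQ from its combinatorial part EQC
-/

set_option autoImplicit false
set_option linter.unusedSectionVars false
set_option linter.style.haveILetI false

open scoped BigOperators Classical

noncomputable section

namespace Pool.Agent.ZH17.RD

open Pool.Agent.Helper884 Pool.Agent.K3h3.KB Pool.Agent.K3h3.MK Pool.Agent.K3h83.IN
open Pool.Agent.H254R3.IN (IsIrr mem_Irr)
open IC (Irr)

section

variable {p : ℕ} [hp : Fact p.Prime]

/-- the central character -/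
theorem exists_om {A K : Type} [Group A] [Finite A] [Group K] [Finite K] (z : A →* K)
    (hz : z.range ≤ Subgroup.center K) (χ : X p K) :
    ∃ ν : A →* ℂˣ, ∀ c, χ.1 (z c) = ((ν c : ℂˣ) : ℂ) * χ.1 1 := by
  haveI := Fintype.ofFinite K
  obtain ⟨μ, hμ⟩ := Pool.Agent.K3h18.IN.central z hz χ.2.1
  refine ⟨μ, fun c => ?_⟩
  have := hμ c 1
  rwa [mul_one] at this

/-- the central character -/
def om {A K : Type} [Group A] [Finite A] [Group K] [Finite K] (z : A →* K)
    (hz : z.range ≤ Subgroup.center K) (χ : X p K) : A →* ℂˣ := (exists_om z hz χ).choose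

theorem om_spec {A K : Type} [Group A] [Finite A] [Group K] [Finite K] (z : A →* K)
    (hz : z.range ≤ Subgroup.center K) (χ : X p K) (c : A) :
    χ.1 (z c) = ((om z hz χ c : ℂˣ) : ℂ) * χ.1 1 := (exists_om z hz χ).choose_spec c

theorem om_uniq {A K : Type} [Group A] [Finite A] [Group K] [Finite K] (z : A →* K)
    (hz : z.range ≤ Subgroup.center K) {χ : X p K} {ν : A →* ℂˣ}
    (h : ∀ c, χ.1 (z c) = ((ν c : ℂˣ) : ℂ) * χ.1 1) : om z hz χ = ν := by
  have h0 : χ.1 1 ≠ 0 := by
    rw [← ndeg_cast χ.2.1]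
    exact_mod_cast (ndeg_pos χ.2.1).ne'
  ext c
  exact mul_right_cancel₀ h0 ((om_spec z hz χ c).symm.trans (h c))

/-- the characters of degree prime to `p` sorted by the central character -/
def eX {A K : Type} [Group A] [Finite A] [Group K] [Finite K] (z : A →* K)
    (hz : z.range ≤ Subgroup.center K) : X p K ≃ Σ ν : A →* ℂˣ, Xn p z ν where
  toFun χ := ⟨om z hz χ, χ, om_spec z hz χ⟩
  invFun x := x.2.1
  left_inv _ := rfl
  right_inv := by
    rintro ⟨ν, χ, h⟩
    have h1 := om_uniq z hz h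
    subst h1
    rfl

theorem eX_symm {A K : Type} [Group A] [Finite A] [Group K] [Finite K] (z : A →* K)
    (hz : z.range ≤ Subgroup.center K) (ν : A →* ℂˣ) (x : Xn p z ν) :
    eX z hz x.1 = ⟨ν, x⟩ := (eX z hz).right_inv ⟨ν, x⟩

end

theorem eq_of_eqc (hC : EQC) : EQ := by
  intro p _ N _ _ Q hQ a ha hpa
  have hz : (Subgroup.center N).subtype.range ≤ Subgroup.center N := by
    rw [Subgroup.range_subtype]
  have hz' : (zq Q).range ≤ Subgroup.center (NN Q) := by
    rintro _ ⟨c, rfl⟩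
    rw [Subgroup.mem_center_iff]
    intro x
    exact Subtype.ext (Subgroup.mem_center_iff.mp c.2 (x : N))
  have h1 : ∀ (b : MulAut N), b ∈ Ast (Q : Subgroup N) →
      ∀ c, b ((Subgroup.center N).subtype c) = (Subgroup.center N).subtype c :=
    fun b hb c => hb.2 c c.2
  have h2 : ∀ (b : MulAut N) (hb : b ∈ Ast (Q : Subgroup N)),
      ∀ c, rs Q b hb (zq Q c) = zq Q c := fun b hb c => Subtype.ext (hb.2 c c.2)
  have key : ∀ ν : Subgroup.center N →* ℂˣ,
      ∃ e : Xn p (Subgroup.center N).subtype ν ≃ Xn p (zq Q) ν,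
        (∀ x, kap p (e x).1 = kap p x.1) ∧
        ∀ x, e (al (Subgroup.center N).subtype ν a (h1 a ha) x) =
          al (zq Q) ν (rs Q a ha) (h2 a ha) (e x) := by
    intro ν
    have ho : 0 < orderOf a := orderOf_pos a
    refine hC p (orderOf a) ho hpa (Xn p (Subgroup.center N).subtype ν) (Xn p (zq Q) ν)
      (al (Subgroup.center N).subtype ν a (h1 a ha)) (al (zq Q) ν (rs Q a ha) (h2 a ha))
      ?_ ?_ (fun x => kap p x.1) (fun x => kap p x.1) (fun x => kap_alX _ _)
      (fun x => kap_alX _ _) ?_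
    · rw [← al_pow _ ν a (h1 a ha) (orderOf a) (h1 _ (pow_mem ha _))]
      ext x
      apply Subtype.ext
      apply Subtype.ext
      funext k
      change x.1.1 ((a ^ orderOf a) k) = x.1.1 k
      rw [pow_orderOf_eq_one]
      rfl
    · rw [← al_pow _ ν (rs Q a ha) (h2 a ha) (orderOf a) (by
        rw [← rs_pow]
        exact h2 _ (pow_mem ha _))]
      ext x
      apply Subtype.ext
      apply Subtype.ext
      funext k
      change x.1.1 ((rs Q a ha ^ orderOf a) k) = x.1.1 k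
      rw [← rs_pow]
      have h7 : rs Q (a ^ orderOf a) (pow_mem ha _) k = k := by
        apply Subtype.ext
        rw [rs_coe, pow_orderOf_eq_one]
        rfl
      rw [h7]
    · intro s hs
      have h3 : orderOf (a ^ s) = orderOf a / s := by
        rw [orderOf_pow_of_dvd (Nat.pos_of_dvd_of_pos hs ho).ne' hs]
      have h4 : ¬ p ∣ orderOf (a ^ s) := fun h => hpa (h.trans (orderOf_pow_dvd s))
      have h5 := cnt_eq Q hQ (pow_mem ha s) h4 ν (h1 _ (pow_mem ha s)) (h2 _ (pow_mem ha s))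
      rw [h3, al_pow _ ν a (h1 a ha) s] at h5
      rw [h5]
      congr 1
      have h6 : ∀ (b c : MulAut (NN Q)) (hbc : b = c) (hb : ∀ c, b (zq Q c) = zq Q c)
          (hc : ∀ d, c (zq Q d) = zq Q d), al (p := p) (zq Q) ν b hb = al (zq Q) ν c hc := by
        rintro b c rfl _ _
        rfl
      rw [← al_pow _ ν (rs Q a ha) (h2 a ha) s (by
        rw [← rs_pow]
        exact h2 _ (pow_mem ha _))]
      exact h6 _ _ (rs_pow Q a ha s) _ _
  choose e he1 he2 using key
  let β : X p N ≃ X p (NN Q) := (eX (Subgroup.center N).subtype hz).trans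
    ((Equiv.sigmaCongrRight e).trans (eX (zq Q) hz').symm)
  have hβ : ∀ (ν : Subgroup.center N →* ℂˣ) (x : Xn p (Subgroup.center N).subtype ν),
      β x.1 = (e ν x).1 := by
    intro ν x
    change (eX (zq Q) hz').symm (Equiv.sigmaCongrRight e (eX (Subgroup.center N).subtype hz x.1)) = _
    rw [eX_symm]
    rfl
  have hβ' : ∀ χ, β χ = (e (om _ hz χ) ⟨χ, om_spec _ hz χ⟩).1 := fun χ =>
    hβ _ (⟨χ, om_spec _ hz χ⟩ : Xn p (Subgroup.center N).subtype (om _ hz χ))
  refine ⟨β, fun χ => ?_, fun χ z hzz => ?_, fun χ χ' hχ m m' hm => ?_⟩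
  · have h3 : kap p (β χ) = kap p χ := by
      rw [hβ' χ]
      exact he1 _ _
    rw [cl_apply p χ.2.2, cl_apply p (β χ).2.2]
    exact congrArg (fun u => MonoidAlgebra.single u (1 : ℤ)) h3.symm
  · have h3 : (β χ).1 (zq Q ⟨z, hzz⟩) = ((om _ hz χ ⟨z, hzz⟩ : ℂˣ) : ℂ) * (β χ).1 1 := by
      rw [hβ' χ]
      exact (e _ ⟨χ, om_spec _ hz χ⟩).2 ⟨z, hzz⟩
    have h4 := om_spec _ hz χ ⟨z, hzz⟩
    have h5 : zq Q ⟨z, hzz⟩ = z := rfl
    have h6 : (Subgroup.center N).subtype ⟨z, hzz⟩ = (z : N) := rfl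
    rw [h5] at h3
    rw [h6] at h4
    rw [h3, h4]
    ring
  · have h3 := he2 _ ⟨χ, om_spec _ hz χ⟩
    have h4 : χ' = (al (Subgroup.center N).subtype (om _ hz χ) a (h1 a ha)
        ⟨χ, om_spec _ hz χ⟩).1 := by
      apply Subtype.ext
      funext n
      exact hχ n
    rw [h4, hβ, h3, hβ' χ]
    change (e _ ⟨χ, om_spec _ hz χ⟩).1.1 (rs Q a ha m) = _
    have h5 : rs Q a ha m = m' := Subtype.ext hm.symm
    rw [h5]

end Pool.Agent.ZH17.RD
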