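import Pool.Agent.ZH17.RD.EqStm

/-!
# Piece EQ: characters over an invariant character with cyclic quotient
-/

set_option autoImplicit false
set_option linter.unusedSectionVars false
set_option linter.style.haveILetI false

open scoped BigOperators Classical

noncomputable section

namespace Pool.Agent.ZH17.RD

open Pool.Agent.Helper884 Pool.Agent.K3h3.KB Pool.Agent.K3h3.MK Pool.Agent.K3h83.IN
open Pool.Agent.H254R3.IN (IsIrr mem_Irr)
open IC (Irr)

theorem wo_abel {R : Type} [CommRing R] (w : ℕ →* R) {S : Type} [CommGroup S] [Finite S]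
    (Z : Subgroup S) (lam : Z →* ℂˣ) :
    wo w Z.subtype (fun a => ((lam a : ℂˣ) : ℂ)) = (Z.index : R) := by
  haveI := Fintype.ofFinite S
  haveI := Fintype.ofFinite Z
  rw [wo_eq]
  have h1 : ∀ l : S →* ℂˣ, ov Z.subtype (fun a => ((lam a : ℂˣ) : ℂ)) (fun g => ((l g : ℂˣ) : ℂ)) ↔
      MonoidHom.domRestrictHom Z ℂˣ l = lam := by
    intro l
    rw [ov_iff]
    have h2 := IC.B_irr (lin_irr (l.comp Z.subtype)) (lin_irr lam)
    have h3 : (fun z : Z => (((l.comp Z.subtype) z : ℂˣ) : ℂ)) =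
        fun z : Z => (fun g => ((l g : ℂˣ) : ℂ)) (Z.subtype z) := rfl
    rw [← h3, h2]
    constructor
    · intro h
      by_contra hne
      apply h
      rw [if_neg]
      intro he
      apply hne
      ext z
      exact congrFun he z
    · rintro rfl
      rw [if_pos]
      · exact one_ne_zero
      · rfl
  have h2 : ∑ χ ∈ (Irr S).filter (ov Z.subtype (fun a => ((lam a : ℂˣ) : ℂ))), w (ndeg χ) =
      ∑ l ∈ (Finset.univ : Finset (S →* ℂˣ)).filter
        (fun l => MonoidHom.domRestrictHom Z ℂˣ l = lam), (1 : R) := by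
    symm
    refine Finset.sum_bij (fun l _ => fun g => ((l g : ℂˣ) : ℂ)) ?_ ?_ ?_ ?_
    · intro l hl
      rw [Finset.mem_filter] at hl ⊢
      exact ⟨mem_Irr.mpr (lin_irr l), (h1 l).mpr hl.2⟩
    · intro l _ l' _ h
      ext g
      exact congrFun h g
    · intro χ hχ
      rw [Finset.mem_filter] at hχ
      obtain ⟨l, rfl⟩ := lin_of_comm (mem_Irr.mp hχ.1)
      exact ⟨l, Finset.mem_filter.mpr ⟨Finset.mem_univ _, (h1 l).mp hχ.2⟩, rfl⟩
    · intro l _
      rw [ndeg_comm (lin_irr l), map_one]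
  rw [h2, Finset.sum_const, nsmul_eq_mul, mul_one]
  congr 1
  obtain ⟨l₀, hl₀⟩ := MonoidHom.domRestrict_surjective ℂ Z lam
  rw [Subgroup.index, ← CommGroup.card_domRestrictHom_ker (M := ℂ) Z, ← Fintype.card_subtype,
    ← Nat.card_eq_fintype_card]
  refine Nat.card_congr ⟨fun l => ⟨l.1 * l₀⁻¹, ?_⟩, fun l => ⟨l.1 * l₀, ?_⟩, ?_, ?_⟩
  · rw [MonoidHom.mem_ker, map_mul, map_inv, l.2, hl₀, mul_inv_cancel]
  · rw [map_mul, hl₀, (MonoidHom.mem_ker).mp l.2, one_mul]
  · intro l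
    apply Subtype.ext
    simp
  · intro l
    apply Subtype.ext
    simp

theorem wo_cyc {R : Type} [CommRing R] (w : ℕ →* R) {K T : Type} [Group K] [Finite K] [Group T]
    [Finite T] (j : K →* T) (hj : Function.Injective j) (hn : j.range.Normal) {θ : K → ℂ}
    (hθ : IsIrr θ) (hfix : ∀ x, fixes j θ x) {C : Type} [Group C] [IsCyclic C] (f : T →* C)
    (hf : f.ker = j.range) :
    wo w j θ = w (ndeg θ) * (j.range.index : R) := by
  haveI := hn
  have hcyc : IsCyclic (T ⧸ j.range) :=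
    isCyclic_of_injective ((QuotientGroup.kerLift f).comp
      (QuotientGroup.quotientMulEquivOfEq hf.symm).toMonoidHom)
      ((QuotientGroup.kerLift_injective f).comp (MulEquiv.injective _))
  have hrs : Function.Surjective (QuotientGroup.mk' j.range) := QuotientGroup.mk'_surjective _
  obtain ⟨S, _, _, q, lam, hq, hqc, hqy, key⟩ := a_S3 K T (T ⧸ j.range) j hj θ hθ hfix
    (QuotientGroup.mk' j.range) hrs (QuotientGroup.ker_mk' _)
  have k2 := key R w ⊤ (cod j ⊤ le_top) fun _ => rfl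
  have t1 : wo w j θ = wo w (cod j ⊤ le_top) θ :=
    wo_congr w (MulEquiv.refl K) Subgroup.topEquiv.symm j _ (fun l => rfl) θ θ fun _ => rfl
  have htop : ((⊤ : Subgroup T).map (QuotientGroup.mk' j.range)).comap q = ⊤ := by
    rw [Subgroup.map_top_of_surjective _ hrs, Subgroup.comap_top]
  rw [t1, k2, wo_incl_top w htop]
  have hqs : IsCyclic (S ⧸ q.ker) :=
    (QuotientGroup.quotientKerEquivOfSurjective q hq).isCyclic.mpr hcyc
  have hab : ∀ a b : S, a * b = b * a := by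
    have := MonoidHom.isMulCommutative_of_isCyclic_of_ker_le_center (QuotientGroup.mk' q.ker)
      (by rw [QuotientGroup.ker_mk']; exact hqc)
    exact this.is_comm.comm
  letI : CommGroup S := { (inferInstance : Group S) with mul_comm := hab }
  have h5 := wo_abel w q.ker lam
  have hidx : q.ker.index = j.range.index :=
    Nat.card_congr (QuotientGroup.quotientKerEquivOfSurjective q hq).toEquiv
  rw [← hidx, ← h5]

/-- the characters over a linear character of a central subgroup -/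
theorem ov_cen {A G : Type} [Group A] [Finite A] [Group G] [Finite G] (j : A →* G)
    (hj : j.range ≤ Subgroup.center G) {χ : G → ℂ} (h : IsIrr χ) (ν : A →* ℂˣ) :
    ov j (fun a => ((ν a : ℂˣ) : ℂ)) χ ↔ ∀ a, χ (j a) = ((ν a : ℂˣ) : ℂ) * χ 1 := by
  haveI := Fintype.ofFinite A
  haveI := Fintype.ofFinite G
  obtain ⟨μ, hμ⟩ := Pool.Agent.K3h18.IN.central j hj h
  have h0 : χ 1 ≠ 0 := by
    rw [← ndeg_cast h]
    exact_mod_cast (ndeg_pos h).ne'
  have h1 : ∀ a, χ (j a) = ((μ a : ℂˣ) : ℂ) * χ 1 := fun a => by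
    rw [← hμ, mul_one]
  have h2 : (fun a => χ (j a)) = χ 1 • fun a => ((μ a : ℂˣ) : ℂ) := by
    funext a
    rw [h1, Pi.smul_apply, smul_eq_mul, mul_comm]
  rw [ov_iff, h2, IC.B_smul_left, IC.B_irr (lin_irr μ) (lin_irr ν)]
  constructor
  · intro h3 a
    rw [h1]
    by_cases he : (fun a => ((μ a : ℂˣ) : ℂ)) = fun a => ((ν a : ℂˣ) : ℂ)
    · rw [congrFun he a]
    · rw [if_neg he] at h3
      exact absurd (mul_zero _) h3
  · intro h3
    have he : (fun a => ((μ a : ℂˣ) : ℂ)) = fun a => ((ν a : ℂˣ) : ℂ) := by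
      funext a
      exact mul_right_cancel₀ h0 ((h1 a).symm.trans (h3 a))
    rw [if_pos he, mul_one]
    exact h0

/-- a constituent of the restriction has the same central character -/
theorem under_cen {A K Γ : Type} [Group A] [Group K] [Finite K] [Group Γ] [Finite Γ]
    (z : A →* K) (j : K →* Γ) (hz : z.range ≤ Subgroup.center K)
    (hjz : (j.comp z).range ≤ Subgroup.center Γ) {θ : K → ℂ}
    {χ : Γ → ℂ} (hθ : IsIrr θ) (hχ : IsIrr χ) (h : ov j θ χ) (a : A) :
    θ (z a) * χ 1 = χ (j (z a)) * θ 1 := by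
  haveI := Fintype.ofFinite K
  haveI := Fintype.ofFinite Γ
  obtain ⟨μ, hμ⟩ := Pool.Agent.K3h18.IN.central z hz hθ
  obtain ⟨κ, hκ⟩ := Pool.Agent.K3h18.IN.central (j.comp z) hjz hχ
  rw [ov_iff] at h
  have h1 : IC.B (fun l => χ (j l)) θ = (((κ a : ℂˣ) : ℂ) * ((μ a⁻¹ : ℂˣ) : ℂ)) *
      IC.B (fun l => χ (j l)) θ := by
    have h2 : ∑ x, χ (j x) * θ x⁻¹ = ∑ x, χ (j (z a * x)) * θ (z a * x)⁻¹ :=
      (Fintype.sum_equiv (Equiv.mulLeft (z a)) _ _ fun x => rfl).symm
    have h3 : ∑ x, χ (j (z a * x)) * θ (z a * x)⁻¹ =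
        (((κ a : ℂˣ) : ℂ) * ((μ a⁻¹ : ℂˣ) : ℂ)) * ∑ x, χ (j x) * θ x⁻¹ := by
      rw [Finset.mul_sum]
      refine Finset.sum_congr rfl fun x _ => ?_
      have h4 : (z a * x)⁻¹ = z a⁻¹ * x⁻¹ := by
        rw [mul_inv_rev, map_inv]
        exact Subgroup.mem_center_iff.mp (inv_mem (hz ⟨a, rfl⟩)) x⁻¹
      rw [h4, hμ, map_mul]
      have h5 := hκ a (j x)
      rw [MonoidHom.comp_apply] at h5
      rw [h5]
      ring
    unfold IC.B
    rw [mul_left_comm, ← h3, ← h2]
  have h2 : ((κ a : ℂˣ) : ℂ) * ((μ a⁻¹ : ℂˣ) : ℂ) = 1 := by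
    have h3 : (((κ a : ℂˣ) : ℂ) * ((μ a⁻¹ : ℂˣ) : ℂ)) * IC.B (fun l => χ (j l)) θ =
        1 * IC.B (fun l => χ (j l)) θ := by rw [one_mul, ← h1]
    exact mul_right_cancel₀ h h3
  have h3 : ((κ a : ℂˣ) : ℂ) = ((μ a : ℂˣ) : ℂ) := by
    rw [map_inv, Units.val_inv_eq_inv_val] at h2
    field_simp at h2
    exact h2
  have h4 := hμ a 1
  have h5 := hκ a 1
  rw [mul_one] at h4 h5
  rw [MonoidHom.comp_apply] at h5
  rw [h4, h5, h3]
  ring

theorem under_sum {K Γ : Type} [Group K] [Finite K] [Group Γ] [Finite Γ] (j : K →* Γ)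
    (hj : Function.Injective j) (hn : j.range.Normal) [Fintype K] {χ : Γ → ℂ} (hχ : IsIrr χ) :
    ∑ θ ∈ (Irr K).filter (fun θ => ov j θ χ), Nat.card (Tst j hj hn θ) = Nat.card Γ := by
  obtain ⟨q, hq1, hq2⟩ := Nat.exists_infinite_primes (Nat.card Γ + ndeg χ + 1)
  haveI : Fact q.Prime := ⟨hq2⟩
  obtain ⟨P⟩ : Nonempty (Sylow q Γ) := inferInstance
  have hP : (P : Subgroup Γ) = ⊥ := by
    rw [← Subgroup.card_eq_one]
    have h1 := P.card_eq_multiplicity
    have h2 : (Nat.card Γ).factorization q = 0 :=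
      Nat.factorization_eq_zero_of_not_dvd fun h => by
        have := Nat.le_of_dvd Nat.card_pos h
        omega
    rw [h2, pow_zero] at h1
    exact h1
  have hNN : NN P = ⊤ := by
    rw [eq_top_iff]
    intro x _
    rw [Subgroup.mem_normalizer_iff, hP]
    intro y
    rw [Subgroup.mem_bot, Subgroup.mem_bot]
    constructor
    · rintro rfl
      group
    · intro h
      rw [mul_inv_eq_one] at h
      exact mul_eq_left.mp h
  have h0 : (ndeg χ : ZMod q) ≠ 0 := by
    intro h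
    rw [ZMod.natCast_eq_zero_iff] at h
    have := Nat.le_of_dvd (ndeg_pos hχ) h
    omega
  have h1 := Pool.Agent.K3h51.IN.t_S2a q K Γ j hj hn P χ hχ h0
  rw [hNN, Subgroup.card_top] at h1
  rw [← h1]
  refine Finset.sum_congr ?_ ?_
  · ext θ
    rw [Finset.mem_filter, Finset.mem_filter]
    refine and_congr_right fun _ => ⟨fun h => ⟨fun x hx => ?_, h⟩, fun h => h.2⟩
    have hx' : x ∈ (P : Subgroup Γ) := hx
    rw [hP, Subgroup.mem_bot] at hx'
    subst hx'
    intro l l' hl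
    have h2 : j l = j l' := by
      rw [← hl]
      group
    rw [hj h2]
  · intro θ _
    refine Nat.card_congr (Equiv.subtypeEquivRight fun x => ?_)
    rw [mem_Tst]
    exact ⟨fun h => ⟨trivial, h⟩, fun h => h.2⟩

/-- double counting over a central character -/
theorem d2 {R : Type} [CommRing R] (w : ℕ →* R) {A K Γ : Type} [Group A] [Finite A] [Group K]
    [Fintype K] [Group Γ] [Finite Γ] (z : A →* K) (j : K →* Γ) (hj : Function.Injective j)
    (hn : j.range.Normal) (hjz : (j.comp z).range ≤ Subgroup.center Γ) (ν : A →* ℂˣ) :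
    (Nat.card Γ : R) * wo w (j.comp z) (fun a => ((ν a : ℂˣ) : ℂ)) =
      ∑ θ ∈ (Irr K).filter (ov z (fun a => ((ν a : ℂˣ) : ℂ))),
        (Nat.card (Tst j hj hn θ) : R) * wo w j θ := by
  haveI := Fintype.ofFinite Γ
  have hz : z.range ≤ Subgroup.center K := by
    rintro _ ⟨a, rfl⟩
    rw [Subgroup.mem_center_iff]
    intro k
    apply hj
    rw [map_mul, map_mul]
    exact Subgroup.mem_center_iff.mp (hjz ⟨a, rfl⟩) (j k)
  have key : ∀ χ ∈ Irr Γ, ∀ θ ∈ Irr K, ov j θ χ →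
      (ov z (fun a => ((ν a : ℂˣ) : ℂ)) θ ↔ ov (j.comp z) (fun a => ((ν a : ℂˣ) : ℂ)) χ) := by
    intro χ hχ θ hθ h
    rw [ov_cen z hz (mem_Irr.mp hθ), ov_cen (j.comp z) hjz (mem_Irr.mp hχ)]
    have h1 := under_cen z j hz hjz (mem_Irr.mp hθ) (mem_Irr.mp hχ) h
    have hχ0 : χ 1 ≠ 0 := by
      rw [← ndeg_cast (mem_Irr.mp hχ)]
      exact_mod_cast (ndeg_pos (mem_Irr.mp hχ)).ne'
    have hθ0 : θ 1 ≠ 0 := by
      rw [← ndeg_cast (mem_Irr.mp hθ)]
      exact_mod_cast (ndeg_pos (mem_Irr.mp hθ)).ne'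
    refine forall_congr' fun a => ?_
    rw [MonoidHom.comp_apply]
    constructor
    · intro h2
      have h3 := h1 a
      rw [h2] at h3
      apply mul_right_cancel₀ hθ0
      rw [← h3]
      ring
    · intro h2
      have h3 := h1 a
      rw [h2] at h3
      apply mul_right_cancel₀ hχ0
      rw [h3]
      ring
  rw [wo_eq, Finset.mul_sum]
  have e1 : ∀ θ ∈ (Irr K).filter (ov z (fun a => ((ν a : ℂˣ) : ℂ))),
      (Nat.card (Tst j hj hn θ) : R) * wo w j θ =
        ∑ χ ∈ Irr Γ, if ov j θ χ then (Nat.card (Tst j hj hn θ) : R) * w (ndeg χ) else 0 := by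
    intro θ _
    rw [wo_eq, Finset.mul_sum, Finset.sum_filter]
  rw [Finset.sum_congr rfl e1, Finset.sum_comm, Finset.sum_filter]
  refine Finset.sum_congr rfl fun χ hχ => ?_
  have e2 := under_sum j hj hn (mem_Irr.mp hχ)
  rw [Finset.sum_filter]
  by_cases hov : ov (j.comp z) (fun a => ((ν a : ℂˣ) : ℂ)) χ
  · rw [if_pos hov, ← e2, Nat.cast_sum, Finset.sum_mul, Finset.sum_filter]
    refine Finset.sum_congr rfl fun θ hθ => ?_
    by_cases h1 : ov j θ χ
    · rw [if_pos h1, if_pos ((key χ hχ θ hθ h1).mpr hov)]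
    · rw [if_neg h1, ite_self]
  · rw [if_neg hov]
    symm
    refine Finset.sum_eq_zero fun θ hθ => ?_
    by_cases h1 : ov j θ χ
    · rw [if_neg fun h => hov ((key χ hχ θ hθ h1).mp h)]
    · rw [if_neg h1, ite_self]

end Pool.Agent.ZH17.RD
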