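import Pool.Agent.ZH17.RD.Eqr1
import Pool.Agent.K3h83.PI.Sub

/-!
# Piece EQ: the count for a cyclic quotient
-/

set_option autoImplicit false
set_option linter.unusedSectionVars false
set_option linter.style.haveILetI false

open scoped BigOperators Classical

noncomputable section

namespace Pool.Agent.ZH17.RD

open Pool.Agent.Helper884 Pool.Agent.K3h3.KB Pool.Agent.K3h3.MK Pool.Agent.K3h83.IN
open Pool.Agent.H254R3.IN (IsIrr mem_Irr)
open IC (Irr)

/-- composition of functions with an automorphism -/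
def fp {K : Type} [Group K] (a : MulAut K) : Equiv.Perm (K → ℂ) where
  toFun f := fun k => f (a k)
  invFun f := fun k => f (a⁻¹ k)
  left_inv f := by
    funext k
    change f (a (a⁻¹ k)) = f k
    rw [MulAut.apply_inv_self]
  right_inv f := by
    funext k
    change f (a⁻¹ (a k)) = f k
    rw [MulAut.inv_apply_self]

@[simp] theorem fp_apply {K : Type} [Group K] (a : MulAut K) (f : K → ℂ) (k : K) :
    fp a f k = f (a k) := rfl

theorem fp_pow {K : Type} [Group K] (a : MulAut K) (i : ℕ) : fp (a ^ i) = fp a ^ i := by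
  induction i with
  | zero =>
    ext f k
    simp
  | succ i ih =>
    rw [pow_succ, pow_succ', ← ih]
    ext f k
    rw [Equiv.Perm.mul_apply, fp_apply, fp_apply, fp_apply, MulAut.mul_apply]

theorem minper_iff {X : Type} (α : Equiv.Perm X) (x : X) (i : ℕ) :
    Function.minimalPeriod α x ∣ i ↔ (α ^ i) x = x := by
  rw [← Function.isPeriodicPt_iff_minimalPeriod_dvd, Function.IsPeriodicPt, Function.IsFixedPt,
    Equiv.Perm.iterate_eq_pow]

theorem minper_congr {X Y : Type} (α : Equiv.Perm X) (β : Equiv.Perm Y) (x : X) (y : Y)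
    (h : ∀ i : ℕ, (α ^ i) x = x ↔ (β ^ i) y = y) :
    Function.minimalPeriod α x = Function.minimalPeriod β y := by
  apply Nat.dvd_antisymm
  · rw [minper_iff, h, ← minper_iff]
  · rw [minper_iff, ← h, ← minper_iff]

section cyc

variable {A K Γ : Type} [Group A] [Finite A] [Group K] [Fintype K] [Group Γ] [Finite Γ]
  (z : A →* K) (j : K →* Γ) (hj : Function.Injective j) (hn : j.range.Normal) (g₀ : Γ)
  (a : MulAut K) (hg : ∀ k, g₀ * j k * g₀⁻¹ = j (a k)) (hgen : ∀ x, ∃ k, ∃ i : ℕ, x = j k * g₀ ^ i)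

include hg in
theorem hg_pow (i : ℕ) (k : K) : g₀ ^ i * j k * (g₀ ^ i)⁻¹ = j ((a ^ i) k) := by
  induction i generalizing k with
  | zero => simp
  | succ i ih =>
    have h1 : g₀ ^ (i + 1) * j k * (g₀ ^ (i + 1))⁻¹ = g₀ ^ i * (g₀ * j k * g₀⁻¹) * (g₀ ^ i)⁻¹ := by
      rw [pow_succ]
      group
    rw [h1, hg, ih, pow_succ, MulAut.mul_apply]

include hg in
theorem mem_Tst_pow (θ : K → ℂ) (i : ℕ) : g₀ ^ i ∈ Tst j hj hn θ ↔ (fp a ^ i) θ = θ := by
  rw [mem_Tst, ← fp_pow]
  constructor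
  · intro h
    funext k
    exact h k _ (hg_pow j g₀ a hg i k)
  · intro h l l' hl
    rw [hg_pow j g₀ a hg i l] at hl
    rw [← hj hl]
    exact congrFun h l

include hgen in
theorem gen_quot (x : Γ ⧸ j.range) : x ∈ Submonoid.powers (g₀ : Γ ⧸ j.range) := by
  obtain ⟨y, rfl⟩ := QuotientGroup.mk_surjective x
  obtain ⟨k, i, rfl⟩ := hgen y
  haveI := hn
  refine ⟨i, ?_⟩
  change ((g₀ ^ i : Γ) : Γ ⧸ j.range) = _
  rw [QuotientGroup.eq]
  refine (Subgroup.Normal.mem_comm_iff hn).mp ?_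
  rw [mul_assoc, mul_inv_cancel, mul_one]
  exact ⟨k, rfl⟩

include hgen in
theorem cyc_quot : IsCyclic (Γ ⧸ j.range) := by
  refine ⟨(g₀ : Γ ⧸ j.range), fun x => ?_⟩
  obtain ⟨i, hi⟩ := gen_quot j hn g₀ hgen x
  exact ⟨(i : ℤ), by rw [← hi]; simp⟩

include hg hgen in
theorem idx_Tst {θ : K → ℂ} (hθ : IsIrr θ) :
    (Tst j hj hn θ).index = Function.minimalPeriod (fp a) θ := by
  have hle := range_le_Tst j hj hn hθ
  have hcomm : ∀ x y : Γ, x * y * x⁻¹ * y⁻¹ ∈ j.range := by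
    haveI := hn
    haveI := cyc_quot j hn g₀ hgen
    letI : CommGroup (Γ ⧸ j.range) := IsCyclic.commGroup
    intro x y
    rw [← QuotientGroup.eq_one_iff]
    have h1 : ((x * y * x⁻¹ * y⁻¹ : Γ) : Γ ⧸ j.range) =
        (x : Γ ⧸ j.range) * (y : Γ ⧸ j.range) * (x : Γ ⧸ j.range)⁻¹ * (y : Γ ⧸ j.range)⁻¹ := rfl
    rw [h1, mul_inv_eq_one, mul_inv_eq_iff_eq_mul]
    exact mul_comm _ _
  haveI hTn : (Tst j hj hn θ).Normal := by
    constructor
    intro t ht x
    have h1 : x * t * x⁻¹ = (x * t * x⁻¹ * t⁻¹) * t := by group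
    rw [h1]
    exact mul_mem (hle (hcomm x t)) ht
  have h1 : orderOf (g₀ : Γ ⧸ Tst j hj hn θ) = (Tst j hj hn θ).index := by
    rw [Subgroup.index]
    refine orderOf_eq_card_of_forall_mem_powers fun x => ?_
    obtain ⟨y, rfl⟩ := QuotientGroup.mk_surjective x
    obtain ⟨k, i, rfl⟩ := hgen y
    refine ⟨i, ?_⟩
    change ((g₀ ^ i : Γ) : Γ ⧸ Tst j hj hn θ) = _
    rw [QuotientGroup.eq]
    refine (Subgroup.Normal.mem_comm_iff hTn).mp ?_
    rw [mul_assoc, mul_inv_cancel, mul_one]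
    exact hle ⟨k, rfl⟩
  rw [← h1]
  have h2 : ∀ i : ℕ, orderOf (g₀ : Γ ⧸ Tst j hj hn θ) ∣ i ↔ (fp a ^ i) θ = θ := by
    intro i
    rw [orderOf_dvd_iff_pow_eq_one, ← mem_Tst_pow j hj hn g₀ a hg θ i, ← QuotientGroup.eq_one_iff]
    rfl
  apply Nat.dvd_antisymm
  · rw [h2, ← minper_iff]
  · rw [minper_iff, ← h2]

include hj hn hg hgen in
/-- the count -/
theorem cc_gen {R : Type} [CommRing R] (w : ℕ →* R)
    (hjz : (j.comp z).range ≤ Subgroup.center Γ) (ν : A →* ℂˣ) :
    (Nat.card Γ : R) * wo w (j.comp z) (fun a => ((ν a : ℂˣ) : ℂ)) =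
      (Nat.card K : R) * ∑ θ ∈ (Irr K).filter (ov z (fun a => ((ν a : ℂˣ) : ℂ))),
        ((j.range.index / Function.minimalPeriod (fp a) θ : ℕ) : R) ^ 2 *
          w (Function.minimalPeriod (fp a) θ) * w (ndeg θ) := by
  rw [d2 w z j hj hn hjz ν, Finset.mul_sum]
  refine Finset.sum_congr rfl fun θ hθ => ?_
  have hθ' := mem_Irr.mp (Finset.mem_filter.mp hθ).1
  have hle := range_le_Tst j hj hn hθ'
  have hidx := idx_Tst j hj hn g₀ a hg hgen hθ'
  have h1 := a_S1 R w K Γ j hj hn θ hθ' (Tst j hj hn θ) (fun x => Iff.rfl)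
    (cod j _ hle) fun _ => rfl
  haveI := hn
  haveI := cyc_quot j hn g₀ hgen
  have h2 := wo_cyc w (cod j _ hle) (cod_inj hj _ hle) (cod_normal j hn _ hle) hθ'
    (fun x => (fixes_sub (fun _ => rfl) x).mpr x.2)
    ((QuotientGroup.mk' j.range).comp (Tst j hj hn θ).subtype) (by
      rw [cod_range]
      ext x
      rw [MonoidHom.mem_ker, MonoidHom.comp_apply, Subgroup.mem_subgroupOf]
      exact QuotientGroup.eq_one_iff _)
  have h3 : (cod j _ hle).range.index * (Tst j hj hn θ).index = j.range.index := by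
    rw [cod_range]
    exact Subgroup.relIndex_mul_index hle
  have h4 : j.range.index / Function.minimalPeriod (fp a) θ = (cod j _ hle).range.index := by
    rw [← hidx, ← h3]
    exact Nat.mul_div_cancel _ (Nat.pos_of_ne_zero Subgroup.FiniteIndex.index_ne_zero)
  have h5 : Nat.card (Tst j hj hn θ) = Nat.card K * (cod j _ hle).range.index := by
    rw [← Subgroup.card_mul_index (cod j _ hle).range]
    congr 1
    exact (Nat.card_congr (MonoidHom.ofInjective (cod_inj hj _ hle)).toEquiv).symm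
  rw [h1, h2, h4, h5, ← hidx]
  push_cast
  ring

end cyc

/-! ### the characters of degree prime to `p` over a linear character -/

section xn

variable {p : ℕ} [hp : Fact p.Prime] {A K : Type} [Group A] [Group K]

/-- the characters of degree prime to `p` over `ν` -/
def Xn (p : ℕ) [Fact p.Prime] {A K : Type} [Group A] [Group K] (z : A →* K) (ν : A →* ℂˣ) : Type :=
  {χ : X p K // ∀ c, χ.1 (z c) = ((ν c : ℂˣ) : ℂ) * χ.1 1}

instance {z : A →* K} {ν : A →* ℂˣ} [Finite K] : Finite (Xn p z ν) :=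
  inferInstanceAs (Finite {χ : X p K // ∀ c, χ.1 (z c) = ((ν c : ℂˣ) : ℂ) * χ.1 1})

instance {z : A →* K} {ν : A →* ℂˣ} [Finite K] : Fintype (Xn p z ν) := Fintype.ofFinite _

/-- an automorphism acts on the characters of degree prime to `p` -/
def alX (a : MulAut K) (χ : X p K) : X p K :=
  ⟨fun k => χ.1 (a k), Pool.Agent.Q90.WR.irr_comp a χ.2.1, by
    have h : ndeg (fun k => χ.1 (a k)) = ndeg χ.1 := by
      unfold ndeg
      simp
    rw [h]
    exact χ.2.2⟩

theorem kap_alX (a : MulAut K) (χ : X p K) : kap p (alX a χ) = kap p χ := by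
  unfold kap
  congr 1
  apply Units.ext
  change ((ndeg (fun k => χ.1 (a k)) : ℕ) : ZMod p) = (ndeg χ.1 : ZMod p)
  unfold ndeg
  simp

/-- the permutation of the characters over `ν` -/
def al (z : A →* K) (ν : A →* ℂˣ) (a : MulAut K) (ha : ∀ c, a (z c) = z c) :
    Equiv.Perm (Xn p z ν) where
  toFun χ := ⟨alX a χ.1, fun c => by
    change χ.1.1 (a (z c)) = _ * χ.1.1 (a 1)
    rw [ha, map_one]
    exact χ.2 c⟩
  invFun χ := ⟨alX a⁻¹ χ.1, fun c => by
    change χ.1.1 (a⁻¹ (z c)) = _ * χ.1.1 (a⁻¹ 1)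
    have h : a⁻¹ (z c) = z c := by
      nth_rewrite 1 [← ha c]
      exact MulAut.inv_apply_self K a (z c)
    rw [h, map_one]
    exact χ.2 c⟩
  left_inv χ := by
    apply Subtype.ext
    apply Subtype.ext
    funext k
    change χ.1.1 (a (a⁻¹ k)) = _
    rw [MulAut.apply_inv_self]
  right_inv χ := by
    apply Subtype.ext
    apply Subtype.ext
    funext k
    change χ.1.1 (a⁻¹ (a k)) = _
    rw [MulAut.inv_apply_self]

theorem al_coe (z : A →* K) (ν : A →* ℂˣ) (a : MulAut K) (ha : ∀ c, a (z c) = z c)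
    (χ : Xn p z ν) : (al z ν a ha χ).1 = alX a χ.1 := rfl

theorem al_pow_coe (z : A →* K) (ν : A →* ℂˣ) (a : MulAut K) (ha : ∀ c, a (z c) = z c) (i : ℕ)
    (χ : Xn p z ν) : ((al z ν a ha ^ i) χ).1.1 = (fp a ^ i) χ.1.1 := by
  induction i generalizing χ with
  | zero => simp
  | succ i ih =>
    rw [pow_succ, Equiv.Perm.mul_apply, ih, pow_succ, Equiv.Perm.mul_apply]
    rfl

theorem al_minper (z : A →* K) (ν : A →* ℂˣ) (a : MulAut K) (ha : ∀ c, a (z c) = z c)
    (χ : Xn p z ν) : Function.minimalPeriod (al z ν a ha) χ =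
      Function.minimalPeriod (fp a) χ.1.1 := by
  apply minper_congr
  intro i
  rw [← al_pow_coe z ν a ha i χ]
  constructor
  · intro h
    rw [h]
  · intro h
    exact Subtype.ext (Subtype.ext h)

theorem al_pow (z : A →* K) (ν : A →* ℂˣ) (a : MulAut K) (ha : ∀ c, a (z c) = z c) (i : ℕ)
    (hi : ∀ c, (a ^ i) (z c) = z c) : al (p := p) z ν (a ^ i) hi = al z ν a ha ^ i := by
  ext χ
  apply Subtype.ext
  apply Subtype.ext
  rw [al_pow_coe, ← fp_pow]
  rfl

/-- the sum over the characters over `ν` -/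
theorem sum_Xn [Finite A] [Fintype K] (z : A →* K) (hz : z.range ≤ Subgroup.center K) (ν : A →* ℂˣ)
    (F : (K → ℂ) → RR p) :
    ∑ θ ∈ (Irr K).filter (ov z (fun a => ((ν a : ℂˣ) : ℂ))), F θ * cl p (ndeg θ) =
      ∑ χ : Xn p z ν, F χ.1.1 * MonoidAlgebra.single (kap p χ.1) (1 : ℤ) := by
  rw [← Finset.sum_filter_add_sum_filter_not ((Irr K).filter _) fun χ => (ndeg χ : ZMod p) = 0]
  rw [Finset.sum_eq_zero (s := Finset.filter (fun χ => (ndeg χ : ZMod p) = 0) _), zero_add]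
  · symm
    refine Finset.sum_bij (fun χ _ => χ.1.1) ?_ ?_ ?_ ?_
    · intro χ _
      rw [Finset.mem_filter, Finset.mem_filter]
      exact ⟨⟨mem_Irr.mpr χ.1.2.1, (ov_cen z hz χ.1.2.1 ν).mpr χ.2⟩, χ.1.2.2⟩
    · intro χ _ χ' _ h
      exact Subtype.ext (Subtype.ext h)
    · intro χ hχ
      rw [Finset.mem_filter, Finset.mem_filter] at hχ
      exact ⟨⟨⟨χ, mem_Irr.mp hχ.1.1, hχ.2⟩, (ov_cen z hz (mem_Irr.mp hχ.1.1) ν).mp hχ.1.2⟩,
        Finset.mem_univ _, rfl⟩
    · intro χ _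
      rw [cl_apply p χ.1.2.2]
      rfl
  · intro χ hχ
    have h := (Finset.mem_filter.mp hχ).2
    have h1 : cl p (ndeg χ) = 0 := by
      change cls p _ = 0
      unfold cls
      rw [dif_pos h]
    rw [h1, mul_zero]

end xn

/-- the count in terms of `cnt` -/
theorem cc {p : ℕ} [hp : Fact p.Prime] {A K Γ : Type} [Group A] [Finite A] [Group K] [Fintype K]
    [Group Γ] [Finite Γ] (z : A →* K) (j : K →* Γ) (hj : Function.Injective j)
    (hn : j.range.Normal) (g₀ : Γ) (a : MulAut K) (hg : ∀ k, g₀ * j k * g₀⁻¹ = j (a k))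
    (hgen : ∀ x, ∃ k, ∃ i : ℕ, x = j k * g₀ ^ i) (hjz : (j.comp z).range ≤ Subgroup.center Γ)
    (ν : A →* ℂˣ) (ha : ∀ c, a (z c) = z c) :
    (j.range.index : RR p) * wo (cl p) (j.comp z) (fun a => ((ν a : ℂˣ) : ℂ)) =
      cnt p j.range.index (al z ν a ha) fun χ => kap p χ.1 := by
  have hz : z.range ≤ Subgroup.center K := by
    rintro _ ⟨a, rfl⟩
    rw [Subgroup.mem_center_iff]
    intro k
    apply hj
    rw [map_mul, map_mul]
    exact Subgroup.mem_center_iff.mp (hjz ⟨a, rfl⟩) (j k)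
  have h1 := cc_gen z j hj hn g₀ a hg hgen (cl p) hjz ν
  have h2 : Nat.card Γ = Nat.card K * j.range.index := by
    rw [← Subgroup.card_mul_index j.range]
    congr 1
    exact (Nat.card_congr (MonoidHom.ofInjective hj).toEquiv).symm
  rw [h2, Nat.cast_mul, mul_assoc] at h1
  have h3 := natCast_mul_inj p Nat.card_pos.ne' h1
  rw [h3, sum_Xn z hz ν fun θ => ((j.range.index / Function.minimalPeriod (fp a) θ : ℕ) : RR p) ^ 2 *
          cl p (Function.minimalPeriod (fp a) θ)]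
  unfold cnt
  refine Finset.sum_congr rfl fun χ _ => ?_
  rw [al_minper z ν a ha χ]

end Pool.Agent.ZH17.RD
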