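import Pool.Agent.ZH17.RD.Eqr2

/-!
# Piece EQ: the semidirect product with a cyclic group
-/

set_option autoImplicit false
set_option linter.unusedSectionVars false
set_option linter.style.haveILetI false

open scoped BigOperators Classical

noncomputable section

namespace Pool.Agent.ZH17.RD

open Pool.Agent.Helper884 Pool.Agent.K3h3.KB Pool.Agent.K3h3.MK Pool.Agent.K3h83.IN
open Pool.Agent.H254R3.IN (IsIrr mem_Irr)
open IC (Irr)
open SemidirectProduct

section

variable {p : ℕ} [hp : Fact p.Prime] {N : Type} [Group N] [Finite N] (Q : Sylow p N) (b : MulAut N)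

/-- the group `N ⋊ ⟨b⟩` -/
abbrev Gb : Type := N ⋊[(Subgroup.zpowers b).subtype] (Subgroup.zpowers b)

/-- the generator -/
def gb : Gb b := inr ⟨b, Subgroup.mem_zpowers b⟩

theorem gb_conj (k : N) : gb b * (inl k : Gb b) * (gb b)⁻¹ = inl (b k) := by
  unfold gb
  rw [← map_inv, ← inl_aut]
  rfl

theorem gb_gen (x : Gb b) : ∃ k, ∃ i : ℕ, x = (inl k : Gb b) * gb b ^ i := by
  obtain ⟨n, c⟩ := x
  have h1 : (c : MulAut N) ∈ Submonoid.powers b := by
    rw [mem_powers_iff_mem_zpowers]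
    exact c.2
  obtain ⟨i, hi⟩ := h1
  refine ⟨n, i, ?_⟩
  unfold gb
  rw [← map_pow]
  have h2 : (⟨b, Subgroup.mem_zpowers b⟩ : Subgroup.zpowers b) ^ i = c := Subtype.ext hi
  rw [h2, mk_eq_inl_mul_inr]

theorem idx_inl : (inl : N →* Gb b).range.index = orderOf b := by
  rw [range_inl_eq_ker_rightHom, Subgroup.index_ker,
    MonoidHom.range_eq_top.mpr rightHom_surjective, Subgroup.card_top, Nat.card_zpowers]

theorem cen_inl (hb : ∀ z ∈ Subgroup.center N, b z = z) :
    ((inl : N →* Gb b).comp (Subgroup.center N).subtype).range ≤ Subgroup.center (Gb b) := by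
  rintro _ ⟨z, rfl⟩
  rw [Subgroup.mem_center_iff]
  intro x
  haveI := Fintype.ofFinite N
  obtain ⟨k, i, rfl⟩ := gb_gen b x
  rw [MonoidHom.comp_apply, Subgroup.subtype_apply]
  have h1 : ∀ y : N, (b ^ i) (z : N) = z := by
    intro _
    induction i with
    | zero => rfl
    | succ i ih => rw [pow_succ, MulAut.mul_apply, hb z z.2, ih]
  have h2 := hg_pow (inl : N →* Gb b) (gb b) b (gb_conj b) i (z : N)
  rw [h1 1] at h2
  have h3 : gb b ^ i * (inl (z : N) : Gb b) = inl (z : N) * gb b ^ i := by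
    rw [mul_inv_eq_iff_eq_mul] at h2
    exact h2
  have h4 : k * (z : N) = z * k := Subgroup.mem_center_iff.mp z.2 k
  rw [mul_assoc, h3, ← mul_assoc, ← mul_assoc, ← map_mul, ← map_mul, h4]

/-- the Sylow subgroup -/
theorem exists_Qb (hb : ¬ p ∣ orderOf b) :
    ∃ R : Sylow p (Gb b), (R : Subgroup (Gb b)) = (Q : Subgroup N).map inl := by
  have h1 : IsPGroup p ((Q : Subgroup N).map (inl : N →* Gb b)) := Q.isPGroup'.map _
  have h2 : ¬ p ∣ ((Q : Subgroup N).map (inl : N →* Gb b)).index := by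
    rw [Subgroup.index_map_of_injective _ inl_injective, idx_inl, hp.out.dvd_mul]
    rintro (h | h)
    · exact Q.not_dvd_index h
    · exact hb h
  exact ⟨h1.toSylow h2, rfl⟩

theorem ast_map {b : MulAut N} (hb : b ∈ Ast (Q : Subgroup N)) (m : NN Q) : b (m : N) ∈ NN Q := by
  rw [Subgroup.mem_normalizer_iff]
  intro h
  have h1 := Subgroup.mem_normalizer_iff.1 m.2 (b⁻¹ h)
  have h2 := hb.1 (b⁻¹ h)
  rw [MulAut.apply_inv_self] at h2
  have h3 := hb.1 ((m : N) * b⁻¹ h * (m : N)⁻¹)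
  rw [map_mul, map_mul, map_inv, MulAut.apply_inv_self] at h3
  exact h2.trans (h1.trans h3.symm)

/-- the restriction of `b` to the normalizer -/
def rs (b : MulAut N) (hb : b ∈ Ast (Q : Subgroup N)) : MulAut (NN Q) where
  toFun m := ⟨b m, ast_map Q hb m⟩
  invFun m := ⟨b⁻¹ m, ast_map Q (inv_mem hb) m⟩
  left_inv m := Subtype.ext (MulAut.inv_apply_self N b m)
  right_inv m := Subtype.ext (MulAut.apply_inv_self N b m)
  map_mul' m m' := Subtype.ext (map_mul b (m : N) m')

@[simp] theorem rs_coe (b : MulAut N) (hb : b ∈ Ast (Q : Subgroup N)) (m : NN Q) :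
    ((rs Q b hb m : NN Q) : N) = b m := rfl

theorem rs_pow (b : MulAut N) (hb : b ∈ Ast (Q : Subgroup N)) (i : ℕ) :
    rs Q (b ^ i) (pow_mem hb i) = rs Q b hb ^ i := by
  induction i with
  | zero => rfl
  | succ i ih =>
    rw [pow_succ (rs Q b hb), ← ih]
    ext m
    change (b ^ (i + 1)) (m : N) = (b ^ i) (b m)
    rw [pow_succ, MulAut.mul_apply]

/-- the center in the normalizer -/
def zq : Subgroup.center N →* NN Q := Subgroup.inclusion (le_NN_of_center Q le_rfl)

@[simp] theorem zq_coe (c : Subgroup.center N) : ((zq Q c : NN Q) : N) = c := rfl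

section loc

variable {b} (hb : b ∈ Ast (Q : Subgroup N)) (R : Sylow p (Gb b))
  (hR : (R : Subgroup (Gb b)) = (Q : Subgroup N).map inl)

include hR in
theorem inl_mem (k : N) : (inl k : Gb b) ∈ NN R ↔ k ∈ NN Q := by
  rw [Subgroup.mem_normalizer_iff, Subgroup.mem_normalizer_iff, hR]
  have h1 : ∀ x : N, (inl x : Gb b) ∈ (Q : Subgroup N).map inl ↔ x ∈ (Q : Subgroup N) := by
    intro x
    constructor
    · rintro ⟨y, hy, hxy⟩
      rw [← inl_injective hxy]
      exact hy
    · intro h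
      exact ⟨x, h, rfl⟩
  constructor
  · intro H h
    have h2 := H (inl h)
    rw [h1, ← map_inv, ← map_mul, ← map_mul, h1] at h2
    exact h2
  · intro H x
    constructor
    · rintro ⟨y, hy, rfl⟩
      rw [← map_inv, ← map_mul, ← map_mul, h1]
      exact (H y).mp hy
    · rintro ⟨y, hy, hxy⟩
      have h3 : x = inl (k⁻¹ * y * k) := by
        rw [map_mul, map_mul, hxy, map_inv]
        group
      rw [h3, h1, H]
      have h4 : k * (k⁻¹ * y * k) * k⁻¹ = y := by group
      rw [h4]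
      exact hy

include hR hb in
theorem gb_mem : gb b ∈ NN R := by
  rw [Subgroup.mem_normalizer_iff, hR]
  intro x
  constructor
  · rintro ⟨y, hy, rfl⟩
    rw [gb_conj]
    exact ⟨b y, (hb.1 y).mpr hy, rfl⟩
  · rintro ⟨y, hy, hxy⟩
    refine ⟨b⁻¹ y, ?_, ?_⟩
    · have := hb.1 (b⁻¹ y)
      rw [MulAut.apply_inv_self] at this
      exact this.mp hy
    · have h1 := gb_conj b (b⁻¹ y)
      rw [MulAut.apply_inv_self, hxy] at h1
      have h2 : (inl (b⁻¹ y) : Gb b) = (gb b)⁻¹ * (gb b * inl (b⁻¹ y) * (gb b)⁻¹) * gb b := by group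
      rw [h2, h1]
      group

/-- the embedding of the normalizer -/
def jq : NN Q →* NN R :=
  ((inl : N →* Gb b).comp (NN Q).subtype).codRestrict _ fun k => (inl_mem Q R hR k).mpr k.2

@[simp] theorem jq_coe (k : NN Q) : ((jq Q R hR k : NN R) : Gb b) = inl (k : N) := rfl

theorem jq_inj : Function.Injective (jq Q R hR) := by
  intro x y h
  have h1 : (inl (x : N) : Gb b) = inl (y : N) := congrArg Subtype.val h
  exact Subtype.ext (inl_injective h1)

theorem jq_conj (k : NN Q) : (⟨gb b, gb_mem Q hb R hR⟩ : NN R) * jq Q R hR k *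
    (⟨gb b, gb_mem Q hb R hR⟩ : NN R)⁻¹ = jq Q R hR (rs Q b hb k) :=
  Subtype.ext (gb_conj b k)

theorem jq_gen (x : NN R) : ∃ k, ∃ i : ℕ, x = jq Q R hR k * (⟨gb b, gb_mem Q hb R hR⟩ : NN R) ^ i := by
  obtain ⟨k, i, hx⟩ := gb_gen b (x : Gb b)
  have h1 : (inl k : Gb b) ∈ NN R := by
    have h2 : (inl k : Gb b) = x * (gb b ^ i)⁻¹ := by rw [hx]; group
    rw [h2]
    exact mul_mem x.2 (inv_mem (pow_mem (gb_mem Q hb R hR) i))
  exact ⟨⟨k, (inl_mem Q R hR k).mp h1⟩, i, Subtype.ext hx⟩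

theorem jq_range : (jq Q R hR).range = ((rightHom : Gb b →* _).comp (NN R).subtype).ker := by
  ext x
  rw [MonoidHom.mem_ker, MonoidHom.comp_apply]
  constructor
  · rintro ⟨k, rfl⟩
    exact rightHom_inl _
  · intro h
    have h1 : (x : Gb b) ∈ (inl : N →* Gb b).range := by
      rw [range_inl_eq_ker_rightHom]
      exact h
    obtain ⟨k, hk⟩ := h1
    have h2 : (inl k : Gb b) ∈ NN R := by rw [hk]; exact x.2
    exact ⟨⟨k, (inl_mem Q R hR k).mp h2⟩, Subtype.ext hk⟩

include hb in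
theorem idx_jq : (jq Q R hR).range.index = orderOf b := by
  rw [jq_range, Subgroup.index_ker]
  have h1 : ((rightHom : Gb b →* _).comp (NN R).subtype).range = ⊤ := by
    rw [eq_top_iff]
    intro c _
    have h2 : (c : MulAut N) ∈ Submonoid.powers b := by
      rw [mem_powers_iff_mem_zpowers]
      exact c.2
    obtain ⟨i, hi⟩ := h2
    refine ⟨(⟨gb b, gb_mem Q hb R hR⟩ : NN R) ^ i, ?_⟩
    rw [map_pow]
    apply Subtype.ext
    rw [← hi]
    rfl
  rw [h1, Subgroup.card_top, Nat.card_zpowers]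

theorem jq_normal : (jq Q R hR).range.Normal := by
  rw [jq_range]
  infer_instance

include hR in
theorem q1_quot (hQ : IsCyclic Q) (K : Subgroup (Gb b)) [K.Normal] : Q1 p (Gb b ⧸ K) := by
  have h1 : IsCyclic R := by
    have h2 : IsCyclic ((Q : Subgroup N).map (inl : N →* Gb b)) :=
      ((Q : Subgroup N).equivMapOfInjective _ inl_injective).isCyclic.mp hQ
    rw [← hR] at h2
    exact h2
  have h2 : ∀ R' : Sylow p (Gb b), IsCyclic R' := by
    intro R'
    exact (R.equiv R').isCyclic.mp h1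
  have h3 := (Pool.Agent.K3h83.PI.cls_SeP p).quo (Gb b) K (Pool.Agent.K3h83.PI.SeP_of_cyclic h2)
  exact fun P => Pool.Agent.K3h83.PI.sec_main (Gb b ⧸ K) h3 P

include hb in
theorem cen_jq : ((jq Q R hR).comp (zq Q)).range ≤ Subgroup.center (NN R) := by
  rintro _ ⟨c, rfl⟩
  rw [Subgroup.mem_center_iff]
  intro x
  have h1 := cen_inl b hb.2 ⟨c, rfl⟩
  exact Subtype.ext (Subgroup.mem_center_iff.mp h1 (x : Gb b))

include hR in
theorem wo_eq_loc (hb : b ∈ Ast (Q : Subgroup N)) (hQ : IsCyclic Q)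
    (ν : Subgroup.center N →* ℂˣ) :
    wo (cl p) ((inl : N →* Gb b).comp (Subgroup.center N).subtype)
      (fun a => ((ν a : ℂˣ) : ℂ)) =
    wo (cl p) ((jq Q R hR).comp (zq Q)) (fun a => ((ν a : ℂˣ) : ℂ)) := by
  set jz := (inl : N →* Gb b).comp (Subgroup.center N).subtype with hjz
  have hinj : Function.Injective jz := inl_injective.comp (Subgroup.subtype_injective _)
  have hcen : jz.range ≤ Subgroup.center (Gb b) := cen_inl b hb.2
  let f : Subgroup.center N ≃* jz.range := MonoidHom.ofInjective hinj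
  have h1 := central (p := p) a_S5 a_S4 jz.range hcen R (ν.comp f.symm.toMonoidHom)
    fun K _ _ _ => q1_quot Q R hR hQ K
  have h2 : ∀ c, ((f c : jz.range) : Gb b) = jz c := fun c => rfl
  have e1 : wo (cl p) jz (fun a => ((ν a : ℂˣ) : ℂ)) =
      wo (cl p) jz.range.subtype (fun a => (((ν.comp f.symm.toMonoidHom) a : ℂˣ) : ℂ)) := by
    refine wo_congr (cl p) f (MulEquiv.refl _) _ _ (fun c => rfl) _ _ fun c => ?_
    change ((ν c : ℂˣ) : ℂ) = ((ν (f.symm (f c)) : ℂˣ) : ℂ)
    rw [f.symm_apply_apply]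
  have e2 : wo (cl p) ((jq Q R hR).comp (zq Q)) (fun a => ((ν a : ℂˣ) : ℂ)) =
      wo (cl p) (Subgroup.inclusion (le_NN_of_center R hcen))
        (fun a => (((ν.comp f.symm.toMonoidHom) a : ℂˣ) : ℂ)) := by
    refine wo_congr (cl p) f (MulEquiv.refl _) _ _ (fun c => rfl) _ _ fun c => ?_
    change ((ν c : ℂˣ) : ℂ) = ((ν (f.symm (f c)) : ℂˣ) : ℂ)
    rw [f.symm_apply_apply]
  rw [e1, e2, h1]

end loc

/-- the weighted counts for `N` and for the normalizer agree -/
theorem cnt_eq (hQ : IsCyclic Q) {b : MulAut N} (hb : b ∈ Ast (Q : Subgroup N))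
    (hpb : ¬ p ∣ orderOf b) (ν : Subgroup.center N →* ℂˣ)
    (h1 : ∀ c, b ((Subgroup.center N).subtype c) = (Subgroup.center N).subtype c)
    (h2 : ∀ c, rs Q b hb (zq Q c) = zq Q c) :
    cnt p (orderOf b) (al (p := p) (Subgroup.center N).subtype ν b h1) (fun χ => kap p χ.1) =
      cnt p (orderOf b) (al (p := p) (zq Q) ν (rs Q b hb) h2) fun χ => kap p χ.1 := by
  obtain ⟨R, hR⟩ := exists_Qb Q b hpb
  haveI := Fintype.ofFinite N
  haveI := Fintype.ofFinite (NN Q)
  have e1 := cc (p := p) (Subgroup.center N).subtype (inl : N →* Gb b) inl_injective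
    (by rw [range_inl_eq_ker_rightHom]; infer_instance) (gb b) b (gb_conj b) (gb_gen b)
    (cen_inl b hb.2) ν h1
  have e2 := cc (p := p) (zq Q) (jq Q R hR) (jq_inj Q R hR) (jq_normal Q R hR)
    ⟨gb b, gb_mem Q hb R hR⟩ (rs Q b hb) (jq_conj Q hb R hR) (jq_gen Q hb R hR)
    (cen_jq Q hb R hR) ν h2
  rw [idx_inl] at e1
  rw [idx_jq Q hb R hR] at e2
  rw [← e1, ← e2, wo_eq_loc Q R hR hb hQ ν]

end

end Pool.Agent.ZH17.RD
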