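import Pool.Agent.ZH17.RD.Stm2
import Pool.Agent.K3h85.IN.CExt

/-!
# Piece GCD of project RD: extension of an invariant character from multiplicities with greatest common divisor one
-/

set_option autoImplicit false
set_option linter.unusedSectionVars false
set_option linter.style.haveILetI false

open scoped BigOperators Classical

noncomputable section

namespace Pool.Agent.ZH17.RD

open Pool.Agent.Helper884 Pool.Agent.K3h3.KB Pool.Agent.K3h3.MK Pool.Agent.K3h83.IN
open Pool.Agent.H254R3.IN (IsIrr mem_Irr)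
open IC (Irr)
open Representation

namespace GcdP

section

variable {K Γ C E : Type} [Group K] [Finite K] [Group Γ] [Finite Γ] [CommGroup C] [Finite C]
  [Group E] [Finite E] {U V : Type} [AddCommGroup U] [Module ℂ U] [FiniteDimensional ℂ U]
  [AddCommGroup V] [Module ℂ V] [FiniteDimensional ℂ V]
  (π : E →* Γ) (s : K →* E) (ρ : Representation ℂ E U) (R : Representation ℂ (Γ × C) V)

/-- the representation on `Hom(U, V)` -/
def Lam : Representation ℂ (E × C) (U →ₗ[ℂ] V) :=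
  linHom (MonoidHom.comp ρ (MonoidHom.fst E C)) (MonoidHom.comp R (π.prodMap (MonoidHom.id C)))

theorem Lam_apply (x : E × C) (f : U →ₗ[ℂ] V) :
    Lam π ρ R x f = R (π x.1, x.2) ∘ₗ f ∘ₗ ρ x.1⁻¹ := rfl

theorem Lam_char (x : E × C) :
    (Lam π ρ R).character x = ρ.character x.1⁻¹ * R.character (π x.1, x.2) := by
  unfold Lam
  rw [char_linHom]
  rfl

/-- twisted restriction to `K × C` -/
def Lk (ψ : AddChar (Additive C) ℂ) : Representation ℂ (K × C) (U →ₗ[ℂ] V) where
  toFun x := ψ (-(Additive.ofMul x.2)) • Lam π ρ R (s x.1, x.2)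
  map_one' := by
    show ψ (-(Additive.ofMul (1 : C))) • Lam π ρ R (s 1, 1) = 1
    have h1 : (s 1, (1 : C)) = 1 := Prod.ext (map_one s) rfl
    rw [h1, ofMul_one, neg_zero, AddChar.map_zero_eq_one, one_smul]
    exact map_one _
  map_mul' x y := by
    show ψ (-(Additive.ofMul (x.2 * y.2))) • Lam π ρ R (s (x.1 * y.1), x.2 * y.2) =
      (ψ (-(Additive.ofMul x.2)) • Lam π ρ R (s x.1, x.2)) *
        (ψ (-(Additive.ofMul y.2)) • Lam π ρ R (s y.1, y.2))
    have h1 : Lam π ρ R (s (x.1 * y.1), x.2 * y.2) =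
        Lam π ρ R (s x.1, x.2) * Lam π ρ R (s y.1, y.2) := by
      have h2 := map_mul (Lam π ρ R) (s x.1, x.2) (s y.1, y.2)
      rw [← h2, map_mul s]
      rfl
    rw [smul_mul_smul_comm, h1, ofMul_mul, neg_add, AddChar.map_add_eq_mul]

/-- the isotypic part -/
def W (ψ : AddChar (Additive C) ℂ) : Submodule ℂ (U →ₗ[ℂ] V) := invariants (Lk π s ρ R ψ)

theorem mem_W (ψ : AddChar (Additive C) ℂ) (f : U →ₗ[ℂ] V) :
    f ∈ W π s ρ R ψ ↔ ∀ k c, ψ (-(Additive.ofMul c)) • Lam π ρ R (s k, c) f = f := by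
  constructor
  · intro h k c
    exact h (k, c)
  · intro h x
    exact h x.1 x.2

theorem Lk_char (ψ : AddChar (Additive C) ℂ) (x : K × C) :
    (Lk π s ρ R ψ).character x =
      ψ (-(Additive.ofMul x.2)) * (ρ.character (s x.1⁻¹) * R.character (π (s x.1), x.2)) := by
  show LinearMap.trace ℂ _ (ψ (-(Additive.ofMul x.2)) • Lam π ρ R (s x.1, x.2)) = _
  rw [map_smul, smul_eq_mul]
  congr 1
  refine (Lam_char π ρ R (s x.1, x.2)).trans ?_
  rw [map_inv]

theorem sum_b (c : C) : ∑ ψ : AddChar (Additive C) ℂ,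
    ψ (Additive.ofMul c) * (Module.finrank ℂ (W π s ρ R ψ) : ℂ) =
      pr (fun k => R.character (π (s k), c)) (fun k => ρ.character (s k)) := by
  haveI := Fintype.ofFinite K
  haveI := Fintype.ofFinite C
  haveI : Invertible (Nat.card (K × C) : ℂ) := invertibleOfNonzero (by
    exact_mod_cast Nat.card_pos.ne')
  have h1 : ∀ ψ : AddChar (Additive C) ℂ, (Module.finrank ℂ (W π s ρ R ψ) : ℂ) =
      (Nat.card (K × C) : ℂ)⁻¹ * ∑ x : K × C,
        ψ (-(Additive.ofMul x.2)) * (ρ.character (s x.1⁻¹) * R.character (π (s x.1), x.2)) := by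
    intro ψ
    rw [W, ← card_inv_mul_sum_char_eq_finrank]
    simp only [Lk_char]
  have h2 : ∀ c' : C, ∑ ψ : AddChar (Additive C) ℂ, ψ (Additive.ofMul c) *
      ψ (-(Additive.ofMul c')) = if c = c' then (Fintype.card C : ℂ) else 0 := by
    intro c'
    have h3 := AddChar.sum_apply_eq_ite (Additive.ofMul c - Additive.ofMul c')
    have h4 : ∀ ψ : AddChar (Additive C) ℂ, ψ (Additive.ofMul c) * ψ (-(Additive.ofMul c')) =
        ψ (Additive.ofMul c - Additive.ofMul c') := by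
      intro ψ
      rw [← AddChar.map_add_eq_mul, sub_eq_add_neg]
    simp only [h4]
    rw [h3]
    by_cases hcc : c = c'
    · rw [if_pos hcc, if_pos (by rw [hcc, sub_self])]
      congr 1
      exact Fintype.card_congr Additive.toMul
    · rw [if_neg hcc, if_neg]
      intro h
      exact hcc (Additive.ofMul.injective (sub_eq_zero.1 h))
  simp only [h1]
  rw [pr_eq]
  unfold IC.B
  have h5 : ∀ ψ : AddChar (Additive C) ℂ, ψ (Additive.ofMul c) * ((Nat.card (K × C) : ℂ)⁻¹ *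
      ∑ x : K × C, ψ (-(Additive.ofMul x.2)) *
        (ρ.character (s x.1⁻¹) * R.character (π (s x.1), x.2))) =
      ∑ x : K × C, (ψ (Additive.ofMul c) * ψ (-(Additive.ofMul x.2))) *
        ((Nat.card (K × C) : ℂ)⁻¹ * (ρ.character (s x.1⁻¹) * R.character (π (s x.1), x.2))) := by
    intro ψ
    rw [Finset.mul_sum, Finset.mul_sum]
    refine Finset.sum_congr rfl fun x _ => ?_
    ring
  simp only [h5]
  rw [Finset.sum_comm]
  simp only [← Finset.sum_mul, h2]
  rw [Fintype.sum_prod_type, Finset.mul_sum]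
  refine Finset.sum_congr rfl fun k _ => ?_
  rw [Finset.sum_eq_single c]
  · rw [if_pos rfl, Nat.card_prod, Nat.card_eq_fintype_card, Nat.card_eq_fintype_card]
    have h6 : (Fintype.card C : ℂ) ≠ 0 := by exact_mod_cast Fintype.card_ne_zero
    have h7 : (Fintype.card K : ℂ) ≠ 0 := by exact_mod_cast Fintype.card_ne_zero
    push_cast
    field_simp
  · intro c' _ hc'
    rw [if_neg (Ne.symm hc'), zero_mul]
  · intro h
    exact absurd (Finset.mem_univ c) h

theorem W_stable (hn : s.range.Normal) (ψ : AddChar (Additive C) ℂ) (e : E) :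
    W π s ρ R ψ ≤ (W π s ρ R ψ).comap ((MonoidHom.comp (Lam π ρ R) (MonoidHom.inl E C) :
      Representation ℂ E (U →ₗ[ℂ] V)) e) := by
  intro f hf
  rw [Submodule.mem_comap, mem_W]
  rw [mem_W] at hf
  intro k c
  obtain ⟨k', hk'⟩ := hn.conj_mem (s k) ⟨k, rfl⟩ e⁻¹
  rw [inv_inv] at hk'
  show ψ (-(Additive.ofMul c)) • Lam π ρ R (s k, c) (Lam π ρ R (e, 1) f) = Lam π ρ R (e, 1) f
  have h1 : Lam π ρ R (s k, c) (Lam π ρ R (e, 1) f) = Lam π ρ R (e, 1) (Lam π ρ R (s k', c) f) := by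
    rw [← Module.End.mul_apply, ← Module.End.mul_apply, ← map_mul, ← map_mul]
    congr 2
    ext1
    · show s k * e = e * s k'
      rw [hk']
      group
    · show c * 1 = 1 * c
      rw [mul_one, one_mul]
  rw [h1, ← map_smul, hf]

/-- the action of `E` on the isotypic part -/
def Ws (hn : s.range.Normal) (ψ : AddChar (Additive C) ℂ) : Representation ℂ E (W π s ρ R ψ) :=
  subrepresentation (MonoidHom.comp (Lam π ρ R) (MonoidHom.inl E C)) (W π s ρ R ψ)
    (W_stable π s ρ R hn ψ)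

theorem Ws_apply (hn : s.range.Normal) (ψ : AddChar (Additive C) ℂ) (e : E) (f : W π s ρ R ψ) :
    (Ws π s ρ R hn ψ e f : U →ₗ[ℂ] V) = Lam π ρ R (e, 1) f := rfl

theorem exists_det (hn : s.range.Normal) (lam : π.ker →* ℂˣ)
    (hlam : ∀ (a : π.ker) (v : U), ρ a v = (((lam a)⁻¹ : ℂˣ) : ℂ) • v)
    (ψ : AddChar (Additive C) ℂ) : ∃ ν : E →* ℂˣ, (∀ k, ν (s k) = 1) ∧
      ∀ a : π.ker, ν a = lam a ^ (Module.finrank ℂ (W π s ρ R ψ)) := by
  let ν : E →* ℂˣ := MonoidHom.toHomUnits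
    (MonoidHom.comp (LinearMap.det : (W π s ρ R ψ →ₗ[ℂ] W π s ρ R ψ) →* ℂ) (Ws π s ρ R hn ψ))
  have hν : ∀ e, (ν e : ℂ) = LinearMap.det (Ws π s ρ R hn ψ e) := fun e => rfl
  refine ⟨ν, fun k => ?_, fun a => ?_⟩
  · apply Units.ext
    rw [hν, Units.val_one]
    have h1 : Ws π s ρ R hn ψ (s k) = LinearMap.id := by
      refine LinearMap.ext fun f => Subtype.ext ?_
      rw [Ws_apply]
      have h2 := (mem_W π s ρ R ψ f.1).1 f.2 k 1
      rw [ofMul_one, neg_zero, AddChar.map_zero_eq_one, one_smul] at h2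
      exact h2
    rw [h1, LinearMap.det_id]
  · apply Units.ext
    rw [hν, Units.val_pow_eq_pow_val]
    have h1 : Ws π s ρ R hn ψ (a : E) = (lam a : ℂ) • LinearMap.id := by
      refine LinearMap.ext fun f => Subtype.ext ?_
      rw [Ws_apply, Lam_apply]
      refine LinearMap.ext fun v => ?_
      have h2 : π (a : E) = 1 := MonoidHom.mem_ker.1 a.2
      show R (π (a : E), 1) (f.1 (ρ (a : E)⁻¹ v)) = (lam a : ℂ) • f.1 v
      have h3 := hlam a⁻¹ v
      rw [map_inv, inv_inv, Subgroup.coe_inv] at h3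
      rw [h2, h3, map_smul]
      have h4 : R ((1 : Γ), (1 : C)) = 1 := map_one R
      rw [h4]
      rfl
    rw [h1, LinearMap.det_smul, LinearMap.det_id, mul_one]

end

/-- the arithmetic -/
theorem arith {ι : Type} [Fintype ι] (z : ι → ℂ) (hz : ∀ i, IsIntegral ℤ (z i)) (b : ι → ℕ) (ε : ℤ)
    (hε : ε = 1 ∨ ε = -1) (h : ∑ i, z i * (b i : ℂ) = ε) (d : ℤ) (hd : ∀ i, d ∣ (b i : ℤ)) :
    d ∣ 1 := by
  choose m hm using hd
  have h1 : (d : ℂ) * ∑ i, z i * (m i : ℂ) = ε := by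
    rw [← h, Finset.mul_sum]
    refine Finset.sum_congr rfl fun i _ => ?_
    have h2 : (b i : ℂ) = d * m i := by exact_mod_cast hm i
    rw [h2]
    ring
  have h2 : IsIntegral ℤ (∑ i, z i * (m i : ℂ)) :=
    IsIntegral.sum _ fun i _ => (hz i).mul (by
      have : IsIntegral ℤ (algebraMap ℤ ℂ (m i)) := isIntegral_algebraMap
      simpa using this)
  have hd0 : (d : ℂ) ≠ 0 := by
    intro h0
    rw [h0, zero_mul] at h1
    rcases hε with h3 | h3
    · rw [h3] at h1; norm_num at h1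
    · rw [h3] at h1; norm_num at h1
  have h3 : ∑ i, z i * (m i : ℂ) = algebraMap ℚ ℂ ((ε : ℚ) / d) := by
    rw [eq_comm, map_div₀, map_intCast, map_intCast, div_eq_iff hd0, ← h1]
    ring
  rw [h3] at h2
  have h4 : IsIntegral ℤ ((ε : ℚ) / d) :=
    (isIntegral_algebraMap_iff (algebraMap ℚ ℂ).injective).1 h2
  obtain ⟨n, hn⟩ := IsIntegrallyClosed.isIntegral_iff.1 h4
  have hd1 : (d : ℚ) ≠ 0 := by exact_mod_cast hd0
  have h5 : (ε : ℚ) = d * n := by
    rw [eq_comm, mul_comm, ← eq_div_iff hd1]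
    simpa using hn
  have h6 : ε = d * n := by exact_mod_cast h5
  rcases hε with h7 | h7
  · exact ⟨n, by rw [← h6, h7]⟩
  · exact ⟨-n, by rw [mul_neg, ← h6, h7]; norm_num⟩

end GcdP

open GcdP in
theorem gcd : GCD := by
  intro K Γ C _ _ _ _ _ _ j hj hn θ hθ hinv Ω hΩ c ε hε hpr
  obtain ⟨V, i1, i2, i3, R, rfl⟩ := hΩ
  obtain ⟨E, j1, j2, π, s, U, k1, k2, k3, ρ, lam, h1, h2, h3, h4, h5, h6, h7⟩ :=
    Pool.Agent.K3h85.IN.t_S3a K Γ j hj hn θ hθ hinv
  -- Bezout
  let B : AddSubgroup ℤ :=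
    { carrier := {n | ∃ ν : E →* ℂˣ, (∀ k, ν (s k) = 1) ∧ ∀ a : π.ker, ν a = lam a ^ n}
      zero_mem' := ⟨1, fun k => rfl, fun a => by simp⟩
      add_mem' := by
        rintro m n ⟨ν, hν1, hν2⟩ ⟨ν', hν1', hν2'⟩
        refine ⟨ν * ν', fun k => ?_, fun a => ?_⟩
        · rw [MonoidHom.mul_apply, hν1, hν1', mul_one]
        · rw [MonoidHom.mul_apply, hν2, hν2', zpow_add]
      neg_mem' := by
        rintro m ⟨ν, hν1, hν2⟩
        refine ⟨ν⁻¹, fun k => ?_, fun a => ?_⟩
        · rw [MonoidHom.inv_apply, hν1, inv_one]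
        · rw [MonoidHom.inv_apply, hν2, zpow_neg] }
  have hB : ∀ ψ : AddChar (Additive C) ℂ, (Module.finrank ℂ (W π s ρ R ψ) : ℤ) ∈ B := by
    intro ψ
    obtain ⟨ν, hν1, hν2⟩ := exists_det π s ρ R h3 lam h7 ψ
    exact ⟨ν, hν1, fun a => by rw [hν2, zpow_natCast]⟩
  have hone : (1 : ℤ) ∈ B := by
    obtain ⟨d, hd⟩ := Int.subgroup_cyclic B
    have hmem : ∀ n : ℤ, n ∈ B ↔ d ∣ n := by
      intro n
      rw [hd, ← AddSubgroup.zmultiples_eq_closure, Int.mem_zmultiples_iff]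
    rw [hmem]
    refine arith (fun ψ : AddChar (Additive C) ℂ => ψ (Additive.ofMul c)) (fun ψ => ?_)
      (fun ψ => Module.finrank ℂ (W π s ρ R ψ)) ε hε ?_ d (fun ψ => (hmem _).1 (hB ψ))
    · have h8 : (ψ (Additive.ofMul c)) ^ (Nat.card C) = 1 := by
        rw [← AddChar.map_nsmul_eq_pow]
        have h9 : Nat.card C • Additive.ofMul c = 0 := by
          rw [← ofMul_pow, pow_card_eq_one', ofMul_one]
        rw [h9, AddChar.map_zero_eq_one]
      refine IsIntegral.of_pow (n := Nat.card C) Nat.card_pos ?_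
      rw [h8]
      exact isIntegral_one
    · rw [sum_b, ← hpr]
      congr 1
      · funext k
        rw [h2]
      · funext k
        rw [h6]
  obtain ⟨ν, hν1, hν2⟩ := hone
  -- the representation of `Γ`
  let T : E → Module.End ℂ U := fun e => (ν e : ℂ) • ρ e
  have hTm : ∀ e e', T (e * e') = T e * T e' := by
    intro e e'
    show ((ν (e * e') : ℂˣ) : ℂ) • ρ (e * e') = ((ν e : ℂ) • ρ e) * ((ν e' : ℂ) • ρ e')
    rw [smul_mul_smul_comm, map_mul, map_mul, Units.val_mul]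
  have hTk : ∀ a : π.ker, T a = 1 := by
    intro a
    refine LinearMap.ext fun v => ?_
    show ((ν (a : E) : ℂˣ) : ℂ) • ρ (a : E) v = v
    rw [h7, hν2, zpow_one, smul_smul, ← Units.val_mul, mul_inv_cancel, Units.val_one, one_smul]
  have hT : ∀ e e', π e = π e' → T e = T e' := by
    intro e e' h
    have h8 : e'⁻¹ * e ∈ π.ker := by
      rw [MonoidHom.mem_ker, map_mul, map_inv, h, inv_mul_cancel]
    have h9 := hTk ⟨_, h8⟩
    calc T e = T (e' * (e'⁻¹ * e)) := by rw [mul_inv_cancel_left]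
      _ = T e' := by rw [hTm, show T (e'⁻¹ * e) = 1 from h9, mul_one]
  choose g hg using h1
  let R' : Representation ℂ Γ U :=
    { toFun := fun x => T (g x)
      map_one' := by
        rw [hT (g 1) 1 (by rw [hg, map_one])]
        show ((ν 1 : ℂˣ) : ℂ) • ρ 1 = 1
        rw [map_one, map_one, Units.val_one, one_smul]
      map_mul' := fun x y => by
        rw [← hTm]
        apply hT
        rw [hg, map_mul, hg, hg] }
  have hR' : ∀ k, R'.character (j k) = θ k := by
    intro k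
    show LinearMap.trace ℂ U (T (g (j k))) = θ k
    rw [hT (g (j k)) (s k) (by rw [hg, h2]), ← h6]
    show LinearMap.trace ℂ U (((ν (s k) : ℂˣ) : ℂ) • ρ (s k)) = _
    rw [hν1, Units.val_one, one_smul]
    rfl
  haveI := Fintype.ofFinite K
  haveI := Fintype.ofFinite Γ
  obtain ⟨ξ, hξ, _, hξ2⟩ := exists_const j (Φ := R'.character) ⟨U, k1, k2, k3, R', rfl⟩ hθ (by
    simp only [hR']
    rw [IC.B_irr hθ hθ, if_pos rfl])
  exact ⟨ξ, hξ, restrict_eq j hj hn hθ hinv hξ hξ2⟩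

end Pool.Agent.ZH17.RD
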