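import Pool.Agent.ZH17.RD.GlaE

/-!
# Piece GLA of project RD
-/

set_option autoImplicit false
set_option linter.unusedSectionVars false
set_option linter.style.haveILetI false

open scoped BigOperators Classical

noncomputable section

namespace Pool.Agent.ZH17.RD

open Pool.Agent.Helper884 Pool.Agent.K3h3.KB Pool.Agent.K3h3.MK Pool.Agent.K3h83.IN
open Pool.Agent.H254R3.IN (IsIrr mem_Irr schur irr_nontrivial scalar_inj)
open Pool.Agent.K3h18.IN (irr_infl B_infl)
open Pool.Agent.Q99.AS (ten ten_irr B_ten)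
open IC (Irr)
open Representation SemidirectProduct

namespace GlaP

theorem ndeg_ne {G : Type} [Group G] [Finite G] {p : ℕ} [hp : Fact p.Prime]
    (hG : ¬ p ∣ Nat.card G) {χ : G → ℂ} (hχ : IsIrr χ) : (ndeg χ : ZMod p) ≠ 0 := by
  haveI := Fintype.ofFinite G
  intro h
  rw [ZMod.natCast_eq_zero_iff] at h
  exact hG (h.trans (Pool.Agent.Y63.AWC.deg_dvd hχ (ndeg_cast hχ).symm))

end GlaP

open GlaP in
/-- **Piece GLA** -/
theorem gla : GLA := by
  intro p _ N _ _ hN d hd
  have hp : Fact p.Prime := inferInstance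
  haveI := Fintype.ofFinite N
  haveI : Fintype (Md d) := Fintype.ofFinite _
  have hM : ¬ p ∣ Nat.card (Md d) := fun h => hN (h.trans (Subgroup.card_subgroup_dvd_card _))
  let Y : Type := {χ : X p N // ∀ n, χ.1 (d n) = χ.1 n}
  haveI : Fintype Y := Fintype.ofFinite _
  have hloc := fun y : Y => local_all d hd hN y.1.1 y.1.2.1 y.2
  choose ψ ε hψ hε hdat hcong Ω hΩ hΩv using hloc
  -- the bijection
  let b : Y → X p (Md d) := fun y => ⟨ψ y, hψ y, ndeg_ne hM (hψ y)⟩
  have hbi : Function.Injective b := by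
    intro y y' h
    have h1 : ψ y = ψ y' := congrArg Subtype.val h
    refine Subtype.ext (Subtype.ext ?_)
    refine dat_inj d hd hN (hψ y) (hε y) (hε y') (hdat y) ?_
    rw [h1]
    exact hdat y'
  have hcard : Nat.card Y = Nat.card (X p (Md d)) := by
    have h1 := card_inv d hN hd
    have h2 : Nat.card Y = ((Irr N).filter fun χ => ∀ n, χ (d n) = χ n).card := by
      rw [← Fintype.card_coe, ← Nat.card_eq_fintype_card]
      exact Nat.card_congr
        { toFun := fun y => ⟨y.1.1, Finset.mem_filter.2 ⟨mem_Irr.mpr y.1.2.1, y.2⟩⟩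
          invFun := fun χ => ⟨⟨χ.1, mem_Irr.mp (Finset.mem_filter.1 χ.2).1,
            ndeg_ne hN (mem_Irr.mp (Finset.mem_filter.1 χ.2).1)⟩, (Finset.mem_filter.1 χ.2).2⟩
          left_inv := fun y => rfl
          right_inv := fun χ => rfl }
    have h3 : Nat.card (X p (Md d)) = (Irr (Md d)).card := by
      rw [← Fintype.card_coe, ← Nat.card_eq_fintype_card]
      exact Nat.card_congr
        { toFun := fun y => ⟨y.1, mem_Irr.mpr y.2.1⟩
          invFun := fun χ => ⟨χ.1, mem_Irr.mp χ.2, ndeg_ne hM (mem_Irr.mp χ.2)⟩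
          left_inv := fun y => rfl
          right_inv := fun χ => rfl }
    rw [h2, h3, h1]
  have hbb : Function.Bijective b := by
    rw [Fintype.bijective_iff_injective_and_card, ← Nat.card_eq_fintype_card,
      ← Nat.card_eq_fintype_card]
    exact ⟨hbi, hcard⟩
  let β : Y ≃ X p (Md d) := Equiv.ofBijective b hbb
  have hβ : ∀ y, (β y).1 = ψ y := fun y => rfl
  -- the normal subgroup and its characters
  let K : Subgroup (N ⋊[(Cd d).subtype] Cd d) := (qC d).range
  let q' : N × Md d →* K := (qC d).rangeRestrict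
  have hq's : Function.Surjective q' := (qC d).rangeRestrict_surjective
  haveI : Finite K := inferInstance
  have hψi : ∀ y : Y, IsIrr fun m : Md d => ψ y m⁻¹ := fun y => irr_inv (hψ y)
  have hten : ∀ y : Y, IsIrr (ten y.1.1 fun m : Md d => ψ y m⁻¹) := fun y =>
    ten_irr y.1.2.1 (hψi y)
  have hdes : ∀ y : Y, ∃ χ : X p K, ∀ x, χ.1 (q' x) = ten y.1.1 (fun m : Md d => ψ y m⁻¹) x := by
    intro y
    refine desc q' hq's (hten y) ?_ ?_
    · rintro ⟨n, m⟩ hx ⟨n', m'⟩
      have h1 : qC d (n, m) = 1 := congrArg Subtype.val hx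
      have h2 : n = m := by
        have h3 : n * (m : N)⁻¹ = 1 := congrArg SemidirectProduct.left h1
        exact mul_inv_eq_one.1 h3
      have h3 : (m : N) ∈ Subgroup.center N := by
        have h4 : MulAut.conj (m : N) = 1 := congrArg (fun x : N ⋊[(Cd d).subtype] Cd d =>
          (x.right : MulAut N)) h1
        rw [Subgroup.mem_center_iff]
        intro g
        have h5 : (m : N) * g * (m : N)⁻¹ = g := congrArg (fun f : MulAut N => f g) h4
        nth_rewrite 1 [← h5]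
        group
      have h4 : m ∈ Subgroup.center (Md d) := by
        rw [Subgroup.mem_center_iff]
        intro g
        exact Subtype.ext (Subgroup.mem_center_iff.1 h3 g)
      show y.1.1 (n * n') * ψ y (m * m')⁻¹ = y.1.1 n' * ψ y m'⁻¹
      rw [h2, cc_mul y.1.2.1 h3, mul_inv_rev]
      have h5 : m⁻¹ ∈ Subgroup.center (Md d) := inv_mem h4
      have h6 : m'⁻¹ * m⁻¹ = m⁻¹ * m'⁻¹ := (Subgroup.mem_center_iff.1 h5 _)
      rw [h6, cc_mul (hψ y) h5]
      have h7 := dat_center d hd (hε y) (hdat y) m h3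
      have h8 := cc_mul (hψ y) h5 m
      rw [inv_mul_cancel] at h8
      have h9 : y.1.1 1 ≠ 0 := irr_ne y.1.2.1
      have h10 : ψ y 1 ≠ 0 := irr_ne (hψ y)
      have h11 : ψ y m⁻¹ / ψ y 1 * (y.1.1 m / y.1.1 1) = 1 := by
        have h12 : y.1.1 m / y.1.1 1 = ψ y m / ψ y 1 := by
          rw [div_eq_div_iff h9 h10]
          exact h7.symm
        rw [h12, ← mul_div_assoc, ← h8, div_self h10]
      calc y.1.1 m / y.1.1 1 * y.1.1 n' * (ψ y m⁻¹ / ψ y 1 * ψ y m'⁻¹)
          = (ψ y m⁻¹ / ψ y 1 * (y.1.1 m / y.1.1 1)) * (y.1.1 n' * ψ y m'⁻¹) := by ring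
        _ = _ := by rw [h11, one_mul]
    · have h1 : ndeg (ten y.1.1 fun m : Md d => ψ y m⁻¹) = ndeg y.1.1 * ndeg (ψ y) := by
        rw [ndeg_ten y.1.2.1 (hψi y)]
        congr 1
        unfold ndeg
        simp only [inv_one]
      rw [h1, Nat.cast_mul]
      exact mul_ne_zero y.1.2.2 (ndeg_ne hM (hψ y))
  choose κ hκ using hdes
  have hKS : ∀ y : Y, K ≤ StC d y.1.1 := by
    rintro y _ ⟨x, rfl⟩
    exact qC_mem_St d y.1.2.1 x
  let jT : ∀ y : Y, K →* StC d y.1.1 := fun y => Subgroup.inclusion (hKS y)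
  have hKn : K.Normal := by
    refine ⟨?_⟩
    rintro _ ⟨⟨n, m⟩, rfl⟩ x
    rw [qC_conj]
    exact ⟨_, rfl⟩
  have hΩκ : ∀ (y : Y) (k : K), Ω y (jT y k, c1 p) = ε y * (κ y).1 k := by
    intro y k
    obtain ⟨⟨n, m⟩, rfl⟩ := hq's k
    rw [hκ]
    exact hΩv y n m _
  have hεε : ∀ y : Y, (ε y : ℂ) * ε y = 1 := by
    intro y
    rcases hε y with h | h <;> rw [h] <;> norm_num
  have hfix : ∀ (y : Y) (x : StC d y.1.1), fixes (jT y) (κ y).1 x := by
    intro y x k k' h
    have h1 : Ω y (jT y k', c1 p) = Ω y (jT y k, c1 p) := by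
      have h2 := rc_class (hΩ y) (jT y k, c1 p) (x, 1)
      rw [← h2]
      congr 1
      refine Prod.ext h.symm ?_
      show c1 p = 1 * c1 p * 1⁻¹
      rw [one_mul, inv_one, mul_one]
    rw [hΩκ, hΩκ] at h1
    have h2 := congrArg (fun z => (ε y : ℂ) * z) h1
    simp only [← mul_assoc, hεε, one_mul] at h2
    exact h2
  have hext : ∀ y : Y, ∃ ξ : StC d y.1.1 → ℂ, IsIrr ξ ∧ ∀ k, ξ (jT y k) = (κ y).1 k := by
    intro y
    refine gcd K (StC d y.1.1) (Multiplicative (ZMod p)) (jT y) ?_ ?_ (κ y).1 (κ y).2.1 (hfix y)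
      (Ω y) (hΩ y) (c1 p) (ε y) (hε y) ?_
    · exact Subgroup.inclusion_injective _
    · refine ⟨?_⟩
      rintro _ ⟨k, rfl⟩ x
      obtain ⟨k', hk'⟩ : ∃ k' : K, (k' : N ⋊[(Cd d).subtype] Cd d) = x * k * (x : N ⋊[(Cd d).subtype] Cd d)⁻¹ :=
        ⟨⟨_, hKn.conj_mem _ k.2 x⟩, rfl⟩
      exact ⟨k', Subtype.ext hk'⟩
    · haveI := Fintype.ofFinite K
      have h1 : (fun k => Ω y (jT y k, c1 p)) = (ε y : ℂ) • (κ y).1 := by
        funext k
        exact hΩκ y k
      rw [h1, pr_eq, IC.B_smul_left, IC.B_irr (κ y).2.1 (κ y).2.1, if_pos rfl, mul_one]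
  choose ξ hξ hξk using hext
  have hκinj : Function.Injective fun y => (κ y).1 := by
    intro y y' h
    have h1 : ten y.1.1 (fun m : Md d => ψ y m⁻¹) = ten y'.1.1 (fun m : Md d => ψ y' m⁻¹) := by
      funext x
      rw [← hκ, ← hκ]
      exact congrFun h _
    have h2 := B_ten y.1.1 y'.1.1 (fun m : Md d => ψ y m⁻¹) (fun m : Md d => ψ y' m⁻¹)
    rw [h1, IC.B_irr (hten y') (hten y'), if_pos rfl] at h2
    have h4 : y.1.1 = y'.1.1 := by
      by_contra hne
      rw [IC.B_irr y.1.2.1 y'.1.2.1, if_neg hne, zero_mul] at h2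
      exact one_ne_zero h2
    exact Subtype.ext (Subtype.ext h4)
  -- the action
  let ya : Cd d → Y → Y := fun a y => ⟨⟨fun n => y.1.1 ((a : MulAut N) n), by
    refine ⟨Pool.Agent.Q90.WR.irr_comp ((a : MulAut N) : N ≃* N) y.1.2.1, ?_⟩
    have h : ndeg (fun n => y.1.1 ((a : MulAut N) n)) = ndeg y.1.1 := by
      unfold ndeg
      simp only [map_one]
    rw [h]
    exact y.1.2.2⟩, by
    intro n
    show y.1.1 ((a : MulAut N) (d n)) = y.1.1 ((a : MulAut N) n)
    have h : (a : MulAut N) (d n) = d ((a : MulAut N) n) :=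
      congrArg (fun f : MulAut N => f n) a.2.1
    rw [h, y.2]⟩
  have hya : ∀ (a : Cd d) (y : Y) (n : N), (ya a y).1.1 n = y.1.1 ((a : MulAut N) n) :=
    fun _ _ _ => rfl
  have hequi : ∀ (a : Cd d) (y : Y) (m : Md d), ψ (ya a y) m = ψ y (rM d a m) := by
    intro a y m
    refine equi d (hε y) (hψ y) ?_ a (hcong (ya a y)) m
    obtain ⟨k, hk⟩ := hcong y (ψ y) (hψ y)
    rw [if_pos rfl] at hk
    exact ⟨k, hk⟩
  have hst : ∀ (x : N ⋊[(Cd d).subtype] Cd d) (y : Y) (k k' : K),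
      x * K.subtype k * x⁻¹ = K.subtype k' → (κ (ya (x.right)⁻¹ y)).1 k' = (κ y).1 k := by
    intro x y k k' h
    obtain ⟨⟨n, m⟩, rfl⟩ := hq's k
    have h1 : k' = q' (x.left * (x.right : MulAut N) n * (x.left)⁻¹, rM d x.right m) := by
      apply Subtype.ext
      exact h.symm.trans (qC_conj d x n m)
    rw [h1, hκ, hκ]
    show (ya (x.right)⁻¹ y).1.1 (x.left * (x.right : MulAut N) n * (x.left)⁻¹) *
      ψ (ya (x.right)⁻¹ y) (rM d x.right m)⁻¹ = y.1.1 n * ψ y m⁻¹
    rw [hequi]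
    congr 1
    · rw [rc_class (rc_irr (ya (x.right)⁻¹ y).1.2.1) ((x.right : MulAut N) n) x.left, hya]
      exact congrArg y.1.1 (MulAut.inv_apply_self N (x.right : MulAut N) n)
    · congr 1
      apply Subtype.ext
      rw [← map_inv]
      exact MulAut.inv_apply_self N (x.right : MulAut N) ((m⁻¹ : Md d) : N)
  have hmemSt : ∀ (y : Y) (x : N ⋊[(Cd d).subtype] Cd d),
      x ∈ StC d y.1.1 ↔ fixes K.subtype (κ y).1 x := by
    intro y x
    have hx : x ∈ StC d y.1.1 ↔ ya (x.right)⁻¹ y = y := by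
      rw [mem_StC]
      constructor
      · intro h
        refine Subtype.ext (Subtype.ext (funext fun r => ?_))
        show y.1.1 ((x.right : MulAut N)⁻¹ r) = y.1.1 r
        rw [← h, MulAut.apply_inv_self]
      · intro h r
        have h1 := congrFun (congrArg (fun z : Y => z.1.1) h) ((x.right : MulAut N) r)
        change y.1.1 ((x.right : MulAut N)⁻¹ ((x.right : MulAut N) r)) =
          y.1.1 ((x.right : MulAut N) r) at h1
        rw [MulAut.inv_apply_self] at h1
        exact h1.symm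
    rw [hx]
    constructor
    · intro h k k' hk
      have h1 := hst x y k k' hk
      rwa [h] at h1
    · intro h
      apply hκinj
      funext k'
      obtain ⟨k, hk⟩ : ∃ k : K, (k : N ⋊[(Cd d).subtype] Cd d) = x⁻¹ * k' * x := by
        have h1 := hKn.conj_mem _ k'.2 x⁻¹
        rw [inv_inv] at h1
        exact ⟨⟨_, h1⟩, rfl⟩
      have h2 : x * K.subtype k * x⁻¹ = K.subtype k' := by
        show x * (k : N ⋊[(Cd d).subtype] Cd d) * x⁻¹ = k'
        rw [hk]
        group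
      show (κ (ya (x.right)⁻¹ y)).1 k' = (κ y).1 k'
      rw [hst x y _ _ h2, h _ _ h2]
  obtain ⟨ω, hω, hωk⟩ := glu K (N ⋊[(Cd d).subtype] Cd d) Y K.subtype
    K.subtype_injective (by rw [Subgroup.range_subtype]; exact hKn) (fun y => (κ y).1)
    (fun y => (κ y).2.1) hκinj (fun x y => ⟨_, fun k k' h => hst x y k k' h⟩)
    (fun y => ⟨StC d y.1.1, jT y, ξ y, hmemSt y, fun k => rfl, rc_irr (hξ y), hξk y⟩)
  refine ⟨β, ω, hω, fun y => ?_, fun y z hz => ?_, fun n m a ha => ?_⟩
  · exact dat_deg d y.1.2.1 (hψ y) (hε y) (hcong y)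
  · exact dat_center d hd (hε y) (hdat y) z hz
  · have h1 : (⟨n * (m : N)⁻¹, a⟩ : N ⋊[(Cd d).subtype] Cd d) = K.subtype (q' (n, m)) := by
      have h2 : a = cjm d m := Subtype.ext ha
      rw [h2]
      rfl
    rw [h1, hωk, finsum_eq_sum_of_fintype]
    refine Finset.sum_congr rfl fun y _ => ?_
    exact hκ y (n, m)

end Pool.Agent.ZH17.RD
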