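import Pool.Agent.ZH17.RD.LbA

/-!
# Piece LB of project RD: extension of the character to the stabiliser
-/

set_option autoImplicit false
set_option linter.unusedSectionVars false
set_option linter.style.haveILetI false

open scoped BigOperators Classical TensorProduct

noncomputable section

namespace Pool.Agent.ZH17.RD

open Pool.Agent.Helper884 Pool.Agent.K3h3.KB Pool.Agent.K3h3.MK Pool.Agent.K3h83.IN
open Pool.Agent.H254R3.IN (IsIrr mem_Irr schur irr_nontrivial scalar_inj)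
open Pool.Agent.K3h18.IN (irr_infl B_infl)
open Pool.Agent.Q99.AS (ten ten_irr)
open Pool.Agent.Q90.WR (Tw tw twRep twMap tw_trace irr_gal twBasis tw_smul)
open Pool.Agent.K3h85.IN (exists_unit irr_comp_surj exists_pow_aut)
open IC (Irr)
open Representation SemidirectProduct

namespace LbP

section

variable {R : Type} [Group R] [Finite R] {V : Type} [AddCommGroup V] [Module ℂ V]
  [FiniteDimensional ℂ V] (ρ : Representation ℂ R V) {O : Type} [Fintype O]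
  (Φ : MulAut R × Equiv.Perm O →* MulAut (O → R))
  (hΦ : ∀ (x : MulAut R × Equiv.Perm O) (n : O → R) (j : O), Φ x n j = x.1 (n (x.2⁻¹ j)))

/-- the action of the central extension -/
def pH : Ah ρ × Equiv.Perm O →* MulAut (O → R) :=
  Φ.comp ((aα ρ).prodMap (MonoidHom.id (Equiv.Perm O)))

theorem pH_apply (x : Ah ρ × Equiv.Perm O) : pH ρ Φ x = Φ (x.1.1.1, x.2) := rfl

/-- the map to the group of automorphisms -/
def Pm : (O → R) ⋊[pH ρ Φ] (Ah ρ × Equiv.Perm O) →* (O → R) ⋊[Φ] (MulAut R × Equiv.Perm O) where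
  toFun g := ⟨g.left, (g.right.1.1.1, g.right.2)⟩
  map_one' := rfl
  map_mul' _ _ := rfl

theorem Pm_apply (g : (O → R) ⋊[pH ρ Φ] (Ah ρ × Equiv.Perm O)) :
    Pm ρ Φ g = ⟨g.left, (g.right.1.1.1, g.right.2)⟩ := rfl

/-- the matrices -/
def Rm : R ⋊[aα ρ] Ah ρ →* Matrix (Fin (Module.finrank ℂ V)) (Fin (Module.finrank ℂ V)) ℂ :=
  ((LinearMap.toMatrixAlgEquiv (Module.finBasis ℂ V)).toAlgHom.toMonoidHom :
    (V →ₗ[ℂ] V) →* _).comp (rh ρ)

theorem Rm_apply (x : R ⋊[aα ρ] Ah ρ) : Rm ρ x =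
    LinearMap.toMatrix (Module.finBasis ℂ V) (Module.finBasis ℂ V) (rh ρ x) := rfl

theorem Rm_trace (x : R ⋊[aα ρ] Ah ρ) : (Rm ρ x).trace = (rh ρ).character x := by
  rw [Rm_apply]
  show _ = LinearMap.trace ℂ V (rh ρ x)
  rw [LinearMap.trace_eq_matrix_trace ℂ (Module.finBasis ℂ V)]

/-- the tensor power -/
def T1 (hΦ : ∀ (x : MulAut R × Equiv.Perm O) (n : O → R) (j : O), Φ x n j = x.1 (n (x.2⁻¹ j))) :
    Representation ℂ ((O → R) ⋊[pH ρ Φ] (Ah ρ × Equiv.Perm O))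
      ((O → Fin (Module.finrank ℂ V)) → ℂ) :=
  wRep (MonoidHom.snd (Ah ρ) (Equiv.Perm O)) (fun h _ => h.1) (pH ρ Φ) (fun _ _ _ => rfl)
    (fun h n j => by
      rw [pH_apply, hΦ]
      rfl) (Rm ρ)

/-- the dual of the twist -/
def T2 (τ : ℂ ≃+* ℂ) : Representation ℂ ((O → R) ⋊[pH ρ Φ] (Ah ρ × Equiv.Perm O))
    (Module.Dual ℂ (Tw τ V)) :=
  Representation.dual (MonoidHom.comp (twRep τ (rh ρ)) (SemidirectProduct.inr.comp
    ((MonoidHom.fst (Ah ρ) (Equiv.Perm O)).comp SemidirectProduct.rightHom)))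

instance finTw (τ : ℂ ≃+* ℂ) : FiniteDimensional ℂ (Tw τ V) :=
  Module.Finite.of_basis (twBasis τ (Module.finBasis ℂ V))

/-- the product -/
def TD (hΦ : ∀ (x : MulAut R × Equiv.Perm O) (n : O → R) (j : O), Φ x n j = x.1 (n (x.2⁻¹ j)))
    (τ : ℂ ≃+* ℂ) : Representation ℂ ((O → R) ⋊[pH ρ Φ] (Ah ρ × Equiv.Perm O))
      (((O → Fin (Module.finrank ℂ V)) → ℂ) ⊗[ℂ] (Module.Dual ℂ (Tw τ V))) :=
  (T1 ρ Φ hΦ).tprod (T2 ρ Φ τ)

theorem T1_ker (g : (O → R) ⋊[pH ρ Φ] (Ah ρ × Equiv.Perm O)) (h1 : g.left = 1)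
    (h2 : g.right.2 = 1) (c : ℂ) (hc : (g.right.1.1.2 : V →ₗ[ℂ] V) = c • LinearMap.id)
    (v : (O → Fin (Module.finrank ℂ V)) → ℂ) : T1 ρ Φ hΦ g v = c ^ (Fintype.card O) • v := by
  show Matrix.toLin' (wMat (MonoidHom.snd (Ah ρ) (Equiv.Perm O)) (fun h _ => h.1) (pH ρ Φ) (Rm ρ) g)
    v = _
  have h3 : Rm ρ ⟨1, g.right.1⟩ = c • (1 : Matrix (Fin (Module.finrank ℂ V))
      (Fin (Module.finrank ℂ V)) ℂ) := by
    rw [Rm_apply, rh_apply]
    show LinearMap.toMatrix _ _ (ρ 1 * (g.right.1.1.2 : V →ₗ[ℂ] V)) = _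
    rw [hc, map_one, one_mul, map_smul, LinearMap.toMatrix_id]
  have h4 : wMat (MonoidHom.snd (Ah ρ) (Equiv.Perm O)) (fun h _ => h.1) (pH ρ Φ) (Rm ρ) g =
      c ^ (Fintype.card O) • (1 : Matrix (O → Fin (Module.finrank ℂ V))
        (O → Fin (Module.finrank ℂ V)) ℂ) := by
    ext x y
    have e : wMat (MonoidHom.snd (Ah ρ) (Equiv.Perm O)) (fun h _ => h.1) (pH ρ Φ) (Rm ρ) g x y =
        ∏ j, (c • (1 : Matrix (Fin (Module.finrank ℂ V)) (Fin (Module.finrank ℂ V)) ℂ))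
          (x j) (y j) := by
      unfold wMat
      refine Finset.prod_congr rfl fun j _ => ?_
      show Rm ρ ⟨g.left j, g.right.1⟩ (x j) (y (g.right.2⁻¹ j)) = _
      rw [h1, h2, Pi.one_apply, h3, inv_one]
      rfl
    rw [e]
    simp only [Matrix.smul_apply, smul_eq_mul, Finset.prod_mul_distrib, Finset.prod_const,
      Finset.card_univ]
    congr 1
    simp only [Matrix.one_apply]
    by_cases h : x = y
    · subst h
      simp
    · rw [if_neg h]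
      obtain ⟨i, hi⟩ := Function.ne_iff.mp h
      exact Finset.prod_eq_zero (Finset.mem_univ i) (by rw [if_neg hi])
  rw [h4, map_smul, Matrix.toLin'_one]
  rfl

theorem T2_ker (τ : ℂ ≃+* ℂ) (g : (O → R) ⋊[pH ρ Φ] (Ah ρ × Equiv.Perm O)) (c : ℂ)
    (hc : (g.right.1.1.2 : V →ₗ[ℂ] V) = c • LinearMap.id) (hc0 : c ≠ 0)
    (f : Module.Dual ℂ (Tw τ V)) : T2 ρ Φ τ g f = (τ c)⁻¹ • f := by
  have h1 : rh ρ (SemidirectProduct.inr (g.right.1)⁻¹) = c⁻¹ • LinearMap.id := by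
    rw [rh_apply]
    show ρ 1 * (((g.right.1.1.2)⁻¹ : (V →ₗ[ℂ] V)ˣ) : V →ₗ[ℂ] V) = _
    rw [map_one, one_mul, Units.inv_eq_of_mul_eq_one_right]
    rw [hc]
    refine LinearMap.ext fun v => ?_
    show c • (c⁻¹ • v) = v
    rw [smul_smul, mul_inv_cancel₀ hc0, one_smul]
  refine LinearMap.ext fun v => ?_
  have h2 : T2 ρ Φ τ g f v = f (twMap τ (rh ρ (SemidirectProduct.inr (g.right.1)⁻¹)) v) := rfl
  rw [h2, h1]
  have h3 : twMap τ (c⁻¹ • (LinearMap.id : V →ₗ[ℂ] V)) v = (τ c)⁻¹ • v := by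
    show tw τ V (c⁻¹ • ((tw τ V).symm v)) = (τ c)⁻¹ • v
    rw [tw_smul, map_inv₀]
    rfl
  rw [h3, map_smul]
  rfl

theorem TD_ker (hρ : ρ.IsIrreducible) (τ : ℂ ≃+* ℂ)
    (hτ : ∀ z : ℂ, z ^ (Module.finrank ℂ V * Nat.card R) = 1 → τ z = z ^ (Fintype.card O))
    (g : (O → R) ⋊[pH ρ Φ] (Ah ρ × Equiv.Perm O)) (hg : Pm ρ Φ g = 1) :
    TD ρ Φ hΦ τ g = 1 := by
  haveI : Nontrivial V := irr_nontrivial ρ hρ
  have hdim : 0 < Module.finrank ℂ V := Module.finrank_pos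
  have h1 : g.left = 1 := congrArg SemidirectProduct.left hg
  have h2 : g.right.1.1.1 = 1 := congrArg (fun x : (O → R) ⋊[Φ] (MulAut R × Equiv.Perm O) =>
    x.right.1) hg
  have h3 : g.right.2 = 1 := congrArg (fun x : (O → R) ⋊[Φ] (MulAut R × Equiv.Perm O) =>
    x.right.2) hg
  obtain ⟨c, hc, hc1⟩ := Ah_ker ρ hρ g.right.1 h2
  have hc0 : c ≠ 0 := by
    rintro rfl
    rw [zero_pow (Nat.mul_pos hdim Nat.card_pos).ne'] at hc1
    exact zero_ne_one hc1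
  refine TensorProduct.ext' fun v f => ?_
  show (T1 ρ Φ hΦ g v) ⊗ₜ[ℂ] (T2 ρ Φ τ g f) = v ⊗ₜ[ℂ] f
  rw [T1_ker ρ Φ hΦ g h1 h3 c hc, T2_ker ρ Φ τ g c hc hc0, TensorProduct.smul_tmul_smul, hτ c hc1,
    mul_inv_cancel₀ (pow_ne_zero _ hc0), one_smul]

theorem TD_char (τ : ℂ ≃+* ℂ) {d k : ℕ} (hd : Nat.card R ∣ d)
    (hτ : ∀ z : ℂ, z ^ d = 1 → τ z = z ^ k) (n : O → R) (m : R) :
    (TD ρ Φ hΦ τ).character ⟨fun j => n j * m⁻¹, (inn ρ m, 1)⟩ =
      (∏ j, ρ.character (n j)) * ρ.character (m⁻¹ ^ k) := by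
  have h1 : (TD ρ Φ hΦ τ).character = (T1 ρ Φ hΦ).character * (T2 ρ Φ τ).character :=
    char_tensor _ _
  rw [h1, Pi.mul_apply]
  congr 1
  · have h2 := wRep_char (MonoidHom.snd (Ah ρ) (Equiv.Perm O)) (fun h _ => h.1) (pH ρ Φ)
      (fun _ _ _ => rfl) (fun h n j => by
        rw [pH_apply, hΦ]
        rfl) (Rm ρ) (fun j => n j * m⁻¹) (inn ρ m, 1) rfl
    refine h2.trans (Finset.prod_congr rfl fun j _ => ?_)
    rw [Rm_trace]
    show LinearMap.trace ℂ V (rh ρ ⟨n j * m⁻¹, inn ρ m⟩) = _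
    rw [rh_inn]
    rfl
  · have h2 : (T2 ρ Φ τ).character ⟨fun j => n j * m⁻¹, (inn ρ m, 1)⟩ =
        LinearMap.trace ℂ (Tw τ V) (twMap τ (rh ρ (SemidirectProduct.inr (inn ρ m)⁻¹))) := by
      refine (char_dual _ _).trans ?_
      rfl
    rw [h2, tw_trace, rh_inn', ← gal_pow ρ hd hτ]
    rfl

/-- the stabiliser -/
def St (θ : R → ℂ) : Subgroup ((O → R) ⋊[Φ] (MulAut R × Equiv.Perm O)) where
  carrier := {x | ∀ r, θ (x.right.1 r) = θ r}
  one_mem' := fun _ => rfl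
  mul_mem' := by
    intro x y hx hy r
    show θ ((x.right.1 * y.right.1) r) = θ r
    rw [MulAut.mul_apply, hx, hy]
  inv_mem' := by
    intro x hx r
    show θ ((x.right.1)⁻¹ r) = θ r
    rw [← hx, MulAut.apply_inv_self]

theorem mem_St (θ : R → ℂ) (x : (O → R) ⋊[Φ] (MulAut R × Equiv.Perm O)) :
    x ∈ St Φ θ ↔ ∀ r, θ (x.right.1 r) = θ r := Iff.rfl

include hΦ in
theorem ext_one (hρ : ρ.IsIrreducible)
    (hcop : Nat.Coprime (Fintype.card O) (Module.finrank ℂ V * Nat.card R)) :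
    ∃ ξ : St Φ ρ.character → ℂ, RC ξ ∧ ∀ (n : O → R) (m : R)
      (h : (⟨fun j => n j * m⁻¹, (MulAut.conj m, 1)⟩ :
        (O → R) ⋊[Φ] (MulAut R × Equiv.Perm O)) ∈ St Φ ρ.character),
      ξ ⟨_, h⟩ = (∏ j, ρ.character (n j)) * ρ.character (m⁻¹ ^ (Fintype.card O)) := by
  haveI : Nontrivial V := irr_nontrivial ρ hρ
  have hdim : 0 < Module.finrank ℂ V := Module.finrank_pos
  obtain ⟨τ, hτ⟩ := exists_pow_aut (Module.finrank ℂ V * Nat.card R) (Fintype.card O)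
    (Nat.mul_pos hdim Nat.card_pos) hcop
  have hmem : ∀ g, Pm ρ Φ g ∈ St Φ ρ.character := by
    intro g r
    show LinearMap.trace ℂ V (ρ (g.right.1.1.1 r)) = LinearMap.trace ℂ V (ρ r)
    have h1 := Ah_spec ρ g.right.1 r
    have h2 : ρ (g.right.1.1.1 r) = (g.right.1.1.2 : V →ₗ[ℂ] V) * ρ r *
        (((g.right.1.1.2)⁻¹ : (V →ₗ[ℂ] V)ˣ) : V →ₗ[ℂ] V) := by
      rw [Units.eq_mul_inv_iff_mul_eq]
      exact h1.symm
    rw [h2, LinearMap.trace_mul_comm, ← mul_assoc, Units.inv_mul, one_mul]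
  let P : (O → R) ⋊[pH ρ Φ] (Ah ρ × Equiv.Perm O) →* St Φ ρ.character :=
    (Pm ρ Φ).codRestrict _ hmem
  have hP : Function.Surjective P := by
    rintro ⟨x, hx⟩
    obtain ⟨b, hb⟩ := exists_Ah ρ hρ x.right.1 hx
    refine ⟨⟨x.left, (b, x.right.2)⟩, Subtype.ext ?_⟩
    show Pm ρ Φ ⟨x.left, (b, x.right.2)⟩ = x
    rw [Pm_apply]
    ext1
    · rfl
    · exact Prod.ext hb rfl
  obtain ⟨R', hR'⟩ := factor P hP (TD ρ Φ hΦ τ) (fun e he =>
    TD_ker ρ Φ hΦ hρ τ hτ e (congrArg Subtype.val he))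
  refine ⟨R'.character, ⟨_, inferInstance, inferInstance, inferInstance, R', rfl⟩,
    fun n m h => ?_⟩
  have h1 : (⟨_, h⟩ : St Φ ρ.character) = P ⟨fun j => n j * m⁻¹, (inn ρ m, 1)⟩ := by
    apply Subtype.ext
    rfl
  rw [h1]
  show LinearMap.trace ℂ _ (R' (P ⟨fun j => n j * m⁻¹, (inn ρ m, 1)⟩)) = _
  rw [hR']
  exact TD_char ρ Φ hΦ τ (Dvd.intro_left _ rfl) hτ n m

end

end LbP

end Pool.Agent.ZH17.RD
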