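import Pool.Agent.ZH17.RD.Stm3
import Pool.Agent.ZH17.RD.LbB
import Pool.Agent.Y63.AWC.Ch

/-!
# Piece GLA of project RD, first part: twisted conjugation by an automorphism of order `p`
-/

set_option autoImplicit false
set_option linter.unusedSectionVars false
set_option linter.style.haveILetI false

open scoped BigOperators Classical

noncomputable section

namespace Pool.Agent.ZH17.RD

open Pool.Agent.Helper884 Pool.Agent.K3h3.KB Pool.Agent.K3h3.MK Pool.Agent.K3h83.IN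
open Pool.Agent.H254R3.IN (IsIrr mem_Irr schur irr_nontrivial scalar_inj)
open IC (Irr)
open Representation SemidirectProduct

namespace GlaP

/-- exponents congruent to one modulo `p` and divisible by `q` -/
theorem exists_k {p q : ℕ} (h : Nat.Coprime p q) : ∃ k : ℕ, k ≡ 1 [MOD p] ∧ q ∣ k := by
  obtain ⟨k, h1, h2⟩ := Nat.chineseRemainder h 1 0
  exact ⟨k, h1, (Nat.modEq_zero_iff_dvd).1 h2⟩

theorem pow_of_modEq {G : Type} [Monoid G] {x : G} {p k : ℕ} (hx : x ^ p = 1) (hk : k ≡ 1 [MOD p]) :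
    x ^ k = x := by
  rw [pow_eq_pow_mod k hx, hk, ← pow_eq_pow_mod 1 hx, pow_one]

theorem pow_of_dvd {G : Type} [Monoid G] {x : G} {q k : ℕ} (hx : x ^ q = 1) (hk : q ∣ k) :
    x ^ k = 1 := by
  obtain ⟨a, rfl⟩ := hk
  rw [pow_mul, hx, one_pow]

/-- lifts of elements of order `p` to central extensions by groups of order prime to `p` -/
theorem exists_lift {G H : Type} [Group G] [Group H] (π : G →* H) {p q : ℕ}
    (hpq : Nat.Coprime p q) (hc : ∀ z, π z = 1 → ∀ g, z * g = g * z)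
    (hz : ∀ z, π z = 1 → z ^ q = 1) {d : H} (hd : d ^ p = 1) {x : G} (hx : π x = d) :
    ∃ D : G, π D = d ∧ D ^ p = 1 ∧ ∀ y, π y * d = d * π y → y * D = D * y := by
  obtain ⟨k, hk1, hk2⟩ := exists_k hpq
  have h1 : π (x ^ k) = d := by rw [map_pow, hx, pow_of_modEq hd hk1]
  have h2 : (x ^ k) ^ p = 1 := by
    rw [← pow_mul, mul_comm, pow_mul]
    exact pow_of_dvd (hz (x ^ p) (by rw [map_pow, hx, hd])) hk2
  refine ⟨x ^ k, h1, h2, fun y hy => ?_⟩
  set D := x ^ k
  have h3 : π (y * D * y⁻¹ * D⁻¹) = 1 := by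
    rw [map_mul, map_mul, map_mul, map_inv, map_inv, h1, hy]
    group
  have h4 := hz _ h3
  have h5 : y * D * y⁻¹ = (y * D * y⁻¹ * D⁻¹) * D := by group
  have h6 : (y * D * y⁻¹ * D⁻¹) ^ p = 1 := by
    have h7 : Commute (y * D * y⁻¹ * D⁻¹) D := hc _ h3 D
    have h8 : (y * D * y⁻¹) ^ p = 1 := by
      rw [conj_pow, h2, mul_one, mul_inv_cancel]
    rw [h5, h7.mul_pow, h2, mul_one] at h8
    exact h8
  have h9 : (y * D * y⁻¹ * D⁻¹) ^ (p.gcd q) = 1 := pow_gcd_eq_one.2 ⟨h6, h4⟩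
  rw [hpq, pow_one] at h9
  have h10 : y * D * y⁻¹ = D := by rw [h5, h9, one_mul]
  calc y * D = (y * D * y⁻¹) * y := by group
    _ = D * y := by rw [h10]

section

variable {N : Type} [Group N] (d : MulAut N)

theorem pow_fix {m : N} (hm : d m = m) (k : ℕ) : (d ^ k) m = m := by
  induction k with
  | zero => rfl
  | succ k ih => rw [pow_succ, MulAut.mul_apply, hm, ih]

theorem tw_iter {y m m' : N} (hm : d m = m) (hm' : d m' = m') (h : y * m = m' * d y) (k : ℕ) :
    y * m ^ k = m' ^ k * (d ^ k) y := by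
  induction k with
  | zero => simp
  | succ k ih =>
    calc y * m ^ (k + 1) = (y * m ^ k) * m := by rw [pow_succ, mul_assoc]
      _ = m' ^ k * (d ^ k) y * (d ^ k) m := by rw [ih, pow_fix d hm]
      _ = m' ^ k * (d ^ k) (y * m) := by rw [map_mul, mul_assoc]
      _ = m' ^ k * (m' * (d ^ k) (d y)) := by rw [h, map_mul, pow_fix d hm']
      _ = m' ^ (k + 1) * (d ^ (k + 1)) y := by
        rw [pow_succ m', pow_succ d, MulAut.mul_apply, mul_assoc]

variable {p : ℕ} [hp : Fact p.Prime] [Finite N] (hN : ¬ p ∣ Nat.card N) (hd : d ^ p = 1)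

include hN hd in
theorem tw_mem {y m m' : N} (hm : d m = m) (hm' : d m' = m') (h : y * m * (d y)⁻¹ = m') :
    d y = y := by
  have h1 : y * m = m' * d y := by rw [← h]; group
  obtain ⟨k, hk1, hk2⟩ := exists_k ((Nat.Prime.coprime_iff_not_dvd hp.out).2 hN)
  have h2 := tw_iter d hm hm' h1 k
  rw [pow_of_dvd pow_card_eq_one' hk2, pow_of_dvd pow_card_eq_one' hk2, pow_of_modEq hd hk1,
    mul_one, one_mul] at h2
  exact h2.symm

/-- the twisted conjugation map -/
def Ft (x : N × Md d) : N := x.1 * x.2 * (d x.1)⁻¹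

include hN hd in
theorem Ft_eq {x x' : N × Md d} (h : Ft d x = Ft d x') :
    ∃ y : Md d, x.1 = x'.1 * y ∧ (x.2 : N) = (y : N)⁻¹ * x'.2 * y := by
  have h1 : (x'.1⁻¹ * x.1) * (x.2 : N) * (d (x'.1⁻¹ * x.1))⁻¹ = x'.2 := by
    unfold Ft at h
    rw [map_mul, map_inv]
    calc x'.1⁻¹ * x.1 * (x.2 : N) * ((d x'.1)⁻¹ * d x.1)⁻¹
        = x'.1⁻¹ * (x.1 * (x.2 : N) * (d x.1)⁻¹) * d x'.1 := by group
      _ = _ := by rw [h]; group
  have h2 := tw_mem d hN hd x.2.2 x'.2.2 h1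
  refine ⟨⟨x'.1⁻¹ * x.1, h2⟩, ?_, ?_⟩
  · show x.1 = x'.1 * (x'.1⁻¹ * x.1)
    group
  · show (x.2 : N) = (x'.1⁻¹ * x.1)⁻¹ * x'.2 * (x'.1⁻¹ * x.1)
    rw [h2] at h1
    rw [← h1]
    group

theorem Ft_mul (x : N × Md d) (y : Md d) : Ft d (x.1 * y, y⁻¹ * x.2 * y) = Ft d x := by
  unfold Ft
  have h : d (y : N) = y := y.2
  show x.1 * (y : N) * ((y : N)⁻¹ * (x.2 : N) * (y : N)) * (d (x.1 * y))⁻¹ = x.1 * x.2 * (d x.1)⁻¹
  rw [map_mul, h]
  group

include hN hd in
theorem Ft_surj : Function.Surjective (Ft d) := by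
  have hs : ∀ n : Set.range (Ft d), ∃ x, Ft d x = n := fun n => n.2
  choose s hs using hs
  let Ψ : Set.range (Ft d) × Md d → N × Md d := fun z =>
    ((s z.1).1 * z.2, z.2⁻¹ * (s z.1).2 * z.2)
  have hΨ : ∀ z, Ft d (Ψ z) = z.1 := fun z => by
    rw [← hs z.1]
    exact Ft_mul d (s z.1) z.2
  have hb : Function.Bijective Ψ := by
    constructor
    · intro z z' h
      have h1 : z.1 = z'.1 := Subtype.ext (by rw [← hΨ, ← hΨ, h])
      have h2 : (s z.1).1 * (z.2 : N) = (s z'.1).1 * (z'.2 : N) := congrArg Prod.fst h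
      rw [h1] at h2
      exact Prod.ext h1 (Subtype.ext (mul_left_cancel h2))
    · intro x
      have h0 : Ft d x = Ft d (s ⟨Ft d x, ⟨x, rfl⟩⟩) := (hs ⟨Ft d x, ⟨x, rfl⟩⟩).symm
      obtain ⟨y, hy1, hy2⟩ := Ft_eq d hN hd h0
      refine ⟨(⟨Ft d x, ⟨x, rfl⟩⟩, y), ?_⟩
      refine Prod.ext hy1.symm (Subtype.ext hy2.symm)
  have h1 := Nat.card_congr (Equiv.ofBijective Ψ hb)
  rw [Nat.card_prod, Nat.card_prod] at h1
  have h2 : Nat.card (Set.range (Ft d)) = Nat.card N :=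
    Nat.eq_of_mul_eq_mul_right Nat.card_pos h1
  have h3 : Set.range (Ft d) = Set.univ := by
    rw [Set.eq_univ_iff_ncard, ← h2]
    rfl
  exact Set.range_eq_univ.1 h3

include hN hd in
/-- **Transfer**: averages of twisted class functions -/
theorem sum_tr [Fintype N] [Fintype (Md d)] (g : N → ℂ)
    (hg : ∀ x n, g (x * n * (d x)⁻¹) = g n) :
    (Nat.card N : ℂ)⁻¹ * ∑ n, g n = (Nat.card (Md d) : ℂ)⁻¹ * ∑ m : Md d, g m := by
  choose s hs using Ft_surj d hN hd
  let Ψ : N × Md d → N × Md d := fun z => ((s z.1).1 * z.2, z.2⁻¹ * (s z.1).2 * z.2)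
  have hΨ : ∀ z, Ft d (Ψ z) = z.1 := fun z => by
    rw [← hs z.1]
    exact Ft_mul d (s z.1) z.2
  have hi : Function.Injective Ψ := by
    intro z z' h
    have h1 : z.1 = z'.1 := by rw [← hΨ, ← hΨ, h]
    have h2 : (s z.1).1 * (z.2 : N) = (s z'.1).1 * (z'.2 : N) := congrArg Prod.fst h
    rw [h1] at h2
    exact Prod.ext h1 (Subtype.ext (mul_left_cancel h2))
  have hb : Function.Bijective Ψ := Finite.injective_iff_bijective.1 hi
  have h1 : ∑ z : N × Md d, g (Ft d z) = Nat.card (Md d) * ∑ n, g n := by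
    rw [← Function.Bijective.sum_comp hb fun z => g (Ft d z)]
    simp only [hΨ]
    rw [Fintype.sum_prod_type]
    simp only [Finset.sum_const, Finset.card_univ, nsmul_eq_mul]
    rw [← Finset.mul_sum, Nat.card_eq_fintype_card]
  have h2 : ∑ z : N × Md d, g (Ft d z) = Nat.card N * ∑ m : Md d, g m := by
    rw [Fintype.sum_prod_type]
    have h3 : ∀ (x : N) (m : Md d), g (Ft d (x, m)) = g m := fun x m => hg x m
    simp only [h3]
    rw [Finset.sum_const, Finset.card_univ, nsmul_eq_mul, Nat.card_eq_fintype_card]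
  have h3 : (Nat.card N : ℂ) ≠ 0 := by exact_mod_cast Nat.card_pos.ne'
  have h4 : (Nat.card (Md d) : ℂ) ≠ 0 := by exact_mod_cast Nat.card_pos.ne'
  rw [h1] at h2
  field_simp
  linear_combination h2

include hN hd in
/-- the number of invariant irreducible characters -/
theorem card_inv [Fintype N] [Fintype (Md d)] :
    ((Irr N).filter fun χ => ∀ n, χ (d n) = χ n).card = (Irr (Md d)).card := by
  let g : N → ℂ := fun n => (Nat.card {y : N // y * n * (d y)⁻¹ = n} : ℂ)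
  have hg : ∀ x n, g (x * n * (d x)⁻¹) = g n := by
    intro x n
    show ((Nat.card _ : ℕ) : ℂ) = ((Nat.card _ : ℕ) : ℂ)
    congr 1
    refine Nat.card_congr ((MulAut.conj x⁻¹).toEquiv.subtypeEquiv fun y => ?_)
    show _ ↔ (x⁻¹ * y * x⁻¹⁻¹) * n * (d (x⁻¹ * y * x⁻¹⁻¹))⁻¹ = n
    rw [map_mul, map_mul, map_inv, inv_inv]
    constructor
    · intro h
      calc x⁻¹ * y * x * n * ((d x)⁻¹ * d y * d x)⁻¹
          = x⁻¹ * (y * (x * n * (d x)⁻¹) * (d y)⁻¹) * d x := by group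
        _ = n := by rw [h]; group
    · intro h
      calc y * (x * n * (d x)⁻¹) * (d y)⁻¹
          = x * (x⁻¹ * y * x * n * ((d x)⁻¹ * d y * d x)⁻¹) * (d x)⁻¹ := by group
        _ = _ := by rw [h]
  have h1 := sum_tr d hN hd g hg
  have h2 : (Nat.card N : ℂ)⁻¹ * ∑ n, g n =
      ((((Irr N).filter fun χ => ∀ n, χ (d n) = χ n).card : ℕ) : ℂ) := by
    have h3 : ∑ n, g n = ∑ x : N, (Nat.card {n : N // n * d x * n⁻¹ = x} : ℂ) := by
      have h4 : ∑ n : N, Nat.card {y : N // y * n * (d y)⁻¹ = n} =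
          ∑ x : N, Nat.card {n : N // n * d x * n⁻¹ = x} := by
        rw [← Nat.card_sigma, ← Nat.card_sigma]
        refine Nat.card_congr
          { toFun := fun a => ⟨(a.2.1)⁻¹, ⟨a.1, ?_⟩⟩
            invFun := fun a => ⟨a.2.1, ⟨(a.1)⁻¹, ?_⟩⟩
            left_inv := ?_
            right_inv := ?_ }
        · obtain ⟨n, y, hy⟩ := a
          show n * d y⁻¹ * n⁻¹ = y⁻¹
          rw [map_inv]
          have : n * (d y)⁻¹ = y⁻¹ * n := by
            nth_rewrite 2 [← hy]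
            group
          rw [this]
          group
        · obtain ⟨x, n, hn⟩ := a
          show x⁻¹ * n * (d x⁻¹)⁻¹ = n
          rw [map_inv, inv_inv]
          nth_rewrite 1 [← hn]
          group
        · rintro ⟨n, y, hy⟩
          exact Sigma.subtype_ext rfl (inv_inv _)
        · rintro ⟨x, n, hn⟩
          exact Sigma.subtype_ext (inv_inv _) rfl
      show ∑ n : N, ((Nat.card {y : N // y * n * (d y)⁻¹ = n} : ℕ) : ℂ) = _
      rw [← Nat.cast_sum, h4, Nat.cast_sum]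
    rw [h3]
    have h5 : ∀ x : N, (Nat.card {n : N // n * d x * n⁻¹ = x} : ℂ) =
        ∑ χ ∈ Irr N, χ (d x) * χ x⁻¹ := fun x => (Pool.Agent.Y63.AWC.col_orth (d x) x).symm
    simp only [h5]
    rw [Finset.sum_comm, Finset.mul_sum, Finset.card_filter, Nat.cast_sum]
    refine Finset.sum_congr rfl fun χ hχ => ?_
    have hχ' : IsIrr χ := mem_Irr.mp hχ
    have h6 : IsIrr fun n => χ (d n) := Pool.Agent.Q90.WR.irr_comp (d : N ≃* N) hχ'
    have h7 := IC.B_irr h6 hχ'
    unfold IC.B at h7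
    rw [h7]
    by_cases h8 : ∀ n, χ (d n) = χ n
    · rw [if_pos h8, if_pos (funext h8), Nat.cast_one]
    · rw [if_neg h8, if_neg (fun h => h8 (congrFun h)), Nat.cast_zero]
  have h3 : (Nat.card (Md d) : ℂ)⁻¹ * ∑ m : Md d, g m = (((Irr (Md d)).card : ℕ) : ℂ) := by
    have h4 : ∀ m : Md d, g m = ∑ ψ ∈ Irr (Md d), ψ m * ψ m⁻¹ := by
      intro m
      rw [Pool.Agent.Y63.AWC.col_orth m m]
      show ((Nat.card {y : N // y * (m : N) * (d y)⁻¹ = m} : ℕ) : ℂ) = _
      congr 1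
      refine Nat.card_congr
        { toFun := fun y => ⟨⟨y.1, ?_⟩, ?_⟩
          invFun := fun y => ⟨y.1, ?_⟩
          left_inv := fun y => rfl
          right_inv := fun y => rfl }
      · exact tw_mem d hN hd m.2 m.2 y.2
      · apply Subtype.ext
        show y.1 * (m : N) * (y.1)⁻¹ = m
        have h5 := y.2
        rw [tw_mem d hN hd m.2 m.2 y.2] at h5
        exact h5
      · obtain ⟨⟨y, hy⟩, hy2⟩ := y
        show y * (m : N) * (d y)⁻¹ = m
        rw [show d y = y from hy]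
        exact congrArg Subtype.val hy2
    simp only [h4]
    rw [Finset.sum_comm, Finset.mul_sum]
    rw [Finset.card_eq_sum_ones, Nat.cast_sum]
    refine Finset.sum_congr rfl fun ψ hψ => ?_
    have h5 := IC.B_irr (mem_Irr.mp hψ) (mem_Irr.mp hψ)
    rw [if_pos rfl] at h5
    unfold IC.B at h5
    rw [h5, Nat.cast_one]
  rw [h2, h3] at h1
  exact_mod_cast h1

end

end GlaP

end Pool.Agent.ZH17.RD
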