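import Pool.Agent.ZH17.RD.GlaA
import Pool.Agent.ZH17.RD.Gcd

/-!
# Piece GLA of project RD, second part: the canonical extension restricted to the fixed points
-/

set_option autoImplicit false
set_option linter.unusedSectionVars false
set_option linter.style.haveILetI false

open scoped BigOperators Classical

noncomputable section

namespace Pool.Agent.ZH17.RD

open Pool.Agent.Helper884 Pool.Agent.K3h3.KB Pool.Agent.K3h3.MK Pool.Agent.K3h83.IN
open Pool.Agent.H254R3.IN (IsIrr mem_Irr schur irr_nontrivial scalar_inj)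
open Pool.Agent.Q90.WR (Tw tw twRep twMap tw_trace irr_gal twBasis tw_smul twBasis_apply
  twBasis_repr twSub)
open Pool.Agent.K3h85.IN (exists_pow_aut)
open IC (Irr)
open Representation SemidirectProduct

namespace GlaP

section orth

variable {N : Type} [Group N] [Finite N] {C : Type} [Group C] {φ : C →* MulAut N}
  {V V' W : Type} [AddCommGroup V] [Module ℂ V] [FiniteDimensional ℂ V]
  [AddCommGroup V'] [Module ℂ V'] [FiniteDimensional ℂ V'] [AddCommGroup W] [Module ℂ W]

theorem act_mul {G T : Type} [Group G] [AddCommGroup T] [Module ℂ T] (Q : Representation ℂ G T)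
    (g h : G) (v : T) : Q g (Q h v) = Q (g * h) v := by
  rw [map_mul]
  rfl

theorem sum_lin [Fintype N] (Λ : Representation ℂ (N ⋊[φ] C) W) (c : C) :
    ∑ n : N, Λ ⟨n, c⟩ = Λ (inr c) * ∑ n : N, Λ (inl n) := by
  rw [Finset.mul_sum]
  refine Fintype.sum_equiv (φ c⁻¹).toEquiv _ _ fun n => ?_
  rw [← map_mul]
  congr 1
  ext1
  · show n = 1 * φ c (φ c⁻¹ n)
    rw [one_mul, map_inv, MulAut.apply_inv_self]
  · show c = c * 1
    rw [mul_one]

theorem sum_inv [Fintype N] (Λ : Representation ℂ (N ⋊[φ] C) W) (x : N) :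
    Λ (inl x) * ∑ n : N, Λ (inl n) = ∑ n : N, Λ (inl n) := by
  rw [Finset.mul_sum]
  refine Fintype.sum_equiv (Equiv.mulLeft x) _ _ fun n => ?_
  rw [← map_mul, ← map_mul]
  rfl

variable (R : Representation ℂ (N ⋊[φ] C) V) (R' : Representation ℂ (N ⋊[φ] C) V')

/-- restriction to `N` -/
def rN : Representation ℂ N V := MonoidHom.comp R inl

theorem rN_apply (n : N) : rN R n = R (inl n) := rfl

theorem tr_lam (g : N ⋊[φ] C) : LinearMap.trace ℂ (V' →ₗ[ℂ] V) (linHom R' R g) =
    R.character g * R'.character g⁻¹ := by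
  have h := char_linHom R' R g
  rw [mul_comm]
  exact h

theorem orth1 [Fintype N] (hR : (rN R).IsIrreducible) (c : C) :
    (Nat.card N : ℂ)⁻¹ * ∑ n : N, R.character ⟨n, c⟩ * R.character (⟨n, c⟩ : N ⋊[φ] C)⁻¹ = 1 := by
  have h1 : ∑ n : N, (linHom R R) ⟨n, c⟩ = ∑ n : N, (linHom R R) (inl n) := by
    rw [sum_lin]
    refine LinearMap.ext fun X => ?_
    obtain ⟨s, hs⟩ := schur (rN R) hR ((∑ n : N, (linHom R R) (inl n)) X) fun x v => by
      have h2 := congrArg (fun f => f X) (sum_inv (linHom R R) x)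
      have h3 : R (inl x) ∘ₗ ((∑ n : N, (linHom R R) (inl n)) X) ∘ₗ R (inl x)⁻¹ =
          (∑ n : N, (linHom R R) (inl n)) X := h2
      have h4 := congrArg (fun f => f (R (inl x) v)) h3
      have h5 : R (inl x) (((∑ n : N, (linHom R R) (inl n)) X) (R (inl x)⁻¹ (R (inl x) v))) =
        ((∑ n : N, (linHom R R) (inl n)) X) (R (inl x) v) := h4
      have h6 : R (inl x)⁻¹ (R (inl x) v) = v := by
        rw [← Module.End.mul_apply, ← map_mul, inv_mul_cancel, map_one]
        rfl
      rw [h6] at h5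
      exact h5.symm
    show (linHom R R) (inr c) ((∑ n : N, (linHom R R) (inl n)) X) = _
    rw [hs]
    show R (inr c) ∘ₗ (s • LinearMap.id) ∘ₗ R (inr c)⁻¹ = s • LinearMap.id
    refine LinearMap.ext fun v => ?_
    show R (inr c) (s • R (inr c)⁻¹ v) = s • v
    rw [map_smul, ← Module.End.mul_apply, ← map_mul, mul_inv_cancel, map_one]
    rfl
  have h2 := congrArg (LinearMap.trace ℂ (V →ₗ[ℂ] V)) h1
  rw [map_sum, map_sum] at h2
  simp only [tr_lam] at h2
  rw [h2]
  have h3 : IsIrr (rN R).character := ⟨V, inferInstance, inferInstance, inferInstance, rN R, hR, rfl⟩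
  have h4 := IC.B_irr h3 h3
  rw [if_pos rfl] at h4
  rw [← h4]
  unfold IC.B
  congr 1
  refine Finset.sum_congr rfl fun n _ => ?_
  rw [← map_inv]
  rfl

theorem orth2 [Fintype N] (hR : (rN R).IsIrreducible) (hR' : (rN R').IsIrreducible)
    (hne : (rN R).character ≠ (rN R').character) (c : C) :
    ∑ n : N, R.character ⟨n, c⟩ * R'.character (⟨n, c⟩ : N ⋊[φ] C)⁻¹ = 0 := by
  haveI : Invertible (Nat.card N : ℂ) := invertibleOfNonzero (by
    exact_mod_cast Nat.card_pos.ne')
  have h3 : IsIrr (rN R).character := ⟨V, inferInstance, inferInstance, inferInstance, rN R, hR, rfl⟩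
  have h4 : IsIrr (rN R').character :=
    ⟨V', inferInstance, inferInstance, inferInstance, rN R', hR', rfl⟩
  have h5 := IC.B_irr h3 h4
  rw [if_neg hne] at h5
  let Λ : Representation ℂ N (V' →ₗ[ℂ] V) := MonoidHom.comp (linHom R' R) inl
  have h6 : (Module.finrank ℂ (invariants Λ) : ℂ) = 0 := by
    rw [← card_inv_mul_sum_char_eq_finrank, ← h5]
    unfold IC.B
    congr 1
    refine Finset.sum_congr rfl fun n _ => ?_
    show LinearMap.trace ℂ (V' →ₗ[ℂ] V) (linHom R' R (inl n)) = _
    rw [tr_lam, ← map_inv]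
    rfl
  have h7 : invariants Λ = ⊥ := by
    rw [← Submodule.finrank_eq_zero]
    exact_mod_cast h6
  have h8 : ∑ n : N, (linHom R' R) (inl n) = 0 := by
    refine LinearMap.ext fun X => ?_
    have h9 : (∑ n : N, (linHom R' R) (inl n)) X ∈ invariants Λ := by
      intro x
      exact congrArg (fun f => f X) (sum_inv (linHom R' R) x)
    rw [h7, Submodule.mem_bot] at h9
    exact h9
  have h9 := congrArg (LinearMap.trace ℂ (V' →ₗ[ℂ] V)) (sum_lin (linHom R' R) c)
  rw [h8, mul_zero, map_zero, map_sum] at h9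
  simp only [tr_lam] at h9
  exact h9

theorem tw_class (c : C) (x n : N) :
    R.character ⟨x * n * (φ c x)⁻¹, c⟩ * R'.character (⟨x * n * (φ c x)⁻¹, c⟩ : N ⋊[φ] C)⁻¹ =
      R.character ⟨n, c⟩ * R'.character (⟨n, c⟩ : N ⋊[φ] C)⁻¹ := by
  have h : (⟨x * n * (φ c x)⁻¹, c⟩ : N ⋊[φ] C) = inl x * ⟨n, c⟩ * (inl x)⁻¹ := by
    have e : (inl x : N ⋊[φ] C)⁻¹ = inl x⁻¹ := (map_inv _ _).symm
    rw [e]
    ext1
    · show x * n * (φ c x)⁻¹ = x * φ 1 n * φ (1 * c) x⁻¹
      rw [map_one, one_mul, map_inv]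
      rfl
    · show c = 1 * c * 1
      rw [one_mul, mul_one]
  have h2 : (inl x * ⟨n, c⟩ * (inl x)⁻¹ : N ⋊[φ] C)⁻¹ = inl x * (⟨n, c⟩ : N ⋊[φ] C)⁻¹ * (inl x)⁻¹ := by
    group
  rw [h, h2, char_conj, char_conj]

/-- uniqueness of the canonical extension -/
theorem can_unique {p : ℕ} [hp : Fact p.Prime] (hR : (rN R).IsIrreducible)
    (hR' : (rN R').IsIrreducible) (hchar : (rN R).character = (rN R').character) {c : C}
    (hc : c ^ p = 1) (hdet : LinearMap.det (R (inr c)) = 1) (hdet' : LinearMap.det (R' (inr c)) = 1)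
    (hdim : ¬ p ∣ Module.finrank ℂ V) (n : N) : R.character ⟨n, c⟩ = R'.character ⟨n, c⟩ := by
  haveI := Fintype.ofFinite N
  haveI : Invertible (Nat.card N : ℂ) := invertibleOfNonzero (by
    exact_mod_cast Nat.card_pos.ne')
  haveI : Nontrivial V := irr_nontrivial (rN R) hR
  have h3 : Nonempty ((rN R).Equiv (rN R')) := by
    haveI := hR
    haveI := hR'
    have h1 := char_orthonormal (rN R') (rN R)
    have h2 := char_orthonormal (rN R) (rN R)
    rw [if_pos ⟨Representation.Equiv.refl (rN R)⟩] at h2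
    rw [← hchar, h2] at h1
    by_contra hn
    rw [if_neg hn] at h1
    exact one_ne_zero h1
  obtain ⟨ψ⟩ := h3
  let e : V ≃ₗ[ℂ] V' := ψ.toLinearEquiv
  have he : ∀ (n : N) (v : V), e (R (inl n) v) = R' (inl n) (e v) := fun n v =>
    congrArg (fun f => f v) (ψ.isIntertwining' n)
  have he' : ∀ (n : N) (v : V'), e.symm (R' (inl n) v) = R (inl n) (e.symm v) := by
    intro n v
    rw [LinearEquiv.symm_apply_eq, he, LinearEquiv.apply_symm_apply]
  let u : V →ₗ[ℂ] V := (e.symm : V' →ₗ[ℂ] V) ∘ₗ R' (inr c) ∘ₗ (e : V →ₗ[ℂ] V')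
  have hu : ∀ v, u v = e.symm (R' (inr c) (e v)) := fun v => rfl
  have hcomm : ∀ (T : Type) [AddCommGroup T] [Module ℂ T] (Q : Representation ℂ (N ⋊[φ] C) T)
      (n : N) (v : T), Q (inr c) (Q (inl n) v) = Q (inl (φ c n)) (Q (inr c) v) := by
    intro T _ _ Q n v
    rw [act_mul, act_mul]
    congr 2
    ext1
    · show 1 * φ c n = φ c n * φ 1 1
      rw [one_mul, map_one, mul_one]
    · show c * 1 = 1 * c
      rw [one_mul, mul_one]
  obtain ⟨s, hs⟩ := schur (rN R) hR (R (inr c⁻¹) * u) fun n v => by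
    show R (inr c⁻¹) (u (R (inl n) v)) = R (inl n) (R (inr c⁻¹) (u v))
    have h1 : R (inl n) (R (inr c⁻¹) (u v)) = R (inr c⁻¹) (R (inl (φ c n)) (u v)) := by
      rw [act_mul, act_mul]
      congr 2
      ext1
      · show n * φ 1 1 = 1 * φ c⁻¹ (φ c n)
        rw [map_one, mul_one, one_mul, map_inv, MulAut.inv_apply_self]
      · show 1 * c⁻¹ = c⁻¹ * 1
        rw [one_mul, mul_one]
    rw [h1]
    congr 1
    rw [hu, hu, he, hcomm V' R', he']
  have hus : u = s • R (inr c) := by
    have h1 : R (inr c) * (R (inr c⁻¹) * u) = s • R (inr c) := by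
      rw [hs]
      refine LinearMap.ext fun v => ?_
      show R (inr c) (s • v) = s • R (inr c) v
      rw [map_smul]
    rw [← h1, ← mul_assoc, ← map_mul, ← map_mul, mul_inv_cancel, map_one, map_one, one_mul]
  have hup : u ^ p = 1 := by
    have h1 : ∀ k : ℕ, ∀ v, (u ^ k) v = e.symm ((R' (inr c) ^ k) (e v)) := by
      intro k
      induction k with
      | zero => intro v; simp
      | succ k ih =>
        intro v
        rw [pow_succ, Module.End.mul_apply, ih, hu, LinearEquiv.apply_symm_apply, pow_succ,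
          Module.End.mul_apply]
    refine LinearMap.ext fun v => ?_
    rw [h1, ← map_pow, ← map_pow, hc, map_one, map_one]
    simp
  have hs1 : s ^ p = 1 := by
    have h1 : u ^ p = (s ^ p) • LinearMap.id := by
      rw [hus, smul_pow, ← map_pow, ← map_pow, hc, map_one, map_one]
      rfl
    rw [hup] at h1
    apply scalar_inj (V := V)
    rw [← h1, one_smul]
    rfl
  have hs2 : s ^ (Module.finrank ℂ V) = 1 := by
    have h1 : LinearMap.det u = 1 := by
      rw [← hdet']
      exact LinearMap.det_conj (R' (inr c)) e.symm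
    rw [hus, LinearMap.det_smul, hdet, mul_one] at h1
    exact h1
  have hs3 : s = 1 := by
    have h1 : s ^ (p.gcd (Module.finrank ℂ V)) = 1 := by
      have hs0 : s ≠ 0 := by
        rintro rfl
        rw [zero_pow hp.out.ne_zero] at hs1
        exact zero_ne_one hs1
      have h2 : (Units.mk0 s hs0) ^ (p.gcd (Module.finrank ℂ V)) = 1 := by
        rw [pow_gcd_eq_one]
        constructor
        · apply Units.ext
          rw [Units.val_pow_eq_pow_val, Units.val_mk0, hs1, Units.val_one]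
        · apply Units.ext
          rw [Units.val_pow_eq_pow_val, Units.val_mk0, hs2, Units.val_one]
      have h3 := congrArg Units.val h2
      rwa [Units.val_pow_eq_pow_val, Units.val_mk0, Units.val_one] at h3
    rwa [(Nat.Prime.coprime_iff_not_dvd hp.out).2 hdim, pow_one] at h1
  rw [hs3, one_smul] at hus
  have hfac : (⟨n, c⟩ : N ⋊[φ] C) = inl n * inr c := by
    ext1
    · show n = n * φ 1 1
      rw [map_one, mul_one]
    · show c = 1 * c
      rw [one_mul]
  show LinearMap.trace ℂ V (R ⟨n, c⟩) = LinearMap.trace ℂ V' (R' ⟨n, c⟩)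
  rw [hfac, map_mul R, map_mul R', ← hus, ← LinearMap.trace_conj' (R (inl n) * u) e]
  congr 1
  refine LinearMap.ext fun v => ?_
  show e (R (inl n) (u (e.symm v))) = R' (inl n) (R' (inr c) v)
  rw [hu, he, LinearEquiv.apply_symm_apply, LinearEquiv.apply_symm_apply]

theorem det_tw (σ : ℂ ≃+* ℂ) (f : V →ₗ[ℂ] V) :
    LinearMap.det (twMap σ f) = σ (LinearMap.det f) := by
  let b := Module.finBasis ℂ V
  rw [← LinearMap.det_toMatrix b f, ← LinearMap.det_toMatrix (twBasis σ b) (twMap σ f)]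
  have h1 : LinearMap.toMatrix (twBasis σ b) (twBasis σ b) (twMap σ f) =
      (LinearMap.toMatrix b b f).map (σ : ℂ →+* ℂ) := by
    ext i j
    rw [LinearMap.toMatrix_apply, Matrix.map_apply, LinearMap.toMatrix_apply, twBasis_apply]
    exact twBasis_repr σ b (f (b j)) i
  rw [h1]
  exact (RingHom.map_det (σ : ℂ →+* ℂ) _).symm

end orth

end GlaP

end Pool.Agent.ZH17.RD
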