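import Pool.Agent.ZH17.RD.GlaB

/-!
# Piece GLA of project RD, third part: the local correspondence
-/

set_option autoImplicit false
set_option linter.unusedSectionVars false
set_option linter.style.haveILetI false

open scoped BigOperators Classical

noncomputable section

namespace Pool.Agent.ZH17.RD

open Pool.Agent.Helper884 Pool.Agent.K3h3.KB Pool.Agent.K3h3.MK Pool.Agent.K3h83.IN
open Pool.Agent.H254R3.IN (IsIrr mem_Irr schur irr_nontrivial scalar_inj)
open Pool.Agent.Q90.WR (Tw tw twRep twMap tw_trace irr_gal twBasis tw_smul twBasis_apply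
  twBasis_repr twSub)
open Pool.Agent.K3h85.IN (exists_pow_aut)
open IC (Irr)
open Representation SemidirectProduct

namespace GlaP

/-- powers of an element of order dividing `p` -/
def pw {G : Type} [Group G] {p : ℕ} [Fact p.Prime] (D : G) (h : D ^ p = 1) :
    Multiplicative (ZMod p) →* G where
  toFun c := D ^ (Multiplicative.toAdd c).val
  map_one' := by
    show D ^ (0 : ZMod p).val = 1
    rw [ZMod.val_zero, pow_zero]
  map_mul' a b := by
    show D ^ (Multiplicative.toAdd a + Multiplicative.toAdd b).val = _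
    rw [ZMod.val_add, ← pow_add, ← pow_eq_pow_mod _ h]

theorem pw_apply {G : Type} [Group G] {p : ℕ} [Fact p.Prime] (D : G) (h : D ^ p = 1)
    (c : Multiplicative (ZMod p)) : pw D h c = D ^ (Multiplicative.toAdd c).val := rfl

/-- the generator -/
def c1 (p : ℕ) : Multiplicative (ZMod p) := Multiplicative.ofAdd 1

theorem pw_c1 {G : Type} [Group G] {p : ℕ} [hp : Fact p.Prime] (D : G) (h : D ^ p = 1) :
    pw D h (c1 p) = D := by
  show D ^ (1 : ZMod p).val = D
  rw [ZMod.val_one'' hp.out.one_lt.ne', pow_one]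

theorem c1_pow {p : ℕ} [hp : Fact p.Prime] (c : Multiplicative (ZMod p)) :
    c = c1 p ^ (Multiplicative.toAdd c).val := by
  apply Multiplicative.toAdd.injective
  show Multiplicative.toAdd c = (Multiplicative.toAdd c).val • (1 : ZMod p)
  rw [nsmul_eq_mul, mul_one, ZMod.natCast_zmod_val]

theorem c_pow {p : ℕ} [hp : Fact p.Prime] (c : Multiplicative (ZMod p)) : c ^ p = 1 := by
  apply Multiplicative.toAdd.injective
  show p • Multiplicative.toAdd c = (0 : ZMod p)
  rw [nsmul_eq_mul, CharP.cast_eq_zero, zero_mul]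

theorem c1_inv_ne {p : ℕ} [hp : Fact p.Prime] : (c1 p)⁻¹ ≠ 1 := by
  intro h
  have h1 : c1 p = 1 := inv_eq_one.1 h
  have h2 : (1 : ZMod p) = 0 := congrArg Multiplicative.toAdd h1
  exact one_ne_zero h2

instance finC {p : ℕ} [hp : Fact p.Prime] : Fintype (Multiplicative (ZMod p)) :=
  inferInstanceAs (Fintype (ZMod p))

theorem card_C {p : ℕ} [hp : Fact p.Prime] : Nat.card (Multiplicative (ZMod p)) = p := by
  have h : Nat.card (ZMod p) = p := Nat.card_zmod p
  exact h

section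

variable {N : Type} [Group N] [Finite N] {p : ℕ} [hp : Fact p.Prime] (d : MulAut N)
  (hd : d ^ p = 1)

theorem pw_fix (c : Multiplicative (ZMod p)) (m : Md d) : pw d hd c (m : N) = m :=
  pow_fix d m.2 _

/-- the fixed points times the cyclic group -/
def mc : Md d × Multiplicative (ZMod p) →* N ⋊[pw d hd] Multiplicative (ZMod p) where
  toFun x := ⟨x.1, x.2⟩
  map_one' := rfl
  map_mul' x y := by
    ext1
    · show (x.1 * y.1 : N) = x.1 * pw d hd x.2 (y.1 : N)
      rw [pw_fix]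
    · rfl

theorem mc_apply (x : Md d × Multiplicative (ZMod p)) : mc d hd x = ⟨x.1, x.2⟩ := rfl

variable (hN : ¬ p ∣ Nat.card N) {V : Type} [AddCommGroup V] [Module ℂ V] [FiniteDimensional ℂ V]
  (R : Representation ℂ (N ⋊[pw d hd] Multiplicative (ZMod p)) V)

theorem twN_irr (σ : ℂ ≃+* ℂ) (hR : (rN R).IsIrreducible) : (rN (twRep σ R)).IsIrreducible :=
  (twSub σ (rN R)).isSimpleOrder_iff.1 hR

include hN in
theorem rat (hR : (rN R).IsIrreducible) (hdet : ∀ c, LinearMap.det (R (inr c)) = 1)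
    {c : Multiplicative (ZMod p)} (hc : c ≠ 1) (m : Md d) :
    R.character ⟨m, c⟩ = R.character ⟨m, c1 p⟩ := by
  set j := (Multiplicative.toAdd c).val with hj
  have hcj : c = c1 p ^ j := c1_pow c
  have hpj : ¬ p ∣ j := by
    intro h
    obtain ⟨a, ha⟩ := h
    apply hc
    rw [hcj, ha, pow_mul, c_pow, one_pow]
  have hcop : Nat.Coprime p (Nat.card N) := (Nat.Prime.coprime_iff_not_dvd hp.out).2 hN
  obtain ⟨k, hk1, hk2⟩ := Nat.chineseRemainder hcop j 1
  have hcard : Nat.card (N ⋊[pw d hd] Multiplicative (ZMod p)) = Nat.card N * p := by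
    rw [SemidirectProduct.card, card_C]
  have hkc : Nat.Coprime k (Nat.card N * p) := by
    apply Nat.Coprime.mul_right
    · have h1 : Nat.gcd k (Nat.card N) = Nat.gcd 1 (Nat.card N) := hk2.gcd_eq
      show Nat.gcd k (Nat.card N) = 1
      rw [h1, Nat.gcd_one_left]
    · rw [Nat.coprime_comm, Nat.Prime.coprime_iff_not_dvd hp.out]
      intro h
      exact hpj ((hk1.dvd_iff dvd_rfl).1 h)
  obtain ⟨σ, hσ⟩ := exists_pow_aut (Nat.card N * p) k (Nat.mul_pos Nat.card_pos hp.out.pos) hkc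
  -- the power
  have h1 : σ (R.character ⟨m, c1 p⟩) = R.character ⟨m, c⟩ := by
    rw [LbP.gal_pow R (m := Nat.card N * p) (n := k) (by rw [hcard]) hσ]
    have h2 : (⟨m, c1 p⟩ : N ⋊[pw d hd] Multiplicative (ZMod p)) = mc d hd (m, c1 p) := rfl
    rw [h2, ← map_pow]
    show R.character ⟨((m ^ k : Md d) : N), (c1 p) ^ k⟩ = _
    congr 2
    · rw [Subgroup.coe_pow]
      exact pow_of_modEq pow_card_eq_one' hk2
    · rw [hcj, pow_eq_pow_mod k (c_pow _), hk1, ← pow_eq_pow_mod j (c_pow _)]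
  -- the twist
  haveI : FiniteDimensional ℂ (Tw σ V) := Module.Finite.of_basis (twBasis σ (Module.finBasis ℂ V))
  have h2 : R.character ⟨m, c1 p⟩ = (twRep σ R).character ⟨m, c1 p⟩ := by
    refine can_unique R (twRep σ R) hR (twN_irr d hd R σ hR) ?_ (c_pow _) (hdet _) ?_ ?_ _
    · funext n
      have h3 : (rN (twRep σ R)).character n = σ ((rN R).character n) := tw_trace σ (R (inl n))
      rw [h3, LbP.gal_pow (rN R) (m := Nat.card N * p) (n := k) (Dvd.intro _ rfl) hσ]
      congr 1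
      exact (pow_of_modEq pow_card_eq_one' hk2).symm
    · show LinearMap.det (twMap σ (R (inr (c1 p)))) = 1
      rw [det_tw, hdet, map_one]
    · haveI := Fintype.ofFinite N
      intro h
      have h3 : IsIrr (rN R).character :=
        ⟨V, inferInstance, inferInstance, inferInstance, rN R, hR, rfl⟩
      exact hN (h.trans (Pool.Agent.Y63.AWC.deg_dvd h3 (char_one _)))
  exact h1.symm.trans ((tw_trace σ (R ⟨m, c1 p⟩)).symm.trans h2.symm)

/-- the function on the fixed points -/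
def fM (m : Md d) : ℂ := R.character ⟨m, c1 p⟩

include hN in
theorem B_f [Fintype (Md d)] (hR : (rN R).IsIrreducible)
    (hdet : ∀ c, LinearMap.det (R (inr c)) = 1) : IC.B (fM d hd R) (fM d hd R) = 1 := by
  haveI := Fintype.ofFinite N
  have h1 := orth1 R hR (c1 p)
  have h2 := sum_tr d hN hd (fun n => R.character ⟨n, c1 p⟩ *
    R.character (⟨n, c1 p⟩ : N ⋊[pw d hd] Multiplicative (ZMod p))⁻¹) (fun x n => by
      have h3 := tw_class R R (c1 p) x n
      rw [pw_c1] at h3
      exact h3)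
  rw [h1] at h2
  rw [h2]
  unfold IC.B
  congr 1
  refine Finset.sum_congr rfl fun m _ => ?_
  congr 1
  have h3 : (⟨m, c1 p⟩ : N ⋊[pw d hd] Multiplicative (ZMod p))⁻¹ = mc d hd (m⁻¹, (c1 p)⁻¹) := by
    have : (⟨m, c1 p⟩ : N ⋊[pw d hd] Multiplicative (ZMod p)) = mc d hd (m, c1 p) := rfl
    rw [this, ← map_inv]
    rfl
  rw [h3]
  exact (rat d hd hN R hR hdet c1_inv_ne m⁻¹).symm

theorem cls_f : IC.IsClass (fM d hd R) := by
  intro g y
  show R.character (mc d hd (y * g * y⁻¹, c1 p)) = R.character (mc d hd (g, c1 p))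
  have h : ((y * g * y⁻¹, c1 p) : Md d × Multiplicative (ZMod p)) = (y, 1) * (g, c1 p) * (y, 1)⁻¹ := by
    refine Prod.ext rfl ?_
    show c1 p = 1 * c1 p * 1⁻¹
    rw [one_mul, inv_one, mul_one]
  rw [h, map_mul, map_mul, map_inv, char_conj]

include hN in
/-- the multiplicities in `fM` are integers -/
theorem mult_int [Fintype (Md d)] (hR : (rN R).IsIrreducible)
    (hdet : ∀ c, LinearMap.det (R (inr c)) = 1) {ψ : Md d → ℂ} (hψ : IsIrr ψ) :
    ∃ z k : ℤ, IC.B (fM d hd R) ψ = z ∧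
      IC.B (fun m : Md d => R.character (inl (m : N))) ψ = z + p * k := by
  haveI : Fintype (Md d × Multiplicative (ZMod p)) := Fintype.ofFinite _
  -- total multiplicities
  obtain ⟨n, hn⟩ := rc_B (G := Md d × Multiplicative (ZMod p))
    (f := fun x => R.character (mc d hd x)) (f' := fun x => ψ x.1)
    ⟨V, inferInstance, inferInstance, inferInstance, MonoidHom.comp R (mc d hd), rfl⟩
    (rc_comp (rc_irr hψ) (MonoidHom.fst (Md d) (Multiplicative (ZMod p))))
  obtain ⟨b, hb⟩ := rc_B (G := Md d) (f := fun m : Md d => R.character (inl (m : N))) (f' := ψ)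
    (rc_comp (G := Md d) (H := N ⋊[pw d hd] Multiplicative (ZMod p)) (f := R.character)
      ⟨V, inferInstance, inferInstance, inferInstance, R, rfl⟩
      ((inl : N →* N ⋊[pw d hd] Multiplicative (ZMod p)).comp (Md d).subtype)) (rc_irr hψ)
  have hsum : (p : ℂ) * n = b + (p - 1 : ℂ) * IC.B (fM d hd R) ψ := by
    have h1 : ∀ c : Multiplicative (ZMod p),
        (Nat.card (Md d) : ℂ)⁻¹ * ∑ m : Md d, R.character (mc d hd (m, c)) * ψ m⁻¹ =
          if c = 1 then (b : ℂ) else IC.B (fM d hd R) ψ := by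
      intro c
      by_cases hc : c = 1
      · rw [if_pos hc, ← hb, hc]
        rfl
      · rw [if_neg hc]
        unfold IC.B
        congr 1
        refine Finset.sum_congr rfl fun m _ => ?_
        congr 1
        exact rat d hd hN R hR hdet hc m
    have h2 : ∑ c : Multiplicative (ZMod p), (if c = 1 then (b : ℂ) else IC.B (fM d hd R) ψ) =
        b + (p - 1 : ℂ) * IC.B (fM d hd R) ψ := by
      rw [← Finset.add_sum_erase _ _ (Finset.mem_univ (1 : Multiplicative (ZMod p))), if_pos rfl]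
      congr 1
      rw [Finset.sum_congr rfl (g := fun _ => IC.B (fM d hd R) ψ) (fun c hc => by
        rw [if_neg (Finset.ne_of_mem_erase hc)]), Finset.sum_const,
        Finset.card_erase_of_mem (Finset.mem_univ _), Finset.card_univ,
        ← Nat.card_eq_fintype_card, card_C, nsmul_eq_mul, Nat.cast_sub hp.out.one_lt.le,
        Nat.cast_one]
    rw [← h2, ← hn]
    simp only [← h1]
    unfold IC.B
    have h3 : (Nat.card (Md d) : ℂ) ≠ 0 := by exact_mod_cast Nat.card_pos.ne'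
    have h4 : (p : ℂ) ≠ 0 := by exact_mod_cast hp.out.ne_zero
    rw [Nat.card_prod, card_C, ← Finset.mul_sum]
    have h5 : ∑ x : Md d × Multiplicative (ZMod p), R.character (mc d hd x) * ψ (x⁻¹).1 =
        ∑ c : Multiplicative (ZMod p), ∑ m : Md d, R.character (mc d hd (m, c)) * ψ m⁻¹ := by
      rw [Finset.sum_comm, ← Fintype.sum_prod_type']
      refine Finset.sum_congr ?_ fun _ _ => rfl
      ext x
      simp
    rw [h5]
    push_cast
    field_simp
  -- integrality
  have hint : IsIntegral ℤ (IC.B (fM d hd R) ψ) := by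
    obtain ⟨U, i1, i2, i3, ρ, _, rfl⟩ := hψ
    have h1 := GcdP.sum_b (MonoidHom.id (Md d)) (MonoidHom.id (Md d)) ρ
      (MonoidHom.comp R (mc d hd)) (c1 p)
    have h2 : IC.B (fM d hd R) ρ.character = pr (fun k : Md d => Representation.character
        (MonoidHom.comp R (mc d hd) : Representation ℂ (Md d × Multiplicative (ZMod p)) V)
        ((MonoidHom.id (Md d)) ((MonoidHom.id (Md d)) k), c1 p)) (fun k => ρ.character
          ((MonoidHom.id (Md d)) k)) := by
      rw [pr_eq]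
      rfl
    rw [h2, ← h1]
    refine IsIntegral.sum _ fun χ _ => IsIntegral.mul ?_ ?_
    · have h8 : (χ (Additive.ofMul (c1 p))) ^ p = 1 := by
        rw [← AddChar.map_nsmul_eq_pow]
        have h9 : p • Additive.ofMul (c1 p) = 0 := by
          rw [← ofMul_pow, c_pow, ofMul_one]
        rw [h9, AddChar.map_zero_eq_one]
      refine IsIntegral.of_pow (n := p) hp.out.pos ?_
      rw [h8]
      exact isIntegral_one
    · have : IsIntegral ℤ (algebraMap ℤ ℂ
        (Module.finrank ℂ (GcdP.W (MonoidHom.id (Md d)) (MonoidHom.id (Md d)) ρ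
          (MonoidHom.comp R (mc d hd)) χ) : ℤ)) := isIntegral_algebraMap
      simpa using this
  have hp1 : ((p : ℤ) - 1) ≠ 0 := by
    have := hp.out.one_lt
    omega
  have hp1' : ((p : ℂ) - 1) ≠ 0 := by exact_mod_cast hp1
  have h3 : IC.B (fM d hd R) ψ = (((p : ℤ) * n - b : ℤ) : ℂ) / (((p : ℤ) - 1 : ℤ) : ℂ) := by
    push_cast
    rw [eq_div_iff hp1']
    linear_combination -hsum
  have h4 := hint
  rw [h3] at h4
  obtain ⟨z, hz⟩ := IC.int_of_integral_rat hp1 h4
  refine ⟨z, n - z, ?_, ?_⟩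
  · rw [h3, hz]
    push_cast
    rw [mul_div_cancel_left₀ _ hp1']
  · rw [hb]
    have h5 : (b : ℤ) = p * n - (p - 1) * z := by rw [← hz]; ring
    have h6 : ((b : ℤ) : ℂ) = ((p * n - (p - 1) * z : ℤ) : ℂ) := congrArg _ h5
    push_cast at h6
    rw [h6]
    push_cast
    ring

include hN in
/-- **The local correspondence.** -/
theorem local_corr (hR : (rN R).IsIrreducible) (hdet : ∀ c, LinearMap.det (R (inr c)) = 1) :
    ∃ (ψ : Md d → ℂ) (ε : ℤ), IsIrr ψ ∧ (ε = 1 ∨ ε = -1) ∧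
      (∀ (m : Md d) (c : Multiplicative (ZMod p)), c ≠ 1 → R.character ⟨m, c⟩ = ε * ψ m) ∧
      ∀ ψ' : Md d → ℂ, IsIrr ψ' → ∃ k : ℤ,
        pr (fun m : Md d => R.character (inl (m : N))) ψ' = (if ψ' = ψ then (ε : ℂ) else 0) + p * k := by
  haveI : Fintype (Md d) := Fintype.ofFinite _
  have h1 : ∀ ψ : {ψ : Md d → ℂ // IsIrr ψ}, ∃ z k : ℤ, IC.B (fM d hd R) ψ.1 = z ∧
      IC.B (fun m : Md d => R.character (inl (m : N))) ψ.1 = z + p * k := fun ψ =>
    mult_int d hd hN R hR hdet ψ.2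
  choose z k hz hk using h1
  let Z : (Md d → ℂ) → ℤ := fun ψ => if h : IsIrr ψ then z ⟨ψ, h⟩ else 0
  have hZ : ∀ ψ ∈ Irr (Md d), IC.B (fM d hd R) ψ = Z ψ := by
    intro ψ hψ
    have h2 : IsIrr ψ := mem_Irr.mp hψ
    have h3 : Z ψ = z ⟨ψ, h2⟩ := dif_pos h2
    rw [h3]
    exact hz ⟨ψ, h2⟩
  have h2 : ∑ ψ ∈ Irr (Md d), Z ψ ^ 2 = 1 := by
    have h3 := IC.B_expand (fM d hd R) (fM d hd R) (cls_f d hd R)
    rw [B_f d hd hN R hR hdet] at h3
    have h4 : ((∑ ψ ∈ Irr (Md d), Z ψ ^ 2 : ℤ) : ℂ) = 1 := by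
      rw [h3]
      push_cast
      refine Finset.sum_congr rfl fun ψ hψ => ?_
      rw [IC.B_comm ψ, hZ ψ hψ, sq]
    exact_mod_cast h4
  obtain ⟨ψ, hψ, hne⟩ : ∃ ψ ∈ Irr (Md d), Z ψ ^ 2 ≠ 0 := by
    by_contra hcon
    push Not at hcon
    rw [Finset.sum_eq_zero hcon] at h2
    exact zero_ne_one h2
  have hψ' : IsIrr ψ := mem_Irr.mp hψ
  have hle : Z ψ ^ 2 ≤ 1 := by
    rw [← h2]
    exact Finset.single_le_sum (f := fun ψ => Z ψ ^ 2) (fun _ _ => sq_nonneg _) hψ
  have hone : Z ψ ^ 2 = 1 := by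
    have := sq_nonneg (Z ψ)
    omega
  have hε : Z ψ = 1 ∨ Z ψ = -1 := by
    have h3 : (Z ψ - 1) * (Z ψ + 1) = 0 := by linear_combination hone
    rcases mul_eq_zero.1 h3 with h4 | h4
    · left
      omega
    · right
      omega
  have hoth : ∀ ψ' ∈ Irr (Md d), ψ' ≠ ψ → Z ψ' = 0 := by
    intro ψ' h3 h4
    have h5 : Z ψ' ^ 2 + Z ψ ^ 2 ≤ 1 := by
      rw [← h2, ← Finset.add_sum_erase _ _ hψ, add_comm]
      refine add_le_add_right ?_ _
      exact Finset.single_le_sum (f := fun ψ => Z ψ ^ 2) (fun _ _ => sq_nonneg _)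
        (Finset.mem_erase.2 ⟨h4, h3⟩)
    have h6 : Z ψ' ^ 2 = 0 := by
      have := sq_nonneg (Z ψ')
      omega
    exact pow_eq_zero_iff two_ne_zero |>.1 h6
  refine ⟨ψ, Z ψ, hψ', hε, fun m c hc => ?_, fun ψ' h3 => ?_⟩
  · rw [rat d hd hN R hR hdet hc m]
    have h3 := congrFun (IC.expand (fM d hd R) (cls_f d hd R)) m
    rw [Finset.sum_apply, Finset.sum_eq_single ψ] at h3
    · rw [Pi.smul_apply, smul_eq_mul, hZ ψ hψ] at h3
      exact h3
    · intro ψ' h4 h5
      rw [Pi.smul_apply, hZ ψ' h4, hoth ψ' h4 h5, Int.cast_zero, zero_smul]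
    · intro h4
      exact absurd hψ h4
  · refine ⟨k ⟨ψ', h3⟩, ?_⟩
    rw [pr_eq, hk ⟨ψ', h3⟩]
    congr 1
    have h4 : Z ψ' = z ⟨ψ', h3⟩ := dif_pos h3
    rw [← h4]
    by_cases h5 : ψ' = ψ
    · rw [if_pos h5, h5]
    · rw [if_neg h5, hoth ψ' (mem_Irr.mpr h3) h5, Int.cast_zero]

end

end GlaP

end Pool.Agent.ZH17.RD
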