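import Pool.Agent.ZH17.RD.GlaC

/-!
# Piece GLA of project RD, fourth part: the representation of the stabiliser times the cyclic group
-/

set_option autoImplicit false
set_option linter.unusedSectionVars false
set_option linter.style.haveILetI false

open scoped BigOperators Classical TensorProduct

noncomputable section

namespace Pool.Agent.ZH17.RD

open Pool.Agent.Helper884 Pool.Agent.K3h3.KB Pool.Agent.K3h3.MK Pool.Agent.K3h83.IN
open Pool.Agent.H254R3.IN (IsIrr mem_Irr schur irr_nontrivial scalar_inj)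
open IC (Irr)
open Representation SemidirectProduct
open LbP (Ah aα rh rh_apply rh_inn inn Ah_ker Ah_spec exists_Ah factor aα_apply)

namespace GlaP

theorem rep_inv {G H T : Type} [Group G] [Group H] [AddCommGroup T] [Module ℂ T]
    (A : Representation ℂ G T) (B : Representation ℂ H T) {g : G} {h : H} (e : A g = B h) :
    A g⁻¹ = B h⁻¹ := by
  calc A g⁻¹ = A g⁻¹ * (B h * B h⁻¹) := by rw [← map_mul, mul_inv_cancel, map_one, mul_one]
    _ = (A g⁻¹ * A g) * B h⁻¹ := by rw [e, mul_assoc]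
    _ = B h⁻¹ := by rw [← map_mul, inv_mul_cancel, map_one, one_mul]

section

variable {N : Type} [Group N] [Finite N] {p : ℕ} [hp : Fact p.Prime] (d : MulAut N)
  (hd : d ^ p = 1) {V : Type} [AddCommGroup V] [Module ℂ V] [FiniteDimensional ℂ V]
  (ρ : Representation ℂ N V)

theorem exists_D (hN : ¬ p ∣ Nat.card N) (hd : d ^ p = 1) (hρ : ρ.IsIrreducible)
    (hinv : ∀ n, ρ.character (d n) = ρ.character n) :
    ∃ D : Ah ρ, aα ρ D = d ∧ D ^ p = 1 ∧
      (∀ y : Ah ρ, aα ρ y * d = d * aα ρ y → y * D = D * y) ∧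
      LinearMap.det (D.1.2 : V →ₗ[ℂ] V) = 1 := by
  haveI := Fintype.ofFinite N
  haveI : Nontrivial V := irr_nontrivial ρ hρ
  obtain ⟨x, hx⟩ := exists_Ah ρ hρ d hinv
  have hirr : IsIrr ρ.character := ⟨V, inferInstance, inferInstance, inferInstance, ρ, hρ, rfl⟩
  have hcop : Nat.Coprime p (Module.finrank ℂ V * Nat.card N) := by
    rw [Nat.Prime.coprime_iff_not_dvd hp.out]
    intro h
    rcases (Nat.Prime.dvd_mul hp.out).1 h with h1 | h1
    · exact hN (h1.trans (Pool.Agent.Y63.AWC.deg_dvd hirr (char_one _)))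
    · exact hN h1
  obtain ⟨D, h1, h2, h3⟩ := exists_lift (aα ρ) hcop (fun z hz g => by
    obtain ⟨c, hc, -⟩ := Ah_ker ρ hρ z hz
    refine Subtype.ext (Prod.ext ?_ (Units.ext ?_))
    · show z.1.1 * g.1.1 = g.1.1 * z.1.1
      have h4 : z.1.1 = 1 := hz
      rw [h4, one_mul, mul_one]
    · show (z.1.2 : V →ₗ[ℂ] V) * (g.1.2 : V →ₗ[ℂ] V) = (g.1.2 : V →ₗ[ℂ] V) * (z.1.2 : V →ₗ[ℂ] V)
      rw [hc]
      refine LinearMap.ext fun v => ?_
      show c • (g.1.2 : V →ₗ[ℂ] V) v = (g.1.2 : V →ₗ[ℂ] V) (c • v)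
      rw [map_smul]) (fun z hz => by
    obtain ⟨c, hc, hc1⟩ := Ah_ker ρ hρ z hz
    refine Subtype.ext (Prod.ext ?_ (Units.ext ?_))
    · show z.1.1 ^ _ = 1
      have h4 : z.1.1 = 1 := hz
      rw [h4, one_pow]
    · show ((z.1.2 ^ (Module.finrank ℂ V * Nat.card N) : (V →ₗ[ℂ] V)ˣ) : V →ₗ[ℂ] V) = 1
      rw [Units.val_pow_eq_pow_val, hc, smul_pow, hc1, one_smul]
      exact one_pow _) hd hx
  refine ⟨D, h1, h2, h3, ?_⟩
  have h4 : LinearMap.det (D.1.2 : V →ₗ[ℂ] V) ^ Nat.card N = 1 := D.2.2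
  have h5 : LinearMap.det (D.1.2 : V →ₗ[ℂ] V) ^ p = 1 := by
    rw [← map_pow, ← Units.val_pow_eq_pow_val]
    have h6 : D.1.2 ^ p = 1 := congrArg (fun x : Ah ρ => x.1.2) h2
    rw [h6, Units.val_one, map_one]
  have h6 := pow_of_modEq h5 (exists_k ((Nat.Prime.coprime_iff_not_dvd hp.out).2 hN)).choose_spec.1
  rw [← h6]
  exact pow_of_dvd h4 (exists_k ((Nat.Prime.coprime_iff_not_dvd hp.out).2 hN)).choose_spec.2

variable (D : Ah ρ) (hD : D ^ p = 1) (hDd : aα ρ D = d)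

include hDd in
theorem aα_pw (c : Multiplicative (ZMod p)) : aα ρ (pw D hD c) = pw d hd c := by
  rw [pw_apply, pw_apply, map_pow, hDd]

/-- the map of semidirect products -/
def mp : N ⋊[pw d hd] Multiplicative (ZMod p) →* N ⋊[aα ρ] Ah ρ where
  toFun x := ⟨x.left, pw D hD x.right⟩
  map_one' := by
    ext1
    · rfl
    · exact map_one (pw D hD)
  map_mul' x y := by
    ext1
    · show x.left * pw d hd x.right y.left = x.left * aα ρ (pw D hD x.right) y.left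
      rw [aα_pw d hd ρ D hD hDd]
    · exact map_mul (pw D hD) _ _

/-- the extension -/
def Rd : Representation ℂ (N ⋊[pw d hd] Multiplicative (ZMod p)) V :=
  MonoidHom.comp (rh ρ) (mp d hd ρ D hD hDd)

theorem Rd_apply (x : N ⋊[pw d hd] Multiplicative (ZMod p)) :
    Rd d hd ρ D hD hDd x = ρ x.left * ((pw D hD x.right).1.2 : V →ₗ[ℂ] V) := rfl

theorem rN_Rd : rN (Rd d hd ρ D hD hDd) = ρ := by
  refine MonoidHom.ext fun n => ?_
  show ρ n * ((pw D hD 1).1.2 : V →ₗ[ℂ] V) = ρ n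
  rw [map_one]
  exact mul_one _

theorem det_Rd (hdet : LinearMap.det (D.1.2 : V →ₗ[ℂ] V) = 1) (c : Multiplicative (ZMod p)) :
    LinearMap.det (Rd d hd ρ D hD hDd (inr c)) = 1 := by
  rw [Rd_apply]
  show LinearMap.det (ρ 1 * ((D.1.2 ^ (Multiplicative.toAdd c).val : (V →ₗ[ℂ] V)ˣ) : V →ₗ[ℂ] V)) = 1
  rw [map_one, one_mul, Units.val_pow_eq_pow_val, map_pow, hdet, one_pow]

/-- the preimage of the centraliser of `d` -/
def AC : Subgroup (Ah ρ) := (Cd d).comap (aα ρ)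

/-- the action -/
def φC : AC d ρ →* MulAut N := (aα ρ).comp (AC d ρ).subtype

/-- the map to the group of automorphisms -/
def PC : N ⋊[φC d ρ] AC d ρ →* N ⋊[(Cd d).subtype] Cd d where
  toFun g := ⟨g.left, ⟨aα ρ g.right.1, g.right.2⟩⟩
  map_one' := rfl
  map_mul' _ _ := rfl

/-- the stabiliser -/
def StC (θ : N → ℂ) : Subgroup (N ⋊[(Cd d).subtype] Cd d) where
  carrier := {x | ∀ r, θ ((x.right : MulAut N) r) = θ r}
  one_mem' := fun _ => rfl
  mul_mem' := by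
    intro x y hx hy r
    show θ (((x.right : MulAut N) * (y.right : MulAut N)) r) = θ r
    rw [MulAut.mul_apply, hx, hy]
  inv_mem' := by
    intro x hx r
    show θ (((x.right : MulAut N))⁻¹ r) = θ r
    rw [← hx, MulAut.apply_inv_self]

theorem mem_StC (θ : N → ℂ) (x : N ⋊[(Cd d).subtype] Cd d) :
    x ∈ StC d θ ↔ ∀ r, θ ((x.right : MulAut N) r) = θ r := Iff.rfl

/-- the product of an element of the preimage and a power of the lift of `d` -/
def yc (hcomm : ∀ y : Ah ρ, aα ρ y * d = d * aα ρ y → y * D = D * y) :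
    AC d ρ × Multiplicative (ZMod p) →* Ah ρ where
  toFun x := x.1 * pw D hD x.2
  map_one' := by
    show (1 : Ah ρ) * pw D hD 1 = 1
    rw [map_one, one_mul]
  map_mul' x y := by
    show (x.1 : Ah ρ) * y.1 * pw D hD (x.2 * y.2) = (x.1 * pw D hD x.2) * (y.1 * pw D hD y.2)
    have h1 : Commute (y.1 : Ah ρ) D := hcomm _ (y.1.2.1)
    have h2 : Commute (y.1 : Ah ρ) (pw D hD x.2) := h1.pow_right _
    rw [map_mul]
    calc (x.1 : Ah ρ) * y.1 * (pw D hD x.2 * pw D hD y.2)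
        = x.1 * ((y.1 : Ah ρ) * pw D hD x.2) * pw D hD y.2 := by simp only [mul_assoc]
      _ = x.1 * (pw D hD x.2 * (y.1 : Ah ρ)) * pw D hD y.2 := by rw [h2.eq]
      _ = _ := by simp only [mul_assoc]

/-- the map to the big group -/
def eC : N ⋊[φC d ρ] AC d ρ →* N ⋊[aα ρ] Ah ρ where
  toFun g := ⟨g.left, g.right.1⟩
  map_one' := rfl
  map_mul' _ _ := rfl

/-- first factor -/
def U1 : Representation ℂ ((N ⋊[φC d ρ] AC d ρ) × Multiplicative (ZMod p)) V :=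
  MonoidHom.comp (rh ρ) ((eC d ρ).comp (MonoidHom.fst _ _))

/-- before dualising -/
def U0 (hcomm : ∀ y : Ah ρ, aα ρ y * d = d * aα ρ y → y * D = D * y) :
    Representation ℂ ((N ⋊[φC d ρ] AC d ρ) × Multiplicative (ZMod p)) V :=
  MonoidHom.comp (rh ρ) ((inr : Ah ρ →* N ⋊[aα ρ] Ah ρ).comp ((yc d ρ D hD hcomm).comp
    ((rightHom : N ⋊[φC d ρ] AC d ρ →* AC d ρ).prodMap (MonoidHom.id (Multiplicative (ZMod p))))))

/-- the product -/
def UD (hcomm : ∀ y : Ah ρ, aα ρ y * d = d * aα ρ y → y * D = D * y) :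
    Representation ℂ ((N ⋊[φC d ρ] AC d ρ) × Multiplicative (ZMod p))
      (V ⊗[ℂ] (Module.Dual ℂ V)) :=
  (U1 (p := p) d ρ).tprod (Representation.dual (U0 d ρ D hD hcomm))

theorem U1_apply (g : (N ⋊[φC d ρ] AC d ρ) × Multiplicative (ZMod p)) :
    U1 (p := p) d ρ g = ρ g.1.left * (g.1.right.1.1.2 : V →ₗ[ℂ] V) := rfl

theorem U0_apply (hcomm : ∀ y : Ah ρ, aα ρ y * d = d * aα ρ y → y * D = D * y)
    (g : (N ⋊[φC d ρ] AC d ρ) × Multiplicative (ZMod p)) :
    U0 d ρ D hD hcomm g = ρ 1 * ((g.1.right.1.1.2 : V →ₗ[ℂ] V) *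
      ((pw D hD g.2).1.2 : V →ₗ[ℂ] V)) := rfl

theorem UD_ker (hρ : ρ.IsIrreducible)
    (hcomm : ∀ y : Ah ρ, aα ρ y * d = d * aα ρ y → y * D = D * y)
    (g : (N ⋊[φC d ρ] AC d ρ) × Multiplicative (ZMod p))
    (hg : (PC d ρ).prodMap (MonoidHom.id (Multiplicative (ZMod p))) g = 1) :
    UD d ρ D hD hcomm g = 1 := by
  haveI : Nontrivial V := irr_nontrivial ρ hρ
  have hdim : 0 < Module.finrank ℂ V := Module.finrank_pos
  have h0 : PC d ρ g.1 = 1 := congrArg Prod.fst hg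
  have h1 : g.1.left = 1 := congrArg SemidirectProduct.left h0
  have h2 : g.1.right.1.1.1 = 1 := congrArg (fun x : N ⋊[(Cd d).subtype] Cd d =>
    (x.right : MulAut N)) h0
  have h3 : g.2 = 1 := congrArg Prod.snd hg
  obtain ⟨c, hc, hc1⟩ := Ah_ker ρ hρ g.1.right.1 h2
  have hc0 : c ≠ 0 := by
    rintro rfl
    rw [zero_pow (Nat.mul_pos hdim Nat.card_pos).ne'] at hc1
    exact zero_ne_one hc1
  have h4 : U1 (p := p) d ρ g = c • LinearMap.id := by
    rw [U1_apply, h1, hc, map_one, one_mul]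
  have h5 : U0 d ρ D hD hcomm g = c • LinearMap.id := by
    rw [U0_apply, hc, h3, map_one, map_one, one_mul]
    exact mul_one _
  have h6 : U0 d ρ D hD hcomm g⁻¹ = c⁻¹ • LinearMap.id := by
    have h7 : U0 d ρ D hD hcomm g⁻¹ * U0 d ρ D hD hcomm g = 1 := by
      rw [← map_mul, inv_mul_cancel, map_one]
    rw [h5] at h7
    refine LinearMap.ext fun v => ?_
    have h8 := congrArg (fun f => f (c⁻¹ • v)) h7
    have h9 : U0 d ρ D hD hcomm g⁻¹ (c • (c⁻¹ • v)) = c⁻¹ • v := h8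
    rw [smul_smul, mul_inv_cancel₀ hc0, one_smul] at h9
    exact h9
  refine TensorProduct.ext' fun v f => ?_
  show (U1 (p := p) d ρ g v) ⊗ₜ[ℂ] (Representation.dual (U0 d ρ D hD hcomm) g f) = v ⊗ₜ[ℂ] f
  have h7 : Representation.dual (U0 d ρ D hD hcomm) g f = c⁻¹ • f := by
    refine LinearMap.ext fun w => ?_
    show f (U0 d ρ D hD hcomm g⁻¹ w) = c⁻¹ • f w
    rw [h6]
    show f (c⁻¹ • w) = c⁻¹ • f w
    rw [map_smul]
  rw [h7, h4]
  show (c • v) ⊗ₜ[ℂ] (c⁻¹ • f) = v ⊗ₜ[ℂ] f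
  rw [TensorProduct.smul_tmul_smul, mul_inv_cancel₀ hc0, one_smul]

theorem conj_mem_Cd (m : Md d) : MulAut.conj (m : N) ∈ Cd d := by
  refine ⟨?_, fun z hz => ?_⟩
  · ext x
    show (m : N) * d x * (m : N)⁻¹ = d ((m : N) * x * (m : N)⁻¹)
    rw [map_mul, map_mul, map_inv, show d (m : N) = m from m.2]
  · show (m : N) * z * (m : N)⁻¹ = z
    rw [(Subgroup.mem_center_iff.1 hz) (m : N)]
    group

/-- the inner elements -/
def cjm (m : Md d) : Cd d := ⟨MulAut.conj (m : N), conj_mem_Cd d m⟩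

theorem inn_mem (m : Md d) : inn ρ (m : N) ∈ AC d ρ := conj_mem_Cd d m

theorem UD_char (hcomm : ∀ y : Ah ρ, aα ρ y * d = d * aα ρ y → y * D = D * y) (n : N) (m : Md d)
    (c : Multiplicative (ZMod p)) :
    (UD d ρ D hD hcomm).character (⟨n * (m : N)⁻¹, ⟨inn ρ (m : N), inn_mem d ρ m⟩⟩, c) =
      ρ.character n * (Rd d hd ρ D hD hDd).character
        (⟨(m : N), c⟩ : N ⋊[pw d hd] Multiplicative (ZMod p))⁻¹ := by
  have h1 : (UD d ρ D hD hcomm).character =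
      (U1 (p := p) d ρ).character * (Representation.dual (U0 d ρ D hD hcomm)).character :=
    char_tensor _ _
  rw [h1, Pi.mul_apply]
  congr 1
  · show LinearMap.trace ℂ V (rh ρ ⟨n * (m : N)⁻¹, inn ρ (m : N)⟩) = _
    rw [rh_inn]
    rfl
  · rw [char_dual]
    show LinearMap.trace ℂ V _ = LinearMap.trace ℂ V _
    congr 1
    refine rep_inv (U0 d ρ D hD hcomm) (Rd d hd ρ D hD hDd) ?_
    rw [U0_apply, Rd_apply, map_one, one_mul]
    rfl

/-- the representation of the stabiliser times the cyclic group -/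
theorem exists_Om (hN : ¬ p ∣ Nat.card N) (hρ : ρ.IsIrreducible)
    (hcomm : ∀ y : Ah ρ, aα ρ y * d = d * aα ρ y → y * D = D * y) :
    ∃ Ω : StC d ρ.character × Multiplicative (ZMod p) → ℂ, RC Ω ∧
      ∀ (n : N) (m : Md d) (c : Multiplicative (ZMod p))
        (h : (⟨n * (m : N)⁻¹, cjm d m⟩ : N ⋊[(Cd d).subtype] Cd d) ∈ StC d ρ.character),
        Ω (⟨_, h⟩, c) = ρ.character n * (Rd d hd ρ D hD hDd).character
          (⟨(m : N), c⟩ : N ⋊[pw d hd] Multiplicative (ZMod p))⁻¹ := by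
  have hmem : ∀ g, PC d ρ g ∈ StC d ρ.character := by
    intro g r
    show LinearMap.trace ℂ V (ρ (g.right.1.1.1 r)) = LinearMap.trace ℂ V (ρ r)
    have h1 := Ah_spec ρ g.right.1 r
    have h2 : ρ (g.right.1.1.1 r) = (g.right.1.1.2 : V →ₗ[ℂ] V) * ρ r *
        (((g.right.1.1.2)⁻¹ : (V →ₗ[ℂ] V)ˣ) : V →ₗ[ℂ] V) := by
      rw [Units.eq_mul_inv_iff_mul_eq]
      exact h1.symm
    rw [h2, LinearMap.trace_mul_comm, ← mul_assoc, Units.inv_mul, one_mul]
  let P : N ⋊[φC d ρ] AC d ρ →* StC d ρ.character := (PC d ρ).codRestrict _ hmem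
  have hP : Function.Surjective P := by
    rintro ⟨x, hx⟩
    obtain ⟨b, hb⟩ := exists_Ah ρ hρ x.right hx
    have hb' : b ∈ AC d ρ := by
      show b.1.1 ∈ Cd d
      rw [hb]
      exact x.right.2
    refine ⟨⟨x.left, ⟨b, hb'⟩⟩, Subtype.ext ?_⟩
    show PC d ρ ⟨x.left, ⟨b, hb'⟩⟩ = x
    ext1
    · rfl
    · exact Subtype.ext hb
  let P' : (N ⋊[φC d ρ] AC d ρ) × Multiplicative (ZMod p) →*
      StC d ρ.character × Multiplicative (ZMod p) := P.prodMap (MonoidHom.id _)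
  have hP' : Function.Surjective P' := by
    rintro ⟨x, c⟩
    obtain ⟨g, rfl⟩ := hP x
    exact ⟨(g, c), rfl⟩
  obtain ⟨R', hR'⟩ := factor P' hP' (UD d ρ D hD hcomm) (fun e he =>
    UD_ker d ρ D hD hρ hcomm e (by
      have h1 : P e.1 = 1 := congrArg Prod.fst he
      have h2 : e.2 = 1 := congrArg Prod.snd he
      refine Prod.ext ?_ h2
      exact congrArg Subtype.val h1))
  refine ⟨R'.character, ⟨_, inferInstance, inferInstance, inferInstance, R', rfl⟩,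
    fun n m c h => ?_⟩
  have h1 : ((⟨_, h⟩, c) : StC d ρ.character × Multiplicative (ZMod p)) =
      P' (⟨n * (m : N)⁻¹, ⟨inn ρ (m : N), inn_mem d ρ m⟩⟩, c) := by
    refine Prod.ext (Subtype.ext ?_) rfl
    rfl
  rw [h1]
  show LinearMap.trace ℂ _ (R' (P' (⟨n * (m : N)⁻¹, ⟨inn ρ (m : N), inn_mem d ρ m⟩⟩, c))) = _
  rw [hR']
  exact UD_char d hd ρ D hD hDd hcomm n m c

end

end GlaP

end Pool.Agent.ZH17.RD
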