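import Pool.Agent.ZH17.RD.Stm

/-!
# Tensor powers of a representation along a cocycle
-/

set_option autoImplicit false
set_option linter.unusedSectionVars false
set_option linter.style.haveILetI false

open scoped BigOperators Classical

noncomputable section

namespace Pool.Agent.ZH17.RD

open Pool.Agent.Helper884 Pool.Agent.K3h3.KB Pool.Agent.K3h3.MK Pool.Agent.K3h83.IN
open Pool.Agent.H254R3.IN (IsIrr mem_Irr)
open IC (Irr)
open SemidirectProduct

section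

variable {N A H I : Type} [Group N] [Group A] [Group H] [Fintype I] {α : A →* MulAut N}
  (σ : H →* Equiv.Perm I) (c : H → I → A) (φ : H →* MulAut (I → N))

/-- the matrices of the tensor power -/
def wMat {d : ℕ} (R : N ⋊[α] A →* Matrix (Fin d) (Fin d) ℂ) (g : (I → N) ⋊[φ] H) :
    Matrix (I → Fin d) (I → Fin d) ℂ :=
  fun x y => ∏ j, R ⟨g.left j, c g.right ((σ g.right)⁻¹ j)⟩ (x j) (y ((σ g.right)⁻¹ j))

variable (hc : ∀ h h' i, c (h * h') i = c h (σ h' i) * c h' i)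
  (hφ : ∀ h n j, φ h n j = α (c h ((σ h)⁻¹ j)) (n ((σ h)⁻¹ j)))

include hc in
theorem c_one (i : I) : c 1 i = 1 := by
  have h := hc 1 1 i
  rw [map_one, Equiv.Perm.one_apply, mul_one] at h
  exact (left_eq_mul.mp h)

include hc hφ in
theorem wMat_mul {d : ℕ} (R : N ⋊[α] A →* Matrix (Fin d) (Fin d) ℂ) (g g' : (I → N) ⋊[φ] H) :
    wMat σ c φ R (g * g') = wMat σ c φ R g * wMat σ c φ R g' := by
  ext x z
  rw [Matrix.mul_apply]
  unfold wMat
  have hs : ∀ j, (σ (g.right * g'.right))⁻¹ j = (σ g'.right)⁻¹ ((σ g.right)⁻¹ j) := by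
    intro j
    rw [map_mul, mul_inv_rev, Equiv.Perm.mul_apply]
  have h1 : ∀ y : I → Fin d, ∏ j, R ⟨g'.left j, c g'.right ((σ g'.right)⁻¹ j)⟩ (y j)
        (z ((σ g'.right)⁻¹ j)) =
      ∏ j, R ⟨g'.left ((σ g.right)⁻¹ j), c g'.right ((σ (g.right * g'.right))⁻¹ j)⟩
        (y ((σ g.right)⁻¹ j)) (z ((σ (g.right * g'.right))⁻¹ j)) := by
    intro y
    refine (Fintype.prod_equiv ((σ g.right)⁻¹ : Equiv.Perm I) _ _ fun j => ?_).symm
    rw [hs]
  simp_rw [h1, ← Finset.prod_mul_distrib]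
  have h2 : ∑ y : I → Fin d, ∏ j, R ⟨g.left j, c g.right ((σ g.right)⁻¹ j)⟩ (x j)
        (y ((σ g.right)⁻¹ j)) *
        R ⟨g'.left ((σ g.right)⁻¹ j), c g'.right ((σ (g.right * g'.right))⁻¹ j)⟩
        (y ((σ g.right)⁻¹ j)) (z ((σ (g.right * g'.right))⁻¹ j)) =
      ∑ y : I → Fin d, ∏ j, R ⟨g.left j, c g.right ((σ g.right)⁻¹ j)⟩ (x j) (y j) *
        R ⟨g'.left ((σ g.right)⁻¹ j), c g'.right ((σ (g.right * g'.right))⁻¹ j)⟩
        (y j) (z ((σ (g.right * g'.right))⁻¹ j)) := by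
    refine Fintype.sum_equiv (Equiv.arrowCongr (σ g.right) (Equiv.refl _)) _ _ fun y => ?_
    simp [Equiv.arrowCongr]
  rw [h2]
  have h3 := Finset.prod_univ_sum (fun _ : I => (Finset.univ : Finset (Fin d))) fun j b =>
    R ⟨g.left j, c g.right ((σ g.right)⁻¹ j)⟩ (x j) b *
      R ⟨g'.left ((σ g.right)⁻¹ j), c g'.right ((σ (g.right * g'.right))⁻¹ j)⟩ b
        (z ((σ (g.right * g'.right))⁻¹ j))
  rw [Fintype.piFinset_univ] at h3
  rw [← h3]
  refine Finset.prod_congr rfl fun j _ => ?_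
  rw [← Matrix.mul_apply, ← map_mul, mul_left, mul_right]
  have e : (⟨(g.left * φ g.right g'.left) j, c (g.right * g'.right)
      ((σ (g.right * g'.right))⁻¹ j)⟩ : N ⋊[α] A) =
      ⟨g.left j, c g.right ((σ g.right)⁻¹ j)⟩ *
        ⟨g'.left ((σ g.right)⁻¹ j), c g'.right ((σ (g.right * g'.right))⁻¹ j)⟩ := by
    ext
    · rw [mul_left]
      simp only [Pi.mul_apply]
      rw [hφ]
    · rw [mul_right]
      simp only
      rw [hc, hs]
      congr 2
      exact ((σ g'.right).apply_symm_apply _)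
  rw [e]

include hc in
theorem wMat_one {d : ℕ} (R : N ⋊[α] A →* Matrix (Fin d) (Fin d) ℂ) :
    wMat σ c φ R 1 = 1 := by
  ext x y
  have e : wMat σ c φ R 1 x y = ∏ j, (1 : Matrix (Fin d) (Fin d) ℂ) (x j) (y j) := by
    unfold wMat
    refine Finset.prod_congr rfl fun j _ => ?_
    have e1 : (⟨(1 : (I → N) ⋊[φ] H).left j, c (1 : (I → N) ⋊[φ] H).right
        ((σ (1 : (I → N) ⋊[φ] H).right)⁻¹ j)⟩ : N ⋊[α] A) = 1 := by
      ext
      · rfl
      · simp only [one_right]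
        exact c_one σ c hc _
    rw [e1, map_one, one_right, map_one, inv_one, Equiv.Perm.one_apply]
  rw [e]
  simp only [Matrix.one_apply]
  by_cases h : x = y
  · subst h
    simp
  · rw [if_neg h]
    obtain ⟨i, hi⟩ := Function.ne_iff.mp h
    exact Finset.prod_eq_zero (Finset.mem_univ i) (by rw [if_neg hi])

/-- the representation -/
def wRep (hc : ∀ h h' i, c (h * h') i = c h (σ h' i) * c h' i)
    (hφ : ∀ h n j, φ h n j = α (c h ((σ h)⁻¹ j)) (n ((σ h)⁻¹ j))) {d : ℕ}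
    (R : N ⋊[α] A →* Matrix (Fin d) (Fin d) ℂ) :
    Representation ℂ ((I → N) ⋊[φ] H) ((I → Fin d) → ℂ) where
  toFun g := Matrix.toLin' (wMat σ c φ R g)
  map_one' := by
    rw [wMat_one σ c φ hc, Matrix.toLin'_one]
    rfl
  map_mul' x y := by
    rw [wMat_mul σ c φ hc hφ, Matrix.toLin'_mul]
    rfl

theorem wRep_char {d : ℕ} (R : N ⋊[α] A →* Matrix (Fin d) (Fin d) ℂ) (n : I → N) (h : H)
    (hs : σ h = 1) :
    (wRep σ c φ hc hφ R).character ⟨n, h⟩ = ∏ i, (R ⟨n i, c h i⟩).trace := by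
  change LinearMap.trace ℂ _ (Matrix.toLin' (wMat σ c φ R ⟨n, h⟩)) = _
  rw [Matrix.trace_toLin'_eq]
  unfold Matrix.trace Matrix.diag wMat
  simp only [hs, inv_one, Equiv.Perm.one_apply]
  have h3 := Finset.prod_univ_sum (fun _ : I => (Finset.univ : Finset (Fin d))) fun i b =>
    R ⟨n i, c h i⟩ b b
  rw [Fintype.piFinset_univ] at h3
  rw [← h3]

include hc hφ in
/-- **The tensor power of a character along a cocycle.** -/
theorem exists_ten {ω₀ : N ⋊[α] A → ℂ} (h : RC ω₀) :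
    ∃ ω : (I → N) ⋊[φ] H → ℂ, RC ω ∧
      ∀ (n : I → N) (h : H), σ h = 1 → ω ⟨n, h⟩ = ∏ i, ω₀ ⟨n i, c h i⟩ := by
  obtain ⟨V, i1, i2, i3, ρ, rfl⟩ := h
  let b := Module.finBasis ℂ V
  let R : N ⋊[α] A →* Matrix (Fin (Module.finrank ℂ V)) (Fin (Module.finrank ℂ V)) ℂ :=
    ((LinearMap.toMatrixAlgEquiv b).toAlgHom.toMonoidHom : (V →ₗ[ℂ] V) →* _).comp ρ
  have hR : ∀ g, (R g).trace = ρ.character g := by
    intro g
    change (LinearMap.toMatrix b b (ρ g)).trace = LinearMap.trace ℂ V (ρ g)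
    rw [LinearMap.trace_eq_matrix_trace ℂ b]
  refine ⟨(wRep σ c φ hc hφ R).character, ⟨(I → Fin (Module.finrank ℂ V)) → ℂ, inferInstance,
    inferInstance, inferInstance, _, rfl⟩, fun n h hs => ?_⟩
  rw [wRep_char σ c φ hc hφ R n h hs]
  exact Finset.prod_congr rfl fun i _ => hR _

end

end Pool.Agent.ZH17.RD
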