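import Pool.Agent.ZH17.RD.LT
import Pool.Agent.ZH17.RD.Ten

/-!
# The transfer theorem for products of commuting linked groups permuted by `H`
-/

set_option autoImplicit false
set_option linter.unusedSectionVars false
set_option linter.style.haveILetI false

open scoped BigOperators Classical

noncomputable section

namespace Pool.Agent.ZH17.RD

open Pool.Agent.Helper884 Pool.Agent.K3h3.KB Pool.Agent.K3h3.MK Pool.Agent.K3h83.IN
open Pool.Agent.H254R3.IN (IsIrr mem_Irr)
open Pool.Agent.K3h18.IN (irr_infl B_infl exists_prod dsc dsc_apply dsc_irr)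
open Pool.Agent.Q99.AS (ten ten_irr B_ten)
open IC (Irr)
open Representation SemidirectProduct

theorem irr_ne {A : Type} [Group A] {χ : A → ℂ} (h : IsIrr χ) : χ 1 ≠ 0 := by
  rw [← ndeg_cast h]
  exact_mod_cast (ndeg_pos h).ne'

/-- central elements -/
theorem cc_mul {A : Type} [Group A] [Finite A] {χ : A → ℂ} (h : IsIrr χ) {z : A}
    (hz : z ∈ Subgroup.center A) (x : A) : χ (z * x) = (χ z / χ 1) * χ x := by
  haveI := Fintype.ofFinite A
  obtain ⟨μ, hμ⟩ := Pool.Agent.K3h18.IN.central (Subgroup.center A).subtype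
    (by rw [Subgroup.range_subtype]) h
  have h1 := hμ ⟨z, hz⟩ 1
  have h2 := hμ ⟨z, hz⟩ x
  change χ (z * 1) = _ at h1
  change χ (z * x) = _ at h2
  rw [mul_one] at h1
  rw [h2, h1, mul_div_cancel_right₀ _ (irr_ne h)]

section

variable {p : ℕ} [hp : Fact p.Prime]

theorem desc {E L : Type} [Group E] [Finite E] [Group L] [Finite L] (q : E →* L)
    (hq : Function.Surjective q) {f : E → ℂ} (hf : IsIrr f)
    (hker : ∀ a ∈ q.ker, ∀ x, f (a * x) = f x) (hd : (ndeg f : ZMod p) ≠ 0) :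
    ∃ χ : X p L, ∀ x, χ.1 (q x) = f x := by
  haveI := Fintype.ofFinite E
  haveI := Fintype.ofFinite L
  have h1 : ∀ x, dsc hq f (q x) = f x := fun x => dsc_apply hq hker x
  refine ⟨⟨dsc hq f, dsc_irr hq hker hf, ?_⟩, h1⟩
  have h2 : ndeg (dsc hq f) = ndeg f := by
    unfold ndeg
    rw [← h1 1, map_one]
  rw [h2]
  exact hd

theorem cover {E L : Type} [Group E] [Finite E] [Group L] [Finite L] (q : E →* L)
    (hq : Function.Surjective q) (χ : X p L) :
    IsIrr (fun x => χ.1 (q x)) ∧ ndeg (fun x => χ.1 (q x)) = ndeg χ.1 := by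
  haveI := Fintype.ofFinite E
  haveI := Fintype.ofFinite L
  refine ⟨irr_infl q hq χ.2.1, ?_⟩
  unfold ndeg
  simp only [map_one]

theorem coverI {A L I : Type} [Group A] [Finite A] [Group L] [Finite L] [Fintype I]
    (q : (I → A) →* L) (hq : Function.Surjective q) (χ : X p L) :
    ∃ s : I → X p A, ∀ n, χ.1 (q n) = ∏ i, (s i).1 (n i) := by
  haveI := Fintype.ofFinite A
  obtain ⟨h1, h2⟩ := cover q hq χ
  obtain ⟨ψ, h3, h4⟩ := cover_pi h1
  have h5 : (ndeg χ.1 : ZMod p) = ∏ i, (ndeg (ψ i) : ZMod p) := by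
    rw [← h2, h4, ndeg_bt h3]
    push_cast
    rfl
  refine ⟨fun i => ⟨ψ i, h3 i, fun h0 => χ.2.2 ?_⟩, fun n => congrFun h4 n⟩
  rw [h5]
  exact Finset.prod_eq_zero (Finset.mem_univ i) h0

theorem bt_irrX {A I : Type} [Group A] [Finite A] [Fintype I] (s : I → X p A) :
    IsIrr (fun n : I → A => ∏ i, (s i).1 (n i)) ∧
      ndeg (fun n : I → A => ∏ i, (s i).1 (n i)) = ∏ i, ndeg (s i).1 := by
  haveI := Fintype.ofFinite A
  exact ⟨bt_irr fun i => (s i).2.1, ndeg_bt fun i => (s i).2.1⟩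

theorem s_unique {A I : Type} [Group A] [Finite A] [Fintype I] {s s' : I → X p A}
    (h : (fun n : I → A => ∏ i, (s i).1 (n i)) = fun n : I → A => ∏ i, (s' i).1 (n i)) :
    s = s' := by
  haveI := Fintype.ofFinite A
  have h1 := bt_inj (ψ := fun i => (s i).1) (φ := fun i => (s' i).1) (fun i => (s i).2.1)
    (fun i => (s' i).2.1) h
  funext i
  exact Subtype.ext (congrFun h1 i)

theorem prod_ne {A I : Type} [Group A] [Finite A] [Fintype I] (s : I → X p A) :
    ((∏ i, ndeg (s i).1 : ℕ) : ZMod p) ≠ 0 := by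
  push_cast
  exact Finset.prod_ne_zero_iff.mpr fun i _ => (s i).2.2

end

section act

variable {N H I : Type} [Group N] [Group H] (σ : H →* Equiv.Perm I) (c : H → I → MulAut N)

/-- the action of `H` on `I → N` -/
def actH (hc : ∀ h h' i, c (h * h') i = c h (σ h' i) * c h' i) : H →* MulAut (I → N) where
  toFun h :=
    { toFun := fun n j => c h ((σ h)⁻¹ j) (n ((σ h)⁻¹ j))
      invFun := fun n i => (c h i)⁻¹ (n (σ h i))
      left_inv := fun n => by
        funext i
        have e : (σ h)⁻¹ (σ h i) = i := (σ h).symm_apply_apply i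
        simp only
        rw [e]
        exact (c h i).symm_apply_apply _
      right_inv := fun n => by
        funext j
        have e : σ h ((σ h)⁻¹ j) = j := (σ h).apply_symm_apply j
        simp only
        rw [e]
        exact (c h ((σ h)⁻¹ j)).apply_symm_apply _
      map_mul' := fun n n' => by
        funext j
        exact map_mul _ _ _ }
  map_one' := by
    have h1 : ∀ i, c 1 i = 1 := by
      intro i
      have h := hc 1 1 i
      rw [map_one, Equiv.Perm.one_apply, mul_one] at h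
      exact left_eq_mul.mp h
    ext n j
    change c 1 ((σ 1)⁻¹ j) (n ((σ 1)⁻¹ j)) = n j
    rw [h1, map_one]
    rfl
  map_mul' h h' := by
    ext n j
    change c (h * h') ((σ (h * h'))⁻¹ j) (n ((σ (h * h'))⁻¹ j)) =
      c h ((σ h)⁻¹ j) (c h' ((σ h')⁻¹ ((σ h)⁻¹ j)) (n ((σ h')⁻¹ ((σ h)⁻¹ j))))
    have e1 : (σ (h * h'))⁻¹ j = (σ h')⁻¹ ((σ h)⁻¹ j) := by
      rw [map_mul, mul_inv_rev, Equiv.Perm.mul_apply]
    have e2 : σ h' ((σ h')⁻¹ ((σ h)⁻¹ j)) = (σ h)⁻¹ j := (σ h').apply_symm_apply _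
    rw [e1, hc, e2]
    rfl

theorem actH_apply (hc : ∀ h h' i, c (h * h') i = c h (σ h' i) * c h' i) (h : H) (n : I → N)
    (j : I) : actH σ c hc h n j = c h ((σ h)⁻¹ j) (n ((σ h)⁻¹ j)) := rfl

end act

section wre

variable {p : ℕ} [hp : Fact p.Prime]

/-- **The transfer theorem for wreath data.** -/
theorem wre {G : Type} [Group G] [Finite G] (P : Sylow p G) {N : Type} [Group N] [Finite N]
    {I : Type} [Fintype I] (F : (I → N) →* G) (H : Subgroup G) (σ : H →* Equiv.Perm I)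
    (c : H → I → MulAut N) (Q : Sylow p N) (hFn : F.range.Normal) (hsup : F.range ⊔ H = ⊤)
    (hNP : NN P ≤ H) (hc : ∀ h h' i, c (h * h') i = c h (σ h' i) * c h' i)
    (hFc : ∀ (h : H) (n : I → N), (h : G) * F n * (h : G)⁻¹ =
      F fun i => c h ((σ h)⁻¹ i) (n ((σ h)⁻¹ i)))
    (hA : ∀ h i, c h i ∈ Ast (Q : Subgroup N)) (hH : ∀ n : I → N, F n ∈ H ↔ ∀ i, n i ∈ NN Q)
    (hFH : ∀ (n : I → N) (hn : F n ∈ H), σ ⟨F n, hn⟩ = 1 ∧ ∀ i, c ⟨F n, hn⟩ i = MulAut.conj (n i))
    (hL : Lnk p Q) : wt (cl p) G = wt (cl p) H := by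
  obtain ⟨β₀, ω₀, hω₀, hcl₀, hcc₀, hform₀⟩ := hL
  haveI := Fintype.ofFinite N
  haveI := hFn
  -- the tensor power
  have hcA : ∀ h h' i, (⟨c (h * h') i, hA _ _⟩ : Ast (Q : Subgroup N)) =
      ⟨c h (σ h' i), hA _ _⟩ * ⟨c h' i, hA _ _⟩ := fun h h' i => Subtype.ext (hc h h' i)
  obtain ⟨ω, hω, hωf⟩ := exists_ten (α := (Ast (Q : Subgroup N)).subtype) σ
    (fun h i => (⟨c h i, hA h i⟩ : Ast (Q : Subgroup N))) (actH σ c hc) hcA
    (fun h n j => rfl) hω₀
  set L : Subgroup G := F.range with hLdef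
  let F' : (I → N) →* L := F.rangeRestrict
  have hF' : Function.Surjective F' := F.rangeRestrict_surjective
  have hF'c : ∀ n, ((F' n : L) : G) = F n := fun _ => rfl
  let cs : (I → NN Q) →* (I → N) :=
    { toFun := fun m i => (m i : N)
      map_one' := rfl
      map_mul' := fun _ _ => rfl }
  have hcsH : ∀ m, F (cs m) ∈ H := fun m => (hH _).mpr fun i => (m i).2
  let F2 : (I → NN Q) →* L.subgroupOf H :=
    { toFun := fun m => ⟨⟨F (cs m), hcsH m⟩, ⟨cs m, rfl⟩⟩
      map_one' := Subtype.ext (Subtype.ext (by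
        change F (cs 1) = 1
        rw [map_one, map_one]))
      map_mul' := fun m m' => Subtype.ext (Subtype.ext (by
        change F (cs (m * m')) = F (cs m) * F (cs m')
        rw [map_mul, map_mul])) }
  have hF2 : Function.Surjective F2 := by
    rintro ⟨⟨x, hx⟩, hx2⟩
    obtain ⟨n, hn⟩ := hx2
    change F n = x at hn
    subst hn
    exact ⟨fun i => ⟨n i, (hH n).mp hx i⟩, rfl⟩
  have hker : ∀ n : I → N, F n = 1 → ∀ i, n i ∈ Subgroup.center N := by
    intro n hn i
    have hnH : F n ∈ H := by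
      rw [hn]
      exact H.one_mem
    have h1 := (hFH n hnH).2 i
    have h2 : (⟨F n, hnH⟩ : H) = 1 := Subtype.ext hn
    have h3 : c 1 i = 1 := by
      have h := hc 1 1 i
      rw [map_one, Equiv.Perm.one_apply, mul_one] at h
      exact left_eq_mul.mp h
    rw [h2, h3] at h1
    rw [Subgroup.mem_center_iff]
    intro g
    have h4 := congrArg (fun a : MulAut N => a g) h1
    simp only [MulAut.one_apply, MulAut.conj_apply] at h4
    rw [h4]
    nth_rewrite 1 [h4]
    group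
  -- the central characters
  have hcc : ∀ (χ : X p N) (z : NN Q), (z : N) ∈ Subgroup.center N →
      (β₀ χ).1 z / (β₀ χ).1 1 = χ.1 z / χ.1 1 := by
    intro χ z hz
    rw [div_eq_div_iff (irr_ne (β₀ χ).2.1) (irr_ne χ.2.1)]
    exact hcc₀ χ z hz
  have hcenN : ∀ z : NN Q, (z : N) ∈ Subgroup.center N → z ∈ Subgroup.center (NN Q) := by
    intro z hz
    rw [Subgroup.mem_center_iff]
    intro g
    exact Subtype.ext (Subgroup.mem_center_iff.mp hz g)
  have tr1 : ∀ (s : I → X p N) (a : I → N), (∀ i, a i ∈ Subgroup.center N) → ∀ x : I → N,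
      ∏ i, (s i).1 ((a * x) i) = (∏ i, ((s i).1 (a i) / (s i).1 1)) * ∏ i, (s i).1 (x i) := by
    intro s a ha x
    rw [← Finset.prod_mul_distrib]
    exact Finset.prod_congr rfl fun i _ => cc_mul (s i).2.1 (ha i) (x i)
  have tr2 : ∀ (s : I → X p N) (a : I → NN Q), (∀ i, (a i : N) ∈ Subgroup.center N) →
      ∀ x : I → NN Q, ∏ i, (β₀ (s i)).1 ((a * x) i) =
        (∏ i, ((s i).1 (a i) / (s i).1 1)) * ∏ i, (β₀ (s i)).1 (x i) := by
    intro s a ha x
    rw [← Finset.prod_mul_distrib]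
    refine Finset.prod_congr rfl fun i _ => ?_
    rw [← hcc (s i) (a i) (ha i)]
    exact cc_mul (β₀ (s i)).2.1 (hcenN _ (ha i)) (x i)
  have hne1 : ∀ s : I → X p N, ∏ i, (s i).1 1 ≠ 0 := fun s =>
    Finset.prod_ne_zero_iff.mpr fun i _ => irr_ne (s i).2.1
  have hne2 : ∀ s : I → X p N, ∏ i, (β₀ (s i)).1 1 ≠ 0 := fun s =>
    Finset.prod_ne_zero_iff.mpr fun i _ => irr_ne (β₀ (s i)).2.1
  -- the relation
  have E1 : ∀ χ : X p L, ∃ s : I → X p N, ∀ n, χ.1 (F' n) = ∏ i, (s i).1 (n i) :=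
    fun χ => coverI F' hF' χ
  have E2 : ∀ χ : X p (L.subgroupOf H), ∃ s : I → X p N, ∀ m,
      χ.1 (F2 m) = ∏ i, (β₀ (s i)).1 (m i) := by
    intro χ
    obtain ⟨s, hs⟩ := coverI F2 hF2 χ
    refine ⟨fun i => β₀.symm (s i), fun m => ?_⟩
    rw [hs]
    refine Finset.prod_congr rfl fun i _ => ?_
    rw [β₀.apply_symm_apply]
  have D1 : ∀ (χ : X p L) (s : I → X p N), (∀ n, χ.1 (F' n) = ∏ i, (s i).1 (n i)) →
      ∃ χ' : X p (L.subgroupOf H), ∀ m, χ'.1 (F2 m) = ∏ i, (β₀ (s i)).1 (m i) := by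
    intro χ s hs
    obtain ⟨h1, h2⟩ := bt_irrX (p := p) fun i => β₀ (s i)
    refine desc F2 hF2 h1 (fun a ha x => ?_) (by rw [h2]; exact prod_ne _)
    have ha' : F (cs a) = 1 := congrArg (fun y : L.subgroupOf H => ((y : H) : G)) ha
    have hac : ∀ i, (a i : N) ∈ Subgroup.center N := hker _ ha'
    rw [tr2 s a hac x]
    have h3 : ∏ i, ((s i).1 (a i : N) / (s i).1 1) = 1 := by
      have h4 := tr1 s (cs a) hac 1
      have h5 : F' (cs a * 1) = F' 1 := by
        apply Subtype.ext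
        rw [hF'c, hF'c, mul_one, ha', map_one]
      rw [← hs, ← hs, h5] at h4
      have h6 : χ.1 (F' 1) ≠ 0 := by
        rw [map_one]
        exact irr_ne χ.2.1
      exact (right_eq_mul₀ h6).mp h4
    rw [h3, one_mul]
  have D2 : ∀ (χ : X p (L.subgroupOf H)) (s : I → X p N),
      (∀ m, χ.1 (F2 m) = ∏ i, (β₀ (s i)).1 (m i)) →
      ∃ χ' : X p L, ∀ n, χ'.1 (F' n) = ∏ i, (s i).1 (n i) := by
    intro χ s hs
    obtain ⟨h1, h2⟩ := bt_irrX (p := p) s
    refine desc F' hF' h1 (fun a ha x => ?_) (by rw [h2]; exact prod_ne _)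
    have ha' : F a = 1 := congrArg (fun y : L => (y : G)) ha
    have hac : ∀ i, a i ∈ Subgroup.center N := hker _ ha'
    have haN : ∀ i, a i ∈ NN Q := by
      rw [← hH, ha']
      exact H.one_mem
    rw [tr1 s a hac x]
    have h3 : ∏ i, ((s i).1 (a i : N) / (s i).1 1) = 1 := by
      have h4 := tr2 s (fun i => ⟨a i, haN i⟩) hac 1
      have h5 : F2 ((fun i => ⟨a i, haN i⟩) * 1) = F2 1 := by
        rw [mul_one, map_one]
        exact Subtype.ext (Subtype.ext ha')
      rw [← hs, ← hs, h5] at h4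
      have h6 : χ.1 (F2 1) ≠ 0 := by
        rw [map_one]
        exact irr_ne χ.2.1
      exact (right_eq_mul₀ h6).mp h4
    rw [h3, one_mul]
  choose S1' hS1 using E1
  have hD1 := fun χ => D1 χ (S1' χ) (hS1 χ)
  choose b hb using hD1
  have hbinj : Function.Injective b := by
    intro χ χ' h
    have h1 : S1' χ = S1' χ' := by
      have h2 : (fun i => β₀ (S1' χ i)) = fun i => β₀ (S1' χ' i) := by
        refine s_unique (p := p) ?_
        funext m
        rw [← hb χ m, ← hb χ' m, h]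
      funext i
      exact β₀.injective (congrFun h2 i)
    apply Subtype.ext
    funext l
    obtain ⟨n, rfl⟩ := hF' l
    rw [hS1, hS1, h1]
  have hbsur : Function.Surjective b := by
    intro χ'
    obtain ⟨s, hs⟩ := E2 χ'
    obtain ⟨χ, hχ⟩ := D2 χ' s hs
    refine ⟨χ, ?_⟩
    have h1 : S1' χ = s := by
      refine s_unique (p := p) ?_
      funext n
      rw [← hS1, ← hχ]
    apply Subtype.ext
    funext l
    obtain ⟨m, rfl⟩ := hF2 l
    rw [hb, hs, h1]
  let β : X p L ≃ X p (L.subgroupOf H) := Equiv.ofBijective b ⟨hbinj, hbsur⟩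
  have hβ : ∀ χ, β χ = b χ := fun _ => rfl
  have hclβ : ∀ χ : X p L, cl p (ndeg χ.1) = cl p (ndeg (β χ).1) := by
    intro χ
    have h1 : ndeg χ.1 = ∏ i, ndeg (S1' χ i).1 := by
      rw [← (cover F' hF' χ).2, ← (bt_irrX (p := p) (S1' χ)).2]
      congr 1
      funext n
      exact hS1 χ n
    have h2 : ndeg (β χ).1 = ∏ i, ndeg (β₀ (S1' χ i)).1 := by
      rw [← (cover F2 hF2 (β χ)).2, ← (bt_irrX (p := p) fun i => β₀ (S1' χ i)).2]
      congr 1
      funext m
      exact hb χ m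
    rw [h1, h2, map_prod, map_prod]
    exact Finset.prod_congr rfl fun i _ => hcl₀ _
  -- the pairing
  have hφ : ∀ (h : H) (n : I → N), (F' (actH σ c hc h n) : G) = h * F' n * (h : G)⁻¹ := by
    intro h n
    rw [hF'c, hF'c, hFc]
    rfl
  have hmm : ∀ (χ : X p L) (ψ : X p (L.subgroupOf H)),
      mm F' (actH σ c hc) ω χ.1 ψ.1 = if ψ = β χ then 1 else 0 := by
    intro χ ψ
    have hac : ∀ (m : I → NN Q) (n : I → N),
        actH σ c hc ⟨F (cs m), hcsH m⟩ n = cs m * n * (cs m)⁻¹ := by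
      intro m n
      obtain ⟨h1, h2⟩ := hFH (cs m) (hcsH m)
      funext j
      rw [actH_apply, h1, h2]
      rfl
    let K := (I → N) ⋊[(actH σ c hc).comp (L.subgroupOf H).subtype] (L.subgroupOf H)
    let Ψ : (I → N) × (I → NN Q) →* K :=
      { toFun := fun x => ⟨x.1 * (cs x.2)⁻¹, F2 x.2⟩
        map_one' := by
          ext
          · simp
          · simp
        map_mul' := fun x y => by
          have e : ∀ n, ((actH σ c hc).comp (L.subgroupOf H).subtype) (F2 x.2) n =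
              cs x.2 * n * (cs x.2)⁻¹ := fun n => hac x.2 n
          apply SemidirectProduct.ext
          · rw [mul_left, e]
            simp only [Prod.fst_mul, Prod.snd_mul, map_mul]
            group
          · rw [mul_right]
            exact map_mul F2 _ _ }
    have hΨ : Function.Surjective Ψ := by
      intro k
      obtain ⟨m, hm⟩ := hF2 k.right
      refine ⟨(k.left * cs m, m), ?_⟩
      apply SemidirectProduct.ext
      · change k.left * cs m * (cs m)⁻¹ = k.left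
        group
      · exact hm
    haveI := Fintype.ofFinite L
    haveI := Fintype.ofFinite (L.subgroupOf H)
    haveI := Fintype.ofFinite K
    haveI := Fintype.ofFinite (NN Q)
    haveI := Fintype.ofFinite (I → N)
    haveI := Fintype.ofFinite (I → NN Q)
    unfold mm
    rw [pr_eq, ← B_infl Ψ hΨ]
    have e1 : (fun x => (fun k : K => ω ⟨k.left, k.right⟩) (Ψ x)) =
        ∑ s : I → X p N, ten (fun n : I → N => ∏ i, (s i).1 (n i))
          (fun m : I → NN Q => ∏ i, (β₀ (s i)).1 (m i)⁻¹) := by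
      funext x
      obtain ⟨n, m⟩ := x
      rw [Finset.sum_apply]
      have h1 : ω ⟨n * (cs m)⁻¹, ⟨F (cs m), hcsH m⟩⟩ = _ :=
        hωf (n * (cs m)⁻¹) ⟨F (cs m), hcsH m⟩ (hFH (cs m) (hcsH m)).1
      have h2 : ∀ i, ω₀ ⟨(n * (cs m)⁻¹) i, ⟨c ⟨F (cs m), hcsH m⟩ i, hA _ _⟩⟩ =
          ∑ χ : X p N, χ.1 (n i) * (β₀ χ).1 (m i)⁻¹ := by
        intro i
        rw [← finsum_eq_sum_of_fintype]
        exact hform₀ (n i) (m i) _ ((hFH (cs m) (hcsH m)).2 i)
      change ω ⟨n * (cs m)⁻¹, ⟨F (cs m), hcsH m⟩⟩ = _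
      rw [h1]
      simp_rw [h2]
      rw [Finset.prod_univ_sum]
      unfold ten
      simp only [Finset.prod_mul_distrib]
      refine Finset.sum_congr (by ext; simp) fun s _ => rfl
    have e2 : (fun x => (fun k : K => χ.1 (F' k.left * vv L H k.right) * ψ.1 k.right⁻¹) (Ψ x)) =
        ten (fun n : I → N => χ.1 (F' n)) (fun m : I → NN Q => ψ.1 (F2 m⁻¹)) := by
      funext x
      obtain ⟨n, m⟩ := x
      change χ.1 (F' (n * (cs m)⁻¹) * vv L H (F2 m)) * ψ.1 (F2 m)⁻¹ = χ.1 (F' n) * ψ.1 (F2 m⁻¹)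
      have h1 : vv L H (F2 m) = F' (cs m) := rfl
      have h3 : F2 m⁻¹ = (F2 m)⁻¹ := map_inv F2 m
      have h4 : n * (cs m)⁻¹ * cs m = n := by group
      rw [h1, ← map_mul, h4, h3]
    rw [e1, e2, IC.B_sum_left]
    have h1 : ∀ s : I → X p N, IC.B (fun n : I → N => ∏ i, (s i).1 (n i))
        (fun n : I → N => χ.1 (F' n)) = if s = S1' χ then 1 else 0 := by
      intro s
      rw [IC.B_irr (bt_irrX s).1 (cover F' hF' χ).1]
      refine if_congr ⟨fun h => ?_, fun h => ?_⟩ rfl rfl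
      · refine s_unique (p := p) ?_
        rw [h]
        funext n
        exact hS1 χ n
      · rw [h]
        funext n
        exact (hS1 χ n).symm
    rw [Finset.sum_congr rfl fun s _ => B_ten _ _ _ _]
    rw [Finset.sum_eq_single (S1' χ)]
    · rw [h1, if_pos rfl, one_mul]
      have h2 : IsIrr fun m : I → NN Q => ∏ i, (β₀ (S1' χ i)).1 (m i)⁻¹ :=
        irr_inv (bt_irrX (p := p) fun i => β₀ (S1' χ i)).1
      have h3 : IsIrr fun m : I → NN Q => ψ.1 (F2 m⁻¹) := irr_inv (cover F2 hF2 ψ).1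
      rw [IC.B_irr h2 h3]
      refine if_congr ⟨fun h => ?_, fun h => ?_⟩ rfl rfl
      · apply Subtype.ext
        funext l
        obtain ⟨m, rfl⟩ := hF2 l
        have h4 := congrFun h m⁻¹
        simp only [inv_inv, Pi.inv_apply] at h4
        rw [hβ, hb, h4]
      · rw [h, hβ]
        funext m
        rw [hb]
        rfl
    · intro s _ hs
      rw [h1, if_neg hs, zero_mul]
    · intro h
      exact absurd (Finset.mem_univ _) h
  exact transfer F' (actH σ c hc) hφ hω β hmm hclβ hF' P hNP hsup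

end wre

end Pool.Agent.ZH17.RD
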