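import Pool.Agent.ZH17.RD.GlaD
import Pool.Agent.ZH17.RD.Glu
import Pool.Agent.ZH17.RD.Wre

/-!
# Piece GLA of project RD, last part: assembly
-/

set_option autoImplicit false
set_option linter.unusedSectionVars false
set_option linter.style.haveILetI false

open scoped BigOperators Classical

noncomputable section

namespace Pool.Agent.ZH17.RD

open Pool.Agent.Helper884 Pool.Agent.K3h3.KB Pool.Agent.K3h3.MK Pool.Agent.K3h83.IN
open Pool.Agent.H254R3.IN (IsIrr mem_Irr schur irr_nontrivial scalar_inj)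
open Pool.Agent.K3h18.IN (irr_infl B_infl)
open Pool.Agent.Q99.AS (ten ten_irr B_ten)
open IC (Irr)
open Representation SemidirectProduct

namespace GlaP

section

variable {N : Type} [Group N] [Finite N] {p : ℕ} [hp : Fact p.Prime] (d : MulAut N)
  (hd : d ^ p = 1) (hN : ¬ p ∣ Nat.card N)

/-- the data of an extension with the given restriction to the fixed points -/
def Dat (θ : N → ℂ) (ψ : Md d → ℂ) (ε : ℤ) : Prop :=
  ∃ (V : Type) (_ : AddCommGroup V) (_ : Module ℂ V) (_ : FiniteDimensional ℂ V)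
    (R : Representation ℂ (N ⋊[pw d hd] Multiplicative (ZMod p)) V),
    (rN R).IsIrreducible ∧ (rN R).character = θ ∧
    ∀ (m : Md d) (c : Multiplicative (ZMod p)), c ≠ 1 → R.character ⟨m, c⟩ = ε * ψ m

theorem c1_ne : c1 p ≠ 1 := by
  intro h
  have h2 : (1 : ZMod p) = 0 := congrArg Multiplicative.toAdd h
  exact one_ne_zero h2

include hN in
theorem dat_inj {θ θ' : N → ℂ} {ψ : Md d → ℂ} {ε ε' : ℤ} (hψ : IsIrr ψ)
    (hε : ε = 1 ∨ ε = -1) (hε' : ε' = 1 ∨ ε' = -1) (h : Dat d hd θ ψ ε) (h' : Dat d hd θ' ψ ε') :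
    θ = θ' := by
  haveI := Fintype.ofFinite N
  haveI : Fintype (Md d) := Fintype.ofFinite _
  obtain ⟨V, i1, i2, i3, R, hR, rfl, h1⟩ := h
  obtain ⟨V', j1, j2, j3, R', hR', rfl, h1'⟩ := h'
  by_contra hne
  have h2 := orth2 R R' hR hR' hne (c1 p)
  have h3 := sum_tr d hN hd (fun n => R.character ⟨n, c1 p⟩ *
    R'.character (⟨n, c1 p⟩ : N ⋊[pw d hd] Multiplicative (ZMod p))⁻¹) (fun x n => by
      have h3 := tw_class R R' (c1 p) x n
      rw [pw_c1] at h3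
      exact h3)
  rw [h2, mul_zero] at h3
  have h4 : ∀ m : Md d, R.character ⟨m, c1 p⟩ *
      R'.character (⟨m, c1 p⟩ : N ⋊[pw d hd] Multiplicative (ZMod p))⁻¹ =
        (ε * ε' : ℂ) * (ψ m * ψ m⁻¹) := by
    intro m
    have h5 : (⟨m, c1 p⟩ : N ⋊[pw d hd] Multiplicative (ZMod p))⁻¹ =
        mc d hd (m⁻¹, (c1 p)⁻¹) := by
      have : (⟨m, c1 p⟩ : N ⋊[pw d hd] Multiplicative (ZMod p)) = mc d hd (m, c1 p) := rfl
      rw [this, ← map_inv]
      rfl
    rw [h5, h1 m _ c1_ne, mc_apply, h1' m⁻¹ _ c1_inv_ne]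
    ring
  simp only [h4] at h3
  rw [← Finset.mul_sum] at h3
  have h5 := IC.B_irr hψ hψ
  rw [if_pos rfl] at h5
  unfold IC.B at h5
  rw [mul_left_comm, h5, mul_one] at h3
  rcases hε with rfl | rfl <;> rcases hε' with rfl | rfl <;> norm_num at h3

/-- all at once -/
theorem local_all (hN : ¬ p ∣ Nat.card N) (θ : N → ℂ) (hθ : IsIrr θ) (hinv : ∀ n, θ (d n) = θ n) :
    ∃ (ψ : Md d → ℂ) (ε : ℤ), IsIrr ψ ∧ (ε = 1 ∨ ε = -1) ∧ Dat d hd θ ψ ε ∧
      (∀ ψ' : Md d → ℂ, IsIrr ψ' → ∃ k : ℤ,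
        pr (fun m : Md d => θ (m : N)) ψ' = (if ψ' = ψ then (ε : ℂ) else 0) + p * k) ∧
      ∃ Ω : StC d θ × Multiplicative (ZMod p) → ℂ, RC Ω ∧
        ∀ (n : N) (m : Md d)
          (h : (⟨n * (m : N)⁻¹, cjm d m⟩ : N ⋊[(Cd d).subtype] Cd d) ∈ StC d θ),
          Ω (⟨_, h⟩, c1 p) = ε * (θ n * ψ m⁻¹) := by
  obtain ⟨V, i1, i2, i3, ρ, hρ, rfl⟩ := hθ
  obtain ⟨D, hDd, hD, hcomm, hdet⟩ := exists_D d ρ hN hd hρ hinv
  have hR : (rN (Rd d hd ρ D hD hDd)).IsIrreducible := by rw [rN_Rd]; exact hρ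
  obtain ⟨ψ, ε, h1, h2, h3, h4⟩ := local_corr d hd hN (Rd d hd ρ D hD hDd) hR
    (det_Rd d hd ρ D hD hDd hdet)
  obtain ⟨Ω, h5, h6⟩ := exists_Om d hd ρ D hD hDd hN hρ hcomm
  refine ⟨ψ, ε, h1, h2, ⟨V, i1, i2, i3, Rd d hd ρ D hD hDd, hR, by rw [rN_Rd], h3⟩, ?_, Ω, h5, ?_⟩
  · intro ψ' h7
    obtain ⟨k, hk⟩ := h4 ψ' h7
    refine ⟨k, ?_⟩
    rw [← hk]
    congr 1
    funext m
    have h8 : (rN (Rd d hd ρ D hD hDd)).character (m : N) = ρ.character m := by rw [rN_Rd]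
    exact h8.symm
  · intro n m h
    rw [h6 n m (c1 p) h]
    have h5 : (⟨m, c1 p⟩ : N ⋊[pw d hd] Multiplicative (ZMod p))⁻¹ =
        mc d hd (m⁻¹, (c1 p)⁻¹) := by
      have : (⟨m, c1 p⟩ : N ⋊[pw d hd] Multiplicative (ZMod p)) = mc d hd (m, c1 p) := rfl
      rw [this, ← map_inv]
      rfl
    rw [h5, mc_apply, h3 m⁻¹ _ c1_inv_ne]
    ring

/-- central characters -/
theorem dat_center {θ : N → ℂ} {ψ : Md d → ℂ} {ε : ℤ} (hε : ε = 1 ∨ ε = -1)
    (h : Dat d hd θ ψ ε) (z : Md d) (hz : (z : N) ∈ Subgroup.center N) :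
    ψ z * θ 1 = θ z * ψ 1 := by
  obtain ⟨V, i1, i2, i3, R, hR, rfl, h1⟩ := h
  obtain ⟨s, hs⟩ := schur (rN R) hR (rN R (z : N)) fun l v => by
    rw [act_mul, act_mul, (Subgroup.mem_center_iff.1 hz) l]
  have h2 : R.character ⟨z, c1 p⟩ = s * R.character ⟨(1 : Md d), c1 p⟩ := by
    have h3 : (⟨z, c1 p⟩ : N ⋊[pw d hd] Multiplicative (ZMod p)) =
        inl (z : N) * ⟨((1 : Md d) : N), c1 p⟩ := by
      ext1
      · show (z : N) = z * pw d hd 1 ((1 : Md d) : N)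
        rw [map_one]
        show (z : N) = z * 1
        rw [mul_one]
      · show c1 p = 1 * c1 p
        rw [one_mul]
    show LinearMap.trace ℂ V _ = s * LinearMap.trace ℂ V _
    rw [h3, map_mul]
    have h4 : R (inl (z : N)) = s • LinearMap.id := hs
    have h5 : R (inl (z : N)) * R ⟨((1 : Md d) : N), c1 p⟩ = s • R ⟨((1 : Md d) : N), c1 p⟩ := by
      rw [h4]
      rfl
    rw [h5, map_smul]
    rfl
  rw [h1 z _ c1_ne, h1 1 _ c1_ne] at h2
  have h5 : (rN R).character (z : N) = s * (rN R).character 1 := by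
    show LinearMap.trace ℂ V (rN R (z : N)) = s * LinearMap.trace ℂ V (rN R 1)
    rw [hs, map_one, map_smul]
    rfl
  rw [h5]
  have hε0 : (ε : ℂ) ≠ 0 := by
    rcases hε with rfl | rfl <;> norm_num
  have h6 : ψ z = s * ψ 1 := by
    have h7 : (ε : ℂ) * ψ z = ε * (s * ψ 1) := by rw [h2]; ring
    exact mul_left_cancel₀ hε0 h7
  rw [h6]
  ring

/-- degrees -/
theorem dat_deg {θ : N → ℂ} {ψ : Md d → ℂ} {ε : ℤ} (hθ : IsIrr θ) (hψ : IsIrr ψ)
    (hε : ε = 1 ∨ ε = -1)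
    (hk : ∀ ψ' : Md d → ℂ, IsIrr ψ' → ∃ k : ℤ,
        pr (fun m : Md d => θ (m : N)) ψ' = (if ψ' = ψ then (ε : ℂ) else 0) + p * k) :
    cl p (ndeg θ) = cl p (ndeg ψ) := by
  haveI : Fintype (Md d) := Fintype.ofFinite _
  choose! k hk using hk
  have h1 : IC.IsClass (fun m : Md d => θ (m : N)) := by
    intro g y
    exact rc_class (rc_irr hθ) (g : N) (y : N)
  have h2 := congrFun (IC.expand _ h1) 1
  rw [Finset.sum_apply] at h2
  have h3 : θ 1 = ε * ψ 1 + p * ∑ ψ' ∈ Irr (Md d), k ψ' * (ndeg ψ' : ℂ) := by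
    have h4 : θ 1 = ∑ ψ' ∈ Irr (Md d), ((if ψ' = ψ then (ε : ℂ) else 0) + p * k ψ') * ψ' 1 := by
      refine h2.trans (Finset.sum_congr rfl fun ψ' hψ' => ?_)
      have h5 := hk ψ' (mem_Irr.mp hψ')
      rw [pr_eq] at h5
      rw [Pi.smul_apply, smul_eq_mul, h5]
      congr!
    rw [h4]
    simp only [add_mul, Finset.sum_add_distrib]
    congr 1
    · rw [Finset.sum_eq_single ψ]
      · rw [if_pos rfl]
      · intro ψ' _ h5
        rw [if_neg h5, zero_mul]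
      · intro h5
        exact absurd (mem_Irr.mpr hψ) h5
    · rw [Finset.mul_sum]
      refine Finset.sum_congr rfl fun ψ' hψ' => ?_
      rw [ndeg_cast (mem_Irr.mp hψ'), mul_assoc]
  rw [← ndeg_cast hθ, ← ndeg_cast hψ] at h3
  have h4 : (ndeg θ : ℤ) = ε * ndeg ψ + p * ∑ ψ' ∈ Irr (Md d), k ψ' * (ndeg ψ' : ℤ) := by
    have h5 : ((ndeg θ : ℤ) : ℂ) =
      ((ε * ndeg ψ + p * ∑ ψ' ∈ Irr (Md d), k ψ' * (ndeg ψ' : ℤ) : ℤ) : ℂ) := by
      push_cast
      exact h3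
    exact_mod_cast h5
  have h5 : (ndeg θ : ZMod p) = ε * ndeg ψ := by
    have h6 := congrArg (fun x : ℤ => (x : ZMod p)) h4
    push_cast at h6
    rw [CharP.cast_eq_zero (ZMod p) p, zero_mul, add_zero] at h6
    exact h6
  show cls p (ndeg θ) = cls p (ndeg ψ)
  have h6 : (ndeg θ : ZMod p) ^ 2 = (ndeg ψ : ZMod p) ^ 2 := by
    rw [h5]
    rcases hε with rfl | rfl <;> push_cast <;> ring
  by_cases h7 : (ndeg ψ : ZMod p) = 0
  · have h8 : (ndeg θ : ZMod p) = 0 := by rw [h5, h7, mul_zero]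
    unfold cls
    rw [dif_pos h7, dif_pos h8]
  · have h8 : (ndeg θ : ZMod p) ≠ 0 := by
      intro h9
      rw [h9, zero_pow two_ne_zero] at h6
      exact h7 (pow_eq_zero_iff two_ne_zero |>.1 h6.symm)
    rw [cls_of_ne p h7, cls_of_ne p h8]
    congr 1
    apply Units.ext
    rw [Units.val_pow_eq_pow_val, Units.val_pow_eq_pow_val, Units.val_mk0, Units.val_mk0]
    exact h6

/-- automorphisms commuting with `d` act on the fixed points -/
def rM (a : Cd d) : MulAut (Md d) where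
  toFun m := ⟨(a : MulAut N) m, by
    show d ((a : MulAut N) m) = (a : MulAut N) m
    have h : (a : MulAut N) (d (m : N)) = d ((a : MulAut N) m) :=
      congrArg (fun f : MulAut N => f m) a.2.1
    rw [← h, show d (m : N) = m from m.2]⟩
  invFun m := ⟨(a : MulAut N)⁻¹ m, by
    show d ((a : MulAut N)⁻¹ m) = (a : MulAut N)⁻¹ m
    have h : ((a⁻¹ : Cd d) : MulAut N) (d (m : N)) = d (((a⁻¹ : Cd d) : MulAut N) m) :=
      congrArg (fun f : MulAut N => f m) a⁻¹.2.1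
    have h' : (a : MulAut N)⁻¹ (d (m : N)) = d ((a : MulAut N)⁻¹ m) := h
    rw [← h', show d (m : N) = m from m.2]⟩
  left_inv m := Subtype.ext (MulAut.inv_apply_self N (a : MulAut N) m)
  right_inv m := Subtype.ext (MulAut.apply_inv_self N (a : MulAut N) m)
  map_mul' m m' := Subtype.ext (map_mul (a : MulAut N) _ _)

theorem rM_coe (a : Cd d) (m : Md d) : (rM d a m : N) = (a : MulAut N) m := rfl

theorem pr_rM (θ : N → ℂ) (ψ : Md d → ℂ) (a : Cd d) :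
    pr (fun m : Md d => θ ((a : MulAut N) m)) (fun m => ψ (rM d a m)) =
      pr (fun m : Md d => θ (m : N)) ψ := by
  haveI : Fintype (Md d) := Fintype.ofFinite _
  rw [pr_eq, pr_eq]
  unfold IC.B
  congr 1
  refine Fintype.sum_equiv (rM d a).toEquiv _ _ fun m => ?_
  show θ ((a : MulAut N) m) * ψ (rM d a m⁻¹) = θ ((rM d a m : Md d) : N) * ψ (rM d a m)⁻¹
  rw [rM_coe, map_inv]

/-- equivariance -/
theorem equi {θ : N → ℂ} {ψ ψ₂ : Md d → ℂ} {ε ε₂ : ℤ} (hε : ε = 1 ∨ ε = -1)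
    (hψ : IsIrr ψ) (hk : ∃ k : ℤ, pr (fun m : Md d => θ (m : N)) ψ = (ε : ℂ) + p * k) (a : Cd d)
    (hk₂ : ∀ ψ' : Md d → ℂ, IsIrr ψ' → ∃ k : ℤ,
        pr (fun m : Md d => θ ((a : MulAut N) m)) ψ' = (if ψ' = ψ₂ then (ε₂ : ℂ) else 0) + p * k)
    (m : Md d) : ψ₂ m = ψ (rM d a m) := by
  have h1 : IsIrr fun m => ψ (rM d a m) :=
    Pool.Agent.Q90.WR.irr_comp (rM d a : Md d ≃* Md d) hψ
  obtain ⟨k₂, h2⟩ := hk₂ _ h1
  rw [pr_rM] at h2
  obtain ⟨k, h3⟩ := hk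
  by_cases h4 : (fun m => ψ (rM d a m)) = ψ₂
  · rw [← h4]
  · exfalso
    rw [if_neg h4, zero_add, h3] at h2
    have h5 : (ε : ℤ) = p * (k₂ - k) := by
      have h6 : (ε : ℂ) = ((p * (k₂ - k) : ℤ) : ℂ) := by
        push_cast
        linear_combination h2
      exact_mod_cast h6
    have h6 : (p : ℤ) ∣ 1 := by
      rcases hε with h7 | h7
      · exact ⟨k₂ - k, by rw [← h5, h7]⟩
      · exact ⟨-(k₂ - k), by rw [mul_neg, ← h5, h7]; norm_num⟩
    have h7 : p ∣ 1 := by exact_mod_cast h6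
    exact hp.out.one_lt.ne' (Nat.dvd_one.1 h7)

/-- the normal subgroup -/
def qC : N × Md d →* N ⋊[(Cd d).subtype] Cd d where
  toFun x := ⟨x.1 * (x.2 : N)⁻¹, cjm d x.2⟩
  map_one' := by
    ext1
    · show (1 : N) * (1 : N)⁻¹ = 1
      simp
    · apply Subtype.ext
      show MulAut.conj (1 : N) = 1
      rw [map_one]
  map_mul' x y := by
    ext1
    · show x.1 * y.1 * ((x.2 : N) * y.2)⁻¹ = (x.1 * (x.2 : N)⁻¹) *
        ((x.2 : N) * (y.1 * (y.2 : N)⁻¹) * (x.2 : N)⁻¹)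
      group
    · apply Subtype.ext
      show MulAut.conj ((x.2 : N) * y.2) = MulAut.conj (x.2 : N) * MulAut.conj (y.2 : N)
      rw [map_mul]

theorem qC_apply (n : N) (m : Md d) : qC d (n, m) = ⟨n * (m : N)⁻¹, cjm d m⟩ := rfl

theorem qC_conj (x : N ⋊[(Cd d).subtype] Cd d) (n : N) (m : Md d) :
    x * qC d (n, m) * x⁻¹ = qC d (x.left * (x.right : MulAut N) n * (x.left)⁻¹,
      rM d x.right m) := by
  rw [mul_inv_eq_iff_eq_mul]
  ext1
  · show x.left * (x.right : MulAut N) (n * (m : N)⁻¹) =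
      (x.left * (x.right : MulAut N) n * (x.left)⁻¹ * ((x.right : MulAut N) m)⁻¹) *
        ((x.right : MulAut N) m * x.left * ((x.right : MulAut N) m)⁻¹)
    rw [map_mul, map_inv]
    group
  · apply Subtype.ext
    show (x.right : MulAut N) * MulAut.conj (m : N) =
      MulAut.conj ((x.right : MulAut N) m) * (x.right : MulAut N)
    ext r
    simp only [MulAut.mul_apply, MulAut.conj_apply, map_mul, map_inv]

theorem qC_mem_St {θ : N → ℂ} (hθ : IsIrr θ) (x : N × Md d) : qC d x ∈ StC d θ := by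
  intro r
  show θ ((x.2 : N) * r * (x.2 : N)⁻¹) = θ r
  exact rc_class (rc_irr hθ) r x.2

end

end GlaP

end Pool.Agent.ZH17.RD
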