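import Mathlib

/-!
# Group theory for piece GRP: families of commuting subgroups permuted by conjugation
-/

set_option autoImplicit false
set_option linter.unusedSectionVars false

open scoped Classical

noncomputable section

namespace Pool.Agent.ZH17.RD

open Subgroup

/-! ### relative indices -/

theorem relIndex_nor {G : Type*} [Group G] [Finite G] (P A : Subgroup G) [A.Normal] :
    P.relIndex A = P.relIndex (P ⊔ A) := by
  have h1 := relIndex_mul_relIndex (P ⊓ A) A (P ⊔ A) inf_le_right le_sup_right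
  have h2 := relIndex_mul_relIndex (P ⊓ A) P (P ⊔ A) inf_le_left le_sup_left
  rw [inf_relIndex_right, relIndex_sup_right] at h1
  rw [inf_relIndex_left] at h2
  have h3 : A.relIndex P ≠ 0 := index_ne_zero_of_finite (H := A.subgroupOf P)
  have h4 : P.relIndex A * A.relIndex P = P.relIndex (P ⊔ A) * A.relIndex P := by
    rw [h1, ← h2, mul_comm]
  exact Nat.eq_of_mul_eq_mul_right (Nat.pos_of_ne_zero h3) h4

theorem relIndex_nor_dvd {G : Type*} [Group G] [Finite G] (P A : Subgroup G) [A.Normal] :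
    P.relIndex A ∣ P.index := by
  rw [relIndex_nor]
  exact relIndex_dvd_index_of_le le_sup_left

theorem relIndex_sub_dvd {G : Type*} [Group G] [Finite G] (P L E : Subgroup G) (h : L ≤ E)
    [E.Normal] (h2 : (L.subgroupOf E).Normal) : P.relIndex L ∣ P.index := by
  refine dvd_trans ?_ (relIndex_nor_dvd P E)
  have h3 := relIndex_nor_dvd (P.subgroupOf E) (L.subgroupOf E)
  rwa [relIndex_subgroupOf h] at h3

/-! ### commuting families -/

section fam

variable {G : Type*} [Group G] {I : Type*} [Fintype I] {N : I → Type*} [∀ i, Group (N i)]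
  (ψ : ∀ i, N i →* G) (hc : Pairwise fun i j => ∀ x y, Commute (ψ i x) (ψ j y))

theorem prod_acts (n : ∀ i, N i) (i : I) (y : G) (hy : ∀ j, j ≠ i → ∀ x, Commute (ψ j x) y) :
    MonoidHom.noncommPiCoprod ψ hc n * y * (MonoidHom.noncommPiCoprod ψ hc n)⁻¹ =
      ψ i (n i) * y * (ψ i (n i))⁻¹ := by
  have h1 : n = Pi.mulSingle i (n i) * Function.update n i 1 := by
    funext j
    by_cases hj : j = i
    · subst hj
      simp
    · simp [hj]
  have h2 : Commute (MonoidHom.noncommPiCoprod ψ hc (Function.update n i 1)) y := by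
    rw [MonoidHom.noncommPiCoprod_apply]
    refine (Finset.noncommProd_commute _ _ _ _ ?_).symm
    intro j _
    by_cases hj : j = i
    · subst hj
      simp
    · exact (hy j hj _).symm
  rw [h1, map_mul, MonoidHom.noncommPiCoprod_mulSingle, mul_inv_rev]
  have h3 : (Pi.mulSingle i (n i) * Function.update n i 1 : ∀ i, N i) i = n i := by
    rw [← h1]
  rw [h3]
  have h4 := h2.eq
  calc ψ i (n i) * MonoidHom.noncommPiCoprod ψ hc (Function.update n i 1) * y *
        ((MonoidHom.noncommPiCoprod ψ hc (Function.update n i 1))⁻¹ * (ψ i (n i))⁻¹)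
      = ψ i (n i) * (MonoidHom.noncommPiCoprod ψ hc (Function.update n i 1) * y) *
        (MonoidHom.noncommPiCoprod ψ hc (Function.update n i 1))⁻¹ * (ψ i (n i))⁻¹ := by group
    _ = _ := by rw [h4]; group

end fam

/-! ### the core construction -/

section core

variable {p : ℕ} [Fact p.Prime] {G : Type} [Group G] [Finite G] (P : Sylow p G) {I : Type}
  [Fintype I] (L : I → Subgroup G) (τ : G →* Equiv.Perm I)

/-- the elements which respect the subgroups `P ∩ L i` -/
def HH (hL : ∀ g i x, x ∈ L i → g * x * g⁻¹ ∈ L (τ g i)) : Subgroup G where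
  carrier := {g | ∀ i, ∀ x ∈ L i, (g * x * g⁻¹ ∈ P ↔ x ∈ P)}
  one_mem' := by
    intro i x _
    simp
  mul_mem' := by
    intro a b ha hb i x hx
    have h1 := ha (τ b i) (b * x * b⁻¹) (hL b i x hx)
    have h2 := hb i x hx
    rw [← h2, ← h1]
    simp only [mul_inv_rev, mul_assoc]
  inv_mem' := by
    intro a ha i x hx
    have h1 := ha (τ a⁻¹ i) (a⁻¹ * x * a⁻¹⁻¹) (hL a⁻¹ i x hx)
    rw [← h1]
    simp [mul_assoc]

variable {P L τ}

theorem mem_HH {hL : ∀ g i x, x ∈ L i → g * x * g⁻¹ ∈ L (τ g i)} {g : G} :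
    g ∈ HH P L τ hL ↔ ∀ i, ∀ x ∈ L i, (g * x * g⁻¹ ∈ P ↔ x ∈ P) := Iff.rfl

theorem NN_le_HH (hL : ∀ g i x, x ∈ L i → g * x * g⁻¹ ∈ L (τ g i)) :
    Subgroup.normalizer ((P : Subgroup G) : Set G) ≤ HH P L τ hL := by
  intro g hg i x _
  exact (Subgroup.mem_normalizer_iff.mp hg x).symm

/-- the intersections with the Sylow subgroups of `G` are Sylow subgroups of `L i` -/
theorem sylow_L (hL : ∀ g i x, x ∈ L i → g * x * g⁻¹ ∈ L (τ g i))
    (ht : ∀ i, ∀ x ∈ L i, τ x = 1) (P : Sylow p G) (i : I) :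
    ∃ Q : Sylow p (L i), (Q : Subgroup (L i)) = (P : Subgroup G).subgroupOf (L i) := by
  have hE : (⨆ j, L j).Normal := by
    constructor
    intro x hx g
    have h1 : (⨆ j, L j) ≤ (⨆ j, L j).comap (MulAut.conj g).toMonoidHom := by
      refine iSup_le fun j y hy => ?_
      exact (le_iSup L (τ g j)) (hL g j y hy)
    exact h1 hx
  have hLE : L i ≤ ⨆ j, L j := le_iSup L i
  have hst : ∀ x ∈ ⨆ j, L j, τ x = 1 := by
    have h1 : (⨆ j, L j) ≤ τ.ker := iSup_le fun j y hy => ht j y hy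
    exact fun x hx => h1 hx
  have hn : ((L i).subgroupOf (⨆ j, L j)).Normal := by
    constructor
    intro x hx g
    have h2 := hL g i x hx
    rw [hst g g.2] at h2
    exact h2
  have hd := relIndex_sub_dvd (P : Subgroup G) (L i) (⨆ j, L j) hLE hn
  have hnd : ¬ p ∣ ((P : Subgroup G).subgroupOf (L i)).index := fun h =>
    P.not_dvd_index (h.trans hd)
  exact ⟨(P.isPGroup'.comap_subtype).toSylow hnd, rfl⟩

theorem frat (hL : ∀ g i x, x ∈ L i → g * x * g⁻¹ ∈ L (τ g i))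
    (ht : ∀ i, ∀ x ∈ L i, τ x = 1) (hc : ∀ i j, i ≠ j → ∀ x ∈ L i, ∀ y ∈ L j, x * y = y * x)
    (g : G) : ∃ e ∈ ⨆ j, L j, e * g ∈ HH P L τ hL := by
  have key : ∀ j, ∃ l : L j, ∀ x ∈ L j, ((l : G) * x * (l : G)⁻¹ ∈ P ↔ g⁻¹ * x * g ∈ P) := by
    intro j
    obtain ⟨Q, hQ⟩ := sylow_L hL ht P j
    obtain ⟨Q', hQ'⟩ := sylow_L hL ht (g • P) j
    obtain ⟨l, hl⟩ := MulAction.exists_smul_eq (L j) Q' Q
    refine ⟨l, fun x hx => ?_⟩
    have h1 : l * ⟨x, hx⟩ * l⁻¹ ∈ (Q : Subgroup (L j)) ↔ (⟨x, hx⟩ : L j) ∈ (Q' : Subgroup (L j)) := by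
      rw [← hl, Sylow.coe_subgroup_smul, Subgroup.mem_pointwise_smul_iff_inv_smul_mem]
      simp [MulAut.smul_def, mul_assoc]
    rw [hQ, hQ', Subgroup.mem_subgroupOf, Subgroup.mem_subgroupOf, Sylow.coe_subgroup_smul,
      Subgroup.mem_pointwise_smul_iff_inv_smul_mem] at h1
    have h2 : (l : G) * x * (l : G)⁻¹ ∈ (P : Subgroup G) ↔ g⁻¹ * x * g ∈ (P : Subgroup G) := by
      simpa [MulAut.smul_def, mul_assoc] using h1
    exact h2
  choose l hl using key
  have hcom : Pairwise fun i j => ∀ x : L i, ∀ y : L j, Commute ((L i).subtype x) ((L j).subtype y) :=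
    fun i j hij x y => hc i j hij x x.2 y y.2
  refine ⟨MonoidHom.noncommPiCoprod (fun j => (L j).subtype) hcom l, ?_, ?_⟩
  · have h1 := MonoidHom.noncommPiCoprod_range (ϕ := fun j => (L j).subtype) (hcomm := hcom)
    simp only [Subgroup.range_subtype] at h1
    rw [← h1]
    exact ⟨l, rfl⟩
  · intro i x hx
    have h1 := hL g i x hx
    have h2 := prod_acts (fun j => (L j).subtype) hcom l (τ g i) (g * x * g⁻¹)
      (fun j hj y => hc j (τ g i) hj y y.2 _ h1)
    have h3 := hl (τ g i) (g * x * g⁻¹) h1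
    have h4 : MonoidHom.noncommPiCoprod (fun j => (L j).subtype) hcom l * g * x *
        (MonoidHom.noncommPiCoprod (fun j => (L j).subtype) hcom l * g)⁻¹ =
        MonoidHom.noncommPiCoprod (fun j => (L j).subtype) hcom l * (g * x * g⁻¹) *
        (MonoidHom.noncommPiCoprod (fun j => (L j).subtype) hcom l)⁻¹ := by group
    rw [h4, h2]
    have h5 : g⁻¹ * (g * x * g⁻¹) * g = x := by group
    rw [h5] at h3
    exact h3

/-- conjugation by the elements which fix `i₀` -/
def ca (i₀ : I) (hL : ∀ g i x, x ∈ L i → g * x * g⁻¹ ∈ L (τ g i)) (u : G) (hu : τ u i₀ = i₀) :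
    MulAut (L i₀) where
  toFun x := ⟨u * x * u⁻¹, by
    have := hL u i₀ x x.2
    rwa [hu] at this⟩
  invFun x := ⟨u⁻¹ * x * u, by
    have := hL u⁻¹ i₀ x x.2
    have h2 : τ u⁻¹ i₀ = i₀ := by
      rw [map_inv, Equiv.Perm.inv_eq_iff_eq, hu]
    rwa [h2, inv_inv] at this⟩
  left_inv x := by
    apply Subtype.ext
    change u⁻¹ * (u * x * u⁻¹) * u = x
    group
  right_inv x := by
    apply Subtype.ext
    change u * (u⁻¹ * x * u) * u⁻¹ = x
    group
  map_mul' x y := by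
    apply Subtype.ext
    change u * (x * y) * u⁻¹ = (u * x * u⁻¹) * (u * y * u⁻¹)
    group

@[simp] theorem ca_coe (i₀ : I) (hL : ∀ g i x, x ∈ L i → g * x * g⁻¹ ∈ L (τ g i)) (u : G)
    (hu : τ u i₀ = i₀) (x : L i₀) : ((ca i₀ hL u hu x : L i₀) : G) = u * x * u⁻¹ := rfl

theorem core (hL : ∀ g i x, x ∈ L i → g * x * g⁻¹ ∈ L (τ g i))
    (ht : ∀ i, ∀ x ∈ L i, τ x = 1) (hc : ∀ i j, i ≠ j → ∀ x ∈ L i, ∀ y ∈ L j, x * y = y * x)
    (i₀ : I) (htr : ∀ i, ∃ g, τ g i₀ = i)
    (hz : ∀ x ∈ L i₀, (∀ y ∈ L i₀, x * y = y * x) → x ∈ Subgroup.center G) :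
    ∃ (F : (I → L i₀) →* G) (σ : HH P L τ hL →* Equiv.Perm I)
      (c : HH P L τ hL → I → MulAut (L i₀)) (Q : Sylow p (L i₀)),
      (Q : Subgroup (L i₀)) = (P : Subgroup G).subgroupOf (L i₀) ∧
      F.range.Normal ∧ F.range ⊔ HH P L τ hL = ⊤ ∧
      (∀ h h' i, c (h * h') i = c h (σ h' i) * c h' i) ∧
      (∀ (h : HH P L τ hL) (n : I → L i₀), (h : G) * F n * (h : G)⁻¹ =
        F fun i => c h ((σ h)⁻¹ i) (n ((σ h)⁻¹ i))) ∧
      (∀ h i, (∀ x, c h i x ∈ (Q : Subgroup (L i₀)) ↔ x ∈ (Q : Subgroup (L i₀))) ∧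
        ∀ z ∈ Subgroup.center (L i₀), c h i z = z) ∧
      (∀ n : I → L i₀, F n ∈ HH P L τ hL ↔
        ∀ i, n i ∈ Subgroup.normalizer ((Q : Subgroup (L i₀)) : Set (L i₀))) ∧
      ∀ (n : I → L i₀) (hn : F n ∈ HH P L τ hL), σ ⟨F n, hn⟩ = 1 ∧
        ∀ i, c ⟨F n, hn⟩ i = MulAut.conj (n i) := by
  obtain ⟨Q, hQ⟩ := sylow_L hL ht P i₀
  have hst : ∀ x ∈ ⨆ j, L j, τ x = 1 := by
    have h1 : (⨆ j, L j) ≤ τ.ker := iSup_le fun j y hy => ht j y hy
    exact fun x hx => h1 hx
  have ht' : ∀ i, ∃ t : HH P L τ hL, τ t i₀ = i := by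
    intro i
    obtain ⟨g, hg⟩ := htr i
    obtain ⟨e, he, heg⟩ := frat (P := P) hL ht hc g
    refine ⟨⟨e * g, heg⟩, ?_⟩
    change τ (e * g) i₀ = i
    rw [map_mul, hst e he, one_mul, hg]
  choose t htt using ht'
  -- the maps
  let ψ : ∀ _ : I, L i₀ →* G := fun i => (MulAut.conj (t i : G)).toMonoidHom.comp (L i₀).subtype
  have hψ : ∀ i x, ψ i x = (t i : G) * x * (t i : G)⁻¹ := fun i x => rfl
  have hψL : ∀ i x, ψ i x ∈ L i := by
    intro i x
    have h1 := hL (t i) i₀ x x.2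
    rwa [htt] at h1
  have hψs : ∀ i, ∀ y ∈ L i, ∃ x, ψ i x = y := by
    intro i y hy
    have h1 := hL (t i : G)⁻¹ i y hy
    have h2 : τ (t i : G)⁻¹ i = i₀ := by
      rw [map_inv, Equiv.Perm.inv_eq_iff_eq, htt]
    rw [h2, inv_inv] at h1
    refine ⟨⟨_, h1⟩, ?_⟩
    rw [hψ]
    simp only
    group
  have hcom : Pairwise fun i j => ∀ x y, Commute (ψ i x) (ψ j y) :=
    fun i j hij x y => hc i j hij _ (hψL i x) _ (hψL j y)
  set F := MonoidHom.noncommPiCoprod ψ hcom with hF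
  have hr : F.range = ⨆ i, L i := by
    rw [hF, MonoidHom.noncommPiCoprod_range]
    congr 1
    funext i
    ext y
    constructor
    · rintro ⟨x, rfl⟩
      exact hψL i x
    · intro hy
      exact hψs i y hy
  have hFτ : ∀ n, τ (F n) = 1 := by
    intro n
    apply hst
    rw [← hr]
    exact ⟨n, rfl⟩
  have hFa : ∀ n i, ∀ y ∈ L i, F n * y * (F n)⁻¹ = ψ i (n i) * y * (ψ i (n i))⁻¹ := by
    intro n i y hy
    exact prod_acts ψ hcom n i y (fun j hj x => hc j i hj _ (hψL j x) _ hy)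
  -- the automorphisms
  have hu : ∀ (h : HH P L τ hL) (i : I), τ ((t (τ h i) : G)⁻¹ * h * t i) i₀ = i₀ := by
    intro h i
    rw [map_mul, map_mul, Equiv.Perm.mul_apply, Equiv.Perm.mul_apply, htt, map_inv,
      Equiv.Perm.inv_eq_iff_eq, htt]
  let c : HH P L τ hL → I → MulAut (L i₀) := fun h i => ca i₀ hL _ (hu h i)
  have hcc : ∀ h i x, ((c h i x : L i₀) : G) =
      ((t (τ h i) : G)⁻¹ * h * t i) * x * ((t (τ h i) : G)⁻¹ * h * t i)⁻¹ := fun h i x => rfl
  have hQm : ∀ x : L i₀, x ∈ (Q : Subgroup (L i₀)) ↔ (x : G) ∈ P := by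
    intro x
    rw [hQ]
    rfl
  refine ⟨F, τ.comp (HH P L τ hL).subtype, c, Q, hQ, ?_, ?_, ?_, ?_, ?_, ?_, ?_⟩
  · rw [hr]
    constructor
    intro x hx g
    have h1 : (⨆ j, L j) ≤ (⨆ j, L j).comap (MulAut.conj g).toMonoidHom := by
      refine iSup_le fun j y hy => ?_
      exact (le_iSup L (τ g j)) (hL g j y hy)
    exact h1 hx
  · rw [eq_top_iff]
    intro g _
    obtain ⟨e, he, heg⟩ := frat (P := P) hL ht hc g
    have h1 : g = e⁻¹ * (e * g) := by group
    rw [h1, hr]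
    exact Subgroup.mul_mem_sup (inv_mem he) heg
  · intro h h' i
    ext x
    change ((c (h * h') i x : L i₀) : G) = ((c h (τ h' i) (c h' i x) : L i₀) : G)
    rw [hcc, hcc, hcc]
    have h1 : τ ((h * h' : HH P L τ hL) : G) i = τ h (τ h' i) := by
      rw [Subgroup.coe_mul, map_mul, Equiv.Perm.mul_apply]
    rw [h1, Subgroup.coe_mul]
    group
  · intro h n
    have h1 : (MulAut.conj (h : G)).toMonoidHom.comp F = F.comp
        { toFun := fun n i => c h ((τ h)⁻¹ i) (n ((τ h)⁻¹ i))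
          map_one' := by
            funext i
            simp
          map_mul' := by
            intro a b
            funext i
            simp : (I → L i₀) →* (I → L i₀)} := by
      refine MonoidHom.pi_ext fun i x => ?_
      change (h : G) * F (Pi.mulSingle i x) * (h : G)⁻¹ =
        F fun j => c h ((τ h)⁻¹ j) ((Pi.mulSingle i x : I → L i₀) ((τ h)⁻¹ j))
      have h2 : (fun j => c h ((τ h)⁻¹ j) ((Pi.mulSingle i x : I → L i₀) ((τ h)⁻¹ j))) =
          Pi.mulSingle (τ h i) (c h i x) := by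
        funext j
        by_cases hj : j = τ h i
        · subst hj
          simp
        · have h3 : (τ h)⁻¹ j ≠ i := by
            intro h4
            apply hj
            rw [← h4]
            simp
          rw [Pi.mulSingle_eq_of_ne h3, Pi.mulSingle_eq_of_ne hj, map_one]
      rw [h2, hF, MonoidHom.noncommPiCoprod_mulSingle, MonoidHom.noncommPiCoprod_mulSingle, hψ, hψ,
        hcc]
      group
    exact DFunLike.congr_fun h1 n
  · intro h i
    constructor
    · intro x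
      rw [hQm, hQm, hcc]
      have h1 : (t (τ h i))⁻¹ * h * t i ∈ (⊤ : Subgroup (HH P L τ hL)) := trivial
      have h2 := ((t (τ h i))⁻¹ * h * t i).2 i₀ x x.2
      exact h2
    · intro z hzz
      have h1 : (z : G) ∈ Subgroup.center G := hz z z.2 (by
        intro y hy
        have := Subgroup.mem_center_iff.mp hzz ⟨y, hy⟩
        exact (congrArg Subtype.val this).symm)
      apply Subtype.ext
      rw [hcc]
      have h2 := Subgroup.mem_center_iff.mp h1 ((t (τ h i) : G)⁻¹ * h * t i)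
      rw [h2]
      group
  · intro n
    rw [mem_HH]
    have hiff : ∀ i, (∀ x ∈ L i, (F n * x * (F n)⁻¹ ∈ P ↔ x ∈ P)) ↔
        n i ∈ Subgroup.normalizer ((Q : Subgroup (L i₀)) : Set (L i₀)) := by
      intro i
      rw [Subgroup.mem_normalizer_iff]
      have hti : ∀ x : L i₀, (ψ i x ∈ P ↔ (x : G) ∈ P) := fun x => (t i).2 i₀ x x.2
      constructor
      · intro H x
        have h1 := H (ψ i x) (hψL i x)
        rw [hFa n i _ (hψL i x), ← map_mul, ← map_inv, ← map_mul, hti, hti] at h1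
        rw [hQm, hQm]
        exact h1.symm
      · intro H y hy
        obtain ⟨x, rfl⟩ := hψs i y hy
        have h1 := H x
        rw [hQm, hQm] at h1
        rw [hFa n i _ (hψL i x), ← map_mul, ← map_inv, ← map_mul, hti, hti]
        exact h1.symm
    exact forall_congr' hiff
  · intro n hn
    refine ⟨hFτ n, fun i => ?_⟩
    ext x
    change ((c ⟨F n, hn⟩ i x : L i₀) : G) = (n i : G) * (x : G) * (n i : G)⁻¹
    rw [hcc]
    have h1 : τ ((⟨F n, hn⟩ : HH P L τ hL) : G) i = i := by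
      change τ (F n) i = i
      rw [hFτ n]
      rfl
    rw [h1]
    have h2 := hFa n i (ψ i x) (hψL i x)
    rw [hψ, hψ] at h2
    change (t i : G)⁻¹ * F n * (t i : G) * x * ((t i : G)⁻¹ * F n * (t i : G))⁻¹ = _
    have h3 : (t i : G)⁻¹ * F n * (t i : G) * x * ((t i : G)⁻¹ * F n * (t i : G))⁻¹ =
        (t i : G)⁻¹ * (F n * ((t i : G) * x * (t i : G)⁻¹) * (F n)⁻¹) * (t i : G) := by group
    rw [h3, h2]
    group

end core

end Pool.Agent.ZH17.RD
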