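import Mathlib

/-!
# Group theory for piece GRP: coordinate subgroups of a minimal normal subgroup `S ^ k`
-/

set_option autoImplicit false
set_option linter.unusedSectionVars false

open scoped Classical

noncomputable section

namespace Pool.Agent.ZH17.RD

open Subgroup

theorem center_simple {S : Type*} [Group S] [IsSimpleGroup S] (hS : ∃ a b : S, a * b ≠ b * a) :
    Subgroup.center S = ⊥ := by
  rcases IsSimpleGroup.eq_bot_or_eq_top_of_normal (Subgroup.center S) inferInstance with h | h
  · exact h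
  · exfalso
    obtain ⟨a, b, hab⟩ := hS
    have h1 : b ∈ Subgroup.center S := by rw [h]; trivial
    exact hab (Subgroup.mem_center_iff.mp h1 a)

theorem comm_simple {S : Type*} [Group S] [IsSimpleGroup S] (hS : ∃ a b : S, a * b ≠ b * a) :
    ⁅(⊤ : Subgroup S), (⊤ : Subgroup S)⁆ = ⊤ := by
  rcases IsSimpleGroup.eq_bot_or_eq_top_of_normal ⁅(⊤ : Subgroup S), (⊤ : Subgroup S)⁆
    inferInstance with h | h
  · exfalso
    obtain ⟨a, b, hab⟩ := hS
    have h1 := Subgroup.commutator_mem_commutator (Subgroup.mem_top a) (Subgroup.mem_top b)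
    rw [h, Subgroup.mem_bot, commutatorElement_eq_one_iff_mul_comm] at h1
    exact hab h1
  · exact h

/-- a nontrivial normal subgroup of `S ^ I` contains a factor -/
theorem normal_pi {S : Type*} [Group S] [IsSimpleGroup S] (hS : ∃ a b : S, a * b ≠ b * a)
    {I : Type*} [DecidableEq I] (B : Subgroup (I → S)) [B.Normal] (hB : B ≠ ⊥) :
    ∃ j, ∀ s, (Pi.mulSingle j s : I → S) ∈ B := by
  obtain ⟨b, hb, hb1⟩ := (Subgroup.ne_bot_iff_exists_ne_one.mp hB |>.elim fun b hb =>
    ⟨(b : I → S), b.2, fun h => hb (Subtype.ext h)⟩ : ∃ b : I → S, b ∈ B ∧ b ≠ 1)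
  obtain ⟨j, hj⟩ := Function.ne_iff.mp hb1
  refine ⟨j, ?_⟩
  have h2 : (B.comap (MonoidHom.mulSingle (fun _ : I => S) j)).Normal := inferInstance
  rcases IsSimpleGroup.eq_bot_or_eq_top_of_normal _ h2 with h | h
  · exfalso
    apply hj
    have h3 : b j ∈ Subgroup.center S := by
      rw [Subgroup.mem_center_iff]
      intro s
      have h4 : b j * s * (b j)⁻¹ * s⁻¹ ∈ B.comap (MonoidHom.mulSingle (fun _ : I => S) j) := by
        rw [Subgroup.mem_comap]
        have h5 : MonoidHom.mulSingle (fun _ : I => S) j (b j * s * (b j)⁻¹ * s⁻¹) =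
            b * (Pi.mulSingle j s * b⁻¹ * (Pi.mulSingle j s)⁻¹) := by
          funext i
          by_cases hi : i = j
          · subst hi
            simp [mul_assoc]
          · simp [hi]
        rw [h5]
        exact B.mul_mem hb (Subgroup.Normal.conj_mem inferInstance _ (B.inv_mem hb) _)
      rw [h, Subgroup.mem_bot] at h4
      have h6 : b j * s = s * b j := by
        have := mul_inv_eq_one.mp h4
        exact mul_inv_eq_iff_eq_mul.mp this
      exact h6.symm
    rw [center_simple hS, Subgroup.mem_bot] at h3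
    exact h3
  · intro s
    have : s ∈ B.comap (MonoidHom.mulSingle (fun _ : I => S) j) := by
      rw [h]
      trivial
    exact this

section coord

variable {R : Type} [Group R] [Finite R] {S : Type} [Group S] [Finite S] {k : ℕ} {M : Subgroup R}
  (e : M ≃* (Fin k → S))

/-- the `i`-th coordinate embedding -/
def io (i : Fin k) : S →* R :=
  M.subtype.comp (e.symm.toMonoidHom.comp (MonoidHom.mulSingle (fun _ : Fin k => S) i))

theorem io_mem (i : Fin k) (s : S) : io e i s ∈ M := (e.symm (Pi.mulSingle i s)).2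

theorem io_inj (i : Fin k) : Function.Injective (io e i) := by
  intro a b hab
  have h1 := e.symm.injective (Subtype.ext hab)
  exact Pi.mulSingle_injective i h1

theorem io_comm {i j : Fin k} (hij : i ≠ j) (s t : S) : io e i s * io e j t = io e j t * io e i s := by
  have h1 := (Pi.mulSingle_commute (f := fun _ : Fin k => S) hij s t).eq
  have h2 := congrArg (fun x => ((e.symm x : M) : R)) h1
  simp only [map_mul, Subgroup.coe_mul] at h2
  exact h2

variable [IsSimpleGroup S] (hS : ∃ a b : S, a * b ≠ b * a)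

include hS in
theorem io_conj [M.Normal] (g : R) (i : Fin k) :
    ∃ j, (io e i).range.map (MulAut.conj g).toMonoidHom = (io e j).range := by
  set B := (io e i).range.map (MulAut.conj g).toMonoidHom with hB
  have hBM : B ≤ M := by
    rintro _ ⟨_, ⟨s, rfl⟩, rfl⟩
    exact Subgroup.Normal.conj_mem inferInstance _ (io_mem e i s) g
  -- `B` is normalised by `M`
  have hnor : ∀ m ∈ M, ∀ x ∈ B, m * x * m⁻¹ ∈ B := by
    rintro m hm _ ⟨_, ⟨s, rfl⟩, rfl⟩
    have hm' : g⁻¹ * m * g ∈ M := by
      have := Subgroup.Normal.conj_mem (inferInstance : M.Normal) _ hm g⁻¹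
      rwa [inv_inv] at this
    set m' := g⁻¹ * m * g with hm'def
    refine ⟨m' * io e i s * m'⁻¹, ?_, ?_⟩
    · refine ⟨e ⟨m', hm'⟩ i * s * (e ⟨m', hm'⟩ i)⁻¹, ?_⟩
      have h1 : e.symm (Pi.mulSingle i (e ⟨m', hm'⟩ i * s * (e ⟨m', hm'⟩ i)⁻¹)) =
          ⟨m', hm'⟩ * e.symm (Pi.mulSingle i s) * ⟨m', hm'⟩⁻¹ := by
        apply e.injective
        rw [map_mul, map_mul, map_inv, MulEquiv.apply_symm_apply, MulEquiv.apply_symm_apply]
        funext j
        by_cases hj : j = i
        · subst hj
          simp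
        · simp [hj]
      exact congrArg Subtype.val h1
    · change g * (m' * io e i s * m'⁻¹) * g⁻¹ = m * (g * io e i s * g⁻¹) * m⁻¹
      rw [hm'def]
      group
  let B' : Subgroup (Fin k → S) := B.comap (M.subtype.comp e.symm.toMonoidHom)
  have hB'n : B'.Normal := by
    constructor
    intro x hx y
    have h1 := hnor (e.symm y) (e.symm y).2 _ hx
    change ((e.symm (y * x * y⁻¹) : M) : R) ∈ B
    rw [map_mul, map_mul, map_inv]
    exact h1
  have hcB : Nat.card B = Nat.card S := by
    rw [hB]
    have h1 : Nat.card ((io e i).range.map (MulAut.conj g).toMonoidHom) = Nat.card (io e i).range :=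
      Nat.card_congr (Equiv.Set.image _ _ (MulAut.conj g).injective).symm
    rw [h1]
    exact (Nat.card_congr (MonoidHom.ofInjective (io_inj e i)).toEquiv).symm
  have hB'b : B' ≠ ⊥ := by
    intro h
    obtain ⟨a, ha⟩ := exists_ne (1 : S)
    apply ha
    have h1 : e ⟨g * io e i a * g⁻¹, hBM ⟨_, ⟨a, rfl⟩, rfl⟩⟩ ∈ B' := by
      change ((e.symm (e _) : M) : R) ∈ B
      rw [MulEquiv.symm_apply_apply]
      exact ⟨_, ⟨a, rfl⟩, rfl⟩
    rw [h, Subgroup.mem_bot] at h1
    have h2 := e.injective (h1.trans (map_one e).symm)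
    have h3 : g * io e i a * g⁻¹ = 1 := congrArg Subtype.val h2
    have h4 : io e i a = 1 := by
      have h5 : io e i a = g⁻¹ * (g * io e i a * g⁻¹) * g := by group
      rw [h5, h3]
      group
    exact io_inj e i (h4.trans (map_one _).symm)
  obtain ⟨j, hj⟩ := normal_pi hS B' hB'b
  refine ⟨j, (Subgroup.eq_of_le_of_card_ge ?_ ?_).symm⟩
  · rintro _ ⟨s, rfl⟩
    exact hj s
  · rw [hcB, ← Nat.card_congr (MonoidHom.ofInjective (io_inj e j)).toEquiv]

include hS in
theorem io_range_inj {i j : Fin k} (h : (io e i).range = (io e j).range) : i = j := by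
  by_contra hij
  obtain ⟨a, b, hab⟩ := hS
  have h1 : io e i a ∈ (io e j).range := by rw [← h]; exact ⟨a, rfl⟩
  obtain ⟨c, hc⟩ := h1
  apply hab
  apply io_inj e i
  rw [map_mul, map_mul, ← hc]
  exact (io_comm e hij b c).symm

include hS in
theorem io_trans [M.Normal]
    (hmin : ∀ K : Subgroup R, K.Normal → K ≠ ⊥ → M ≤ K) (i j : Fin k) :
    ∃ g : R, (io e i).range.map (MulAut.conj g).toMonoidHom = (io e j).range := by
  by_contra hcon
  push Not at hcon
  obtain ⟨a, b, hab⟩ := hS
  have h1 : Subgroup.normalClosure ((io e i).range : Set R) ≤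
      Subgroup.centralizer ((io e j).range : Set R) := by
    apply Subgroup.closure_le _ |>.mpr
    intro x hx
    rw [Group.mem_conjugatesOfSet_iff] at hx
    obtain ⟨y, hy, hyx⟩ := hx
    obtain ⟨g, rfl⟩ := isConj_iff.mp hyx
    obtain ⟨l, hl⟩ := io_conj e ⟨a, b, hab⟩ g i
    have hlj : l ≠ j := fun h => hcon g (h ▸ hl)
    have h2 : g * y * g⁻¹ ∈ (io e l).range := by
      rw [← hl]
      exact ⟨y, hy, rfl⟩
    obtain ⟨s, hs⟩ := h2
    rw [← hs]
    refine Subgroup.mem_centralizer_iff.mpr ?_
    rintro _ ⟨t, rfl⟩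
    exact (io_comm e hlj s t).symm
  have h2 : Subgroup.normalClosure ((io e i).range : Set R) ≠ ⊥ := by
    intro h
    have h3 : io e i a ∈ Subgroup.normalClosure ((io e i).range : Set R) :=
      Subgroup.subset_normalClosure ⟨a, rfl⟩
    rw [h, Subgroup.mem_bot] at h3
    have h4 : a = 1 := io_inj e i (h3.trans (map_one _).symm)
    apply hab
    rw [h4]
    simp
  have h3 := (hmin _ Subgroup.normalClosure_normal h2).trans h1
  have h4 := Subgroup.mem_centralizer_iff.mp (h3 (io_mem e j b)) (io e j a) ⟨a, rfl⟩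
  rw [← map_mul, ← map_mul] at h4
  exact hab (io_inj e j h4)

end coord

/-- an injective family of subgroups which is stable under conjugation gives an action -/
theorem act_family {G : Type*} [Group G] {I : Type*} (L : I → Subgroup G)
    (hinj : Function.Injective L)
    (hst : ∀ (g : G) i, ∃ j, (L i).map (MulAut.conj g).toMonoidHom = L j) :
    ∃ τ : G →* Equiv.Perm I, ∀ g i, (L i).map (MulAut.conj g).toMonoidHom = L (τ g i) := by
  choose f hf using hst
  have h1 : ∀ i, f 1 i = i := by
    intro i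
    apply hinj
    rw [← hf]
    ext x
    simp
  have hm : ∀ g h i, f (g * h) i = f g (f h i) := by
    intro g h i
    apply hinj
    rw [← hf, ← hf, ← hf, Subgroup.map_map]
    congr 1
    ext x
    simp [mul_assoc]
  refine ⟨{ toFun := fun g => ⟨f g, f g⁻¹, fun i => ?_, fun i => ?_⟩
            map_one' := ?_
            map_mul' := ?_ }, fun g i => hf g i⟩
  · rw [← hm, inv_mul_cancel, h1]
  · rw [← hm, mul_inv_cancel, h1]
  · ext i
    exact h1 i
  · intro g h
    ext i
    exact hm g h i

end Pool.Agent.ZH17.RD
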