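import Pool.Agent.ZH17.RD.Stm
import Pool.Agent.ZH17.RD.Grp1
import Pool.Agent.ZH17.RD.Grp2

/-!
# Piece GRP
-/

set_option autoImplicit false
set_option linter.unusedSectionVars false

open scoped Classical commutatorElement

noncomputable section

namespace Pool.Agent.ZH17.RD

open Subgroup
open Pool.Agent.K3h3.MK Pool.Agent.K3h83.IN

/-- three commuting subgroups -/
theorem three {G : Type*} [Group G] (A B : Subgroup G) (h : ⁅A, B⁆ ≤ Subgroup.center G) :
    ⁅⁅A, A⁆, B⁆ = ⊥ := by
  apply Subgroup.commutator_commutator_eq_bot_of_rotate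
  · rw [Subgroup.commutator_eq_bot_iff_le_centralizer]
    exact h.trans (Subgroup.center_le_centralizer _)
  · rw [Subgroup.commutator_eq_bot_iff_le_centralizer, Subgroup.commutator_comm]
    exact h.trans (Subgroup.center_le_centralizer _)

theorem grp : GRP := by
  intro p _ G _ _ P hred S _ _ _ hS hpS k hk M hMn hmin he
  obtain ⟨e⟩ := he
  have := hMn
  set π := QuotientGroup.mk' (Subgroup.center G) with hπ
  have hπs : Function.Surjective π := QuotientGroup.mk'_surjective _
  have hπ1 : ∀ x, π x = 1 ↔ x ∈ Subgroup.center G := fun x => QuotientGroup.eq_one_iff x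
  let Mi : Fin k → Subgroup G := fun i => (io e i).range.comap π
  let L : Fin k → Subgroup G := fun i => ⁅Mi i, Mi i⁆
  have hmapM : ∀ i, (Mi i).map π = (io e i).range := fun i =>
    Subgroup.map_comap_eq_self_of_surjective hπs _
  have hrr : ∀ i, ⁅(io e i).range, (io e i).range⁆ = (io e i).range := by
    intro i
    rw [MonoidHom.range_eq_map, ← Subgroup.map_commutator, comm_simple hS]
  have hmapL : ∀ i, (L i).map π = (io e i).range := by
    intro i
    change (⁅Mi i, Mi i⁆).map π = _
    rw [Subgroup.map_commutator, hmapM, hrr]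
  have hLM : ∀ i, L i ≤ Mi i := fun i => Subgroup.commutator_le_self _
  have hdec : ∀ i, ∀ x ∈ Mi i, ∃ l ∈ L i, ∃ z ∈ Subgroup.center G, x = l * z := by
    intro i x hx
    have h1 : π x ∈ (L i).map π := by
      rw [hmapL]
      exact hx
    obtain ⟨l, hl, hlx⟩ := h1
    refine ⟨l, hl, l⁻¹ * x, ?_, by group⟩
    rw [← hπ1, map_mul, map_inv, hlx, inv_mul_cancel]
  have hperf : ∀ i, ⁅L i, L i⁆ = L i := by
    intro i
    refine le_antisymm (Subgroup.commutator_le_self _) ?_
    refine Subgroup.commutator_le.mpr fun x hx y hy => ?_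
    obtain ⟨l, hl, z, hz, rfl⟩ := hdec i x hx
    obtain ⟨l', hl', z', hz', rfl⟩ := hdec i y hy
    have h1 : ⁅l * z, l' * z'⁆ = ⁅l, l'⁆ := by
      have e1 := Subgroup.mem_center_iff.mp hz
      have e2 := Subgroup.mem_center_iff.mp hz'
      have e3 : l' * z' * (l * z)⁻¹ = z⁻¹ * z' * (l' * l⁻¹) := by
        have e4 : z⁻¹ ∈ Subgroup.center G := inv_mem hz
        rw [mul_inv_rev, e2 l']
        have e5 := Subgroup.mem_center_iff.mp e4 (z' * l')
        calc z' * l' * (z⁻¹ * l⁻¹) = z' * l' * z⁻¹ * l⁻¹ := by group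
          _ = z⁻¹ * (z' * l') * l⁻¹ := by rw [e5]
          _ = _ := by group
      calc ⁅l * z, l' * z'⁆ = l * z * (l' * z' * (l * z)⁻¹) * (l' * z')⁻¹ := by
            rw [commutatorElement_def]; group
        _ = l * z * (z⁻¹ * z' * (l' * l⁻¹)) * (l' * z')⁻¹ := by rw [e3]
        _ = l * z' * l' * l⁻¹ * z'⁻¹ * l'⁻¹ := by group
        _ = l * (z' * (l' * l⁻¹)) * z'⁻¹ * l'⁻¹ := by group
        _ = l * ((l' * l⁻¹) * z') * z'⁻¹ * l'⁻¹ := by rw [e2 (l' * l⁻¹)]
        _ = ⁅l, l'⁆ := by rw [commutatorElement_def]; group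
    rw [h1]
    exact Subgroup.commutator_mem_commutator hl hl'
  have hcomm : ∀ i j, i ≠ j → ∀ x ∈ L i, ∀ y ∈ L j, x * y = y * x := by
    intro i j hij x hx y hy
    have h1 : ⁅Mi i, Mi j⁆ ≤ Subgroup.center G := by
      refine Subgroup.commutator_le.mpr fun a ha b hb => ?_
      rw [← hπ1, map_commutatorElement, commutatorElement_eq_one_iff_mul_comm]
      obtain ⟨s, hs⟩ := ha
      obtain ⟨t, ht⟩ := hb
      rw [← hs, ← ht]
      exact io_comm e hij s t
    have h2 := three (Mi i) (Mi j) h1
    rw [Subgroup.commutator_eq_bot_iff_le_centralizer] at h2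
    exact (Subgroup.mem_centralizer_iff.mp (h2 hx) y (hLM j hy)).symm
  have hconj : ∀ (g : G) (i j : Fin k),
      (io e i).range.map (MulAut.conj (π g)).toMonoidHom = (io e j).range →
      (L i).map (MulAut.conj g).toMonoidHom = L j := by
    intro g i j hij
    have h1 : (Mi i).map (MulAut.conj g).toMonoidHom = Mi j := by
      ext x
      constructor
      · rintro ⟨y, hy, rfl⟩
        change π (g * y * g⁻¹) ∈ (io e j).range
        rw [← hij]
        refine ⟨π y, hy, ?_⟩
        change π g * π y * (π g)⁻¹ = _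
        rw [map_mul, map_mul, map_inv]
      · intro hx
        refine ⟨g⁻¹ * x * g, ?_, ?_⟩
        · change π x ∈ (io e j).range at hx
          rw [← hij] at hx
          obtain ⟨q, hq, hqx⟩ := hx
          change π g * q * (π g)⁻¹ = π x at hqx
          change π (g⁻¹ * x * g) ∈ (io e i).range
          have h2 : π (g⁻¹ * x * g) = q := by
            rw [map_mul, map_mul, map_inv, ← hqx]
            group
          rw [h2]
          exact hq
        · change g * (g⁻¹ * x * g) * g⁻¹ = x
          group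
    change (⁅Mi i, Mi i⁆).map _ = ⁅Mi j, Mi j⁆
    rw [Subgroup.map_commutator, h1]
  have hinj : Function.Injective L := by
    intro i j hij
    apply io_range_inj e hS
    rw [← hmapL, ← hmapL, hij]
  obtain ⟨τ, hτ⟩ := act_family L hinj (fun g i => by
    obtain ⟨j, hj⟩ := io_conj e hS (π g) i
    exact ⟨j, hconj g i j hj⟩)
  have hL : ∀ g i x, x ∈ L i → g * x * g⁻¹ ∈ L (τ g i) := by
    intro g i x hx
    rw [← hτ]
    exact ⟨x, hx, rfl⟩
  have ht : ∀ i, ∀ x ∈ L i, τ x = 1 := by
    intro i x hx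
    ext j
    rw [Equiv.Perm.one_apply]
    congr 1
    apply hinj
    rw [← hτ]
    have h1 : ∀ z ∈ L i, ∀ y ∈ L j, z * y * z⁻¹ ∈ L j := by
      intro z hz y hy
      by_cases hij : i = j
      · subst hij
        exact (L i).mul_mem ((L i).mul_mem hz hy) ((L i).inv_mem hz)
      · rw [hcomm i j hij z hz y hy, mul_inv_cancel_right]
        exact hy
    ext y
    constructor
    · rintro ⟨y', hy', rfl⟩
      exact h1 x hx y' hy'
    · intro hy
      refine ⟨x⁻¹ * y * x, ?_, ?_⟩
      · have := h1 x⁻¹ ((L i).inv_mem hx) y hy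
        rwa [inv_inv] at this
      · change x * (x⁻¹ * y * x) * x⁻¹ = y
        group
  let i₀ : Fin k := ⟨0, hk⟩
  have htr : ∀ i, ∃ g, τ g i₀ = i := by
    intro i
    obtain ⟨q, hq⟩ := io_trans e hS hmin i₀ i
    obtain ⟨g, rfl⟩ := hπs q
    refine ⟨g, hinj ?_⟩
    rw [← hτ]
    exact hconj g i₀ i hq
  have hz : ∀ x ∈ L i₀, (∀ y ∈ L i₀, x * y = y * x) → x ∈ Subgroup.center G := by
    intro x hx hxy
    have h1 : π x ∈ (io e i₀).range := by
      rw [← hmapL]
      exact ⟨x, hx, rfl⟩
    obtain ⟨s, hs⟩ := h1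
    have h2 : s ∈ Subgroup.center S := by
      rw [Subgroup.mem_center_iff]
      intro t
      have h3 : io e i₀ t ∈ (L i₀).map π := by
        rw [hmapL]
        exact ⟨t, rfl⟩
      obtain ⟨y, hy, hyt⟩ := h3
      apply io_inj e i₀
      rw [map_mul, map_mul, hs, ← hyt, ← map_mul, ← map_mul, hxy y hy]
    rw [center_simple hS, Subgroup.mem_bot] at h2
    rw [← hπ1, ← hs, h2, map_one]
  have hNperf : commutator (L i₀) = ⊤ := by
    apply Subgroup.map_injective (L i₀).subtype_injective
    rw [Subgroup.map_subtype_commutator, hperf, ← MonoidHom.range_eq_map, Subgroup.range_subtype]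
  let f : L i₀ →* (io e i₀).range := (π.comp (L i₀).subtype).codRestrict _ (by
    intro x
    rw [← hmapL]
    exact ⟨x, x.2, rfl⟩)
  have hfs : Function.Surjective f := by
    rintro ⟨y, hy⟩
    have hy' := hy
    rw [← hmapL] at hy'
    obtain ⟨x, hx, hxy⟩ := hy'
    exact ⟨⟨x, hx⟩, Subtype.ext hxy⟩
  have hfk : f.ker = Subgroup.center (L i₀) := by
    ext x
    rw [MonoidHom.mem_ker]
    have h0 : f x = 1 ↔ π x = 1 := by
      constructor
      · intro h
        exact congrArg Subtype.val h
      · intro h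
        exact Subtype.ext h
    rw [h0, hπ1]
    constructor
    · intro h
      rw [Subgroup.mem_center_iff]
      intro y
      exact Subtype.ext (Subgroup.mem_center_iff.mp h y)
    · intro h
      refine hz x x.2 fun y hy => ?_
      exact (congrArg Subtype.val (Subgroup.mem_center_iff.mp h ⟨y, hy⟩)).symm
  have hiso : Nonempty ((L i₀ ⧸ Subgroup.center (L i₀)) ≃* S) :=
    ⟨(QuotientGroup.quotientMulEquivOfEq hfk.symm).trans
      ((QuotientGroup.quotientKerEquivOfSurjective f hfs).trans
        (MonoidHom.ofInjective (io_inj e i₀)).symm)⟩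
  have hcen : ¬ p ∣ Nat.card (Subgroup.center (L i₀)) := by
    intro h
    apply hred.cop
    refine h.trans ?_
    let φ : Subgroup.center (L i₀) →* Subgroup.center G :=
      { toFun := fun x => ⟨((x : L i₀) : G), hz _ (x : L i₀).2 fun y hy =>
          (congrArg Subtype.val (Subgroup.mem_center_iff.mp x.2 ⟨y, hy⟩)).symm⟩
        map_one' := rfl
        map_mul' := fun _ _ => rfl }
    refine Subgroup.card_dvd_of_injective φ fun a b hab => ?_
    have h2 : ((a : L i₀) : G) = ((b : L i₀) : G) :=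
      congrArg (fun z : Subgroup.center G => (z : G)) hab
    exact Subtype.ext (Subtype.ext h2)
  obtain ⟨F, σ, c, Q, hQ, h1, h2, h3, h4, h5, h6, h7⟩ := core (P := P) hL ht hcomm i₀ htr hz
  refine ⟨L i₀, inferInstance, inferInstance, Fin k, inferInstance, F, HH P L τ hL, σ, c, Q, hNperf,
    hiso, hcen, h1, h2, NN_le_HH hL, ?_, h3, h4, ?_, h6, h7⟩
  · intro htop
    have hall : ∀ g, g ∈ HH P L τ hL := fun g => by rw [htop]; trivial
    have hRn : (⨆ i, (P : Subgroup G) ⊓ L i).Normal := by
      constructor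
      intro x hx g
      have h1 : (⨆ j, (P : Subgroup G) ⊓ L j) ≤
          (⨆ j, (P : Subgroup G) ⊓ L j).comap (MulAut.conj g).toMonoidHom := by
        refine iSup_le fun j y hy => ?_
        refine (le_iSup (fun j => (P : Subgroup G) ⊓ L j) (τ g j)) ⟨?_, hL g j y hy.2⟩
        exact (hall g j y hy.2).mpr hy.1
      exact h1 hx
    have hRP : (⨆ i, (P : Subgroup G) ⊓ L i) ≤ (P : Subgroup G) := iSup_le fun i => inf_le_left
    have hRp : IsPGroup p (⨆ i, (P : Subgroup G) ⊓ L i : Subgroup G) := P.isPGroup'.to_le hRP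
    have hRs : Group.IsSolvable (⨆ i, (P : Subgroup G) ⊓ L i : Subgroup G) := by
      have := hRp.isNilpotent
      infer_instance
    have hRc := hred.rad _ hRn hRs
    have hQb : (Q : Subgroup (L i₀)) = ⊥ := by
      rw [eq_bot_iff]
      intro x hx
      rw [hQ, Subgroup.mem_subgroupOf] at hx
      have hxc : (x : G) ∈ Subgroup.center G :=
        hRc ((le_iSup (fun j => (P : Subgroup G) ⊓ L j) i₀) ⟨hx, x.2⟩)
      obtain ⟨m, hm⟩ := P.isPGroup' ⟨x, hx⟩
      have hm' : (x : G) ^ p ^ m = 1 := congrArg Subtype.val hm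
      have ho1 := orderOf_dvd_of_pow_eq_one hm'
      have ho2 : orderOf (x : G) ∣ Nat.card (Subgroup.center G) := by
        have := orderOf_dvd_natCard (⟨x, hxc⟩ : Subgroup.center G)
        rwa [Subgroup.orderOf_mk] at this
      have hco : Nat.Coprime (p ^ m) (Nat.card (Subgroup.center G)) :=
        Nat.Coprime.pow_left m ((Nat.Prime.coprime_iff_not_dvd Fact.out).mpr hred.cop)
      have ho3 : orderOf (x : G) ∣ 1 := by
        rw [← hco]
        exact Nat.dvd_gcd ho1 ho2
      rw [Subgroup.mem_bot]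
      apply Subtype.ext
      exact orderOf_eq_one_iff.mp (Nat.dvd_one.mp ho3)
    have hni := Q.not_dvd_index
    rw [hQb, Subgroup.index_bot] at hni
    apply hni
    obtain ⟨u⟩ := hiso
    rw [← Nat.card_congr u.toEquiv] at hpS
    exact hpS.trans (Subgroup.card_quotient_dvd_card _)
  · intro h i
    exact ⟨(h5 h i).1, (h5 h i).2⟩

end Pool.Agent.ZH17.RD
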