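import Pool.Agent.ZH17.RD.Grp

/-!
# The components of a reduced group and their transport
-/

set_option autoImplicit false
set_option linter.unusedSectionVars false

open scoped Classical commutatorElement

noncomputable section

namespace Pool.Agent.ZH17.RD

open Subgroup
open Pool.Agent.K3h3.MK Pool.Agent.K3h83.IN

/-- the components of a group `G` such that `G / Z(G)` has the unique minimal normal subgroup `S ^ k` -/
theorem struct {G : Type} [Group G] [Finite G] {S : Type} [Group S] [Finite S] [IsSimpleGroup S]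
    (hS : ∃ a b : S, a * b ≠ b * a) {k : ℕ} (M : Subgroup (G ⧸ Subgroup.center G)) (hMn : M.Normal)
    (hmin : ∀ L : Subgroup (G ⧸ Subgroup.center G), L.Normal → L ≠ ⊥ → M ≤ L)
    (e : M ≃* (Fin k → S)) :
    ∃ (L : Fin k → Subgroup G) (τ : G →* Equiv.Perm (Fin k)),
      (∀ g i x, x ∈ L i → g * x * g⁻¹ ∈ L (τ g i)) ∧ (∀ i, ∀ x ∈ L i, τ x = 1) ∧
      (∀ i j, i ≠ j → ∀ x ∈ L i, ∀ y ∈ L j, x * y = y * x) ∧ (∀ i j, ∃ g, τ g i = j) ∧
      (∀ i, ∀ x ∈ L i, (∀ y ∈ L i, x * y = y * x) → x ∈ Subgroup.center G) ∧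
      (∀ i, commutator (L i) = ⊤) ∧ ∀ i, Nonempty ((L i ⧸ Subgroup.center (L i)) ≃* S) := by
  have := hMn
  set π := QuotientGroup.mk' (Subgroup.center G) with hπ
  have hπs : Function.Surjective π := QuotientGroup.mk'_surjective _
  have hπ1 : ∀ x, π x = 1 ↔ x ∈ Subgroup.center G := fun x => QuotientGroup.eq_one_iff x
  let Mi : Fin k → Subgroup G := fun i => (io e i).range.comap π
  let L : Fin k → Subgroup G := fun i => ⁅Mi i, Mi i⁆
  have hmapM : ∀ i, (Mi i).map π = (io e i).range := fun i =>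
    Subgroup.map_comap_eq_self_of_surjective hπs _
  have hrr : ∀ i, ⁅(io e i).range, (io e i).range⁆ = (io e i).range := by
    intro i
    rw [MonoidHom.range_eq_map, ← Subgroup.map_commutator, comm_simple hS]
  have hmapL : ∀ i, (L i).map π = (io e i).range := by
    intro i
    change (⁅Mi i, Mi i⁆).map π = _
    rw [Subgroup.map_commutator, hmapM, hrr]
  have hLM : ∀ i, L i ≤ Mi i := fun i => Subgroup.commutator_le_self _
  have hdec : ∀ i, ∀ x ∈ Mi i, ∃ l ∈ L i, ∃ z ∈ Subgroup.center G, x = l * z := by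
    intro i x hx
    have h1 : π x ∈ (L i).map π := by
      rw [hmapL]
      exact hx
    obtain ⟨l, hl, hlx⟩ := h1
    refine ⟨l, hl, l⁻¹ * x, ?_, by group⟩
    rw [← hπ1, map_mul, map_inv, hlx, inv_mul_cancel]
  have hperf : ∀ i, ⁅L i, L i⁆ = L i := by
    intro i
    refine le_antisymm (Subgroup.commutator_le_self _) ?_
    refine Subgroup.commutator_le.mpr fun x hx y hy => ?_
    obtain ⟨l, hl, z, hz, rfl⟩ := hdec i x hx
    obtain ⟨l', hl', z', hz', rfl⟩ := hdec i y hy
    have h1 : ⁅l * z, l' * z'⁆ = ⁅l, l'⁆ := by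
      have e1 := Subgroup.mem_center_iff.mp hz
      have e2 := Subgroup.mem_center_iff.mp hz'
      have e3 : l' * z' * (l * z)⁻¹ = z⁻¹ * z' * (l' * l⁻¹) := by
        have e4 : z⁻¹ ∈ Subgroup.center G := inv_mem hz
        rw [mul_inv_rev, e2 l']
        have e5 := Subgroup.mem_center_iff.mp e4 (z' * l')
        calc z' * l' * (z⁻¹ * l⁻¹) = z' * l' * z⁻¹ * l⁻¹ := by group
          _ = z⁻¹ * (z' * l') * l⁻¹ := by rw [e5]
          _ = _ := by group
      calc ⁅l * z, l' * z'⁆ = l * z * (l' * z' * (l * z)⁻¹) * (l' * z')⁻¹ := by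
            rw [commutatorElement_def]; group
        _ = l * z * (z⁻¹ * z' * (l' * l⁻¹)) * (l' * z')⁻¹ := by rw [e3]
        _ = l * z' * l' * l⁻¹ * z'⁻¹ * l'⁻¹ := by group
        _ = l * (z' * (l' * l⁻¹)) * z'⁻¹ * l'⁻¹ := by group
        _ = l * ((l' * l⁻¹) * z') * z'⁻¹ * l'⁻¹ := by rw [e2 (l' * l⁻¹)]
        _ = ⁅l, l'⁆ := by rw [commutatorElement_def]; group
    rw [h1]
    exact Subgroup.commutator_mem_commutator hl hl'
  have hcomm : ∀ i j, i ≠ j → ∀ x ∈ L i, ∀ y ∈ L j, x * y = y * x := by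
    intro i j hij x hx y hy
    have h1 : ⁅Mi i, Mi j⁆ ≤ Subgroup.center G := by
      refine Subgroup.commutator_le.mpr fun a ha b hb => ?_
      rw [← hπ1, map_commutatorElement, commutatorElement_eq_one_iff_mul_comm]
      obtain ⟨s, hs⟩ := ha
      obtain ⟨t, ht⟩ := hb
      rw [← hs, ← ht]
      exact io_comm e hij s t
    have h2 := three (Mi i) (Mi j) h1
    rw [Subgroup.commutator_eq_bot_iff_le_centralizer] at h2
    exact (Subgroup.mem_centralizer_iff.mp (h2 hx) y (hLM j hy)).symm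
  have hconj : ∀ (g : G) (i j : Fin k),
      (io e i).range.map (MulAut.conj (π g)).toMonoidHom = (io e j).range →
      (L i).map (MulAut.conj g).toMonoidHom = L j := by
    intro g i j hij
    have h1 : (Mi i).map (MulAut.conj g).toMonoidHom = Mi j := by
      ext x
      constructor
      · rintro ⟨y, hy, rfl⟩
        change π (g * y * g⁻¹) ∈ (io e j).range
        rw [← hij]
        refine ⟨π y, hy, ?_⟩
        change π g * π y * (π g)⁻¹ = _
        rw [map_mul, map_mul, map_inv]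
      · intro hx
        refine ⟨g⁻¹ * x * g, ?_, ?_⟩
        · change π x ∈ (io e j).range at hx
          rw [← hij] at hx
          obtain ⟨q, hq, hqx⟩ := hx
          change π g * q * (π g)⁻¹ = π x at hqx
          change π (g⁻¹ * x * g) ∈ (io e i).range
          have h2 : π (g⁻¹ * x * g) = q := by
            rw [map_mul, map_mul, map_inv, ← hqx]
            group
          rw [h2]
          exact hq
        · change g * (g⁻¹ * x * g) * g⁻¹ = x
          group
    change (⁅Mi i, Mi i⁆).map _ = ⁅Mi j, Mi j⁆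
    rw [Subgroup.map_commutator, h1]
  have hinj : Function.Injective L := by
    intro i j hij
    apply io_range_inj e hS
    rw [← hmapL, ← hmapL, hij]
  obtain ⟨τ, hτ⟩ := act_family L hinj (fun g i => by
    obtain ⟨j, hj⟩ := io_conj e hS (π g) i
    exact ⟨j, hconj g i j hj⟩)
  have hL : ∀ g i x, x ∈ L i → g * x * g⁻¹ ∈ L (τ g i) := by
    intro g i x hx
    rw [← hτ]
    exact ⟨x, hx, rfl⟩
  have ht : ∀ i, ∀ x ∈ L i, τ x = 1 := by
    intro i x hx
    ext j
    rw [Equiv.Perm.one_apply]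
    congr 1
    apply hinj
    rw [← hτ]
    have h1 : ∀ z ∈ L i, ∀ y ∈ L j, z * y * z⁻¹ ∈ L j := by
      intro z hz y hy
      by_cases hij : i = j
      · subst hij
        exact (L i).mul_mem ((L i).mul_mem hz hy) ((L i).inv_mem hz)
      · rw [hcomm i j hij z hz y hy, mul_inv_cancel_right]
        exact hy
    ext y
    constructor
    · rintro ⟨y', hy', rfl⟩
      exact h1 x hx y' hy'
    · intro hy
      refine ⟨x⁻¹ * y * x, ?_, ?_⟩
      · have := h1 x⁻¹ ((L i).inv_mem hx) y hy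
        rwa [inv_inv] at this
      · change x * (x⁻¹ * y * x) * x⁻¹ = y
        group
  have htr : ∀ i j, ∃ g, τ g i = j := by
    intro i j
    obtain ⟨q, hq⟩ := io_trans e hS hmin i j
    obtain ⟨g, rfl⟩ := hπs q
    refine ⟨g, hinj ?_⟩
    rw [← hτ]
    exact hconj g i j hq
  have hz : ∀ i, ∀ x ∈ L i, (∀ y ∈ L i, x * y = y * x) → x ∈ Subgroup.center G := by
    intro i x hx hxy
    have h1 : π x ∈ (io e i).range := by
      rw [← hmapL]
      exact ⟨x, hx, rfl⟩
    obtain ⟨s, hs⟩ := h1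
    have h2 : s ∈ Subgroup.center S := by
      rw [Subgroup.mem_center_iff]
      intro t
      have h3 : io e i t ∈ (L i).map π := by
        rw [hmapL]
        exact ⟨t, rfl⟩
      obtain ⟨y, hy, hyt⟩ := h3
      apply io_inj e i
      rw [map_mul, map_mul, hs, ← hyt, ← map_mul, ← map_mul, hxy y hy]
    rw [center_simple hS, Subgroup.mem_bot] at h2
    rw [← hπ1, ← hs, h2, map_one]
  have hNperf : ∀ i, commutator (L i) = ⊤ := by
    intro i
    apply Subgroup.map_injective (L i).subtype_injective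
    rw [Subgroup.map_subtype_commutator, hperf, ← MonoidHom.range_eq_map, Subgroup.range_subtype]
  refine ⟨L, τ, hL, ht, hcomm, htr, hz, hNperf, fun i => ?_⟩
  let f : L i →* (io e i).range := (π.comp (L i).subtype).codRestrict _ (by
    intro x
    rw [← hmapL]
    exact ⟨x, x.2, rfl⟩)
  have hfs : Function.Surjective f := by
    rintro ⟨y, hy⟩
    have hy' := hy
    rw [← hmapL] at hy'
    obtain ⟨x, hx, hxy⟩ := hy'
    exact ⟨⟨x, hx⟩, Subtype.ext hxy⟩
  have hfk : f.ker = Subgroup.center (L i) := by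
    ext x
    rw [MonoidHom.mem_ker]
    have h0 : f x = 1 ↔ π x = 1 := by
      constructor
      · intro h
        exact congrArg Subtype.val h
      · intro h
        exact Subtype.ext h
    rw [h0, hπ1]
    constructor
    · intro h
      rw [Subgroup.mem_center_iff]
      intro y
      exact Subtype.ext (Subgroup.mem_center_iff.mp h y)
    · intro h
      refine hz i x x.2 fun y hy => ?_
      exact (congrArg Subtype.val (Subgroup.mem_center_iff.mp h ⟨y, hy⟩)).symm
  exact ⟨(QuotientGroup.quotientMulEquivOfEq hfk.symm).trans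
      ((QuotientGroup.quotientKerEquivOfSurjective f hfs).trans
        (MonoidHom.ofInjective (io_inj e i)).symm)⟩

/-! ### transport of the components -/

section core0

variable {G : Type} [Group G] {I : Type} [Fintype I] {L : I → Subgroup G}
  {τ : G →* Equiv.Perm I} (hL : ∀ g i x, x ∈ L i → g * x * g⁻¹ ∈ L (τ g i)) (i₀ : I) (t : I → G)
  (htt : ∀ i, τ (t i) i₀ = i)

/-- the automorphism of `L i₀` given by `h` and `i` -/
def c0 (h : G) (i : I) : MulAut (L i₀) := ca i₀ hL ((t (τ h i))⁻¹ * h * t i) (by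
  rw [map_mul, map_mul, Equiv.Perm.mul_apply, Equiv.Perm.mul_apply, htt, map_inv,
    Equiv.Perm.inv_eq_iff_eq, htt])

theorem c0_coe (h : G) (i : I) (x : L i₀) : ((c0 hL i₀ t htt h i x : L i₀) : G) =
    ((t (τ h i))⁻¹ * h * t i) * x * ((t (τ h i))⁻¹ * h * t i)⁻¹ := rfl

theorem c0_mul (h h' : G) (i : I) : c0 hL i₀ t htt (h * h') i =
    c0 hL i₀ t htt h (τ h' i) * c0 hL i₀ t htt h' i := by
  ext x
  rw [MulAut.mul_apply, c0_coe, c0_coe, c0_coe]
  have h1 : τ (h * h') i = τ h (τ h' i) := by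
    rw [map_mul, Equiv.Perm.mul_apply]
  rw [h1]
  group

/-- the embedding of `L i₀` onto `L i` -/
def ps (i : I) : L i₀ →* G := (MulAut.conj (t i)).toMonoidHom.comp (L i₀).subtype

theorem ps_apply (i : I) (x : L i₀) : ps i₀ t i x = t i * x * (t i)⁻¹ := rfl

include hL htt in
theorem ps_mem (i : I) (x : L i₀) : ps i₀ t i x ∈ L i := by
  have h1 := hL (t i) i₀ x x.2
  rwa [htt] at h1

include hL htt in
theorem ps_surj (i : I) (y : G) (hy : y ∈ L i) : ∃ x : L i₀, ps i₀ t i x = y := by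
  have h1 := hL (t i)⁻¹ i y hy
  have h2 : τ (t i)⁻¹ i = i₀ := by
    rw [map_inv, Equiv.Perm.inv_eq_iff_eq, htt]
  rw [h2, inv_inv] at h1
  refine ⟨⟨_, h1⟩, ?_⟩
  rw [ps_apply]
  simp only
  group

variable (hc : ∀ i j, i ≠ j → ∀ x ∈ L i, ∀ y ∈ L j, x * y = y * x)

include hL htt hc in
theorem ps_comm : Pairwise fun i j => ∀ x y : L i₀, Commute (ps i₀ t i x) (ps i₀ t j y) :=
  fun i j hij x y => hc i j hij _ (ps_mem hL i₀ t htt i x) _ (ps_mem hL i₀ t htt j y)

/-- the product map -/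
def Ph : (I → L i₀) →* G := MonoidHom.noncommPiCoprod (ps i₀ t) (ps_comm hL i₀ t htt hc)

theorem Ph_range : (Ph hL i₀ t htt hc).range = ⨆ i, L i := by
  unfold Ph
  rw [MonoidHom.noncommPiCoprod_range]
  congr 1
  funext i
  ext y
  constructor
  · rintro ⟨x, rfl⟩
    exact ps_mem hL i₀ t htt i x
  · intro hy
    exact ps_surj hL i₀ t htt i y hy

theorem Ph_acts (n : I → L i₀) (i : I) (y : G) (hy : y ∈ L i) :
    Ph hL i₀ t htt hc n * y * (Ph hL i₀ t htt hc n)⁻¹ =
      ps i₀ t i (n i) * y * (ps i₀ t i (n i))⁻¹ :=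
  prod_acts (ps i₀ t) (ps_comm hL i₀ t htt hc) n i y
    (fun j hj x => hc j i hj _ (ps_mem hL i₀ t htt j x) _ hy)

theorem Ph_conj (h : G) (n : I → L i₀) : h * Ph hL i₀ t htt hc n * h⁻¹ =
    Ph hL i₀ t htt hc fun i => c0 hL i₀ t htt h ((τ h)⁻¹ i) (n ((τ h)⁻¹ i)) := by
  have h1 : (MulAut.conj h).toMonoidHom.comp (Ph hL i₀ t htt hc) = (Ph hL i₀ t htt hc).comp
      { toFun := fun n i => c0 hL i₀ t htt h ((τ h)⁻¹ i) (n ((τ h)⁻¹ i))
        map_one' := by
          funext i
          simp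
        map_mul' := by
          intro a b
          funext i
          simp : (I → L i₀) →* (I → L i₀)} := by
    refine MonoidHom.pi_ext fun i x => ?_
    change h * Ph hL i₀ t htt hc (Pi.mulSingle i x) * h⁻¹ =
      Ph hL i₀ t htt hc fun j => c0 hL i₀ t htt h ((τ h)⁻¹ j)
        ((Pi.mulSingle i x : I → L i₀) ((τ h)⁻¹ j))
    have h2 : (fun j => c0 hL i₀ t htt h ((τ h)⁻¹ j)
        ((Pi.mulSingle i x : I → L i₀) ((τ h)⁻¹ j))) =
        Pi.mulSingle (τ h i) (c0 hL i₀ t htt h i x) := by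
      funext j
      by_cases hj : j = τ h i
      · subst hj
        simp
      · have h3 : (τ h)⁻¹ j ≠ i := by
          intro h4
          apply hj
          rw [← h4]
          simp
        rw [Pi.mulSingle_eq_of_ne h3, Pi.mulSingle_eq_of_ne hj, map_one]
    rw [h2]
    unfold Ph
    rw [MonoidHom.noncommPiCoprod_mulSingle, MonoidHom.noncommPiCoprod_mulSingle, ps_apply,
      ps_apply, c0_coe]
    group
  exact DFunLike.congr_fun h1 n

/-- the automorphisms given by elements of the product -/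
theorem c0_Ph (n : I → L i₀) (hτ : τ (Ph hL i₀ t htt hc n) = 1) (i : I) :
    c0 hL i₀ t htt (Ph hL i₀ t htt hc n) i = MulAut.conj (n i) := by
  ext x
  change ((c0 hL i₀ t htt (Ph hL i₀ t htt hc n) i x : L i₀) : G) = (n i : G) * (x : G) * (n i : G)⁻¹
  rw [c0_coe]
  have h1 : τ (Ph hL i₀ t htt hc n) i = i := by
    rw [hτ]
    rfl
  rw [h1]
  have h2 := Ph_acts hL i₀ t htt hc n i (ps i₀ t i x) (ps_mem hL i₀ t htt i x)
  rw [ps_apply, ps_apply] at h2
  have h3 : (t i)⁻¹ * Ph hL i₀ t htt hc n * (t i) * x *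
      ((t i)⁻¹ * Ph hL i₀ t htt hc n * (t i))⁻¹ =
      (t i)⁻¹ * (Ph hL i₀ t htt hc n * ((t i) * x * (t i)⁻¹) *
        (Ph hL i₀ t htt hc n)⁻¹) * (t i) := by group
  rw [h3, h2]
  group

end core0

end Pool.Agent.ZH17.RD
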