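import Pool.Agent.ZH17.RD.Link
import Pool.Agent.ZH17.RD.Stm

/-!
# Statements of the pieces, second part (project RD, helper17): socles `S ^ k` of order prime to `p`
-/

set_option autoImplicit false
set_option linter.unusedSectionVars false
set_option linter.style.haveILetI false

open scoped BigOperators Classical

noncomputable section

namespace Pool.Agent.ZH17.RD

open Pool.Agent.Helper884 Pool.Agent.K3h3.KB Pool.Agent.K3h3.MK Pool.Agent.K3h83.IN
open Pool.Agent.H254R3.IN (IsIrr mem_Irr)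
open IC (Irr)

/-- **Piece GCD**: an invariant irreducible character `θ` of a normal subgroup `K` of `Γ` extends to `Γ` if there
is a representation of `Γ × C` (`C` abelian) whose character at `(·, c)`, restricted to `K`, has scalar product
`± 1` with `θ`.

Proof. `Ω(g, c) = ∑ λ(c) f_λ(g)`, `λ ∈ Irr(C)`, with characters `f_λ` of `Γ` (the `λ`-isotypic parts); let
`b_λ = (f_λ|K, θ) ∈ ℕ`. Then `∑ λ(c) b_λ = ± 1`, so no prime divides all `b_λ` (otherwise `1 / ℓ` would be an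
algebraic integer). Let `π : E → Γ`, `s : K → E`, `ρ`, `lam` be as in `K3h85.IN.t_S3a` (central extension with a
representation extending `θ`, `ker π` acts by `lam⁻¹`). `V_λ = (ρ^* ⊗ f_λ∘π)^{s(K)}` has dimension `b_λ`, `s(K)`
acts trivially and `ker π` by `lam`; so `det V_λ` is a linear character of `E`, trivial on `s(K)`, equal to
`lam ^ b_λ` on `ker π`. By Bezout there is a linear character `ν` of `E`, trivial on `s(K)`, equal to `lam` on
`ker π`; `ρ ⊗ ν` is trivial on `ker π` and gives the extension. -/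
def GCD : Prop := ∀ (K Γ C : Type) [Group K] [Finite K] [Group Γ] [Finite Γ] [CommGroup C] [Finite C]
  (j : K →* Γ) (_ : Function.Injective j) (_ : j.range.Normal) (θ : K → ℂ) (_ : IsIrr θ)
  (_ : ∀ x, fixes j θ x) (Ω : Γ × C → ℂ) (_ : RC Ω) (c : C) (ε : ℤ) (_ : ε = 1 ∨ ε = -1)
  (_ : pr (fun k => Ω (j k, c)) θ = ε), ∃ ξ : Γ → ℂ, IsIrr ξ ∧ ∀ k, ξ (j k) = θ k

/-- **Piece GLU**: if the characters `κ y` of the normal subgroup `K` form a `Γ`-stable set and each extends to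
its stabiliser, then the sum of the `κ y` extends to a character of `Γ` (sum of the induced characters of the
extensions over representatives of the orbits). -/
def GLU : Prop := ∀ (K Γ Y : Type) [Group K] [Finite K] [Group Γ] [Finite Γ] [Fintype Y]
  (j : K →* Γ) (_ : Function.Injective j) (_ : j.range.Normal) (κ : Y → K → ℂ) (_ : ∀ y, IsIrr (κ y))
  (_ : Function.Injective κ)
  (_ : ∀ (x : Γ) (y : Y), ∃ y', ∀ k k', x * j k * x⁻¹ = j k' → κ y' k' = κ y k)
  (_ : ∀ y, ∃ (T : Subgroup Γ) (jT : K →* T) (ξ : T → ℂ), (∀ x, x ∈ T ↔ fixes j (κ y) x) ∧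
    (∀ k, (jT k : Γ) = j k) ∧ RC ξ ∧ ∀ k, ξ (jT k) = κ y k),
  ∃ ω : Γ → ℂ, RC ω ∧ ∀ k, ω (j k) = ∑ y, κ y k

/-- **Piece TWI**: Galois twist of the characters of a group of order prime to `p` -/
def TWI : Prop := ∀ (p a : ℕ) [Fact p.Prime] (R : Type) [Group R] [Finite R] (_ : ¬ p ∣ Nat.card R),
  ∃ e : X p R ≃ X p R, ∀ (χ : X p R) (m : R), (e χ).1 m = χ.1 (m ^ p ^ a)

/-- **Piece LB**: for a group `R` of order prime to `p` and a set `O` with `p ^ a` elements, the bimodule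
`⨁ χ^{⊗ O} ⊗ (χ^σ)^*` of `R ^ O` and (the diagonal) `R` extends to `R ^ O ⋊ (A × Sym(O))`; here
`χ^σ(m) = χ(m ^ (p ^ a))`.

Proof. By `GLU` (with `K` = the elements `(x, (b, 1))`, `α b ∈ conj R`) we need for each `θ ∈ Irr(R)` with
stabiliser `A_θ` that `κ(x, (b, 1)) = ∏ θ(x_j m) · θ(m ^ {- p ^ a})` (`α b = conj m`; well defined as `θ(z·)` is
a multiple of `θ` for central `z`) extends to `R ^ O ⋊ (A_θ × Sym(O))`. Let `R ⋊ Â`, `Â → A_θ` a central
extension, with a representation `ρ` on `W` extending `θ` (from `K3h85.IN.t_S3a` for `R ◁ R ⋊ A_θ`; or directly: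
`Â` = pairs `(b, u)`, `u` a matrix of determinant 1 with `u ρ(n) u⁻¹ = ρ(α b n)`). Then `R ^ O ⋊ (Â × Sym(O))` acts on
`W^{⊗ O}` (`exists_ten` in RD/Ten.lean: constant cocycle), and `Â × ⟨g⟩`, `g` a full cycle of `O`, acts on `W^{⊗ O}`
with trace `χ_W(b ^ (p ^ a))` at `(b, g)`. In the product `W^{⊗ O} ⊗ (W^{⊗ O})^*` the kernel of `Â → A_θ`
acts trivially, so this is a representation `Ω` of `(R ^ O ⋊ (A_θ × Sym(O))) × ⟨g⟩` and `Ω(·, g)` is on `K` equal
to `κ`. Now use `GCD` with `ε = 1`. -/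
def LB : Prop := ∀ (p a : ℕ) [Fact p.Prime] (R : Type) [Group R] [Finite R] (_ : ¬ p ∣ Nat.card R)
  (A : Type) [Group A] [Finite A] (α : A →* MulAut R) (O : Type) [Fintype O]
  (_ : Fintype.card O = p ^ a) (φ : A × Equiv.Perm O →* MulAut (O → R))
  (_ : ∀ (x : A × Equiv.Perm O) (n : O → R) (j : O), φ x n j = α x.1 (n (x.2⁻¹ j))),
  ∃ ω₀ : (O → R) ⋊[φ] (A × Equiv.Perm O) → ℂ, RC ω₀ ∧
    ∀ (n : O → R) (m : R) (b : A), α b = MulAut.conj m →
      ω₀ ⟨fun j => n j * m⁻¹, (b, 1)⟩ = ∑ χ : X p R, (∏ j, χ.1 (n j)) * χ.1 (m⁻¹ ^ p ^ a)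

/-- **Piece GRPB** (pure group theory): the structure of a reduced group `G` such that `G / Z(G)` has the
unique minimal normal subgroup `M ≅ S ^ k`, for a simple group `S` with `p ∤ |S|`, `p ∤ |Out(S)|`.

`L = F(...)` is the product of the commuting perfect groups `L_i`, `i ∈ I`, (as in `GRP`, files Grp*.lean), of
order prime to `p`. `P` is normal in `H = NN P`, `H` is transitive on `I`, `J` = the set of `P`-orbits on `I`, all
of the same size `p ^ a`. The stabiliser `D` of `i₀` in `P` acts on `L_{i₀} = N` by inner automorphisms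
(`p ∤ |Out(S)|`), so trivially (`p ∤ |N|`). Choose `t_i ∈ H` with `t_i L_{i₀} t_i⁻¹ = L_i` such that
`t_{x i} ∈ x t_i D` for `x ∈ P` (choose `t` for one point of each orbit first); then
`c(h, i) = t_{h i}⁻¹ h t_i|_N` is trivial for `h ∈ P`, and `c(h, i)` depends only on the orbit of `i`
(`c(h, x i) = c(h x, i) c(x, i)⁻¹ = c(x' h, i) = c(h, i)` with `x' = h x h⁻¹`). Identify each orbit with
`O` = the orbit of `i₀`, in any way. -/
def GRPB : Prop := ∀ (p : ℕ) [Fact p.Prime] (G : Type) [Group G] [Finite G] (P : Sylow p G)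
  (_ : Red2 P) (S : Type) [Group S] [Finite S] [IsSimpleGroup S] (_ : ∃ a b : S, a * b ≠ b * a)
  (_ : ¬ p ∣ Nat.card S)
  (_ : ∀ b : MulAut S, (∃ s : S, b ^ p = MulAut.conj s) → ∃ s : S, b = MulAut.conj s)
  (k : ℕ) (_ : 0 < k) (M : Subgroup (G ⧸ Subgroup.center G)) (_ : M.Normal)
  (_ : ∀ L : Subgroup (G ⧸ Subgroup.center G), L.Normal → L ≠ ⊥ → M ≤ L)
  (_ : Nonempty (M ≃* (Fin k → S))),
  ∃ (N : Type) (_ : Group N) (_ : Finite N) (J O : Type) (_ : Fintype J) (_ : Fintype O) (a : ℕ)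
    (F : (J → O → N) →* G) (σ : NN P →* Equiv.Perm J) (τ : NN P → J → MulAut N)
    (π : NN P → J → Equiv.Perm O),
    ¬ p ∣ Nat.card N ∧ Fintype.card O = p ^ a ∧ F.range.Normal ∧ F.range ⊔ NN P = ⊤ ∧
    (∀ h h' o, τ (h * h') o = τ h (σ h' o) * τ h' o) ∧
    (∀ h h' o, π (h * h') o = π h (σ h' o) * π h' o) ∧
    (∀ (h : NN P) (n : J → O → N), (h : G) * F n * (h : G)⁻¹ =
      F fun o j => τ h ((σ h)⁻¹ o) (n ((σ h)⁻¹ o) ((π h ((σ h)⁻¹ o))⁻¹ j))) ∧
    (∀ x : NN P, (x : G) ∈ P → σ x = 1 ∧ ∀ o, τ x o = 1) ∧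
    (∀ (o : J) (j j' : O), ∃ x : NN P, (x : G) ∈ P ∧ π x o j = j') ∧
    (∀ n, F n = 1 → ∀ o j, n o j ∈ Subgroup.center N) ∧
    ∀ (m : J → N) (hm : F (fun o _ => m o) ∈ NN P), σ ⟨_, hm⟩ = 1 ∧
      (∀ o, τ ⟨_, hm⟩ o = MulAut.conj (m o)) ∧ ∀ o, π ⟨_, hm⟩ o = 1

/-- **Piece CHR**: a unique minimal normal subgroup which is not abelian is a power of a simple group -/
def CHR : Prop := ∀ (Y : Type) [Group Y] [Finite Y] (M : Subgroup Y) (_ : M.Normal)
  (_ : ∀ L : Subgroup Y, L.Normal → L ≠ ⊥ → M ≤ L) (_ : ∃ a ∈ M, ∃ b ∈ M, a * b ≠ b * a),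
  ∃ (S : Type) (_ : Group S) (_ : Finite S) (_ : IsSimpleGroup S) (k : ℕ), 0 < k ∧
    (∃ a b : S, a * b ≠ b * a) ∧ Nonempty (M ≃* (Fin k → S))

end Pool.Agent.ZH17.RD
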