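import Pool.Agent.ZH17.RD.GrpB
import Pool.Agent.ZH17.RD.Stm3

/-!
# Piece GRPAB, first part: the stabilisers act trivially on the components
-/

set_option autoImplicit false
set_option linter.unusedSectionVars false

open scoped Classical

noncomputable section

namespace Pool.Agent.ZH17.RD

open Subgroup
open Pool.Agent.K3h3.MK Pool.Agent.K3h83.IN

theorem caseB {p : ℕ} [Fact p.Prime] {G : Type} [Group G] [Finite G] (P : Sylow p G)
    (hred : Red2 P) {S : Type} [Group S] [Finite S] [IsSimpleGroup S] (hS : ∃ a b : S, a * b ≠ b * a)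
    (hpS : ¬ p ∣ Nat.card S) {k : ℕ} (i₀ : Fin k) (L : Fin k → Subgroup G)
    (act : G →* Equiv.Perm (Fin k))
    (hL : ∀ g i x, x ∈ L i → g * x * g⁻¹ ∈ L (act g i)) (ht : ∀ i, ∀ x ∈ L i, act x = 1)
    (hc : ∀ i j, i ≠ j → ∀ x ∈ L i, ∀ y ∈ L j, x * y = y * x) (htr : ∀ i j, ∃ g, act g i = j)
    (hz : ∀ i, ∀ x ∈ L i, (∀ y ∈ L i, x * y = y * x) → x ∈ Subgroup.center G)
    (hiso : ∀ i, Nonempty ((L i ⧸ Subgroup.center (L i)) ≃* S))
    (claimD : ∀ x ∈ P, ∀ hx : act x i₀ = i₀, ca i₀ hL x hx = 1) : DataB p P := by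
  have hEn : (⨆ j, L j).Normal := by
    constructor
    intro x hx g
    have h1 : (⨆ j, L j) ≤ (⨆ j, L j).comap (MulAut.conj g).toMonoidHom := by
      refine iSup_le fun j y hy => ?_
      exact (le_iSup L (act g j)) (hL g j y hy)
    exact h1 hx
  have hst : ∀ x ∈ ⨆ j, L j, act x = 1 := by
    have h1 : (⨆ j, L j) ≤ act.ker := iSup_le fun j y hy => ht j y hy
    exact fun x hx => h1 hx
  obtain ⟨u⟩ := hiso i₀
  have hEc : ¬ (⨆ j, L j) ≤ Subgroup.center G := by
    intro h
    obtain ⟨x, y, hxy⟩ := hS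
    apply hxy
    obtain ⟨x', hx'⟩ := (OutP.pr_surj u) x
    obtain ⟨y', hy'⟩ := (OutP.pr_surj u) y
    rw [← hx', ← hy', ← map_mul, ← map_mul]
    congr 1
    apply Subtype.ext
    exact Subgroup.mem_center_iff.mp (h ((le_iSup L i₀) y'.2)) (x' : G)
  have hsup := hred.sup _ hEn hEc
  have htrN : ∀ i j, ∃ h ∈ NN P, act h i = j := by
    intro i j
    obtain ⟨g, hg⟩ := htr i j
    have h1 : g ∈ (((⨆ j, L j) ⊔ NN P : Subgroup G) : Set G) := by rw [hsup]; trivial
    rw [Subgroup.normal_mul] at h1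
    obtain ⟨b, hb, n, hn, rfl⟩ := Set.mem_mul.mp h1
    refine ⟨n, hn, ?_⟩
    rw [map_mul, hst b hb, one_mul] at hg
    exact hg
  -- the order of the components
  have hcard : ¬ p ∣ Nat.card (L i₀) := by
    intro h
    have h1 : Nat.card (L i₀) = Nat.card S * Nat.card (Subgroup.center (L i₀)) := by
      rw [← Nat.card_congr u.toEquiv]
      exact Subgroup.card_eq_card_quotient_mul_card_subgroup _
    rw [h1, (Fact.out : p.Prime).dvd_mul] at h
    rcases h with h | h
    · exact hpS h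
    · apply hred.cop
      refine h.trans ?_
      let φ : Subgroup.center (L i₀) →* Subgroup.center G :=
        { toFun := fun x => ⟨((x : L i₀) : G), hz i₀ _ (x : L i₀).2 fun y hy =>
            (congrArg Subtype.val (Subgroup.mem_center_iff.mp x.2 ⟨y, hy⟩)).symm⟩
          map_one' := rfl
          map_mul' := fun _ _ => rfl }
      refine Subgroup.card_dvd_of_injective φ fun a b hab => ?_
      have h2 : ((a : L i₀) : G) = ((b : L i₀) : G) :=
        congrArg (fun z : Subgroup.center G => (z : G)) hab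
      exact Subtype.ext (Subtype.ext h2)
  -- the orbits of `P`
  let J := Quotient (rl act (P : Subgroup G))
  let O := {i : Fin k // Quotient.mk (rl act (P : Subgroup G)) i = Quotient.mk _ i₀}
  obtain ⟨B, hB⟩ : ∃ B : J × O ≃ Fin k, ∀ o j, Quotient.mk (rl act (P : Subgroup G)) (B (o, j)) = o :=
    exists_B act (P : Subgroup G) i₀ (htrN i₀)
  have hB1 : ∀ i, (B.symm i).1 = Quotient.mk _ i := by
    intro i
    have := hB (B.symm i).1 (B.symm i).2
    rw [Prod.mk.eta, B.apply_symm_apply] at this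
    exact this.symm
  -- the elements `t i`
  choose tr htr1 htr2 using fun o : J => htrN i₀ (Quotient.out o)
  have hxi : ∀ i : Fin k, ∃ x ∈ P, act x (Quotient.out (Quotient.mk (rl act (P : Subgroup G)) i)) = i :=
    fun i => (rl_iff act (P : Subgroup G) _ _).mp (Quotient.out_eq _)
  choose xi hxi1 hxi2 using hxi
  let t : Fin k → G := fun i => xi i * tr (Quotient.mk _ i)
  have htN : ∀ i, t i ∈ NN P := fun i => mul_mem (Subgroup.le_normalizer (hxi1 i)) (htr1 _)
  have htt : ∀ i, act (t i) i₀ = i := by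
    intro i
    change act (xi i * tr (Quotient.mk _ i)) i₀ = i
    rw [map_mul, Equiv.Perm.mul_apply, htr2, hxi2]
  set c := c0 hL i₀ t htt with hcdef
  have hcP : ∀ x ∈ P, ∀ i, c x i = 1 := by
    intro x hx i
    refine claimD _ ?_ _
    have ho : (Quotient.mk (rl act (P : Subgroup G)) (act x i)) = Quotient.mk _ i :=
      ((rl_iff act (P : Subgroup G) i (act x i)).mpr ⟨x, hx, rfl⟩).symm
    have h1 : (t (act x i))⁻¹ * x * t i = (tr (Quotient.mk _ i))⁻¹ *
        ((xi (act x i))⁻¹ * x * xi i) * ((tr (Quotient.mk _ i))⁻¹)⁻¹ := by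
      change (xi (act x i) * tr (Quotient.mk _ (act x i)))⁻¹ * x * (xi i * tr (Quotient.mk _ i)) = _
      rw [ho]
      group
    rw [h1]
    refine (Subgroup.mem_normalizer_iff.mp (inv_mem (htr1 _)) _).mp ?_
    exact mul_mem (mul_mem (inv_mem (hxi1 _)) hx) (hxi1 _)
  have hcx : ∀ h ∈ NN P, ∀ x ∈ P, ∀ i, c h (act x i) = c h i := by
    intro h hh x hx i
    have h1 : c (h * x) i = c h (act x i) := by
      rw [hcdef, c0_mul, ← hcdef, hcP x hx i, mul_one]
    have hx' : h * x * h⁻¹ ∈ P := (Subgroup.mem_normalizer_iff.mp hh x).mp hx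
    have h2 : h * x = (h * x * h⁻¹) * h := by group
    have h3 : c (h * x) i = c h i := by
      rw [h2, hcdef, c0_mul, ← hcdef, hcP _ hx' _, one_mul]
    rw [← h1, h3]
  have hco : ∀ h ∈ NN P, ∀ i j, Quotient.mk (rl act (P : Subgroup G)) i = Quotient.mk _ j →
      c h i = c h j := by
    intro h hh i j hij
    obtain ⟨x, hx, rfl⟩ := (rl_iff act (P : Subgroup G) i j).mp hij
    exact (hcx h hh x hx i).symm
  -- the permutations
  let σ : NN P →* Equiv.Perm J := sg act (P : Subgroup G)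
  have hσ : ∀ (h : NN P) i, σ h (Quotient.mk _ i) = Quotient.mk _ (act h i) := fun h i => rfl
  let j₀ : O := ⟨i₀, rfl⟩
  have hsym : ∀ (h : NN P) (o : J) (j : O), (B.symm (act h (B (o, j)))).1 = σ h o := by
    intro h o j
    rw [hB1, ← hσ, hB]
  have hbk : ∀ (h : NN P) (o : J) (j : O),
      B (σ h o, (B.symm (act h (B (o, j)))).2) = act h (B (o, j)) := by
    intro h o j
    rw [← hsym h o j, Prod.mk.eta, B.apply_symm_apply]
  have hBinj : ∀ (o : J) (j j' : O), B (o, j) = B (o, j') → j = j' := by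
    intro o j j' h
    exact (Prod.mk.injEq _ _ _ _ ▸ B.injective h).2
  have hinv1 : ∀ (h : NN P) (o : J), σ h⁻¹ (σ h o) = o := by
    intro h o
    rw [← Equiv.Perm.mul_apply, ← map_mul, inv_mul_cancel, map_one]
    rfl
  have hinv2 : ∀ (h : NN P) (o : J), σ h (σ h⁻¹ o) = o := by
    intro h o
    rw [← Equiv.Perm.mul_apply, ← map_mul, mul_inv_cancel, map_one]
    rfl
  let π : NN P → J → Equiv.Perm O := fun h o =>
    { toFun := fun j => (B.symm (act h (B (o, j)))).2
      invFun := fun j => (B.symm (act ((h⁻¹ : NN P) : G) (B (σ h o, j)))).2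
      left_inv := by
        intro j
        apply hBinj o
        have h1 := hbk h⁻¹ (σ h o) (B.symm (act h (B (o, j)))).2
        rw [hinv1] at h1
        rw [h1, hbk, ← Equiv.Perm.mul_apply, ← map_mul, ← Subgroup.coe_mul, inv_mul_cancel]
        simp
      right_inv := by
        intro j
        apply hBinj (σ h o)
        have h1 := hbk h⁻¹ (σ h o) j
        rw [hinv1] at h1
        rw [hbk, h1, ← Equiv.Perm.mul_apply, ← map_mul, ← Subgroup.coe_mul, mul_inv_cancel]
        simp }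
  have hπ : ∀ (h : NN P) (o : J) (j : O), B (σ h o, π h o j) = act h (B (o, j)) := hbk
  let τ : NN P → J → MulAut (L i₀) := fun h o => c h (B (o, j₀))
  have hτ : ∀ (h : NN P) (o : J) (j : O), c h (B (o, j)) = τ h o := by
    intro h o j
    apply hco h h.2
    rw [hB, hB]
  -- the size of the orbits
  obtain ⟨a, ha⟩ : ∃ a, Nat.card O = p ^ a := by
    letI : MulAction P (Fin k) := MulAction.compHom (Fin k) (act.comp (P : Subgroup G).subtype)
    obtain ⟨a, ha⟩ := P.isPGroup'.card_orbit i₀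
    refine ⟨a, ?_⟩
    rw [← ha]
    refine Nat.card_congr (Equiv.subtypeEquivRight fun i => ?_)
    rw [eq_comm, rl_iff act (P : Subgroup G) i₀ i, MulAction.mem_orbit_iff]
    constructor
    · rintro ⟨x, hx, h⟩
      exact ⟨⟨x, hx⟩, h⟩
    · rintro ⟨⟨x, hx⟩, h⟩
      exact ⟨x, hx, h⟩
  haveI : Fintype J := Fintype.ofFinite J
  let R : (J → O → L i₀) →* (Fin k → L i₀) :=
    { toFun := fun n i => n (B.symm i).1 (B.symm i).2
      map_one' := rfl
      map_mul' := fun _ _ => rfl }
  have hR : ∀ n o j, R n (B (o, j)) = n o j := by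
    intro n o j
    change n (B.symm (B (o, j))).1 (B.symm (B (o, j))).2 = _
    rw [B.symm_apply_apply]
  let F : (J → O → L i₀) →* G := (Ph hL i₀ t htt hc).comp R
  have hFr : F.range = ⨆ j, L j := by
    rw [← Ph_range hL i₀ t htt hc]
    ext x
    constructor
    · rintro ⟨n, rfl⟩
      exact ⟨R n, rfl⟩
    · rintro ⟨n, rfl⟩
      refine ⟨fun o j => n (B (o, j)), ?_⟩
      change Ph hL i₀ t htt hc (R fun o j => n (B (o, j))) = _
      congr 1
      funext i
      change n (B ((B.symm i).1, (B.symm i).2)) = n i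
      rw [Prod.mk.eta, B.apply_symm_apply]
  have hFa : ∀ n, act (F n) = 1 := by
    intro n
    apply hst
    rw [← hFr]
    exact ⟨n, rfl⟩
  refine ⟨L i₀, inferInstance, inferInstance, J, O, inferInstance, inferInstance, a, F, σ, τ, π, hcard,
    ?_, ?_, ?_, ?_, ?_, ?_, ?_, ?_, ?_, ?_⟩
  · rw [← Nat.card_eq_fintype_card, ha]
  · rw [hFr]
    exact hEn
  · rw [hFr]
    exact hsup
  · intro h h' o
    change c ((h * h' : NN P) : G) (B (o, j₀)) = τ h (σ h' o) * τ h' o
    rw [Subgroup.coe_mul, hcdef, c0_mul, ← hcdef, ← hπ, hτ, hτ]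
  · intro h h' o
    refine Equiv.ext fun j => ?_
    rw [Equiv.Perm.mul_apply]
    apply hBinj (σ (h * h') o)
    rw [hπ]
    have h1 : σ (h * h') o = σ h (σ h' o) := by
      rw [map_mul, Equiv.Perm.mul_apply]
    rw [h1, hπ, hπ, Subgroup.coe_mul, map_mul, Equiv.Perm.mul_apply]
  · intro h n
    change (h : G) * Ph hL i₀ t htt hc (R n) * (h : G)⁻¹ = Ph hL i₀ t htt hc (R fun o j =>
      τ h ((σ h)⁻¹ o) (n ((σ h)⁻¹ o) ((π h ((σ h)⁻¹ o))⁻¹ j)))
    rw [Ph_conj]
    congr 1
    funext i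
    obtain ⟨⟨o, j⟩, rfl⟩ := B.surjective i
    rw [hR]
    have h1 : (act h)⁻¹ (B (o, j)) = B ((σ h)⁻¹ o, (π h ((σ h)⁻¹ o))⁻¹ j) := by
      rw [Equiv.Perm.inv_eq_iff_eq, ← hπ]
      simp
    rw [h1, hR, ← hcdef, hτ]
  · intro x hx
    constructor
    · ext o
      obtain ⟨i, rfl⟩ := Quotient.exists_rep o
      rw [hσ]
      exact ((rl_iff act (P : Subgroup G) i (act x i)).mpr ⟨x, hx, rfl⟩).symm
    · intro o
      exact hcP x hx _
  · intro o j j'
    obtain ⟨x, hx, hxj⟩ := (rl_iff act (P : Subgroup G) (B (o, j)) (B (o, j'))).mp (by rw [hB, hB])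
    refine ⟨⟨x, Subgroup.le_normalizer hx⟩, hx, ?_⟩
    apply hBinj o
    have h1 : σ ⟨x, Subgroup.le_normalizer hx⟩ o = o := by
      have h2 := hσ ⟨x, Subgroup.le_normalizer hx⟩ (B (o, j))
      rw [hB] at h2
      rw [h2]
      change Quotient.mk _ (act x (B (o, j))) = o
      rw [hxj, hB]
    have h2 := hπ ⟨x, Subgroup.le_normalizer hx⟩ o j
    rw [h1] at h2
    rw [h2]
    exact hxj
  · intro n hn o j
    rw [Subgroup.mem_center_iff]
    intro y
    have h1 := Ph_acts hL i₀ t htt hc (R n) (B (o, j)) (ps i₀ t (B (o, j)) y)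
      (ps_mem hL i₀ t htt _ y)
    have h2 : Ph hL i₀ t htt hc (R n) = 1 := hn
    rw [h2, hR, one_mul, inv_one, mul_one, ← map_mul, ← map_inv, ← map_mul] at h1
    have h3 : y = n o j * y * (n o j)⁻¹ := by
      apply Subtype.ext
      have h4 : t (B (o, j)) * (y : G) * (t (B (o, j)))⁻¹ =
          t (B (o, j)) * ((n o j * y * (n o j)⁻¹ : L i₀) : G) * (t (B (o, j)))⁻¹ := h1
      exact mul_left_cancel (mul_right_cancel h4)
    exact eq_mul_inv_iff_mul_eq.mp h3
  · intro m hm
    have h0 : act (F fun o _ => m o) = 1 := hFa _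
    refine ⟨?_, fun o => ?_, fun o => ?_⟩
    · ext o
      obtain ⟨i, rfl⟩ := Quotient.exists_rep o
      rw [hσ]
      change Quotient.mk _ (act (F fun o _ => m o) i) = _
      rw [h0]
      rfl
    · change c0 hL i₀ t htt (Ph hL i₀ t htt hc (R fun o _ => m o)) (B (o, j₀)) = _
      rw [c0_Ph hL i₀ t htt hc _ h0, hR]
    · refine Equiv.ext fun j => ?_
      apply hBinj (σ ⟨F fun o _ => m o, hm⟩ o)
      rw [hπ]
      have h1 : σ ⟨F fun o _ => m o, hm⟩ o = o := by
        obtain ⟨i, rfl⟩ := Quotient.exists_rep o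
        rw [hσ]
        change Quotient.mk _ (act (F fun o _ => m o) i) = _
        rw [h0]
        rfl
      rw [h1]
      change act (F fun o _ => m o) (B (o, j)) = B (o, j)
      rw [h0]
      rfl


end Pool.Agent.ZH17.RD
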