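import Pool.Agent.ZH17.RD.GrpC

/-!
# Piece GRPAB, second part: the stabilisers act nontrivially on the components
-/

set_option autoImplicit false
set_option linter.unusedSectionVars false

open scoped Classical

noncomputable section

namespace Pool.Agent.ZH17.RD

open Subgroup
open Pool.Agent.K3h3.MK Pool.Agent.K3h83.IN

/-- a homomorphism version of `ca` -/
def cah {G : Type} [Group G] [Finite G] {I : Type} [Fintype I] {L : I → Subgroup G} {τ : G →* Equiv.Perm I} (i₀ : I)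
    (hL : ∀ g i x, x ∈ L i → g * x * g⁻¹ ∈ L (τ g i)) (K : Subgroup G) (hK : ∀ g ∈ K, τ g i₀ = i₀) :
    K →* MulAut (L i₀) where
  toFun g := ca i₀ hL g.1 (hK g.1 g.2)
  map_one' := by
    ext x
    rw [ca_coe]
    simp
  map_mul' g h := by
    ext x
    rw [MulAut.mul_apply, ca_coe, ca_coe, ca_coe, Subgroup.coe_mul]
    group

theorem ord_one {p : ℕ} [Fact p.Prime] {G : Type} [Group G] {x : G} {m n : ℕ}
    (h1 : orderOf x ∣ p ^ m) (h2 : orderOf x ∣ n) (hn : ¬ p ∣ n) : x = 1 := by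
  have h3 : Nat.Coprime (p ^ m) n :=
    Nat.Coprime.pow_left m ((Nat.Prime.coprime_iff_not_dvd Fact.out).mpr hn)
  exact orderOf_eq_one_iff.mp (Nat.eq_one_of_dvd_coprimes h3 h1 h2)

theorem caseA {p : ℕ} [Fact p.Prime] {G : Type} [Group G] [Finite G] (P : Sylow p G)
    (hred : Red2 P) {S : Type} [Group S] [Finite S] [IsSimpleGroup S] (hS : ∃ a b : S, a * b ≠ b * a)
    (hpS : ¬ p ∣ Nat.card S) (hout : OutC p S) {k : ℕ} (i₀ : Fin k) (L : Fin k → Subgroup G)
    (act : G →* Equiv.Perm (Fin k))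
    (hL : ∀ g i x, x ∈ L i → g * x * g⁻¹ ∈ L (act g i)) (ht : ∀ i, ∀ x ∈ L i, act x = 1)
    (hc : ∀ i j, i ≠ j → ∀ x ∈ L i, ∀ y ∈ L j, x * y = y * x) (htr : ∀ i j, ∃ g, act g i = j)
    (hz : ∀ i, ∀ x ∈ L i, (∀ y ∈ L i, x * y = y * x) → x ∈ Subgroup.center G)
    (hperf : ∀ i, commutator (L i) = ⊤)
    (hiso : ∀ i, Nonempty ((L i ⧸ Subgroup.center (L i)) ≃* S))
    (hD : ∃ x ∈ P, ∃ hx : act x i₀ = i₀, ca i₀ hL x hx ≠ 1) : DataA p P := by
  have hp : p.Prime := Fact.out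
  have hEn : (⨆ j, L j).Normal := by
    constructor
    intro x hx g
    have h1 : (⨆ j, L j) ≤ (⨆ j, L j).comap (MulAut.conj g).toMonoidHom := by
      refine iSup_le fun j y hy => ?_
      exact (le_iSup L (act g j)) (hL g j y hy)
    exact h1 hx
  have hst : ∀ x ∈ ⨆ j, L j, act x = 1 := by
    have h1 : (⨆ j, L j) ≤ act.ker := iSup_le fun j y hy => ht j y hy
    exact fun x hx => h1 hx
  obtain ⟨u⟩ := hiso i₀
  have hEc : ¬ (⨆ j, L j) ≤ Subgroup.center G := by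
    intro h
    obtain ⟨x, y, hxy⟩ := hS
    apply hxy
    obtain ⟨x', hx'⟩ := (OutP.pr_surj u) x
    obtain ⟨y', hy'⟩ := (OutP.pr_surj u) y
    rw [← hx', ← hy', ← map_mul, ← map_mul]
    congr 1
    apply Subtype.ext
    exact Subgroup.mem_center_iff.mp (h ((le_iSup L i₀) y'.2)) (x' : G)
  have hsup := hred.sup _ hEn hEc
  have htrN : ∀ i j, ∃ h ∈ NN P, act h i = j := by
    intro i j
    obtain ⟨g, hg⟩ := htr i j
    have h1 : g ∈ (((⨆ j, L j) ⊔ NN P : Subgroup G) : Set G) := by rw [hsup]; trivial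
    rw [Subgroup.normal_mul] at h1
    obtain ⟨b, hb, n, hn, rfl⟩ := Set.mem_mul.mp h1
    refine ⟨n, hn, ?_⟩
    rw [map_mul, hst b hb, one_mul] at hg
    exact hg
  -- the order of the components
  have hcard : ¬ p ∣ Nat.card (L i₀) := by
    intro h
    have h1 : Nat.card (L i₀) = Nat.card S * Nat.card (Subgroup.center (L i₀)) := by
      rw [← Nat.card_congr u.toEquiv]
      exact Subgroup.card_eq_card_quotient_mul_card_subgroup _
    rw [h1, (Fact.out : p.Prime).dvd_mul] at h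
    rcases h with h | h
    · exact hpS h
    · apply hred.cop
      refine h.trans ?_
      let φ : Subgroup.center (L i₀) →* Subgroup.center G :=
        { toFun := fun x => ⟨((x : L i₀) : G), hz i₀ _ (x : L i₀).2 fun y hy =>
            (congrArg Subtype.val (Subgroup.mem_center_iff.mp x.2 ⟨y, hy⟩)).symm⟩
          map_one' := rfl
          map_mul' := fun _ _ => rfl }
      refine Subgroup.card_dvd_of_injective φ fun a b hab => ?_
      have h2 : ((a : L i₀) : G) = ((b : L i₀) : G) :=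
        congrArg (fun z : Subgroup.center G => (z : G)) hab
      exact Subtype.ext (Subtype.ext h2)
  -- the stabiliser
  let K : Subgroup G :=
    { carrier := {g | act g i₀ = i₀}
      one_mem' := by
        change act 1 i₀ = i₀
        rw [map_one]
        rfl
      mul_mem' := by
        intro a b (ha : act a i₀ = i₀) (hb : act b i₀ = i₀)
        change act (a * b) i₀ = i₀
        rw [map_mul, Equiv.Perm.mul_apply, hb, ha]
      inv_mem' := by
        intro a (ha : act a i₀ = i₀)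
        change act a⁻¹ i₀ = i₀
        rw [map_inv, Equiv.Perm.inv_eq_iff_eq, ha] }
  have hK : ∀ g ∈ K, act g i₀ = i₀ := fun g hg => hg
  let φ : K →* MulAut (L i₀) := cah i₀ hL K hK
  have hφ : ∀ g (hg : g ∈ K), φ ⟨g, hg⟩ = ca i₀ hL g hg := fun g hg => rfl
  let Dp : Subgroup K := (P : Subgroup G).subgroupOf K
  have hDp : IsPGroup p Dp := P.isPGroup'.comap_of_injective K.subtype K.subtype_injective
  have hDb : IsPGroup p (Dp.map φ) := hDp.map φ
  have hfin : Finite (MulAut (L i₀)) := inferInstance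
  -- the element of order `p`
  obtain ⟨d, hd, hdp⟩ : ∃ d ∈ Dp.map φ, orderOf d = p := by
    obtain ⟨n, hn⟩ := IsPGroup.iff_card.mp hDb
    have h1 : n ≠ 0 := by
      rintro rfl
      rw [pow_zero] at hn
      obtain ⟨x, hx, hxi, hne⟩ := hD
      apply hne
      have h2 := Subgroup.card_eq_one.mp hn
      have h3 : φ ⟨x, hxi⟩ ∈ Dp.map φ := Subgroup.mem_map_of_mem φ hx
      rw [h2, Subgroup.mem_bot] at h3
      exact h3
    obtain ⟨y, hy⟩ := exists_prime_orderOf_dvd_card' (G := Dp.map φ) p (by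
      rw [hn]
      exact dvd_pow_self p h1)
    exact ⟨y, y.2, by rw [Subgroup.orderOf_coe, hy]⟩
  have hd1 : d ≠ 1 := by
    rintro rfl
    rw [orderOf_one] at hdp
    exact hp.one_lt.ne hdp
  have hdp' : d ^ p = 1 := by rw [← hdp, pow_orderOf_eq_one]
  obtain ⟨⟨x₀, hx₀K⟩, hx₀P, hx₀⟩ := hd
  have hx₀P' : x₀ ∈ P := hx₀P
  -- the normaliser centralises
  let ρ := OutP.rho u
  have hρ : Function.Injective ρ := OutP.rho_inj u (hperf i₀)
  have hB := hout ((Dp.map φ).map ρ) (hDb.map ρ)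
  have hinn : ∀ s : S, MulAut.conj s ∈ (Dp.map φ).map ρ → MulAut.conj s = 1 := by
    intro s hs
    obtain ⟨m, hm⟩ := (hDb.map ρ) ⟨_, hs⟩
    have hm' : (MulAut.conj s) ^ p ^ m = 1 := congrArg Subtype.val hm
    exact ord_one (orderOf_dvd_of_pow_eq_one hm')
      ((orderOf_map_dvd MulAut.conj s).trans (orderOf_dvd_natCard s)) hpS
  have hcen : ∀ h ∈ NN P, ∀ hh : act h i₀ = i₀, ca i₀ hL h hh * d = d * ca i₀ hL h hh := by
    intro h hN hh
    have h1 : ∀ b ∈ Dp.map φ, ca i₀ hL h hh * b * (ca i₀ hL h hh)⁻¹ ∈ Dp.map φ := by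
      rintro _ ⟨x, hx, rfl⟩
      refine ⟨⟨h, hh⟩ * x * ⟨h, hh⟩⁻¹, ?_, ?_⟩
      · change h * (x : G) * h⁻¹ ∈ (P : Subgroup G)
        exact (Subgroup.mem_normalizer_iff.mp hN x).mp hx
      · rw [map_mul, map_mul, map_inv, hφ]
    have hdm : d ∈ Dp.map φ := ⟨⟨x₀, hx₀K⟩, hx₀P, hx₀⟩
    obtain ⟨s, hs⟩ := hB.2 (ρ (ca i₀ hL h hh)) (by
      rintro _ ⟨b, hb, rfl⟩
      refine ⟨ρ (ca i₀ hL h hh * b * (ca i₀ hL h hh)⁻¹), ⟨_, h1 b hb, rfl⟩, 1, ?_⟩
      rw [map_one, one_mul, map_mul, map_mul, map_inv]) (ρ d) ⟨d, hdm, rfl⟩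
    have h2 : MulAut.conj s = ρ (ca i₀ hL h hh * d * (ca i₀ hL h hh)⁻¹ * d⁻¹) := by
      rw [map_mul, map_mul, map_mul, map_inv, map_inv, hs, mul_inv_cancel_right]
    have h3 := hinn s (by
      rw [h2]
      exact ⟨_, mul_mem (h1 d hdm) (inv_mem hdm), rfl⟩)
    rw [h3, eq_comm, map_eq_one_iff ρ hρ] at h2
    exact mul_inv_eq_iff_eq_mul.mp (mul_inv_eq_one.mp h2)
  -- the transport
  choose t ht1 htt using fun i => htrN i₀ i
  set c := c0 hL i₀ t htt with hcdef
  have hcd : ∀ h ∈ NN P, ∀ i, c h i * d = d * c h i := by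
    intro h hh i
    exact hcen ((t (act h i))⁻¹ * h * t i) (mul_mem (mul_mem (inv_mem (ht1 _)) hh) (ht1 _)) _
  have hcz : ∀ h i, ∀ z ∈ Subgroup.center (L i₀), c h i z = z := by
    intro h i z hzz
    have h1 : (z : G) ∈ Subgroup.center G := hz i₀ _ z.2 fun y hy =>
      (congrArg Subtype.val (Subgroup.mem_center_iff.mp hzz ⟨y, hy⟩)).symm
    apply Subtype.ext
    rw [hcdef, c0_coe, Subgroup.mem_center_iff.mp h1, mul_inv_cancel_right]
  let F := Ph hL i₀ t htt hc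
  have hFr : F.range = ⨆ j, L j := Ph_range hL i₀ t htt hc
  have hFa : ∀ n, act (F n) = 1 := by
    intro n
    apply hst
    rw [← hFr]
    exact ⟨n, rfl⟩
  have hFc : ∀ (h : G) (n : Fin k → L i₀), h * F n * h⁻¹ =
      F fun i => c h ((act h)⁻¹ i) (n ((act h)⁻¹ i)) := Ph_conj hL i₀ t htt hc
  have hker : ∀ n, F n = 1 → ∀ i, n i ∈ Subgroup.center (L i₀) := by
    intro n hn i
    rw [Subgroup.mem_center_iff]
    intro y
    have h1 := Ph_acts hL i₀ t htt hc n i (ps i₀ t i y) (ps_mem hL i₀ t htt _ y)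
    have h2 : Ph hL i₀ t htt hc n = 1 := hn
    rw [h2, one_mul, inv_one, mul_one, ← map_mul, ← map_inv, ← map_mul] at h1
    have h3 : y = n i * y * (n i)⁻¹ := by
      apply Subtype.ext
      have h4 : t i * (y : G) * (t i)⁻¹ =
          t i * ((n i * y * (n i)⁻¹ : L i₀) : G) * (t i)⁻¹ := h1
      exact mul_left_cancel (mul_right_cancel h4)
    exact eq_mul_inv_iff_mul_eq.mp h3
  have hfix : ∀ h ∈ NN P, ∀ m : Fin k → L i₀, (∀ i, d (m i) = m i) →
      ∀ i, d (c h ((act h)⁻¹ i) (m ((act h)⁻¹ i))) = c h ((act h)⁻¹ i) (m ((act h)⁻¹ i)) := by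
    intro h hh m hm i
    rw [← MulAut.mul_apply, ← hcd h hh, MulAut.mul_apply, hm]
  let H : Subgroup G :=
    { carrier := {x | ∃ m : Fin k → L i₀, (∀ i, d (m i) = m i) ∧ ∃ g ∈ NN P, x = F m * g}
      one_mem' := ⟨1, fun i => map_one d, 1, one_mem _, by rw [map_one, mul_one]⟩
      mul_mem' := by
        rintro _ _ ⟨m, hm, g, hg, rfl⟩ ⟨m', hm', g', hg', rfl⟩
        refine ⟨m * fun i => c g ((act g)⁻¹ i) (m' ((act g)⁻¹ i)), fun i => ?_, g * g',
          mul_mem hg hg', ?_⟩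
        · rw [Pi.mul_apply, map_mul, hm, hfix g hg m' hm']
        · rw [map_mul, ← hFc]
          group
      inv_mem' := by
        rintro _ ⟨m, hm, g, hg, rfl⟩
        refine ⟨fun i => c g⁻¹ ((act g⁻¹)⁻¹ i) (m⁻¹ ((act g⁻¹)⁻¹ i)),
          hfix g⁻¹ (inv_mem hg) m⁻¹ fun i => ?_, g⁻¹, inv_mem hg, ?_⟩
        · rw [Pi.inv_apply, map_inv, hm]
        · rw [← hFc, map_inv]
          group }
  have hNH : NN P ≤ H := fun g hg => ⟨1, fun i => map_one d, g, hg, by rw [map_one, one_mul]⟩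
  -- the elements which act as `d`
  have hxi : ∀ i, ∃ x ∈ P, act x i = i ∧ c x i = d := by
    intro i
    have hxP : t i * x₀ * (t i)⁻¹ ∈ P := (Subgroup.mem_normalizer_iff.mp (ht1 i) x₀).mp hx₀P'
    have hxa : act (t i * x₀ * (t i)⁻¹) i = i := by
      rw [map_mul, map_mul, Equiv.Perm.mul_apply, Equiv.Perm.mul_apply, map_inv]
      have h1 : (act (t i))⁻¹ i = i₀ := by rw [Equiv.Perm.inv_eq_iff_eq, htt]
      have h2 : act x₀ i₀ = i₀ := hx₀K
      rw [h1, h2, htt]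
    refine ⟨_, hxP, hxa, ?_⟩
    rw [← hx₀]
    ext y
    rw [hcdef, c0_coe, hφ, ca_coe, hxa]
    group
  have hcardF : ¬ p ∣ Nat.card F.range := by
    intro h
    have h1 : Nat.card F.range ∣ Nat.card (Fin k → L i₀) := Subgroup.card_range_dvd F
    have h2 := h.trans h1
    rw [Nat.card_fun] at h2
    exact hcard (hp.dvd_of_dvd_pow h2)
  have hFn : F.range.Normal := by
    rw [hFr]
    exact hEn
  have hcommP : ∀ n, F n ∈ NN P → ∀ x ∈ P, x * F n * x⁻¹ = F n := by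
    intro n hn x hx
    have h1 : x * F n * x⁻¹ * (F n)⁻¹ ∈ F.range :=
      mul_mem (hFn.conj_mem _ ⟨n, rfl⟩ x) (inv_mem ⟨n, rfl⟩)
    have h2 : x * F n * x⁻¹ * (F n)⁻¹ ∈ P := by
      have h3 : x * F n * x⁻¹ * (F n)⁻¹ = x * (F n * x⁻¹ * (F n)⁻¹) := by group
      rw [h3]
      exact mul_mem hx ((Subgroup.mem_normalizer_iff.mp hn x⁻¹).mp (inv_mem hx))
    obtain ⟨m, hm⟩ := P.isPGroup' ⟨_, h2⟩
    have hm' : (x * F n * x⁻¹ * (F n)⁻¹) ^ p ^ m = 1 := congrArg Subtype.val hm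
    have h4 := orderOf_dvd_natCard (⟨_, h1⟩ : F.range)
    rw [Subgroup.orderOf_mk] at h4
    exact mul_inv_eq_one.mp (ord_one (orderOf_dvd_of_pow_eq_one hm') h4 hcardF)
  have hNFix : ∀ n, F n ∈ NN P → ∀ i, d (n i) = n i := by
    intro n hn i
    obtain ⟨x, hx, hxa, hxc⟩ := hxi i
    have h1 := hcommP n hn x hx
    rw [hFc] at h1
    have h2 : F (n⁻¹ * fun i => c x ((act x)⁻¹ i) (n ((act x)⁻¹ i))) = 1 := by
      rw [map_mul, map_inv, h1, inv_mul_cancel]
    have h3 := hker _ h2 i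
    have h4 : (act x)⁻¹ i = i := by rw [Equiv.Perm.inv_eq_iff_eq, hxa]
    rw [Pi.mul_apply, Pi.inv_apply, h4, hxc] at h3
    set z := (n i)⁻¹ * d (n i) with hzdef
    have h5 : d (n i) = n i * z := by rw [hzdef, mul_inv_cancel_left]
    have h6 : d z = z := by
      have h7 := hcz x i z h3
      rwa [hxc] at h7
    have h8 : ∀ j : ℕ, (d ^ j) (n i) = n i * z ^ j := by
      intro j
      induction j with
      | zero => simp
      | succ j ih =>
        rw [pow_succ', MulAut.mul_apply, ih, map_mul, h5, map_pow, h6, pow_succ', mul_assoc]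
    have h9 := h8 p
    rw [hdp', MulAut.one_apply] at h9
    have h10 : z ^ p = 1 := (left_eq_mul.mp h9)
    have h11 : z = 1 := ord_one (m := 1) (by
      rw [pow_one]
      exact orderOf_dvd_of_pow_eq_one h10) (orderOf_dvd_natCard z) hcard
    rw [h5, h11, mul_one]
  have hFH : ∀ n, F n ∈ H ↔ ∀ i, d (n i) = n i := by
    intro n
    constructor
    · rintro ⟨m, hm, g, hg, hgm⟩ i
      have h1 : F (m⁻¹ * n) = g := by
        rw [map_mul, map_inv, hgm, inv_mul_cancel_left]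
      have h2 := hNFix (m⁻¹ * n) (by rw [h1]; exact hg) i
      rw [Pi.mul_apply, map_mul, Pi.inv_apply, map_inv, hm] at h2
      exact mul_left_cancel h2
    · intro h
      exact ⟨n, h, 1, one_mem _, (mul_one _).symm⟩
  refine ⟨L i₀, inferInstance, inferInstance, Fin k, inferInstance, F, H, act.comp H.subtype,
    fun h i => c h i, d, hcard, hdp', hFn, ?_, hNH, ?_, ?_, ?_, ?_, hFH, ?_, ?_⟩
  · rw [eq_top_iff, ← hsup, hFr]
    exact sup_le_sup_left hNH _
  · intro h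
    apply hd1
    ext x
    have h1 := (hFH fun _ => x).mp (by rw [h]; trivial) i₀
    rw [h1]
    rfl
  · intro h h' i
    change c ((h : G) * h') i = c h (act h' i) * c h' i
    rw [hcdef]
    exact c0_mul hL i₀ t htt _ _ _
  · intro h n
    exact hFc h n
  · rintro ⟨_, m, hm, g, hg, rfl⟩ i
    refine ⟨?_, fun z hzz => hcz _ i z hzz⟩
    change c (F m * g) i * d = d * c (F m * g) i
    rw [hcdef, c0_mul, c0_Ph hL i₀ t htt hc m (hFa m), ← hcdef]
    have h1 : MulAut.conj (m (act g i)) * d = d * MulAut.conj (m (act g i)) := by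
      ext y
      rw [MulAut.mul_apply, MulAut.mul_apply, MulAut.conj_apply, MulAut.conj_apply, map_mul,
        map_mul, map_inv, hm]
    rw [mul_assoc, hcd g hg, ← mul_assoc, h1, mul_assoc]
  · intro n hn
    refine ⟨hFa n, fun i => ?_⟩
    exact c0_Ph hL i₀ t htt hc n (hFa n) i
  · intro i
    obtain ⟨x, hx, hxa, hxc⟩ := hxi i
    exact ⟨⟨x, hNH (Subgroup.le_normalizer hx)⟩, hx, hxa, hxc⟩

theorem grpab : GRPAB := by
  intro p _ G _ _ P hred S _ _ _ hS hpS hout k hk M hMn hmin he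
  obtain ⟨e⟩ := he
  obtain ⟨L, act, hL, ht, hc, htr, hz, hperf, hiso⟩ := struct hS M hMn hmin e
  by_cases hD : ∀ x ∈ P, ∀ hx : act x ⟨0, hk⟩ = ⟨0, hk⟩, ca ⟨0, hk⟩ hL x hx = 1
  · exact Or.inl (caseB P hred hS hpS ⟨0, hk⟩ L act hL ht hc htr hz hiso hD)
  · push Not at hD
    exact Or.inr (caseA P hred hS hpS hout ⟨0, hk⟩ L act hL ht hc htr hz hperf hiso hD)

end Pool.Agent.ZH17.RD
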