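import Pool.Agent.ZH17.RD.Link

/-!
# Transfer of the weighted numbers of characters along a link
-/

set_option autoImplicit false
set_option linter.unusedSectionVars false
set_option linter.style.haveILetI false

open scoped BigOperators Classical

noncomputable section

namespace Pool.Agent.ZH17.RD

open Pool.Agent.Helper884 Pool.Agent.K3h3.KB Pool.Agent.K3h3.MK Pool.Agent.K3h83.IN
open Pool.Agent.H254R3.IN (IsIrr mem_Irr)
open Pool.Agent.K3h18.IN (irr_infl B_infl exists_prod)
open Pool.Agent.Q99.AS (ten ten_irr)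
open IC (Irr)
open Representation SemidirectProduct

/-- the intersection `L ⊓ H` in `H`, mapped to `L` -/
def vv {G : Type} [Group G] (L H : Subgroup G) : L.subgroupOf H →* L where
  toFun x := ⟨x.1.1, x.2⟩
  map_one' := rfl
  map_mul' _ _ := rfl

theorem vv_coe {G : Type} [Group G] (L H : Subgroup G) (x : L.subgroupOf H) :
    ((vv L H x : L) : G) = (x : H) := rfl

/-- the multiplicity of a pair of characters -/
def mm {G : Type} [Group G] [Finite G] {L H : Subgroup G} {N : Type} [Group N] [Finite N]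
    (F : N →* L) (φ : H →* MulAut N) (ω : N ⋊[φ] H → ℂ) (θ : L → ℂ)
    (θ' : L.subgroupOf H → ℂ) : ℂ :=
  pr (fun k : N ⋊[φ.comp (L.subgroupOf H).subtype] (L.subgroupOf H) => ω ⟨k.left, k.right⟩)
    (fun k => θ (F k.left * vv L H k.right) * θ' k.right⁻¹)

section

variable {p : ℕ} [hp : Fact p.Prime]

/-- characters of degree prime to `p` composed with isomorphisms -/
def xc {A B : Type} [Group A] [Group B] [Finite A] [Finite B] (e : A ≃* B) (χ : X p B) : X p A :=
  ⟨fun a => χ.1 (e a), by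
    haveI := Fintype.ofFinite A
    haveI := Fintype.ofFinite B
    refine ⟨Pool.Agent.Q90.WR.irr_comp e χ.2.1, ?_⟩
    have h : ndeg (fun a => χ.1 (e a)) = ndeg χ.1 := by
      unfold ndeg
      simp only [map_one]
    rw [h]
    exact χ.2.2⟩

theorem ndeg_xc {A B : Type} [Group A] [Group B] [Finite A] [Finite B] (e : A ≃* B) (χ : X p B) :
    ndeg (xc e χ).1 = ndeg χ.1 := by
  change ndeg (fun a => χ.1 (e a)) = ndeg χ.1
  unfold ndeg
  simp only [map_one]

variable {G : Type} [Group G] [Finite G] {L H : Subgroup G} [hL : L.Normal] {N : Type} [Group N]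
  [Finite N] (F : N →* L) (φ : H →* MulAut N)
  (hφ : ∀ (h : H) (n : N), (F (φ h n) : G) = h * F n * (h : G)⁻¹) {ω : N ⋊[φ] H → ℂ} (hω : RC ω)

include hφ hω in
theorem mm_conj (θ : L → ℂ) (θ' : L.subgroupOf H → ℂ) (h : H) :
    mm F φ ω (fun l => θ (MulAut.conjNormal (h : G) l)) (fun l => θ' (MulAut.conjNormal h l)) =
      mm F φ ω θ θ' := by
  let e : N ⋊[φ.comp (L.subgroupOf H).subtype] (L.subgroupOf H) ≃*
      N ⋊[φ.comp (L.subgroupOf H).subtype] (L.subgroupOf H) :=
    SemidirectProduct.congr (φ h) (MulAut.conjNormal h) (by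
      intro g
      ext n
      change φ h (φ (g : H) n) = φ (h * g * h⁻¹) (φ h n)
      rw [← MulAut.mul_apply, ← MulAut.mul_apply, ← map_mul, ← map_mul]
      congr 2
      group)
  have he : ∀ k, e k = ⟨φ h k.left, MulAut.conjNormal h k.right⟩ := fun _ => rfl
  haveI := Fintype.ofFinite (N ⋊[φ.comp (L.subgroupOf H).subtype] (L.subgroupOf H))
  unfold mm
  rw [pr_eq, pr_eq]
  unfold IC.B
  congr 1
  refine Fintype.sum_equiv e.toEquiv _ _ fun k => ?_
  have h1 : ∀ k : N ⋊[φ.comp (L.subgroupOf H).subtype] (L.subgroupOf H),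
      ω ⟨(e k).left, (e k).right⟩ = ω ⟨k.left, k.right⟩ := by
    intro k
    have h2 := rc_class hω (⟨k.left, k.right⟩ : N ⋊[φ] H) (inr h)
    rw [← h2]
    congr 1
    ext
    · simp only [he, mul_left, left_inr, one_mul, right_inr, mul_right, inv_left, inv_right]
      simp
    · rfl
  have h3 : ∀ k : N ⋊[φ.comp (L.subgroupOf H).subtype] (L.subgroupOf H),
      MulAut.conjNormal (h : G) (F k.left * vv L H k.right) =
        F (e k).left * vv L H (e k).right := by
    intro k
    apply Subtype.ext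
    rw [MulAut.conjNormal_apply, he]
    simp only [Subgroup.coe_mul]
    rw [hφ, vv_coe, vv_coe, MulAut.conjNormal_apply]
    simp only [Subgroup.coe_mul, Subgroup.coe_inv]
    group
  have h4 : ∀ k : N ⋊[φ.comp (L.subgroupOf H).subtype] (L.subgroupOf H),
      MulAut.conjNormal h k.right⁻¹ = (e k).right⁻¹ := by
    intro k
    rw [map_inv, he]
  change ω ⟨k.left, k.right⟩ * _ = ω ⟨(e k).left, (e k).right⟩ * _
  rw [h1]
  congr 1
  change θ (MulAut.conjNormal (h : G) (F (k⁻¹).left * vv L H (k⁻¹).right)) *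
    θ' (MulAut.conjNormal h (k⁻¹).right⁻¹) =
    θ (F ((e k)⁻¹).left * vv L H ((e k)⁻¹).right) * θ' ((e k)⁻¹).right⁻¹
  rw [h3, h4, map_inv]

theorem fix_iff (χ : X p L) (h : G) :
    fixes L.subtype χ.1 h ↔ xc (MulAut.conjNormal h) χ = χ := by
  constructor
  · intro hf
    apply Subtype.ext
    funext l
    exact hf l _ rfl
  · intro hf l l' hl
    have h1 := congrFun (congrArg Subtype.val hf) l
    have h2 : MulAut.conjNormal h l = l' := Subtype.ext hl
    rw [← h2]
    exact h1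

variable (β : X p L ≃ X p (L.subgroupOf H))
  (hmm : ∀ χ ψ, mm F φ ω χ.1 ψ.1 = if ψ = β χ then 1 else 0)

include hφ hω hmm in
theorem beta_conj (χ : X p L) (h : H) :
    β (xc (MulAut.conjNormal (h : G)) χ) = xc (MulAut.conjNormal h) (β χ) := by
  have h1 := mm_conj F φ hφ hω χ.1 (β χ).1 h
  rw [hmm χ (β χ), if_pos rfl] at h1
  have h2 := hmm (xc (MulAut.conjNormal (h : G)) χ) (xc (MulAut.conjNormal h) (β χ))
  by_contra hne
  rw [if_neg fun h3 => hne h3.symm] at h2
  exact zero_ne_one (h2.symm.trans h1)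

include hφ hω hmm in
theorem beta_fix (χ : X p L) (h : H) :
    fixes L.subtype χ.1 (h : G) ↔ fixes (L.subgroupOf H).subtype (β χ).1 h := by
  rw [fix_iff, fix_iff, ← beta_conj F φ hφ hω β hmm, β.apply_eq_iff_eq]

variable (hcl : ∀ χ : X p L, cl p (ndeg χ.1) = cl p (ndeg (β χ).1))
  (hF : Function.Surjective F) (P : Sylow p G) (hPH : NN P ≤ H) (hLH : L ⊔ H = ⊤)

include hφ hω hmm hcl hF hPH hLH in
theorem wo_beta (χ : X p L) (hinv : ∀ x ∈ P, fixes L.subtype χ.1 x) :
    wo (cl p) L.subtype χ.1 = wo (cl p) (L.subgroupOf H).subtype (β χ).1 := by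
  have hLi : Function.Injective L.subtype := L.subtype_injective
  have hLr : L.subtype.range.Normal := by
    rw [Subgroup.range_subtype]
    exact hL
  have hL'r : (L.subgroupOf H).subtype.range.Normal := by
    rw [Subgroup.range_subtype]
    infer_instance
  set T : Subgroup G := Tst L.subtype hLi hLr χ.1 with hT
  have hTm : ∀ x, x ∈ T ↔ fixes L.subtype χ.1 x := fun x => Iff.rfl
  have hLT : L.subtype.range ≤ T := range_le_Tst L.subtype hLi hLr χ.2.1
  have hPT : (P : Subgroup G) ≤ T := fun x hx => hinv x hx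
  have hTm' : ∀ x, x ∈ T.subgroupOf H ↔ fixes (L.subgroupOf H).subtype (β χ).1 x := by
    intro x
    rw [Subgroup.mem_subgroupOf, hTm, beta_fix F φ hφ hω β hmm]
  have hL'T : (L.subgroupOf H).subtype.range ≤ T.subgroupOf H := by
    rintro _ ⟨l, rfl⟩
    exact Subgroup.mem_subgroupOf.mpr (hLT ⟨vv L H l, rfl⟩)
  have e1 := a_S1 (RR p) (cl p) L G L.subtype hLi hLr χ.1 χ.2.1 T hTm (cod L.subtype T hLT)
    fun _ => rfl
  have e2 := a_S1 (RR p) (cl p) (L.subgroupOf H) H (L.subgroupOf H).subtype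
    (L.subgroupOf H).subtype_injective hL'r (β χ).1 (β χ).2.1 (T.subgroupOf H) hTm'
    (cod (L.subgroupOf H).subtype _ hL'T) fun _ => rfl
  have e3 : cl p T.index = cl p (T.subgroupOf H).index :=
    cl_congr p (a_S6 p G P T H hPT hPH)
  let u : T.subgroupOf H →* T :=
    { toFun := fun x => ⟨x.1.1, x.2⟩
      map_one' := rfl
      map_mul' := fun _ _ => rfl }
  have h1 := hmm χ (β χ)
  rw [if_pos rfl] at h1
  obtain ⟨W, hW1, hW2⟩ := link (cl p) (cod L.subtype T hLT) (cod_inj hLi T hLT)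
    (cod (L.subgroupOf H).subtype _ hL'T) (cod_inj (L.subgroupOf H).subtype_injective _ hL'T)
    (cod_normal _ hL'r _ hL'T) u (vv L H) (fun _ => rfl) (by
      intro t
      have ht : (t : G) ∈ L ⊔ H := by
        rw [hLH]
        trivial
      obtain ⟨l, hl, h, hh, hlh⟩ := Subgroup.mem_sup_of_normal_left.mp ht
      have hhT : h ∈ T := by
        have : h = l⁻¹ * t := by rw [← hlh]; group
        rw [this]
        exact T.mul_mem (T.inv_mem (hLT ⟨⟨l, hl⟩, rfl⟩)) t.2
      exact ⟨⟨l, hl⟩, ⟨⟨h, hh⟩, hhT⟩, Subtype.ext hlh.symm⟩) (by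
      rintro t' ⟨l, hl⟩
      have h2 : (l : G) = (t' : H) := congrArg Subtype.val hl
      refine ⟨⟨(t' : H), ?_⟩, Subtype.ext rfl⟩
      rw [Subgroup.mem_subgroupOf, ← h2]
      exact l.2) F hF (φ.comp (T.subgroupOf H).subtype) (by
      intro t' n
      apply Subtype.ext
      exact hφ (t' : H) n) χ.2.1
    (fun x => (fixes_sub (fun _ => rfl) x).mpr x.2) (β χ).2.1
    (fun x => (fixes_sub (fun _ => rfl) x).mpr ((hTm' (x : H)).mp x.2))
    (fun g => ω ⟨g.left, g.right⟩) (by
      let m : N ⋊[φ.comp (T.subgroupOf H).subtype] (T.subgroupOf H) →* N ⋊[φ] H :=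
        SemidirectProduct.map (MonoidHom.id N) (T.subgroupOf H).subtype (fun g => by
          ext n
          rfl)
      exact rc_comp hω m) h1
  rw [e1, e2, e3, hW1, hW2, hcl χ]

include hφ hω hmm hcl hF hPH hLH in
/-- **The transfer theorem.** -/
theorem transfer : wt (cl p) G = wt (cl p) H := by
  have hPX : (P : Subgroup G) ≤ H := Subgroup.le_normalizer.trans hPH
  have hLr : L.subtype.range.Normal := by
    rw [Subgroup.range_subtype]
    exact hL
  have hL'r : (L.subgroupOf H).subtype.range.Normal := by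
    rw [Subgroup.range_subtype]
    infer_instance
  haveI := Fintype.ofFinite L
  haveI := Fintype.ofFinite (L.subgroupOf H)
  have e1 := a_S2 p L G L.subtype L.subtype_injective hLr P
  have e2 := a_S2 p (L.subgroupOf H) H (L.subgroupOf H).subtype (L.subgroupOf H).subtype_injective
    hL'r (P.subtype hPX)
  have c1 : Nat.card (NN (P.subtype hPX)) = Nat.card (NN P) := by
    refine Nat.card_congr
      { toFun := fun x => ⟨x.1.1, (mem_NN_subtype P hPX x.1).mp x.2⟩
        invFun := fun x => ⟨⟨x.1, hPH x.2⟩, (mem_NN_subtype P hPX ⟨x.1, hPH x.2⟩).mpr x.2⟩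
        left_inv := fun _ => rfl
        right_inv := fun _ => rfl }
  have c0 : ∀ χ : X p L, Nat.card {x : H // x ∈ NN (P.subtype hPX) ∧
        fixes (L.subgroupOf H).subtype (β χ).1 x} =
      Nat.card {x : G // x ∈ NN P ∧ fixes L.subtype χ.1 x} := by
    intro χ
    refine Nat.card_congr
      { toFun := fun x => ⟨x.1.1, (mem_NN_subtype P hPX x.1).mp x.2.1,
          (beta_fix F φ hφ hω β hmm χ x.1).mpr x.2.2⟩
        invFun := fun x => ⟨⟨x.1, hPH x.2.1⟩, (mem_NN_subtype P hPX ⟨x.1, hPH x.2.1⟩).mpr x.2.1,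
          (beta_fix F φ hφ hω β hmm χ ⟨x.1, hPH x.2.1⟩).mp x.2.2⟩
        left_inv := fun _ => rfl
        right_inv := fun _ => rfl }
  have hvan : ∀ {A B : Type} [Group A] [Group B] [Finite A] [Finite B] (j : A →* B)
      (_ : Function.Injective j) (_ : j.range.Normal) (θ : A → ℂ), IsIrr θ →
      (ndeg θ : ZMod p) = 0 → wo (cl p) j θ = 0 := by
    intro A B _ _ _ _ j hj hn θ hθ h0
    haveI := Fintype.ofFinite A
    haveI := Fintype.ofFinite B
    rw [wo_eq]
    refine Finset.sum_eq_zero fun χ hχ => ?_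
    rw [Finset.mem_filter] at hχ
    haveI := hn
    have h1 := (Pool.Agent.K3h96.IN.ov_iff_mult j hj hθ (mem_Irr.mp hχ.1)).mp hχ.2
    have h2 := Pool.Agent.K3h96.IN.degree j hj hθ (Tst j hj hn θ) (fun x => Iff.rfl)
      (mem_Irr.mp hχ.1) h1
    have h3 : (ndeg χ : ZMod p) = 0 := by
      rw [h2]
      push_cast
      rw [h0]
      ring
    have h4 : cl p (ndeg χ) = cl p 0 := cl_congr p (by rw [h3, Nat.cast_zero])
    rw [h4]
    change cls p 0 = 0
    unfold cls
    rw [dif_pos Nat.cast_zero]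
  have e3 : (Nat.card (NN P) : RR p) * wt (cl p) G = (Nat.card (NN P) : RR p) * wt (cl p) H := by
    rw [e1, ← c1, e2]
    rw [← Finset.sum_filter_add_sum_filter_not ((Irr L).filter _)
      (fun θ => (ndeg θ : ZMod p) ≠ 0), ← Finset.sum_filter_add_sum_filter_not
      ((Irr (L.subgroupOf H)).filter _) (fun θ => (ndeg θ : ZMod p) ≠ 0)]
    have z1 : ∑ θ ∈ ((Irr L).filter (fun θ => ∀ x ∈ P, fixes L.subtype θ x)).filter
        (fun θ => ¬ (ndeg θ : ZMod p) ≠ 0),
        (Nat.card {x : G // x ∈ NN P ∧ fixes L.subtype θ x} : RR p) *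
          wo (cl p) L.subtype θ = 0 := by
      refine Finset.sum_eq_zero fun θ hθ => ?_
      rw [Finset.mem_filter, Finset.mem_filter, not_not] at hθ
      rw [hvan _ L.subtype_injective hLr θ (mem_Irr.mp hθ.1.1) hθ.2, mul_zero]
    have z2 : ∑ θ ∈ ((Irr (L.subgroupOf H)).filter (fun θ => ∀ x ∈ P.subtype hPX,
        fixes (L.subgroupOf H).subtype θ x)).filter (fun θ => ¬ (ndeg θ : ZMod p) ≠ 0),
        (Nat.card {x : H // x ∈ NN (P.subtype hPX) ∧ fixes (L.subgroupOf H).subtype θ x} : RR p) *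
          wo (cl p) (L.subgroupOf H).subtype θ = 0 := by
      refine Finset.sum_eq_zero fun θ hθ => ?_
      rw [Finset.mem_filter, Finset.mem_filter, not_not] at hθ
      rw [hvan _ (L.subgroupOf H).subtype_injective hL'r θ (mem_Irr.mp hθ.1.1) hθ.2, mul_zero]
    rw [z1, z2, add_zero, add_zero]
    refine Finset.sum_bij' (fun θ hθ => (β ⟨θ, mem_Irr.mp (Finset.mem_filter.mp
        (Finset.mem_filter.mp hθ).1).1, (Finset.mem_filter.mp hθ).2⟩).1)
      (fun θ hθ => (β.symm ⟨θ, mem_Irr.mp (Finset.mem_filter.mp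
        (Finset.mem_filter.mp hθ).1).1, (Finset.mem_filter.mp hθ).2⟩).1) ?_ ?_ ?_ ?_ ?_
    · intro θ hθ
      rw [Finset.mem_filter, Finset.mem_filter] at hθ ⊢
      refine ⟨⟨mem_Irr.mpr (β _).2.1, fun x hx => ?_⟩, (β _).2.2⟩
      exact (beta_fix F φ hφ hω β hmm _ x).mp (hθ.1.2 (x : G) hx)
    · intro θ hθ
      rw [Finset.mem_filter, Finset.mem_filter] at hθ ⊢
      refine ⟨⟨mem_Irr.mpr (β.symm _).2.1, fun x hx => ?_⟩, (β.symm _).2.2⟩
      refine (beta_fix F φ hφ hω β hmm _ (⟨x, hPX hx⟩ : H)).mpr ?_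
      rw [β.apply_symm_apply]
      exact hθ.1.2 (⟨x, hPX hx⟩ : H) hx
    · intro θ hθ
      simp
    · intro θ hθ
      simp
    · intro θ hθ
      have h1 := (Finset.mem_filter.mp hθ)
      have h2 := Finset.mem_filter.mp h1.1
      rw [c0 ⟨θ, mem_Irr.mp h2.1, h1.2⟩,
        ← wo_beta F φ hφ hω β hmm hcl hF P hPH hLH ⟨θ, mem_Irr.mp h2.1, h1.2⟩ h2.2]
  exact natCast_mul_inj p Nat.card_pos.ne' e3

end

end Pool.Agent.ZH17.RD
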