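import Pool.Agent.ZH17.RD.LT

/-!
# Transfer along a link, for stable sets of characters
-/

set_option autoImplicit false
set_option linter.unusedSectionVars false
set_option linter.style.haveILetI false

open scoped BigOperators Classical

noncomputable section

namespace Pool.Agent.ZH17.RD

open Pool.Agent.Helper884 Pool.Agent.K3h3.KB Pool.Agent.K3h3.MK Pool.Agent.K3h83.IN
open Pool.Agent.H254R3.IN (IsIrr mem_Irr)
open Pool.Agent.K3h18.IN (irr_infl B_infl exists_prod)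
open Pool.Agent.Q99.AS (ten ten_irr)
open IC (Irr)
open Representation SemidirectProduct

section

variable {p : ℕ} [hp : Fact p.Prime]

variable {G : Type} [Group G] [Finite G] {L H : Subgroup G} [hL : L.Normal] {N : Type} [Group N]
  [Finite N] (F : N →* L) (φ : H →* MulAut N)
  (hφ : ∀ (h : H) (n : N), (F (φ h n) : G) = h * F n * (h : G)⁻¹) {ω : N ⋊[φ] H → ℂ} (hω : RC ω)

variable (Xs : Set (X p L)) (Ys : Set (X p (L.subgroupOf H))) (β : Xs ≃ Ys)
  (hmm : ∀ (χ : Xs) (ψ : Ys), mm F φ ω χ.1.1 ψ.1.1 = if ψ = β χ then 1 else 0)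
  (hXs : ∀ χ ∈ Xs, ∀ h : H, xc (MulAut.conjNormal (h : G)) χ ∈ Xs)
  (hYs : ∀ ψ ∈ Ys, ∀ h : H, xc (MulAut.conjNormal h) ψ ∈ Ys)

include hφ hω hmm hXs hYs in
theorem beta_conj2 (χ : Xs) (h : H) :
    β ⟨xc (MulAut.conjNormal (h : G)) χ.1, hXs _ χ.2 h⟩ =
      ⟨xc (MulAut.conjNormal h) (β χ).1, hYs _ (β χ).2 h⟩ := by
  have h1 := mm_conj F φ hφ hω χ.1.1 (β χ).1.1 h
  rw [hmm χ (β χ), if_pos rfl] at h1
  have h2 := hmm ⟨xc (MulAut.conjNormal (h : G)) χ.1, hXs _ χ.2 h⟩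
    ⟨xc (MulAut.conjNormal h) (β χ).1, hYs _ (β χ).2 h⟩
  by_contra hne
  rw [if_neg fun h3 => hne h3.symm] at h2
  exact zero_ne_one (h2.symm.trans h1)

include hφ hω hmm hXs hYs in
theorem beta_fix2 (χ : Xs) (h : H) :
    fixes L.subtype χ.1.1 (h : G) ↔ fixes (L.subgroupOf H).subtype (β χ).1.1 h := by
  rw [fix_iff, fix_iff]
  have h1 := beta_conj2 F φ hφ hω Xs Ys β hmm hXs hYs χ h
  constructor
  · intro h2
    have h3 : (⟨xc (MulAut.conjNormal (h : G)) χ.1, hXs _ χ.2 h⟩ : Xs) = χ := Subtype.ext h2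
    rw [h3] at h1
    exact (congrArg Subtype.val h1).symm
  · intro h2
    have h3 : (⟨xc (MulAut.conjNormal h) (β χ).1, hYs _ (β χ).2 h⟩ : Ys) = β χ := Subtype.ext h2
    rw [h3] at h1
    exact congrArg Subtype.val (β.injective h1)

variable (hcl : ∀ χ : Xs, cl p (ndeg χ.1.1) = cl p (ndeg (β χ).1.1))
  (hF : Function.Surjective F) (P : Sylow p G) (hPH : NN P ≤ H) (hLH : L ⊔ H = ⊤)

include hφ hω hmm hXs hYs hcl hF hPH hLH in
theorem wo_beta2 (χ : Xs) (hinv : ∀ x ∈ P, fixes L.subtype χ.1.1 x) :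
    wo (cl p) L.subtype χ.1.1 = wo (cl p) (L.subgroupOf H).subtype (β χ).1.1 := by
  have hLi : Function.Injective L.subtype := L.subtype_injective
  have hLr : L.subtype.range.Normal := by
    rw [Subgroup.range_subtype]
    exact hL
  have hL'r : (L.subgroupOf H).subtype.range.Normal := by
    rw [Subgroup.range_subtype]
    infer_instance
  set T : Subgroup G := Tst L.subtype hLi hLr χ.1.1 with hT
  have hTm : ∀ x, x ∈ T ↔ fixes L.subtype χ.1.1 x := fun x => Iff.rfl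
  have hLT : L.subtype.range ≤ T := range_le_Tst L.subtype hLi hLr χ.1.2.1
  have hPT : (P : Subgroup G) ≤ T := fun x hx => hinv x hx
  have hTm' : ∀ x, x ∈ T.subgroupOf H ↔ fixes (L.subgroupOf H).subtype (β χ).1.1 x := by
    intro x
    rw [Subgroup.mem_subgroupOf, hTm, beta_fix2 F φ hφ hω Xs Ys β hmm hXs hYs]
  have hL'T : (L.subgroupOf H).subtype.range ≤ T.subgroupOf H := by
    rintro _ ⟨l, rfl⟩
    exact Subgroup.mem_subgroupOf.mpr (hLT ⟨vv L H l, rfl⟩)
  have e1 := a_S1 (RR p) (cl p) L G L.subtype hLi hLr χ.1.1 χ.1.2.1 T hTm (cod L.subtype T hLT)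
    fun _ => rfl
  have e2 := a_S1 (RR p) (cl p) (L.subgroupOf H) H (L.subgroupOf H).subtype
    (L.subgroupOf H).subtype_injective hL'r (β χ).1.1 (β χ).1.2.1 (T.subgroupOf H) hTm'
    (cod (L.subgroupOf H).subtype _ hL'T) fun _ => rfl
  have e3 : cl p T.index = cl p (T.subgroupOf H).index :=
    cl_congr p (a_S6 p G P T H hPT hPH)
  let u : T.subgroupOf H →* T :=
    { toFun := fun x => ⟨x.1.1, x.2⟩
      map_one' := rfl
      map_mul' := fun _ _ => rfl }
  have h1 := hmm χ (β χ)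
  rw [if_pos rfl] at h1
  obtain ⟨W, hW1, hW2⟩ := link (cl p) (cod L.subtype T hLT) (cod_inj hLi T hLT)
    (cod (L.subgroupOf H).subtype _ hL'T) (cod_inj (L.subgroupOf H).subtype_injective _ hL'T)
    (cod_normal _ hL'r _ hL'T) u (vv L H) (fun _ => rfl) (by
      intro t
      have ht : (t : G) ∈ L ⊔ H := by
        rw [hLH]
        trivial
      obtain ⟨l, hl, h, hh, hlh⟩ := Subgroup.mem_sup_of_normal_left.mp ht
      have hhT : h ∈ T := by
        have : h = l⁻¹ * t := by rw [← hlh]; group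
        rw [this]
        exact T.mul_mem (T.inv_mem (hLT ⟨⟨l, hl⟩, rfl⟩)) t.2
      exact ⟨⟨l, hl⟩, ⟨⟨h, hh⟩, hhT⟩, Subtype.ext hlh.symm⟩) (by
      rintro t' ⟨l, hl⟩
      have h2 : (l : G) = (t' : H) := congrArg Subtype.val hl
      refine ⟨⟨(t' : H), ?_⟩, Subtype.ext rfl⟩
      rw [Subgroup.mem_subgroupOf, ← h2]
      exact l.2) F hF (φ.comp (T.subgroupOf H).subtype) (by
      intro t' n
      apply Subtype.ext
      exact hφ (t' : H) n) χ.1.2.1
    (fun x => (fixes_sub (fun _ => rfl) x).mpr x.2) (β χ).1.2.1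
    (fun x => (fixes_sub (fun _ => rfl) x).mpr ((hTm' (x : H)).mp x.2))
    (fun g => ω ⟨g.left, g.right⟩) (by
      let m : N ⋊[φ.comp (T.subgroupOf H).subtype] (T.subgroupOf H) →* N ⋊[φ] H :=
        SemidirectProduct.map (MonoidHom.id N) (T.subgroupOf H).subtype (fun g => by
          ext n
          rfl)
      exact rc_comp hω m) h1
  rw [e1, e2, e3, hW1, hW2, hcl χ]

variable (hinvX : ∀ χ : X p L, (∀ x ∈ P, fixes L.subtype χ.1 x) → χ ∈ Xs)
  (hinvY : ∀ ψ : X p (L.subgroupOf H), (∀ x : H, (x : G) ∈ P →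
    fixes (L.subgroupOf H).subtype ψ.1 x) → ψ ∈ Ys)

include hφ hω hmm hXs hYs hcl hF hPH hLH hinvX hinvY in
/-- **The transfer theorem.** -/
theorem transfer2 : wt (cl p) G = wt (cl p) H := by
  have hPX : (P : Subgroup G) ≤ H := Subgroup.le_normalizer.trans hPH
  have hLr : L.subtype.range.Normal := by
    rw [Subgroup.range_subtype]
    exact hL
  have hL'r : (L.subgroupOf H).subtype.range.Normal := by
    rw [Subgroup.range_subtype]
    infer_instance
  haveI := Fintype.ofFinite L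
  haveI := Fintype.ofFinite (L.subgroupOf H)
  have e1 := a_S2 p L G L.subtype L.subtype_injective hLr P
  have e2 := a_S2 p (L.subgroupOf H) H (L.subgroupOf H).subtype (L.subgroupOf H).subtype_injective
    hL'r (P.subtype hPX)
  have c1 : Nat.card (NN (P.subtype hPX)) = Nat.card (NN P) := by
    refine Nat.card_congr
      { toFun := fun x => ⟨x.1.1, (mem_NN_subtype P hPX x.1).mp x.2⟩
        invFun := fun x => ⟨⟨x.1, hPH x.2⟩, (mem_NN_subtype P hPX ⟨x.1, hPH x.2⟩).mpr x.2⟩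
        left_inv := fun _ => rfl
        right_inv := fun _ => rfl }
  have bf := beta_fix2 F φ hφ hω Xs Ys β hmm hXs hYs
  have c0 : ∀ χ : Xs, Nat.card {x : H // x ∈ NN (P.subtype hPX) ∧
        fixes (L.subgroupOf H).subtype (β χ).1.1 x} =
      Nat.card {x : G // x ∈ NN P ∧ fixes L.subtype χ.1.1 x} := by
    intro χ
    refine Nat.card_congr
      { toFun := fun x => ⟨x.1.1, (mem_NN_subtype P hPX x.1).mp x.2.1,
          (bf χ x.1).mpr x.2.2⟩
        invFun := fun x => ⟨⟨x.1, hPH x.2.1⟩, (mem_NN_subtype P hPX ⟨x.1, hPH x.2.1⟩).mpr x.2.1,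
          (bf χ ⟨x.1, hPH x.2.1⟩).mp x.2.2⟩
        left_inv := fun _ => rfl
        right_inv := fun _ => rfl }
  have hvan : ∀ {A B : Type} [Group A] [Group B] [Finite A] [Finite B] (j : A →* B)
      (_ : Function.Injective j) (_ : j.range.Normal) (θ : A → ℂ), IsIrr θ →
      (ndeg θ : ZMod p) = 0 → wo (cl p) j θ = 0 := by
    intro A B _ _ _ _ j hj hn θ hθ h0
    haveI := Fintype.ofFinite A
    haveI := Fintype.ofFinite B
    rw [wo_eq]
    refine Finset.sum_eq_zero fun χ hχ => ?_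
    rw [Finset.mem_filter] at hχ
    haveI := hn
    have h1 := (Pool.Agent.K3h96.IN.ov_iff_mult j hj hθ (mem_Irr.mp hχ.1)).mp hχ.2
    have h2 := Pool.Agent.K3h96.IN.degree j hj hθ (Tst j hj hn θ) (fun x => Iff.rfl)
      (mem_Irr.mp hχ.1) h1
    have h3 : (ndeg χ : ZMod p) = 0 := by
      rw [h2]
      push_cast
      rw [h0]
      ring
    have h4 : cl p (ndeg χ) = cl p 0 := cl_congr p (by rw [h3, Nat.cast_zero])
    rw [h4]
    change cls p 0 = 0
    unfold cls
    rw [dif_pos Nat.cast_zero]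
  have e3 : (Nat.card (NN P) : RR p) * wt (cl p) G = (Nat.card (NN P) : RR p) * wt (cl p) H := by
    rw [e1, ← c1, e2]
    rw [← Finset.sum_filter_add_sum_filter_not ((Irr L).filter _)
      (fun θ => (ndeg θ : ZMod p) ≠ 0), ← Finset.sum_filter_add_sum_filter_not
      ((Irr (L.subgroupOf H)).filter _) (fun θ => (ndeg θ : ZMod p) ≠ 0)]
    have z1 : ∑ θ ∈ ((Irr L).filter (fun θ => ∀ x ∈ P, fixes L.subtype θ x)).filter
        (fun θ => ¬ (ndeg θ : ZMod p) ≠ 0),
        (Nat.card {x : G // x ∈ NN P ∧ fixes L.subtype θ x} : RR p) *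
          wo (cl p) L.subtype θ = 0 := by
      refine Finset.sum_eq_zero fun θ hθ => ?_
      rw [Finset.mem_filter, Finset.mem_filter, not_not] at hθ
      rw [hvan _ L.subtype_injective hLr θ (mem_Irr.mp hθ.1.1) hθ.2, mul_zero]
    have z2 : ∑ θ ∈ ((Irr (L.subgroupOf H)).filter (fun θ => ∀ x ∈ P.subtype hPX,
        fixes (L.subgroupOf H).subtype θ x)).filter (fun θ => ¬ (ndeg θ : ZMod p) ≠ 0),
        (Nat.card {x : H // x ∈ NN (P.subtype hPX) ∧ fixes (L.subgroupOf H).subtype θ x} : RR p) *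
          wo (cl p) (L.subgroupOf H).subtype θ = 0 := by
      refine Finset.sum_eq_zero fun θ hθ => ?_
      rw [Finset.mem_filter, Finset.mem_filter, not_not] at hθ
      rw [hvan _ (L.subgroupOf H).subtype_injective hL'r θ (mem_Irr.mp hθ.1.1) hθ.2, mul_zero]
    rw [z1, z2, add_zero, add_zero]
    let mX : ∀ θ ∈ ((Irr L).filter (fun θ => ∀ x ∈ P, fixes L.subtype θ x)).filter
        (fun θ => (ndeg θ : ZMod p) ≠ 0), Xs := fun θ hθ =>
      ⟨⟨θ, mem_Irr.mp (Finset.mem_filter.mp (Finset.mem_filter.mp hθ).1).1,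
        (Finset.mem_filter.mp hθ).2⟩, hinvX _ (Finset.mem_filter.mp (Finset.mem_filter.mp hθ).1).2⟩
    let mY : ∀ θ ∈ ((Irr (L.subgroupOf H)).filter (fun θ => ∀ x ∈ P.subtype hPX,
        fixes (L.subgroupOf H).subtype θ x)).filter (fun θ => (ndeg θ : ZMod p) ≠ 0), Ys :=
      fun θ hθ => ⟨⟨θ, mem_Irr.mp (Finset.mem_filter.mp (Finset.mem_filter.mp hθ).1).1,
        (Finset.mem_filter.mp hθ).2⟩, hinvY _ fun x hx =>
          (Finset.mem_filter.mp (Finset.mem_filter.mp hθ).1).2 x hx⟩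
    refine Finset.sum_bij' (fun θ hθ => (β (mX θ hθ)).1.1) (fun θ hθ => (β.symm (mY θ hθ)).1.1)
      ?_ ?_ ?_ ?_ ?_
    · intro θ hθ
      have hθ' := hθ
      rw [Finset.mem_filter, Finset.mem_filter] at hθ' ⊢
      refine ⟨⟨mem_Irr.mpr (β _).1.2.1, fun x hx => ?_⟩, (β _).1.2.2⟩
      exact (bf (mX θ hθ) x).mp (hθ'.1.2 (x : G) hx)
    · intro θ hθ
      have hθ' := hθ
      rw [Finset.mem_filter, Finset.mem_filter] at hθ' ⊢
      refine ⟨⟨mem_Irr.mpr (β.symm _).1.2.1, fun x hx => ?_⟩, (β.symm _).1.2.2⟩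
      refine (bf (β.symm (mY θ hθ)) (⟨x, hPX hx⟩ : H)).mpr ?_
      rw [β.apply_symm_apply]
      exact hθ'.1.2 (⟨x, hPX hx⟩ : H) hx
    · intro θ hθ
      have e : ∀ h, mY (β (mX θ hθ)).1.1 h = β (mX θ hθ) := fun h => rfl
      simp only [e, β.symm_apply_apply]
      rfl
    · intro θ hθ
      have e : ∀ h, mX (β.symm (mY θ hθ)).1.1 h = β.symm (mY θ hθ) := fun h => rfl
      simp only [e, β.apply_symm_apply]
      rfl
    · intro θ hθ
      have h1 := (Finset.mem_filter.mp hθ)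
      have h2 := Finset.mem_filter.mp h1.1
      have h3 := c0 (mX θ hθ)
      have h4 := wo_beta2 F φ hφ hω Xs Ys β hmm hXs hYs hcl hF P hPH hLH (mX θ hθ) h2.2
      rw [h3, ← h4]
  exact natCast_mul_inj p Nat.card_pos.ne' e3

end

end Pool.Agent.ZH17.RD
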