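import Pool.Agent.ZH17.RD.LbB

/-!
# Piece LB of project RD
-/

set_option autoImplicit false
set_option linter.unusedSectionVars false
set_option linter.style.haveILetI false

open scoped BigOperators Classical

noncomputable section

namespace Pool.Agent.ZH17.RD

open Pool.Agent.Helper884 Pool.Agent.K3h3.KB Pool.Agent.K3h3.MK Pool.Agent.K3h83.IN
open Pool.Agent.H254R3.IN (IsIrr mem_Irr schur irr_nontrivial scalar_inj)
open Pool.Agent.K3h18.IN (irr_infl B_infl)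
open Pool.Agent.Q99.AS (ten ten_irr B_ten)
open Pool.Agent.Q90.WR (irr_gal)
open Pool.Agent.K3h85.IN (exists_pow_aut)
open IC (Irr)
open Representation SemidirectProduct

namespace LbP

section

variable {p : ℕ} [hp : Fact p.Prime] {R : Type} [Group R] [Finite R]

theorem irr_pow {θ : R → ℂ} (h : IsIrr θ) {k : ℕ} (hk : Nat.Coprime k (Nat.card R)) :
    IsIrr fun m => θ (m ^ k) := by
  obtain ⟨τ, hτ⟩ := exists_pow_aut (Nat.card R) k Nat.card_pos hk
  obtain ⟨V, i1, i2, i3, ρ, hρ, rfl⟩ := h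
  have h1 : IsIrr fun m => τ (ρ.character m) := irr_gal τ ⟨V, i1, i2, i3, ρ, hρ, rfl⟩
  have h2 : (fun m => τ (ρ.character m)) = fun m => ρ.character (m ^ k) := by
    funext m
    exact gal_pow ρ dvd_rfl hτ m
  rw [← h2]
  exact h1

variable {O : Type} [Fintype O]
  (Φ : MulAut R × Equiv.Perm O →* MulAut (O → R))
  (hΦ : ∀ (x : MulAut R × Equiv.Perm O) (n : O → R) (j : O), Φ x n j = x.1 (n (x.2⁻¹ j)))

include hΦ in
theorem ext_X {a : ℕ} (hO : Fintype.card O = p ^ a) (hR : ¬ p ∣ Nat.card R) (θ : X p R) :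
    ∃ ξ : St Φ θ.1 → ℂ, RC ξ ∧ ∀ (n : O → R) (m : R)
      (h : (⟨fun j => n j * m⁻¹, (MulAut.conj m, 1)⟩ :
        (O → R) ⋊[Φ] (MulAut R × Equiv.Perm O)) ∈ St Φ θ.1),
      ξ ⟨_, h⟩ = (∏ j, θ.1 (n j)) * θ.1 (m⁻¹ ^ p ^ a) := by
  obtain ⟨θ, hθ, hθp⟩ := θ
  obtain ⟨V, i1, i2, i3, ρ, hρ, rfl⟩ := hθ
  have h1 : ndeg ρ.character = Module.finrank ℂ V := by
    unfold ndeg
    rw [char_one]
    simp
  rw [h1] at hθp
  rw [← hO]
  refine ext_one ρ Φ hΦ hρ ?_
  rw [hO]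
  apply Nat.Coprime.pow_left
  rw [Nat.Prime.coprime_iff_not_dvd hp.out]
  intro h2
  rcases (Nat.Prime.dvd_mul hp.out).1 h2 with h3 | h3
  · exact hθp ((ZMod.natCast_eq_zero_iff _ _).2 h3)
  · exact hR h3

/-- the normal subgroup -/
def qq : (O → R) × R →* (O → R) ⋊[Φ] (MulAut R × Equiv.Perm O) where
  toFun x := ⟨fun j => x.1 j * x.2⁻¹, (MulAut.conj x.2, 1)⟩
  map_one' := by
    ext1
    · funext j
      show (1 : R) * (1 : R)⁻¹ = 1
      simp
    · show (MulAut.conj (1 : R), (1 : Equiv.Perm O)) = 1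
      rw [map_one]
      rfl
  map_mul' x y := by
    ext1
    · funext j
      show x.1 j * y.1 j * (x.2 * y.2)⁻¹ = (x.1 j * x.2⁻¹) *
        (Φ (MulAut.conj x.2, 1) (fun j => y.1 j * y.2⁻¹) j)
      rw [hΦ]
      show x.1 j * y.1 j * (x.2 * y.2)⁻¹ = (x.1 j * x.2⁻¹) * (x.2 * (y.1 j * y.2⁻¹) * x.2⁻¹)
      group
    · show (MulAut.conj (x.2 * y.2), (1 : Equiv.Perm O)) =
        (MulAut.conj x.2 * MulAut.conj y.2, 1 * 1)
      rw [map_mul, one_mul]

theorem qq_apply (n : O → R) (m : R) :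
    qq Φ hΦ (n, m) = ⟨fun j => n j * m⁻¹, (MulAut.conj m, 1)⟩ := rfl

theorem qq_conj (x : (O → R) ⋊[Φ] (MulAut R × Equiv.Perm O)) (n : O → R) (m : R) :
    x * qq Φ hΦ (n, m) * x⁻¹ = qq Φ hΦ (fun j => x.left j * x.right.1 (n (x.right.2⁻¹ j)) *
      (x.left j)⁻¹, x.right.1 m) := by
  rw [mul_inv_eq_iff_eq_mul]
  ext1
  · funext j
    show x.left j * Φ x.right (fun j => n j * m⁻¹) j =
      (x.left j * x.right.1 (n (x.right.2⁻¹ j)) * (x.left j)⁻¹ * (x.right.1 m)⁻¹) *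
        Φ (MulAut.conj (x.right.1 m), 1) x.left j
    rw [hΦ, hΦ]
    show x.left j * x.right.1 (n (x.right.2⁻¹ j) * m⁻¹) =
      (x.left j * x.right.1 (n (x.right.2⁻¹ j)) * (x.left j)⁻¹ * (x.right.1 m)⁻¹) *
        (x.right.1 m * x.left j * (x.right.1 m)⁻¹)
    rw [map_mul, map_inv]
    group
  · refine Prod.ext ?_ ?_
    · show x.right.1 * MulAut.conj m = MulAut.conj (x.right.1 m) * x.right.1
      ext r
      simp only [MulAut.mul_apply, MulAut.conj_apply, map_mul, map_inv]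
    · show x.right.2 * 1 = 1 * x.right.2
      rw [one_mul, mul_one]

/-- composition with an automorphism -/
def xa (β : MulAut R) (θ : X p R) : X p R :=
  ⟨fun r => θ.1 (β r), by
    refine ⟨Pool.Agent.Q90.WR.irr_comp (β : R ≃* R) θ.2.1, ?_⟩
    have h : ndeg (fun r => θ.1 (β r)) = ndeg θ.1 := by
      unfold ndeg
      simp only [map_one]
    rw [h]
    exact θ.2.2⟩

theorem qq_mem_St (θ : X p R) (x : (O → R) × R) : qq Φ hΦ x ∈ St Φ θ.1 := by
  intro r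
  show θ.1 (x.2 * r * x.2⁻¹) = θ.1 r
  exact rc_class (rc_irr θ.2.1) r x.2

include hΦ in
theorem main {a : ℕ} (hO : Fintype.card O = p ^ a) (hR : ¬ p ∣ Nat.card R) :
    ∃ ω : (O → R) ⋊[Φ] (MulAut R × Equiv.Perm O) → ℂ, RC ω ∧
      ∀ (n : O → R) (m : R), ω ⟨fun j => n j * m⁻¹, (MulAut.conj m, 1)⟩ =
        ∑ χ : X p R, (∏ j, χ.1 (n j)) * χ.1 (m⁻¹ ^ p ^ a) := by
  haveI : Nonempty O := by
    rw [← Fintype.card_pos_iff, hO]
    exact pow_pos hp.out.pos a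
  haveI := Fintype.ofFinite R
  have hcop : Nat.Coprime (p ^ a) (Nat.card R) := by
    apply Nat.Coprime.pow_left
    rwa [Nat.Prime.coprime_iff_not_dvd hp.out]
  choose ξ hξ hξq using ext_X (p := p) Φ hΦ hO hR
  let K : Subgroup ((O → R) ⋊[Φ] (MulAut R × Equiv.Perm O)) := (qq Φ hΦ).range
  have hKS : ∀ θ : X p R, K ≤ St Φ θ.1 := by
    rintro θ _ ⟨x, rfl⟩
    exact qq_mem_St Φ hΦ θ x
  let jT : ∀ θ : X p R, K →* St Φ θ.1 := fun θ => Subgroup.inclusion (hKS θ)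
  let κ : X p R → K → ℂ := fun θ k => ξ θ (jT θ k)
  let q' : (O → R) × R →* K := (qq Φ hΦ).rangeRestrict
  have hq's : Function.Surjective q' := (qq Φ hΦ).rangeRestrict_surjective
  have hκq : ∀ (θ : X p R) (x : (O → R) × R),
      κ θ (q' x) = ten (fun n : O → R => ∏ j, θ.1 (n j)) (fun m => θ.1 (m⁻¹ ^ p ^ a)) x := by
    rintro θ ⟨n, m⟩
    exact hξq θ n m _
  have hirr1 : ∀ θ : X p R, IsIrr fun m => θ.1 (m⁻¹ ^ p ^ a) := fun θ =>
    irr_inv (irr_pow θ.2.1 hcop)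
  have hirr2 : ∀ θ : X p R, IsIrr fun n : O → R => ∏ j, θ.1 (n j) := fun θ =>
    (bt_irrX fun _ : O => θ).1
  have hκi : ∀ θ : X p R, IsIrr (κ θ) := by
    intro θ
    haveI : Fintype K := Fintype.ofFinite K
    refine rc_norm (rc_comp (hξ θ) (jT θ)) ?_
    rw [← B_infl q' hq's]
    simp only [hκq]
    have h1 := ten_irr (hirr2 θ) (hirr1 θ)
    have h2 := IC.B_irr h1 h1
    rw [if_pos rfl] at h2
    exact h2
  have hκinj : Function.Injective κ := by
    intro θ θ' h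
    have h1 : ten (fun n : O → R => ∏ j, θ.1 (n j)) (fun m => θ.1 (m⁻¹ ^ p ^ a)) =
        ten (fun n : O → R => ∏ j, θ'.1 (n j)) (fun m => θ'.1 (m⁻¹ ^ p ^ a)) := by
      funext x
      rw [← hκq, ← hκq, h]
    have h2 := B_ten (fun n : O → R => ∏ j, θ.1 (n j)) (fun n : O → R => ∏ j, θ'.1 (n j))
      (fun m => θ.1 (m⁻¹ ^ p ^ a)) (fun m => θ'.1 (m⁻¹ ^ p ^ a))
    have h3 := ten_irr (hirr2 θ') (hirr1 θ')
    rw [h1, IC.B_irr h3 h3, if_pos rfl] at h2
    have h4 : (fun n : O → R => ∏ j, θ.1 (n j)) = fun n : O → R => ∏ j, θ'.1 (n j) := by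
      by_contra hne
      rw [IC.B_irr (hirr2 θ) (hirr2 θ'), if_neg hne, zero_mul] at h2
      exact one_ne_zero h2
    have h5 := s_unique (s := fun _ : O => θ) (s' := fun _ : O => θ') h4
    exact congrFun h5 (Classical.arbitrary O)
  have hst : ∀ (x : (O → R) ⋊[Φ] (MulAut R × Equiv.Perm O)) (θ : X p R) (k k' : K),
      x * K.subtype k * x⁻¹ = K.subtype k' → κ (xa (x.right.1)⁻¹ θ) k' = κ θ k := by
    intro x θ k k' h
    obtain ⟨⟨n, m⟩, rfl⟩ := hq's k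
    have h1 : k' = q' (fun j => x.left j * x.right.1 (n (x.right.2⁻¹ j)) *
      (x.left j)⁻¹, x.right.1 m) := by
      apply Subtype.ext
      exact h.symm.trans (qq_conj Φ hΦ x n m)
    rw [h1, hκq, hκq]
    show (∏ j, θ.1 ((x.right.1)⁻¹ (x.left j * x.right.1 (n (x.right.2⁻¹ j)) * (x.left j)⁻¹))) *
      θ.1 ((x.right.1)⁻¹ ((x.right.1 m)⁻¹ ^ p ^ a)) = (∏ j, θ.1 (n j)) * θ.1 (m⁻¹ ^ p ^ a)
    congr 1
    · have h2 : ∀ j, θ.1 ((x.right.1)⁻¹ (x.left j * x.right.1 (n (x.right.2⁻¹ j)) *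
          (x.left j)⁻¹)) = θ.1 (n (x.right.2⁻¹ j)) := by
        intro j
        rw [map_mul, map_mul, MulAut.inv_apply_self, map_inv]
        exact rc_class (rc_irr θ.2.1) _ _
      simp only [h2]
      exact Fintype.prod_equiv (x.right.2⁻¹ : Equiv.Perm O) _ _ fun j => rfl
    · rw [map_pow, map_inv, MulAut.inv_apply_self]
  have hmemSt : ∀ (θ : X p R) (x : (O → R) ⋊[Φ] (MulAut R × Equiv.Perm O)),
      x ∈ St Φ θ.1 ↔ fixes K.subtype (κ θ) x := by
    intro θ x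
    have hx : x ∈ St Φ θ.1 ↔ xa (x.right.1)⁻¹ θ = θ := by
      rw [mem_St]
      constructor
      · intro h
        refine Subtype.ext (funext fun r => ?_)
        show θ.1 ((x.right.1)⁻¹ r) = θ.1 r
        rw [← h, MulAut.apply_inv_self]
      · intro h r
        have h1 := congrFun (congrArg Subtype.val h) (x.right.1 r)
        change θ.1 ((x.right.1)⁻¹ (x.right.1 r)) = θ.1 (x.right.1 r) at h1
        rw [MulAut.inv_apply_self] at h1
        exact h1.symm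
    rw [hx]
    constructor
    · intro h k k' hk
      have h1 := hst x θ k k' hk
      rwa [h] at h1
    · intro h
      apply hκinj
      funext k'
      obtain ⟨⟨n, m⟩, hnm⟩ := hq's k'
      have h1 := qq_conj Φ hΦ x⁻¹ n m
      rw [inv_inv] at h1
      obtain ⟨y, hy⟩ : ∃ y, x⁻¹ * (qq Φ hΦ (n, m)) * x = qq Φ hΦ y := ⟨_, h1⟩
      have h2 : x * K.subtype (q' y) * x⁻¹ = K.subtype k' := by
        rw [← hnm]
        show x * qq Φ hΦ y * x⁻¹ = qq Φ hΦ (n, m)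
        rw [← hy]
        group
      rw [hst x θ _ _ h2, h _ _ h2]
  obtain ⟨ω, hω, hωk⟩ := glu K ((O → R) ⋊[Φ] (MulAut R × Equiv.Perm O)) (X p R) K.subtype
    K.subtype_injective (by
      rw [Subgroup.range_subtype]
      refine ⟨?_⟩
      rintro _ ⟨⟨n, m⟩, rfl⟩ x
      rw [qq_conj]
      exact ⟨_, rfl⟩) κ hκi hκinj (fun x θ => ⟨_, fun k k' h => hst x θ k k' h⟩)
    (fun θ => ⟨St Φ θ.1, jT θ, ξ θ, hmemSt θ, fun k => rfl, hξ θ, fun k => rfl⟩)
  refine ⟨ω, hω, fun n m => ?_⟩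
  have h1 := hωk (q' (n, m))
  refine h1.trans (Finset.sum_congr rfl fun θ _ => ?_)
  exact hκq θ (n, m)

end

end LbP

open LbP in
theorem lb : LB := by
  intro p a _ R _ _ hR A _ _ α O _ hO φ hφ
  let Φ : MulAut R × Equiv.Perm O →* MulAut (O → R) :=
    actH (MonoidHom.snd (MulAut R) (Equiv.Perm O)) (fun h _ => h.1) fun _ _ _ => rfl
  have hΦ : ∀ (x : MulAut R × Equiv.Perm O) (n : O → R) (j : O), Φ x n j = x.1 (n (x.2⁻¹ j)) :=
    fun _ _ _ => rfl
  obtain ⟨ω, hω, hωn⟩ := main (p := p) Φ hΦ hO hR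
  let f : (O → R) ⋊[φ] (A × Equiv.Perm O) →* (O → R) ⋊[Φ] (MulAut R × Equiv.Perm O) :=
    { toFun := fun x => ⟨x.left, (α x.right.1, x.right.2)⟩
      map_one' := by
        ext1
        · rfl
        · exact Prod.ext (map_one α) rfl
      map_mul' := fun x y => by
        ext1
        · funext j
          show x.left j * φ x.right y.left j = x.left j * Φ (α x.right.1, x.right.2) y.left j
          rw [hφ, hΦ]
        · exact Prod.ext (map_mul α _ _) rfl }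
  refine ⟨fun x => ω (f x), rc_comp hω f, fun n m b hb => ?_⟩
  rw [← hωn]
  show ω ⟨fun j => n j * m⁻¹, (α b, 1)⟩ = _
  rw [hb]

end Pool.Agent.ZH17.RD
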