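import Pool.Agent.ZH17.RD.Glu
import Pool.Agent.ZH17.RD.Ten
import Pool.Agent.ZH17.RD.Wre
import Pool.Agent.K3h85.IN.CExt
import Pool.Agent.K3h85.IN.Field
import Pool.Agent.Q99.CT.Basic

/-!
# Piece LB of project RD: the representation of a central extension on a tensor power and a Galois twist
-/

set_option autoImplicit false
set_option linter.unusedSectionVars false
set_option linter.style.haveILetI false

open scoped BigOperators Classical

noncomputable section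

namespace Pool.Agent.ZH17.RD

open Pool.Agent.Helper884 Pool.Agent.K3h3.KB Pool.Agent.K3h3.MK Pool.Agent.K3h83.IN
open Pool.Agent.H254R3.IN (IsIrr mem_Irr schur irr_nontrivial scalar_inj)
open Pool.Agent.K3h18.IN (irr_infl B_infl)
open Pool.Agent.Q99.AS (ten ten_irr)
open Pool.Agent.Q90.WR (Tw tw twRep twMap tw_trace irr_gal)
open Pool.Agent.K3h85.IN (exists_unit irr_comp_surj exists_pow_aut)
open IC (Irr)
open Representation SemidirectProduct

namespace LbP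

/-- factorisation over a surjection -/
theorem factor {E Γ U : Type} [Group E] [Group Γ] [AddCommGroup U] [Module ℂ U] (π : E →* Γ)
    (hπ : Function.Surjective π) (T : Representation ℂ E U) (hT : ∀ e, π e = 1 → T e = 1) :
    ∃ R' : Representation ℂ Γ U, ∀ e, R' (π e) = T e := by
  have hT' : ∀ e e', π e = π e' → T e = T e' := by
    intro e e' h
    have h8 : T (e'⁻¹ * e) = 1 := hT _ (by rw [map_mul, map_inv, h, inv_mul_cancel])
    calc T e = T (e' * (e'⁻¹ * e)) := by rw [mul_inv_cancel_left]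
      _ = T e' := by rw [map_mul, h8, mul_one]
  choose g hg using hπ
  refine ⟨⟨⟨fun x => T (g x), ?_⟩, fun x y => ?_⟩, fun e => ?_⟩
  · rw [hT' (g 1) 1 (by rw [hg, map_one]), map_one]
  · show T (g (x * y)) = T (g x) * T (g y)
    rw [← map_mul]
    apply hT'
    rw [hg, map_mul, hg, hg]
  · show T (g (π e)) = T e
    apply hT'
    rw [hg]

/-- field automorphisms act on characters like power maps -/
theorem gal_pow {G V : Type} [Group G] [Finite G] [AddCommGroup V] [Module ℂ V]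
    [FiniteDimensional ℂ V] (ρ : Representation ℂ G V) {m n : ℕ} (hm : Nat.card G ∣ m)
    {σ : ℂ ≃+* ℂ} (hσ : ∀ z : ℂ, z ^ m = 1 → σ z = z ^ n) (g : G) :
    σ (ρ.character g) = ρ.character (g ^ n) := by
  have hN : 0 < Nat.card G := Nat.card_pos
  have hζ : IsPrimitiveRoot (Complex.exp (2 * Real.pi * Complex.I / (Nat.card G : ℕ)))
      (Nat.card G) := Complex.isPrimitiveRoot_exp _ hN.ne'
  set ζ := Complex.exp (2 * Real.pi * Complex.I / (Nat.card G : ℕ))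
  have hσζ : σ ζ = ζ ^ n := by
    apply hσ
    obtain ⟨k, rfl⟩ := hm
    rw [pow_mul, hζ.pow_eq_one, one_pow]
  obtain ⟨c, hc⟩ := Pool.Agent.Q99.CT.char_expand ρ g hN pow_card_eq_one' hζ
  have h1 := hc 1
  rw [pow_one] at h1
  rw [h1, hc n, map_sum]
  refine Finset.sum_congr rfl fun i _ => ?_
  rw [map_mul, map_natCast, map_pow, mul_one, hσζ, ← pow_mul, mul_comm n i]

section

variable {R : Type} [Group R] [Finite R] {V : Type} [AddCommGroup V] [Module ℂ V]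
  [FiniteDimensional ℂ V] (ρ : Representation ℂ R V)

/-- pairs of an automorphism and a compatible operator -/
def Ah : Subgroup (MulAut R × (V →ₗ[ℂ] V)ˣ) where
  carrier := {x | (∀ r, (x.2 : V →ₗ[ℂ] V) * ρ r = ρ (x.1 r) * (x.2 : V →ₗ[ℂ] V)) ∧
    LinearMap.det (x.2 : V →ₗ[ℂ] V) ^ Nat.card R = 1}
  one_mem' := by
    refine ⟨fun r => ?_, ?_⟩
    · simp
    · simp
  mul_mem' := by
    rintro x y ⟨h1, h2⟩ ⟨h3, h4⟩
    refine ⟨fun r => ?_, ?_⟩
    · rw [Prod.snd_mul, Units.val_mul, mul_assoc, h3, ← mul_assoc, h1, mul_assoc]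
      rfl
    · rw [Prod.snd_mul, Units.val_mul, map_mul, mul_pow, h2, h4, mul_one]
  inv_mem' := by
    rintro x ⟨h1, h2⟩
    refine ⟨fun r => ?_, ?_⟩
    · have h3 := h1 (x.1⁻¹ r)
      rw [MulAut.apply_inv_self] at h3
      rw [Prod.snd_inv, Units.inv_mul_eq_iff_eq_mul, ← mul_assoc, Units.eq_mul_inv_iff_mul_eq]
      exact h3.symm
    · rw [Prod.snd_inv]
      have h3 : LinearMap.det ((x.2⁻¹ : (V →ₗ[ℂ] V)ˣ) : V →ₗ[ℂ] V) ^ Nat.card R *
          LinearMap.det (x.2 : V →ₗ[ℂ] V) ^ Nat.card R = 1 := by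
        rw [← mul_pow, ← map_mul, Units.inv_mul, map_one, one_pow]
      rw [h2, mul_one] at h3
      exact h3

theorem Ah_spec (x : Ah ρ) (r : R) :
    (x.1.2 : V →ₗ[ℂ] V) * ρ r = ρ (x.1.1 r) * (x.1.2 : V →ₗ[ℂ] V) := x.2.1 r

/-- the automorphism -/
def aα : Ah ρ →* MulAut R := (MonoidHom.fst (MulAut R) (V →ₗ[ℂ] V)ˣ).comp (Ah ρ).subtype

theorem aα_apply (x : Ah ρ) : aα ρ x = x.1.1 := rfl

/-- the inner pairs -/
def inn (m : R) : Ah ρ := ⟨(MulAut.conj m, MonoidHom.toHomUnits ρ m), by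
  refine ⟨fun r => ?_, ?_⟩
  · show ρ m * ρ r = ρ (m * r * m⁻¹) * ρ m
    rw [← map_mul, ← map_mul, inv_mul_cancel_right]
  · show LinearMap.det (ρ m) ^ Nat.card R = 1
    rw [← map_pow, ← map_pow, pow_card_eq_one', map_one, map_one]⟩

/-- the extended representation -/
def rh : Representation ℂ (R ⋊[aα ρ] Ah ρ) V where
  toFun x := ρ x.left * (x.right.1.2 : V →ₗ[ℂ] V)
  map_one' := by
    rw [one_left, one_right, map_one]
    show (1 : Module.End ℂ V) * (((1 : (V →ₗ[ℂ] V)ˣ)) : V →ₗ[ℂ] V) = 1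
    rw [Units.val_one, mul_one]
  map_mul' x y := by
    rw [mul_left, mul_right, map_mul, aα_apply]
    show ρ x.left * ρ (x.right.1.1 y.left) * ((x.right.1.2 * y.right.1.2 : (V →ₗ[ℂ] V)ˣ) :
      V →ₗ[ℂ] V) = (ρ x.left * (x.right.1.2 : V →ₗ[ℂ] V)) * (ρ y.left * (y.right.1.2 : V →ₗ[ℂ] V))
    rw [Units.val_mul]
    have h := Ah_spec ρ x.right y.left
    calc ρ x.left * ρ (x.right.1.1 y.left) * ((x.right.1.2 : V →ₗ[ℂ] V) * (y.right.1.2 : V →ₗ[ℂ] V))
        = ρ x.left * (ρ (x.right.1.1 y.left) * (x.right.1.2 : V →ₗ[ℂ] V)) *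
          (y.right.1.2 : V →ₗ[ℂ] V) := by simp only [mul_assoc]
      _ = ρ x.left * ((x.right.1.2 : V →ₗ[ℂ] V) * ρ y.left) * (y.right.1.2 : V →ₗ[ℂ] V) := by
        rw [h]
      _ = _ := by simp only [mul_assoc]

theorem rh_apply (x : R ⋊[aα ρ] Ah ρ) : rh ρ x = ρ x.left * (x.right.1.2 : V →ₗ[ℂ] V) := rfl

theorem rh_inn (n m : R) : rh ρ ⟨n * m⁻¹, inn ρ m⟩ = ρ n := by
  rw [rh_apply]
  show ρ (n * m⁻¹) * ρ m = ρ n
  rw [← map_mul, inv_mul_cancel_right]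

theorem rh_inn' (m : R) : rh ρ (SemidirectProduct.inr (inn ρ m)⁻¹) = ρ m⁻¹ := by
  rw [rh_apply]
  show ρ 1 * (((MonoidHom.toHomUnits ρ m)⁻¹ : (V →ₗ[ℂ] V)ˣ) : V →ₗ[ℂ] V) = ρ m⁻¹
  rw [map_one, one_mul, ← map_inv]
  rfl

include ρ in
theorem exists_Ah (hρ : ρ.IsIrreducible) (β : MulAut R)
    (hβ : ∀ r, ρ.character (β r) = ρ.character r) : ∃ x : Ah ρ, x.1.1 = β := by
  haveI : Nontrivial V := irr_nontrivial ρ hρ
  have hdim : 0 < Module.finrank ℂ V := Module.finrank_pos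
  obtain ⟨S, hS⟩ := exists_unit ρ (MonoidHom.comp ρ (β : R ≃* R).toMonoidHom) hρ
    (irr_comp_surj ρ hρ (β : R ≃* R).toMonoidHom β.surjective) (by
      funext r
      exact (hβ r).symm)
  have hd : LinearMap.det (S : V →ₗ[ℂ] V) ≠ 0 := (LinearMap.isUnit_det _ S.isUnit).ne_zero
  obtain ⟨c, hc⟩ := IsAlgClosed.exists_pow_nat_eq (LinearMap.det (S : V →ₗ[ℂ] V))⁻¹ hdim
  have hc0 : c ≠ 0 := by
    rintro rfl
    rw [zero_pow hdim.ne'] at hc
    exact inv_ne_zero hd hc.symm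
  refine ⟨⟨(β, Units.mk0 c hc0 • S), ?_⟩, rfl⟩
  have e1 : ((Units.mk0 c hc0 • S : (V →ₗ[ℂ] V)ˣ) : V →ₗ[ℂ] V) = c • (S : V →ₗ[ℂ] V) := rfl
  refine ⟨fun r => ?_, ?_⟩
  · rw [e1, smul_mul_assoc, hS, mul_smul_comm]
    rfl
  · rw [e1, LinearMap.det_smul, hc, inv_mul_cancel₀ hd, one_pow]

theorem Ah_ker (hρ : ρ.IsIrreducible) (x : Ah ρ) (hx : x.1.1 = 1) :
    ∃ c : ℂ, (x.1.2 : V →ₗ[ℂ] V) = c • LinearMap.id ∧
      c ^ (Module.finrank ℂ V * Nat.card R) = 1 := by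
  obtain ⟨c, hc⟩ := schur ρ hρ (x.1.2 : V →ₗ[ℂ] V) fun l v => by
    have h1 := Ah_spec ρ x l
    rw [hx, MulAut.one_apply] at h1
    exact congrArg (fun f => f v) h1
  refine ⟨c, hc, ?_⟩
  have h1 := x.2.2
  change LinearMap.det (x.1.2 : V →ₗ[ℂ] V) ^ Nat.card R = 1 at h1
  rw [hc, LinearMap.det_smul, LinearMap.det_id, mul_one, ← pow_mul] at h1
  exact h1

end

end LbP

end Pool.Agent.ZH17.RD
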