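import Pool.Agent.ZH17.RD.Pair

/-!
# Linked characters of normal subgroups of two groups
-/

set_option autoImplicit false
set_option linter.unusedSectionVars false
set_option linter.style.haveILetI false

open scoped BigOperators Classical

noncomputable section

namespace Pool.Agent.ZH17.RD

open Pool.Agent.Helper884 Pool.Agent.K3h3.KB Pool.Agent.K3h3.MK Pool.Agent.K3h83.IN
open Pool.Agent.H254R3.IN (IsIrr mem_Irr)
open Pool.Agent.K3h18.IN (irr_infl B_infl exists_prod)
open Pool.Agent.Q99.AS (ten ten_irr)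
open IC (Irr)
open Representation SemidirectProduct

/-- the scalar product -/
def pr {G : Type} [Group G] [Finite G] (f g : G → ℂ) : ℂ :=
  letI := Fintype.ofFinite G
  IC.B f g

theorem pr_eq {G : Type} [Group G] [i : Fintype G] (f g : G → ℂ) : pr f g = IC.B f g := by
  unfold pr
  have h : Fintype.ofFinite G = i := Subsingleton.elim _ _
  rw [h]

instance sd_finite {N S : Type} [Group N] [Group S] [Finite N] [Finite S] {φ : S →* MulAut N} :
    Finite (N ⋊[φ] S) := Finite.of_equiv _ SemidirectProduct.equivProd.symm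

section

variable {L L' T T' N : Type} [Group L] [Group L'] [Group T] [Group T'] [Group N] [Finite L]
  [Finite L'] [Finite T] [Finite T'] [Finite N]

theorem link {R : Type} [CommRing R] (w : ℕ →* R) (i : L →* T) (hi : Function.Injective i)
    (i' : L' →* T') (hi' : Function.Injective i') (hin' : i'.range.Normal)
    (u : T' →* T) (v : L' →* L) (huv : ∀ l', i (v l') = u (i' l'))
    (hsup : ∀ t : T, ∃ l t', t = i l * u t') (hint : ∀ t', u t' ∈ i.range → t' ∈ i'.range)
    (F : N →* L) (hF : Function.Surjective F) (φ : T' →* MulAut N)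
    (hφ : ∀ t' n, i (F (φ t' n)) = u t' * i (F n) * (u t')⁻¹)
    {θ : L → ℂ} (hθ : IsIrr θ) (hfix : ∀ x, fixes i θ x)
    {θ' : L' → ℂ} (hθ' : IsIrr θ') (hfix' : ∀ x, fixes i' θ' x)
    (ω : N ⋊[φ] T' → ℂ) (hω : RC ω)
    (h1 : pr (fun k : N ⋊[φ.comp i'] L' => ω ⟨k.left, i' k.right⟩)
      (fun k => θ (F k.left * v k.right) * θ' k.right⁻¹) = 1) :
    ∃ W : R, wo w i θ = w (ndeg θ) * W ∧ wo w i' θ' = w (ndeg θ') * W := by
  have hFv : ∀ l' n, F (φ (i' l') n) = v l' * F n * (v l')⁻¹ := by
    intro l' n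
    apply hi
    rw [hφ, ← huv, map_mul, map_mul, map_inv]
  let jK : N ⋊[φ.comp i'] L' →* N ⋊[φ] T' :=
    { toFun := fun k => ⟨k.left, i' k.right⟩
      map_one' := by
        ext
        · rfl
        · exact map_one i'
      map_mul' := fun k k' => by
        ext
        · rfl
        · exact map_mul i' _ _ }
  have hjK : Function.Injective jK := by
    intro k k' h
    have h2 : (jK k).left = (jK k').left := by rw [h]
    have h3 : (jK k).right = (jK k').right := by rw [h]
    ext
    · exact h2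
    · exact hi' h3
  have hjr : jK.range = i'.range.comap (rightHom : N ⋊[φ] T' →* T') := by
    ext x
    rw [Subgroup.mem_comap]
    constructor
    · rintro ⟨k, rfl⟩
      exact ⟨k.right, rfl⟩
    · rintro ⟨l', hl'⟩
      refine ⟨⟨x.left, l'⟩, ?_⟩
      ext
      · rfl
      · exact hl'
  have hjn : jK.range.Normal := by
    rw [hjr]
    exact hin'.comap _
  let pG : N ⋊[φ] T' →* T :=
    { toFun := fun x => i (F x.left) * u x.right
      map_one' := by simp
      map_mul' := fun x y => by
        rw [mul_left, mul_right, map_mul, map_mul, map_mul, hφ]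
        group }
  have hpG : ∀ x : N ⋊[φ] T', pG x = i (F x.left) * u x.right := fun _ => rfl
  let pK : N ⋊[φ.comp i'] L' →* L :=
    { toFun := fun x => F x.left * v x.right
      map_one' := by simp
      map_mul' := fun x y => by
        rw [mul_left, mul_right, map_mul, map_mul, MonoidHom.comp_apply, hFv]
        group }
  have hpK : ∀ x : N ⋊[φ.comp i'] L', pK x = F x.left * v x.right := fun _ => rfl
  have hpGs : Function.Surjective pG := by
    intro t
    obtain ⟨l, t', rfl⟩ := hsup t
    obtain ⟨n, rfl⟩ := hF l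
    exact ⟨⟨n, t'⟩, rfl⟩
  have hpKs : Function.Surjective pK := by
    intro l
    obtain ⟨n, rfl⟩ := hF l
    exact ⟨⟨n, 1⟩, by rw [hpK]; simp⟩
  have hc : ∀ k, pG (jK k) = i (pK k) := by
    intro k
    rw [hpG, hpK, map_mul, huv]
    rfl
  have hpker : pG.ker ≤ jK.range := by
    intro x hx
    rw [hjr, Subgroup.mem_comap]
    apply hint
    refine ⟨(F x.left)⁻¹, ?_⟩
    have h : i (F x.left) * u x.right = 1 := hx
    rw [map_inv]
    exact (eq_inv_of_mul_eq_one_right h).symm
  let rG : N ⋊[φ] T' →* T' := rightHom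
  let rK : N ⋊[φ.comp i'] L' →* L' := rightHom
  have hrGs : Function.Surjective rG := rightHom_surjective
  have hrKs : Function.Surjective rK := rightHom_surjective
  have hrc : ∀ k, rG (jK k) = i' (rK k) := fun _ => rfl
  have hrker : rG.ker ≤ jK.range := by
    intro x hx
    rw [hjr, Subgroup.mem_comap]
    have h : x.right = 1 := hx
    change x.right ∈ i'.range
    rw [h]
    exact one_mem _
  have hκ : IsIrr fun k => θ (pK k) := by
    haveI := Fintype.ofFinite L
    haveI := Fintype.ofFinite (N ⋊[φ.comp i'] L')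
    exact irr_infl pK hpKs hθ
  have hκ' : IsIrr fun k => θ' (rK k) := by
    haveI := Fintype.ofFinite L'
    haveI := Fintype.ofFinite (N ⋊[φ.comp i'] L')
    exact irr_infl rK hrKs hθ'
  have hf : ∀ x, fixes jK (fun k => θ (pK k)) x := by
    intro x k k' hk
    have h2 := congrArg pG hk
    rw [map_mul, map_mul, map_inv, hc, hc] at h2
    exact hfix (pG x) _ _ h2
  have hf' : ∀ x, fixes jK (fun k => θ' (rK k)) x := by
    intro x k k' hk
    have h2 := congrArg rG hk
    rw [map_mul, map_mul, map_inv, hrc, hrc] at h2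
    exact hfix' (rG x) _ _ h2
  have hprod : IsIrr fun k => θ (pK k) * θ' (rK k⁻¹) := by
    let q : N ⋊[φ.comp i'] L' →* L × L' := pK.prod rK
    have hq : Function.Surjective q := by
      rintro ⟨l, l'⟩
      obtain ⟨n, hn⟩ := hF (l * (v l')⁻¹)
      refine ⟨⟨n, l'⟩, ?_⟩
      apply Prod.ext
      · change F n * v l' = l
        rw [hn]
        group
      · rfl
    haveI := Fintype.ofFinite L
    haveI := Fintype.ofFinite L'
    haveI := Fintype.ofFinite (N ⋊[φ.comp i'] L')
    have h2 := irr_infl q hq (ten_irr hθ (irr_inv hθ'))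
    have e : (fun k => θ (pK k) * θ' (rK k⁻¹)) = fun k => ten θ (fun l => θ' l⁻¹) (q k) := by
      funext k
      rw [map_inv]
      rfl
    rw [e]
    exact h2
  haveI := Fintype.ofFinite (N ⋊[φ.comp i'] L')
  haveI := Fintype.ofFinite (N ⋊[φ] T')
  have hB : IC.B (fun k => ω (jK k)) (fun k => θ (pK k) * θ' (rK k⁻¹)) = 1 := by
    rw [← pr_eq]
    rw [← h1]
    rfl
  obtain ⟨ξ, hξ, hξ1, hξ2⟩ := exists_const jK hω hprod hB
  have hfp : ∀ x, fixes jK (fun k => θ (pK k) * θ' (rK k⁻¹)) x := by
    intro x k k' hk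
    have h2 := hf x k k' hk
    have h3 := hf' x k⁻¹ k'⁻¹ (by
      rw [map_inv, map_inv, ← hk]
      group)
    simp only at h2 h3 ⊢
    rw [h2, h3]
  have hξr : ∀ k, ξ (jK k) = θ (pK k) * θ' (rK k⁻¹) := restrict_eq jK hjK hjn hprod hfp hξ hξ2
  obtain ⟨W, hW1, hW2⟩ := pair_link w jK hjK hjn hκ hκ' hf hf' (rc_irr hξ) hξr hprod
  refine ⟨W, ?_, ?_⟩
  · rw [← inf_wo w jK hjK i pG hpGs pK hpKs hi hc hpker hθ, hW1]
    congr 2
    unfold ndeg
    simp only [map_one]
  · rw [← inf_wo w jK hjK i' rG hrGs rK hrKs hi' hrc hrker hθ', hW2]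
    congr 1

end

end Pool.Agent.ZH17.RD
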