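import Pool.Agent.ZH17.RD.Stm7
import Pool.Agent.ZH17.RD.Main4

/-!
# Phase C: simple groups with cyclic Sylow `p`-subgroups, `p` odd, are linked
-/

set_option autoImplicit false
set_option linter.unusedSectionVars false
set_option linter.style.haveILetI false

open scoped BigOperators Classical

noncomputable section

namespace Pool.Agent.ZH17.RD

open Pool.Agent.Helper884 Pool.Agent.K3h3.KB Pool.Agent.K3h3.MK Pool.Agent.K3h83.IN
open Pool.Agent.K3h33.CY
open Pool.Agent.H254R3.IN (IsIrr mem_Irr)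
open IC (Irr)
open SemidirectProduct

namespace Lkc

theorem se_symm {p : ℕ} {B : Type} [Group B] {F G : B → ℂ} (h : SE p id F G) : SE p id G F := by
  rcases h with h | h
  · exact Or.inl fun g hg => (h g hg).symm
  · refine Or.inr fun g hg => ?_
    have h1 : F g = - G g := h g hg
    rw [id, h1, neg_neg]

theorem se_trans {p : ℕ} {B : Type} [Group B] {F G H : B → ℂ} (h : SE p id F G) (h' : SE p id G H) :
    SE p id F H := by
  rcases h with h | h <;> rcases h' with h' | h'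
  · exact Or.inl fun g hg => (h g hg).trans (h' g hg)
  · exact Or.inr fun g hg => (h g hg).trans (h' g hg)
  · refine Or.inr fun g hg => ?_
    have h1 : F g = - G g := h g hg
    have h2 : G g = H g := h' g hg
    rw [id, h1, h2]
  · refine Or.inl fun g hg => ?_
    have h1 : F g = - G g := h g hg
    have h2 : G g = - H g := h' g hg
    rw [id, h1, h2, neg_neg]

section

variable {p : ℕ} {B N A : Type} [Group B] [Group N] [Group A] (D : Dat p B N A)

/-- sets of functions on `B` -/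
def Cs (_ : Dat p B N A) : Type := Set (B → ℂ)

instance instC : MulAction A (Cs D) where
  smul a c := {F : B → ℂ | (fun b => F (D.β a b)) ∈ (show Set (B → ℂ) from c)}
  one_smul c := by
    show {F : B → ℂ | (fun b => F (D.β 1 b)) ∈ (show Set (B → ℂ) from c)} = c
    rw [map_one]
    rfl
  mul_smul a a' c := by
    show {F : B → ℂ | (fun b => F (D.β (a * a') b)) ∈ (show Set (B → ℂ) from c)} =
      {F : B → ℂ | (fun b => F (D.β a (D.β a' b))) ∈ (show Set (B → ℂ) from c)}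
    rw [map_mul]
    rfl

/-- the class of a character of `N` -/
def fX (χ : Xs D) : Cs D := {F : B → ℂ | SE p id F (fun b => χ.1 (D.k b))}

/-- the class of a character of `B` -/
def gY (θ : Ys D) : Cs D := {F : B → ℂ | SE p id F θ.1}

theorem se_comp (a : A) (F G : B → ℂ) : SE p id (fun b => F (D.β a b)) G ↔
    SE p id F (fun b => G (D.β a⁻¹ b)) := by
  have h1 : ∀ b, D.β a (D.β a⁻¹ b) = b := fun b => by
    rw [← MulAut.mul_apply, ← map_mul, mul_inv_cancel, map_one, MulAut.one_apply]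
  have h2 : ∀ b, D.β a⁻¹ (D.β a b) = b := fun b => by
    rw [← MulAut.mul_apply, ← map_mul, inv_mul_cancel, map_one, MulAut.one_apply]
  have h3 : ∀ b, orderOf (D.β a⁻¹ b) = orderOf b := fun b => MulEquiv.orderOf_eq (D.β a⁻¹) b
  have h4 : ∀ b, orderOf (D.β a b) = orderOf b := fun b => MulEquiv.orderOf_eq (D.β a) b
  constructor
  · rintro (h | h)
    · refine Or.inl fun g hg => ?_
      have h5 : F (D.β a (D.β a⁻¹ g)) = G (D.β a⁻¹ g) := h (D.β a⁻¹ g) (by rwa [h3])
      rw [h1] at h5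
      exact h5
    · refine Or.inr fun g hg => ?_
      have h5 : F (D.β a (D.β a⁻¹ g)) = - G (D.β a⁻¹ g) := h (D.β a⁻¹ g) (by rwa [h3])
      rw [h1] at h5
      exact h5
  · rintro (h | h)
    · refine Or.inl fun g hg => ?_
      have h5 : F (D.β a g) = G (D.β a⁻¹ (D.β a g)) := h (D.β a g) (by rwa [h4])
      rw [h2] at h5
      exact h5
    · refine Or.inr fun g hg => ?_
      have h5 : F (D.β a g) = - G (D.β a⁻¹ (D.β a g)) := h (D.β a g) (by rwa [h4])
      rw [h2] at h5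
      exact h5

theorem fX_smul (a : A) (χ : Xs D) : fX D (a • χ) = a • fX D χ := by
  refine Set.ext fun F => ?_
  show SE p id F (fun b => χ.1 (D.α a⁻¹ (D.k b))) ↔ SE p id (fun b => F (D.β a b)) (fun b => χ.1 (D.k b))
  rw [se_comp]
  have : (fun b => χ.1 (D.α a⁻¹ (D.k b))) = fun b => χ.1 (D.k (D.β a⁻¹ b)) := by
    funext b
    rw [D.comp]
  rw [this]

theorem gY_smul (a : A) (θ : Ys D) : gY D (a • θ) = a • gY D θ := by
  refine Set.ext fun F => ?_
  show SE p id F (fun b => θ.1 (D.β a⁻¹ b)) ↔ SE p id (fun b => F (D.β a b)) θ.1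
  rw [se_comp]

theorem fixA (W : Subgroup A) (χ : Xs D) :
    (∀ g ∈ W, g • χ = χ) ↔ ∀ w ∈ W, ∀ n, χ.1 (D.α w n) = χ.1 n := by
  constructor
  · intro h w hw n
    have h1 := congrArg (fun t : Xs D => t.1 n) (h w⁻¹ (inv_mem hw))
    change χ.1 (D.α (w⁻¹)⁻¹ n) = χ.1 n at h1
    rw [inv_inv] at h1
    exact h1
  · intro h g hg
    exact Subtype.ext (funext fun n => h _ (inv_mem hg) n)

theorem fixB (W : Subgroup A) (θ : Ys D) :
    (∀ g ∈ W, g • θ = θ) ↔ ∀ w ∈ W, ∀ n, θ.1 (D.β w n) = θ.1 n := by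
  constructor
  · intro h w hw n
    have h1 := congrArg (fun t : Ys D => t.1 n) (h w⁻¹ (inv_mem hw))
    change θ.1 (D.β (w⁻¹)⁻¹ n) = θ.1 n at h1
    rw [inv_inv] at h1
    exact h1
  · intro h g hg
    exact Subtype.ext (funext fun n => h _ (inv_mem hg) n)

theorem fix1 (a : A) (χ : Xs D) : a • χ = χ ↔ ∀ n, χ.1 (D.α a n) = χ.1 n := by
  constructor
  · intro h n
    have h1 := congrArg (fun t : Xs D => t.1 (D.α a n)) h
    change χ.1 (D.α a⁻¹ (D.α a n)) = χ.1 (D.α a n) at h1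
    rw [← MulAut.mul_apply, ← map_mul, inv_mul_cancel, map_one, MulAut.one_apply] at h1
    exact h1.symm
  · intro h
    refine Subtype.ext (funext fun n => ?_)
    show χ.1 (D.α a⁻¹ n) = χ.1 n
    rw [← h, ← MulAut.mul_apply, ← map_mul, mul_inv_cancel, map_one, MulAut.one_apply]

theorem fix2 (a : A) (θ : Ys D) : a • θ = θ ↔ ∀ n, θ.1 (D.β a n) = θ.1 n := by
  constructor
  · intro h n
    have h1 := congrArg (fun t : Ys D => t.1 (D.β a n)) h
    change θ.1 (D.β a⁻¹ (D.β a n)) = θ.1 (D.β a n) at h1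
    rw [← MulAut.mul_apply, ← map_mul, inv_mul_cancel, map_one, MulAut.one_apply] at h1
    exact h1.symm
  · intro h
    refine Subtype.ext (funext fun n => ?_)
    show θ.1 (D.β a⁻¹ n) = θ.1 n
    rw [← h, ← MulAut.mul_apply, ← map_mul, mul_inv_cancel, map_one, MulAut.one_apply]

theorem mm_se {W : Subgroup A} {χ : N → ℂ} {θ : B → ℂ} (h : MM D W χ θ) :
    SE p id (fun b => χ (D.k b)) θ := by
  obtain ⟨U, _, _, π, _, _, χ', θ', _, _, h3, h4, h5⟩ := h
  have h6 : ∀ b : B, orderOf (inl b : BU D π) = orderOf b :=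
    fun b => orderOf_injective (inl : B →* BU D π) SemidirectProduct.inl_injective b
  rcases h5 with h5 | h5
  · refine Or.inl fun g hg => ?_
    have h7 := h5 (inl g) (by rwa [h6])
    rw [kU_inl, h3, h4] at h7
    exact h7
  · refine Or.inr fun g hg => ?_
    have h7 := h5 (inl g) (by rwa [h6])
    rw [kU_inl, h3, h4] at h7
    exact h7

theorem fg_of_mm {W : Subgroup A} {χ : Xs D} {θ : Ys D} (h : MM D W χ.1 θ.1) : fX D χ = gY D θ := by
  refine Set.ext fun F => ?_
  show SE p id F (fun b => χ.1 (D.k b)) ↔ SE p id F θ.1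
  exact ⟨fun h1 => se_trans h1 (mm_se D h), fun h1 => se_trans h1 (se_symm (mm_se D h))⟩

end

/-- the subgroup of order `p` of a cyclic Sylow subgroup is stable -/
theorem stab_R {p : ℕ} [hp : Fact p.Prime] {N : Type} [Group N] [Finite N] (Q : Sylow p N)
    (hcyc : IsCyclic Q) (R : Subgroup N) (hRQ : R ≤ Q) (hRc : Nat.card R = p) :
    ∀ a ∈ Ast (Q : Subgroup N), ∀ x, a x ∈ R ↔ x ∈ R := by
  have hRm : ∀ x, x ∈ R ↔ x ∈ Q ∧ x ^ p = 1 := by
    have h1 : ∀ x : N, x ∈ R → x ∈ Q ∧ x ^ p = 1 := fun x hx => ⟨hRQ hx, by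
      have := pow_card_eq_one' (x := (⟨x, hx⟩ : R))
      rw [hRc] at this
      exact congrArg Subtype.val this⟩
    let T : Set (Q : Subgroup N) := {x | x ^ p = 1}
    have h2 : Nat.card T ≤ p := by
      haveI := Fintype.ofFinite (Q : Subgroup N)
      have h3 := IsCyclic.card_pow_eq_one_le (α := (Q : Subgroup N)) hp.out.pos
      rw [Nat.card_eq_card_toFinset]
      refine le_trans (Finset.card_le_card ?_) h3
      intro x hx
      rw [Set.mem_toFinset] at hx
      exact Finset.mem_filter.mpr ⟨Finset.mem_univ _, hx⟩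
    intro x
    refine ⟨h1 x, fun hx => ?_⟩
    let i : R → T := fun y => ⟨⟨y.1, hRQ y.2⟩, Subtype.ext (h1 y.1 y.2).2⟩
    have hi : Function.Injective i := fun y y' h => Subtype.ext
      (congrArg (fun t : T => (t.1 : N)) h)
    have hs : Function.Surjective i := by
      refine (Nat.bijective_iff_injective_and_card i).mpr ⟨hi, ?_⟩ |>.2
      exact le_antisymm (Nat.card_le_card_of_injective i hi) (h2.trans hRc.ge)
    obtain ⟨y, hy⟩ := hs ⟨⟨x, hx.1⟩, Subtype.ext hx.2⟩
    have h4 : (y : N) = x := congrArg (fun t : T => (t.1 : N)) hy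
    rw [← h4]
    exact y.2
  intro a ha x
  rw [hRm, hRm, ← map_pow, MulEquiv.map_eq_one_iff]
  exact and_congr_left fun _ => ha.1 x

end Lkc

open OutP Lkc in
theorem lnkC_of_pn (hHAM : HAM) (hTRV : TRV) (hCLZ : CLZ) (hLKC : LKC) (hMEQ : MEQ) {p : ℕ}
    [hp : Fact p.Prime] (hp2 : p ≠ 2) {S : Type} [Group S] [Finite S]
    [IsSimpleGroup S] (hab : ∃ a b : S, a * b ≠ b * a) (hdvd : p ∣ Nat.card S)
    (hc : ∀ Q : Sylow p S, IsCyclic Q) (hO : OutPN p S) : LnkC p S := by
  intro N _ _ hN ⟨e⟩ hZ Q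
  have hcyc : IsCyclic Q := cyc_cover e hZ hc Q
  have hpN : p ∣ Nat.card N := by
    rw [← Nat.card_congr e.toEquiv] at hdvd
    exact hdvd.trans (Subgroup.card_quotient_dvd_card _)
  obtain ⟨k, f, hf1, hf2⟩ := hO
  obtain ⟨R, hRQ, hRc, D, hk, hα, hβ, V, hV, hVf, hgen⟩ := hHAM p N Q hcyc hpN k (f.comp (rho e))
    (fun n => by rw [MonoidHom.comp_apply, rho_conj]; exact hf1 _)
    (by
      rintro a ha ⟨n, hn⟩
      obtain ⟨s, hs⟩ := hf2 (rho e a) ha ⟨OutP.pr e n, by rw [← map_pow, hn, rho_conj]⟩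
      obtain ⟨m, rfl⟩ := pr_surj e s
      rw [← rho_conj] at hs
      exact ⟨m, rho_inj e hN hs⟩)
  have hα' : ∀ (a : Ast R) n, D.α a n = (a : MulAut N) n := fun a n => by rw [hα]; rfl
  refine ⟨R, stab_R Q hcyc R hRQ hRc, not_normal hab e hZ R ?_ ?_, ?_⟩
  · exact IsPGroup.of_card (n := 1) (by rw [hRc, pow_one])
  · rintro rfl
    rw [Subgroup.card_bot] at hRc
    exact hp.out.one_lt.ne hRc
  let φ : Ast R →* Multiplicative (ZMod (p ^ k)) := (f.comp (rho e)).comp (Ast R).subtype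
  let I : Subgroup (Ast R) := (HAL.cj R).range
  have hI : ∀ i ∈ I, ∃ m : Subgroup.normalizer (R : Set N), (i : MulAut N) = MulAut.conj (m : N) := by
    rintro _ ⟨m, rfl⟩
    exact ⟨m, rfl⟩
  have hIφ : ∀ i ∈ I, φ i = 1 := by
    rintro _ ⟨m, rfl⟩
    show f (rho e (MulAut.conj (m : N))) = 1
    rw [rho_conj]
    exact hf1 _
  haveI := finX D
  haveI := finY D
  obtain ⟨β, hβ1, hβ2⟩ := hCLZ p (Ast R) (Xs D) (Ys D) (Cs D) (fX D) (gY D) (fX_smul D) (gY_smul D)
    (by
      intro a j haj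
      obtain ⟨h1, h2⟩ := hTRV p hp2 _ N (Ast R) D a j haj
      refine ⟨fun χ h => ?_, fun θ h => ?_⟩
      · rw [fix1]
        refine h1 χ ?_
        have h3 : (fun b => χ.1 (D.k b)) ∈ (show Set _ from fX D χ) := Or.inl fun _ _ => rfl
        rw [← h] at h3
        exact h3
      · rw [fix2]
        refine h2 θ ?_
        have h3 : θ.1 ∈ (show Set _ from gY D θ) := Or.inl fun _ _ => rfl
        rw [← h] at h3
        exact h3)
    k φ I V (by
      show ((HAL.cj R).range).Normal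
      rw [MonoidHom.range_eq_map]
      exact HAL.map_normal R fun _ _ _ => Subgroup.mem_top _)
    hIφ hVf hV (by
      intro a ha
      obtain ⟨m, v, hv, h⟩ := hgen a ha
      exact ⟨HAL.cj R m, ⟨m, rfl⟩, v, hv, Subtype.ext h⟩)
    (by
      rintro _ ⟨m, rfl⟩
      refine ⟨fun χ => ?_, fun θ => ?_⟩
      · rw [fix1]
        intro n
        rw [hα']
        exact χ.2.1.conj _ _
      · rw [fix2]
        intro b
        have h1 : D.β (HAL.cj R m) b = m * b * m⁻¹ := Subtype.ext (hβ _ _)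
        rw [h1]
        exact θ.2.conj _ _)
    (fun W χ θ => MM D W χ.1 θ.1)
    (fun W W' χ θ hle h => mm_mono D hle χ.2.1 θ.2 h)
    (fun g W χ θ h => Lkc.mm_conj D h g)
    (fun W hW χ χ₁ θ θ₁ h h' h'' => (hMEQ p _ N (Ast R) D W hW).2 χ χ₁ θ θ₁ h h' h'')
    (fun W χ θ h => fg_of_mm D h)
    (fun W hW => by
      obtain ⟨e', he'⟩ := (hMEQ p _ N (Ast R) D W hW).1
      exact ⟨(Equiv.subtypeEquivRight (fixA D W)).trans (e'.trans
        (Equiv.subtypeEquivRight (fixB D W)).symm), fun χ => he' (Equiv.subtypeEquivRight (fixA D W) χ)⟩)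
  refine hLKC p N R hRc hZ D hk hα k φ ?_ β ?_ ?_
  · intro m a ha
    exact hIφ a ⟨m, Subtype.ext ha.symm⟩
  · intro a χ χ₁ h b
    have h3 : χ₁ = a⁻¹ • χ := by
      refine Subtype.ext (funext fun n => ?_)
      change _ = χ.1 (D.α (a⁻¹)⁻¹ n)
      rw [inv_inv]
      exact h n
    rw [h3, hβ1]
    change (β χ).1 (D.β (a⁻¹)⁻¹ b) = _
    rw [inv_inv]
  · intro χ
    obtain ⟨W, h1, h2, h3, h4⟩ := hβ2 χ
    refine ⟨W, h1, fun w hw => ⟨(h2 w hw).1, (fix1 D w χ).mp (h2 w hw).2⟩, fun a ha hax => ?_, h4⟩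
    obtain ⟨i, hi, w, hw, haw⟩ := h3 a ha ((fix1 D a χ).mpr hax)
    obtain ⟨m, hm⟩ := hI i hi
    exact ⟨m, w, hw, by rw [haw, Subgroup.coe_mul, hm]⟩

end Pool.Agent.ZH17.RD
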