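import Pool.Agent.ZH17.RD.Stm6
import Pool.Agent.K3h96.IN.Clif
import Pool.Agent.K3h18.IN.Infl

/-!
# Piece LL, first part: Clifford theory in `N ⋊ U`
-/

set_option autoImplicit false
set_option linter.unusedSectionVars false
set_option linter.style.haveILetI false

open scoped BigOperators Classical

noncomputable section

namespace Pool.Agent.ZH17.RD

open Pool.Agent.Helper884 Pool.Agent.K3h3.KB Pool.Agent.K3h3.MK Pool.Agent.K3h83.IN
open Pool.Agent.K3h33.CY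
open Pool.Agent.H254R3.IN (IsIrr mem_Irr)
open Pool.Agent.K3h18.IN (irr_infl)
open IC (Irr)
open SemidirectProduct

section cliff

variable {N U : Type} [Group N] [Fintype N] [Group U] [Finite U] (φ : U →* MulAut N)

theorem aut_irr (a : MulAut N) {χ : N → ℂ} (h : IsIrr χ) : IsIrr (fun n => χ (a n)) :=
  irr_infl a.toMonoidHom a.surjective h

theorem B_aut (a : MulAut N) (f h : N → ℂ) :
    IC.B (fun n => f (a n)) (fun n => h (a n)) = IC.B f h := by
  unfold IC.B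
  congr 1
  refine Fintype.sum_equiv a.toEquiv _ _ fun n => ?_
  change f (a n) * h (a n⁻¹) = f (a n) * h (a n)⁻¹
  rw [map_inv]

theorem res_aut {χ' : N ⋊[φ] U → ℂ} (h : IsIrr χ') (u : U) (n : N) :
    χ' (inl (φ u n)) = χ' (inl n) := by
  rw [SemidirectProduct.inl_aut, map_inv]
  exact h.conj _ _

theorem range_inl_normal : (inl : N →* N ⋊[φ] U).range.Normal := by
  rw [SemidirectProduct.range_inl_eq_ker_rightHom]
  infer_instance

/-- Clifford's theorem: the irreducible constituents of the restriction are conjugate -/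
theorem cliff {χ' : N ⋊[φ] U → ℂ} (h : IsIrr χ') {χ₁ χ₂ : N → ℂ} (h₁ : IsIrr χ₁) (h₂ : IsIrr χ₂)
    (hn₁ : IC.B (fun n => χ' (inl n)) χ₁ ≠ 0) (hn₂ : IC.B (fun n => χ' (inl n)) χ₂ ≠ 0) :
    ∃ u : U, ∀ n, χ₁ n = χ₂ (φ u n) := by
  haveI : Finite (N ⋊[φ] U) := Finite.of_equiv (N × U)
    ⟨fun x => ⟨x.1, x.2⟩, fun x => (x.1, x.2), fun _ => rfl, fun _ => rfl⟩
  haveI := Fintype.ofFinite (N ⋊[φ] U)
  haveI := Fintype.ofFinite (inl : N →* N ⋊[φ] U).range
  haveI := range_inl_normal φ (N := N) (U := U)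
  have hi : Function.Injective (inl : N →* N ⋊[φ] U) := SemidirectProduct.inl_injective
  have k1 := Pool.Agent.Y63.AWC.clifford (inl : N →* N ⋊[φ] U).range
    (Pool.Agent.K3h96.IN.tr inl hi χ₁) (Pool.Agent.K3h96.IN.tr inl hi χ₂)
    (Pool.Agent.K3h96.IN.tr_irr inl hi h₁) (Pool.Agent.K3h96.IN.tr_irr inl hi h₂)
  have m1 : Pool.Agent.Y63.AWC.mult (inl : N →* N ⋊[φ] U).range χ'
      (Pool.Agent.K3h96.IN.tr inl hi χ₁) ≠ 0 := by
    intro h0
    apply hn₁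
    rw [Pool.Agent.K3h96.IN.B_tr inl hi χ₁ χ',
      Pool.Agent.Y63.AWC.mult_spec _ h (Pool.Agent.K3h96.IN.tr_irr inl hi h₁), h0, Nat.cast_zero]
  have m2 : Pool.Agent.Y63.AWC.mult (inl : N →* N ⋊[φ] U).range χ'
      (Pool.Agent.K3h96.IN.tr inl hi χ₂) ≠ 0 := by
    intro h0
    apply hn₂
    rw [Pool.Agent.K3h96.IN.B_tr inl hi χ₂ χ',
      Pool.Agent.Y63.AWC.mult_spec _ h (Pool.Agent.K3h96.IN.tr_irr inl hi h₂), h0, Nat.cast_zero]
  have k2 : 0 < ∑ chi ∈ Irr (N ⋊[φ] U), Pool.Agent.Y63.AWC.mult (inl : N →* N ⋊[φ] U).range chi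
      (Pool.Agent.K3h96.IN.tr inl hi χ₁) * Pool.Agent.Y63.AWC.mult (inl : N →* N ⋊[φ] U).range chi
      (Pool.Agent.K3h96.IN.tr inl hi χ₂) := by
    refine Finset.sum_pos' (fun _ _ => Nat.zero_le _) ⟨χ', mem_Irr.mpr h, ?_⟩
    exact Nat.mul_pos (Nat.pos_of_ne_zero m1) (Nat.pos_of_ne_zero m2)
  have k3 : 0 < Nat.card {x : N ⋊[φ] U // Pool.Agent.Y63.AWC.cj (inl : N →* N ⋊[φ] U).range x
      (Pool.Agent.K3h96.IN.tr inl hi χ₂) = Pool.Agent.K3h96.IN.tr inl hi χ₁} := by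
    rw [← k1]
    exact Nat.mul_pos Nat.card_pos k2
  obtain ⟨⟨x, hx⟩⟩ := (Nat.card_pos_iff.mp k3).1
  refine ⟨x.right, fun n => ?_⟩
  have e1 := congrFun hx ⟨inl n, ⟨n, rfl⟩⟩
  rw [Pool.Agent.K3h96.IN.tr_apply] at e1
  rw [← e1]
  unfold Pool.Agent.Y63.AWC.cj
  have e2 : (MulAut.conjNormal x ⟨inl n, ⟨n, rfl⟩⟩ : (inl : N →* N ⋊[φ] U).range) =
      ⟨inl (x.left * φ x.right n * x.left⁻¹), ⟨_, rfl⟩⟩ := by
    apply Subtype.ext
    rw [MulAut.conjNormal_apply]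
    change x * inl n * x⁻¹ = inl (x.left * φ x.right n * x.left⁻¹)
    have e3 : x = inl x.left * inr x.right := (SemidirectProduct.inl_left_mul_inr_right x).symm
    rw [map_mul, map_mul, SemidirectProduct.inl_aut]
    conv_lhs => rw [e3]
    rw [map_inv, map_inv, mul_inv_rev]
    simp only [mul_assoc]
  rw [e2, Pool.Agent.K3h96.IN.tr_apply]
  exact h₂.conj _ _

/-- the decomposition of the restriction -/
theorem cliff_dec {χ' : N ⋊[φ] U → ℂ} (h : IsIrr χ') :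
    ∃ a : ℕ, a ≠ 0 ∧ (∀ χ, IsIrr χ → IC.B (fun n => χ' (inl n)) χ ≠ 0 →
      IC.B (fun n => χ' (inl n)) χ = a) ∧
      (∀ n, χ' (inl n) = a * ∑ χ ∈ (Irr N).filter (fun χ => IC.B (fun n => χ' (inl n)) χ ≠ 0), χ n) ∧
      (∀ χ, IsIrr χ → IC.B (fun n => χ' (inl n)) χ ≠ 0 → ∀ u : U,
        IC.B (fun n => χ' (inl n)) (fun n => χ (φ u n)) ≠ 0) ∧
      ((Irr N).filter (fun χ => IC.B (fun n => χ' (inl n)) χ ≠ 0)).Nonempty := by
  set F : N → ℂ := fun n => χ' (inl n) with hF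
  have hFc : IC.IsClass F := res_class inl h
  have hcj : ∀ (χ : N → ℂ) (u : U), IC.B F (fun n => χ (φ u n)) = IC.B F χ := by
    intro χ u
    rw [← B_aut (φ u) F χ]
    congr 1
    funext n
    exact (res_aut φ h u n).symm
  have hex := IC.expand F hFc
  have hne : ((Irr N).filter (fun χ => IC.B F χ ≠ 0)).Nonempty := by
    by_contra hcon
    rw [Finset.not_nonempty_iff_eq_empty, Finset.filter_eq_empty_iff] at hcon
    have h1 : F = 0 := by
      rw [hex]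
      refine Finset.sum_eq_zero fun χ hχ => ?_
      rw [not_not.mp (hcon hχ), zero_smul]
    have h2 := congrFun h1 1
    have h3 : χ' 1 = 0 := by
      have h4 : F 1 = χ' 1 := by
        change χ' (inl 1) = χ' 1
        rw [map_one]
      rw [← h4, h2]
      rfl
    exact h.one_ne h3
  obtain ⟨χ₀, hχ₀⟩ := hne
  obtain ⟨hi₀, hn₀⟩ := Finset.mem_filter.1 hχ₀
  have hi₀' := mem_Irr.mp hi₀
  obtain ⟨a, ha⟩ := mult_nat inl h hi₀'
  have ha' : ∀ χ, IsIrr χ → IC.B F χ ≠ 0 → IC.B F χ = a := by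
    intro χ hχ hn
    obtain ⟨u, hu⟩ := cliff φ h hχ hi₀' hn hn₀
    have h1 : χ = fun n => χ₀ (φ u n) := funext hu
    rw [h1, hcj, ← ha]
  refine ⟨a, ?_, ha', ?_, ?_, ⟨χ₀, hχ₀⟩⟩
  · rintro rfl
    apply hn₀
    rw [ha' χ₀ hi₀' hn₀, Nat.cast_zero]
  · intro n
    have h1 := congrFun hex n
    change F n = _
    rw [h1, Finset.sum_apply, Finset.mul_sum, Finset.sum_filter]
    refine Finset.sum_congr rfl fun χ hχ => ?_
    rw [Pi.smul_apply, smul_eq_mul]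
    by_cases hn : IC.B F χ ≠ 0
    · rw [if_pos hn, ha' χ (mem_Irr.mp hχ) hn]
    · rw [if_neg hn, not_not.mp hn, zero_mul]
  · intro χ _ hn u
    rw [hcj]
    exact hn

end cliff

end Pool.Agent.ZH17.RD
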