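import Pool.Agent.ZH17.RD.Cny

/-!
# Piece LL, second part: combinatorics of the vectors of the singular values
-/

set_option autoImplicit false
set_option linter.unusedSectionVars false
set_option linter.style.haveILetI false

open scoped BigOperators Classical

noncomputable section

namespace Pool.Agent.ZH17.RD

section us

variable {e f : ℕ}

theorem us_inl (i : Fin f) (j : Fin e) : us i (Sum.inl j : Fin e ⊕ Fin f) = -1 := rfl

theorem us_inr (i k : Fin f) : us i (Sum.inr k : Fin e ⊕ Fin f) = if i = k then 1 else 0 := rfl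

theorem us_inr_self (k : Fin f) : us k (Sum.inr k : Fin e ⊕ Fin f) = 1 := if_pos rfl

theorem us_inr_ne {i k : Fin f} (h : i ≠ k) : us i (Sum.inr k : Fin e ⊕ Fin f) = 0 := if_neg h

theorem us_eq {m m' : Fin e ⊕ Fin f} (h : ∀ i, us i m = us i m') (hf : 0 < f) :
    m = m' ∨ ∃ j j', m = Sum.inl j ∧ m' = Sum.inl j' := by
  rcases m with j | k <;> rcases m' with j' | k'
  · exact Or.inr ⟨j, j', rfl, rfl⟩
  · exfalso
    have := h k'
    rw [us_inl, us_inr_self] at this
    norm_num at this
  · exfalso
    have := h k
    rw [us_inl, us_inr_self] at this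
    norm_num at this
  · left
    have h1 := h k
    rw [us_inr_self] at h1
    by_cases h2 : k = k'
    · rw [h2]
    · rw [us_inr_ne h2] at h1
      exact absurd h1 one_ne_zero

theorem us_eq_inr {m : Fin e ⊕ Fin f} {k : Fin f}
    (h : ∀ i, us i m = us i (Sum.inr k : Fin e ⊕ Fin f)) :
    m = Sum.inr k := by
  rcases us_eq h (Fin.pos k) with h1 | ⟨j, j', -, h2⟩
  · exact h1
  · exact absurd h2 (by simp)

theorem exists_ne_fin (hf : 2 ≤ f) (k : Fin f) : ∃ i, i ≠ k := by
  haveI : Nontrivial (Fin f) := Fin.nontrivial_iff_two_le.mpr hf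
  exact exists_ne k

theorem sgn_us (hf : 2 ≤ f) {m m' : Fin e ⊕ Fin f} {δ : ℤ} (hδ : δ = 1 ∨ δ = -1)
    (h : ∀ i, us i m = δ * us i m') : δ = 1 := by
  rcases hδ with hδ | hδ
  · exact hδ
  exfalso
  rw [hδ] at h
  rcases m with j | k <;> rcases m' with j' | k'
  · have := h ⟨0, by omega⟩
    rw [us_inl, us_inl] at this
    norm_num at this
  · obtain ⟨i, hi⟩ := exists_ne_fin hf k'
    have := h i
    rw [us_inl, us_inr_ne hi] at this
    norm_num at this
  · obtain ⟨i, hi⟩ := exists_ne_fin hf k
    have := h i
    rw [us_inl, us_inr_ne hi] at this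
    norm_num at this
  · have := h k
    rw [us_inr_self] at this
    by_cases h2 : k = k'
    · subst h2
      rw [us_inr_self] at this
      norm_num at this
    · rw [us_inr_ne h2] at this
      norm_num at this

theorem us_bd (i : Fin f) (m : Fin e ⊕ Fin f) : us i m = -1 ∨ us i m = 0 ∨ us i m = 1 := by
  rcases m with j | k
  · exact Or.inl rfl
  · rw [us_inr]
    split_ifs
    · exact Or.inr (Or.inr rfl)
    · exact Or.inr (Or.inl rfl)

theorem nat_one {a n : ℕ} {s t : ℤ} (hs : s = 1 ∨ s = -1) (ht : t = -1 ∨ t = 0 ∨ t = 1) (ht0 : t ≠ 0)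
    (h : (a : ℤ) * (s * n) = t) : a = 1 ∧ n = 1 := by
  have h1 : (a : ℤ) * n = 1 ∨ (a : ℤ) * n = -1 := by
    rcases hs with rfl | rfl <;> rcases ht with rfl | rfl | rfl
    · right; linarith
    · exact absurd rfl ht0
    · left; linarith
    · left; linarith
    · exact absurd rfl ht0
    · right; linarith
  have h2 : a * n = 1 := by
    rcases h1 with h1 | h1
    · exact_mod_cast h1
    · exfalso
      have : (0 : ℤ) ≤ (a : ℤ) * n := by positivity
      omega
  exact ⟨Nat.eq_one_of_mul_eq_one_right h2, Nat.eq_one_of_mul_eq_one_left h2⟩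

/-- the possible orbits -/
theorem comb (he : 0 < e) (hf : 0 < f) (ε : Fin e ⊕ Fin f → ℤ) (hε : ∀ m, ε m = 1 ∨ ε m = -1)
    (O : Finset (Fin e ⊕ Fin f)) (hne : O.Nonempty) (h1 : e = 1 → O ≠ Finset.univ)
    (h2 : 2 ≤ f → ∀ m₁ ∈ O, ∀ m₂ ∈ O, ε m₁ = ε m₂)
    (h3 : 2 ≤ f → 2 ≤ e → ∀ j k, Sum.inl j ∈ O → Sum.inr k ∈ O → False)
    (h4 : f = 1 → 2 ≤ e → ∀ m₁ ∈ O, ∀ m₂ ∈ O, ∀ i, ε m₁ * us i m₁ = ε m₂ * us i m₂) :
    (∃ i, ∑ m ∈ O, ε m * us i m ≠ 0) ∧ ∀ (a : ℕ) (δ : ℤ) (_ : δ = 1 ∨ δ = -1) (m₀ : Fin e ⊕ Fin f),
      (∀ i, (a : ℤ) * ∑ m ∈ O, ε m * us i m = δ * us i m₀) → a = 1 ∧ (O.card = 1 ∨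
        (2 ≤ f ∧ 2 ≤ O.card ∧ (∀ m', m' ∈ O ↔ ¬ ∀ i, us i m' = us i m₀) ∧
          ∀ m' ∈ O, ∀ m'' : Fin e ⊕ Fin f, (∀ i, us i m'' = us i m') → m'' = m')) := by
  have hδt : ∀ {δ t : ℤ}, (δ = 1 ∨ δ = -1) → (t = -1 ∨ t = 0 ∨ t = 1) →
      (δ * t = -1 ∨ δ * t = 0 ∨ δ * t = 1) := by
    rintro δ t (rfl | rfl) (rfl | rfl | rfl) <;> norm_num
  have hδ0 : ∀ {δ t : ℤ}, (δ = 1 ∨ δ = -1) → t ≠ 0 → δ * t ≠ 0 := by
    rintro δ t (rfl | rfl) h <;> simpa using h
  obtain ⟨m₁, hm₁⟩ := hne
  -- case A
  have caseA : ∀ s : ℤ, (s = 1 ∨ s = -1) → (∀ i, ∑ m ∈ O, ε m * us i m = s * O.card) →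
      (∃ i, ∑ m ∈ O, ε m * us i m ≠ 0) ∧ ∀ (a : ℕ) (δ : ℤ) (_ : δ = 1 ∨ δ = -1)
        (m₀ : Fin e ⊕ Fin f), (∀ i, (a : ℤ) * ∑ m ∈ O, ε m * us i m = δ * us i m₀) →
        a = 1 ∧ (O.card = 1 ∨ (2 ≤ f ∧ 2 ≤ O.card ∧ (∀ m', m' ∈ O ↔ ¬ ∀ i, us i m' = us i m₀) ∧
          ∀ m' ∈ O, ∀ m'' : Fin e ⊕ Fin f, (∀ i, us i m'' = us i m') → m'' = m')) := by
    intro s hs hV
    constructor
    · refine ⟨⟨0, hf⟩, ?_⟩
      rw [hV]
      have h5 : (O.card : ℤ) ≠ 0 := by
        have := Finset.card_pos.mpr ⟨m₁, hm₁⟩
        omega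
      exact hδ0 hs h5
    · intro a δ hδ m₀ h
      obtain ⟨i, hi⟩ := us_ne hf m₀
      have h5 := h i
      rw [hV] at h5
      obtain ⟨h6, h7⟩ := nat_one hs (hδt hδ (us_bd i m₀)) (hδ0 hδ hi) h5
      exact ⟨h6, Or.inl h7⟩
  rcases Nat.lt_or_ge 1 f with hf2 | hf2
  swap
  · -- `f = 1`
    have hf1 : f = 1 := by omega
    rcases Nat.lt_or_ge 1 e with he2 | he2
    · refine caseA (ε m₁ * us ⟨0, hf⟩ m₁) ?_ fun i => ?_
      · rcases m₁ with j | k
        · rw [us_inl]
          rcases hε (Sum.inl j) with h | h <;> rw [h] <;> norm_num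
        · have : (⟨0, hf⟩ : Fin f) = k := by
            apply Fin.ext
            have := k.2
            change 0 = (k : ℕ)
            omega
          rw [this, us_inr_self]
          rcases hε (Sum.inr k) with h | h <;> rw [h] <;> norm_num
      · have hi : i = ⟨0, hf⟩ := by
          apply Fin.ext
          have := i.2
          change (i : ℕ) = 0
          omega
        rw [hi, Finset.sum_congr rfl fun m hm => h4 hf1 he2 m hm m₁ hm₁ ⟨0, hf⟩, Finset.sum_const,
          nsmul_eq_mul]
        ring
    · have he1 : e = 1 := by omega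
      have hO := h1 he1
      -- `O` is a singleton
      have hall : ∀ m : Fin e ⊕ Fin f, m = Sum.inl ⟨0, he⟩ ∨ m = Sum.inr ⟨0, hf⟩ := by
        rintro (j | k)
        · left
          congr 1
          apply Fin.ext
          have := j.2
          change (j : ℕ) = 0
          omega
        · right
          congr 1
          apply Fin.ext
          have := k.2
          change (k : ℕ) = 0
          omega
      have hsing : O = {m₁} := by
        refine Finset.eq_singleton_iff_unique_mem.mpr ⟨hm₁, fun m hm => ?_⟩
        by_contra hne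
        apply hO
        ext m'
        simp only [Finset.mem_univ, iff_true]
        rcases hall m with h5 | h5 <;> rcases hall m₁ with h6 | h6 <;> rcases hall m' with h7 | h7 <;>
          first
            | exact absurd (h5.trans h6.symm) hne
            | (rw [h7, ← h5]; exact hm)
            | (rw [h7, ← h6]; exact hm₁)
      refine caseA (ε m₁ * us ⟨0, hf⟩ m₁) ?_ fun i => ?_
      · rcases hall m₁ with h5 | h5
        · rw [h5, us_inl]
          rcases hε (Sum.inl ⟨0, he⟩) with h | h <;> rw [h] <;> norm_num
        · rw [h5, us_inr_self]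
          rcases hε (Sum.inr ⟨0, hf⟩) with h | h <;> rw [h] <;> norm_num
      · have hi : i = ⟨0, hf⟩ := by
          apply Fin.ext
          have := i.2
          change (i : ℕ) = 0
          omega
        rw [hi, hsing, Finset.sum_singleton, Finset.card_singleton, Nat.cast_one, mul_one]
  -- `2 ≤ f`
  have hfe : 2 ≤ f := hf2
  set s := ε m₁ with hs
  have hsε : s = 1 ∨ s = -1 := hε m₁
  have hεs : ∀ m ∈ O, ε m = s := fun m hm => h2 hfe m hm m₁ hm₁
  have hV : ∀ i, ∑ m ∈ O, ε m * us i m = s * ∑ m ∈ O, us i m := by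
    intro i
    rw [Finset.mul_sum]
    exact Finset.sum_congr rfl fun m hm => by rw [hεs m hm]
  -- the sum of the `us`
  by_cases hr : ∃ k, Sum.inr k ∈ O
  swap
  · -- everything `inl`
    refine caseA (-s) ?_ fun i => ?_
    · rcases hsε with h | h <;> rw [h] <;> norm_num
    · rw [hV, Finset.sum_congr rfl fun m hm => (?_ : us i m = -1), Finset.sum_const, nsmul_eq_mul]
      · ring
      · rcases m with j | k
        · rfl
        · exact absurd ⟨k, hm⟩ hr
  obtain ⟨k₁, hk₁⟩ := hr
  by_cases hl : ∃ j, Sum.inl j ∈ O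
  swap
  · -- everything `inr`
    have hW : ∀ i, ∑ m ∈ O, us i m = if Sum.inr i ∈ O then 1 else 0 := by
      intro i
      by_cases hi : Sum.inr i ∈ O
      · rw [if_pos hi, Finset.sum_eq_single (Sum.inr i), us_inr_self]
        · intro m hm hne
          rcases m with j | k
          · exact absurd ⟨j, hm⟩ hl
          · exact us_inr_ne fun h => hne (by rw [h])
        · intro h
          exact absurd hi h
      · rw [if_neg hi, Finset.sum_eq_zero fun m hm => ?_]
        rcases m with j | k
        · exact absurd ⟨j, hm⟩ hl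
        · refine us_inr_ne fun h => hi ?_
          rw [h]
          exact hm
    constructor
    · refine ⟨k₁, ?_⟩
      rw [hV, hW, if_pos hk₁, mul_one]
      rcases hsε with h | h <;> rw [h] <;> norm_num
    · intro a δ hδ m₀ h
      have h5 := h k₁
      rw [hV, hW, if_pos hk₁] at h5
      have hne0 : δ * us k₁ m₀ ≠ 0 := by
        rw [← h5]
        intro h6
        rcases mul_eq_zero.mp h6 with h7 | h7
        · have h8 := us_ne hf m₀
          obtain ⟨i, hi⟩ := h8
          have h9 := h i
          rw [h7, zero_mul] at h9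
          exact hδ0 hδ hi h9.symm
        · rcases hsε with h8 | h8 <;> rw [h8] at h7 <;> norm_num at h7
      obtain ⟨h6, -⟩ := nat_one (n := 1) hsε (hδt hδ (us_bd k₁ m₀)) hne0 (by push_cast; exact h5)
      refine ⟨h6, ?_⟩
      have h7 : ∀ i, us i m₀ ≠ 0 ↔ Sum.inr i ∈ O := by
        intro i
        have h8 := h i
        rw [hV, hW, h6, Nat.cast_one, one_mul] at h8
        constructor
        · intro h9
          by_contra h10
          rw [if_neg h10, mul_zero] at h8
          exact hδ0 hδ h9 h8.symm
        · intro h9 h10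
          rw [if_pos h9, h10, mul_zero, mul_one] at h8
          rcases hsε with h11 | h11 <;> rw [h11] at h8 <;> norm_num at h8
      rcases m₀ with j₀ | k₀
      · right
        have h8 : ∀ i, Sum.inr i ∈ O := fun i => (h7 i).1 (by rw [us_inl]; norm_num)
        refine ⟨hfe, ?_, ?_, ?_⟩
        · obtain ⟨i, hi⟩ := exists_ne_fin hfe k₁
          have h9 : ({Sum.inr i, Sum.inr k₁} : Finset (Fin e ⊕ Fin f)) ⊆ O := by
            intro x hx
            rcases Finset.mem_insert.1 hx with rfl | hx
            · exact h8 i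
            · rw [Finset.mem_singleton.1 hx]
              exact hk₁
          have h10 := Finset.card_le_card h9
          rwa [Finset.card_pair fun h => hi (Sum.inr_injective h)] at h10
        · rintro (j | k)
          · constructor
            · intro h9
              exact absurd ⟨j, h9⟩ hl
            · intro h9
              exact absurd (fun i => rfl) h9
          · constructor
            · intro _ h9
              have h10 := h9 k
              rw [us_inr_self, us_inl] at h10
              norm_num at h10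
            · intro _
              exact h8 k
        · rintro (j | k) h9 m'' h10
          · exact absurd ⟨j, h9⟩ hl
          · exact us_eq_inr h10
      · left
        have h8 : O = {Sum.inr k₀} := by
          refine Finset.eq_singleton_iff_unique_mem.mpr ⟨?_, ?_⟩
          · exact (h7 k₀).1 (by rw [us_inr_self]; norm_num)
          · rintro (j | k) hm
            · exact absurd ⟨j, hm⟩ hl
            · have h9 := (h7 k).2 hm
              by_contra h10
              exact h9 (us_inr_ne fun h => h10 (by rw [h]))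
        rw [h8, Finset.card_singleton]
  · -- `inl` and `inr`
    obtain ⟨j₁, hj₁⟩ := hl
    have he1 : e = 1 := by
      by_contra h5
      exact h3 hfe (by omega) j₁ k₁ hj₁ hk₁
    have hje : ∀ j j' : Fin e, j = j' := by
      intro j j'
      apply Fin.ext
      have := j.2
      have := j'.2
      omega
    have hW : ∀ i, ∑ m ∈ O, us i m = -1 + if Sum.inr i ∈ O then 1 else 0 := by
      intro i
      have h5 : O = insert (Sum.inl j₁) (O.erase (Sum.inl j₁)) := (Finset.insert_erase hj₁).symm
      rw [h5, Finset.sum_insert (Finset.notMem_erase _ _), us_inl, ← h5]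
      congr 1
      by_cases hi : Sum.inr i ∈ O
      · rw [if_pos hi, Finset.sum_eq_single (Sum.inr i), us_inr_self]
        · intro m hm hne
          obtain ⟨hm1, hm2⟩ := Finset.mem_erase.1 hm
          rcases m with j | k
          · exact absurd (by rw [hje j j₁]) hm1
          · exact us_inr_ne fun h => hne (by rw [h])
        · intro h
          exact absurd (Finset.mem_erase.2 ⟨by simp, hi⟩) h
      · rw [if_neg hi, Finset.sum_eq_zero fun m hm => ?_]
        obtain ⟨hm1, hm2⟩ := Finset.mem_erase.1 hm
        rcases m with j | k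
        · exact absurd (by rw [hje j j₁]) hm1
        · refine us_inr_ne fun h => hi ?_
          rw [h]
          exact hm2
    obtain ⟨i₀, hi₀⟩ : ∃ i₀, Sum.inr i₀ ∉ O := by
      by_contra hcon
      push Not at hcon
      apply h1 he1
      ext m
      simp only [Finset.mem_univ, iff_true]
      rcases m with j | k
      · rw [hje j j₁]
        exact hj₁
      · exact hcon k
    constructor
    · refine ⟨i₀, ?_⟩
      rw [hV, hW, if_neg hi₀]
      rcases hsε with h | h <;> rw [h] <;> norm_num
    · intro a δ hδ m₀ h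
      have h5 := h i₀
      rw [hV, hW, if_neg hi₀] at h5
      have hne0 : δ * us i₀ m₀ ≠ 0 := by
        rw [← h5]
        intro h6
        rcases mul_eq_zero.mp h6 with h7 | h7
        · have h8 := us_ne hf m₀
          obtain ⟨i, hi⟩ := h8
          have h9 := h i
          rw [h7, zero_mul] at h9
          exact hδ0 hδ hi h9.symm
        · rcases hsε with h8 | h8 <;> rw [h8] at h7 <;> norm_num at h7
      obtain ⟨h6, -⟩ := nat_one (n := 1) (s := -s) (by
        rcases hsε with h | h <;> rw [h] <;> norm_num) (hδt hδ (us_bd i₀ m₀)) hne0 (by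
          push_cast
          linarith)
      refine ⟨h6, ?_⟩
      have h7 : ∀ i, us i m₀ ≠ 0 ↔ Sum.inr i ∉ O := by
        intro i
        have h8 := h i
        rw [hV, hW, h6, Nat.cast_one, one_mul] at h8
        constructor
        · intro h9 h10
          rw [if_pos h10, neg_add_cancel, mul_zero] at h8
          exact hδ0 hδ h9 h8.symm
        · intro h9 h10
          rw [if_neg h9, h10, mul_zero, add_zero] at h8
          rcases hsε with h11 | h11 <;> rw [h11] at h8 <;> norm_num at h8
      rcases m₀ with j₀ | k₀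
      · left
        have h8 : O = {Sum.inl j₁} := by
          refine Finset.eq_singleton_iff_unique_mem.mpr ⟨hj₁, ?_⟩
          rintro (j | k) hm
          · rw [hje j j₁]
          · exact absurd hm ((h7 k).1 (by rw [us_inl]; norm_num))
        rw [h8, Finset.card_singleton]
      · right
        have h8 : Sum.inr k₀ ∉ O := (h7 k₀).1 (by rw [us_inr_self]; norm_num)
        have h9 : ∀ i, i ≠ k₀ → Sum.inr i ∈ O := by
          intro i hi
          by_contra h10
          exact (h7 i).2 h10 (us_inr_ne hi)
        refine ⟨hfe, ?_, ?_, ?_⟩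
        · have h11 : ({Sum.inl j₁, Sum.inr k₁} : Finset (Fin e ⊕ Fin f)) ⊆ O := by
            intro x hx
            rcases Finset.mem_insert.1 hx with rfl | hx
            · exact hj₁
            · rw [Finset.mem_singleton.1 hx]
              exact hk₁
          have h10 := Finset.card_le_card h11
          rwa [Finset.card_pair (by simp)] at h10
        · rintro (j | k)
          · constructor
            · intro _ h10
              have h11 := h10 k₀
              rw [us_inr_self, us_inl] at h11
              norm_num at h11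
            · intro _
              rw [hje j j₁]
              exact hj₁
          · constructor
            · intro h10 h11
              have h12 := us_eq_inr h11
              rw [h12] at h10
              exact h8 h10
            · intro h10
              refine h9 k fun h11 => h10 fun i => ?_
              rw [h11]
        · rintro (j | k) h10 m'' h11
          · rcases us_eq h11 hf with h12 | ⟨j', j'', h12, h13⟩
            · exact h12
            · rw [h12, hje j' j]
          · exact us_eq_inr h11

end us

end Pool.Agent.ZH17.RD
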