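import Pool.Agent.ZH17.RD.LlA
import Pool.Agent.ZH17.RD.LlB

/-!
# Piece LL, third part: automorphisms and the correspondence of characters
-/

set_option autoImplicit false
set_option linter.unusedSectionVars false
set_option linter.style.haveILetI false

open scoped BigOperators Classical

noncomputable section

namespace Pool.Agent.ZH17.RD

open Pool.Agent.Helper884 Pool.Agent.K3h3.KB Pool.Agent.K3h3.MK Pool.Agent.K3h83.IN
open Pool.Agent.K3h33.CY
open Pool.Agent.H254R3.IN (IsIrr mem_Irr)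
open Pool.Agent.K3h18.IN (irr_infl)
open IC (Irr)
open SemidirectProduct

theorem pm_mul {a b : ℤ} (ha : a = 1 ∨ a = -1) (hb : b = 1 ∨ b = -1) : a * b = 1 ∨ a * b = -1 := by
  rcases ha with rfl | rfl <;> rcases hb with rfl | rfl <;> norm_num

theorem pm_sq {a : ℤ} (ha : a = 1 ∨ a = -1) : a * a = 1 := by
  rcases ha with rfl | rfl <;> norm_num

/-- orbits -/
theorem card_dvd {N U M : Type} [Group N] [Group U] [Finite U] [Fintype M] [Nonempty M]
    (φ : U →* MulAut N) (b : M → N → ℂ) (hb : Function.Injective b)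
    (h1 : ∀ m₁ m₂ : M, ∃ u, ∀ n, b m₁ n = b m₂ (φ u n))
    (h2 : ∀ u, (∃ m m', ∀ n, b m' n = b m (φ u n)) → ∀ m, ∃ m', ∀ n, b m' n = b m (φ u n)) :
    Fintype.card M ∣ Nat.card U := by
  let S : Subgroup U :=
    { carrier := {u | ∀ m, ∃ m', ∀ n, b m' n = b m (φ u n)}
      one_mem' := fun m => ⟨m, fun n => by rw [map_one]; rfl⟩
      mul_mem' := by
        intro u v hu hv m
        obtain ⟨m', h⟩ := hu m
        obtain ⟨m'', h'⟩ := hv m'
        refine ⟨m'', fun n => ?_⟩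
        rw [h', h, map_mul, MulAut.mul_apply]
      inv_mem' := by
        intro u hu
        obtain ⟨m⟩ := (inferInstance : Nonempty M)
        obtain ⟨m', h⟩ := hu m
        refine h2 u⁻¹ ⟨m', m, fun n => ?_⟩
        rw [h, ← MulAut.mul_apply, ← map_mul, mul_inv_cancel, map_one]
        rfl }
  choose r hr using fun (u : S) (m : M) => (u⁻¹).2 m
  letI : MulAction S M :=
    { smul := fun u m => r u m
      one_smul := by
        intro m
        apply hb
        funext n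
        change b (r 1 m) n = b m n
        rw [hr, inv_one]
        change b m (φ 1 n) = b m n
        rw [map_one]
        rfl
      mul_smul := by
        intro u v m
        apply hb
        funext n
        change b (r (u * v) m) n = b (r u (r v m)) n
        rw [hr, hr, hr, mul_inv_rev]
        change b m (φ ((v⁻¹ : S) * (u⁻¹ : S) : U) n) = _
        rw [map_mul, MulAut.mul_apply] }
  have hpre : MulAction.IsPretransitive S M := by
    constructor
    intro m₁ m₂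
    obtain ⟨u, hu⟩ := h1 m₂ m₁
    have hS : u ∈ S := h2 u ⟨m₁, m₂, hu⟩
    refine ⟨(⟨u, hS⟩ : S)⁻¹, ?_⟩
    apply hb
    funext n
    change b (r _ m₁) n = b m₂ n
    rw [hr, inv_inv, hu]
  obtain ⟨m⟩ := (inferInstance : Nonempty M)
  have h3 := MulAction.index_stabilizer_of_transitive S m
  rw [← Nat.card_eq_fintype_card, ← h3]
  exact (Subgroup.index_dvd_card _).trans (Subgroup.card_subgroup_dvd_card S)

section

variable {p : ℕ} [hp : Fact p.Prime] {B X Ω : Type} [Group B] [Fintype B] [Group X] [Fintype X]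
  [Fintype Ω] {e f : Ω → ℕ} {ι : B →* X} {T : Tab p B Ω e f}

theorem B_zero' (h : B → ℂ) : IC.B (0 : B → ℂ) h = 0 := by
  unfold IC.B
  simp

theorem cor_B (c : Cor p ι T) (ω : Ω) (m : Fin (e ω) ⊕ Fin (f ω)) (ω' : Ω) (i : Fin (f ω')) :
    IC.B (fun g => c.b ω m (ι g)) (T.β ω' i) = (c.ε ω m : ℂ) * IC.B (T.t ⟨ω, m⟩) (T.β ω' i) := by
  rw [B_sing T (F' := (c.ε ω m : ℂ) • T.t ⟨ω, m⟩) (fun g hg => ?_) ω' i, IC.B_smul_left]
  rw [c.sin ω m g hg]
  rfl

theorem nes (T : Tab p B Ω e f) (m : (Σ ω, Fin (e ω) ⊕ Fin (f ω))) :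
    ∃ g : B, p ∣ orderOf g ∧ T.t m g ≠ 0 := by
  obtain ⟨ω, m⟩ := m
  by_contra hcon
  push Not at hcon
  obtain ⟨i, hi⟩ := us_ne (T.f0 ω) m
  have h1 := B_us T ω m i
  rw [B_sing T (F' := 0) (fun g hg => hcon g hg) ω i, B_zero'] at h1
  exact hi (by exact_mod_cast h1.symm)

/-- the characters of `B` which agree up to sign with a given one -/
theorem tab_of (T : Tab p B Ω e f) {θ : B → ℂ} (hθ : IsIrr θ) (ω : Ω) (m : Fin (e ω) ⊕ Fin (f ω))
    {δ : ℤ} (hδ : δ = 1 ∨ δ = -1) (h : ∀ g, p ∣ orderOf g → θ g = δ * T.t ⟨ω, m⟩ g) :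
    ∃ m', T.t ⟨ω, m'⟩ = θ ∧ ∀ i, us i m' = δ * us i m := by
  obtain ⟨⟨ω', m'⟩, h1⟩ := T.sur θ hθ
  have h2 : T.t ⟨ω', m'⟩ = θ := h1
  have h3 : ∀ i, IC.B θ (T.β ω i) = (δ : ℂ) * us i m := by
    intro i
    rw [B_sing T (F' := (δ : ℂ) • T.t ⟨ω, m⟩) (fun g hg => ?_) ω i, IC.B_smul_left, B_us]
    rw [h g hg]
    rfl
  by_cases hω : ω' = ω
  · subst hω
    refine ⟨m', h2, fun i => ?_⟩
    have h4 := h3 i
    rw [← h2, B_us] at h4
    exact_mod_cast h4
  · exfalso
    obtain ⟨i, hi⟩ := us_ne (T.f0 ω) m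
    have h4 := h3 i
    rw [← h2, T.B_ne (m := ⟨ω', m'⟩) hω i] at h4
    have h5 : δ * us i m = 0 := by exact_mod_cast h4.symm
    rcases mul_eq_zero.mp h5 with h6 | h6
    · rcases hδ with h7 | h7 <;> rw [h7] at h6 <;> norm_num at h6
    · exact hi h6

/-- the characters of `X` which agree up to sign with a given character of `B` -/
theorem cor_of (c : Cor p ι T) {χ : X → ℂ} (hχ : IsIrr χ) (ω : Ω) (m : Fin (e ω) ⊕ Fin (f ω))
    {δ : ℤ} (hδ : δ = 1 ∨ δ = -1) (h : ∀ g, p ∣ orderOf g → χ (ι g) = δ * T.t ⟨ω, m⟩ g) :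
    ∃ m', c.b ω m' = χ ∧ ∀ i, c.ε ω m' * us i m' = δ * us i m := by
  have h3 : ∀ i, IC.B (fun g => χ (ι g)) (T.β ω i) = (δ : ℂ) * us i m := by
    intro i
    rw [B_sing T (F' := (δ : ℂ) • T.t ⟨ω, m⟩) (fun g hg => ?_) ω i, IC.B_smul_left, B_us]
    rw [h g hg]
    rfl
  obtain ⟨i, hi⟩ := us_ne (T.f0 ω) m
  have h5 : (δ : ℂ) * us i m ≠ 0 := by
    intro h5
    have h5 : δ * us i m = 0 := by exact_mod_cast h5
    rcases mul_eq_zero.mp h5 with h6 | h6
    · rcases hδ with h7 | h7 <;> rw [h7] at h6 <;> norm_num at h6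
    · exact hi h6
  rcases c.oth χ hχ with ⟨ω', m', rfl⟩ | ⟨h2, -⟩
  · by_cases hω : ω' = ω
    · subst hω
      refine ⟨m', rfl, fun i => ?_⟩
      have h4 := h3 i
      rw [cor_B, B_us] at h4
      exact_mod_cast h4
    · exfalso
      have h4 := h3 i
      rw [cor_B, T.B_ne (m := ⟨ω', m'⟩) hω i, mul_zero] at h4
      exact h5 h4.symm
  · exfalso
    have h4 := h3 i
    rw [B_sing T (F' := 0) (fun g hg => h2 g hg) ω i, B_zero'] at h4
    exact h5 h4.symm

theorem sing_aut (z : MulAut B) {g : B} (hg : p ∣ orderOf g) : p ∣ orderOf (z g) := by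
  rw [MulEquiv.orderOf_eq]
  exact hg

/-- conjugate characters -/
theorem lemA (c : Cor p ι T) (y : MulAut X) (z : MulAut B) (hyz : ∀ b, ι (z b) = y (ι b)) (ω : Ω)
    (m₁ m₂ : Fin (e ω) ⊕ Fin (f ω)) (h : ∀ n, c.b ω m₁ n = c.b ω m₂ (y n)) :
    ∃ m₃, (∀ g, T.t ⟨ω, m₂⟩ (z g) = T.t ⟨ω, m₃⟩ g) ∧
      ∀ i, us i m₃ = c.ε ω m₂ * c.ε ω m₁ * us i m₁ := by
  obtain ⟨m₃, h1, h2⟩ := tab_of T (aut_irr z (T.t_irr ⟨ω, m₂⟩)) ω m₁
    (pm_mul (c.sgn ω m₂) (c.sgn ω m₁)) (fun g hg => by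
      have h1 := c.sin ω m₂ (z g) (sing_aut z hg)
      rw [hyz, ← h, c.sin ω m₁ g hg] at h1
      have h2 : (c.ε ω m₂ : ℂ) * c.ε ω m₂ = 1 := by exact_mod_cast pm_sq (c.sgn ω m₂)
      push_cast
      rw [mul_assoc, h1, ← mul_assoc, h2, one_mul])
  exact ⟨m₃, fun g => (congrFun h1 g).symm, h2⟩

/-- an automorphism of `B` which maps a non-exceptional character to an exceptional one -/
theorem e_one (T : Tab p B Ω e f) (z : MulAut B) (ω : Ω) (j : Fin (e ω)) (k : Fin (f ω))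
    (h : ∀ g, T.t ⟨ω, Sum.inl j⟩ (z g) = T.t ⟨ω, Sum.inr k⟩ g) : e ω = 1 := by
  have h1 : ∀ j', j' = j := by
    intro j'
    obtain ⟨m₃, h1, h2⟩ := tab_of T (aut_irr z (T.t_irr ⟨ω, Sum.inl j'⟩)) ω (Sum.inr k)
      (Or.inl rfl) (fun g hg => by
        have h1 := T.sing ω j (z g) (sing_aut z hg)
        have h2 := T.sing ω j' (z g) (sing_aut z hg)
        have h3 := h g
        change T.ξ ω j (z g) = _ at h3
        change T.ξ ω j' (z g) = _
        rw [← h3]
        push_cast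
        linear_combination h2 - h1)
    have h3 : m₃ = Sum.inr k := us_eq_inr fun i => by rw [h2 i, one_mul]
    rw [h3] at h1
    have h4 : T.t ⟨ω, Sum.inl j'⟩ = T.t ⟨ω, Sum.inl j⟩ := by
      funext g
      obtain ⟨g, rfl⟩ := z.surjective g
      rw [h g, h1]
    have h5 := T.t_inj h4
    simpa using h5
  have h2 := T.e0 ω
  by_contra hne
  haveI : Nontrivial (Fin (e ω)) := Fin.nontrivial_iff_two_le.mpr (by omega)
  obtain ⟨j', hj'⟩ := exists_ne j
  exact hj' (h1 j')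

/-- the number of exceptional characters -/
theorem dvd_f (T : Tab p B Ω e f) (Q : Subgroup B) (hQ : Q.Normal) (hcQ : Nat.card Q = p) (ω : Ω)
    (he : e ω = 1) : p ∣ f ω + 1 := by
  haveI := Fintype.ofFinite Q
  let j₀ : Fin (e ω) := ⟨0, T.e0 ω⟩
  have hj : ∀ j, j = j₀ := by
    intro j
    apply Fin.ext
    have := j.2
    change (j : ℕ) = 0
    omega
  have hcast : T.ξ ω j₀ 1 = (ndeg (T.ξ ω j₀) : ℂ) := (ndeg_cast (T.irrξ ω j₀)).symm
  have hpos := ndeg_pos (T.irrξ ω j₀)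
  set x := ndeg (T.ξ ω j₀) with hx
  have hE : ∀ i, T.ψ ω i 1 = (x : ℂ) := by
    intro i
    rw [T.reg ω i 1 (by rw [orderOf_one]; exact hp.out.one_lt.ne' ∘ Nat.dvd_one.mp),
      Finset.sum_eq_single j₀ (fun j _ h => absurd (hj j) h) (fun h => absurd (Finset.mem_univ _) h),
      hcast]
  have h1 : ∀ θ : B → ℂ, IsIrr θ → ∃ n : ℕ, ∑ c : Q, θ c = p * n * θ 1 := by
    intro θ hθ
    rcases sum_Q Q hQ hθ with h | h
    · exact ⟨0, by rw [h]; push_cast; ring⟩
    · refine ⟨1, ?_⟩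
      rw [h, hcQ]
      push_cast
      ring
  obtain ⟨n, hn⟩ := h1 _ (T.irrξ ω j₀)
  choose m hm using fun i => h1 _ (T.irrψ ω i)
  have h2 : ∑ c : Q, ((∑ i, T.ψ ω i c) + T.ξ ω j₀ c) = (∑ i, T.ψ ω i 1) + T.ξ ω j₀ 1 := by
    rw [Finset.sum_eq_single 1]
    · rfl
    · intro c _ hc
      refine T.sing ω j₀ c ?_
      have h3 : orderOf c ∣ p := hcQ ▸ orderOf_dvd_natCard c
      rw [Subgroup.orderOf_coe]
      rcases (Nat.dvd_prime hp.out).1 h3 with h4 | h4
      · exact absurd (orderOf_eq_one_iff.1 h4) hc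
      · rw [h4]
    · intro h
      exact absurd (Finset.mem_univ _) h
  rw [Finset.sum_add_distrib, Finset.sum_comm, Finset.sum_congr rfl fun i _ => hm i, hn,
    Finset.sum_congr rfl fun i _ => by rw [hE i], Finset.sum_congr rfl fun i _ => hE i, hcast,
    Finset.sum_const, Finset.card_univ, Fintype.card_fin, nsmul_eq_mul] at h2
  have h4 : ((p * ((∑ i, m i) + n) * x : ℕ) : ℂ) = (((f ω + 1) * x : ℕ) : ℂ) := by
    push_cast
    rw [add_mul, one_mul, ← h2, ← Finset.sum_mul, ← Finset.mul_sum]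
    ring
  have h5 : p * ((∑ i, m i) + n) * x = (f ω + 1) * x := by exact_mod_cast h4
  exact ⟨_, (Nat.eq_of_mul_eq_mul_right hpos h5).symm⟩

/-- automorphisms permute the families with one non-exceptional character -/
theorem block (c : Cor p ι T) (y : MulAut X) (z : MulAut B) (hyz : ∀ b, ι (z b) = y (ι b)) (ω : Ω)
    (he : e ω = 1) (h : ∃ m m', ∀ n, c.b ω m' n = c.b ω m (y n)) :
    ∀ m, ∃ m', ∀ n, c.b ω m' n = c.b ω m (y n) := by
  let j₀ : Fin (e ω) := ⟨0, T.e0 ω⟩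
  have hj : ∀ j, j = j₀ := by
    intro j
    apply Fin.ext
    have := j.2
    change (j : ℕ) = 0
    omega
  -- the vector of the conjugate characters outside of the family
  have hout : ∀ m, (¬ ∃ m', ∀ n, c.b ω m' n = c.b ω m (y n)) → ∀ i,
      IC.B (fun g => c.b ω m (y (ι g))) (T.β ω i) = 0 := by
    intro m hm i
    rcases c.oth _ (aut_irr y (c.irr ω m)) with ⟨ω', m', h1⟩ | ⟨h1, -⟩
    · have h2 : (fun g => c.b ω m (y (ι g))) = fun g => c.b ω' m' (ι g) := by
        funext g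
        exact (congrFun h1 (ι g)).symm
      rw [h2, cor_B]
      by_cases hω : ω' = ω
      · subst hω
        exact absurd ⟨m', fun n => congrFun h1 n⟩ hm
      · rw [T.B_ne (m := ⟨ω', m'⟩) hω i, mul_zero]
    · rw [B_sing T (F' := 0) (fun g hg => h1 g hg) ω i, B_zero']
  set S : Finset (Fin (e ω) ⊕ Fin (f ω)) := Finset.univ.filter fun m =>
    ∃ m', ∀ n, c.b ω m' n = c.b ω m (y n) with hS
  have hmu : ∀ m : Fin (e ω) ⊕ Fin (f ω), ∃ m' : Fin (e ω) ⊕ Fin (f ω),
      (∃ m', ∀ n, c.b ω m' n = c.b ω m (y n)) → ∀ n, c.b ω m' n = c.b ω m (y n) := by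
    intro m
    by_cases h : ∃ m', ∀ n, c.b ω m' n = c.b ω m (y n)
    · exact ⟨h.choose, fun _ => h.choose_spec⟩
    · exact ⟨m, fun h' => absurd h' h⟩
  choose μ hμ using hmu
  have hμ' : ∀ m ∈ S, ∀ n, c.b ω (μ m) n = c.b ω m (y n) :=
    fun m hm => hμ m (Finset.mem_filter.1 hm).2
  have hμinj : ∀ m ∈ S, ∀ m' ∈ S, μ m = μ m' → m = m' := by
    intro m hm m' hm' h1
    apply c.inj ω
    funext n
    obtain ⟨n, rfl⟩ := y.surjective n
    rw [← hμ' m hm, ← hμ' m' hm', h1]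
  -- the relation
  have hrel : ∀ i, ∑ m ∈ S, c.ε ω m * (c.ε ω (μ m) * us i (μ m)) = 0 := by
    intro i
    have h1 : IC.B (∑ m, (c.ε ω m : ℂ) • fun g => c.b ω m (y (ι g))) (T.β ω i) = 0 := by
      rw [B_sing T (F' := 0) (fun g hg => ?_) ω i, B_zero']
      rw [Finset.sum_apply]
      have h2 := T.sing ω j₀ (z g) (sing_aut z hg)
      rw [Fintype.sum_sum_type, Finset.sum_eq_single j₀ (fun j _ h => absurd (hj j) h)
        (fun h => absurd (Finset.mem_univ _) h)]
      have h3 : ∀ m : Fin (e ω) ⊕ Fin (f ω), ((c.ε ω m : ℂ) • fun g => c.b ω m (y (ι g))) g =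
          T.t ⟨ω, m⟩ (z g) := by
        intro m
        rw [Pi.smul_apply, smul_eq_mul, ← hyz, c.sin ω m (z g) (sing_aut z hg), ← mul_assoc]
        have h4 : (c.ε ω m : ℂ) * c.ε ω m = 1 := by exact_mod_cast pm_sq (c.sgn ω m)
        rw [h4, one_mul]
      rw [h3, Finset.sum_congr rfl fun i _ => h3 (Sum.inr i), add_comm]
      exact h2
    rw [IC.B_sum_left] at h1
    have h2 : ∑ m ∈ S, ((c.ε ω m : ℂ) * (c.ε ω (μ m) * us i (μ m))) = 0 := by
      rw [← h1, hS, Finset.sum_filter]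
      refine Finset.sum_congr rfl fun m _ => ?_
      rw [IC.B_smul_left]
      by_cases hm : ∃ m', ∀ n, c.b ω m' n = c.b ω m (y n)
      · rw [if_pos hm]
        have h3 : (fun g => c.b ω m (y (ι g))) = fun g => c.b ω (μ m) (ι g) := by
          funext g
          exact (hμ m hm (ι g)).symm
        rw [h3, cor_B, B_us]
      · rw [if_neg hm, hout m hm i, mul_zero]
    exact_mod_cast h2
  -- `inl j₀` is in the image
  have hsig : ∀ m m', c.ε ω m * (c.ε ω m' * 1) ≠ 0 := by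
    intro m m'
    rw [mul_one]
    rcases pm_mul (c.sgn ω m) (c.sgn ω m') with h1 | h1 <;> rw [h1] <;> norm_num
  have hone : ∀ m ∈ S, ∀ k, μ m = Sum.inr k → ∃ m₀ ∈ S, μ m₀ = Sum.inl j₀ := by
    intro m hm k hk
    by_contra hcon
    push Not at hcon
    have h1 := hrel k
    rw [Finset.sum_eq_single m] at h1
    · rw [hk, us_inr_self] at h1
      exact hsig _ _ h1
    · intro m' hm' hne
      rcases hmm : μ m' with j | k'
      · exact absurd (by rw [hmm, hj j]) (hcon m' hm')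
      · have : k ≠ k' := by
          rintro rfl
          exact hne (hμinj m' hm' m hm (by rw [hmm, hk]))
        rw [us_inr_ne this, mul_zero, mul_zero]
    · intro h
      exact absurd hm h
  obtain ⟨m₀, hm₀, hμ₀⟩ : ∃ m₀ ∈ S, μ m₀ = Sum.inl j₀ := by
    obtain ⟨m, hm⟩ := h
    have hmS : m ∈ S := Finset.mem_filter.2 ⟨Finset.mem_univ _, hm⟩
    rcases hmm : μ m with j | k
    · exact ⟨m, hmS, by rw [hmm, hj j]⟩
    · exact hone m hmS k hmm
  have hall : ∀ k, ∃ m ∈ S, μ m = Sum.inr k := by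
    intro k
    by_contra hcon
    push Not at hcon
    have h1 := hrel k
    rw [Finset.sum_eq_single m₀] at h1
    · rw [hμ₀, us_inl] at h1
      apply hsig m₀ (Sum.inl j₀)
      linarith
    · intro m' hm' hne
      rcases hmm : μ m' with j | k'
      · exact absurd (hμinj m' hm' m₀ hm₀ (by rw [hmm, hμ₀, hj j])) hne
      · have : k ≠ k' := by
          rintro rfl
          exact hcon m' hm' hmm
        rw [us_inr_ne this, mul_zero, mul_zero]
    · intro h
      exact absurd hm₀ h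
  have himg : S.image μ = Finset.univ := by
    ext m
    simp only [Finset.mem_univ, iff_true]
    rcases m with j | k
    · rw [hj j]
      exact Finset.mem_image.2 ⟨m₀, hm₀, hμ₀⟩
    · obtain ⟨m, hm, h1⟩ := hall k
      exact Finset.mem_image.2 ⟨m, hm, h1⟩
  have hcard : S.card = (Finset.univ : Finset (Fin (e ω) ⊕ Fin (f ω))).card := by
    rw [← himg]
    exact (Finset.card_image_of_injOn fun a ha b hb => hμinj a ha b hb).symm
  have hSu : S = Finset.univ := Finset.eq_univ_of_card S hcard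
  intro m
  have : m ∈ S := by rw [hSu]; exact Finset.mem_univ _
  exact (Finset.mem_filter.1 this).2

end

end Pool.Agent.ZH17.RD
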