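import Pool.Agent.ZH17.RD.Out

/-!
# `Ast Q` is generated by `NN Q` and one element, if the outer automorphism group is cyclic
-/

set_option autoImplicit false
set_option linter.unusedSectionVars false

open scoped BigOperators Classical

noncomputable section

namespace Pool.Agent.ZH17.RD

open Pool.Agent.Helper884 Pool.Agent.K3h3.KB Pool.Agent.K3h3.MK Pool.Agent.K3h83.IN
open Pool.Agent.H254R3.IN (IsIrr mem_Irr)
open OutP

theorem out2 (p : ℕ) [Fact p.Prime] (N : Type) [Group N] [Finite N] (S : Type) [Group S]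
    [Finite S] (hN : commutator N = ⊤) (he : Nonempty ((N ⧸ Subgroup.center N) ≃* S))
    (b : MulAut S) (hgen : ∀ c : MulAut S, ∃ (s : S) (k : ℕ), c = MulAut.conj s * b ^ k)
    (Q : Sylow p N) :
    ∃ a ∈ Ast (Q : Subgroup N),
      ∀ c ∈ Ast (Q : Subgroup N), ∃ (m : NN Q) (k : ℕ), c = MulAut.conj (m : N) * a ^ k := by
  obtain ⟨e⟩ := he
  set Inn : Subgroup (MulAut S) := (MulAut.conj : S →* MulAut S).range with hInn
  have : Inn.Normal := inn_normal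
  -- the outer group is cyclic
  let q : MulAut S →* MulAut S ⧸ Inn := QuotientGroup.mk' Inn
  have hq1 : ∀ c : MulAut S, q c = 1 ↔ ∃ s : S, c = MulAut.conj s := by
    intro c
    constructor
    · intro h
      obtain ⟨s, hs⟩ : c ∈ Inn := (QuotientGroup.eq_one_iff c).1 h
      exact ⟨s, hs.symm⟩
    · rintro ⟨s, rfl⟩
      exact (QuotientGroup.eq_one_iff _).2 ⟨s, rfl⟩
  have hcyc : ∀ x : MulAut S ⧸ Inn, ∃ k : ℕ, x = q b ^ k := by
    intro x
    obtain ⟨c, rfl⟩ := QuotientGroup.mk'_surjective Inn x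
    obtain ⟨s, k, rfl⟩ := hgen c
    refine ⟨k, ?_⟩
    show q _ = _
    rw [map_mul, map_pow, (hq1 _).2 ⟨s, rfl⟩, one_mul]
  have : IsCyclic (MulAut S ⧸ Inn) := by
    refine ⟨q b, fun x => ?_⟩
    obtain ⟨k, hk⟩ := hcyc x
    exact ⟨k, by rw [hk]; exact zpow_natCast _ _⟩
  let A : Subgroup (MulAut N) := Ast (Q : Subgroup N)
  let φ : A →* MulAut S ⧸ Inn := q.comp ((rho e).comp A.subtype)
  obtain ⟨⟨g, hg⟩, hgen'⟩ := (inferInstance : IsCyclic φ.range).exists_generator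
  obtain ⟨a₀, ha₀⟩ := hg
  refine ⟨(a₀ : MulAut N), a₀.2, ?_⟩
  intro c hc
  have h1 : (⟨φ ⟨c, hc⟩, ⟨⟨c, hc⟩, rfl⟩⟩ : φ.range) ∈ Subgroup.zpowers
      (⟨g, ⟨a₀, ha₀⟩⟩ : φ.range) := hgen' _
  rw [← mem_powers_iff_mem_zpowers] at h1
  obtain ⟨j, hj⟩ := h1
  have hj' : g ^ j = φ ⟨c, hc⟩ := congrArg Subtype.val hj
  -- the difference
  have h2 : φ (⟨c, hc⟩ * (a₀ ^ j)⁻¹) = 1 := by
    rw [map_mul, map_inv, map_pow, ha₀, hj', mul_inv_cancel]
  obtain ⟨s, hs⟩ := (hq1 _).1 h2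
  obtain ⟨n, rfl⟩ := pr_surj e s
  rw [← rho_conj] at hs
  have h3 := rho_inj e hN hs
  have h4 : c = MulAut.conj n * (a₀ : MulAut N) ^ j := by
    have h5 : (A.subtype (⟨c, hc⟩ * (a₀ ^ j)⁻¹) : MulAut N) = c * ((a₀ : MulAut N) ^ j)⁻¹ := by
      simp
    rw [h5] at h3
    rw [← h3, inv_mul_cancel_right]
  have h6 : MulAut.conj n ∈ A := by
    have h7 : MulAut.conj n = c * ((a₀ : MulAut N) ^ j)⁻¹ := by
      rw [h4, mul_inv_cancel_right]
    rw [h7]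
    exact A.mul_mem hc (A.inv_mem (A.pow_mem a₀.2 _))
  refine ⟨⟨n, ?_⟩, j, h4⟩
  show n ∈ Subgroup.normalizer _
  rw [Subgroup.mem_normalizer_iff]
  intro x
  exact ((mem_Ast.1 h6).1 x).symm

end Pool.Agent.ZH17.RD
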