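import Pool.Agent.ZH17.RD.LnkgA
import Pool.Agent.ZH17.RD.Out2
import Pool.Agent.ZH17.RD.Ext

/-!
# Piece LNKG: the linking condition from Q1 for almost quasi-simple groups
-/

set_option autoImplicit false
set_option linter.unusedSectionVars false
set_option linter.style.haveILetI false

open scoped BigOperators Classical

noncomputable section

namespace Pool.Agent.ZH17.RD

open Pool.Agent.Helper884 Pool.Agent.K3h3.KB Pool.Agent.K3h3.MK Pool.Agent.K3h83.IN
open Pool.Agent.H254R3.IN (IsIrr mem_Irr)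
open IC (Irr)
open SemidirectProduct LnkgP

/-- the bijection from Q1 for the quotients of the groups `N ⋊ ⟨a ^ s⟩` and `NN Q ⋊ ⟨a ^ s⟩` -/
theorem eq_of_q2 (p : ℕ) [Fact p.Prime] (N : Type) [Group N] [Finite N] (Q : Sylow p N)
    (a : MulAut N) (ha : a ∈ Ast (Q : Subgroup N))
    (hX : ∀ (s : ℕ) (K : Subgroup (Gb (a ^ s))) [K.Normal],
      K ≤ ((inl : N →* Gb (a ^ s)).comp (Subgroup.center N).subtype).range →
        Q1 p (Gb (a ^ s) ⧸ K))
    (hY : ∀ (s : ℕ) (K : Subgroup (Yb Q (a ^ s))) [K.Normal], Q1 p (Yb Q (a ^ s) ⧸ K)) :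
    ∃ β : X p N ≃ X p (NN Q), (∀ χ : X p N, cl p (ndeg χ.1) = cl p (ndeg (β χ).1)) ∧
      (∀ (χ : X p N) (z : NN Q), (z : N) ∈ Subgroup.center N →
        (β χ).1 z * χ.1 1 = χ.1 z * (β χ).1 1) ∧
      ∀ χ χ' : X p N, (∀ n, χ'.1 n = χ.1 (a n)) → ∀ m m' : NN Q, (m' : N) = a m →
        (β χ').1 m = (β χ).1 m' := by
  have hz : (Subgroup.center N).subtype.range ≤ Subgroup.center N := by
    rw [Subgroup.range_subtype]
  have hz' : (zq Q).range ≤ Subgroup.center (NN Q) := by
    rintro _ ⟨c, rfl⟩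
    rw [Subgroup.mem_center_iff]
    intro x
    exact Subtype.ext (Subgroup.mem_center_iff.mp c.2 (x : N))
  have h1 : ∀ (b : MulAut N), b ∈ Ast (Q : Subgroup N) →
      ∀ c, b ((Subgroup.center N).subtype c) = (Subgroup.center N).subtype c :=
    fun b hb c => hb.2 c c.2
  have h2 : ∀ (b : MulAut N) (hb : b ∈ Ast (Q : Subgroup N)),
      ∀ c, rs Q b hb (zq Q c) = zq Q c := fun b hb c => Subtype.ext (hb.2 c c.2)
  have key : ∀ ν : Subgroup.center N →* ℂˣ,
      ∃ e : Xn p (Subgroup.center N).subtype ν ≃ Xn p (zq Q) ν,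
        (∀ x, kap p (e x).1 = kap p x.1) ∧
        ∀ x, e (al (Subgroup.center N).subtype ν a (h1 a ha) x) =
          al (zq Q) ν (rs Q a ha) (h2 a ha) (e x) := by
    intro ν
    have ho : 0 < orderOf a := orderOf_pos a
    refine eqc2 p (orderOf a) ho (Xn p (Subgroup.center N).subtype ν) (Xn p (zq Q) ν)
      (al (Subgroup.center N).subtype ν a (h1 a ha)) (al (zq Q) ν (rs Q a ha) (h2 a ha))
      ?_ ?_ (fun x => kap p x.1) (fun x => kap p x.1) (fun x => kap_alX _ _)
      (fun x => kap_alX _ _) ?_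
    · rw [← al_pow _ ν a (h1 a ha) (orderOf a) (h1 _ (pow_mem ha _))]
      ext x
      apply Subtype.ext
      apply Subtype.ext
      funext k
      change x.1.1 ((a ^ orderOf a) k) = x.1.1 k
      rw [pow_orderOf_eq_one]
      rfl
    · rw [← al_pow _ ν (rs Q a ha) (h2 a ha) (orderOf a) (by
        rw [← rs_pow]
        exact h2 _ (pow_mem ha _))]
      ext x
      apply Subtype.ext
      apply Subtype.ext
      funext k
      change x.1.1 ((rs Q a ha ^ orderOf a) k) = x.1.1 k
      rw [← rs_pow]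
      have h7 : rs Q (a ^ orderOf a) (pow_mem ha _) k = k := by
        apply Subtype.ext
        rw [rs_coe, pow_orderOf_eq_one]
        rfl
      rw [h7]
    · intro s hs
      have h3 : orderOf (a ^ s) = orderOf a / s := by
        rw [orderOf_pow_of_dvd (Nat.pos_of_dvd_of_pos hs ho).ne' hs]
      have h5 := cnt_eqY Q (pow_mem ha s) (hX s) (hY s) ν (h1 _ (pow_mem ha s))
        (h2 _ (pow_mem ha s))
      rw [h3, al_pow _ ν a (h1 a ha) s] at h5
      rw [h5]
      congr 1
      have h6 : ∀ (b c : MulAut (NN Q)) (hbc : b = c) (hb : ∀ c, b (zq Q c) = zq Q c)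
          (hc : ∀ d, c (zq Q d) = zq Q d), al (p := p) (zq Q) ν b hb = al (zq Q) ν c hc := by
        rintro b c rfl _ _
        rfl
      rw [← al_pow _ ν (rs Q a ha) (h2 a ha) s (by
        rw [← rs_pow]
        exact h2 _ (pow_mem ha _))]
      exact h6 _ _ (rs_pow Q a ha s) _ _
  choose e he1 he2 using key
  let β : X p N ≃ X p (NN Q) := (eX (Subgroup.center N).subtype hz).trans
    ((Equiv.sigmaCongrRight e).trans (eX (zq Q) hz').symm)
  have hβ : ∀ (ν : Subgroup.center N →* ℂˣ) (x : Xn p (Subgroup.center N).subtype ν),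
      β x.1 = (e ν x).1 := by
    intro ν x
    change (eX (zq Q) hz').symm (Equiv.sigmaCongrRight e (eX (Subgroup.center N).subtype hz x.1)) = _
    rw [eX_symm]
    rfl
  have hβ' : ∀ χ, β χ = (e (om _ hz χ) ⟨χ, om_spec _ hz χ⟩).1 := fun χ =>
    hβ _ (⟨χ, om_spec _ hz χ⟩ : Xn p (Subgroup.center N).subtype (om _ hz χ))
  refine ⟨β, fun χ => ?_, fun χ z hzz => ?_, fun χ χ' hχ m m' hm => ?_⟩
  · have h3 : kap p (β χ) = kap p χ := by
      rw [hβ' χ]
      exact he1 _ _
    rw [cl_apply p χ.2.2, cl_apply p (β χ).2.2]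
    exact congrArg (fun u => MonoidAlgebra.single u (1 : ℤ)) h3.symm
  · have h3 : (β χ).1 (zq Q ⟨z, hzz⟩) = ((om _ hz χ ⟨z, hzz⟩ : ℂˣ) : ℂ) * (β χ).1 1 := by
      rw [hβ' χ]
      exact (e _ ⟨χ, om_spec _ hz χ⟩).2 ⟨z, hzz⟩
    have h4 := om_spec _ hz χ ⟨z, hzz⟩
    have h5 : zq Q ⟨z, hzz⟩ = z := rfl
    have h6 : (Subgroup.center N).subtype ⟨z, hzz⟩ = (z : N) := rfl
    rw [h5] at h3
    rw [h6] at h4
    rw [h3, h4]
    ring
  · have h3 := he2 _ ⟨χ, om_spec _ hz χ⟩
    have h4 : χ' = (al (Subgroup.center N).subtype (om _ hz χ) a (h1 a ha)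
        ⟨χ, om_spec _ hz χ⟩).1 := by
      apply Subtype.ext
      funext n
      exact hχ n
    rw [h4, hβ, h3, hβ' χ]
    change (e _ ⟨χ, om_spec _ hz χ⟩).1.1 (rs Q a ha m) = _
    have h5 : rs Q a ha m = m' := Subtype.ext hm.symm
    rw [h5]


section

variable {p : ℕ} [hp : Fact p.Prime] {N : Type} [Group N] [Finite N]

/-- the quotients of `N ⋊ ⟨b⟩` by central subgroups of `N` -/
theorem aq2_quot {S : Type} [Group S] (hS : Subgroup.center S = ⊥) (hN : commutator N = ⊤)
    (e : Nonempty ((N ⧸ Subgroup.center N) ≃* S)) (hZ : ¬ p ∣ Nat.card (Subgroup.center N))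
    (b : MulAut N) (hb : ∀ z ∈ Subgroup.center N, b z = z) (K : Subgroup (Gb b)) [K.Normal]
    (hK : K ≤ ((inl : N →* Gb b).comp (Subgroup.center N).subtype).range) :
    AQ2 p S (Gb b ⧸ K) := by
  obtain ⟨e⟩ := e
  have hs : Function.Surjective (QuotientGroup.mk' K) := QuotientGroup.mk'_surjective K
  let g : N →* (Gb b ⧸ K) := (QuotientGroup.mk' K).comp inl
  have hg : g.range = (inl : N →* Gb b).range.map (QuotientGroup.mk' K) :=
    MonoidHom.range_comp _ _
  have hn : (inl : N →* Gb b).range.Normal := by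
    rw [range_inl_eq_ker_rightHom]
    infer_instance
  have hk : g.rangeRestrict.ker ≤ Subgroup.center N := by
    rw [MonoidHom.ker_rangeRestrict]
    intro x hx
    have h1 : (inl x : Gb b) ∈ K := by
      have h2 : QuotientGroup.mk' K (inl x : Gb b) = 1 := hx
      rwa [← MonoidHom.mem_ker, QuotientGroup.ker_mk'] at h2
    obtain ⟨c, hc⟩ := hK h1
    have h3 : (c : N) = x := inl_injective hc
    rw [← h3]
    exact c.2
  have hcc := comap_center hS e g.rangeRestrict g.rangeRestrict_surjective hk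
  have hsurj : ∀ z : g.range, z ∈ Subgroup.center g.range →
      ∃ c : Subgroup.center N, g.rangeRestrict (c : N) = z := by
    intro z hz
    obtain ⟨x, rfl⟩ := g.rangeRestrict_surjective z
    have h1 : x ∈ (Subgroup.center g.range).comap g.rangeRestrict := hz
    rw [hcc] at h1
    exact ⟨⟨x, h1⟩, rfl⟩
  refine ⟨g.range, ?_, perf_map hN g.rangeRestrict g.rangeRestrict_surjective,
    quot_center hS e g.rangeRestrict g.rangeRestrict_surjective hk, ?_, ?_,
    QuotientGroup.mk' K (gb b), ?_⟩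
  · rw [hg]
    exact hn.map _ hs
  · intro h
    apply hZ
    refine h.trans ?_
    let φ : Subgroup.center N →* Subgroup.center g.range :=
      (g.rangeRestrict.comp (Subgroup.center N).subtype).codRestrict _ fun c => by
        have h1 : (c : N) ∈ (Subgroup.center g.range).comap g.rangeRestrict := by
          rw [hcc]
          exact c.2
        exact h1
    refine Subgroup.card_dvd_of_surjective φ ?_
    rintro ⟨z, hz⟩
    obtain ⟨c, hc⟩ := hsurj z hz
    exact ⟨c, Subtype.ext hc⟩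
  · intro z hz
    obtain ⟨c, rfl⟩ := hsurj z hz
    have h1 : ((inl : N →* Gb b).comp (Subgroup.center N).subtype) c ∈
        Subgroup.center (Gb b) := cen_inl b hb ⟨c, rfl⟩
    rw [Subgroup.mem_center_iff]
    intro y
    obtain ⟨x, rfl⟩ := hs y
    have h2 : ((g.rangeRestrict (c : N) : g.range) : Gb b ⧸ K) =
        QuotientGroup.mk' K (((inl : N →* Gb b).comp (Subgroup.center N).subtype) c) := rfl
    rw [h2, ← map_mul, ← map_mul, Subgroup.mem_center_iff.mp h1 x]
  · rw [eq_top_iff]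
    intro y _
    obtain ⟨x, rfl⟩ := hs y
    obtain ⟨k, i, rfl⟩ := gb_gen b x
    rw [map_mul, map_pow]
    exact mul_mem ((le_sup_right : g.range ≤ _) ⟨k, rfl⟩)
      ((le_sup_left : Subgroup.zpowers (QuotientGroup.mk' K (gb b)) ≤ _)
        (pow_mem (Subgroup.mem_zpowers _) i))

/-- the nonabelian simple sections of `NN Q ⋊ ⟨b⟩` -/
theorem sec_Y {S : Type} [Group S] (e : Nonempty ((N ⧸ Subgroup.center N) ≃* S)) (Q : Sylow p N)
    {b : MulAut N} (hb : b ∈ Ast (Q : Subgroup N)) (K : Subgroup (Yb Q b)) [K.Normal]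
    (T : Type) [Group T] [IsSimpleGroup T] (hT : ∃ a b : T, a * b ≠ b * a)
    (h : IsSec T (Yb Q b ⧸ K)) : ¬ p ∣ Nat.card T ∧ IsSec T S := by
  obtain ⟨e⟩ := e
  obtain ⟨t₁, t₂, htt⟩ := hT
  have h1 : IsSec T (Yb Q b) := h.of_surj (QuotientGroup.mk' K) (QuotientGroup.mk'_surjective K)
  have h2 : IsSec T (NN Q) := by
    rcases h1.ext (jy Q b).range with h3 | h3
    · exact h3.of_equiv (MonoidHom.ofInjective (jy_inj Q)).symm
    · exfalso
      have h4 : IsCyclic (Yb Q b ⧸ (jy Q b).range) := by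
        haveI := Fintype.ofFinite (NN Q)
        exact cyc_quot (jy Q b) (jy_normal Q) (gy Q hb) (jy_gen Q hb)
      letI : CommGroup (Yb Q b ⧸ (jy Q b).range) := IsCyclic.commGroup
      exact htt (h3.comm mul_comm t₁ t₂)
  constructor
  · intro hpT
    rcases h2.ext ((Q : Subgroup N).subgroupOf (NN Q)) with h3 | h3
    · have h4 : IsPGroup p ((Q : Subgroup N).subgroupOf (NN Q)) :=
        Q.isPGroup'.comap_of_injective _ (Subgroup.subtype_injective _)
      exact htt (h3.pgroup h4 t₁ t₂)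
    · have h4 := hpT.trans h3.card_dvd
      have h5 : Nat.card (NN Q ⧸ (Q : Subgroup N).subgroupOf (NN Q)) =
          (Q : Subgroup N).relIndex (NN Q) := rfl
      rw [h5] at h4
      exact Q.not_dvd_index (h4.trans (Subgroup.relIndex_dvd_index_of_le Subgroup.le_normalizer))
  · have h3 : IsSec T N := h2.of_inj (NN Q).subtype (Subgroup.subtype_injective _)
    rcases h3.ext (Subgroup.center N) with h4 | h4
    · exact absurd (h4.comm (fun a b => Subtype.ext (Subgroup.mem_center_iff.mp b.2 (a : N)))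
        t₁ t₂) htt
    · exact h4.of_equiv e

end

/-- **Piece LNKG** -/
theorem lnkg : LNKG := by
  intro p _ S _ _ _ hS hOut hX hSol N _ _ hN he hZ Q
  obtain ⟨b₀, hb₀⟩ := hOut
  obtain ⟨a, ha, hgen⟩ := out2 p N S hN he b₀ hb₀ Q
  have hcS : Subgroup.center S = ⊥ := by
    rcases (inferInstance : (Subgroup.center S).Normal).eq_bot_or_eq_top with h | h
    · exact h
    · exfalso
      obtain ⟨x, y, hxy⟩ := hS
      have h1 : y ∈ Subgroup.center S := by rw [h]; trivial
      exact hxy (Subgroup.mem_center_iff.mp h1 x)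
  obtain ⟨β, h1, h2, h3⟩ := eq_of_q2 p N Q a ha
    (fun s K _ hK => hX _ (aq2_quot hcS hN he hZ (a ^ s) (pow_mem ha s).2 K hK))
    (fun s K _ => hSol _ fun T _ _ hT hsec => sec_Y he Q (pow_mem ha s) K T hT hsec)
  exact ext p N Q a ha hgen β h1 h2 h3

end Pool.Agent.ZH17.RD
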