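import Pool.Agent.ZH17.RD.Stm4

/-!
# Simple sections of extensions
-/

set_option autoImplicit false
set_option linter.unusedSectionVars false
set_option linter.style.haveILetI false

open scoped BigOperators Classical

noncomputable section

namespace Pool.Agent.ZH17.RD

variable {T : Type} [Group T]

theorem IsSec.of_surj {G G' : Type} [Group G] [Group G'] (g : G →* G')
    (hg : Function.Surjective g) (h : IsSec T G') : IsSec T G := by
  obtain ⟨A, f, hf⟩ := h
  refine ⟨A.comap g, f.comp (g.subgroupComap A), hf.comp ?_⟩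
  rintro ⟨y, hy⟩
  obtain ⟨x, rfl⟩ := hg y
  exact ⟨⟨x, hy⟩, rfl⟩

theorem IsSec.of_inj {G G' : Type} [Group G] [Group G'] (g : G →* G')
    (hg : Function.Injective g) (h : IsSec T G) : IsSec T G' := by
  obtain ⟨A, f, hf⟩ := h
  exact ⟨A.map g, f.comp (A.equivMapOfInjective g hg).symm.toMonoidHom,
    hf.comp (MulEquiv.surjective _)⟩

theorem IsSec.of_equiv {G G' : Type} [Group G] [Group G'] (g : G ≃* G') (h : IsSec T G) :
    IsSec T G' := IsSec.of_inj g.toMonoidHom g.injective h

/-- a simple section of an extension -/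
theorem IsSec.ext [IsSimpleGroup T] {G : Type} [Group G] (M : Subgroup G) [M.Normal]
    (h : IsSec T G) : IsSec T M ∨ IsSec T (G ⧸ M) := by
  obtain ⟨A, f, hf⟩ := h
  have hn : ((M.subgroupOf A).map f).Normal := Subgroup.Normal.map inferInstance f hf
  rcases hn.eq_bot_or_eq_top with h1 | h1
  · right
    let g : A →* (G ⧸ M) := (QuotientGroup.mk' M).comp A.subtype
    have hk : g.rangeRestrict.ker ≤ f.ker := by
      rw [MonoidHom.ker_rangeRestrict]
      intro x hx
      have h2 : (x : G) ∈ M := (QuotientGroup.eq_one_iff _).mp hx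
      have h3 : f x ∈ (M.subgroupOf A).map f := ⟨x, h2, rfl⟩
      rw [h1, Subgroup.mem_bot] at h3
      exact h3
    refine ⟨g.range, g.rangeRestrict.liftOfSurjective g.rangeRestrict_surjective ⟨f, hk⟩, ?_⟩
    intro t
    obtain ⟨x, rfl⟩ := hf t
    exact ⟨g.rangeRestrict x, MonoidHom.liftOfRightInverse_comp_apply _ _ _ ⟨f, hk⟩ x⟩
  · left
    let i : ↥(M.subgroupOf A) →* M :=
      { toFun := fun x => ⟨(x.1 : G), x.2⟩
        map_one' := rfl
        map_mul' := fun _ _ => rfl }
    have hi : Function.Injective i := by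
      intro x y hxy
      apply Subtype.ext
      apply Subtype.ext
      exact congrArg (fun z : M => (z : G)) hxy
    refine IsSec.of_inj i hi ?_
    refine ⟨⊤, (f.comp (M.subgroupOf A).subtype).comp Subgroup.topEquiv.toMonoidHom, ?_⟩
    intro t
    have h2 : t ∈ (M.subgroupOf A).map f := by rw [h1]; trivial
    obtain ⟨x, hx, rfl⟩ := h2
    exact ⟨⟨⟨x, hx⟩, trivial⟩, rfl⟩

theorem IsSec.comm {G : Type} [Group G] (hG : ∀ a b : G, a * b = b * a) (h : IsSec T G) :
    ∀ a b : T, a * b = b * a := by
  obtain ⟨A, f, hf⟩ := h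
  intro a b
  obtain ⟨x, rfl⟩ := hf a
  obtain ⟨y, rfl⟩ := hf b
  rw [← map_mul, ← map_mul]
  congr 1
  exact Subtype.ext (hG x y)

theorem IsSec.card_dvd {G : Type} [Group G] [Finite G] (h : IsSec T G) :
    Nat.card T ∣ Nat.card G := by
  obtain ⟨A, f, hf⟩ := h
  exact (Subgroup.card_dvd_of_surjective f hf).trans (Subgroup.card_subgroup_dvd_card A)

theorem IsSec.finite {G : Type} [Group G] [Finite G] (h : IsSec T G) : Finite T := by
  obtain ⟨A, f, hf⟩ := h
  exact Finite.of_surjective f hf

/-- a simple section of a `p`-group is abelian -/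
theorem IsSec.pgroup {p : ℕ} [Fact p.Prime] [IsSimpleGroup T] {G : Type} [Group G] [Finite G]
    (hG : IsPGroup p G) (h : IsSec T G) : ∀ a b : T, a * b = b * a := by
  haveI := h.finite
  have hT : IsPGroup p T := by
    obtain ⟨A, f, hf⟩ := h
    exact (hG.to_subgroup A).of_surjective f hf
  have h1 : Nontrivial (Subgroup.center T) := hT.center_nontrivial
  have h2 : Subgroup.center T = ⊤ := by
    rcases (inferInstance : (Subgroup.center T).Normal).eq_bot_or_eq_top with h3 | h3
    · rw [h3] at h1
      exact absurd h1 (not_nontrivial _)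
    · exact h3
  intro a b
  have h3 : b ∈ Subgroup.center T := by rw [h2]; trivial
  exact Subgroup.mem_center_iff.mp h3 a

end Pool.Agent.ZH17.RD
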