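import Pool.Agent.ZH17.RD.Eqg
import Pool.Agent.ZH17.RD.Eqc2
import Pool.Agent.ZH17.RD.Secs

/-!
# The subgroup `NN Q ⋊ ⟨b⟩` of `N ⋊ ⟨b⟩`
-/

set_option autoImplicit false
set_option linter.unusedSectionVars false
set_option linter.style.haveILetI false

open scoped BigOperators Classical

noncomputable section

namespace Pool.Agent.ZH17.RD

open Pool.Agent.Helper884 Pool.Agent.K3h3.KB Pool.Agent.K3h3.MK Pool.Agent.K3h83.IN
open Pool.Agent.H254R3.IN (IsIrr mem_Irr)
open IC (Irr)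
open SemidirectProduct

namespace LnkgP

variable {p : ℕ} [hp : Fact p.Prime] {N : Type} [Group N] [Finite N] (Q : Sylow p N) (b : MulAut N)

/-- the subgroup `NN Q ⋊ ⟨b⟩` -/
def Yb : Subgroup (Gb b) :=
  Subgroup.normalizer (((Q : Subgroup N).map (inl : N →* Gb b) : Subgroup (Gb b)) : Set (Gb b))

theorem mem_Yb (x : Gb b) : x ∈ Yb Q b ↔ ∀ y, y ∈ (Q : Subgroup N).map (inl : N →* Gb b) ↔
    x * y * x⁻¹ ∈ (Q : Subgroup N).map (inl : N →* Gb b) := by
  unfold Yb
  rw [Subgroup.mem_normalizer_iff]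

theorem inl_map_iff (x : N) : (inl x : Gb b) ∈ (Q : Subgroup N).map (inl : N →* Gb b) ↔
    x ∈ (Q : Subgroup N) := by
  constructor
  · rintro ⟨y, hy, hxy⟩
    rw [← inl_injective hxy]
    exact hy
  · intro h
    exact ⟨x, h, rfl⟩

theorem inl_memY (k : N) : (inl k : Gb b) ∈ Yb Q b ↔ k ∈ NN Q := by
  rw [mem_Yb, Subgroup.mem_normalizer_iff]
  constructor
  · intro H h
    have h2 := H (inl h)
    rw [inl_map_iff, ← map_inv, ← map_mul, ← map_mul, inl_map_iff] at h2
    exact h2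
  · intro H x
    constructor
    · rintro ⟨y, hy, rfl⟩
      rw [← map_inv, ← map_mul, ← map_mul, inl_map_iff]
      exact (H y).mp hy
    · rintro ⟨y, hy, hxy⟩
      have h3 : x = inl (k⁻¹ * y * k) := by
        rw [map_mul, map_mul, hxy, map_inv]
        group
      rw [h3, inl_map_iff]
      have h5 := H (k⁻¹ * y * k)
      have h4 : k * (k⁻¹ * y * k) * k⁻¹ = y := by group
      rw [h4] at h5
      exact h5.mpr hy

variable {b} (hb : b ∈ Ast (Q : Subgroup N))

include hb in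
theorem gb_memY : gb b ∈ Yb Q b := by
  rw [mem_Yb]
  intro x
  constructor
  · rintro ⟨y, hy, rfl⟩
    rw [gb_conj]
    exact ⟨b y, (hb.1 y).mpr hy, rfl⟩
  · rintro ⟨y, hy, hxy⟩
    refine ⟨b⁻¹ y, ?_, ?_⟩
    · have := hb.1 (b⁻¹ y)
      rw [MulAut.apply_inv_self] at this
      exact this.mp hy
    · have h1 := gb_conj b (b⁻¹ y)
      rw [MulAut.apply_inv_self, hxy] at h1
      have h2 : (inl (b⁻¹ y) : Gb b) = (gb b)⁻¹ * (gb b * inl (b⁻¹ y) * (gb b)⁻¹) * gb b := by group
      rw [h2, h1]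
      group

/-- the generator in `Yb` -/
def gy : Yb Q b := ⟨gb b, gb_memY Q hb⟩

variable (b) in
/-- the embedding of the normalizer -/
def jy : NN Q →* Yb Q b :=
  ((inl : N →* Gb b).comp (NN Q).subtype).codRestrict _ fun k => (inl_memY Q b k).mpr k.2

@[simp] theorem jy_coe (k : NN Q) : ((jy Q b k : Yb Q b) : Gb b) = inl (k : N) := rfl

theorem jy_inj : Function.Injective (jy Q b) := by
  intro x y h
  have h1 : (inl (x : N) : Gb b) = inl (y : N) := congrArg Subtype.val h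
  exact Subtype.ext (inl_injective h1)

theorem jy_conj (k : NN Q) : gy Q hb * jy Q b k * (gy Q hb)⁻¹ = jy Q b (rs Q b hb k) :=
  Subtype.ext (gb_conj b k)

theorem jy_gen (x : Yb Q b) : ∃ k, ∃ i : ℕ, x = jy Q b k * gy Q hb ^ i := by
  obtain ⟨k, i, hx⟩ := gb_gen b (x : Gb b)
  have h1 : (inl k : Gb b) ∈ Yb Q b := by
    have h2 : (inl k : Gb b) = x * (gb b ^ i)⁻¹ := by rw [hx]; group
    rw [h2]
    exact mul_mem x.2 (inv_mem (pow_mem (gb_memY Q hb) i))
  exact ⟨⟨k, (inl_memY Q b k).mp h1⟩, i, Subtype.ext hx⟩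

theorem jy_range : (jy Q b).range = ((rightHom : Gb b →* _).comp (Yb Q b).subtype).ker := by
  ext x
  rw [MonoidHom.mem_ker, MonoidHom.comp_apply]
  constructor
  · rintro ⟨k, rfl⟩
    exact rightHom_inl _
  · intro h
    have h1 : (x : Gb b) ∈ (inl : N →* Gb b).range := by
      rw [range_inl_eq_ker_rightHom]
      exact h
    obtain ⟨k, hk⟩ := h1
    have h2 : (inl k : Gb b) ∈ Yb Q b := by rw [hk]; exact x.2
    exact ⟨⟨k, (inl_memY Q b k).mp h2⟩, Subtype.ext hk⟩

include hb in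
theorem idx_jy : (jy Q b).range.index = orderOf b := by
  rw [jy_range, Subgroup.index_ker]
  have h1 : ((rightHom : Gb b →* _).comp (Yb Q b).subtype).range = ⊤ := by
    rw [eq_top_iff]
    intro c _
    have h2 : (c : MulAut N) ∈ Submonoid.powers b := by
      rw [mem_powers_iff_mem_zpowers]
      exact c.2
    obtain ⟨i, hi⟩ := h2
    refine ⟨gy Q hb ^ i, ?_⟩
    rw [map_pow]
    apply Subtype.ext
    rw [← hi]
    rfl
  rw [h1, Subgroup.card_top, Nat.card_zpowers]

instance jy_normal : (jy Q b).range.Normal := by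
  rw [jy_range]
  infer_instance

include hb in
theorem cen_jy : ((jy Q b).comp (zq Q)).range ≤ Subgroup.center (Yb Q b) := by
  rintro _ ⟨c, rfl⟩
  rw [Subgroup.mem_center_iff]
  intro x
  have h1 := cen_inl b hb.2 ⟨c, rfl⟩
  exact Subtype.ext (Subgroup.mem_center_iff.mp h1 (x : Gb b))

/-- a Sylow subgroup of `N ⋊ ⟨b⟩` with normalizer in `Yb` -/
theorem exists_P : ∃ P : Sylow p (Gb b), NN P ≤ Yb Q b := by
  have h1 : IsPGroup p ((Q : Subgroup N).map (inl : N →* Gb b)) := Q.isPGroup'.map _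
  obtain ⟨P, hP⟩ := h1.exists_le_sylow
  refine ⟨P, ?_⟩
  have h2 : (Q : Subgroup N).map (inl : N →* Gb b) = (P : Subgroup (Gb b)) ⊓ (inl : N →* Gb b).range := by
    apply le_antisymm
    · refine le_inf hP ?_
      rintro _ ⟨x, _, rfl⟩
      exact ⟨x, rfl⟩
    · rintro _ ⟨hx, x, rfl⟩
      have h3 : IsPGroup p ((P : Subgroup (Gb b)).comap (inl : N →* Gb b)) :=
        P.isPGroup'.comap_of_injective _ inl_injective
      have h4 : (Q : Subgroup N) ≤ (P : Subgroup (Gb b)).comap (inl : N →* Gb b) := by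
        intro y hy
        exact hP ⟨y, hy, rfl⟩
      have h5 := Q.is_maximal' h3 h4
      have h6 : x ∈ (P : Subgroup (Gb b)).comap (inl : N →* Gb b) := hx
      rw [h5] at h6
      exact ⟨x, h6, rfl⟩
  intro x hx
  rw [mem_Yb]
  intro y
  rw [Subgroup.mem_normalizer_iff] at hx
  have hn : (inl : N →* Gb b).range.Normal := by
    rw [range_inl_eq_ker_rightHom]
    infer_instance
  rw [h2, Subgroup.mem_inf, Subgroup.mem_inf]
  have h3 := hx y
  have h4 : y ∈ (inl : N →* Gb b).range ↔ x * y * x⁻¹ ∈ (inl : N →* Gb b).range := by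
    constructor
    · intro h
      exact hn.conj_mem y h x
    · intro h
      have h5 := hn.conj_mem _ h x⁻¹
      have h6 : x⁻¹ * (x * y * x⁻¹) * x⁻¹⁻¹ = y := by group
      rwa [h6] at h5
  exact and_congr h3 h4

include hb in
/-- the weighted numbers over a linear character of the center agree for `N ⋊ ⟨b⟩` and `Yb` -/
theorem wo_eq_Y
    (hX : ∀ (K : Subgroup (Gb b)) [K.Normal],
      K ≤ ((inl : N →* Gb b).comp (Subgroup.center N).subtype).range → Q1 p (Gb b ⧸ K))
    (hY : ∀ (K : Subgroup (Yb Q b)) [K.Normal], Q1 p (Yb Q b ⧸ K))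
    (ν : Subgroup.center N →* ℂˣ) :
    wo (cl p) ((inl : N →* Gb b).comp (Subgroup.center N).subtype)
      (fun a => ((ν a : ℂˣ) : ℂ)) =
    wo (cl p) ((jy Q b).comp (zq Q)) (fun a => ((ν a : ℂˣ) : ℂ)) := by
  obtain ⟨P, hP⟩ := exists_P Q (b := b)
  have hPY : (P : Subgroup (Gb b)) ≤ Yb Q b := Subgroup.le_normalizer.trans hP
  have hm := mem_NN_subtype P hPY
  set jz := (inl : N →* Gb b).comp (Subgroup.center N).subtype with hjz
  set jw := (jy Q b).comp (zq Q) with hjw
  have hinj : Function.Injective jz := inl_injective.comp (Subgroup.subtype_injective _)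
  have hinj' : Function.Injective jw := by
    refine (jy_inj Q).comp ?_
    intro x y h
    exact Subtype.ext (congrArg (fun z : NN Q => (z : N)) h)
  have hcen : jz.range ≤ Subgroup.center (Gb b) := cen_inl b hb.2
  have hcen' : jw.range ≤ Subgroup.center (Yb Q b) := cen_jy Q hb
  let f : Subgroup.center N ≃* jz.range := MonoidHom.ofInjective hinj
  let f' : Subgroup.center N ≃* jw.range := MonoidHom.ofInjective hinj'
  have h1 := central (p := p) a_S5 a_S4 jz.range hcen P (ν.comp f.symm.toMonoidHom)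
    fun K _ hK _ => hX K hK
  have h1' := central (p := p) a_S5 a_S4 jw.range hcen' (P.subtype hPY)
    (ν.comp f'.symm.toMonoidHom) fun K _ _ _ => hY K
  have e1 : wo (cl p) jz (fun a => ((ν a : ℂˣ) : ℂ)) =
      wo (cl p) jz.range.subtype (fun a => (((ν.comp f.symm.toMonoidHom) a : ℂˣ) : ℂ)) := by
    refine wo_congr (cl p) f (MulEquiv.refl _) _ _ (fun c => rfl) _ _ fun c => ?_
    change ((ν c : ℂˣ) : ℂ) = ((ν (f.symm (f c)) : ℂˣ) : ℂ)
    rw [f.symm_apply_apply]
  have e2 : wo (cl p) jw (fun a => ((ν a : ℂˣ) : ℂ)) =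
      wo (cl p) jw.range.subtype (fun a => (((ν.comp f'.symm.toMonoidHom) a : ℂˣ) : ℂ)) := by
    refine wo_congr (cl p) f' (MulEquiv.refl _) _ _ (fun c => rfl) _ _ fun c => ?_
    change ((ν c : ℂˣ) : ℂ) = ((ν (f'.symm (f' c)) : ℂˣ) : ℂ)
    rw [f'.symm_apply_apply]
  let E : NN P ≃* NN (P.subtype hPY) :=
    { toFun := fun x => ⟨⟨x.1, hP x.2⟩, (hm ⟨x.1, hP x.2⟩).mpr x.2⟩
      invFun := fun x => ⟨x.1.1, (hm x.1).mp x.2⟩
      left_inv := fun _ => rfl
      right_inv := fun _ => rfl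
      map_mul' := fun _ _ => rfl }
  have e3 : wo (cl p) (Subgroup.inclusion (le_NN_of_center P hcen))
        (fun a => (((ν.comp f.symm.toMonoidHom) a : ℂˣ) : ℂ)) =
      wo (cl p) (Subgroup.inclusion (le_NN_of_center (P.subtype hPY) hcen'))
        (fun a => (((ν.comp f'.symm.toMonoidHom) a : ℂˣ) : ℂ)) := by
    refine wo_congr (cl p) (f.symm.trans f') E _ _ (fun c => ?_) _ _ fun c => ?_
    · obtain ⟨c, rfl⟩ := f.surjective c
      have h3 : (f.symm.trans f') (f c) = f' c := by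
        change f' (f.symm (f c)) = _
        rw [f.symm_apply_apply]
      rw [h3]
      rfl
    · change ((ν (f.symm c) : ℂˣ) : ℂ) = ((ν (f'.symm (f' (f.symm c))) : ℂˣ) : ℂ)
      rw [f'.symm_apply_apply]
  rw [e1, e2, h1, h1', e3]

/-- the weighted counts for `N` and for the normalizer agree -/
theorem cnt_eqY
    (hX : ∀ (K : Subgroup (Gb b)) [K.Normal],
      K ≤ ((inl : N →* Gb b).comp (Subgroup.center N).subtype).range → Q1 p (Gb b ⧸ K))
    (hY : ∀ (K : Subgroup (Yb Q b)) [K.Normal], Q1 p (Yb Q b ⧸ K))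
    (ν : Subgroup.center N →* ℂˣ)
    (h1 : ∀ c, b ((Subgroup.center N).subtype c) = (Subgroup.center N).subtype c)
    (h2 : ∀ c, rs Q b hb (zq Q c) = zq Q c) :
    cnt p (orderOf b) (al (p := p) (Subgroup.center N).subtype ν b h1) (fun χ => kap p χ.1) =
      cnt p (orderOf b) (al (p := p) (zq Q) ν (rs Q b hb) h2) fun χ => kap p χ.1 := by
  haveI := Fintype.ofFinite N
  haveI := Fintype.ofFinite (NN Q)
  have e1 := cc (p := p) (Subgroup.center N).subtype (inl : N →* Gb b) inl_injective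
    (by rw [range_inl_eq_ker_rightHom]; infer_instance) (gb b) b (gb_conj b) (gb_gen b)
    (cen_inl b hb.2) ν h1
  have e2 := cc (p := p) (zq Q) (jy Q b) (jy_inj Q) (jy_normal Q)
    (gy Q hb) (rs Q b hb) (jy_conj Q hb) (jy_gen Q hb)
    (cen_jy Q hb) ν h2
  rw [idx_inl] at e1
  rw [idx_jy Q hb] at e2
  rw [← e1, ← e2, wo_eq_Y Q hb hX hY ν]

end LnkgP

end Pool.Agent.ZH17.RD
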