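import Pool.Agent.ZH17.RD.Stm2
import Pool.Agent.K3h85.IN.Field
import Pool.Agent.Q90.WR.Gal
import Pool.Agent.Q99.CT.Basic

/-!
# TWI (helper24): the Galois twist of the characters of a group of order prime to `p`
-/

set_option autoImplicit false
set_option linter.all false

open scoped BigOperators Classical

noncomputable section

namespace Pool.Agent.ZH17.RD

open Pool.Agent.Helper884 Pool.Agent.K3h3.KB Pool.Agent.K3h3.MK Pool.Agent.K3h83.IN
open Pool.Agent.H254R3.IN (IsIrr mem_Irr)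
open IC (Irr)

theorem twi_val {G : Type} [Group G] {m n : ℕ} (hm : 0 < m) {σ : ℂ ≃+* ℂ}
    (hσ : ∀ z : ℂ, z ^ m = 1 → σ z = z ^ n) {χ : G → ℂ} (hχ : IsIrr χ) {g : G} (hg : g ^ m = 1) :
    σ (χ g) = χ (g ^ n) := by
  obtain ⟨V, _, _, _, ρ, hρ, rfl⟩ := hχ
  have hζ : IsPrimitiveRoot (Complex.exp (2 * Real.pi * Complex.I / m)) m :=
    Complex.isPrimitiveRoot_exp m hm.ne'
  obtain ⟨c, hc⟩ := Pool.Agent.Q99.CT.char_expand ρ g hm hg hζ
  have h1 := hc 1
  rw [pow_one] at h1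
  rw [h1, hc n, map_sum]
  refine Finset.sum_congr rfl fun i _ => ?_
  rw [map_mul, map_natCast, map_pow, mul_one, hσ _ hζ.pow_eq_one, ← pow_mul, mul_comm i]

/-- **Piece TWI** -/
theorem twi : TWI := by
  intro p a hp R _ _ hR
  have hcop : (Nat.card R).Coprime (p ^ a) :=
    Nat.Coprime.pow_right a (((hp.out.coprime_iff_not_dvd).2 hR).symm)
  obtain ⟨σ, hσ⟩ := Pool.Agent.K3h85.IN.exists_pow_aut (Nat.card R) (p ^ a) Nat.card_pos hcop.symm
  have hval : ∀ χ : X p R, (fun m => χ.1 (m ^ p ^ a)) = fun m => σ (χ.1 m) := by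
    intro χ
    funext m
    exact (twi_val Nat.card_pos hσ χ.2.1 pow_card_eq_one').symm
  have hirr : ∀ χ : X p R, IsIrr (fun m => χ.1 (m ^ p ^ a)) ∧ (ndeg (fun m => χ.1 (m ^ p ^ a)) : ZMod p) ≠ 0 := by
    intro χ
    rw [hval]
    refine ⟨Pool.Agent.Q90.WR.irr_gal σ χ.2.1, ?_⟩
    rw [Pool.Agent.K3h85.IN.ndeg_gal χ.2.1 σ]
    exact χ.2.2
  let f : X p R → X p R := fun χ => ⟨fun m => χ.1 (m ^ p ^ a), hirr χ⟩
  have hinj : Function.Injective f := by
    intro χ χ' h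
    apply Subtype.ext
    funext m
    obtain ⟨m', hm'⟩ := (powCoprime hcop).surjective m
    have h1 := congrFun (congrArg Subtype.val h) m'
    have h2 : m' ^ p ^ a = m := hm'
    have h3 : χ.1 (m' ^ p ^ a) = χ'.1 (m' ^ p ^ a) := h1
    rwa [h2] at h3
  exact ⟨Equiv.ofBijective f (Finite.injective_iff_bijective.1 hinj), fun χ m => rfl⟩

end Pool.Agent.ZH17.RD
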