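import Pool.Agent.ZH17.RD.WreB
import Pool.Agent.ZH17.RD.Stm3

/-!
# The transfer theorem for socles of order prime to `p`, second case
-/

set_option autoImplicit false
set_option linter.unusedSectionVars false
set_option linter.style.haveILetI false

open scoped BigOperators Classical

noncomputable section

namespace Pool.Agent.ZH17.RD

open Pool.Agent.Helper884 Pool.Agent.K3h3.KB Pool.Agent.K3h3.MK Pool.Agent.K3h83.IN
open Pool.Agent.H254R3.IN (IsIrr mem_Irr)
open Pool.Agent.K3h18.IN (irr_infl B_infl exists_prod dsc dsc_apply dsc_irr)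
open Pool.Agent.Q99.AS (ten ten_irr B_ten)
open IC (Irr)
open Representation SemidirectProduct

section wreg

variable {p : ℕ} [hp : Fact p.Prime]

/-- the `d`-invariant characters -/
abbrev Xd (p : ℕ) [Fact p.Prime] {N : Type} [Group N] (d : MulAut N) : Type :=
  {χ : X p N // ∀ n, χ.1 (d n) = χ.1 n}

/-- **The transfer theorem for the data `DataA`.** -/
theorem wreG (hGLA : GLA) {G : Type} [Group G] [Finite G] (P : Sylow p G) {N : Type} [Group N]
    [Finite N] {I : Type} [Fintype I] (F : (I → N) →* G) (H : Subgroup G) (σ : H →* Equiv.Perm I)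
    (c : H → I → MulAut N) (d : MulAut N) (hpN : ¬ p ∣ Nat.card N) (hd : d ^ p = 1)
    (hFn : F.range.Normal) (hsup : F.range ⊔ H = ⊤)
    (hNP : NN P ≤ H) (hc : ∀ h h' i, c (h * h') i = c h (σ h' i) * c h' i)
    (hFc : ∀ (h : H) (n : I → N), (h : G) * F n * (h : G)⁻¹ =
      F fun i => c h ((σ h)⁻¹ i) (n ((σ h)⁻¹ i)))
    (hA : ∀ h i, c h i ∈ Cd d) (hH : ∀ n : I → N, F n ∈ H ↔ ∀ i, d (n i) = n i)
    (hFH : ∀ (n : I → N) (hn : F n ∈ H), σ ⟨F n, hn⟩ = 1 ∧ ∀ i, c ⟨F n, hn⟩ i = MulAut.conj (n i))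
    (hPd : ∀ i, ∃ x : H, (x : G) ∈ P ∧ σ x i = i ∧ c x i = d) : wt (cl p) G = wt (cl p) H := by
  obtain ⟨β₀, ω₀, hω₀, hcl₀, hcc₀, hform₀⟩ := hGLA p N hpN d hd
  haveI := Fintype.ofFinite N
  haveI : Fintype (Xd p d) := Fintype.ofFinite _
  haveI := hFn
  -- the tensor power
  have hcA : ∀ h h' i, (⟨c (h * h') i, hA _ _⟩ : Cd d) =
      ⟨c h (σ h' i), hA _ _⟩ * ⟨c h' i, hA _ _⟩ := fun h h' i => Subtype.ext (hc h h' i)
  obtain ⟨ω, hω, hωf⟩ := exists_ten (α := (Cd d).subtype) σ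
    (fun h i => (⟨c h i, hA h i⟩ : Cd d)) (actH σ c hc) hcA
    (fun h n j => rfl) hω₀
  set L : Subgroup G := F.range with hLdef
  let F' : (I → N) →* L := F.rangeRestrict
  have hF' : Function.Surjective F' := F.rangeRestrict_surjective
  have hF'c : ∀ n, ((F' n : L) : G) = F n := fun _ => rfl
  let cs : (I → Md d) →* (I → N) :=
    { toFun := fun m i => (m i : N)
      map_one' := rfl
      map_mul' := fun _ _ => rfl }
  have hcsH : ∀ m, F (cs m) ∈ H := fun m => (hH _).mpr fun i => (m i).2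
  let F2 : (I → Md d) →* L.subgroupOf H :=
    { toFun := fun m => ⟨⟨F (cs m), hcsH m⟩, ⟨cs m, rfl⟩⟩
      map_one' := Subtype.ext (Subtype.ext (by
        change F (cs 1) = 1
        rw [map_one, map_one]))
      map_mul' := fun m m' => Subtype.ext (Subtype.ext (by
        change F (cs (m * m')) = F (cs m) * F (cs m')
        rw [map_mul, map_mul])) }
  have hF2 : Function.Surjective F2 := by
    rintro ⟨⟨x, hx⟩, hx2⟩
    obtain ⟨n, hn⟩ := hx2
    change F n = x at hn
    subst hn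
    exact ⟨fun i => ⟨n i, (hH n).mp hx i⟩, rfl⟩
  have hker : ∀ n : I → N, F n = 1 → ∀ i, n i ∈ Subgroup.center N := by
    intro n hn i
    have hnH : F n ∈ H := by
      rw [hn]
      exact H.one_mem
    have h1 := (hFH n hnH).2 i
    have h2 : (⟨F n, hnH⟩ : H) = 1 := Subtype.ext hn
    have h3 : c 1 i = 1 := by
      have h := hc 1 1 i
      rw [map_one, Equiv.Perm.one_apply, mul_one] at h
      exact left_eq_mul.mp h
    rw [h2, h3] at h1
    rw [Subgroup.mem_center_iff]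
    intro g
    have h4 := congrArg (fun a : MulAut N => a g) h1
    simp only [MulAut.one_apply, MulAut.conj_apply] at h4
    rw [h4]
    nth_rewrite 1 [h4]
    group
  have hφ : ∀ (h : H) (n : I → N), (F' (actH σ c hc h n) : G) = h * F' n * (h : G)⁻¹ := by
    intro h n
    rw [hF'c, hF'c, hFc]
    rfl
  -- the central characters
  have hcc : ∀ (χ : Xd p d) (z : Md d), (z : N) ∈ Subgroup.center N →
      ce (β₀ χ).1 z = ce χ.1.1 z := by
    intro χ z hz
    unfold ce
    rw [div_eq_div_iff (irr_ne (β₀ χ).2.1) (irr_ne χ.1.2.1)]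
    exact hcc₀ χ z hz
  have hcenN : ∀ z : Md d, (z : N) ∈ Subgroup.center N → z ∈ Subgroup.center (Md d) := by
    intro z hz
    rw [Subgroup.mem_center_iff]
    intro g
    exact Subtype.ext (Subgroup.mem_center_iff.mp hz g)
  let Λ : (I → Xd p d) → (I → N) → ℂ := fun s n => ∏ i, ce (s i).1.1 (n i)
  have tr1 : ∀ (s : I → Xd p d) (a : I → N), (∀ i, a i ∈ Subgroup.center N) → ∀ x : I → N,
      ∏ i, (s i).1.1 ((a * x) i) = Λ s a * ∏ i, (s i).1.1 (x i) := by
    intro s a ha x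
    rw [← Finset.prod_mul_distrib]
    exact Finset.prod_congr rfl fun i _ => ce_mul (s i).1.2.1 (ha i) (x i)
  have tr2 : ∀ (s : I → Xd p d) (a : I → Md d), (∀ i, (a i : N) ∈ Subgroup.center N) →
      ∀ x : I → Md d, ∏ i, (β₀ (s i)).1 ((a * x) i) = Λ s (cs a) * ∏ i, (β₀ (s i)).1 (x i) := by
    intro s a ha x
    rw [← Finset.prod_mul_distrib]
    refine Finset.prod_congr rfl fun i _ => ?_
    change _ = ce (s i).1.1 (a i) * _
    rw [← hcc (s i) (a i) (ha i)]
    exact ce_mul (β₀ (s i)).2.1 (hcenN _ (ha i)) (x i)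
  have hdN : ∀ n : I → N, F n = 1 → ∀ i, d (n i) = n i := by
    intro n hn
    rw [← hH, hn]
    exact H.one_mem
  -- the stable sets
  let Xs : Set (X p L) := {χ | ∃ s : I → Xd p d, ∀ n, χ.1 (F' n) = ∏ i, (s i).1.1 (n i)}
  let Ys : Set (X p (L.subgroupOf H)) := Set.univ
  have hact : ∀ (t : I → X p N) (h : H) (n : I → N),
      ∏ i, (t i).1 (actH σ c hc h n i) = ∏ i, (t (σ h i)).1 (c h i (n i)) := by
    intro t h n
    refine Fintype.prod_equiv (σ h)⁻¹ _ _ fun i => ?_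
    have e : σ h ((σ h)⁻¹ i) = i := (σ h).apply_symm_apply i
    rw [e]
    rfl
  have hXs : ∀ χ ∈ Xs, ∀ h : H, xc (MulAut.conjNormal (h : G)) χ ∈ Xs := by
    rintro χ ⟨s, hs⟩ h
    refine ⟨fun i => ⟨xc (c h i) (s (σ h i)).1, fun n => ?_⟩, fun n => ?_⟩
    · change (s (σ h i)).1.1 (c h i (d n)) = (s (σ h i)).1.1 (c h i n)
      have e : c h i (d n) = d (c h i n) := congrArg (fun a : MulAut N => a n) (hA h i).1
      rw [e]
      exact (s (σ h i)).2 _
    · have h1 : (xc (MulAut.conjNormal (h : G)) χ).1 (F' n) = χ.1 (F' (actH σ c hc h n)) := by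
        change χ.1 (MulAut.conjNormal (h : G) (F' n)) = _
        exact congrArg χ.1 (Subtype.ext (hφ h n).symm)
      rw [h1, hs]
      exact hact (fun i => (s i).1) h n
  have hinvX : ∀ χ : X p L, (∀ x ∈ P, fixes L.subtype χ.1 x) → χ ∈ Xs := by
    intro χ hχ
    obtain ⟨t, ht⟩ := coverI F' hF' χ
    have h1 : ∀ i n, (t i).1 (d n) = (t i).1 n := by
      intro i
      obtain ⟨x, hxP, hxi, hxd⟩ := hPd i
      have h2 : (xO fun j => xc (c x j) (t (σ x j))) = xO t := by
        apply Subtype.ext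
        funext n
        change ∏ j, (t (σ x j)).1 (c x j (n j)) = ∏ j, (t j).1 (n j)
        rw [← hact, ← ht, ← ht]
        exact hχ x hxP (F' n) (F' (actH σ c hc x n)) (hφ x n).symm
      have h3 := congrFun (xO_inj h2) i
      intro n
      have h4 := congrArg (fun χ : X p N => χ.1 n) h3
      change (t (σ x i)).1 (c x i n) = (t i).1 n at h4
      rw [hxi, hxd] at h4
      exact h4
    exact ⟨fun i => ⟨t i, h1 i⟩, ht⟩
  -- the relation
  have E1 : ∀ χ : Xs, ∃ s : I → Xd p d, ∀ n, χ.1.1 (F' n) = ∏ i, (s i).1.1 (n i) :=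
    fun χ => χ.2
  have U1 : ∀ s s' : I → Xd p d, (∀ n : I → N, ∏ i, (s i).1.1 (n i) =
      ∏ i, (s' i).1.1 (n i)) → s = s' := by
    intro s s' h
    have h1 : (xO fun i => (s i).1) = xO fun i => (s' i).1 := Subtype.ext (funext h)
    funext i
    exact Subtype.ext (congrFun (xO_inj h1) i)
  have E2 : ∀ ψ : Ys, ∃ s : I → Xd p d, ∀ m, ψ.1.1 (F2 m) = ∏ i, (β₀ (s i)).1 (m i) := by
    intro ψ
    obtain ⟨s, hs⟩ := coverI F2 hF2 ψ.1
    refine ⟨fun i => β₀.symm (s i), fun m => ?_⟩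
    rw [hs]
    refine Finset.prod_congr rfl fun i _ => ?_
    rw [β₀.apply_symm_apply]
  have D1 : ∀ (χ : Xs) (s : I → Xd p d), (∀ n, χ.1.1 (F' n) = ∏ i, (s i).1.1 (n i)) →
      ∃ ψ : Ys, ∀ m, ψ.1.1 (F2 m) = ∏ i, (β₀ (s i)).1 (m i) := by
    intro χ s hs
    have hk : ∀ b ∈ F2.ker, ∀ x, (xO fun i => β₀ (s i)).1 (b * x) = (xO fun i => β₀ (s i)).1 x := by
      intro b hb x
      have h1 : F (cs b) = 1 :=
        congrArg (fun y : L.subgroupOf H => ((y : H) : G)) ((MonoidHom.mem_ker).mp hb)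
      have h2 : ∀ i, (b i : N) ∈ Subgroup.center N := hker _ h1
      change ∏ i, (β₀ (s i)).1 ((b * x) i) = ∏ i, (β₀ (s i)).1 (x i)
      rw [tr2 s b h2 x]
      have h3 : Λ s (cs b) = 1 := by
        have h4 := tr1 s (cs b) h2 1
        have h5 : F' (cs b * 1) = F' 1 := by
          apply Subtype.ext
          rw [hF'c, hF'c, mul_one, h1, map_one]
        rw [← hs, ← hs, h5] at h4
        have h6 : χ.1.1 (F' 1) ≠ 0 := by
          rw [map_one]
          exact irr_ne χ.1.2.1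
        exact (right_eq_mul₀ h6).mp h4
      rw [h3, one_mul]
    obtain ⟨ψ, hψ⟩ := desc F2 hF2 (xO fun i => β₀ (s i)).2.1 hk (xO fun i => β₀ (s i)).2.2
    exact ⟨⟨ψ, trivial⟩, hψ⟩
  have D2 : ∀ (ψ : Ys) (s : I → Xd p d), (∀ m, ψ.1.1 (F2 m) = ∏ i, (β₀ (s i)).1 (m i)) →
      ∃ χ : Xs, ∀ n, χ.1.1 (F' n) = ∏ i, (s i).1.1 (n i) := by
    intro ψ s hs
    have hk : ∀ b ∈ F'.ker, ∀ x, (xO fun i => (s i).1).1 (b * x) = (xO fun i => (s i).1).1 x := by
      intro b hb x
      have h1 : F b = 1 := congrArg (fun y : L => (y : G)) ((MonoidHom.mem_ker).mp hb)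
      have h2 : ∀ i, b i ∈ Subgroup.center N := hker _ h1
      change ∏ i, (s i).1.1 ((b * x) i) = ∏ i, (s i).1.1 (x i)
      rw [tr1 s b h2 x]
      have h3 : Λ s b = 1 := by
        have h4 := tr2 s (fun i => ⟨b i, hdN b h1 i⟩) h2 1
        have h5 : F2 ((fun i => ⟨b i, hdN b h1 i⟩) * 1) = F2 1 := by
          rw [mul_one, map_one]
          exact Subtype.ext (Subtype.ext h1)
        rw [← hs, ← hs, h5] at h4
        have h6 : ψ.1.1 (F2 1) ≠ 0 := by
          rw [map_one]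
          exact irr_ne ψ.1.2.1
        exact (right_eq_mul₀ h6).mp h4
      rw [h3, one_mul]
    obtain ⟨χ, hχ⟩ := desc F' hF' (xO fun i => (s i).1).2.1 hk (xO fun i => (s i).1).2.2
    exact ⟨⟨χ, ⟨s, hχ⟩⟩, hχ⟩
  choose S1' hS1 using E1
  have hD1 := fun χ => D1 χ (S1' χ) (hS1 χ)
  choose b hb using hD1
  have hbinj : Function.Injective b := by
    intro χ χ' h
    have h1 : S1' χ = S1' χ' := by
      have h2 : (xO fun i => β₀ (S1' χ i)) = xO fun i => β₀ (S1' χ' i) := by
        apply Subtype.ext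
        funext m
        change ∏ i, (β₀ (S1' χ i)).1 (m i) = ∏ i, (β₀ (S1' χ' i)).1 (m i)
        rw [← hb χ m, ← hb χ' m, h]
      funext i
      exact β₀.injective (congrFun (xO_inj h2) i)
    apply Subtype.ext
    apply Subtype.ext
    funext l
    obtain ⟨n, rfl⟩ := hF' l
    rw [hS1, hS1, h1]
  have hbsur : Function.Surjective b := by
    intro ψ
    obtain ⟨s, hs⟩ := E2 ψ
    obtain ⟨χ, hχ⟩ := D2 ψ s hs
    refine ⟨χ, ?_⟩
    have h1 : S1' χ = s := U1 _ _ fun n => by rw [← hS1, ← hχ]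
    apply Subtype.ext
    apply Subtype.ext
    funext l
    obtain ⟨m, rfl⟩ := hF2 l
    rw [hb, hs, h1]
  let β : Xs ≃ Ys := Equiv.ofBijective b ⟨hbinj, hbsur⟩
  have hβ : ∀ χ, β χ = b χ := fun _ => rfl
  have hclβ : ∀ χ : Xs, cl p (ndeg χ.1.1) = cl p (ndeg (β χ).1.1) := by
    intro χ
    have h1 : ndeg χ.1.1 = ∏ i, ndeg (S1' χ i).1.1 := by
      have h2 : (fun x => χ.1.1 (F' x)) = (xO fun i => (S1' χ i).1).1 := by
        funext n
        exact hS1 χ n
      rw [← (cover F' hF' χ.1).2, h2]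
      exact (bt_irrX (p := p) (fun i => (S1' χ i).1)).2
    have h2 : ndeg (β χ).1.1 = ∏ i, ndeg (β₀ (S1' χ i)).1 := by
      have h3 : (fun x => (β χ).1.1 (F2 x)) = (xO fun i => β₀ (S1' χ i)).1 := by
        funext m
        exact hb χ m
      rw [← (cover F2 hF2 (β χ).1).2, h3]
      exact (bt_irrX (p := p) (fun i => β₀ (S1' χ i))).2
    rw [h1, h2, map_prod, map_prod]
    exact Finset.prod_congr rfl fun i _ => hcl₀ _
  -- the pairing
  have hmm : ∀ (χ : Xs) (ψ : Ys),
      mm F' (actH σ c hc) ω χ.1.1 ψ.1.1 = if ψ = β χ then 1 else 0 := by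
    intro χ ψ
    have hac : ∀ (m : I → Md d) (n : I → N),
        actH σ c hc ⟨F (cs m), hcsH m⟩ n = cs m * n * (cs m)⁻¹ := by
      intro m n
      obtain ⟨h1, h2⟩ := hFH (cs m) (hcsH m)
      funext j
      rw [actH_apply, h1, h2]
      rfl
    let K := (I → N) ⋊[(actH σ c hc).comp (L.subgroupOf H).subtype] (L.subgroupOf H)
    let Ψ : (I → N) × (I → Md d) →* K :=
      { toFun := fun x => ⟨x.1 * (cs x.2)⁻¹, F2 x.2⟩
        map_one' := by
          ext
          · simp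
          · simp
        map_mul' := fun x y => by
          have e : ∀ n, ((actH σ c hc).comp (L.subgroupOf H).subtype) (F2 x.2) n =
              cs x.2 * n * (cs x.2)⁻¹ := fun n => hac x.2 n
          apply SemidirectProduct.ext
          · rw [mul_left, e]
            simp only [Prod.fst_mul, Prod.snd_mul, map_mul]
            group
          · rw [mul_right]
            exact map_mul F2 _ _ }
    have hΨ : Function.Surjective Ψ := by
      intro k
      obtain ⟨m, hm⟩ := hF2 k.right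
      refine ⟨(k.left * cs m, m), ?_⟩
      apply SemidirectProduct.ext
      · change k.left * cs m * (cs m)⁻¹ = k.left
        group
      · exact hm
    haveI := Fintype.ofFinite L
    haveI := Fintype.ofFinite (L.subgroupOf H)
    haveI := Fintype.ofFinite K
    haveI := Fintype.ofFinite (Md d)
    haveI := Fintype.ofFinite (I → N)
    haveI := Fintype.ofFinite (I → Md d)
    unfold mm
    rw [pr_eq, ← B_infl Ψ hΨ]
    have e1 : (fun x => (fun k : K => ω ⟨k.left, k.right⟩) (Ψ x)) =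
        ∑ s : I → Xd p d, ten (fun n : I → N => ∏ i, (s i).1.1 (n i))
          (fun m : I → Md d => ∏ i, (β₀ (s i)).1 (m i)⁻¹) := by
      funext x
      obtain ⟨n, m⟩ := x
      rw [Finset.sum_apply]
      have h1 : ω ⟨n * (cs m)⁻¹, ⟨F (cs m), hcsH m⟩⟩ = _ :=
        hωf (n * (cs m)⁻¹) ⟨F (cs m), hcsH m⟩ (hFH (cs m) (hcsH m)).1
      have h2 : ∀ i, ω₀ ⟨(n * (cs m)⁻¹) i, ⟨c ⟨F (cs m), hcsH m⟩ i, hA _ _⟩⟩ =
          ∑ χ : Xd p d, χ.1.1 (n i) * (β₀ χ).1 (m i)⁻¹ := by
        intro i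
        rw [← finsum_eq_sum_of_fintype]
        exact hform₀ (n i) (m i) _ ((hFH (cs m) (hcsH m)).2 i)
      change ω ⟨n * (cs m)⁻¹, ⟨F (cs m), hcsH m⟩⟩ = _
      rw [h1]
      simp_rw [h2]
      rw [Finset.prod_univ_sum]
      unfold ten
      simp only [Finset.prod_mul_distrib]
      refine Finset.sum_congr (by ext; simp) fun s _ => rfl
    have e2 : (fun x => (fun k : K => χ.1.1 (F' k.left * vv L H k.right) * ψ.1.1 k.right⁻¹) (Ψ x)) =
        ten (fun n : I → N => χ.1.1 (F' n)) (fun m : I → Md d => ψ.1.1 (F2 m⁻¹)) := by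
      funext x
      obtain ⟨n, m⟩ := x
      change χ.1.1 (F' (n * (cs m)⁻¹) * vv L H (F2 m)) * ψ.1.1 (F2 m)⁻¹ =
        χ.1.1 (F' n) * ψ.1.1 (F2 m⁻¹)
      have h1 : vv L H (F2 m) = F' (cs m) := rfl
      have h3 : F2 m⁻¹ = (F2 m)⁻¹ := map_inv F2 m
      have h4 : n * (cs m)⁻¹ * cs m = n := by group
      rw [h1, ← map_mul, h4, h3]
    rw [e1, e2, IC.B_sum_left]
    have h1 : ∀ s : I → Xd p d, IC.B (fun n : I → N => ∏ i, (s i).1.1 (n i))
        (fun n : I → N => χ.1.1 (F' n)) = if s = S1' χ then 1 else 0 := by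
      intro s
      refine (IC.B_irr (xO fun i => (s i).1).2.1 (cover F' hF' χ.1).1).trans ?_
      refine if_congr ⟨fun h => ?_, fun h => ?_⟩ rfl rfl
      · refine U1 _ _ fun n => ?_
        rw [← hS1 χ n]
        exact congrFun h n
      · rw [h]
        funext n
        exact (hS1 χ n).symm
    rw [Finset.sum_congr rfl fun s _ => B_ten _ _ _ _]
    rw [Finset.sum_eq_single (S1' χ)]
    · rw [h1, if_pos rfl, one_mul]
      have h2 : IsIrr fun m : I → Md d => ∏ i, (β₀ (S1' χ i)).1 (m i)⁻¹ :=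
        irr_inv (xO fun i => β₀ (S1' χ i)).2.1
      have h3 : IsIrr fun m : I → Md d => ψ.1.1 (F2 m⁻¹) := irr_inv (cover F2 hF2 ψ.1).1
      rw [IC.B_irr h2 h3]
      refine if_congr ⟨fun h => ?_, fun h => ?_⟩ rfl rfl
      · apply Subtype.ext
        apply Subtype.ext
        funext l
        obtain ⟨m, rfl⟩ := hF2 l
        have h4 := congrFun h m⁻¹
        simp only [inv_inv, Pi.inv_apply] at h4
        rw [hβ, hb, h4]
      · rw [h, hβ]
        funext m
        rw [hb]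
        rfl
    · intro s _ hs
      rw [h1, if_neg hs, zero_mul]
    · intro h
      exact absurd (Finset.mem_univ _) h
  exact transfer2 F' (actH σ c hc) hφ hω Xs Ys β hmm hXs (fun _ _ _ => trivial) hclβ hF' P hNP hsup
    hinvX (fun _ _ => trivial)

end wreg

end Pool.Agent.ZH17.RD
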