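import Pool.Agent.ZH17.RD.Stm4
import Pool.Agent.ZH17.RD.WreG
import Pool.Agent.ZH17.RD.Grp
import Pool.Agent.ZH17.RD.Lb
import Pool.Agent.ZH17.RD.Twi
import Pool.Agent.ZH17.RD.Chr

/-!
# The reduction for all socles
-/

set_option autoImplicit false
set_option linter.unusedSectionVars false
set_option linter.style.haveILetI false

open scoped BigOperators Classical

noncomputable section

namespace Pool.Agent.ZH17.RD

open Pool.Agent.Helper884 Pool.Agent.K3h3.KB Pool.Agent.K3h3.MK Pool.Agent.K3h83.IN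
open Pool.Agent.K3h83.PI
open Pool.Agent.H254R3.IN (IsIrr mem_Irr)
open IC (Irr)

section

variable {p : ℕ} [hp : Fact p.Prime]

/-- the condition on the simple groups -/
def GdS (p : ℕ) [Fact p.Prime] (S : Type) [Group S] : Prop :=
  (p ∣ Nat.card S → LnkS p S) ∧ (¬ p ∣ Nat.card S → OutC p S)

/-- `M ≅ S ^ k` with a simple group `S` which is linked, or of order prime to `p` and satisfies `OutC` -/
def GdA (p : ℕ) [Fact p.Prime] (M : Type) [Group M] : Prop :=
  ∃ (S : Type) (_ : Group S) (_ : Finite S) (_ : IsSimpleGroup S) (k : ℕ), 0 < k ∧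
    (∃ a b : S, a * b ≠ b * a) ∧ Nonempty (M ≃* (Fin k → S)) ∧ GdS p S

/-- the step -/
theorem step_GdA (hAB : GRPAB) (hGLA : GLA) (G : Type) [Group G] [Finite G] (P : Sylow p G)
    (hP : Red2 P) (M : Subgroup (G ⧸ Subgroup.center G)) (hM : BadM p (G ⧸ Subgroup.center G) M)
    (hD : GdA p M) :
    ∃ H : Subgroup G, NN P ≤ H ∧ H ≠ ⊤ ∧ wt (cl p) G = wt (cl p) H := by
  obtain ⟨S, _, _, _, k, hk, hS, hMS, h1, h2⟩ := hD
  by_cases hpS : p ∣ Nat.card S
  · exact step_GdM grp G P hP M hM ⟨S, _, ‹_›, ‹_›, k, hk, hS, hMS, hpS, h1 hpS⟩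
  · rcases hAB p G P hP S hS hpS (h2 hpS) k hk M hM.1 hM.2.1 hMS with hB | hA
    · obtain ⟨N, _, _, J, O, _, _, a, F, σ, τ, π, c1, c2, c3, c4, c5, c6, c7, c8, c9, c10, c11⟩ := hB
      exact ⟨NN P, le_rfl, hP.ne, wreB twi lb P a F σ τ π c1 c2 c3 c4 c5 c6 c7 c8 c9 c10 c11⟩
    · obtain ⟨N, _, _, I, _, F, H, σ, c, d, c1, c2, c3, c4, c5, c6, c7, c8, c9, c10, c11, c12⟩ := hA
      exact ⟨H, c5, c6, wreG hGLA P F H σ c d c1 c2 c3 c4 c5 c7 c8 c9 c10 c11 c12⟩

/-- **Q1 for all groups whose obstructions have good socles** -/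
theorem main_R2 (hAB : GRPAB) (hGLA : GLA) :
    ∀ (G : Type) [Group G] [Finite G], SeD p (GdA p) G → Q1 p G := by
  refine red_step (cls_SeD p (GdA p)) fun G _ _ hG P hP hc => ?_
  obtain ⟨M, hM⟩ := bad_of_red P hP hc
  refine step_GdA hAB hGLA G P hP M hM ?_
  refine hG (G ⧸ Subgroup.center G) ⊤ ((QuotientGroup.mk' (Subgroup.center G)).comp
    Subgroup.topEquiv.toMonoidHom) ?_ ?_ M hM
  · rw [Subgroup.index_top]
    exact hp.out.one_lt.ne' ∘ Nat.dvd_one.mp
  · exact (QuotientGroup.mk'_surjective _).comp Subgroup.topEquiv.surjective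

/-- from sections to obstructions -/
theorem seD_of_sec (G : Type) [Group G] [Finite G]
    (h : ∀ (S : Type) [Group S] [Finite S] [IsSimpleGroup S], (∃ a b : S, a * b ≠ b * a) → IsSec S G →
      GdS p S) : SeD p (GdA p) G := by
  intro Y _ H f hi hf M hM
  haveI : Finite Y := Finite.of_surjective f hf
  obtain ⟨S, _, _, _, k, hk, hS, ⟨e⟩⟩ := chr Y M hM.1 hM.2.1 hM.2.2.1
  refine ⟨S, _, ‹_›, ‹_›, k, hk, hS, ⟨e⟩, h S hS ?_⟩
  let A : Subgroup H := M.comap f
  let A' : Subgroup G := A.map H.subtype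
  have e1 : A ≃* A' := A.equivMapOfInjective H.subtype H.subtype_injective
  let g : A →* M := f.subgroupComap M
  have hg : Function.Surjective g := by
    rintro ⟨y, hy⟩
    obtain ⟨x, rfl⟩ := hf y
    exact ⟨⟨x, hy⟩, rfl⟩
  let ev : (Fin k → S) →* S := Pi.evalMonoidHom (fun _ => S) ⟨0, hk⟩
  have hev : Function.Surjective ev := fun s => ⟨fun _ => s, rfl⟩
  exact ⟨A', ((ev.comp e.toMonoidHom).comp g).comp e1.symm.toMonoidHom,
    ((hev.comp e.surjective).comp hg).comp e1.symm.surjective⟩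

end

end Pool.Agent.ZH17.RD
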