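import Pool.Agent.ZH17.RD.QxcA

/-!
# Pieces QXC and AQC of project RD
-/

set_option autoImplicit false
set_option linter.unusedSectionVars false
set_option linter.style.haveILetI false

open scoped BigOperators Classical

noncomputable section

namespace Pool.Agent.ZH17.RD

open Pool.Agent.Helper884 Pool.Agent.K3h3.KB Pool.Agent.K3h3.MK Pool.Agent.K3h83.IN
open Pool.Agent.K3h83.PI
open Pool.Agent.H254R3.IN (IsIrr mem_Irr)
open IC (Irr)

namespace QxcP

section

variable {p : ℕ} [hp : Fact p.Prime]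

/-- the elements of order `p` of a cyclic group -/
theorem uniq_p {G : Type} [Group G] [Finite G] {D Q : Subgroup G} (hD : IsCyclic D) (hQD : Q ≤ D)
    (cQ : Nat.card Q = p) {y : G} (hy : y ∈ D) (hyp : y ^ p = 1) : y ∈ Q := by
  let _ : Fintype D := Fintype.ofFinite D
  have h1 := IsCyclic.card_pow_eq_one_le (α := D) hp.out.pos
  have h2 : (Q.subgroupOf D : Set D).toFinset ⊆ Finset.univ.filter fun a : D => a ^ p = 1 := by
    intro a ha
    rw [Set.mem_toFinset] at ha
    rw [Finset.mem_filter]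
    refine ⟨Finset.mem_univ _, ?_⟩
    apply Subtype.ext
    have ha' : (a : G) ∈ Q := ha
    have h3 := orderOf_dvd_natCard (⟨(a : G), ha'⟩ : Q)
    rw [cQ, ← Subgroup.orderOf_coe] at h3
    simpa using orderOf_dvd_iff_pow_eq_one.1 h3
  have h4 : (Q.subgroupOf D : Set D).toFinset.card = p := by
    rw [Set.toFinset_card, ← Nat.card_eq_fintype_card]
    exact (Nat.card_congr (Subgroup.subgroupOfEquivOfLe hQD).toEquiv).trans cQ
  have h5 := Finset.eq_of_subset_of_card_le h2 (by rw [h4]; exact h1)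
  have h6 : (⟨y, hy⟩ : D) ∈ Finset.univ.filter fun a : D => a ^ p = 1 := by
    rw [Finset.mem_filter]
    exact ⟨Finset.mem_univ _, Subtype.ext (by simpa using hyp)⟩
  rw [← h5, Set.mem_toFinset] at h6
  exact h6

/-- restriction of an automorphism -/
def rsB {G : Type} [Group G] (y : MulAut G) (B : Subgroup G) (hB : ∀ b, y b ∈ B ↔ b ∈ B) :
    MulAut B where
  toFun b := ⟨y b, (hB b).2 b.2⟩
  invFun b := ⟨y⁻¹ b, (hB _).1 (by rw [MulAut.apply_inv_self]; exact b.2)⟩
  left_inv b := Subtype.ext (MulAut.inv_apply_self G y b)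
  right_inv b := Subtype.ext (MulAut.apply_inv_self G y b)
  map_mul' b b' := Subtype.ext (map_mul y _ _)

/-- the normalizer of a Sylow subgroup and a subgroup containing it -/
theorem fin_NN {X : Type} [Group X] [Finite X] (P : Sylow p X) {Y : Subgroup X} (h : NN P ≤ Y)
    (hw : wt (cl p) X = wt (cl p) Y) (hQ : Q1 p Y) : wt (cl p) X = wt (cl p) (NN P) := by
  rw [hw, ← wt_NN_sub P h]
  exact hQ _

theorem sol_comm {G : Type} [Group G] (h : ∀ a b : G, a * b = b * a) : Group.IsSolvable G :=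
  Group.isSolvable_of_comm h

theorem quot_comm {X : Type} [Group X] (Γ : Subgroup X) [Γ.Normal] {x : X}
    (hx : Subgroup.zpowers x ⊔ Γ = ⊤) : ∀ a b : X ⧸ Γ, a * b = b * a := by
  have hc : IsCyclic (X ⧸ Γ) := by
    refine ⟨(x : X ⧸ Γ), fun y => ?_⟩
    obtain ⟨y, rfl⟩ := QuotientGroup.mk_surjective y
    have hy : y ∈ Subgroup.zpowers x ⊔ Γ := by rw [hx]; exact Subgroup.mem_top y
    obtain ⟨u, hu, v, hv, rfl⟩ := Subgroup.mem_sup_of_normal_right.1 hy
    obtain ⟨i, rfl⟩ := hu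
    refine ⟨i, ?_⟩
    show ((x : X ⧸ Γ)) ^ i = _
    have h1 : ((x ^ i * v : X) : X ⧸ Γ) = (x : X ⧸ Γ) ^ i * (v : X ⧸ Γ) := rfl
    have h2 : (v : X ⧸ Γ) = 1 := (QuotientGroup.eq_one_iff v).2 hv
    show (x : X ⧸ Γ) ^ i = ((x ^ i * v : X) : X ⧸ Γ)
    rw [h1, h2, mul_one]
  letI := hc.commGroup
  exact fun a b => mul_comm a b

end

end QxcP

open QxcP in
/-- **Piece QXC** -/
theorem qxc (hCNY : CNY) : QXC := by
  intro p _ X _ _ Γ hΓn hcyc x hx k hidx hsol P
  have hp : Fact p.Prime := inferInstance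
  haveI := hΓn
  haveI := Fintype.ofFinite X
  haveI := Fintype.ofFinite Γ
  have hXs : Group.IsSolvable (X ⧸ Γ) := sol_comm (quot_comm Γ hx)
  -- the Sylow subgroup covers the quotient
  have hPΓ : (P : Subgroup X) ⊔ Γ = ⊤ := by
    rw [← Subgroup.index_eq_one]
    have h1 : ((P : Subgroup X) ⊔ Γ).index ∣ p ^ k := by
      rw [← hidx]
      exact Subgroup.index_dvd_of_le le_sup_right
    obtain ⟨i, _, hi⟩ := (Nat.dvd_prime_pow hp.out).1 h1
    rcases Nat.eq_zero_or_pos i with rfl | h0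
    · rw [hi, pow_zero]
    · exfalso
      refine P.not_dvd_index ?_
      refine Dvd.dvd.trans ?_ (Subgroup.index_dvd_of_le (le_sup_left : (P : Subgroup X) ≤ _ ⊔ Γ))
      rw [hi]
      exact dvd_pow_self p h0.ne'
  obtain ⟨x', hx'P, g₁, hg₁, hxx⟩ : ∃ y ∈ (P : Subgroup X), ∃ z ∈ Γ, y * z = x :=
    Subgroup.mem_sup_of_normal_right.1 (by rw [hPΓ]; exact Subgroup.mem_top x)
  have hx'Γ : Subgroup.zpowers x' ⊔ Γ = ⊤ := by
    rw [eq_top_iff, ← hx]
    refine sup_le ?_ le_sup_right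
    rw [Subgroup.zpowers_le, ← hxx]
    exact mul_mem ((le_sup_left : Subgroup.zpowers x' ≤ _) (Subgroup.mem_zpowers x'))
      ((le_sup_right : Γ ≤ _) hg₁)
  have hgen : ∀ y : X, ∃ g : Γ, ∃ i : ℕ, y = g * x' ^ i := by
    intro y
    have hy : y ∈ Γ ⊔ Subgroup.zpowers x' := by rw [sup_comm, hx'Γ]; exact Subgroup.mem_top y
    obtain ⟨u, hu, v, hv, rfl⟩ := Subgroup.mem_sup_of_normal_left.1 hy
    obtain ⟨i, rfl⟩ := mem_powers_iff_mem_zpowers.2 hv
    exact ⟨⟨u, hu⟩, i, rfl⟩
  -- sections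
  have hsecΓ : ∀ (T : Type) [Group T] [IsSimpleGroup T], (∃ a b : T, a * b ≠ b * a) → IsSec T X →
      IsSec T Γ := by
    intro T _ _ hT h
    have h1 := sec_ker hT (QuotientGroup.mk' Γ) hXs h
    rwa [QuotientGroup.ker_mk'] at h1
  by_cases hdvd : p ∣ Nat.card Γ
  swap
  · refine fin_NN P (Y := ⊤) le_top (wt_congr (cl p) Subgroup.topEquiv.symm) (hsol ⊤ ?_)
    intro T _ _ hT h
    have h1 : IsSec T Γ := hsecΓ T hT (sec_inj (Subgroup.subtype _) (Subgroup.subtype_injective _) h)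
    exact ⟨fun h2 => hdvd (h2.trans (sec_card h1)), h1⟩
  -- the Sylow subgroup of `Γ`
  let D₀ : Subgroup Γ := (P : Subgroup X).subgroupOf Γ
  have hDp : IsPGroup p D₀ := P.isPGroup'.comap_of_injective Γ.subtype (Subgroup.subtype_injective _)
  have hDi : ¬ p ∣ D₀.index := by
    intro h
    apply P.not_dvd_index (p := p)
    have h1 : D₀.index = (P : Subgroup X).index := by
      have h2 : (P : Subgroup X).relIndex Γ * Γ.index = ((P : Subgroup X) ⊓ Γ).index := by
        rw [← Subgroup.inf_relIndex_right]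
        exact Subgroup.relIndex_mul_index inf_le_right
      have h3 : Γ.relIndex (P : Subgroup X) * (P : Subgroup X).index =
          ((P : Subgroup X) ⊓ Γ).index := by
        rw [← Subgroup.inf_relIndex_left]
        exact Subgroup.relIndex_mul_index inf_le_left
      have h4 : Γ.relIndex (P : Subgroup X) = Γ.index := by
        rw [← Subgroup.relIndex_sup_right, hPΓ, Subgroup.relIndex_top_right]
      rw [h4] at h3
      rw [← h3, mul_comm] at h2
      exact Nat.eq_of_mul_eq_mul_left (Nat.pos_of_ne_zero Subgroup.FiniteIndex.index_ne_zero) h2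
    rwa [← h1]
  let D : Sylow p Γ := hDp.toSylow hDi
  have hD : (D : Subgroup Γ) = D₀ := rfl
  obtain ⟨Q, B, H, hDB, hQD, hB, hLC, hE1, -⟩ := a_C0 p Γ D (hcyc D) hdvd
  have cQ : Nat.card Q = p := by
    have h1 := hLC.cQ
    rw [← h1]
    refine Nat.card_congr (Subgroup.subgroupOfEquivOfLe ?_).toEquiv.symm
    exact hQD.trans (Subgroup.le_normalizer.trans hDB)
  -- conjugation by elements normalising `P`
  have hconj : ∀ n ∈ NN P, ∀ q ∈ Q, MulAut.conjNormal n q ∈ Q := by
    intro n hn q hq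
    have h1 : MulAut.conjNormal n q ∈ (D : Subgroup Γ) := by
      rw [hD, Subgroup.mem_subgroupOf, MulAut.conjNormal_apply]
      exact (Subgroup.mem_normalizer_iff.1 hn (q : X)).1 (hQD hq)
    refine uniq_p (p := p) (hcyc D) hQD cQ h1 ?_
    have h3 := orderOf_dvd_natCard (⟨q, hq⟩ : Q)
    rw [cQ, ← Subgroup.orderOf_coe] at h3
    have h4 : q ^ p = 1 := orderOf_dvd_iff_pow_eq_one.1 h3
    rw [← map_pow, h4, map_one]
  -- the normalizer of `Q` in `X`
  let Q' : Subgroup X := Q.map Γ.subtype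
  let Y : Subgroup X := Subgroup.normalizer (Q' : Set X)
  have hPY : NN P ≤ Y := by
    intro n hn
    apply Subgroup.mem_normalizer_fintype
    rintro _ ⟨q, hq, rfl⟩
    exact ⟨MulAut.conjNormal n q, hconj n hn q hq, by rw [Subgroup.coe_subtype, MulAut.conjNormal_apply]⟩
  have hx'N : x' ∈ NN P := Subgroup.le_normalizer hx'P
  have hx'Y : x' ∈ Y := hPY hx'N
  have hmemB : ∀ g : Γ, (g : X) ∈ Y ↔ g ∈ B := by
    intro g
    rw [hB]
    constructor
    · intro h
      apply Subgroup.mem_normalizer_fintype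
      intro q hq
      obtain ⟨r, hr, hr2⟩ := (Subgroup.mem_normalizer_iff.1 h (q : X)).1 ⟨q, hq, rfl⟩
      have h1 : g * q * g⁻¹ = r := Subtype.ext hr2.symm
      rw [h1]
      exact hr
    · intro h
      apply Subgroup.mem_normalizer_fintype
      rintro _ ⟨q, hq, rfl⟩
      exact ⟨g * q * g⁻¹, (Subgroup.mem_normalizer_iff.1 h q).1 hq, rfl⟩
  -- the automorphisms
  let y : MulAut Γ := MulAut.conjNormal x'
  have hy : ∀ g : Γ, ((y g : Γ) : X) = x' * g * x'⁻¹ := fun g => MulAut.conjNormal_apply x' g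
  have hyB : ∀ b, y b ∈ B ↔ b ∈ B := by
    intro b
    rw [← hmemB, ← hmemB, hy]
    constructor
    · intro h
      have h1 := mul_mem (mul_mem (inv_mem hx'Y) h) hx'Y
      have h2 : x'⁻¹ * (x' * (b : X) * x'⁻¹) * x' = b := by group
      rwa [h2] at h1
    · intro h
      exact mul_mem (mul_mem hx'Y h) (inv_mem hx'Y)
  let z : MulAut B := rsB y B hyB
  obtain ⟨m, hm⟩ := P.isPGroup' ⟨x', hx'P⟩
  have hm' : x' ^ p ^ m = 1 := congrArg Subtype.val hm
  have hym : y ^ p ^ m = 1 := by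
    show (MulAut.conjNormal x') ^ p ^ m = 1
    rw [← map_pow, hm', map_one]
  haveI := Fintype.ofFinite B
  haveI := Fintype.ofFinite Y
  have hcny := hCNY p B Γ _ _ H B.subtype hLC hE1 y z (fun b => rfl) m hym
  -- the counts
  have hw1 := wt_cyc (p := p) Γ.subtype (Subgroup.subtype_injective _)
    (by rw [Subgroup.range_subtype]; exact hΓn) x' y (fun g => (hy g).symm) hgen k
    (by rw [Subgroup.range_subtype]; exact hidx)
  let jY : B →* Y :=
    { toFun := fun b => ⟨((b : Γ) : X), (hmemB b).2 b.2⟩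
      map_one' := rfl
      map_mul' := fun _ _ => rfl }
  have hjY : Function.Injective jY := by
    intro b b' h
    exact Subtype.ext (Subtype.ext (congrArg (fun z : Y => (z : X)) h))
  have hjr : jY.range = Γ.subgroupOf Y := by
    ext w
    rw [Subgroup.mem_subgroupOf]
    constructor
    · rintro ⟨b, rfl⟩
      exact b.1.2
    · intro h
      exact ⟨⟨⟨w, h⟩, (hmemB ⟨w, h⟩).1 w.2⟩, rfl⟩
  have hjn : jY.range.Normal := by
    rw [hjr]
    infer_instance
  have hji : jY.range.index = p ^ k := by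
    rw [hjr]
    show Γ.relIndex Y = p ^ k
    have h1 : Y ⊔ Γ = ⊤ := by
      rw [eq_top_iff, ← hPΓ]
      exact sup_le_sup_right (Subgroup.le_normalizer.trans hPY) Γ
    rw [← Subgroup.relIndex_sup_right, h1, Subgroup.relIndex_top_right, hidx]
  have hgenY : ∀ w : Y, ∃ b : B, ∃ i : ℕ, w = jY b * (⟨x', hx'Y⟩ : Y) ^ i := by
    intro w
    obtain ⟨g, i, hgi⟩ := hgen (w : X)
    have h1 : (g : X) ∈ Y := by
      have h2 : (g : X) = w * (x' ^ i)⁻¹ := by rw [hgi]; group
      rw [h2]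
      exact mul_mem w.2 (inv_mem (pow_mem hx'Y i))
    refine ⟨⟨g, (hmemB g).1 h1⟩, i, Subtype.ext hgi⟩
  have hw2 := wt_cyc (p := p) jY hjY hjn (⟨x', hx'Y⟩ : Y) z
    (fun b => Subtype.ext (hy b).symm) hgenY k hji
  have hw : wt (cl p) X = wt (cl p) Y := by
    rw [hw1, hw2, hcny]
  refine fin_NN P hPY hw (hsol Y ?_)
  -- the sections of `Y`
  intro T _ _ hT h
  have h1 : IsSec T (Γ.subgroupOf Y) := by
    have h2 := sec_ker hT ((QuotientGroup.mk' Γ).comp Y.subtype) hXs h
    have h3 : ((QuotientGroup.mk' Γ).comp Y.subtype).ker = Γ.subgroupOf Y := by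
      rw [← MonoidHom.comap_ker, QuotientGroup.ker_mk']
      rfl
    rwa [h3] at h2
  have h2 : IsSec T B := by
    rw [← hjr] at h1
    exact sec_inj (MonoidHom.ofInjective hjY).symm.toMonoidHom
      (MonoidHom.ofInjective hjY).symm.injective h1
  have h3 : IsSec T Γ := sec_inj B.subtype (Subgroup.subtype_injective _) h2
  refine ⟨?_, h3⟩
  -- a section of the centralizer
  haveI := hLC.nQ
  have hQc : IsCyclic (Q.subgroupOf B) := isCyclic_of_prime_card hLC.cQ
  have hAs : Group.IsSolvable (MulAut (Q.subgroupOf B)) := by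
    refine sol_comm fun a b => ?_
    apply (hQc.mulAutMulEquiv).injective
    rw [map_mul, map_mul, mul_comm]
  have h4 := sec_ker hT (MulAut.conjNormal (H := Q.subgroupOf B)) hAs h2
  have h5 : (MulAut.conjNormal (H := Q.subgroupOf B)).ker =
      H ⊔ ((D : Subgroup Γ).subgroupOf B) := by
    rw [← hLC.cen]
    ext b
    rw [MonoidHom.mem_ker, Subgroup.mem_centralizer_iff]
    constructor
    · intro h q hq
      have h6 : MulAut.conjNormal b (⟨q, hq⟩ : Q.subgroupOf B) = ⟨q, hq⟩ := by rw [h]; rfl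
      have h7 : b * q * b⁻¹ = q := by
        have h8 := congrArg Subtype.val h6
        rwa [MulAut.conjNormal_apply] at h8
      rw [mul_inv_eq_iff_eq_mul] at h7
      exact h7.symm
    · intro h
      refine MulEquiv.ext fun q => Subtype.ext ?_
      rw [MulAut.conjNormal_apply]
      show b * (q : B) * b⁻¹ = q
      rw [← h q q.2, mul_inv_cancel_right]
  rw [h5] at h4
  haveI := hLC.nH
  set C := H ⊔ ((D : Subgroup Γ).subgroupOf B) with hC
  have hCs : Group.IsSolvable (C ⧸ (H.subgroupOf C)) := by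
    refine sol_comm fun a b => ?_
    have h6 : ∀ a : C ⧸ (H.subgroupOf C), ∃ d ∈ ((D : Subgroup Γ).subgroupOf B), ∃ hd : d ∈ C,
        a = ((⟨d, hd⟩ : C) : C ⧸ (H.subgroupOf C)) := by
      intro a
      obtain ⟨⟨a, ha⟩, rfl⟩ := QuotientGroup.mk_surjective a
      have ha' : a ∈ ((D : Subgroup Γ).subgroupOf B) ⊔ H := by rw [sup_comm]; exact ha
      obtain ⟨u, hu, v, hv, rfl⟩ := Subgroup.mem_sup_of_normal_right.1 ha'
      have hu' : u ∈ C := (le_sup_right : _ ≤ H ⊔ _) hu
      refine ⟨u, hu, hu', ?_⟩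
      rw [eq_comm, QuotientGroup.eq, Subgroup.mem_subgroupOf]
      show u⁻¹ * (u * v) ∈ H
      rw [inv_mul_cancel_left]
      exact hv
    obtain ⟨u, hu, hu', rfl⟩ := h6 a
    obtain ⟨v, hv, hv', rfl⟩ := h6 b
    have h7 : u * v = v * u := by
      letI := hLC.cyc.commGroup
      have h8 := mul_comm (⟨u, hu⟩ : ((D : Subgroup Γ).subgroupOf B)) ⟨v, hv⟩
      exact congrArg Subtype.val h8
    show (((⟨u, hu'⟩ * ⟨v, hv'⟩ : C)) : C ⧸ (H.subgroupOf C)) = ((⟨v, hv'⟩ * ⟨u, hu'⟩ : C))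
    congr 1
    exact Subtype.ext h7
  have h6 := sec_ker hT (QuotientGroup.mk' (H.subgroupOf C)) hCs h4
  rw [QuotientGroup.ker_mk'] at h6
  intro hpT
  apply hLC.cH
  have h7 := hpT.trans (sec_card h6)
  rwa [Nat.card_congr (Subgroup.subgroupOfEquivOfLe (le_sup_left : H ≤ C)).toEquiv] at h7

open QxcP in
/-- **Piece AQC** -/
theorem aqc (hQ : QXC) : AQC := by
  intro p _ S _ _ hS X _ _ hX hsol
  have hp : Fact p.Prime := inferInstance
  obtain ⟨N, hN, hNp, ⟨e⟩, hZp, -, x, hx⟩ := hX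
  haveI := hN
  have hcomm := quot_comm N hx
  letI : CommGroup (X ⧸ N) := { (inferInstance : Group (X ⧸ N)) with mul_comm := hcomm }
  haveI hcy : IsCyclic (X ⧸ N) := by
    refine ⟨(x : X ⧸ N), fun y => ?_⟩
    obtain ⟨y, rfl⟩ := QuotientGroup.mk_surjective y
    have hy : y ∈ Subgroup.zpowers x ⊔ N := by rw [hx]; exact Subgroup.mem_top y
    obtain ⟨u, hu, v, hv, rfl⟩ := Subgroup.mem_sup_of_normal_right.1 hy
    obtain ⟨i, rfl⟩ := hu
    refine ⟨i, ?_⟩
    have h1 : ((x ^ i * v : X) : X ⧸ N) = (x : X ⧸ N) ^ i * (v : X ⧸ N) := rfl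
    have h2 : (v : X ⧸ N) = 1 := (QuotientGroup.eq_one_iff v).2 hv
    show (x : X ⧸ N) ^ i = ((x ^ i * v : X) : X ⧸ N)
    rw [h1, h2, mul_one]
  obtain ⟨k, m, hm, hkm⟩ := Nat.exists_eq_pow_mul_and_not_dvd (n := Nat.card (X ⧸ N))
    Nat.card_pos.ne' p hp.out.ne_one
  -- the subgroup of index `p ^ k`
  let g : X →* X ⧸ N := (powMonoidHom m).comp (QuotientGroup.mk' N)
  have hgm : ∀ y, y ∈ g.ker ↔ ((y : X ⧸ N)) ^ m = 1 := fun y => Iff.rfl
  have hNΓ : N ≤ g.ker := by
    intro y hy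
    rw [hgm, (QuotientGroup.eq_one_iff y).2 hy, one_pow]
  have hidx : g.ker.index = p ^ k := by
    have h1 : g.ker = (powMonoidHom m : X ⧸ N →* X ⧸ N).ker.comap (QuotientGroup.mk' N) := rfl
    rw [h1, Subgroup.index_comap_of_surjective _ (QuotientGroup.mk'_surjective N),
      IsCyclic.index_powMonoidHom_ker, hkm]
    rw [Nat.gcd_eq_right (Dvd.intro_left _ rfl)]
    refine Nat.mul_div_cancel _ (Nat.pos_of_ne_zero ?_)
    rintro rfl
    exact hm (dvd_zero p)
  have hxΓ : Subgroup.zpowers x ⊔ g.ker = ⊤ := by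
    rw [eq_top_iff, ← hx]
    exact sup_le_sup_left hNΓ _
  refine hQ p X g.ker inferInstance (fun Q => ?_) x hxΓ k hidx (fun Y hY => hsol Y ?_)
  · have hmem : ∀ q : Q, ((q : g.ker) : X) ∈ N := by
      intro q
      obtain ⟨j, hj⟩ := Q.isPGroup' q
      have h1 : (((q : g.ker) : X) : X ⧸ N) ^ p ^ j = 1 := by
        have h2 : ((q : g.ker) : X) ^ p ^ j = 1 :=
          congrArg (fun z : Q => (((z : g.ker)) : X)) hj
        have h3 : (((q : g.ker) : X) : X ⧸ N) ^ p ^ j = ((((q : g.ker) : X) ^ p ^ j : X) : X ⧸ N) :=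
          rfl
        rw [h3, h2]
        rfl
      have h2 : (((q : g.ker) : X) : X ⧸ N) ^ m = 1 := (hgm _).1 (q : g.ker).2
      have h3 := pow_gcd_eq_one.2 ⟨h1, h2⟩
      have h4 : Nat.gcd (p ^ j) m = 1 :=
        Nat.Coprime.pow_left j ((Nat.Prime.coprime_iff_not_dvd hp.out).2 hm)
      rw [h4, pow_one] at h3
      exact (QuotientGroup.eq_one_iff _).1 h3
    let i : Q →* N :=
      { toFun := fun q => ⟨((q : g.ker) : X), hmem q⟩
        map_one' := rfl
        map_mul' := fun _ _ => rfl }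
    have hi : Function.Injective i := by
      intro a b h
      exact Subtype.ext (Subtype.ext (congrArg (fun z : N => (z : X)) h))
    have h1 : IsPGroup p i.range := Q.isPGroup'.of_surjective i.rangeRestrict
      i.rangeRestrict_surjective
    obtain ⟨R, hR⟩ := h1.exists_le_sylow
    haveI := cyc_cover e hZp hS R
    refine isCyclic_of_injective ((Subgroup.inclusion hR).comp i.rangeRestrict) ?_
    intro a b h
    apply hi
    exact congrArg (fun z : R => (z : N)) h
  · intro T _ _ hT h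
    obtain ⟨h1, h2⟩ := hY T hT h
    refine ⟨h1, ?_⟩
    have h3 := sec_ker hT ((QuotientGroup.mk' N).comp g.ker.subtype) (sol_comm hcomm) h2
    let i : ((QuotientGroup.mk' N).comp g.ker.subtype).ker →* N :=
      { toFun := fun q => ⟨(q.1 : X), (QuotientGroup.eq_one_iff _).1 q.2⟩
        map_one' := rfl
        map_mul' := fun _ _ => rfl }
    have hi : Function.Injective i := by
      intro a b h
      exact Subtype.ext (Subtype.ext (congrArg (fun z : N => (z : X)) h))
    have h4 : IsSec T N := sec_inj i hi h3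
    refine sec_quot hT (e.toMonoidHom.comp (QuotientGroup.mk' (Subgroup.center N))) ?_ h4
    refine sol_comm fun a b => ?_
    have h5 : (a : N) ∈ Subgroup.center N := by
      have h6 : e (QuotientGroup.mk' (Subgroup.center N) (a : N)) = 1 := a.2
      rw [map_eq_one_iff e e.injective] at h6
      exact (QuotientGroup.eq_one_iff _).1 h6
    exact Subtype.ext (Subgroup.mem_center_iff.1 h5 (b : N)).symm

end Pool.Agent.ZH17.RD
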