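import Pool.Agent.ZH17.RD.Main2
import Pool.Agent.ZH17.RD.Lnkg
import Pool.Agent.ZH17.RD.Qxc
import Pool.Agent.ZH17.RD.Gla
import Pool.Agent.ZH17.RD.Cny

/-!
# The main theorems of phase A
-/

set_option autoImplicit false
set_option linter.unusedSectionVars false
set_option linter.style.haveILetI false

open scoped BigOperators Classical

noncomputable section

namespace Pool.Agent.ZH17.RD

open Pool.Agent.Helper884 Pool.Agent.K3h3.KB Pool.Agent.K3h3.MK Pool.Agent.K3h83.IN
open Pool.Agent.K3h83.PI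
open Pool.Agent.H254R3.IN (IsIrr mem_Irr)
open IC (Irr)

section

variable {p : ℕ} [hp : Fact p.Prime]

/-- the nonabelian simple sections of `S` of order prime to `p` satisfy `OutC` -/
def OutCs (p : ℕ) (S : Type) [Group S] : Prop :=
  ∀ (T : Type) [Group T] [Finite T] [IsSimpleGroup T], (∃ a b : T, a * b ≠ b * a) → IsSec T S →
    ¬ p ∣ Nat.card T → OutC p T

/-- Q1 for the groups whose nonabelian simple sections have order prime to `p` -/
theorem q1_sol (hAB : GRPAB) {S : Type} [Group S] [Finite S] (hS : OutCs p S) (Y : Type) [Group Y]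
    [Finite Y] (h : ∀ (T : Type) [Group T] [IsSimpleGroup T],
      (∃ a b : T, a * b ≠ b * a) → IsSec T Y → ¬ p ∣ Nat.card T ∧ IsSec T S) : Q1 p Y := by
  refine main_R2 hAB gla Y (seD_of_sec Y fun T _ _ _ hT hTY => ?_)
  obtain ⟨h1, h2⟩ := h T hT hTY
  exact ⟨fun h3 => absurd h3 h1, fun _ => hS T hT h2 h1⟩

/-- **the linking condition from Q1 for almost quasi-simple groups** -/
theorem lnk_of_q1 (hAB : GRPAB) {S : Type} [Group S] [Finite S] [IsSimpleGroup S]
    (hab : ∃ a b : S, a * b ≠ b * a) (hO : OutCyc S) (hS : OutCs p S)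
    (hQ : ∀ (X : Type) [Group X] [Finite X], AQ2 p S X → Q1 p X) : LnkS p S :=
  lnkg p S hab hO hQ fun Y _ _ h => q1_sol hAB hS Y h

/-- **the linking condition for cyclic Sylow subgroups and cyclic outer automorphism group** -/
theorem lnk_of_cyc (hAB : GRPAB) {S : Type} [Group S] [Finite S] [IsSimpleGroup S]
    (hab : ∃ a b : S, a * b ≠ b * a) (hO : OutCyc S) (hS : OutCs p S)
    (hc : ∀ Q : Sylow p S, IsCyclic Q) : LnkS p S :=
  lnk_of_q1 hAB hab hO hS fun X _ _ hX =>
    aqc (qxc cny) p S hc X hX fun Y h => q1_sol hAB hS Y h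

end

end Pool.Agent.ZH17.RD
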