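import Pool.Agent.ZH17.RD.LkcC
import Pool.Agent.ZH17.RD.GrpD
import Mathlib.GroupTheory.Transfer

/-!
# The main theorems of phase C
-/

set_option autoImplicit false
set_option linter.unusedSectionVars false
set_option linter.style.haveILetI false

open scoped BigOperators Classical

noncomputable section

namespace Pool.Agent.ZH17.RD

open Pool.Agent.Helper884 Pool.Agent.K3h3.KB Pool.Agent.K3h3.MK Pool.Agent.K3h83.IN
open Pool.Agent.K3h83.PI
open Pool.Agent.H254R3.IN (IsIrr mem_Irr)
open IC (Irr)

/-- a nonabelian simple group of even order does not have cyclic Sylow `2`-subgroups -/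
theorem two_case {S : Type} [Group S] [Finite S] [IsSimpleGroup S] (hab : ∃ a b : S, a * b ≠ b * a)
    (hdvd : 2 ∣ Nat.card S) (hc : ∀ Q : Sylow 2 S, IsCyclic Q) : False := by
  let P : Sylow 2 S := default
  have hmin : (Nat.card S).minFac = 2 := (Nat.minFac_eq_two_iff _).mpr hdvd
  have h1 := IsCyclic.isComplement' hmin (hc P)
  set K := (MonoidHom.transferSylow P ((hc P).normalizer_le_centralizer hmin)).ker with hK
  rcases (inferInstance : K.Normal).eq_bot_or_eq_top with h2 | h2
  · rw [h2] at h1
    have h3 : (P : Subgroup S) = ⊤ := Subgroup.isComplement'_bot_left.mp h1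
    have h4 : IsCyclic (P : Subgroup S) := hc P
    rw [h3] at h4
    haveI : IsCyclic S := isCyclic_of_surjective (Subgroup.topEquiv (G := S))
      (Subgroup.topEquiv (G := S)).surjective
    obtain ⟨a, b, h5⟩ := hab
    letI := IsCyclic.commGroup (α := S)
    exact h5 (mul_comm a b)
  · rw [h2] at h1
    have h3 : (P : Subgroup S) = ⊥ := Subgroup.isComplement'_top_left.mp h1
    have h4 := P.dvd_card_of_dvd_card hdvd
    rw [h3, Subgroup.card_bot] at h4
    exact absurd h4 (by norm_num)

/-- for groups of order prime to `p` the condition `OutPN` implies `OutC` -/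
theorem outC_of_pn {p : ℕ} [hp : Fact p.Prime] {S : Type} [Group S] [Finite S]
    (hpS : ¬ p ∣ Nat.card S) (hO : OutPN p S) : OutC p S := by
  obtain ⟨k, f, hf1, hf2⟩ := hO
  intro B hB
  have key : ∀ m : ℕ, ∀ b : MulAut S, f b = 1 → b ^ p ^ m = 1 → b = 1 := by
    intro m
    induction m with
    | zero =>
      intro b _ hb
      rwa [pow_zero, pow_one] at hb
    | succ m ih =>
      intro b hfb hb
      have h1 : b ^ p = 1 := by
        refine ih (b ^ p) (by rw [map_pow, hfb, one_pow]) ?_
        rw [← pow_mul, ← pow_succ']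
        exact hb
      obtain ⟨s, hs⟩ := hf2 b hfb ⟨1, by rw [h1, map_one]⟩
      refine ord_one (p := p) (m := 1) (n := Nat.card S) ?_ ?_ hpS
      · rw [pow_one]
        exact orderOf_dvd_of_pow_eq_one h1
      · rw [hs]
        exact (orderOf_map_dvd MulAut.conj s).trans (orderOf_dvd_natCard s)
  have hinj : ∀ b ∈ B, f b = 1 → b = 1 := by
    intro b hb hfb
    obtain ⟨m, hm⟩ := hB ⟨b, hb⟩
    exact key m b hfb (congrArg Subtype.val hm)
  refine ⟨?_, fun a ha b hb => ?_⟩
  · have hi : Function.Injective (f.comp B.subtype) := by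
      rw [injective_iff_map_eq_one]
      intro x hx
      exact Subtype.ext (hinj x x.2 hx)
    exact isCyclic_of_injective _ hi
  · obtain ⟨b', hb', s, hs⟩ := ha b hb
    refine ⟨s, ?_⟩
    rw [hs]
    congr 1
    have h1 : f b' = f b := by
      have h2 := congrArg f hs
      rw [map_mul, map_mul, map_mul, map_inv, hf1, one_mul, mul_comm (f a), mul_inv_cancel_right] at h2
      exact h2.symm
    have h2 := hinj (b' * b⁻¹) (mul_mem hb' (inv_mem hb)) (by rw [map_mul, map_inv, h1, mul_inv_cancel])
    exact mul_inv_eq_one.mp h2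

/-- the condition for the groups with cyclic Sylow subgroups -/
theorem gdT_of_cyc (hHAM : HAM) (hTRV : TRV) (hCLZ : CLZ) (hLKC : LKC) (hMEQ : MEQ) {p : ℕ}
    [hp : Fact p.Prime] {S : Type} [Group S] [Finite S] [IsSimpleGroup S]
    (hab : ∃ a b : S, a * b ≠ b * a) (hc : ∀ Q : Sylow p S, IsCyclic Q) (hO : OutPN p S) : GdT p S := by
  refine ⟨fun hdvd => ?_, fun hpS => outC_of_pn hpS hO⟩
  by_cases hp2 : p = 2
  · subst hp2
    exact (two_case hab hdvd hc).elim
  · exact lnkC_of_pn hHAM hTRV hCLZ hLKC hMEQ hp2 hab hdvd hc hO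

end Pool.Agent.ZH17.RD
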