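import Pool.Agent.ZH17.RD.Base

/-!
# Two characters of a normal subgroup whose product with the dual extends
-/

set_option autoImplicit false
set_option linter.unusedSectionVars false
set_option linter.style.haveILetI false

open scoped BigOperators Classical

noncomputable section

namespace Pool.Agent.ZH17.RD

open Pool.Agent.Helper884 Pool.Agent.K3h3.KB Pool.Agent.K3h3.MK Pool.Agent.K3h83.IN
open Pool.Agent.H254R3.IN (IsIrr mem_Irr)
open Pool.Agent.K3h18.IN (irr_infl B_infl exists_prod)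
open IC (Irr)
open Representation

theorem pair_link {R : Type} [CommRing R] (w : ℕ →* R) {K Γ : Type} [Group K] [Finite K] [Group Γ]
    [Finite Γ] (j : K →* Γ) (hj : Function.Injective j) (hn : j.range.Normal) {κ κ' : K → ℂ}
    (hκ : IsIrr κ) (hκ' : IsIrr κ') (hfix : ∀ x, fixes j κ x) (hfix' : ∀ x, fixes j κ' x)
    {X : Γ → ℂ} (hX : RC X) (hXj : ∀ k, X (j k) = κ k * κ' k⁻¹)
    (hprod : IsIrr fun k => κ k * κ' k⁻¹) :
    ∃ W : R, wo w j κ = w (ndeg κ) * W ∧ wo w j κ' = w (ndeg κ') * W := by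
  obtain ⟨E, _, _, π, s, V, _, _, _, ρ, lam, hπ, hπs, hsn, hker, _, hρ, hlam⟩ :=
    Pool.Agent.K3h85.IN.t_S3a K Γ j hj hn κ hκ hfix
  haveI := Fintype.ofFinite K
  haveI := Fintype.ofFinite E
  haveI := Fintype.ofFinite Γ
  have hs : Function.Injective s := by
    intro a b hab
    apply hj
    rw [← hπs, ← hπs, hab]
  have hμ : IsIrr fun k => κ' k⁻¹ := irr_inv hκ'
  set Φ : E → ℂ := fun e => ρ.character e⁻¹ * X (π e) with hΦdef
  have hρc : RC ρ.character := ⟨V, inferInstance, inferInstance, inferInstance, ρ, rfl⟩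
  have hΦ : RC Φ := rc_mul (rc_inv hρc) (rc_comp hX π)
  have hB : IC.B (fun k => Φ (s k)) (fun k => κ' k⁻¹) = 1 := by
    have h1 := IC.B_irr hprod hprod
    rw [if_pos rfl] at h1
    rw [← h1]
    unfold IC.B
    congr 1
    refine Finset.sum_congr rfl fun k _ => ?_
    rw [hΦdef]
    simp only
    rw [← map_inv, hρ, hπs, hXj, inv_inv]
    ring
  obtain ⟨ξ, hξ, hξ1, hξ2⟩ := exists_const s hΦ hμ hB
  have hfs : ∀ e, fixes s (fun k => κ' k⁻¹) e := by
    intro e l l' hl
    have h1 : π e * j l⁻¹ * (π e)⁻¹ = j l'⁻¹ := by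
      have h2 := congrArg π hl
      rw [map_mul, map_mul, map_inv, hπs, hπs] at h2
      have h3 := congrArg (fun x => x⁻¹) h2
      simp only [mul_inv_rev, inv_inv] at h3
      rw [map_inv, map_inv, ← h3]
      group
    exact hfix' (π e) l⁻¹ l'⁻¹ h1
  have hξs : ∀ k, ξ (s k) = κ' k⁻¹ := restrict_eq s hs hsn hμ hfs hξ hξ2
  obtain ⟨V', _, _, _, ρ', hρ'i, hρ'⟩ := irr_inv hξ
  have hρ's : ∀ k, ρ'.character (s k) = κ' k := by
    intro k
    rw [← hρ']
    simp only
    rw [← map_inv, hξs, inv_inv]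
  have hξρ : ∀ e, ξ e = ρ'.character e⁻¹ := by
    intro e
    rw [← hρ']
    simp only
    rw [inv_inv]
  have hlam' : ∀ (a : π.ker) (v : V'), ρ' a v = (((lam a)⁻¹ : ℂˣ) : ℂ) • v := by
    intro a
    have hac : ∀ x : E, x * a = a * x := fun x => Subgroup.mem_center_iff.mp (hker a.2) x
    obtain ⟨c, hc⟩ := Pool.Agent.H254R3.IN.schur ρ' hρ'i (ρ' a) (by
      intro h v
      rw [← Module.End.mul_apply, ← Module.End.mul_apply, ← map_mul, ← map_mul, hac])
    have hch : ∀ x, ρ'.character (a * x) = c * ρ'.character x := by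
      intro x
      unfold Representation.character
      rw [map_mul, hc, Module.End.mul_eq_comp, LinearMap.smul_comp, map_smul, smul_eq_mul]
      rfl
    have hphi : ∀ x, Φ (a * x) = ((lam a : ℂˣ) : ℂ) * Φ x := by
      intro x
      rw [hΦdef]
      simp only
      have h1 : ρ.character ((a : E) * x)⁻¹ = ((lam a : ℂˣ) : ℂ) * ρ.character x⁻¹ := by
        have h2 : ((a : E) * x)⁻¹ = ((a⁻¹ : π.ker) : E) * x⁻¹ := by
          rw [mul_inv_rev, Subgroup.coe_inv]
          have := hac (x⁻¹)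
          have h3 : x⁻¹ * (a : E)⁻¹ = (a : E)⁻¹ * x⁻¹ := by
            have h4 : (a : E)⁻¹ ∈ Subgroup.center E := (Subgroup.center E).inv_mem (hker a.2)
            exact Subgroup.mem_center_iff.mp h4 x⁻¹
          exact h3
        rw [h2]
        unfold Representation.character
        have h5 : ρ ((a⁻¹ : π.ker) : E) = ((lam a : ℂˣ) : ℂ) • LinearMap.id := by
          ext v
          rw [hlam a⁻¹ v, map_inv, inv_inv]
          rfl
        rw [map_mul, h5, Module.End.mul_eq_comp, LinearMap.smul_comp, map_smul, smul_eq_mul]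
        rfl
      have h6 : π ((a : E) * x) = π x := by
        rw [map_mul, show π (a : E) = 1 from a.2, one_mul]
      rw [h1, h6]
      ring
    have hBB : IC.B Φ ξ = (((lam a : ℂˣ) : ℂ) * c) * IC.B Φ ξ := by
      have h1 : ∑ x, Φ x * ξ x⁻¹ = ∑ x, Φ ((a : E) * x) * ξ ((a : E) * x)⁻¹ :=
        (Fintype.sum_equiv (Equiv.mulLeft (a : E)) _ _ fun x => rfl).symm
      have h2 : ∑ x, Φ ((a : E) * x) * ξ ((a : E) * x)⁻¹ =
          (((lam a : ℂˣ) : ℂ) * c) * ∑ x, Φ x * ξ x⁻¹ := by
        rw [Finset.mul_sum]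
        refine Finset.sum_congr rfl fun x _ => ?_
        rw [hphi, hξρ, hξρ, inv_inv, inv_inv, hch]
        ring
      unfold IC.B
      rw [mul_left_comm, ← h2, ← h1]
    rw [hξ1, mul_one] at hBB
    have hcc : c = (((lam a)⁻¹ : ℂˣ) : ℂ) := by
      rw [Units.val_inv_eq_inv_val]
      exact (eq_inv_of_mul_eq_one_right hBB.symm)
    intro v
    rw [hc, hcc]
    rfl
  have hinj : Function.Injective fun l => π (s l) := by
    intro a b hab
    apply hj
    rw [← hπs, ← hπs]
    exact hab
  have hcomp : π.comp s = j := by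
    ext k
    exact hπs k
  have e1 := Pool.Agent.K3h18.IN.t_S3b R w K E Γ (E ⧸ s.range) π hπ hker s hinj
    (QuotientGroup.mk' s.range) (QuotientGroup.mk'_surjective _) (QuotientGroup.ker_mk' _) V ρ κ hκ
    hρ lam hlam
  have e2 := Pool.Agent.K3h18.IN.t_S3b R w K E Γ (E ⧸ s.range) π hπ hker s hinj
    (QuotientGroup.mk' s.range) (QuotientGroup.mk'_surjective _) (QuotientGroup.ker_mk' _) V' ρ' κ'
    hκ' hρ's lam hlam'
  rw [hcomp] at e1 e2
  exact ⟨_, e1, e2⟩

/-- inflation of the characters over a character -/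
theorem inf_wo {R : Type} [CommRing R] (w : ℕ →* R) {K Γ L T : Type} [Group K] [Finite K] [Group Γ]
    [Finite Γ] [Group L] [Finite L] [Group T] [Finite T] (j : K →* Γ) (hj : Function.Injective j)
    (i : L →* T) (p : Γ →* T) (hp : Function.Surjective p) (pK : K →* L)
    (hpK : Function.Surjective pK) (hi : Function.Injective i) (hc : ∀ k, p (j k) = i (pK k))
    (hker : p.ker ≤ j.range) {θ : L → ℂ} (hθ : IsIrr θ) :
    wo w j (fun k => θ (pK k)) = wo w i θ := by
  haveI := Fintype.ofFinite K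
  haveI := Fintype.ofFinite Γ
  haveI := Fintype.ofFinite L
  haveI := Fintype.ofFinite T
  rw [wo_eq, wo_eq]
  have key : ∀ χ : T → ℂ, ov j (fun k => θ (pK k)) (fun x => χ (p x)) ↔ ov i θ χ := by
    intro χ
    rw [ov_iff, ov_iff]
    have h1 : (fun k => χ (p (j k))) = fun k => (fun l => χ (i l)) (pK k) := by
      funext k
      simp only [hc]
    rw [h1, B_infl pK hpK (fun l => χ (i l)) θ]
  have hκ : IsIrr fun k => θ (pK k) := irr_infl pK hpK hθ
  symm
  refine Finset.sum_bij (fun β _ => fun x => β (p x)) ?_ ?_ ?_ ?_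
  · intro β hβ
    rw [Finset.mem_filter] at hβ ⊢
    exact ⟨mem_Irr.mpr (irr_infl p hp (mem_Irr.mp hβ.1)), (key β).mpr hβ.2⟩
  · intro β _ β' _ he
    funext y
    obtain ⟨x, rfl⟩ := hp y
    exact congrFun he x
  · intro χ hχ
    rw [Finset.mem_filter] at hχ
    have hχ' := mem_Irr.mp hχ.1
    -- the kernel of `p` as a subgroup of `K`
    let e : p.ker →* K := (MonoidHom.ofInjective hj).symm.toMonoidHom.comp (Subgroup.inclusion hker)
    have he : ∀ d : p.ker, j (e d) = d := by
      intro d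
      have h1 : (MonoidHom.ofInjective hj) (e d) = Subgroup.inclusion hker d :=
        (MonoidHom.ofInjective hj).apply_symm_apply _
      exact congrArg Subtype.val h1
    have hpe : ∀ d : p.ker, pK (e d) = 1 := by
      intro d
      apply hi
      rw [← hc, he, map_one]
      exact d.2
    haveI := Fintype.ofFinite p.ker
    have h1L : IsIrr (fun _ : p.ker => (1 : ℂ)) := by
      simpa using Pool.Agent.K3h18.IN.lin (1 : p.ker →* ℂˣ)
    have h2 : ov p.ker.subtype (fun _ : p.ker => (1 : ℂ)) χ := by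
      rw [ov_iff]
      have hcl : IC.IsClass fun k => χ (j k) := rc_class (rc_comp (rc_irr hχ') j)
      have h3 := IC.expand _ hcl
      have h4 : (fun d : p.ker => χ (p.ker.subtype d)) =
          ∑ μ ∈ Irr K, IC.B (fun k => χ (j k)) μ • fun d => μ (e d) := by
        funext d
        have h5 := congrFun h3 (e d)
        simp only [Finset.sum_apply, Pi.smul_apply] at h5 ⊢
        rw [← h5, he]
        rfl
      rw [h4, IC.B_sum_left]
      have hn : ∀ μ ∈ Irr K, ∃ n : ℕ, IC.B (fun k => χ (j k)) μ = n := fun μ hμ =>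
        rc_B (rc_comp (rc_irr hχ') j) (rc_irr (mem_Irr.mp hμ))
      have hm : ∀ μ ∈ Irr K, ∃ n : ℕ, IC.B (fun d : p.ker => μ (e d)) (fun _ => (1 : ℂ)) = n :=
        fun μ hμ => rc_B (rc_comp (rc_irr (mem_Irr.mp hμ)) e) (rc_irr h1L)
      choose! n hn using hn
      choose! m hm using hm
      have h6 : ∑ μ ∈ Irr K, IC.B (IC.B (fun k => χ (j k)) μ • fun d => μ (e d))
          (fun _ : p.ker => (1 : ℂ)) = ((∑ μ ∈ Irr K, n μ * m μ : ℕ) : ℂ) := by
        push_cast
        refine Finset.sum_congr rfl fun μ hμ => ?_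
        rw [IC.B_smul_left, hn μ hμ, hm μ hμ]
      rw [h6, Nat.cast_ne_zero]
      have hκm : (fun k => θ (pK k)) ∈ Irr K := mem_Irr.mpr hκ
      have h7 : n (fun k => θ (pK k)) ≠ 0 := by
        have h8 := (ov_iff j _ χ).mp hχ.2
        rw [hn _ hκm] at h8
        exact_mod_cast h8
      have h9 : m (fun k => θ (pK k)) ≠ 0 := by
        have h10 := hm _ hκm
        have h11 : (fun d : p.ker => θ (pK (e d))) = (θ 1) • fun _ : p.ker => (1 : ℂ) := by
          funext d
          rw [hpe]
          simp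
        rw [h11, IC.B_smul_left, IC.B_irr h1L h1L, if_pos rfl, mul_one, ← ndeg_cast hθ] at h10
        have h12 : ndeg θ = m (fun k => θ (pK k)) := by exact_mod_cast h10
        rw [← h12]
        exact (ndeg_pos hθ).ne'
      have h13 : n (fun k => θ (pK k)) * m (fun k => θ (pK k)) ≤ ∑ μ ∈ Irr K, n μ * m μ :=
        Finset.single_le_sum (f := fun μ => n μ * m μ) (fun _ _ => Nat.zero_le _) hκm
      have h14 : 0 < n (fun k => θ (pK k)) * m (fun k => θ (pK k)) :=
        Nat.mul_pos (Nat.pos_of_ne_zero h7) (Nat.pos_of_ne_zero h9)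
      omega
    let ρ : Representation ℂ Γ ℂ := 1
    have hρ : ∀ g, ρ.character g = 1 := by
      intro g
      change LinearMap.trace ℂ ℂ 1 = 1
      rw [LinearMap.trace_one]
      simp
    have h3 : IsIrr fun l => ρ.character (p.ker.subtype l) := by
      simp only [hρ]
      exact h1L
    obtain ⟨β, hβ, he'⟩ := exists_prod p.ker.subtype (Subgroup.subtype_injective _) p hp
      (by rw [Subgroup.range_subtype]) ρ h3 hχ' (by
      simp only [hρ]
      exact (ov_iff _ _ _).mp h2)
    have he2 : χ = fun x => β (p x) := by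
      rw [he']
      funext x
      rw [hρ, one_mul]
    refine ⟨β, ?_, he2.symm⟩
    rw [Finset.mem_filter]
    refine ⟨mem_Irr.mpr hβ, ?_⟩
    rw [← key, ← he2]
    exact hχ.2
  · intro β _
    unfold ndeg
    simp only [map_one]

end Pool.Agent.ZH17.RD
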