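import Pool.Agent.ZH17.RD.Stm5
import Pool.Agent.ZH17.RD.Eqr2

/-!
# Pieces QXC and AQC of project RD, first part: sections and the count for a cyclic `p`-quotient
-/

set_option autoImplicit false
set_option linter.unusedSectionVars false
set_option linter.style.haveILetI false

open scoped BigOperators Classical

noncomputable section

namespace Pool.Agent.ZH17.RD

open Pool.Agent.Helper884 Pool.Agent.K3h3.KB Pool.Agent.K3h3.MK Pool.Agent.K3h83.IN
open Pool.Agent.H254R3.IN (IsIrr mem_Irr)
open IC (Irr)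

namespace QxcP

section sec

variable {T : Type} [Group T]

theorem sec_inj {G H : Type} [Group G] [Group H] (i : G →* H) (hi : Function.Injective i)
    (h : IsSec T G) : IsSec T H := by
  obtain ⟨A, f, hf⟩ := h
  exact ⟨A.map i, f.comp (A.equivMapOfInjective i hi).symm.toMonoidHom,
    hf.comp (A.equivMapOfInjective i hi).symm.surjective⟩

theorem sec_card {G : Type} [Group G] [Finite G] (h : IsSec T G) : Nat.card T ∣ Nat.card G := by
  obtain ⟨A, f, hf⟩ := h
  exact (Subgroup.card_dvd_of_surjective f hf).trans (Subgroup.card_subgroup_dvd_card A)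

theorem not_sol [IsSimpleGroup T] (hT : ∃ a b : T, a * b ≠ b * a) : ¬ Group.IsSolvable T := by
  intro h
  obtain ⟨a, b, hab⟩ := hT
  exact hab ((IsSimpleGroup.comm_iff_isSolvable.2 h) a b)

/-- a nonabelian simple section of `G` is a section of the kernel of a homomorphism to a solvable group -/
theorem sec_ker [IsSimpleGroup T] (hT : ∃ a b : T, a * b ≠ b * a) {G S : Type} [Group G] [Group S]
    (g : G →* S) (hS : Group.IsSolvable S) (h : IsSec T G) : IsSec T g.ker := by
  obtain ⟨A, f, hf⟩ := h
  haveI hn : ((g.ker.subgroupOf A).map f).Normal := Subgroup.Normal.map inferInstance f hf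
  rcases hn.eq_bot_or_eq_top with h1 | h1
  · exfalso
    apply not_sol hT
    have hle : (g.comp A.subtype).ker ≤ f.ker := by
      intro x hx
      have h2 : f x ∈ (g.ker.subgroupOf A).map f := ⟨x, hx, rfl⟩
      rw [h1, Subgroup.mem_bot] at h2
      exact h2
    have hr : Function.Surjective (g.comp A.subtype).rangeRestrict :=
      (g.comp A.subtype).rangeRestrict_surjective
    haveI : Group.IsSolvable (g.comp A.subtype).range :=
      Group.isSolvable_of_isSolvable_injective (f := (g.comp A.subtype).range.subtype)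
        (Subgroup.subtype_injective _)
    have hk : (g.comp A.subtype).rangeRestrict.ker ≤ f.ker := by
      rw [MonoidHom.ker_rangeRestrict]
      exact hle
    refine Group.isSolvable_of_surjective
      (f := (g.comp A.subtype).rangeRestrict.liftOfSurjective hr ⟨f, hk⟩) ?_
    intro y
    obtain ⟨z, rfl⟩ := hf y
    exact ⟨_, MonoidHom.liftOfRightInverse_comp_apply _ _ _ ⟨f, hk⟩ z⟩
  · let i : A.subgroupOf g.ker →* A :=
      { toFun := fun x => ⟨x.1.1, x.2⟩
        map_one' := rfl
        map_mul' := fun _ _ => rfl }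
    refine ⟨A.subgroupOf g.ker, f.comp i, fun t => ?_⟩
    obtain ⟨a, ha, hat⟩ : t ∈ (g.ker.subgroupOf A).map f := by rw [h1]; exact Subgroup.mem_top t
    exact ⟨⟨⟨a.1, ha⟩, a.2⟩, hat⟩

/-- a nonabelian simple section of `G` is a section of a quotient by a solvable kernel -/
theorem sec_quot [IsSimpleGroup T] (hT : ∃ a b : T, a * b ≠ b * a) {G S : Type} [Group G] [Group S]
    (g : G →* S) (hS : Group.IsSolvable g.ker) (h : IsSec T G) : IsSec T S := by
  obtain ⟨A, f, hf⟩ := h
  haveI hn : ((g.ker.subgroupOf A).map f).Normal := Subgroup.Normal.map inferInstance f hf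
  rcases hn.eq_bot_or_eq_top with h1 | h1
  · have hr : Function.Surjective (g.subgroupMap A) := MonoidHom.subgroupMap_surjective _ _
    have hk : (g.subgroupMap A).ker ≤ f.ker := by
      intro x hx
      have h3 : g (x : G) = 1 := congrArg Subtype.val hx
      have h2 : f x ∈ (g.ker.subgroupOf A).map f := ⟨x, h3, rfl⟩
      rw [h1, Subgroup.mem_bot] at h2
      exact h2
    refine ⟨A.map g, (g.subgroupMap A).liftOfSurjective hr ⟨f, hk⟩, fun y => ?_⟩
    obtain ⟨z, rfl⟩ := hf y
    exact ⟨_, MonoidHom.liftOfRightInverse_comp_apply _ _ _ ⟨f, hk⟩ z⟩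
  · exfalso
    apply not_sol hT
    let i : g.ker.subgroupOf A →* g.ker :=
      { toFun := fun x => ⟨x.1.1, x.2⟩
        map_one' := rfl
        map_mul' := fun _ _ => rfl }
    have hi : Function.Injective i := by
      intro x y h
      exact Subtype.ext (Subtype.ext (congrArg (fun z : g.ker => (z : G)) h))
    haveI : Group.IsSolvable (g.ker.subgroupOf A) := Group.isSolvable_of_isSolvable_injective hi
    refine Group.isSolvable_of_surjective (f := f.comp (g.ker.subgroupOf A).subtype) ?_
    intro t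
    obtain ⟨a, ha, hat⟩ : t ∈ (g.ker.subgroupOf A).map f := by rw [h1]; exact Subgroup.mem_top t
    exact ⟨⟨a, ha⟩, hat⟩

end sec

section cnt

variable {p : ℕ} [hp : Fact p.Prime]

/-- the count for a normal subgroup with cyclic quotient of order `p ^ k` -/
theorem wt_cyc {K Γ : Type} [Group K] [Fintype K] [Group Γ] [Finite Γ] (j : K →* Γ)
    (hj : Function.Injective j) (hn : j.range.Normal) (g₀ : Γ) (a : MulAut K)
    (hg : ∀ k, g₀ * j k * g₀⁻¹ = j (a k)) (hgen : ∀ x, ∃ k, ∃ i : ℕ, x = j k * g₀ ^ i) (n : ℕ)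
    (hidx : j.range.index = p ^ n) :
    wt (cl p) Γ = (p ^ n : RR p) *
      ∑ θ ∈ (Irr K).filter (fun θ => ∀ x, θ (a x) = θ x), cl p (ndeg θ) := by
  haveI := Fintype.ofFinite Γ
  have hz : ((1 : Unit →* K)).range ≤ Subgroup.center K := by
    rw [MonoidHom.range_one]
    exact bot_le
  have hjz : (j.comp (1 : Unit →* K)).range ≤ Subgroup.center Γ := by
    rintro _ ⟨x, rfl⟩
    rw [MonoidHom.comp_apply, MonoidHom.one_apply, map_one]
    exact one_mem _
  have h1 := cc_gen (1 : Unit →* K) j hj hn g₀ a hg hgen (cl p) hjz 1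
  have hwo : wo (cl p) (j.comp (1 : Unit →* K)) (fun x => (((1 : Unit →* ℂˣ) x : ℂˣ) : ℂ)) =
      wt (cl p) Γ := by
    rw [wt_eq]
    unfold wo
    rw [Finset.sum_filter_of_ne]
    · have : Fintype.ofFinite Γ = ‹Fintype Γ› := Subsingleton.elim _ _
      rw [this]
    · intro χ hχ _
      rw [ov_cen _ hjz ((mem_Irr' _).mp hχ)]
      intro x
      simp
  have hov : ∀ θ ∈ Irr K, ov (1 : Unit →* K) (fun x => (((1 : Unit →* ℂˣ) x : ℂˣ) : ℂ)) θ := by
    intro θ hθ
    rw [ov_cen _ hz (mem_Irr.mp hθ)]
    intro x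
    simp
  rw [hwo, Finset.filter_true_of_mem hov, hidx] at h1
  have hcard : Nat.card Γ = Nat.card K * p ^ n := by
    rw [← Subgroup.card_mul_index j.range, hidx]
    congr 1
    exact (Nat.card_congr (MonoidHom.ofInjective hj).toEquiv).symm
  have hterm : ∀ θ ∈ Irr K, ((p ^ n / Function.minimalPeriod (fp a) θ : ℕ) : RR p) ^ 2 *
      cl p (Function.minimalPeriod (fp a) θ) * cl p (ndeg θ) =
      if ∀ x, θ (a x) = θ x then (p ^ n : RR p) ^ 2 * cl p (ndeg θ) else 0 := by
    intro θ hθ
    have hθ' : IsIrr θ := mem_Irr.mp hθ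
    have hd : Function.minimalPeriod (fp a) θ ∣ p ^ n := by
      rw [← hidx, ← idx_Tst j hj hn g₀ a hg hgen hθ']
      exact Subgroup.index_dvd_of_le (range_le_Tst j hj hn hθ')
    have hfix : (∀ x, θ (a x) = θ x) ↔ Function.minimalPeriod (fp a) θ = 1 := by
      rw [Function.minimalPeriod_eq_one_iff_isFixedPt]
      constructor
      · intro h
        exact funext h
      · intro h x
        exact congrFun h x
    by_cases h2 : ∀ x, θ (a x) = θ x
    · rw [if_pos h2, hfix.1 h2, Nat.div_one, map_one, mul_one]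
      push_cast
      rfl
    · rw [if_neg h2]
      obtain ⟨i, hi, hi2⟩ := (Nat.dvd_prime_pow hp.out).1 hd
      have hi0 : i ≠ 0 := by
        rintro rfl
        exact h2 (hfix.2 (by rw [hi2, pow_zero]))
      have h3 : cl p (Function.minimalPeriod (fp a) θ) = 0 := by
        change cls p _ = 0
        unfold cls
        rw [dif_pos]
        rw [ZMod.natCast_eq_zero_iff, hi2]
        exact dvd_pow_self p hi0
      rw [h3, mul_zero, zero_mul]
  have h2 : (Nat.card K : RR p) * ((p ^ n : ℕ) * wt (cl p) Γ) = (Nat.card K : RR p) *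
      ((p ^ n : ℕ) * ((p ^ n : RR p) *
        ∑ θ ∈ (Irr K).filter (fun θ => ∀ x, θ (a x) = θ x), cl p (ndeg θ))) := by
    rw [hcard] at h1
    push_cast at h1 ⊢
    rw [← mul_assoc, h1]
    congr 1
    rw [Finset.sum_congr rfl (fun θ hθ => by
      have := hterm θ hθ
      push_cast at this
      exact this), ← Finset.sum_filter, ← Finset.mul_sum]
    ring
  have h3 := natCast_mul_inj p Nat.card_pos.ne' h2
  exact natCast_mul_inj p (pow_pos hp.out.pos n).ne' h3

end cnt

end QxcP

end Pool.Agent.ZH17.RD
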