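import Pool.Agent.ZH17.RD.Main1
import Pool.Agent.ZH17.RD.Stm3

/-!
# Statements of the pieces, fourth part (project RD, helper17): the linking condition from Q1 for almost
quasi-simple groups, if the outer automorphism group is cyclic (of any order)
-/

set_option autoImplicit false
set_option linter.unusedSectionVars false
set_option linter.style.haveILetI false

open scoped BigOperators Classical

noncomputable section

namespace Pool.Agent.ZH17.RD

open Pool.Agent.Helper884 Pool.Agent.K3h3.KB Pool.Agent.K3h3.MK Pool.Agent.K3h83.IN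
open Pool.Agent.H254R3.IN (IsIrr mem_Irr)
open IC (Irr)

/-- `T` is a section of `G` -/
def IsSec (T G : Type) [Group T] [Group G] : Prop :=
  ∃ (A : Subgroup G) (f : A →* T), Function.Surjective f

/-- `X` has a perfect normal subgroup `N` with `N / Z(N) ≅ S`, `X / N` cyclic, `p ∤ |Z(N)|`, `Z(N) ≤ Z(X)` -/
def AQ2 (p : ℕ) (S : Type) [Group S] (X : Type) [Group X] : Prop :=
  ∃ N : Subgroup X, N.Normal ∧ commutator N = ⊤ ∧ Nonempty ((N ⧸ Subgroup.center N) ≃* S) ∧
    ¬ p ∣ Nat.card (Subgroup.center N) ∧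
    (∀ z : N, z ∈ Subgroup.center N → (z : X) ∈ Subgroup.center X) ∧
    ∃ x : X, Subgroup.zpowers x ⊔ N = ⊤

/-- the outer automorphism group of `S` is cyclic -/
def OutCyc (S : Type) [Group S] : Prop :=
  ∃ b : MulAut S, ∀ c : MulAut S, ∃ (s : S) (k : ℕ), c = MulAut.conj s * b ^ k

/-- **Piece LNKG**. Proof. (1) `OUT2`: as `OUT` (RD/Out.lean), without the orders: `Ast Q` is generated by
`conj (NN Q)` and one element `a`. (2) `EXT` (RD/Ext.lean) gives the link from an equivariant bijection.
(3) The bijection: as in `EQG`, but `p` may divide `orderOf a`. EQC holds also for `p ∣ m` (in `nzd` the terms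
with `p ∣ t` vanish, as then `cl p t = 0`); `cc` has no such condition. For `b = a ^ s` compare
`X_b = N ⋊ ⟨b⟩` and its subgroup `Y_b = NN Q ⋊ ⟨b⟩`: if `R` is a Sylow `p`-subgroup of `Y_b` then `R` contains
the image of `Q`, `R` is a Sylow `p`-subgroup of `X_b` (as `|X_b : Y_b| = |N : NN Q|` is prime to `p`) and
`NN R ≤ Y_b`, as `R ∩ N = Q`. So for a linear character `ν` of `Z(N)` the weighted counts over `ν` for `X_b` and for
`NN R` agree (Q1 for the quotients of `X_b` by central subgroups `K ≤ Z(N)`, which satisfy `AQ2`), and those of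
`Y_b` and `NN R` agree (Q1 for the quotients of `Y_b`: their nonabelian simple sections `T` are sections of
`NN Q`, so of `NN Q / Q` and of `N / Z(N) ≅ S`, hence `hSol` applies). -/
def LNKG : Prop := ∀ (p : ℕ) [Fact p.Prime] (S : Type) [Group S] [Finite S] [IsSimpleGroup S]
  (_ : ∃ a b : S, a * b ≠ b * a) (_ : OutCyc S)
  (_ : ∀ (X : Type) [Group X] [Finite X], AQ2 p S X → Q1 p X)
  (_ : ∀ (Y : Type) [Group Y] [Finite Y], (∀ (T : Type) [Group T] [IsSimpleGroup T],
    (∃ a b : T, a * b ≠ b * a) → IsSec T Y → ¬ p ∣ Nat.card T ∧ IsSec T S) → Q1 p Y), LnkS p S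

end Pool.Agent.ZH17.RD
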