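import Pool.Agent.ZH17.RD.Stm4

/-!
# Statements of the pieces, fifth part (project RD, helper17): `p`-automorphisms of groups with cyclic Sylow
`p`-subgroups
-/

set_option autoImplicit false
set_option linter.unusedSectionVars false
set_option linter.style.haveILetI false

open scoped BigOperators Classical

noncomputable section

namespace Pool.Agent.ZH17.RD

open Pool.Agent.Helper884 Pool.Agent.K3h3.KB Pool.Agent.K3h3.MK Pool.Agent.K3h83.IN
open Pool.Agent.H254R3.IN (IsIrr mem_Irr)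
open IC (Irr)

/-- **Piece CNY** (helper17): the weighted numbers of the characters fixed by a `p`-automorphism `y` agree for `X`
and the normalizer `B` of the subgroup of order `p` of a cyclic Sylow `p`-subgroup. -/
def CNY : Prop := ∀ (p : ℕ) [Fact p.Prime] (B X : Type) [Group B] [Fintype B] [Group X] [Fintype X]
  (Q P H : Subgroup B) (ι : B →* X), LC p Q P H → EC p Q ι →
  ∀ (y : MulAut X) (z : MulAut B) (_ : ∀ b, ι (z b) = y (ι b)) (k : ℕ) (_ : y ^ p ^ k = 1),
  ∑ χ ∈ (Irr X).filter (fun χ => ∀ x, χ (y x) = χ x), cl p (ndeg χ) =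
    ∑ θ ∈ (Irr B).filter (fun θ => ∀ b, θ (z b) = θ b), cl p (ndeg θ)

/-- **Piece QXC**: Q1 for extensions of a group `Γ` with cyclic Sylow `p`-subgroups by a cyclic `p`-group.

Proof. Let `P` be a Sylow `p`-subgroup of `X`, `D = P ∩ Γ` (a Sylow subgroup of `Γ`, cyclic). If `D = 1` apply
`hSol` to `X` itself. Otherwise `C0` (`a_C0`, K3h83/IN/Stm6.lean) for `Γ` and `D` gives `Q ≤ D` of order `p`,
`B = N_Γ(Q)` and `H` with `LC`, `EC`. Let `x' ∈ P` generate `X / Γ`, `y` the conjugation with `x'` on `Γ`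
(of `p`-power order), `z` its restriction to `B` (`x'` normalises `D`, hence `Q`, hence `B`). Let `Y = N_X(Q)`; then
`Y ∩ Γ = B`, `NN P ≤ Y` (`NN P` normalises `D`), `Y = B ⟨x'⟩`. By `cc` (RD/Eqr2.lean) with a trivial group `A`
`wt X = |X : Γ| * ∑_{χ fixed by y} cl χ(1)` and the same for `Y`, `B`, `z`; so `wt X = wt Y` by `CNY`, and
`wt Y = wt (NN P)` by `hSol` (`Y / B` cyclic, `B / C_B(Q)` abelian, `C_B(Q) / H` a `p`-group, `p ∤ |H|`). -/
def QXC : Prop := ∀ (p : ℕ) [Fact p.Prime] (X : Type) [Group X] [Finite X] (Γ : Subgroup X)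
  (_ : Γ.Normal) (_ : ∀ Q : Sylow p Γ, IsCyclic Q) (x : X) (_ : Subgroup.zpowers x ⊔ Γ = ⊤) (k : ℕ)
  (_ : Γ.index = p ^ k)
  (_ : ∀ Y : Subgroup X, (∀ (T : Type) [Group T] [IsSimpleGroup T],
    (∃ a b : T, a * b ≠ b * a) → IsSec T Y → ¬ p ∣ Nat.card T ∧ IsSec T Γ) → Q1 p Y), Q1 p X

/-- **Piece AQC**: Q1 for the almost quasi-simple groups with cyclic Sylow `p`-subgroup of the simple group.

Proof. `N`, `x` as in `AQ2`, `|X : N| = p ^ k m`, `p ∤ m`, `Γ = N ⟨x ^ (p ^ k)⟩`; the Sylow `p`-subgroups of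
`Γ` are those of `N`, so cyclic by `cyc_cover` (RD/Main1.lean). Apply `QXC`: a nonabelian simple section of `Γ`
is one of `N`, hence one of `S`. -/
def AQC : Prop := ∀ (p : ℕ) [Fact p.Prime] (S : Type) [Group S] [Finite S]
  (_ : ∀ Q : Sylow p S, IsCyclic Q) (X : Type) [Group X] [Finite X] (_ : AQ2 p S X)
  (_ : ∀ Y : Subgroup X, (∀ (T : Type) [Group T] [IsSimpleGroup T],
    (∃ a b : T, a * b ≠ b * a) → IsSec T Y → ¬ p ∣ Nat.card T ∧ IsSec T S) → Q1 p Y), Q1 p X

end Pool.Agent.ZH17.RD
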