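import Pool.Agent.ZH17.RD.Cny

/-!
# Statements, sixth part (project RD phase B, helper17): the linking condition for simple groups with cyclic Sylow
`p`-subgroups and outer automorphism group of order prime to `p` (not necessarily cyclic)

Notation. An element is singular if its order is divisible by `p`. `Tab`, `Cor`: see K3h33/CY/AS.lean and RD/CnyB.lean. For the
table `T` of `Irr(B)` with the families `ξ_j` (`j < e`), `ψ_i` (`i < f`) the vectors `v(θ) = (B(θ, β_i))_i` are `(-1, …, -1)`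
for `ξ_j`, the unit vector `e_k` for `ψ_k` (`us`, `B_us`, RD/Cny.lean), `0` in the other families. They determine the
singular values: `T.vanish` (if all `B(F, β ω i) = 0` then `F = 0` at the singular elements) and `B_sing`.
-/

set_option autoImplicit false
set_option linter.unusedSectionVars false
set_option linter.style.haveILetI false

open scoped BigOperators Classical

noncomputable section

namespace Pool.Agent.ZH17.RD

open Pool.Agent.Helper884 Pool.Agent.K3h3.KB Pool.Agent.K3h3.MK Pool.Agent.K3h83.IN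
open Pool.Agent.K3h33.CY
open Pool.Agent.H254R3.IN (IsIrr mem_Irr)
open IC (Irr)
open SemidirectProduct

/-- `χ = ± F` at the singular elements of `B` -/
def SE (p : ℕ) {B X : Type} [Group B] (ι : B → X) (χ : X → ℂ) (F : B → ℂ) : Prop :=
  (∀ g : B, p ∣ orderOf g → χ (ι g) = F g) ∨ ∀ g : B, p ∣ orderOf g → χ (ι g) = - F g

/-- `A` acts on `N` and on the normalizer `B` of a subgroup `Q` of order `p`; the Sylow `p`-subgroups of `N` are
cyclic -/
structure Dat (p : ℕ) (B N A : Type) [Group B] [Group N] [Group A] where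
  k : B →* N
  α : A →* MulAut N
  β : A →* MulAut B
  comp : ∀ a b, k (β a b) = α a (k b)
  Q : Subgroup B
  P : Subgroup B
  H : Subgroup B
  lc : LC p Q P H
  ec : EC p Q k
  st : ∀ a, ∀ b ∈ Q, β a b ∈ Q

section

variable {p : ℕ} {B N A U : Type} [Group B] [Group N] [Group A] [Group U] (D : Dat p B N A)
  (π : U →* A)

/-- `N ⋊ U` -/
abbrev NU : Type := N ⋊[D.α.comp π] U

/-- `B ⋊ U` -/
abbrev BU : Type := B ⋊[D.β.comp π] U

/-- the inclusion -/
def kU : BU D π →* NU D π :=
  SemidirectProduct.map D.k (MonoidHom.id U) fun u => by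
    ext b
    exact D.comp (π u) b

theorem kU_inl (b : B) : kU D π (inl b) = inl (D.k b) := by
  unfold kU
  rw [SemidirectProduct.map_inl]

theorem kU_inr (u : U) : kU D π (inr u) = inr u := by
  unfold kU
  rw [SemidirectProduct.map_inr]
  rfl

end

/-- **Piece LCU**: the situation is inherited by `N ⋊ U`, `B ⋊ U` for groups `U` of order prime to `p`.
(`a_C0` (K3h83/OP/AsmC.lean) for `N ⋊ U` and the Sylow subgroup `P'` = image of `P`: the subgroup of order `p` of `P'`
is the image of `Q`, its normalizer is the image of `B ⋊ U`; transport `LC`, `EC` along `B ⋊ U ≃ range`.) -/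
def LCU : Prop := ∀ (p : ℕ) [Fact p.Prime] (B N A U : Type) [Group B] [Finite B] [Group N] [Finite N]
  [Group A] [Group U] [Finite U] (D : Dat p B N A) (π : U →* A) (_ : ¬ p ∣ Nat.card U),
  ∃ Q' P' H' : Subgroup (BU D π), LC p Q' P' H' ∧ EC p Q' (kU D π) ∧ Q' = D.Q.map inl

/-- **Piece LL** (lemma L). Let `χ'` be an irreducible character of `N ⋊ U` (`p ∤ |U|`) whose restriction to `N` agrees up to
sign with `θ ∈ Irr(B)` at the singular elements of `B`. Then the restriction is irreducible, or it is the sum of the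
different irreducible characters in `O = {b ω m : T.t ⟨ω, m⟩ ≠ ± θ at the singular elements}`, where `ω` is the family of
`θ`; each of these is determined up to sign by its singular values (`iso`), and `2 ≤ |O|`.

Proof. `χ'|_N = a ∑_{χ ∈ O} χ`, `O` an orbit of `U` (Clifford). All `χ ∈ O` are some `c.b ω' m'`, or vanish at the singular
elements (all or none, as conjugate; not all); write `v(χ) = ε v(T.t ⟨ω', m'⟩)`. Each `t ∈ U` permutes the classes
`Y_θ = {θ' ∈ Irr B : θ' = ± θ at the singular elements}` (`θ ∈ Irr B`), and `Y^+`, `Y^-` (with the signs), so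
`(|Y_θ^+|, |Y_θ^-|)` is invariant; it is `(e, 0)` for `ξ_j`, `(1, 0)` for `ψ_i` if `f ≥ 2`, and `(e, 1)`, `(1, e)` if `f = 1`.
(a) No `t ∈ U` maps the singular function `s` of some `θ ∈ Irr B` to `- s`: otherwise `f = 1` for this family, and
`(e, 1) = (1, e)`, `e = 1`, and `t` interchanges the two elements of `Y_θ`, so `2 ∣ |U|`; but `e f + 1 = |P| = 2`, so
`p = 2`. (If `e f + 1 = |P|` is not available: two characters `ξ`, `ψ`, `ψ = ξ` at the regular, `ψ = -ξ` at the singular
elements, so `(ξ, ψ) = 0` gives that `∑ |ξ|²` over the singular and over the regular elements agree, both are `|B| / 2`;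
evaluate at `Q` as in `e_lt`: `p (n_ψ + n_ξ) = 2` with `n ∈ {0, 1}`, so `p = 2`.)
(b) So elements of `O` with the same singular functions up to sign have the same singular functions.
(c) Let `ω'` be a family such that `O` contains some `c.b ω' _`. `O ∩ b(ω')` cannot contain both `b (inl _)` and `b (inr _)` if
`e ≥ 2`, `f ≥ 2` (`|Y| = e ≠ 1`). If `e = 1` and `O ∩ b(ω')` is all of `b(ω')` then its size `1 + f = |P|` (see `e_lt`, or:
`p ∣ 1 + f`) is a multiple of `p` (by the relation in the proof of `e_lt`, `key`), but it is the size of an orbit of a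
subgroup of `U`; contradiction. If `f = 1` all elements of `O ∩ b(ω')` have the same singular function, not `0`.
Hence `∑_{O ∩ b(ω')} v ≠ 0`: with `x` elements `inl` and the set `I` of elements `inr` it is
`± (- x (1, …, 1) + 1_I)`, zero only if `x = 1` and `I` is everything.
(d) So `O ⊆ b(ω)` and `a (- x (1, …, 1) + 1_I) = ± v(θ)`: `a = 1`; if `f = 1`, `|O| = 1`. If `f ≥ 2` and `e ≥ 2`: `I = ∅`, so
`x = 1`, or `x = 0`, so `I = {k}` or (`θ = ξ_j`) `I` everything. If `f ≥ 2`, `e = 1`: `|O| = 1`, or `O = b(ω)` without the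
element with the singular function `± θ` (`(x, I)` = `(0, all)` for `θ = ξ`, `(1, all but k)` for `θ = ψ_k`). -/
def LL : Prop := ∀ (p : ℕ) [Fact p.Prime] (B N A U Ω : Type) [Group B] [Fintype B] [Group N] [Fintype N]
  [Group A] [Group U] [Finite U] [Fintype Ω] (D : Dat p B N A) (π : U →* A) (_ : ¬ p ∣ Nat.card U)
  (e f : Ω → ℕ) (T : Tab p B Ω e f) (c : Cor p D.k T) (χ' : NU D π → ℂ) (_ : IsIrr χ')
  (θ : B → ℂ) (_ : IsIrr θ) (_ : SE p D.k (fun n => χ' (inl n)) θ),
  IsIrr (fun n : N => χ' (inl n)) ∨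
    ∃ ω m, T.t ⟨ω, m⟩ = θ ∧
      2 ≤ (Finset.univ.filter fun m' => ¬ SE p id (T.t ⟨ω, m'⟩) θ).card ∧
      (∀ n : N, χ' (inl n) = ∑ m' ∈ Finset.univ.filter (fun m' => ¬ SE p id (T.t ⟨ω, m'⟩) θ), c.b ω m' n) ∧
      ∀ m', ¬ SE p id (T.t ⟨ω, m'⟩) θ → (∀ χ : N → ℂ, IsIrr χ → SE p D.k χ (T.t ⟨ω, m'⟩) → χ = c.b ω m') ∧
        ∀ θ' : B → ℂ, IsIrr θ' → SE p id θ' (T.t ⟨ω, m'⟩) → θ' = T.t ⟨ω, m'⟩

/-- **Piece CLI** (claim I): for a function `F` on the singular elements of `B ⋊ U`, `F ≠ 0`, there are as many `χ' = ± F` in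
`Irr (N ⋊ U)` with irreducible restriction to `N` as `θ' = ± F` in `Irr (B ⋊ U)` with irreducible restriction to `B`.

Proof. By `LCU` and `cor` (RD/CnyB.lean) for `B ⋊ U → N ⋊ U` the total numbers of the `χ' = ± F` in `Irr (N ⋊ U)` and of the
`θ' = ± F` in `Irr (B ⋊ U)` agree (`Cor.b` is a bijection from `Irr(B ⋊ U)` onto the characters which do not vanish at the
singular elements). We may assume that `F = ± θ₀` at the singular elements of `B`, for some `θ₀ ∈ Irr(B)` (otherwise both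
numbers are `0`: use `Cor` for `B → N`). It remains to compare the numbers `R_N`, `R_B` of those with reducible
restriction. By `LL` these are sums of the characters in `O_N = {b ω m'}`, `O_B = {T.t ω m'}`, `m'` as there (`LL` for `B` is
`LL` with `N = B`, `k = id`). Fix one such `m'`, `χ₁ = b ω m'`, `θ₁ = T.t ⟨ω, m'⟩`; their stabilizers in `U` are equal, as both are
determined by the singular function up to sign; call it `U₁`. By Clifford `χ' = Ind χ'₁` with `χ'₁ ∈ Irr(N ⋊ U₁)`
extending `χ₁`. `LCU` and `cor` for `U₁` give `θ'₁ ∈ Irr(B ⋊ U₁)`, `θ'₁ = ± χ'₁` at the singular elements. By `LL` (for `B`, `U₁`,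
`θ₁`) the restriction of `θ'₁` to `B` is irreducible, so `θ₁`: otherwise it would be the sum of the `θ'' ∈` family `ω`,
`θ'' ≠ ± θ₁`, an orbit of `U₁`; it contains `θ₀`, and all elements of `U` fix `± θ₀` (as `F` is a class function up to
sign), so the orbit consists of characters `± θ₀`; then the family `ω` is the union of `Y_{θ₀}` and `{θ₁}`, but at least 2
members are not `± θ₀`. Hence `Ind θ'₁` is irreducible, `= ± F` at the singular elements (induction commutes with the
restriction to the singular elements of `B ⋊ U`, as `N ⋊ U = (N ⋊ U₁) (B ⋊ U)`), with reducible restriction. This map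
`χ' ↦ χ'₁ ↦ θ'₁ ↦ Ind θ'₁` is injective (Clifford correspondence), so `R_N ≤ R_B`, and similarly `R_B ≤ R_N`. -/
def CLI : Prop := ∀ (p : ℕ) [Fact p.Prime] (B N A U : Type) [Group B] [Finite B] [Group N] [Finite N]
  [Group A] [Group U] [Finite U] (D : Dat p B N A) (π : U →* A) (_ : ¬ p ∣ Nat.card U)
  (F : BU D π → ℂ) (_ : ∃ g, p ∣ orderOf g ∧ F g ≠ 0),
  Nat.card {χ' : NU D π → ℂ // IsIrr χ' ∧ IsIrr (fun n : N => χ' (inl n)) ∧ SE p (kU D π) χ' F} =
    Nat.card {θ' : BU D π → ℂ // IsIrr θ' ∧ IsIrr (fun b : B => θ' (inl b)) ∧ SE p id θ' F}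

/-- `χ` and `θ` are matched over the subgroup `W` of `A` -/
def MM {p : ℕ} {B N A : Type} [Group B] [Group N] [Group A] (D : Dat p B N A) (W : Subgroup A)
    (χ : N → ℂ) (θ : B → ℂ) : Prop :=
  ∃ (U : Type) (_ : Group U) (_ : Finite U) (π : U →* A), ¬ p ∣ Nat.card U ∧ π.range = W ∧
    ∃ (χ' : NU D π → ℂ) (θ' : BU D π → ℂ), IsIrr χ' ∧ IsIrr θ' ∧ (∀ n : N, χ' (inl n) = χ n) ∧
      (∀ b : B, θ' (inl b) = θ b) ∧ SE p (kU D π) χ' θ'

/-- **Piece UNI**: a group `U` such that all `W`-invariant characters extend to `N ⋊ U`, `B ⋊ U`.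

Proof. For one character `χ` with representation `V`: the pairs `(w, M)`, `M` invertible with `M ρ(n) M⁻¹ = ρ(α(w) n)` and
`M` in a suitable finite group (or `K3h85.IN.t_S3a` for `N ◁ N ⋊ W`, modulo the image of `N`; its Hall `p'`-subgroup, as the
extension of the `p'`-group `W` by the central kernel splits over the Sylow `p`-subgroup of the kernel). For several
characters take the fibre product over `W`. -/
def UNI : Prop := ∀ (p : ℕ) [Fact p.Prime] (B N A : Type) [Group B] [Finite B] [Group N] [Finite N]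
  [Group A] [Finite A] (D : Dat p B N A) (W : Subgroup A) (_ : ¬ p ∣ Nat.card W),
  ∃ (U : Type) (_ : Group U) (_ : Finite U) (π : U →* A), ¬ p ∣ Nat.card U ∧ π.range = W ∧
    (∀ χ : N → ℂ, IsIrr χ → (∀ w ∈ W, ∀ n, χ (D.α w n) = χ n) →
      ∃ χ' : NU D π → ℂ, IsIrr χ' ∧ ∀ n : N, χ' (inl n) = χ n) ∧
    ∀ θ : B → ℂ, IsIrr θ → (∀ w ∈ W, ∀ b, θ (D.β w b) = θ b) →
      ∃ θ' : BU D π → ℂ, IsIrr θ' ∧ ∀ b : B, θ' (inl b) = θ b

/-- the irreducible characters which do not vanish at the singular elements -/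
def Xs {p : ℕ} {B N A : Type} [Group B] [Group N] [Group A] (D : Dat p B N A) : Type :=
  {χ : N → ℂ // IsIrr χ ∧ ∃ b : B, p ∣ orderOf b ∧ χ (D.k b) ≠ 0}

/-- the irreducible characters of `B` -/
def Ys {p : ℕ} {B N A : Type} [Group B] [Group N] [Group A] (_ : Dat p B N A) : Type :=
  {θ : B → ℂ // IsIrr θ}

/-- **Piece MEQ**: from `CLI` and `UNI`.

Proof. Matching: let `U` be as in `UNI`, `Λ = Hom(W, ℂˣ)`, which acts (via `W = π(U)`) freely on the set `𝒳` of the `χ' ∈ Irr(N ⋊ U)` with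
irreducible restriction to `N`, not vanishing at the singular elements, which are trivial on ... (take `Λ = Hom(U, ℂˣ)`,
the orbits on `𝒳` are the fibres of the restriction to `N`: Gallagher; similarly for `𝒴 ⊆ Irr(B ⋊ U)`). `𝒳 → {functions up to
sign on the singular elements} ← 𝒴` are `Λ`-equivariant and have fibres of the same sizes by `CLI`; so there is a
`Λ`-equivariant bijection over the functions up to sign, and it induces `e`.
Difunctional: given `MM` for `(χ, θ)`, `(χ₁, θ)`, `(χ₁, θ₁)` with groups `U, U', U''`, take the fibre product over `W`; two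
extensions of an irreducible character differ by a linear character of the fibre product; as all characters are
matched (`SE`) and are not zero at the singular elements of `B`, multiply with linear characters such that
`χ' = ± θ' = ± χ₁' = ± θ₁'`. -/
def MEQ : Prop := ∀ (p : ℕ) [Fact p.Prime] (B N A : Type) [Group B] [Finite B] [Group N] [Finite N]
  [Group A] [Finite A] (D : Dat p B N A) (W : Subgroup A) (_ : ¬ p ∣ Nat.card W),
  (∃ e : {χ : Xs D // ∀ w ∈ W, ∀ n, χ.1 (D.α w n) = χ.1 n} ≃ {θ : Ys D // ∀ w ∈ W, ∀ b, θ.1 (D.β w b) = θ.1 b},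
    ∀ χ, MM D W χ.1.1 (e χ).1.1) ∧
  ∀ (χ χ₁ : Xs D) (θ θ₁ : Ys D), MM D W χ.1 θ.1 → MM D W χ₁.1 θ.1 → MM D W χ₁.1 θ₁.1 → MM D W χ.1 θ₁.1

/-- **Piece CLX** (combinatorics). Proof by induction on `|X|`: choose `x ∈ X` with a stabilizer `W` which is maximal among
all stabilizers of elements of `X` and `Y` (or such `y ∈ Y`); the bijection of the hypothesis for `W` gives `y ∈ Y` fixed by
`W` with `M W x y`, so `W` is the stabilizer of `y`. Remove the orbits of `x` and `y`: for each `W'` and each class of the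
relation `M W'` the same numbers of elements are removed from `X` and `Y`. -/
def CLX : Prop := ∀ (V X Y : Type) [Group V] [Finite V] [Finite X] [Finite Y] [MulAction V X]
  [MulAction V Y] (M : Subgroup V → X → Y → Prop)
  (_ : ∀ W W' x y, W' ≤ W → M W x y → M W' x y)
  (_ : ∀ (g : V) W x y, M W x y → M (W.map (MulAut.conj g).toMonoidHom) (g • x) (g • y))
  (_ : ∀ W x x' y y', M W x y → M W x' y → M W x' y' → M W x y')
  (_ : ∀ W : Subgroup V, ∃ e : {x : X // ∀ g ∈ W, g • x = x} ≃ {y : Y // ∀ g ∈ W, g • y = y},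
    ∀ x, M W x.1 (e x).1),
  ∃ β : X ≃ Y, (∀ (g : V) x, β (g • x) = g • β x) ∧ ∀ x, M (MulAction.stabilizer V x) x (β x)

/-- the link for a subgroup `R` instead of a Sylow subgroup -/
def LnkR (p : ℕ) [Fact p.Prime] {N : Type} [Group N] [Finite N] (R : Subgroup N) : Prop :=
  ∃ (β : X p N ≃ X p (Subgroup.normalizer (R : Set N)))
    (ω : N ⋊[(Ast R).subtype] (Ast R) → ℂ), RC ω ∧
    (∀ χ : X p N, cl p (ndeg χ.1) = cl p (ndeg (β χ).1)) ∧
    (∀ (χ : X p N) (z : Subgroup.normalizer (R : Set N)), (z : N) ∈ Subgroup.center N →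
      (β χ).1 z * χ.1 1 = χ.1 z * (β χ).1 1) ∧
    ∀ (n : N) (m : Subgroup.normalizer (R : Set N)) (b : Ast R), (b : MulAut N) = MulAut.conj (m : N) →
      ω ⟨n * (m : N)⁻¹, b⟩ = ∑ᶠ χ : X p N, χ.1 n * (β χ).1 m⁻¹

/-- the restriction of an automorphism to the normalizer -/
theorem ast_norm {N : Type} [Group N] {R : Subgroup N} {a : MulAut N} (ha : a ∈ Ast R)
    (m : N) (hm : m ∈ Subgroup.normalizer (R : Set N)) : a m ∈ Subgroup.normalizer (R : Set N) := by
  rw [Subgroup.mem_normalizer_iff] at hm ⊢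
  intro x
  obtain ⟨y, rfl⟩ := a.surjective x
  rw [ha.1, hm y, ← map_inv, ← map_mul, ← map_mul, ha.1]

/-- **Piece LKB**: the link from the equivariant bijection and the matched extensions.

`B = normalizer R`, `|R| = p`, `A = Ast R`; `V ≤ A` has order prime to `p` and `A = conj(B) V`; `β` is `A`-equivariant; for each `χ` there
are `U` of order prime to `p`, `π : U → A` with image the stabilizer `V_χ`, and extensions `χ'`, `θ'` of `χ`, `β χ` to `N ⋊ U`, `B ⋊ U`,
equal up to sign at the singular elements.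

Proof. As in RD/Ext.lean use `glu` (RD/Glu.lean): it is enough that `κ(n m⁻¹, conj m) = χ(n) θ(m⁻¹)` extends to
`N ⋊ A_χ`. `(n, m, u) ↦ χ'(n, u) θ'((m, u)⁻¹)` is an irreducible character of `(N × B) ⋊ U`, and
`(n, m, u) ↦ (n m⁻¹, conj(m) π(u))` maps `(N × B) ⋊ U` onto `N ⋊ A_χ`. Its kernel consists of the `(m, m, u)` with
`π(u) = conj(m)⁻¹`; there `χ'(m, u)` is a scalar `a` times `χ'(1)` and `θ'(m, u)` a scalar `b` times `θ'(1)` (the operator commutes with
`N` resp. `B`), and for singular `g ∈ B` `χ'((g, 1) (m, u)) = a χ(g)`, `θ'((g, 1) (m, u)) = b θ(g)`; `(g, 1)` and `(m, u)` commute and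
`(m, u)` has order prime to `p` (`u` has, and `m` has modulo `Z(N)`), so the product is singular; as `χ = ± θ ≠ 0` at some
singular `g`, with the same sign, `a = b`. So the character is trivial on the kernel. The central characters agree as
`χ = ± θ` at the singular elements; the degrees by `sum_Q`-like sums over `R` (see `hdeg` in RD/CnyB.lean). -/
def LKB : Prop := ∀ (p : ℕ) [Fact p.Prime] (N : Type) [Group N] [Finite N] (R : Subgroup N)
  (_ : Nat.card R = p) (_ : ¬ p ∣ Nat.card (Subgroup.center N))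
  (D : Dat p (Subgroup.normalizer (R : Set N)) N (Ast R)) (_ : D.k = Subgroup.subtype _)
  (_ : D.α = (Ast R).subtype) (V : Subgroup (Ast R)) (_ : ¬ p ∣ Nat.card V)
  (_ : ∀ a : Ast R, ∃ (m : Subgroup.normalizer (R : Set N)), ∃ v ∈ V, (a : MulAut N) = MulAut.conj (m : N) * v)
  (β : Xs D ≃ Ys D) (_ : ∀ v ∈ V, ∀ χ χ₁ : Xs D, (∀ n, χ₁.1 n = χ.1 (D.α v n)) →
    ∀ b, (β χ₁).1 b = (β χ).1 (D.β v b))
  (_ : ∀ χ : Xs D, ∃ W : Subgroup (Ast R), (∀ v, v ∈ W ↔ v ∈ V ∧ ∀ n, χ.1 (D.α v n) = χ.1 n) ∧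
    MM D W χ.1 (β χ).1), LnkR p R

/-- **Piece HAL**: existence of `V`, and of the data.

Let `R ≤ P` be the subgroup of order `p` of the cyclic Sylow `p`-subgroup `P` of `N`, `B = N_N(R)`, `H ◁ B` as in `C0`
(`a_C0`), so `C_B(R) = H P`, `p ∤ |H|`. `A = Ast R` acts on `N`, `B`; `conj(H)` is normal in `A` (`H` is the set of elements of
order prime to `p` of `C_N(R)`), `conj(H P) / conj(H)` is a normal Sylow `p`-subgroup of `A / conj(H)` (as `A / conj(B)` has order prime
to `p`: every element `a ∈ A` with `a ^ p ∈ conj(B)` is in `conj(B)`). By Schur-Zassenhaus it has a complement, whose preimage is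
`V`. -/
def HAL : Prop := ∀ (p : ℕ) [Fact p.Prime] (N : Type) [Group N] [Finite N] (P : Sylow p N)
  (_ : IsCyclic P) (_ : p ∣ Nat.card N)
  (_ : ∀ a : MulAut N, (∀ z ∈ Subgroup.center N, a z = z) → (∃ n : N, a ^ p = MulAut.conj n) →
    ∃ n : N, a = MulAut.conj n),
  ∃ R : Subgroup N, R ≤ P ∧ Nat.card R = p ∧
    ∃ (D : Dat p (Subgroup.normalizer (R : Set N)) N (Ast R)), D.k = Subgroup.subtype _ ∧
      D.α = (Ast R).subtype ∧ (∀ (a : Ast R) b, ((D.β a b : Subgroup.normalizer (R : Set N)) : N) = (a : MulAut N) b) ∧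
      ∃ V : Subgroup (Ast R), ¬ p ∣ Nat.card V ∧
        ∀ a : Ast R, ∃ (m : Subgroup.normalizer (R : Set N)), ∃ v ∈ V, (a : MulAut N) = MulAut.conj (m : N) * v

/-- **Piece GR1**: from the data of `GRP` (RD/Stm.lean) to the data with a subgroup `R ≤ Q` instead of `Q`: `R` is stable under
all automorphisms which stabilise `Q`, and the normalizer of `R` is not `N`. `H₁ = F((normalizer R) ^ I) H`,
`σ₁(F(n) h) = σ h`, `c₁(F(n) h, i) = conj(n_{h i}) c(h, i)`; well defined by the last condition on `F n ∈ H`. -/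
def GR1 : Prop := ∀ (p : ℕ) [Fact p.Prime] (G : Type) [Group G] [Finite G] (P : Sylow p G) (N : Type)
  [Group N] [Finite N] (I : Type) [Fintype I] [Nonempty I] (F : (I → N) →* G)
  (H : Subgroup G) (σ : H →* Equiv.Perm I) (c : H → I → MulAut N) (Q : Sylow p N) (R : Subgroup N)
  (_ : ∀ a ∈ Ast (Q : Subgroup N), ∀ x, a x ∈ R ↔ x ∈ R)
  (_ : Subgroup.normalizer (R : Set N) ≠ ⊤)
  (_ : F.range.Normal) (_ : F.range ⊔ H = ⊤) (_ : NN P ≤ H)
  (_ : ∀ h h' i, c (h * h') i = c h (σ h' i) * c h' i)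
  (_ : ∀ (h : H) (n : I → N), (h : G) * F n * (h : G)⁻¹ =
      F fun i => c h ((σ h)⁻¹ i) (n ((σ h)⁻¹ i)))
  (_ : ∀ h i, c h i ∈ Ast (Q : Subgroup N)) (_ : ∀ n : I → N, F n ∈ H ↔ ∀ i, n i ∈ NN Q)
  (_ : ∀ (n : I → N) (hn : F n ∈ H), σ ⟨F n, hn⟩ = 1 ∧ ∀ i, c ⟨F n, hn⟩ i = MulAut.conj (n i)),
  ∃ (H₁ : Subgroup G) (σ₁ : H₁ →* Equiv.Perm I) (c₁ : H₁ → I → MulAut N),
    F.range ⊔ H₁ = ⊤ ∧ NN P ≤ H₁ ∧ H₁ ≠ ⊤ ∧
    (∀ h h' i, c₁ (h * h') i = c₁ h (σ₁ h' i) * c₁ h' i) ∧
    (∀ (h : H₁) (n : I → N), (h : G) * F n * (h : G)⁻¹ =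
      F fun i => c₁ h ((σ₁ h)⁻¹ i) (n ((σ₁ h)⁻¹ i))) ∧
    (∀ h i, c₁ h i ∈ Ast R) ∧
    (∀ n : I → N, F n ∈ H₁ ↔ ∀ i, n i ∈ Subgroup.normalizer (R : Set N)) ∧
    ∀ (n : I → N) (hn : F n ∈ H₁), σ₁ ⟨F n, hn⟩ = 1 ∧ ∀ i, c₁ ⟨F n, hn⟩ i = MulAut.conj (n i)

end Pool.Agent.ZH17.RD
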