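import Pool.Agent.ZH17.RD.Stm6
import Pool.Agent.ZH17.RD.Stm2

/-!
# Statements, seventh part (project RD phase C, helper17): the linking condition for ALL simple groups with cyclic Sylow
`p`-subgroups whose outer automorphism group has a normal `p`-complement and cyclic Sylow `p`-subgroups (always
true by the classification)

The condition is expressed by a homomorphism `φ` from the automorphism group to the cyclic group of order `p ^ k`,
whose kernel `A₀` has order prime to `p` modulo inner automorphisms.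
-/

set_option autoImplicit false
set_option linter.unusedSectionVars false
set_option linter.style.haveILetI false

open scoped BigOperators Classical

noncomputable section

namespace Pool.Agent.ZH17.RD

open Pool.Agent.Helper884 Pool.Agent.K3h3.KB Pool.Agent.K3h3.MK Pool.Agent.K3h83.IN
open Pool.Agent.K3h33.CY
open Pool.Agent.H254R3.IN (IsIrr mem_Irr)
open IC (Irr)
open SemidirectProduct

/-- there is a homomorphism from `Out(S)` to a cyclic `p`-group whose kernel has no elements of order `p` -/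
def OutPN (p : ℕ) (S : Type) [Group S] : Prop :=
  ∃ (k : ℕ) (f : MulAut S →* Multiplicative (ZMod (p ^ k))), (∀ s : S, f (MulAut.conj s) = 1) ∧
    ∀ a : MulAut S, f a = 1 → (∃ s : S, a ^ p = MulAut.conj s) → ∃ s : S, a = MulAut.conj s

/-- **Piece HAM** (variant of `HAL`, file RD/Hal.lean; helper3). As `hal`, but only for the kernel of `f`: in the proof of
`HAL.cop` replace the group `Ast R` by the subgroup `A₀` of the elements with `f a = 1` (it contains `cj R`). -/
def HAM : Prop := ∀ (p : ℕ) [Fact p.Prime] (N : Type) [Group N] [Finite N] (P : Sylow p N)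
  (_ : IsCyclic P) (_ : p ∣ Nat.card N) (k : ℕ) (f : MulAut N →* Multiplicative (ZMod (p ^ k)))
  (_ : ∀ n : N, f (MulAut.conj n) = 1)
  (_ : ∀ a : MulAut N, f a = 1 → (∃ n : N, a ^ p = MulAut.conj n) → ∃ n : N, a = MulAut.conj n),
  ∃ R : Subgroup N, R ≤ P ∧ Nat.card R = p ∧
    ∃ (D : Dat p (Subgroup.normalizer (R : Set N)) N (Ast R)), D.k = Subgroup.subtype _ ∧
      D.α = (Ast R).subtype ∧ (∀ (a : Ast R) b, ((D.β a b : Subgroup.normalizer (R : Set N)) : N) = (a : MulAut N) b) ∧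
      ∃ V : Subgroup (Ast R), ¬ p ∣ Nat.card V ∧ (∀ v ∈ V, f (v : MulAut N) = 1) ∧
        ∀ a : Ast R, f (a : MulAut N) = 1 →
          ∃ (m : Subgroup.normalizer (R : Set N)), ∃ v ∈ V, (a : MulAut N) = MulAut.conj (m : N) * v

/-- **Piece TRV**: an element `a` of `p`-power order of `A`, `p` odd, which fixes the singular values of a character up to
sign fixes the character.

Proof. If `χ ∘ a = - χ` at the singular elements then `χ = (-1) ^ (p ^ k) χ = - χ` there (`a ^ (p ^ k) = 1`, `p` odd; `β a`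
permutes the singular elements), a contradiction as `χ ≠ 0` at some singular element. So `χ ∘ a = χ` at the singular
elements, and `fix_of_sing` (RD/Cny.lean) applies with `ι = D.k`, `y = D.α a`, `z = D.β a`, `T` from `tab_of`, `c` from
`cor_of` (RD/LlC.lean). For `θ ∈ Irr(B)` the same with `N = B`, `ι = id` (`ec_id` in RD/Lcu.lean, or `datId` in
RD/CliB.lean; an irreducible character of `B` does not vanish at all singular elements: `exists_sing` in RD/Meq.lean). -/
def TRV : Prop := ∀ (p : ℕ) [Fact p.Prime] (_ : p ≠ 2) (B N A : Type) [Group B] [Finite B] [Group N]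
  [Finite N] [Group A] (D : Dat p B N A) (a : A) (k : ℕ) (_ : a ^ p ^ k = 1),
  (∀ χ : Xs D, SE p id (fun b => χ.1 (D.k (D.β a b))) (fun b => χ.1 (D.k b)) →
    ∀ n, χ.1 (D.α a n) = χ.1 n) ∧
  ∀ θ : Ys D, SE p id (fun b => θ.1 (D.β a b)) θ.1 → ∀ b, θ.1 (D.β a b) = θ.1 b

/-- **Piece CLZ** (combinatorics, from `clx`, RD/Clx.lean). `A` acts on the finite sets `X`, `Y` over the `A`-set `C` of classes; elements
of `p`-power order which fix a class act trivially on its fibres.

Proof. For a class `c` in the image of `f` (so of `g`; by the last hypothesis for `W = 1`, `f` and `g` have the same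
images) let `A_c` be the stabilizer, `X_c`, `Y_c` the fibres, `V_c = V ∩ A_c`. (1) If `φ a = 1`, `a ∈ A_c`, then `a = i v` with
`v ∈ V_c`, as `I` acts trivially on `X`, hence on the class `c`. (2) Each `a ∈ A_c` acts on `X_c` and `Y_c` as an element of
`V_c`: write `a = a₁ a₂`, powers of `a`, `a₁` of `p`-power order, `a₂` of order prime to `p`; `a₁ ∈ A_c` acts trivially, and
`φ a₂ = 1`, as the target of `φ` is a `p`-group; so (1) applies to `a₂`. (3) `clx` for the group `V_c` and the sets `X_c`, `Y_c`,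
with `M' W x y = M (image of W in A) x y`, gives a `V_c`-equivariant bijection `β_c : X_c ≃ Y_c` with `M (stabilizer of x in V_c) x (β_c x)`
(the bijections for `W ≤ V_c`: restrict the given ones, which respect the classes); by (2) it is `A_c`-equivariant. (4) Choose representatives
`r` of the `A`-orbits on `C` and for each `c` in the orbit of `r` some `g_c ∈ A` with `g_c r = c`, and put `β x = g_c β_r (g_c⁻¹ x)` for
`x` in the fibre of `c`. It is a bijection, `A`-equivariant by (3), and `W = g_c (stabilizer of g_c⁻¹ x in V_r) g_c⁻¹` has the required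
properties (`φ` is invariant under conjugation, `I` is normal). -/
def CLZ : Prop := ∀ (p : ℕ) [Fact p.Prime] (A X Y C : Type) [Group A] [Finite A] [Finite X] [Finite Y]
  [MulAction A X] [MulAction A Y] [MulAction A C] (f : X → C) (g : Y → C)
  (_ : ∀ (a : A) x, f (a • x) = a • f x) (_ : ∀ (a : A) y, g (a • y) = a • g y)
  (_ : ∀ (a : A) (k : ℕ), a ^ p ^ k = 1 → (∀ x : X, a • f x = f x → a • x = x) ∧
    ∀ y : Y, a • g y = g y → a • y = y)
  (k : ℕ) (φ : A →* Multiplicative (ZMod (p ^ k))) (I V : Subgroup A) (_ : I.Normal)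
  (_ : ∀ i ∈ I, φ i = 1) (_ : ∀ v ∈ V, φ v = 1) (_ : ¬ p ∣ Nat.card V)
  (_ : ∀ a, φ a = 1 → ∃ i ∈ I, ∃ v ∈ V, a = i * v)
  (_ : ∀ i ∈ I, (∀ x : X, i • x = x) ∧ ∀ y : Y, i • y = y)
  (M : Subgroup A → X → Y → Prop)
  (_ : ∀ W W' x y, W' ≤ W → M W x y → M W' x y)
  (_ : ∀ (g : A) W x y, M W x y → M (W.map (MulAut.conj g).toMonoidHom) (g • x) (g • y))
  (_ : ∀ W : Subgroup A, ¬ p ∣ Nat.card W → ∀ x x' y y', M W x y → M W x' y → M W x' y' → M W x y')
  (_ : ∀ W x y, M W x y → f x = g y)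
  (_ : ∀ W : Subgroup A, ¬ p ∣ Nat.card W →
    ∃ e : {x : X // ∀ g ∈ W, g • x = x} ≃ {y : Y // ∀ g ∈ W, g • y = y}, ∀ x, M W x.1 (e x).1),
  ∃ β : X ≃ Y, (∀ (a : A) x, β (a • x) = a • β x) ∧
    ∀ x, ∃ W : Subgroup A, ¬ p ∣ Nat.card W ∧ (∀ w ∈ W, φ w = 1 ∧ w • x = x) ∧
      (∀ a, φ a = 1 → a • x = x → ∃ i ∈ I, ∃ w ∈ W, a = i * w) ∧ M W x (β x)

/-- **Piece EXP** (characters). `K ≤ E₀ = ker φ ≤ E`, `E / E₀` a cyclic `p`-group, `|E₀ : K|` prime to `p`. If the `E`-invariant
character `κ ∈ Irr(K)` extends to `E₀` it extends to `E`.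

Proof. The set `X` of the extensions of `κ` to `E₀` (irreducible: `Lkc.irr_pull` in RD/LkcA.lean) is `{ξ₀ λ}`, `λ ∈ Hom(E₀ / K, ℂˣ)`
(Gallagher; compare `gal_mul`, `gal_inj`, `gal_ex` in RD/Meq.lean), so `|X| = |(E₀ / K)^ab|` is prime to `p`. Let `y ∈ E` generate
`E` modulo `E₀`. Conjugation with `y` is a permutation of `X` whose `p ^ k`-th power is the identity (`y ^ (p ^ k) ∈ E₀`), so it has a
fixed point `ξ` (`Equiv.Perm.card_fixedPoints_modEq`). It is invariant under `E₀` and `y`, so under `E`, and extends to `E` as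
`E / E₀` is cyclic (library: cyclic extension, e.g. used in RD/Ext.lean, or K3h85.IN.t_S3a, or K3h18/IN/Ext2.lean). -/
def EXP : Prop := ∀ (p : ℕ) [Fact p.Prime] (K E : Type) [Group K] [Finite K] [Group E] [Finite E]
  (j : K →* E) (_ : Function.Injective j) (_ : j.range.Normal) (κ : K → ℂ) (_ : IsIrr κ)
  (_ : ∀ x, fixes j κ x) (k : ℕ) (φ : E →* Multiplicative (ZMod (p ^ k))) (_ : ∀ m, φ (j m) = 1)
  (_ : ¬ p ∣ j.range.relIndex φ.ker) (ξ₀ : φ.ker → ℂ) (_ : RC ξ₀)
  (_ : ∀ (m : K) (h : j m ∈ φ.ker), ξ₀ ⟨j m, h⟩ = κ m),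
  ∃ ξ : E → ℂ, RC ξ ∧ ∀ m, ξ (j m) = κ m

/-- **Piece LKC** (generalization of `LKB`, file RD/Lkb.lean; uses `EXP`): the link from the `A`-equivariant bijection and the
matchings over subgroups `W` of order prime to `p` with `(A₀)_χ = conj(B) W`, where `A₀` is the kernel of `φ`.

Proof. As `lkb` (RD/Lkb.lean); there `heq` is now a hypothesis, and `hkey` is proved in two steps: the proof of `LkbP.key` with
`T₀ = {x | φ x.right = 1 ∧ ∀ n, χ (x.right n) = χ n}` instead of `T` gives an extension of `κ_χ` to `T₀`; then `EXP` for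
`K = range (sm R)`, `E = T`, the homomorphism `x ↦ φ x.right`, with kernel `T₀`; `|T₀ : K|` divides `|W|` (`w ↦ (1, w)` maps `W` onto
`T₀ / K`), so it is prime to `p`; `κ_χ` is invariant under `T`. -/
def LKC : Prop := ∀ (p : ℕ) [Fact p.Prime] (N : Type) [Group N] [Finite N] (R : Subgroup N)
  (_ : Nat.card R = p) (_ : ¬ p ∣ Nat.card (Subgroup.center N))
  (D : Dat p (Subgroup.normalizer (R : Set N)) N (Ast R)) (_ : D.k = Subgroup.subtype _)
  (_ : D.α = (Ast R).subtype) (k : ℕ) (φ : Ast R →* Multiplicative (ZMod (p ^ k)))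
  (_ : ∀ (m : Subgroup.normalizer (R : Set N)) (a : Ast R), (a : MulAut N) = MulAut.conj (m : N) → φ a = 1)
  (β : Xs D ≃ Ys D)
  (_ : ∀ (a : Ast R) (χ χ₁ : Xs D), (∀ n, χ₁.1 n = χ.1 (D.α a n)) →
    ∀ b, (β χ₁).1 b = (β χ).1 (D.β a b))
  (_ : ∀ χ : Xs D, ∃ W : Subgroup (Ast R), ¬ p ∣ Nat.card W ∧
    (∀ w ∈ W, φ w = 1 ∧ ∀ n, χ.1 (D.α w n) = χ.1 n) ∧
    (∀ a : Ast R, φ a = 1 → (∀ n, χ.1 (D.α a n) = χ.1 n) →
      ∃ (m : Subgroup.normalizer (R : Set N)), ∃ w ∈ W, (a : MulAut N) = MulAut.conj (m : N) * w) ∧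
    MM D W χ.1 (β χ).1), LnkR p R

end Pool.Agent.ZH17.RD
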