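import Pool.Agent.ZH17.RD.LT2
import Pool.Agent.ZH17.RD.Wre
import Pool.Agent.ZH17.RD.Stm2

/-!
# The transfer theorem for socles of order prime to `p`
-/

set_option autoImplicit false
set_option linter.unusedSectionVars false
set_option linter.style.haveILetI false

open scoped BigOperators Classical

noncomputable section

namespace Pool.Agent.ZH17.RD

open Pool.Agent.Helper884 Pool.Agent.K3h3.KB Pool.Agent.K3h3.MK Pool.Agent.K3h83.IN
open Pool.Agent.H254R3.IN (IsIrr mem_Irr)
open Pool.Agent.K3h18.IN (irr_infl B_infl exists_prod dsc dsc_apply dsc_irr)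
open Pool.Agent.Q99.AS (ten ten_irr B_ten)
open IC (Irr)
open Representation SemidirectProduct

/-- the action of `Aut(N) × Sym(O)` on `O → N` -/
def phi0 (N O : Type) [Group N] : MulAut N × Equiv.Perm O →* MulAut (O → N) where
  toFun x :=
    { toFun := fun n j => x.1 (n (x.2⁻¹ j))
      invFun := fun n j => x.1⁻¹ (n (x.2 j))
      left_inv := fun n => by
        funext j
        have e : x.2⁻¹ (x.2 j) = j := x.2.symm_apply_apply j
        simp only
        rw [e]
        exact x.1.symm_apply_apply _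
      right_inv := fun n => by
        funext j
        have e : x.2 (x.2⁻¹ j) = j := x.2.apply_symm_apply j
        simp only
        rw [e]
        exact x.1.apply_symm_apply _
      map_mul' := fun n n' => by
        funext j
        exact map_mul _ _ _ }
  map_one' := by
    ext n j
    rfl
  map_mul' x y := by
    ext n j
    change (x.1 * y.1) (n ((x.2 * y.2)⁻¹ j)) = x.1 (y.1 (n (y.2⁻¹ (x.2⁻¹ j))))
    rw [mul_inv_rev, Equiv.Perm.mul_apply, MulAut.mul_apply]

theorem phi0_apply {N O : Type} [Group N] (x : MulAut N × Equiv.Perm O) (n : O → N) (j : O) :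
    phi0 N O x n j = x.1 (n (x.2⁻¹ j)) := rfl

section

variable {p : ℕ} [hp : Fact p.Prime]

/-- the exterior product of characters of degree prime to `p` -/
def xO {A I : Type} [Group A] [Finite A] [Fintype I] (s : I → X p A) : X p (I → A) :=
  ⟨fun n => ∏ i, (s i).1 (n i), (bt_irrX s).1, by
    rw [(bt_irrX s).2]
    exact prod_ne s⟩

theorem xO_apply {A I : Type} [Group A] [Finite A] [Fintype I] (s : I → X p A) (n : I → A) :
    (xO s).1 n = ∏ i, (s i).1 (n i) := rfl

theorem xO_inj {A I : Type} [Group A] [Finite A] [Fintype I] {s s' : I → X p A}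
    (h : xO s = xO s') : s = s' := s_unique (congrArg Subtype.val h)

theorem cov2 {A L I J : Type} [Group A] [Finite A] [Group L] [Finite L] [Fintype I] [Fintype J]
    (q : (J → I → A) →* L) (hq : Function.Surjective q) (χ : X p L) :
    ∃ s : J → I → X p A, ∀ n, χ.1 (q n) = ∏ o, ∏ i, (s o i).1 (n o i) := by
  obtain ⟨t, ht⟩ := coverI q hq χ
  have h1 : ∀ o, ∃ s : I → X p A, ∀ n : I → A, (t o).1 n = ∏ i, (s i).1 (n i) := fun o =>
    coverI (MonoidHom.id (I → A)) Function.surjective_id (t o)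
  choose s hs using h1
  refine ⟨s, fun n => ?_⟩
  rw [ht]
  exact Finset.prod_congr rfl fun o _ => hs o (n o)

/-- the value of the central character -/
def ce {A : Type} [Group A] (χ : A → ℂ) (z : A) : ℂ := χ z / χ 1

theorem ce_mul {A : Type} [Group A] [Finite A] {χ : A → ℂ} (h : IsIrr χ) {z : A}
    (hz : z ∈ Subgroup.center A) (x : A) : χ (z * x) = ce χ z * χ x := cc_mul h hz x

theorem ce_mul' {A : Type} [Group A] [Finite A] {χ : A → ℂ} (h : IsIrr χ) {z w : A}
    (hz : z ∈ Subgroup.center A) : ce χ (z * w) = ce χ z * ce χ w := by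
  unfold ce
  rw [cc_mul h hz w]
  ring

theorem ce_one {A : Type} [Group A] {χ : A → ℂ} (h : IsIrr χ) : ce χ 1 = 1 := by
  unfold ce
  exact div_self (irr_ne h)

theorem ce_pow {A : Type} [Group A] [Finite A] {χ : A → ℂ} (h : IsIrr χ) {z : A}
    (hz : z ∈ Subgroup.center A) (k : ℕ) : ce χ (z ^ k) = ce χ z ^ k := by
  induction k with
  | zero => rw [pow_zero, pow_zero, ce_one h]
  | succ k ih => rw [pow_succ, pow_succ, ce_mul' h ((Subgroup.center A).pow_mem hz k), ih]

end

section cop

variable {N J O : Type} [Group N] [Finite N]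

/-- a central element and its transforms under a finite group of automorphisms -/
theorem cop_aux {E Q : Type} [Group E] [Group Q] [Fintype Q] (act : Q →* MulAut E) (m : ℕ)
    (hm : ∀ e : E, e ^ m = 1) (hcop : Nat.Coprime (Nat.card Q) m) (Z : Subgroup E)
    (hZ : Z ≤ Subgroup.center E) (hZQ : ∀ x, ∀ z ∈ Z, act x z ∈ Z) (n : E)
    (hn : ∀ x, n⁻¹ * act x n ∈ Z) : ∃ z ∈ Z, ∀ x, act x (n * z) = n * z := by
  letI : CommGroup (Subgroup.center E) :=
    { (inferInstance : Group (Subgroup.center E)) with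
      mul_comm := fun a b => Subtype.ext (Subgroup.mem_center_iff.mp b.2 a) }
  let z : Q → Subgroup.center E := fun x => ⟨n⁻¹ * act x n, hZ (hn x)⟩
  let ac : Q → Subgroup.center E →* Subgroup.center E := fun x =>
    { toFun := fun w => ⟨act x w, by
        rw [Subgroup.mem_center_iff]
        intro g
        obtain ⟨g', rfl⟩ := (act x).surjective g
        rw [← map_mul, ← map_mul, Subgroup.mem_center_iff.mp w.2 g']⟩
      map_one' := Subtype.ext (map_one (act x))
      map_mul' := fun w w' => Subtype.ext (map_mul (act x) _ _) }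
  have hzz : ∀ x y, z (x * y) = z x * ac x (z y) := by
    intro x y
    apply Subtype.ext
    change n⁻¹ * act (x * y) n = n⁻¹ * act x n * act x (n⁻¹ * act y n)
    rw [map_mul, MulAut.mul_apply, map_mul, map_inv]
    group
  let s : Subgroup.center E := ∏ y : Q, z y
  have hs : ∀ x, ac x s = (z x)⁻¹ ^ Nat.card Q * s := by
    intro x
    have h1 : ac x s = ∏ y : Q, ((z x)⁻¹ * z (x * y)) := by
      rw [map_prod]
      refine Finset.prod_congr rfl fun y _ => ?_
      rw [hzz]
      group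
    rw [h1, Finset.prod_mul_distrib, Finset.prod_const, Finset.card_univ, Nat.card_eq_fintype_card]
    congr 1
    exact Fintype.prod_equiv (Equiv.mulLeft x) _ _ fun y => rfl
  obtain ⟨r, hr⟩ : ∃ r : ℕ, ∀ e : E, e ^ (Nat.card Q * r) = e := by
    rcases Nat.lt_or_ge 1 m with h0 | h0
    · obtain ⟨r, -, hr⟩ := Nat.exists_mul_mod_eq_one_of_coprime hcop h0
      refine ⟨r, fun e => ?_⟩
      rw [← Nat.div_add_mod (Nat.card Q * r) m, hr, pow_add, pow_mul, hm, one_pow, one_mul, pow_one]
    · interval_cases m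
      · rw [Nat.coprime_zero_right] at hcop
        exact ⟨1, fun e => by rw [hcop, one_mul, pow_one]⟩
      · refine ⟨0, fun e => ?_⟩
        have := hm e
        rw [pow_one] at this
        rw [this, one_pow]
  have hsZ : (s : E) ∈ Z := by
    have h1 : (s : E) = ((∏ y : Q, z y : Subgroup.center E) : E) := rfl
    rw [h1]
    have h2 : ∀ (t : Finset Q), (((∏ y ∈ t, z y : Subgroup.center E)) : E) ∈ Z := by
      intro t
      induction t using Finset.induction_on with
      | empty => simpa using Z.one_mem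
      | insert a t ha ih =>
        rw [Finset.prod_insert ha, Subgroup.coe_mul]
        exact Z.mul_mem (hn a) ih
    exact h2 _
  refine ⟨(s : E) ^ r, Z.pow_mem hsZ r, fun x => ?_⟩
  have h1 : act x n = n * (z x : E) := by
    change act x n = n * (n⁻¹ * act x n)
    group
  have h2 : act x (s : E) = (((z x)⁻¹ ^ Nat.card Q * s : Subgroup.center E) : E) :=
    congrArg Subtype.val (hs x)
  have h3 : (z x)⁻¹ ^ (Nat.card Q * r) = (z x)⁻¹ := Subtype.ext (by
    rw [Subgroup.coe_pow]
    exact hr _)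
  have h4 : act x ((s : E) ^ r) = (((z x)⁻¹ * s ^ r : Subgroup.center E) : E) := by
    rw [map_pow, h2, ← Subgroup.coe_pow, mul_pow ((z x)⁻¹ ^ Nat.card Q) s r, ← pow_mul, h3]
  rw [map_mul, h1, h4, Subgroup.coe_mul, Subgroup.coe_inv, Subgroup.coe_pow]
  group

end cop

section wreb

variable {p : ℕ} [hp : Fact p.Prime]

/-- **The transfer theorem for socles of order prime to `p`.** -/
theorem wreB (hTWI : TWI) (hLB : LB) {G : Type} [Group G] [Finite G] (P : Sylow p G) {N : Type}
    [Group N] [Finite N] {J O : Type} [Fintype J] [Fintype O] (a : ℕ) (F : (J → O → N) →* G)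
    (σ : NN P →* Equiv.Perm J) (τ : NN P → J → MulAut N) (π : NN P → J → Equiv.Perm O)
    (hpN : ¬ p ∣ Nat.card N) (hO : Fintype.card O = p ^ a) (hFn : F.range.Normal)
    (hsup : F.range ⊔ NN P = ⊤) (hτ : ∀ h h' o, τ (h * h') o = τ h (σ h' o) * τ h' o)
    (hπ : ∀ h h' o, π (h * h') o = π h (σ h' o) * π h' o)
    (hFc : ∀ (h : NN P) (n : J → O → N), (h : G) * F n * (h : G)⁻¹ =
      F fun o j => τ h ((σ h)⁻¹ o) (n ((σ h)⁻¹ o) ((π h ((σ h)⁻¹ o))⁻¹ j)))
    (hPt : ∀ x : NN P, (x : G) ∈ P → σ x = 1 ∧ ∀ o, τ x o = 1)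
    (htr : ∀ (o : J) (j j' : O), ∃ x : NN P, (x : G) ∈ P ∧ π x o j = j')
    (hcen : ∀ n, F n = 1 → ∀ o j, n o j ∈ Subgroup.center N)
    (hdi : ∀ (m : J → N) (hm : F (fun o _ => m o) ∈ NN P), σ ⟨_, hm⟩ = 1 ∧
      (∀ o, τ ⟨_, hm⟩ o = MulAut.conj (m o)) ∧ ∀ o, π ⟨_, hm⟩ o = 1) :
    wt (cl p) G = wt (cl p) (NN P) := by
  haveI := Fintype.ofFinite N
  haveI := hFn
  haveI : Nonempty O := Fintype.card_pos_iff.mp (by rw [hO]; exact pow_pos hp.out.pos a)
  obtain ⟨e, he⟩ := hTWI p a N hpN
  obtain ⟨ω₀, hω₀, hω₀f⟩ := hLB p a N hpN (MulAut N) (MonoidHom.id _) O hO (phi0 N O)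
    (fun x n j => rfl)
  -- the action and the tensor power
  let c : NN P → J → MulAut N × Equiv.Perm O := fun h o => (τ h o, π h o)
  have hcA : ∀ h h' o, c (h * h') o = c h (σ h' o) * c h' o := fun h h' o =>
    Prod.ext (hτ h h' o) (hπ h h' o)
  have hcB : ∀ h h' o, phi0 N O (c (h * h') o) = phi0 N O (c h (σ h' o)) * phi0 N O (c h' o) :=
    fun h h' o => by rw [hcA, map_mul]
  let φ : NN P →* MulAut (J → O → N) := actH σ (fun h o => phi0 N O (c h o)) hcB
  have hφa : ∀ (h : NN P) (n : J → O → N) (o : J) (j : O),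
      φ h n o j = τ h ((σ h)⁻¹ o) (n ((σ h)⁻¹ o) ((π h ((σ h)⁻¹ o))⁻¹ j)) := fun _ _ _ _ => rfl
  obtain ⟨ω, hω, hωf⟩ := exists_ten (α := phi0 N O) σ c φ hcA (fun h n j => rfl) hω₀
  set L : Subgroup G := F.range with hLdef
  let F' : (J → O → N) →* L := F.rangeRestrict
  have hF' : Function.Surjective F' := F.rangeRestrict_surjective
  have hF'c : ∀ n, ((F' n : L) : G) = F n := fun _ => rfl
  have hφ : ∀ (h : NN P) (n : J → O → N), (F' (φ h n) : G) = h * F' n * (h : G)⁻¹ := by
    intro h n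
    rw [hF'c, hF'c, hFc]
    rfl
  -- `P` acts by permutations
  have hPφ : ∀ x : NN P, (x : G) ∈ P → ∀ n o j, φ x n o j = n o ((π x o)⁻¹ j) := by
    intro x hx n o j
    obtain ⟨h1, h2⟩ := hPt x hx
    rw [hφa, h1, h2]
    rfl
  -- orders
  have hcopN : ∀ n : J → O → N, n ^ Nat.card N = 1 := by
    intro n
    funext o j
    exact pow_card_eq_one'
  have hcop : Nat.Coprime (Nat.card P) (Nat.card N) := by
    obtain ⟨k, hk⟩ := (IsPGroup.iff_card (p := p) (G := P)).mp P.isPGroup'
    rw [hk]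
    exact Nat.Coprime.pow_left k ((Nat.Prime.coprime_iff_not_dvd hp.out).mpr hpN)
  have hLP : ∀ l ∈ L, l ∈ P → l = 1 := by
    rintro _ ⟨n, rfl⟩ hl
    have h1 : (F n) ^ Nat.card N = 1 := by rw [← map_pow, hcopN, map_one]
    have h2 : (⟨F n, hl⟩ : P) ^ Nat.card P = 1 := pow_card_eq_one'
    have h3 : (F n) ^ Nat.card P = 1 := congrArg Subtype.val h2
    exact orderOf_eq_one_iff.mp (Nat.eq_one_of_dvd_coprimes hcop (orderOf_dvd_of_pow_eq_one h3)
      (orderOf_dvd_of_pow_eq_one h1))
  let cs : (J → N) →* (J → O → N) :=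
    { toFun := fun m o _ => m o
      map_one' := rfl
      map_mul' := fun _ _ => rfl }
  have hcsH : ∀ m, F (cs m) ∈ NN P := by
    intro m
    rw [Subgroup.mem_normalizer_iff]
    have key : ∀ x ∈ P, F (cs m) * x * (F (cs m))⁻¹ = x := by
      intro x hx
      have h1 := hφ ⟨x, Subgroup.le_normalizer hx⟩ (cs m)
      have h2 : φ ⟨x, Subgroup.le_normalizer hx⟩ (cs m) = cs m := by
        funext o j
        rw [hPφ _ hx]
        rfl
      rw [h2, hF'c] at h1
      change F (cs m) = x * F (cs m) * x⁻¹ at h1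
      have h3 : F (cs m) * x = x * F (cs m) := by
        nth_rewrite 1 [h1]
        group
      rw [h3]
      group
    intro x
    constructor
    · intro hx
      rw [key x hx]
      exact hx
    · intro hx
      have h1 := key _ hx
      have h2 : F (cs m) * x * (F (cs m))⁻¹ = x := by
        have h3 : F (cs m) * (F (cs m) * x * (F (cs m))⁻¹) * (F (cs m))⁻¹ =
            F (cs m) * x * (F (cs m))⁻¹ := h1
        have h4 : (F (cs m))⁻¹ * (F (cs m) * (F (cs m) * x * (F (cs m))⁻¹) * (F (cs m))⁻¹) * F (cs m)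
            = (F (cs m))⁻¹ * (F (cs m) * x * (F (cs m))⁻¹) * F (cs m) := by rw [h3]
        calc F (cs m) * x * (F (cs m))⁻¹ = (F (cs m))⁻¹ *
              (F (cs m) * (F (cs m) * x * (F (cs m))⁻¹) * (F (cs m))⁻¹) * F (cs m) := by group
          _ = _ := h4
          _ = x := by group
      rw [h2] at hx
      exact hx
  let F2 : (J → N) →* L.subgroupOf (NN P) :=
    { toFun := fun m => ⟨⟨F (cs m), hcsH m⟩, ⟨cs m, rfl⟩⟩
      map_one' := Subtype.ext (Subtype.ext (by
        change F (cs 1) = 1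
        rw [map_one, map_one]))
      map_mul' := fun m m' => Subtype.ext (Subtype.ext (by
        change F (cs (m * m')) = F (cs m) * F (cs m')
        rw [map_mul, map_mul])) }
  -- fixed points of `P`
  have hfixcs : ∀ n : J → O → N, (∀ x : NN P, (x : G) ∈ P → φ x n = n) → ∃ m, n = cs m := by
    intro n hn
    refine ⟨fun o => n o (Classical.arbitrary O), ?_⟩
    funext o j
    obtain ⟨x, hx, hxj⟩ := htr o (Classical.arbitrary O) j
    have h1 : φ x n o j = n o j := by rw [hn x hx]
    rw [hPφ x hx, ← hxj] at h1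
    have h2 : (π x o)⁻¹ (π x o (Classical.arbitrary O)) = Classical.arbitrary O :=
      (π x o).symm_apply_apply _
    rw [h2, hxj] at h1
    exact h1.symm
  haveI := Fintype.ofFinite P
  let act : P →* MulAut (J → O → N) := φ.comp (Subgroup.inclusion Subgroup.le_normalizer)
  have hker : F.ker ≤ Subgroup.center (J → O → N) := by
    intro n hn
    rw [Subgroup.mem_center_iff]
    intro g
    funext o j
    exact Subgroup.mem_center_iff.mp (hcen n hn o j) (g o j)
  have hkerQ : ∀ (x : P), ∀ z ∈ F.ker, act x z ∈ F.ker := by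
    intro x z hz
    rw [MonoidHom.mem_ker] at hz ⊢
    have h1 := hφ (Subgroup.inclusion Subgroup.le_normalizer x) z
    rw [hF'c, hF'c, hz, mul_one, mul_inv_cancel] at h1
    exact h1
  have hF2 : Function.Surjective F2 := by
    rintro ⟨⟨l, hl⟩, hl2⟩
    obtain ⟨n, hn⟩ := hl2
    change F n = l at hn
    subst hn
    have h1 : ∀ x : P, n⁻¹ * act x n ∈ F.ker := by
      intro x
      have h2 := hφ (Subgroup.inclusion Subgroup.le_normalizer x) n
      rw [hF'c, hF'c] at h2
      change F (act x n) = (x : G) * F n * (x : G)⁻¹ at h2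
      have h3 : (x : G) * F n * (x : G)⁻¹ = F n := by
        have h4 : F n * ((x : G) * (F n)⁻¹ * (x : G)⁻¹) = 1 := by
          refine hLP _ (L.mul_mem ⟨n, rfl⟩ (hFn.conj_mem _ (L.inv_mem ⟨n, rfl⟩) _)) ?_
          have h5 : F n * ((x : G) * (F n)⁻¹ * (x : G)⁻¹) = (F n * x * (F n)⁻¹) * (x : G)⁻¹ := by
            group
          rw [h5]
          exact (P : Subgroup G).mul_mem ((Subgroup.mem_normalizer_iff.mp hl x).mp x.2)
            ((P : Subgroup G).inv_mem x.2)
        have h6 := eq_inv_of_mul_eq_one_right h4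
        have h7 := congrArg (fun y => y⁻¹) h6
        simp only [inv_inv, mul_inv_rev] at h7
        rw [mul_assoc]
        exact h7
      rw [MonoidHom.mem_ker, map_mul, map_inv, h2, h3, inv_mul_cancel]
    obtain ⟨z, hz, hz2⟩ := cop_aux act (Nat.card N) hcopN hcop F.ker hker hkerQ n h1
    obtain ⟨m, hm⟩ := hfixcs (n * z) (fun x hx => hz2 ⟨x, hx⟩)
    refine ⟨m, Subtype.ext (Subtype.ext ?_)⟩
    change F (cs m) = F n
    rw [← hm, map_mul, (MonoidHom.mem_ker).mp hz, mul_one]
  -- the stable sets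
  let Xs : Set (X p L) := {χ | ∀ x ∈ P, fixes L.subtype χ.1 x}
  let Ys : Set (X p (L.subgroupOf (NN P))) := Set.univ
  have hXs : ∀ χ ∈ Xs, ∀ h : NN P, xc (MulAut.conjNormal (h : G)) χ ∈ Xs := by
    intro χ hχ h x hx
    have h1 : (h : G) * x * (h : G)⁻¹ ∈ P := (Subgroup.mem_normalizer_iff.mp h.2 x).mp hx
    have h2 := hχ _ h1
    intro l l' hl
    refine h2 (MulAut.conjNormal (h : G) l) (MulAut.conjNormal (h : G) l') ?_
    change (h : G) * x * (h : G)⁻¹ * ((h : G) * l * (h : G)⁻¹) * ((h : G) * x * (h : G)⁻¹)⁻¹ =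
      (h : G) * l' * (h : G)⁻¹
    change x * (l : G) * x⁻¹ = l' at hl
    rw [← hl]
    group
  -- central characters
  have hceP : ∀ (s : X p N) (z w : N), z ∈ Subgroup.center N →
      ce s.1 (z * w) = ce s.1 z * ce s.1 w := fun s z w hz => ce_mul' s.2.1 hz
  have hee : ∀ (s : X p N) (z : N), z ∈ Subgroup.center N →
      ce (e s).1 z = ce s.1 z ^ p ^ a := by
    intro s z hz
    unfold ce
    rw [he, he, one_pow]
    exact ce_pow s.2.1 hz _
  let Λ : (J → X p N) → (J → O → N) → ℂ := fun s n => ∏ o, ∏ j, ce (s o).1 (n o j)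
  have tr1 : ∀ (s : J → X p N) (b : J → O → N), (∀ o j, b o j ∈ Subgroup.center N) →
      ∀ x : J → O → N, ∏ o, ∏ j, (s o).1 ((b * x) o j) = Λ s b * ∏ o, ∏ j, (s o).1 (x o j) := by
    intro s b hb x
    rw [← Finset.prod_mul_distrib]
    refine Finset.prod_congr rfl fun o _ => ?_
    rw [← Finset.prod_mul_distrib]
    exact Finset.prod_congr rfl fun j _ => ce_mul (s o).2.1 (hb o j) (x o j)
  have tr2 : ∀ (s : J → X p N) (b : J → N), (∀ o, b o ∈ Subgroup.center N) →
      ∀ x : J → N, ∏ o, (e (s o)).1 ((b * x) o) = Λ s (cs b) * ∏ o, (e (s o)).1 (x o) := by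
    intro s b hb x
    rw [← Finset.prod_mul_distrib]
    refine Finset.prod_congr rfl fun o _ => ?_
    have h1 : ∏ j : O, ce (s o).1 (cs b o j) = ce (s o).1 (b o) ^ p ^ a := by
      change ∏ _j : O, ce (s o).1 (b o) = _
      rw [Finset.prod_const, Finset.card_univ, hO]
    rw [h1, ← hee (s o) (b o) (hb o)]
    exact ce_mul (e (s o)).2.1 (hb o) (x o)
  have hΛmul : ∀ (s : J → X p N) (b b' : J → O → N), (∀ o j, b o j ∈ Subgroup.center N) →
      Λ s (b * b') = Λ s b * Λ s b' := by
    intro s b b' hb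
    change ∏ o, ∏ j, ce (s o).1 (b o j * b' o j) = _
    rw [← Finset.prod_mul_distrib]
    refine Finset.prod_congr rfl fun o _ => ?_
    rw [← Finset.prod_mul_distrib]
    exact Finset.prod_congr rfl fun j _ => hceP (s o) _ _ (hb o j)
  have hΛone : ∀ s : J → X p N, Λ s 1 = 1 := by
    intro s
    change ∏ o : J, ∏ _j : O, ce (s o).1 1 = 1
    simp only [ce_one (s _).2.1, Finset.prod_const_one]
  have hΛP : ∀ (s : J → X p N) (x : P) (b : J → O → N), Λ s (act x b) = Λ s b := by
    intro s x b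
    refine Finset.prod_congr rfl fun o _ => ?_
    have h1 : ∀ j, act x b o j = b o ((π (Subgroup.inclusion Subgroup.le_normalizer x) o)⁻¹ j) :=
      fun j => hPφ _ x.2 b o j
    simp only [h1]
    exact Fintype.prod_equiv ((π (Subgroup.inclusion Subgroup.le_normalizer x) o)⁻¹) _ _
      fun j => rfl
  have hkc : ∀ b ∈ F.ker, ∀ o j, b o j ∈ Subgroup.center N := fun b hb => hcen b hb
  have hkc2 : ∀ b ∈ F2.ker, cs b ∈ F.ker ∧ ∀ o, b o ∈ Subgroup.center N := by
    intro b hb
    have h1 : F (cs b) = 1 :=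
      congrArg (fun y : L.subgroupOf (NN P) => ((y : NN P) : G)) ((MonoidHom.mem_ker).mp hb)
    exact ⟨h1, fun o => hcen _ h1 o (Classical.arbitrary O)⟩
  -- the relation
  have E1 : ∀ χ : Xs, ∃ s : J → X p N, ∀ n, χ.1.1 (F' n) = ∏ o, ∏ j, (s o).1 (n o j) := by
    intro χ
    obtain ⟨t, ht⟩ := cov2 F' hF' χ.1
    have h1 : ∀ (x : P) (o : J) (j : O),
        t o (π (Subgroup.inclusion Subgroup.le_normalizer x) o j) = t o j := by
      intro x
      have h2 : (xO fun o => xO fun j =>
          t o (π (Subgroup.inclusion Subgroup.le_normalizer x) o j)) = xO fun o => xO (t o) := by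
        apply Subtype.ext
        funext n
        change ∏ o, ∏ j, (t o (π (Subgroup.inclusion Subgroup.le_normalizer x) o j)).1 (n o j) =
          ∏ o, ∏ j, (t o j).1 (n o j)
        rw [← ht n]
        have h3 : χ.1.1 (F' (act x n)) = χ.1.1 (F' n) := by
          have h4 := χ.2 x x.2 (F' n) (F' (act x n)) (by
            change (x : G) * F n * (x : G)⁻¹ = (F' (act x n) : G)
            exact (hφ (Subgroup.inclusion Subgroup.le_normalizer x) n).symm)
          exact h4
        rw [← h3, ht]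
        refine Finset.prod_congr rfl fun o _ => ?_
        have h5 : ∀ j, act x n o j =
            n o ((π (Subgroup.inclusion Subgroup.le_normalizer x) o)⁻¹ j) :=
          fun j => hPφ _ x.2 n o j
        simp only [h5]
        refine Fintype.prod_equiv (π (Subgroup.inclusion Subgroup.le_normalizer x) o) _ _
          fun j => ?_
        have h6 : (π (Subgroup.inclusion Subgroup.le_normalizer x) o)⁻¹
            (π (Subgroup.inclusion Subgroup.le_normalizer x) o j) = j :=
          (π (Subgroup.inclusion Subgroup.le_normalizer x) o).symm_apply_apply j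
        rw [h6]
      intro o j
      have h7 := congrFun (xO_inj h2) o
      exact congrFun (xO_inj h7) j
    refine ⟨fun o => t o (Classical.arbitrary O), fun n => ?_⟩
    rw [ht]
    refine Finset.prod_congr rfl fun o _ => Finset.prod_congr rfl fun j _ => ?_
    obtain ⟨x, hx, hxj⟩ := htr o (Classical.arbitrary O) j
    rw [← hxj]
    have h8 := h1 ⟨x, hx⟩ o (Classical.arbitrary O)
    have h9 : π (Subgroup.inclusion Subgroup.le_normalizer ⟨(x : G), hx⟩) o = π x o := rfl
    rw [h9] at h8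
    rw [h8]
  have U1 : ∀ s s' : J → X p N, (∀ n : J → O → N, ∏ o, ∏ j, (s o).1 (n o j) =
      ∏ o, ∏ j, (s' o).1 (n o j)) → s = s' := by
    intro s s' h
    have h1 : (xO fun o => xO fun _ : O => s o) = xO fun o => xO fun _ : O => s' o :=
      Subtype.ext (funext h)
    funext o
    exact congrFun (xO_inj (congrFun (xO_inj h1) o)) (Classical.arbitrary O)
  have E2 : ∀ ψ : Ys, ∃ s : J → X p N, ∀ m, ψ.1.1 (F2 m) = ∏ o, (e (s o)).1 (m o) := by
    intro ψ
    obtain ⟨s, hs⟩ := coverI F2 hF2 ψ.1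
    refine ⟨fun o => e.symm (s o), fun m => ?_⟩
    rw [hs]
    refine Finset.prod_congr rfl fun o _ => ?_
    rw [e.apply_symm_apply]
  have D1 : ∀ (χ : Xs) (s : J → X p N), (∀ n, χ.1.1 (F' n) = ∏ o, ∏ j, (s o).1 (n o j)) →
      ∃ ψ : Ys, ∀ m, ψ.1.1 (F2 m) = ∏ o, (e (s o)).1 (m o) := by
    intro χ s hs
    have hk : ∀ b ∈ F2.ker, ∀ x, (xO fun o => e (s o)).1 (b * x) = (xO fun o => e (s o)).1 x := by
      intro b hb x
      obtain ⟨h1, h2⟩ := hkc2 b hb
      change ∏ o, (e (s o)).1 ((b * x) o) = ∏ o, (e (s o)).1 (x o)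
      rw [tr2 s b h2 x]
      have h3 : Λ s (cs b) = 1 := by
        have h4 := tr1 s (cs b) (hkc _ h1) 1
        have h5 : F' (cs b * 1) = F' 1 := by
          apply Subtype.ext
          rw [hF'c, hF'c, mul_one, (MonoidHom.mem_ker).mp h1, map_one]
        rw [← hs, ← hs, h5] at h4
        have h6 : χ.1.1 (F' 1) ≠ 0 := by
          rw [map_one]
          exact irr_ne χ.1.2.1
        exact (right_eq_mul₀ h6).mp h4
      rw [h3, one_mul]
    obtain ⟨ψ, hψ⟩ := desc F2 hF2 (xO fun o => e (s o)).2.1 hk (xO fun o => e (s o)).2.2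
    exact ⟨⟨ψ, trivial⟩, hψ⟩
  have D2 : ∀ (ψ : Ys) (s : J → X p N), (∀ m, ψ.1.1 (F2 m) = ∏ o, (e (s o)).1 (m o)) →
      ∃ χ : Xs, ∀ n, χ.1.1 (F' n) = ∏ o, ∏ j, (s o).1 (n o j) := by
    intro ψ s hs
    have hL1 : ∀ b ∈ F.ker, Λ s b = 1 := by
      intro b hb
      -- constant elements of the kernel
      have h1 : ∀ m, cs m ∈ F.ker → Λ s (cs m) = 1 := by
        intro m hm
        have h2 := tr2 s m (fun o => hkc _ hm o (Classical.arbitrary O)) 1
        have h3 : F2 (m * 1) = F2 1 := by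
          rw [mul_one, map_one]
          exact Subtype.ext (Subtype.ext hm)
        rw [← hs, ← hs, h3] at h2
        have h4 : ψ.1.1 (F2 1) ≠ 0 := by
          rw [map_one]
          exact irr_ne ψ.1.2.1
        exact (right_eq_mul₀ h4).mp h2
      -- the norm of `b`
      letI : CommGroup F.ker :=
        { (inferInstance : Group F.ker) with
          mul_comm := fun u v => Subtype.ext (Subgroup.mem_center_iff.mp (hker v.2) u) }
      let ac : P → F.ker →* F.ker := fun x =>
        { toFun := fun w => ⟨act x w, hkerQ x w w.2⟩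
          map_one' := Subtype.ext (map_one (act x))
          map_mul' := fun w w' => Subtype.ext (map_mul (act x) _ _) }
      let nb : F.ker := ∏ x : P, ac x ⟨b, hb⟩
      have h5 : ∀ y : P, ac y nb = nb := by
        intro y
        change ac y (∏ x : P, ac x ⟨b, hb⟩) = ∏ x : P, ac x ⟨b, hb⟩
        rw [map_prod]
        refine Fintype.prod_equiv (Equiv.mulLeft y) _ _ fun x => ?_
        apply Subtype.ext
        change act y (act x b) = act (y * x) b
        rw [map_mul]
        rfl
      obtain ⟨m, hm⟩ := hfixcs nb (fun x hx => congrArg Subtype.val (h5 ⟨x, hx⟩))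
      have h6 : Λ s nb = 1 := by
        rw [hm]
        exact h1 m (hm ▸ nb.2)
      let LL : F.ker →* ℂ :=
        { toFun := fun w => Λ s w
          map_one' := hΛone s
          map_mul' := fun w w' => hΛmul s _ _ (hkc _ w.2) }
      have h7 : LL nb = LL ⟨b, hb⟩ ^ Nat.card P := by
        change LL (∏ x : P, ac x ⟨b, hb⟩) = _
        rw [map_prod, Nat.card_eq_fintype_card, ← Finset.card_univ, ← Finset.prod_const]
        exact Finset.prod_congr rfl fun x _ => hΛP s x b
      have h8 : Λ s b ^ Nat.card P = 1 := h7.symm.trans h6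
      have h9 : Λ s b ^ Nat.card N = 1 := by
        have h10 : LL ⟨b, hb⟩ ^ Nat.card N = LL (⟨b, hb⟩ ^ Nat.card N) := (map_pow LL _ _).symm
        have h11 : (⟨b, hb⟩ : F.ker) ^ Nat.card N = 1 := Subtype.ext (hcopN b)
        rw [h11, map_one] at h10
        exact h10
      have h12 := orderOf_dvd_of_pow_eq_one h8
      have h13 := orderOf_dvd_of_pow_eq_one h9
      exact orderOf_eq_one_iff.mp (Nat.eq_one_of_dvd_coprimes hcop h12 h13)
    have hk : ∀ b ∈ F'.ker, ∀ x, (xO fun o => xO fun _ : O => s o).1 (b * x) =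
        (xO fun o => xO fun _ : O => s o).1 x := by
      intro b hb x
      have hb' : b ∈ F.ker := by
        rw [MonoidHom.mem_ker]
        exact congrArg (fun y : L => (y : G)) ((MonoidHom.mem_ker).mp hb)
      change ∏ o, ∏ j, (s o).1 ((b * x) o j) = ∏ o, ∏ j, (s o).1 (x o j)
      rw [tr1 s b (hkc b hb') x, hL1 b hb', one_mul]
    obtain ⟨χ, hχ⟩ := desc F' hF' (xO fun o => xO fun _ : O => s o).2.1 hk
      (xO fun o => xO fun _ : O => s o).2.2
    refine ⟨⟨χ, ?_⟩, hχ⟩
    intro x hx l l' hl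
    obtain ⟨n, rfl⟩ := hF' l
    have h1 : l' = F' (act ⟨x, hx⟩ n) := by
      apply Subtype.ext
      refine Eq.trans ?_ (hφ (Subgroup.inclusion Subgroup.le_normalizer ⟨x, hx⟩) n).symm
      exact hl.symm
    rw [h1, hχ, hχ]
    change ∏ o, ∏ j, (s o).1 (act ⟨x, hx⟩ n o j) = ∏ o, ∏ j, (s o).1 (n o j)
    refine Finset.prod_congr rfl fun o _ => ?_
    have h5 : ∀ j, act ⟨x, hx⟩ n o j =
        n o ((π (Subgroup.inclusion Subgroup.le_normalizer ⟨x, hx⟩) o)⁻¹ j) :=
      fun j => hPφ _ hx n o j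
    simp only [h5]
    exact Fintype.prod_equiv ((π (Subgroup.inclusion Subgroup.le_normalizer ⟨x, hx⟩) o)⁻¹) _ _
      fun j => rfl
  choose S1' hS1 using E1
  have hD1 := fun χ => D1 χ (S1' χ) (hS1 χ)
  choose b hb using hD1
  have hbinj : Function.Injective b := by
    intro χ χ' h
    have h1 : S1' χ = S1' χ' := by
      have h2 : (xO fun i => e (S1' χ i)) = xO fun i => e (S1' χ' i) := by
        apply Subtype.ext
        funext m
        change ∏ i, (e (S1' χ i)).1 (m i) = ∏ i, (e (S1' χ' i)).1 (m i)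
        rw [← hb χ m, ← hb χ' m, h]
      funext i
      exact e.injective (congrFun (xO_inj h2) i)
    apply Subtype.ext
    apply Subtype.ext
    funext l
    obtain ⟨n, rfl⟩ := hF' l
    rw [hS1, hS1, h1]
  have hbsur : Function.Surjective b := by
    intro ψ
    obtain ⟨s, hs⟩ := E2 ψ
    obtain ⟨χ, hχ⟩ := D2 ψ s hs
    refine ⟨χ, ?_⟩
    have h1 : S1' χ = s := U1 _ _ fun n => by rw [← hS1, ← hχ]
    apply Subtype.ext
    apply Subtype.ext
    funext l
    obtain ⟨m, rfl⟩ := hF2 l
    rw [hb, hs, h1]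
  let β : Xs ≃ Ys := Equiv.ofBijective b ⟨hbinj, hbsur⟩
  have hβ : ∀ χ, β χ = b χ := fun _ => rfl
  have hclβ : ∀ χ : Xs, cl p (ndeg χ.1.1) = cl p (ndeg (β χ).1.1) := by
    intro χ
    have hdeg : ∀ (s : X p N), ndeg (e s).1 = ndeg s.1 := by
      intro s
      unfold ndeg
      rw [he, one_pow]
    have h1 : ndeg χ.1.1 = ∏ o : J, ndeg (S1' χ o).1 ^ p ^ a := by
      have h2 : (fun x => χ.1.1 (F' x)) = (xO fun o => xO fun _ : O => S1' χ o).1 := by
        funext n
        exact hS1 χ n
      rw [← (cover F' hF' χ.1).2, h2]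
      refine ((bt_irrX (p := p) (fun o => xO fun _ : O => S1' χ o)).2).trans ?_
      refine Finset.prod_congr rfl fun o _ => ?_
      refine ((bt_irrX (p := p) (fun _ : O => S1' χ o)).2).trans ?_
      rw [Finset.prod_const, Finset.card_univ, hO]
    have h2 : ndeg (β χ).1.1 = ∏ o : J, ndeg (S1' χ o).1 := by
      have h3 : (fun x => (β χ).1.1 (F2 x)) = (xO fun o => e (S1' χ o)).1 := by
        funext m
        exact hb χ m
      rw [← (cover F2 hF2 (β χ).1).2, h3]
      refine ((bt_irrX (p := p) (fun o => e (S1' χ o))).2).trans ?_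
      exact Finset.prod_congr rfl fun o _ => hdeg _
    rw [h1, h2]
    apply cl_congr
    push_cast
    refine Finset.prod_congr rfl fun o _ => ?_
    exact ZMod.pow_card_pow _
  -- the pairing
  have hmm : ∀ (χ : Xs) (ψ : Ys), mm F' φ ω χ.1.1 ψ.1.1 = if ψ = β χ then 1 else 0 := by
    intro χ ψ
    have hac : ∀ (m : J → N) (n : J → O → N),
        φ ⟨F (cs m), hcsH m⟩ n = cs m * n * (cs m)⁻¹ := by
      intro m n
      obtain ⟨h1, h2, h3⟩ := hdi m (hcsH m)
      funext o j
      have h4 := hφa ⟨F (cs m), hcsH m⟩ n o j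
      have h5 : σ ⟨F (cs m), hcsH m⟩ = 1 := h1
      have h6 : ∀ o, τ ⟨F (cs m), hcsH m⟩ o = MulAut.conj (m o) := h2
      have h7 : ∀ o, π ⟨F (cs m), hcsH m⟩ o = 1 := h3
      rw [h4, h5, h6, h7]
      rfl
    let K := (J → O → N) ⋊[φ.comp (L.subgroupOf (NN P)).subtype] (L.subgroupOf (NN P))
    let Ψ : (J → O → N) × (J → N) →* K :=
      { toFun := fun x => ⟨x.1 * (cs x.2)⁻¹, F2 x.2⟩
        map_one' := by
          ext
          · simp
          · simp
        map_mul' := fun x y => by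
          have e : ∀ n, (φ.comp (L.subgroupOf (NN P)).subtype) (F2 x.2) n =
              cs x.2 * n * (cs x.2)⁻¹ := fun n => hac x.2 n
          apply SemidirectProduct.ext
          · rw [mul_left, e]
            simp only [Prod.fst_mul, Prod.snd_mul, map_mul]
            group
          · rw [mul_right]
            exact map_mul F2 _ _ }
    have hΨ : Function.Surjective Ψ := by
      intro k
      obtain ⟨m, hm⟩ := hF2 k.right
      refine ⟨(k.left * cs m, m), ?_⟩
      apply SemidirectProduct.ext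
      · change k.left * cs m * (cs m)⁻¹ = k.left
        group
      · exact hm
    haveI := Fintype.ofFinite L
    haveI := Fintype.ofFinite (L.subgroupOf (NN P))
    haveI := Fintype.ofFinite K
    haveI := Fintype.ofFinite (J → O → N)
    haveI := Fintype.ofFinite (J → N)
    unfold mm
    rw [pr_eq, ← B_infl Ψ hΨ]
    have e1 : (fun x => (fun k : K => ω ⟨k.left, k.right⟩) (Ψ x)) =
        ∑ s : J → X p N, ten (fun n : J → O → N => ∏ o, ∏ j, (s o).1 (n o j))
          (fun m : J → N => ∏ o, (e (s o)).1 (m o)⁻¹) := by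
      funext x
      obtain ⟨n, m⟩ := x
      rw [Finset.sum_apply]
      obtain ⟨d1, d2, d3⟩ := hdi m (hcsH m)
      have h1 : ω ⟨n * (cs m)⁻¹, ⟨F (cs m), hcsH m⟩⟩ = _ :=
        hωf (n * (cs m)⁻¹) ⟨F (cs m), hcsH m⟩ d1
      have h2 : ∀ o, ω₀ ⟨(n * (cs m)⁻¹) o, c ⟨F (cs m), hcsH m⟩ o⟩ =
          ∑ χ : X p N, (∏ j, χ.1 (n o j)) * (e χ).1 (m o)⁻¹ := by
        intro o
        have h3 : c ⟨F (cs m), hcsH m⟩ o = (MulAut.conj (m o), 1) := Prod.ext (d2 o) (d3 o)
        rw [h3]
        have h4 := hω₀f (n o) (m o) (MulAut.conj (m o)) rfl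
        simp only [he]
        exact h4
      change ω ⟨n * (cs m)⁻¹, ⟨F (cs m), hcsH m⟩⟩ = _
      rw [h1]
      simp_rw [h2]
      rw [Finset.prod_univ_sum]
      unfold ten
      simp only [Finset.prod_mul_distrib]
      refine Finset.sum_congr (by ext; simp) fun s _ => rfl
    have e2 : (fun x => (fun k : K => χ.1.1 (F' k.left * vv L (NN P) k.right) *
        ψ.1.1 k.right⁻¹) (Ψ x)) =
        ten (fun n : J → O → N => χ.1.1 (F' n)) (fun m : J → N => ψ.1.1 (F2 m⁻¹)) := by
      funext x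
      obtain ⟨n, m⟩ := x
      change χ.1.1 (F' (n * (cs m)⁻¹) * vv L (NN P) (F2 m)) * ψ.1.1 (F2 m)⁻¹ =
        χ.1.1 (F' n) * ψ.1.1 (F2 m⁻¹)
      have h1 : vv L (NN P) (F2 m) = F' (cs m) := rfl
      have h3 : F2 m⁻¹ = (F2 m)⁻¹ := map_inv F2 m
      have h4 : n * (cs m)⁻¹ * cs m = n := by group
      rw [h1, ← map_mul, h4, h3]
    rw [e1, e2, IC.B_sum_left]
    have h1 : ∀ s : J → X p N, IC.B (fun n : J → O → N => ∏ o, ∏ j, (s o).1 (n o j))
        (fun n : J → O → N => χ.1.1 (F' n)) = if s = S1' χ then 1 else 0 := by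
      intro s
      refine (IC.B_irr (xO fun o => xO fun _ : O => s o).2.1 (cover F' hF' χ.1).1).trans ?_
      refine if_congr ⟨fun h => ?_, fun h => ?_⟩ rfl rfl
      · refine U1 _ _ fun n => ?_
        rw [← hS1 χ n]
        exact congrFun h n
      · rw [h]
        funext n
        exact (hS1 χ n).symm
    rw [Finset.sum_congr rfl fun s _ => B_ten _ _ _ _]
    rw [Finset.sum_eq_single (S1' χ)]
    · rw [h1, if_pos rfl, one_mul]
      have h2 : IsIrr fun m : J → N => ∏ o, (e (S1' χ o)).1 (m o)⁻¹ :=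
        irr_inv (xO fun o => e (S1' χ o)).2.1
      have h3 : IsIrr fun m : J → N => ψ.1.1 (F2 m⁻¹) := irr_inv (cover F2 hF2 ψ.1).1
      rw [IC.B_irr h2 h3]
      refine if_congr ⟨fun h => ?_, fun h => ?_⟩ rfl rfl
      · apply Subtype.ext
        apply Subtype.ext
        funext l
        obtain ⟨m, rfl⟩ := hF2 l
        have h4 := congrFun h m⁻¹
        simp only [inv_inv, Pi.inv_apply] at h4
        rw [hβ, hb, h4]
      · rw [h, hβ]
        funext m
        rw [hb]
        rfl
    · intro s _ hs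
      rw [h1, if_neg hs, zero_mul]
    · intro h
      exact absurd (Finset.mem_univ _) h
  exact transfer2 F' φ hφ hω Xs Ys β hmm hXs (fun _ _ _ => trivial) hclβ hF' P le_rfl hsup
    (fun χ hχ => hχ) (fun _ _ => trivial)

end wreb

end Pool.Agent.ZH17.RD
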